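import Mathlib

/-!
# Project TQ: few bad clusters (Chebyshev)

Let `F Y = ∑ i, n i * (h i Y - 1)`.  Then
`∑ Y, F Y ^ 2 = ∑ i, ∑ i', n i n i' ∑ Y, (h i Y - 1)(h i' Y - 1)`.  Pairs with
`cls i ≠ cls i'` contribute at most `δ q (∑ n)^2 ≤ δ q (C M)^2`; pairs with `cls i = cls i'` at most
`q (B + 1)^2 ∑ i, n i ∑_{i', cls i' = cls i} n i' ≤ q (B+1)^2 (C M) (cap M)`.  Every `Y` of the set has
`F Y > κ M ≥ 0`, so `(κ M)^2 |set| ≤ ∑ F Y ^ 2`.
-/

set_option autoImplicit false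

namespace MP_80c395_TP

open Finset

theorem l2_bad {ι κι : Type} [Fintype ι] [DecidableEq ι] [DecidableEq κι] {q : ℕ}
    (h : ι → Fin q → ℝ) (cls : ι → κι) (n : ι → ℝ) (B δ cap C M κ : ℝ) (hM : 0 < M)
    (hκ : 0 < κ) (hn : ∀ i, 0 ≤ n i) (hh : ∀ i Y, |h i Y| ≤ B) (hδ : 0 ≤ δ) (hC : 0 ≤ C)
    (hcap0 : 0 ≤ cap)
    (hcap : ∀ i, ∑ i' ∈ univ.filter (fun i' => cls i' = cls i), n i' ≤ cap * M)
    (hsum : ∑ i, n i ≤ C * M)
    (hcor : ∀ i i', cls i ≠ cls i' → ∑ Y, (h i Y - 1) * (h i' Y - 1) ≤ δ * q) :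
    ((univ.filter (fun Y => ∑ i, n i + κ * M < ∑ i, n i * h i Y)).card : ℝ) ≤
      q * (((B + 1) ^ 2 * cap * C + δ * C ^ 2) / κ ^ 2) := by
  have hq : (0 : ℝ) ≤ q := Nat.cast_nonneg q
  -- pointwise bound
  have ha : ∀ i Y, |h i Y - 1| ≤ B + 1 := fun i Y => by
    have h1 := abs_sub (h i Y) 1
    rw [abs_one] at h1
    exact h1.trans (by linarith [hh i Y])
  have haa : ∀ i i' Y, (h i Y - 1) * (h i' Y - 1) ≤ (B + 1) ^ 2 := fun i i' Y => by
    calc (h i Y - 1) * (h i' Y - 1) ≤ |(h i Y - 1) * (h i' Y - 1)| := le_abs_self _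
      _ = |h i Y - 1| * |h i' Y - 1| := abs_mul _ _
      _ ≤ (B + 1) * (B + 1) :=
        mul_le_mul (ha i Y) (ha i' Y) (abs_nonneg _) ((abs_nonneg _).trans (ha i Y))
      _ = (B + 1) ^ 2 := by ring
  -- correlations
  have hS : ∀ i i', ∑ Y, (h i Y - 1) * (h i' Y - 1) ≤
      (if cls i' = cls i then q * (B + 1) ^ 2 else 0) + δ * q := by
    intro i i'
    by_cases hc : cls i' = cls i
    · rw [if_pos hc]
      have h1 : ∑ Y : Fin q, (h i Y - 1) * (h i' Y - 1) ≤ ∑ _Y : Fin q, (B + 1) ^ 2 :=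
        sum_le_sum fun Y _ => haa i i' Y
      rw [sum_const, card_univ, Fintype.card_fin, nsmul_eq_mul] at h1
      have h2 : 0 ≤ δ * q := mul_nonneg hδ hq
      linarith
    · rw [if_neg hc, zero_add]
      exact hcor i i' fun h => hc h.symm
  -- the second moment
  set F : Fin q → ℝ := fun Y => ∑ i, n i * (h i Y - 1) with hF
  have hexp : ∑ Y, F Y ^ 2 = ∑ i, ∑ i', n i * n i' * ∑ Y, (h i Y - 1) * (h i' Y - 1) := by
    have h1 : ∀ Y, F Y ^ 2 = ∑ i, ∑ i', n i * n i' * ((h i Y - 1) * (h i' Y - 1)) := by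
      intro Y
      rw [hF, sq, sum_mul_sum]
      exact sum_congr rfl fun i _ => sum_congr rfl fun i' _ => by ring
    rw [sum_congr rfl fun Y _ => h1 Y, sum_comm]
    refine sum_congr rfl fun i _ => ?_
    rw [sum_comm]
    exact sum_congr rfl fun i' _ => by rw [mul_sum]
  have hsum0 : 0 ≤ ∑ i, n i := sum_nonneg fun i _ => hn i
  have hrow : ∀ i, ∑ i', n i * n i' * ∑ Y, (h i Y - 1) * (h i' Y - 1) ≤
      n i * (q * (B + 1) ^ 2 * (cap * M) + δ * q * (C * M)) := by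
    intro i
    have h1 : ∑ i', n i * n i' * ∑ Y, (h i Y - 1) * (h i' Y - 1) ≤
        ∑ i', n i * n i' * ((if cls i' = cls i then q * (B + 1) ^ 2 else 0) + δ * q) :=
      sum_le_sum fun i' _ => mul_le_mul_of_nonneg_left (hS i i') (mul_nonneg (hn i) (hn i'))
    have h2 : ∑ i', n i * n i' * ((if cls i' = cls i then q * (B + 1) ^ 2 else 0) + δ * q) =
        n i * (q * (B + 1) ^ 2 * (∑ i' ∈ univ.filter (fun i' => cls i' = cls i), n i') +
          δ * q * ∑ i', n i') := by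
      rw [sum_filter, mul_sum, mul_sum, ← sum_add_distrib, mul_sum]
      refine sum_congr rfl fun i' _ => ?_
      split_ifs <;> ring
    rw [h2] at h1
    refine h1.trans (mul_le_mul_of_nonneg_left (add_le_add ?_ ?_) (hn i))
    · exact mul_le_mul_of_nonneg_left (hcap i) (by positivity)
    · exact mul_le_mul_of_nonneg_left hsum (by positivity)
  have hsec : ∑ Y, F Y ^ 2 ≤
      C * M * (q * (B + 1) ^ 2 * (cap * M) + δ * q * (C * M)) := by
    rw [hexp]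
    refine (sum_le_sum fun i _ => hrow i).trans ?_
    rw [← sum_mul]
    exact mul_le_mul_of_nonneg_right hsum (by positivity)
  -- Chebyshev
  set A : Finset (Fin q) := univ.filter (fun Y => ∑ i, n i + κ * M < ∑ i, n i * h i Y) with hA
  have hAF : ∀ Y ∈ A, (κ * M) ^ 2 ≤ F Y ^ 2 := by
    intro Y hY
    have h1 : ∑ i, n i + κ * M < ∑ i, n i * h i Y := (mem_filter.1 hY).2
    have h2 : F Y = ∑ i, n i * h i Y - ∑ i, n i := by
      rw [hF, ← sum_sub_distrib]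
      exact sum_congr rfl fun i _ => by ring
    have h3 : κ * M ≤ F Y := by
      rw [h2]
      linarith
    exact pow_le_pow_left₀ (by positivity) h3 2
  have hcheb : (A.card : ℝ) * (κ * M) ^ 2 ≤ ∑ Y, F Y ^ 2 := by
    calc (A.card : ℝ) * (κ * M) ^ 2 = ∑ _Y ∈ A, (κ * M) ^ 2 := by
          rw [sum_const, nsmul_eq_mul]
      _ ≤ ∑ Y ∈ A, F Y ^ 2 := sum_le_sum hAF
      _ ≤ ∑ Y, F Y ^ 2 :=
        sum_le_sum_of_subset_of_nonneg (subset_univ _) fun Y _ _ => sq_nonneg _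
  have hκM : 0 < (κ * M) ^ 2 := by positivity
  have hfin : (A.card : ℝ) ≤
      C * M * (q * (B + 1) ^ 2 * (cap * M) + δ * q * (C * M)) / (κ * M) ^ 2 := by
    rw [le_div_iff₀ hκM]
    exact hcheb.trans hsec
  refine hfin.trans (le_of_eq ?_)
  field_simp

end MP_80c395_TP
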