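import Pool.Agent.Lib.MP_80c395_co_TQ.QRc
import Pool.Agent.Lib.MP_80c395_co_TQ.L2Bad

/-!
# Project TQ: the bad clusters of trees and hosts

`bt i`: the clusters `Y` with `∑ z ∈ md i, ac z + κ₅ M < ∑ z ∈ md i, ac z * fre (φ i z).1 Y`.
Apply `l2_bad` (L2Bad.lean, stub) with `ι = κι = Fin q`, `cls = id`, `h U Y = fre ω U Y`, `n U = ∑
z ∈ md i, (φ i z).1 = U, ac z`, bound `B` for `h`, `δ = 2 θc`, `cap = δ₅` (`clT`), `C = 1` (`∑ U,
n U = ∑ z ∈ md i, ac z ≤ mm i ≤ M`: every piece is attached to at most one centre, and the roots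
are different vertices), `κ = κ₅`.  Correlation of `U ≠ U'`: the terms `Y = U, U'` are at most
`B^2` each (`|fre - 1| ≤ B`), `2 B^2 ≤ θc q`. `bu u`: the clusters `Y` with `∑ i, ∑ z ∈ md i, φ i
z = u, ac z + κ₅ M < ∑ i, ∑ z, ac z * gg (X i) (S i) Y`; `ι = Fin k`, `cls i = X i`, `h i = gg (X
i) (S i)`, `cap = δ₅` (`clX`), `C = 2` (`star`, `bm2`). Both sets have at most `q ((B + 1)^2 * 2
δ₅ + 2 θc * 4) / κ₅^2 ≤ κ₄ q` elements.
-/

set_option autoImplicit false

namespace MP_80c395_TP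

open Finset

variable {q R : ℕ} {P : Par q R} {ε B : ℝ} {G : Type} [Fintype G] [DecidableEq G] [Nonempty G]

open Classical in
/-- bad clusters of a tree -/
noncomputable def btr (P : Par q R) (A : Plc q R G) (ω : Om q R) (κ₅ : ℝ) (i : Fin A.k) :
    Finset (Fin q) :=
  univ.filter (fun Y => ∑ z ∈ A.md i, (ac (A.d i) z : ℝ) + κ₅ * A.M <
    ∑ z ∈ A.md i, (ac (A.d i) z : ℝ) * P.fre ω (A.φ i z).1 Y)

open Classical in
/-- bad clusters of a host -/
noncomputable def bho (P : Par q R) (A : Plc q R G) (ω : Om q R) (κ₅ : ℝ) (u : Fin q × G) :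
    Finset (Fin q) :=
  univ.filter (fun Y => ∑ i, ∑ z ∈ (A.md i).filter (fun z => A.φ i z = u), (ac (A.d i) z : ℝ) +
      κ₅ * A.M <
    ∑ i, ∑ z ∈ (A.md i).filter (fun z => A.φ i z = u),
      (ac (A.d i) z : ℝ) * P.gg ω (A.X i) (A.S i) Y)

/-- `|x - 1| ≤ B` for `0 ≤ x ≤ B` -/
private theorem abs_sub_one {x B : ℝ} (h0 : 0 ≤ x) (h1 : x ≤ B) (hB : 4 ≤ B) : |x - 1| ≤ B := by
  rw [abs_le]
  constructor <;> linarith

/-- two excluded terms -/
private theorem cor_aux {q : ℕ} {f g : Fin q → ℝ} {B θc : ℝ} (hB : 0 ≤ B) (X X' : Fin q)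
    (hX : X ≠ X') (hf : ∀ Y, |f Y - 1| ≤ B) (hg : ∀ Y, |g Y - 1| ≤ B)
    (h : |∑ Y ∈ univ.filter (fun Y => Y ≠ X ∧ Y ≠ X'), (f Y - 1) * (g Y - 1)| ≤ θc * q)
    (hq : 2 * B ^ 2 ≤ θc * q) : ∑ Y, (f Y - 1) * (g Y - 1) ≤ 2 * θc * q := by
  have ht : ∀ Y, (f Y - 1) * (g Y - 1) ≤ B ^ 2 := fun Y => by
    calc (f Y - 1) * (g Y - 1) ≤ |(f Y - 1) * (g Y - 1)| := le_abs_self _
      _ = |f Y - 1| * |g Y - 1| := abs_mul _ _
      _ ≤ B * B := mul_le_mul (hf Y) (hg Y) (abs_nonneg _) hB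
      _ = B ^ 2 := by ring
  have h1 := (le_abs_self _).trans h
  have h2 : univ.filter (fun Y : Fin q => ¬ (Y ≠ X ∧ Y ≠ X')) = {X, X'} := by
    ext Y
    simp only [mem_filter, mem_univ, true_and, mem_insert, mem_singleton]
    tauto
  have h3 := sum_filter_add_sum_filter_not (univ : Finset (Fin q)) (fun Y => Y ≠ X ∧ Y ≠ X')
    (fun Y => (f Y - 1) * (g Y - 1))
  rw [h2, sum_pair hX] at h3
  have h4 := ht X
  have h5 := ht X'
  linarith

/-- every piece is attached to at most one centre -/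
private theorem sum_ac_le {m : ℕ} {T : SimpleGraph (Fin m)} {d : Dec m} {D₁ D K : ℕ}
    (hd : DecOK T d D₁ D K) (Z : Finset (Fin m)) : ∑ z ∈ Z, ac d z ≤ m := by
  classical
  have h1 : ∑ z ∈ Z, ac d z ≤ d.np := by
    unfold ac
    have h2 : ∀ z ∈ Z, ∀ z' ∈ Z, z ≠ z' → Disjoint (univ.filter (fun t => d.att t = some z))
        (univ.filter (fun t => d.att t = some z')) := by
      intro z _ z' _ hz
      rw [disjoint_left]
      intro t ht ht'
      have h3 := (mem_filter.1 ht).2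
      have h4 := (mem_filter.1 ht').2
      rw [h3] at h4
      exact hz (Option.some.inj h4)
    rw [← card_biUnion h2]
    refine (card_le_univ _).trans ?_
    rw [Fintype.card_fin]
  refine h1.trans ?_
  have h5 : Function.Injective (fun t : Fin d.np => d.sg t (d.rt t)) := fun t t' h =>
    (hd.inj _ _ _ _ h).1
  have h6 := Fintype.card_le_of_injective _ h5
  rwa [Fintype.card_fin, Fintype.card_fin] at h6

theorem bad_small (hP : ParOK P ε B) {A : Plc q R G} {D₁ D K Λ : ℕ} {ε₂ γ κ₄ δ₅ γh : ℝ}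
    {bm : Fin q → ℝ} (hA : PlcOK A P D₁ D K Λ B ε₂ γ κ₄ δ₅ γh bm) {ω : Om q R} {θ θc κ₅ : ℝ}
    (hω : QRc P A B θ θc γ ω) (hq : 2 * B ^ 2 ≤ θc * q) (hκ₅ : 0 < κ₅) (hδ₅ : 0 ≤ δ₅)
    (hnum : (B + 1) ^ 2 * 2 * δ₅ + 8 * θc ≤ κ₄ * κ₅ ^ 2) :
    (∀ i, ((btr P A ω κ₅ i).card : ℝ) ≤ κ₄ * q) ∧ ∀ u, ((bho P A ω κ₅ u).card : ℝ) ≤ κ₄ * q := by
  classical
  have hB4 : 4 ≤ B := B_ge hP
  have hB0 : 0 ≤ B := by linarith
  have hq0 : (0 : ℝ) < q := by exact_mod_cast hP.q0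
  have hθc : 0 ≤ θc := by
    by_contra h
    push Not at h
    have h1 : θc * q < 0 := mul_neg_of_neg_of_pos h hq0
    nlinarith [sq_nonneg B]
  have hG0 : (0 : ℝ) < Fintype.card G := by exact_mod_cast Fintype.card_pos
  have hM : 0 < A.M := mul_pos hq0 hG0
  have hκ2 : 0 < κ₅ ^ 2 := by positivity
  have hBδ : 0 ≤ (B + 1) ^ 2 * δ₅ := mul_nonneg (sq_nonneg _) hδ₅
  constructor
  · intro i
    set n : Fin q → ℝ := fun U => ∑ z ∈ (A.md i).filter (fun z => (A.φ i z).1 = U),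
      (ac (A.d i) z : ℝ) with hn
    have hfib : ∀ f : Fin q → ℝ, ∑ z ∈ A.md i, (ac (A.d i) z : ℝ) * f (A.φ i z).1 =
        ∑ U, n U * f U := by
      intro f
      rw [← sum_fiberwise (A.md i) (fun z => (A.φ i z).1)]
      refine sum_congr rfl fun U _ => ?_
      rw [hn, sum_mul]
      refine sum_congr rfl fun z hz => ?_
      rw [(mem_filter.1 hz).2]
    have hfib1 : ∑ z ∈ A.md i, (ac (A.d i) z : ℝ) = ∑ U, n U := by
      have h1 := hfib (fun _ => 1)
      simpa only [mul_one] using h1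
    have hsum : ∑ U, n U ≤ 1 * A.M := by
      rw [← hfib1, one_mul]
      refine le_trans ?_ (hA.m_le i)
      exact_mod_cast sum_ac_le (hA.dec i) (A.md i)
    have hl := l2_bad (fun U Y => P.fre ω U Y) (id : Fin q → Fin q) n B (2 * θc) δ₅ 1 A.M κ₅ hM
      hκ₅ (fun U => sum_nonneg fun z _ => Nat.cast_nonneg _)
      (fun U Y => by
        have h1 := fre_bd hP ω U Y
        rw [abs_of_nonneg h1.1]
        exact h1.2) (by linarith) zero_le_one hδ₅
      (fun U => by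
        have h1 : univ.filter (fun U' : Fin q => id U' = id U) = {U} := by
          ext U'
          simp
        rw [h1, sum_singleton]
        exact hA.clT i U) hsum
      (fun U U' hU => by
        refine cor_aux hB0 U U' hU
          (fun Y => abs_sub_one (fre_bd hP ω U Y).1 (fre_bd hP ω U Y).2 hB4)
          (fun Y => abs_sub_one (fre_bd hP ω U' Y).1 (fre_bd hP ω U' Y).2 hB4) ?_ hq
        exact hω.f0 U U' hU)
    have heq : btr P A ω κ₅ i =
        univ.filter (fun Y => ∑ U, n U + κ₅ * A.M < ∑ U, n U * P.fre ω U Y) := by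
      unfold btr
      refine filter_congr fun Y _ => ?_
      rw [hfib1, hfib (fun U => P.fre ω U Y)]
    rw [heq]
    refine hl.trans ?_
    rw [mul_comm κ₄]
    refine mul_le_mul_of_nonneg_left ?_ hq0.le
    rw [div_le_iff₀ hκ2]
    linarith
  · intro u
    set n : Fin A.k → ℝ := fun i => ∑ z ∈ (A.md i).filter (fun z => A.φ i z = u),
      (ac (A.d i) z : ℝ) with hn
    have hsum : ∑ i, n i ≤ 2 * A.M :=
      (hA.star u).trans (mul_le_mul_of_nonneg_right (hA.bm2 u.1) hM.le)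
    have hl := l2_bad (fun i Y => P.gg ω (A.X i) (A.S i) Y) A.X n B (2 * θc) δ₅ 2 A.M κ₅ hM
      hκ₅ (fun i => sum_nonneg fun z _ => Nat.cast_nonneg _)
      (fun i Y => by
        have h1 := gg_bd hP (hA.vd i) ω Y
        rw [abs_of_nonneg h1.1]
        exact h1.2) (by linarith) zero_le_two hδ₅
      (fun i => hA.clX u (A.X i)) hsum
      (fun i i' hi => by
        refine cor_aux hB0 (A.X i) (A.X i') hi
          (fun Y => abs_sub_one (gg_bd hP (hA.vd i) ω Y).1 (gg_bd hP (hA.vd i) ω Y).2 hB4)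
          (fun Y => abs_sub_one (gg_bd hP (hA.vd i') ω Y).1 (gg_bd hP (hA.vd i') ω Y).2 hB4) ?_ hq
        exact hω.g0 (A.X i) (A.X i') (A.S i) (A.S i') hi (hA.vd i) (hA.vd i'))
    have heq : bho P A ω κ₅ u =
        univ.filter (fun Y => ∑ i, n i + κ₅ * A.M < ∑ i, n i * P.gg ω (A.X i) (A.S i) Y) := by
      unfold bho
      refine filter_congr fun Y _ => ?_
      have h1 : ∑ i, ∑ z ∈ (A.md i).filter (fun z => A.φ i z = u),
          (ac (A.d i) z : ℝ) * P.gg ω (A.X i) (A.S i) Y =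
          ∑ i, n i * P.gg ω (A.X i) (A.S i) Y := by
        refine sum_congr rfl fun i _ => ?_
        rw [hn, sum_mul]
      rw [h1]
    rw [heq]
    refine hl.trans ?_
    rw [mul_comm κ₄]
    refine mul_le_mul_of_nonneg_left ?_ hq0.le
    rw [div_le_iff₀ hκ2]
    linarith

end MP_80c395_TP
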