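import Pool.Agent.Lib.MP_80c395_co_TQ.RowLaw

/-!
# Project TQ: the stationary law of a tree

`H = Fin q × G`, `M = q * card G`, `τ = θ / ε` (`30 τ ≤ η ≤ 1/2`).  `nk v`: `v ∈ F ∨ v.1 = X ∨ v.1 ∈ bt`.
For `v.1 ≠ X` let `r v w = 0` if `nk w ∨ zz v w`, else `S0 v.1 w.1 * (gg w.1 * fre v.1 w.1)`, `R v = ∑ w, r v w`;
`|R v - M a0| ≤ 3 θ M` (`row_sum`), so `M a0 (1 - 3 τ) ≤ R v ≤ M a0 (1 + 3 τ)`.
`κ v w = r v w / R v` if `v.1 ≠ X`, the default row (`def_row`, with `ex w := w ∈ F ∨ zz v w`) if `v.1 = X`.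
`y v w = 0` if `nk v`, else `gg v.1 * r v w`: symmetric (`S0s`, `fre_comm`, `zz` symmetric);
`deg v = ∑ w, y v w = gg v.1 * R v` for `¬ nk v`, `0` otherwise; `Tot = ∑ v, deg v`, `π v = deg v / Tot`.
`∑ v with ¬ nk v, gg a0`: it is `card G * ∑ V ≠ X, gg a0` (within `θ M` of `card G * ∑ V ≠ X, a0`,
which is between `M - 2 card G ≥ M - θ M` and `M`) minus the terms with `nk v`, `v.1 ≠ X`, together at most
`2 B κ₃ M ≤ θ M`.  So it is in `[M (1 - 3 θ), M (1 + θ)]`, and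
`M^2 (1 - 6 τ) ≤ M^2 (1 - 3 θ) (1 - 3 τ) ≤ Tot ≤ M^2 (1 + θ) (1 + 3 τ) ≤ M^2 (1 + 5 τ)`.
`π v ≤ gg a0 (1 + 3 τ) / (M (1 - 6 τ)) ≤ (1 + 20 τ) gg a0 / M`, and `≥ (1 - 3 τ)/(1 + 5 τ) ≥ 1 - 8 τ ≥
1 - 3 η / 10` times `gg a0 / M`.
`π v * κ v w = y v w / Tot` (`v.1 ≠ X` whenever `π v ≠ 0`; if `gg v.1 = 0` both are `0`)
`≤ S0 gg gg fre / (M^2 (1 - 6 τ)) ≤ (1 + 12 τ) ...`.
Stationary: `∑ v, π v κ v w = ∑ v, y v w / Tot = ∑ v, y w v / Tot = π w`.
`κ v w ≤ B^4 / M`: `row_law`: `κ ≤ (1 + 6 τ) ε B * (B * B) / (ε M) ≤ 2 B^3 / M`; default row `2 B / M`.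
-/

set_option autoImplicit false

namespace MP_80c395_TP

open Finset

variable {q R : ℕ} {P : Par q R} {ε B : ℝ} {G : Type} [Fintype G] [DecidableEq G] [Nonempty G]

open Classical in
theorem base_law (hP : ParOK P ε B) (ω : Om q R) {X : Fin q} {S : Finset (Fin R)}
    (hS : P.Vd B X S) (F : Finset (Fin q × G)) (bt : Finset (Fin q))
    (zz : Fin q × G → Fin q × G → Prop) (hzz : ∀ v w, zz v w → zz w v) {θ κ₃ η : ℝ}
    (h1 : ∀ V, V ≠ X → |∑ W ∈ univ.filter (fun W => W ≠ X ∧ W ≠ V),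
          P.S0 V W * (P.gg ω X S W * P.fre ω V W) -
        ∑ W ∈ univ.filter (fun W => W ≠ X ∧ W ≠ V), P.S0 V W| ≤ θ * q)
    (h9 : |∑ V ∈ univ.filter (fun V => V ≠ X), P.a0 V * P.gg ω X S V -
        ∑ V ∈ univ.filter (fun V => V ≠ X), P.a0 V| ≤ θ * q)
    (h8 : ∀ V, |∑ W ∈ univ.filter (fun W => W ≠ V), P.pf V W * P.fre ω V W -
        ∑ W ∈ univ.filter (fun W => W ≠ V), P.pf V W| ≤ θ * q)
    (hq : 2 * B ≤ θ * q)
    (hexc : ∀ v, ((univ.filter (fun w : Fin q × G => w ∈ F ∨ w.1 = X ∨ w.1 ∈ bt ∨ zz v w)).card : ℝ) ≤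
      κ₃ * (q * Fintype.card G))
    (hκ : B ^ 3 * κ₃ ≤ θ) (hθ : 30 * θ ≤ η * ε) (hη : η ≤ 1 / 2) (hθB : 6 * B * θ ≤ 1) :
    ∃ (π : Fin q × G → ℝ) (κ : Fin q × G → Fin q × G → ℝ),
      (∀ v, 0 ≤ π v) ∧ ∑ v, π v = 1 ∧ (∀ v, π v ≠ 0 → v ∉ F ∧ v.1 ≠ X ∧ v.1 ∉ bt) ∧
      (∀ v, π v ≤ (1 + η) * (P.gg ω X S v.1 * P.a0 v.1 / (q * Fintype.card G))) ∧
      (∀ v, v ∉ F → v.1 ≠ X → v.1 ∉ bt →
        (1 - 3 * η / 10) * (P.gg ω X S v.1 * P.a0 v.1 / (q * Fintype.card G)) ≤ π v) ∧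
      (∀ v w, 0 ≤ κ v w) ∧ (∀ v, ∑ w, κ v w = 1) ∧
      (∀ v w, κ v w ≠ 0 → w ∉ F ∧ P.fre ω v.1 w.1 ≠ 0 ∧ ¬ zz v w) ∧
      (∀ v w, κ v w ≤ B ^ 4 / (q * Fintype.card G)) ∧
      (∀ w, ∑ v, π v * κ v w = π w) ∧
      (∀ v w, π v * κ v w ≠ 0 → v.1 ≠ X ∧ w.1 ≠ X) ∧
      ∀ v w, π v * κ v w ≤ (1 + η) * (P.S0 v.1 w.1 * (P.gg ω X S v.1 * P.gg ω X S w.1) *
        P.fre ω v.1 w.1 / (q * Fintype.card G) ^ 2) := by
  have hB4 := B_ge hP
  have hq0 : (0 : ℝ) < q := by exact_mod_cast hP.q0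
  have hG0 : (0 : ℝ) < Fintype.card G := by exact_mod_cast Fintype.card_pos
  have hε0 := hP.ε0
  have hε1 := hP.ε1
  have hθ0 : 0 < θ := by
    by_contra hcon
    have h3 : θ * q ≤ 0 := mul_nonpos_of_nonpos_of_nonneg (not_lt.mp hcon) hq0.le
    linarith
  obtain ⟨τ, hτ⟩ : ∃ τ, τ = θ / ε := ⟨_, rfl⟩
  have hτε : τ * ε = θ := by rw [hτ]; field_simp
  have hτ0 : 0 < τ := by rw [hτ]; positivity
  have hθτ : θ ≤ τ := by nlinarith
  have h30 : 30 * τ ≤ η := by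
    by_contra hcon
    have h3 := mul_lt_mul_of_pos_right (not_le.mp hcon) hε0
    have h4 : 30 * τ * ε = 30 * θ := by rw [mul_assoc, hτε]
    linarith
  obtain ⟨M, hM⟩ : ∃ M : ℝ, M = q * Fintype.card G := ⟨_, rfl⟩
  have hM0 : 0 < M := by rw [hM]; positivity
  obtain ⟨g, hg⟩ : ∃ g : Fin q → ℝ, g = fun V => P.gg ω X S V := ⟨_, rfl⟩
  have hgb : ∀ V, 0 ≤ g V ∧ g V ≤ B := by
    intro V
    rw [hg]
    exact gg_bd hP hS ω V
  obtain ⟨ex, hexd⟩ : ∃ ex : Fin q × G → Fin q × G → Prop,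
      ex = fun v w => w ∈ F ∨ w.1 = X ∨ w.1 ∈ bt ∨ zz v w := ⟨_, rfl⟩
  obtain ⟨nk, hnk⟩ : ∃ nk : Fin q × G → Prop,
      nk = fun v => v ∈ F ∨ v.1 = X ∨ v.1 ∈ bt := ⟨_, rfl⟩
  have hexn : ∀ v w, ex v w ↔ nk w ∨ zz v w := by
    intro v w
    rw [hexd, hnk]
    simp only
    tauto
  have hexc' : ∀ v, ((univ.filter (ex v)).card : ℝ) ≤ κ₃ * (q * Fintype.card G) := by
    intro v
    have h3 := hexc v
    rw [hexd]
    convert h3
  have hfre : ∀ V W, 0 ≤ P.fre ω V W ∧ P.fre ω V W ≤ B := fun V W => fre_bd hP ω V W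
  have hS0 : ∀ V W, 0 ≤ P.S0 V W ∧ P.S0 V W ≤ B := by
    intro V W
    refine ⟨hP.S00 V W, (hP.S0B V W).trans ?_⟩
    nlinarith
  obtain ⟨r, hr⟩ : ∃ r : Fin q × G → Fin q × G → ℝ, r = fun v w =>
      if ex v w then 0 else P.S0 v.1 w.1 * (P.gg ω X S w.1 * P.fre ω v.1 w.1) := ⟨_, rfl⟩
  have hr1 : ∀ v w, ex v w → r v w = 0 := by
    intro v w h
    rw [hr]
    simp only [if_pos h]
  have hr2 : ∀ v w, ¬ ex v w → r v w = P.S0 v.1 w.1 * (g w.1 * P.fre ω v.1 w.1) := by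
    intro v w h
    rw [hr, hg]
    simp only [if_neg h]
  have hrle : ∀ v w, 0 ≤ r v w ∧ r v w ≤ P.S0 v.1 w.1 * (g w.1 * P.fre ω v.1 w.1) := by
    intro v w
    have h3 : 0 ≤ P.S0 v.1 w.1 * (g w.1 * P.fre ω v.1 w.1) :=
      mul_nonneg (hS0 _ _).1 (mul_nonneg (hgb _).1 (hfre _ _).1)
    by_cases h : ex v w
    · rw [hr1 v w h]
      exact ⟨le_refl _, h3⟩
    · rw [hr2 v w h]
      exact ⟨h3, le_refl _⟩
  obtain ⟨Rr, hRr⟩ : ∃ Rr : Fin q × G → ℝ, Rr = fun v => ∑ w, r v w := ⟨_, rfl⟩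
  have hRb : ∀ v, v.1 ≠ X → M * P.a0 v.1 * (1 - 3 * τ) ≤ Rr v ∧
      Rr v ≤ M * P.a0 v.1 * (1 + 3 * τ) := by
    intro v hv
    have h3 := row_sum hP ω (Ne.symm hv) hS (fun W => P.S0 v.1 W) (fun W => (hS0 _ W).1)
      (fun W => (hS0 _ W).2) (hP.S0r v.1) (h1 v.1 hv) hq (ex v)
      (fun w hw => by rw [hexd]; exact Or.inr (Or.inl hw)) (hexc' v) hκ
    have h4 : Rr v = ∑ w : Fin q × G, (if ex v w then 0 else
        P.S0 v.1 w.1 * (P.gg ω X S w.1 * P.fre ω v.1 w.1)) := by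
      rw [hRr, hr]
    rw [← h4, ← hM] at h3
    have h5 := hP.a0_lo v.1
    have h6 : θ ≤ τ * P.a0 v.1 := by
      rw [← hτε]
      exact mul_le_mul_of_nonneg_left h5 hτ0.le
    have h7 : 3 * θ * M ≤ 3 * (τ * P.a0 v.1) * M := by
      apply mul_le_mul_of_nonneg_right _ hM0.le
      linarith
    obtain ⟨h8', h9'⟩ := abs_le.mp h3
    constructor
    · nlinarith
    · nlinarith
  have hRp : ∀ v, v.1 ≠ X → M * ε / 2 ≤ Rr v := by
    intro v hv
    have h3 := (hRb v hv).1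
    have h5 := hP.a0_lo v.1
    have h6 : (1 : ℝ) / 2 ≤ 1 - 3 * τ := by linarith
    have h7 : M * ε ≤ M * P.a0 v.1 := mul_le_mul_of_nonneg_left h5 hM0.le
    have h8' : 0 ≤ M * ε := by positivity
    nlinarith
  have hRp' : ∀ v, v.1 ≠ X → 0 < Rr v := by
    intro v hv
    have h3 := hRp v hv
    have h4 : 0 < M * ε / 2 := by positivity
    linarith
  obtain ⟨y, hy⟩ : ∃ y : Fin q × G → Fin q × G → ℝ, y = fun v w =>
      if nk v then 0 else g v.1 * r v w := ⟨_, rfl⟩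
  have hy1 : ∀ v w, nk v → y v w = 0 := by
    intro v w h
    rw [hy]
    simp only [if_pos h]
  have hy2 : ∀ v w, ¬ nk v → y v w = g v.1 * r v w := by
    intro v w h
    rw [hy]
    simp only [if_neg h]
  have hy3 : ∀ v w, nk w → y v w = 0 := by
    intro v w h
    by_cases h3 : nk v
    · exact hy1 v w h3
    · rw [hy2 v w h3, hr1 v w ((hexn v w).2 (Or.inl h)), mul_zero]
  have hy4 : ∀ v w, zz v w → y v w = 0 := by
    intro v w h
    by_cases h3 : nk v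
    · exact hy1 v w h3
    · rw [hy2 v w h3, hr1 v w ((hexn v w).2 (Or.inr h)), mul_zero]
  have hys : ∀ v w, y v w = y w v := by
    intro v w
    by_cases h3 : nk v
    · rw [hy1 v w h3, hy3 w v h3]
    by_cases h4 : nk w
    · rw [hy3 v w h4, hy1 w v h4]
    by_cases h5 : zz v w
    · rw [hy4 v w h5, hy4 w v (hzz v w h5)]
    have h6 : ¬ zz w v := fun h => h5 (hzz w v h)
    rw [hy2 v w h3, hy2 w v h4, hr2 v w (fun h => ((hexn v w).1 h).elim h4 h5),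
      hr2 w v (fun h => ((hexn w v).1 h).elim h3 h6), hP.S0s v.1 w.1, fre_comm ω v.1 w.1]
    ring
  have hyb : ∀ v w, 0 ≤ y v w ∧
      y v w ≤ P.S0 v.1 w.1 * (g v.1 * g w.1) * P.fre ω v.1 w.1 := by
    intro v w
    have h3 : 0 ≤ P.S0 v.1 w.1 * (g v.1 * g w.1) * P.fre ω v.1 w.1 :=
      mul_nonneg (mul_nonneg (hS0 _ _).1 (mul_nonneg (hgb _).1 (hgb _).1)) (hfre _ _).1
    by_cases h : nk v
    · rw [hy1 v w h]
      exact ⟨le_refl _, h3⟩
    · rw [hy2 v w h]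
      have h4 := hrle v w
      refine ⟨mul_nonneg (hgb _).1 h4.1, ?_⟩
      calc g v.1 * r v w ≤ g v.1 * (P.S0 v.1 w.1 * (g w.1 * P.fre ω v.1 w.1)) :=
            mul_le_mul_of_nonneg_left h4.2 (hgb _).1
        _ = _ := by ring
  obtain ⟨dg, hdg⟩ : ∃ dg : Fin q × G → ℝ, dg = fun v => ∑ w, y v w := ⟨_, rfl⟩
  have hd1 : ∀ v, nk v → dg v = 0 := by
    intro v h
    rw [hdg]
    exact Finset.sum_eq_zero fun w _ => hy1 v w h
  have hd2 : ∀ v, ¬ nk v → dg v = g v.1 * Rr v := by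
    intro v h
    rw [hdg, hRr]
    simp only
    rw [Finset.mul_sum]
    exact Finset.sum_congr rfl fun w _ => hy2 v w h
  have hd0 : ∀ v, 0 ≤ dg v := by
    intro v
    rw [hdg]
    exact Finset.sum_nonneg fun w _ => (hyb v w).1
  have hnX : ∀ v, ¬ nk v → v.1 ≠ X := by
    intro v h h3
    apply h
    rw [hnk]
    exact Or.inr (Or.inl h3)
  obtain ⟨A, hA⟩ : ∃ A : ℝ, A = ∑ v : Fin q × G, (if nk v then 0 else g v.1 * P.a0 v.1) :=
    ⟨_, rfl⟩
  have hdA : ∀ v : Fin q × G, M * (1 - 3 * τ) * (if nk v then 0 else g v.1 * P.a0 v.1) ≤ dg v ∧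
      dg v ≤ M * (1 + 3 * τ) * (if nk v then 0 else g v.1 * P.a0 v.1) := by
    intro v
    by_cases h : nk v
    · rw [if_pos h, hd1 v h, mul_zero, mul_zero]
      exact ⟨le_refl _, le_refl _⟩
    · rw [if_neg h, hd2 v h]
      obtain ⟨h3, h4⟩ := hRb v (hnX v h)
      have h5 := mul_le_mul_of_nonneg_left h3 (hgb v.1).1
      have h6 := mul_le_mul_of_nonneg_left h4 (hgb v.1).1
      constructor
      · calc _ = g v.1 * (M * P.a0 v.1 * (1 - 3 * τ)) := by ring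
          _ ≤ _ := h5
      · calc _ ≤ g v.1 * (M * P.a0 v.1 * (1 + 3 * τ)) := h6
          _ = _ := by ring
  obtain ⟨Tot, hTot⟩ : ∃ Tot : ℝ, Tot = ∑ v, dg v := ⟨_, rfl⟩
  have hT1 : M * (1 - 3 * τ) * A ≤ Tot := by
    rw [hA, hTot, Finset.mul_sum]
    exact Finset.sum_le_sum fun v _ => (hdA v).1
  have hT2 : Tot ≤ M * (1 + 3 * τ) * A := by
    rw [hA, hTot, Finset.mul_sum]
    exact Finset.sum_le_sum fun v _ => (hdA v).2
  -- the bounds of `A`
  have ha0 : ∀ V, 0 ≤ P.a0 V := fun V => by linarith [hP.a0_lo V]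
  have hsum1 : ∑ v : Fin q × G, (if v.1 = X then 0 else g v.1 * P.a0 v.1) =
      Fintype.card G * ∑ V ∈ univ.filter (fun V => V ≠ X), P.a0 V * P.gg ω X S V := by
    rw [Fintype.sum_prod_type, Finset.sum_filter, Finset.mul_sum]
    refine Finset.sum_congr rfl fun V _ => ?_
    change (∑ _y : G, (if V = X then (0 : ℝ) else g V * P.a0 V)) = _
    rw [Finset.sum_const, Finset.card_univ, nsmul_eq_mul]
    congr 1
    by_cases h : V = X
    · rw [if_pos h, if_neg (not_not.mpr h)]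
    · rw [if_neg h, if_pos h, hg]
      ring
  have hsum2 : ∑ V ∈ univ.filter (fun V => V ≠ X), P.a0 V = q - P.a0 X := by
    have h3 : univ.filter (fun V : Fin q => V ≠ X) = univ.erase X := by
      ext V
      simp
    have h4 := Finset.add_sum_erase univ P.a0 (Finset.mem_univ X)
    rw [hP.sa0] at h4
    rw [h3]
    linarith
  have hκ0 : 0 ≤ κ₃ := by
    obtain ⟨v0⟩ : Nonempty (Fin q × G) := by
      have : Nonempty (Fin q) := ⟨⟨0, hP.q0⟩⟩
      infer_instance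
    have h3 := hexc' v0
    rw [← hM] at h3
    by_contra hcon
    have h4 := mul_neg_of_neg_of_pos (not_le.mp hcon) hM0
    have h5 : (0 : ℝ) ≤ ((univ.filter (ex v0)).card : ℝ) := Nat.cast_nonneg _
    linarith
  have hdiff : ∑ v : Fin q × G, (if v.1 = X then 0 else g v.1 * P.a0 v.1) - A ≤ θ * M ∧
      0 ≤ ∑ v : Fin q × G, (if v.1 = X then 0 else g v.1 * P.a0 v.1) - A := by
    rw [hA, ← Finset.sum_sub_distrib]
    have h3 : ∀ v : Fin q × G, 0 ≤ (if v.1 = X then 0 else g v.1 * P.a0 v.1) -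
        (if nk v then 0 else g v.1 * P.a0 v.1) ∧ (if v.1 = X then 0 else g v.1 * P.a0 v.1) -
        (if nk v then 0 else g v.1 * P.a0 v.1) ≤ if nk v then 2 * B else 0 := by
      intro v
      have h4 : 0 ≤ g v.1 * P.a0 v.1 := mul_nonneg (hgb _).1 (ha0 _)
      have h5 : g v.1 * P.a0 v.1 ≤ 2 * B := by
        have h6 : P.a0 v.1 ≤ 2 := by linarith [hP.a0_hi v.1]
        have h7 := mul_le_mul (hgb v.1).2 h6 (ha0 _) (by linarith)
        linarith
      by_cases h : nk v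
      · rw [if_pos h, if_pos h]
        split_ifs
        · constructor <;> linarith
        · constructor <;> linarith
      · rw [if_neg h, if_neg h, if_neg (hnX v h), sub_self]
        exact ⟨le_refl _, le_refl _⟩
    constructor
    · refine (Finset.sum_le_sum fun v _ => (h3 v).2).trans ?_
      rw [← Finset.sum_filter, Finset.sum_const, nsmul_eq_mul]
      obtain ⟨v0⟩ : Nonempty (Fin q × G) := by
        have : Nonempty (Fin q) := ⟨⟨0, hP.q0⟩⟩
        infer_instance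
      have h4 : ((univ.filter nk).card : ℝ) ≤ κ₃ * M := by
        rw [hM]
        refine le_trans ?_ (hexc' v0)
        exact_mod_cast Finset.card_le_card (by
          intro w hw
          rw [Finset.mem_filter] at hw ⊢
          exact ⟨hw.1, (hexn v0 w).2 (Or.inl hw.2)⟩)
      have h5 : 2 * B * κ₃ ≤ θ := by
        refine le_trans ?_ hκ
        apply mul_le_mul_of_nonneg_right _ hκ0
        have h6 : (2 : ℝ) ≤ B ^ 2 := by nlinarith
        calc 2 * B ≤ B ^ 2 * B := mul_le_mul_of_nonneg_right h6 (by linarith)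
          _ = B ^ 3 := by ring
      calc ((univ.filter nk).card : ℝ) * (2 * B) ≤ κ₃ * M * (2 * B) :=
            mul_le_mul_of_nonneg_right h4 (by linarith)
        _ = 2 * B * κ₃ * M := by ring
        _ ≤ θ * M := mul_le_mul_of_nonneg_right h5 hM0.le
    · exact Finset.sum_nonneg fun v _ => (h3 v).1
  have h2q : 2 ≤ θ * q := by linarith
  have hmain : M * (1 - 2 * θ) ≤ ∑ v : Fin q × G, (if v.1 = X then 0 else g v.1 * P.a0 v.1) ∧
      ∑ v : Fin q × G, (if v.1 = X then 0 else g v.1 * P.a0 v.1) ≤ M * (1 + θ) := by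
    rw [hsum1]
    obtain ⟨h3, h4⟩ := abs_le.mp h9
    rw [hsum2] at h3 h4
    have h5 := hP.a0_hi X
    have h6 := ha0 X
    have h7 : (q : ℝ) * (1 - 2 * θ) ≤
        ∑ V ∈ univ.filter (fun V => V ≠ X), P.a0 V * P.gg ω X S V := by
      nlinarith
    have h8' : ∑ V ∈ univ.filter (fun V => V ≠ X), P.a0 V * P.gg ω X S V ≤ q * (1 + θ) := by
      nlinarith
    constructor
    · calc M * (1 - 2 * θ) = Fintype.card G * (q * (1 - 2 * θ)) := by rw [hM]; ring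
        _ ≤ _ := mul_le_mul_of_nonneg_left h7 hG0.le
    · calc _ ≤ Fintype.card G * (q * (1 + θ)) := mul_le_mul_of_nonneg_left h8' hG0.le
        _ = M * (1 + θ) := by rw [hM]; ring
  have hA1 : M * (1 - 3 * τ) ≤ A := by
    have h3 : θ * M ≤ τ * M := mul_le_mul_of_nonneg_right hθτ hM0.le
    nlinarith [hdiff.1, hmain.1]
  have hA2 : A ≤ M * (1 + τ) := by
    have h3 : θ * M ≤ τ * M := mul_le_mul_of_nonneg_right hθτ hM0.le
    nlinarith [hdiff.2, hmain.2]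
  have hτ60 : τ ≤ 1 / 60 := by linarith
  have hMM : 0 < M ^ 2 := by positivity
  have hTl : M ^ 2 * (1 - 6 * τ) ≤ Tot := by
    have h3 : M * (1 - 3 * τ) * (M * (1 - 3 * τ)) ≤ M * (1 - 3 * τ) * A :=
      mul_le_mul_of_nonneg_left hA1 (mul_nonneg hM0.le (by linarith))
    have h4 : M * (1 - 3 * τ) * (M * (1 - 3 * τ)) = M ^ 2 * (1 - 6 * τ) + 9 * (M ^ 2 * τ ^ 2) := by
      ring
    have h5 : 0 ≤ M ^ 2 * τ ^ 2 := by positivity
    linarith
  have hTu : Tot ≤ M ^ 2 * (1 + 5 * τ) := by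
    have h3 : M * (1 + 3 * τ) * A ≤ M * (1 + 3 * τ) * (M * (1 + τ)) :=
      mul_le_mul_of_nonneg_left hA2 (mul_nonneg hM0.le (by linarith))
    have h4 : M * (1 + 3 * τ) * (M * (1 + τ)) = M ^ 2 * (1 + 4 * τ) + M ^ 2 * (3 * τ * τ) := by
      ring
    have h5 : M ^ 2 * (3 * τ * τ) ≤ M ^ 2 * τ := by
      apply mul_le_mul_of_nonneg_left _ hMM.le
      nlinarith
    have h6 : M ^ 2 * (1 + 5 * τ) = M ^ 2 * (1 + 4 * τ) + M ^ 2 * τ := by ring
    linarith
  have hT0 : 0 < Tot := by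
    have h3 : 0 < M ^ 2 * (1 - 6 * τ) := mul_pos hMM (by linarith)
    linarith
  -- default rows
  have hdef : ∀ v : Fin q × G, ∃ κ : Fin q × G → ℝ, (∀ w, 0 ≤ κ w) ∧ ∑ w, κ w = 1 ∧
      (∀ w, κ w ≠ 0 → ¬ ex v w ∧ P.fre ω v.1 w.1 ≠ 0) ∧
      ∀ w, κ w ≤ 2 * B / (q * Fintype.card G) := fun v =>
    def_row hP ω v.1 (h8 v.1) hq (ex v) (hexc' v) hκ hθB
  choose D hD0 hD1 hD2 hD3 using hdef
  have hcore : ∀ v w, dg v / Tot * (if v.1 = X then D v w else r v w / Rr v) = y v w / Tot := by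
    intro v w
    by_cases h : nk v
    · rw [hd1 v h, hy1 v w h, zero_div, zero_mul]
    · have h3 := hnX v h
      have h4 := hRp' v h3
      rw [if_neg h3, hd2 v h, hy2 v w h]
      field_simp
  have hge : ∀ a : ℝ, 0 ≤ a → a / Tot ≤ (1 + η) * (a / M ^ 2) := by
    intro a ha
    rw [div_le_iff₀ hT0]
    have h3 : M ^ 2 ≤ (1 + η) * Tot := by
      have h4 : (1 + η) * (M ^ 2 * (1 - 6 * τ)) ≤ (1 + η) * Tot :=
        mul_le_mul_of_nonneg_left hTl (by linarith)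
      have h5 : M ^ 2 * 1 ≤ M ^ 2 * ((1 + η) * (1 - 6 * τ)) := by
        apply mul_le_mul_of_nonneg_left _ hMM.le
        nlinarith
      linarith
    have h4 : (1 + η) * (a / M ^ 2) * Tot = a * ((1 + η) * Tot / M ^ 2) := by ring
    rw [h4]
    have h5 : 1 ≤ (1 + η) * Tot / M ^ 2 := by
      rw [le_div_iff₀ hMM]
      linarith
    nlinarith
  refine ⟨fun v => dg v / Tot, fun v w => if v.1 = X then D v w else r v w / Rr v,
    fun v => div_nonneg (hd0 v) hT0.le, ?_, ?_, ?_, ?_, ?_, ?_, ?_, ?_, ?_, ?_, ?_⟩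
  · rw [← Finset.sum_div, ← hTot, div_self hT0.ne']
  · intro v hv
    have h3 : ¬ nk v := by
      intro h
      apply hv
      simp only
      rw [hd1 v h, zero_div]
    rw [hnk] at h3
    simp only at h3
    tauto
  · intro v
    rw [← hM]
    simp only
    by_cases h : nk v
    · rw [hd1 v h, zero_div]
      have h3 : 0 ≤ g v.1 * P.a0 v.1 / M := div_nonneg (mul_nonneg (hgb _).1 (ha0 _)) hM0.le
      rw [hg] at h3
      exact mul_nonneg (by linarith) h3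
    · rw [hd2 v h, div_le_iff₀ hT0]
      have h3 := (hRb v (hnX v h)).2
      have h4 := mul_le_mul_of_nonneg_left h3 (hgb v.1).1
      refine h4.trans ?_
      have hgv : g v.1 = P.gg ω X S v.1 := by rw [hg]
      rw [← hgv]
      have h5 : 0 ≤ g v.1 * P.a0 v.1 := mul_nonneg (hgb _).1 (ha0 _)
      have h6 : M ^ 2 * (1 + 3 * τ) ≤ (1 + η) * Tot := by
        have h7 : (1 + η) * (M ^ 2 * (1 - 6 * τ)) ≤ (1 + η) * Tot :=
          mul_le_mul_of_nonneg_left hTl (by linarith)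
        have h8' : M ^ 2 * (1 + 3 * τ) ≤ M ^ 2 * ((1 + η) * (1 - 6 * τ)) := by
          apply mul_le_mul_of_nonneg_left _ hMM.le
          nlinarith
        linarith
      have h7 : g v.1 * (M * P.a0 v.1 * (1 + 3 * τ)) =
          g v.1 * P.a0 v.1 * ((M ^ 2 * (1 + 3 * τ)) / M) := by
        field_simp
      have h8' : (1 + η) * (g v.1 * P.a0 v.1 / M) * Tot =
          g v.1 * P.a0 v.1 * (((1 + η) * Tot) / M) := by ring
      rw [h7, h8']
      apply mul_le_mul_of_nonneg_left _ h5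
      exact div_le_div_of_nonneg_right h6 hM0.le
  · intro v ha hb hc
    rw [← hM]
    have h : ¬ nk v := by
      rw [hnk]
      simp only
      tauto
    simp only
    rw [hd2 v h, le_div_iff₀ hT0]
    have h3 := (hRb v (hnX v h)).1
    have h4 := mul_le_mul_of_nonneg_left h3 (hgb v.1).1
    refine le_trans ?_ h4
    have hgv : g v.1 = P.gg ω X S v.1 := by rw [hg]
    rw [← hgv]
    have h5 : 0 ≤ g v.1 * P.a0 v.1 := mul_nonneg (hgb _).1 (ha0 _)
    have h6 : (1 - 3 * η / 10) * Tot ≤ M ^ 2 * (1 - 3 * τ) := by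
      have h7 : (1 - 3 * η / 10) * Tot ≤ (1 - 3 * η / 10) * (M ^ 2 * (1 + 5 * τ)) :=
        mul_le_mul_of_nonneg_left hTu (by linarith)
      have h8' : M ^ 2 * ((1 - 3 * η / 10) * (1 + 5 * τ)) ≤ M ^ 2 * (1 - 3 * τ) := by
        apply mul_le_mul_of_nonneg_left _ hMM.le
        nlinarith
      linarith
    have h7 : g v.1 * (M * P.a0 v.1 * (1 - 3 * τ)) =
        g v.1 * P.a0 v.1 * ((M ^ 2 * (1 - 3 * τ)) / M) := by
      field_simp
    have h8' : (1 - 3 * η / 10) * (g v.1 * P.a0 v.1 / M) * Tot =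
        g v.1 * P.a0 v.1 * (((1 - 3 * η / 10) * Tot) / M) := by ring
    rw [h7, h8']
    apply mul_le_mul_of_nonneg_left _ h5
    exact div_le_div_of_nonneg_right h6 hM0.le
  · intro v w
    by_cases h : v.1 = X
    · simp only [if_pos h]
      exact hD0 v w
    · simp only [if_neg h]
      exact div_nonneg (hrle v w).1 (hRp' v h).le
  · intro v
    by_cases h : v.1 = X
    · simp only [if_pos h]
      exact hD1 v
    · simp only [if_neg h]
      rw [← Finset.sum_div]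
      have h3 : ∑ w, r v w = Rr v := by rw [hRr]
      rw [h3, div_self (hRp' v h).ne']
  · intro v w hvw
    have h3 : ¬ ex v w ∧ P.fre ω v.1 w.1 ≠ 0 := by
      by_cases h : v.1 = X
      · simp only [if_pos h] at hvw
        exact hD2 v w hvw
      · simp only [if_neg h] at hvw
        have h4 : r v w ≠ 0 := fun h5 => hvw (by rw [h5, zero_div])
        have h5 : ¬ ex v w := fun h6 => h4 (hr1 v w h6)
        refine ⟨h5, fun h6 => h4 ?_⟩
        rw [hr2 v w h5, h6, mul_zero, mul_zero]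
    obtain ⟨h4, h5⟩ := h3
    rw [hexd] at h4
    simp only at h4
    exact ⟨fun h => h4 (Or.inl h), h5, fun h => h4 (Or.inr (Or.inr (Or.inr h)))⟩
  · intro v w
    rw [← hM]
    by_cases h : v.1 = X
    · simp only [if_pos h]
      have h3 := hD3 v w
      rw [← hM] at h3
      refine h3.trans (div_le_div_of_nonneg_right ?_ hM0.le)
      have h4 : (2 : ℝ) ≤ B ^ 3 := by nlinarith [sq_nonneg B]
      calc 2 * B ≤ B ^ 3 * B := mul_le_mul_of_nonneg_right h4 (by linarith)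
        _ = B ^ 4 := by ring
    · simp only [if_neg h]
      have h3 := hRp v h
      rw [div_le_iff₀ (hRp' v h)]
      have h4 : r v w ≤ ε * B * (B * B) := by
        refine (hrle v w).2.trans ?_
        refine mul_le_mul (hP.S0B _ _) ?_ (mul_nonneg (hgb _).1 (hfre _ _).1) (by positivity)
        exact mul_le_mul (hgb _).2 (hfre _ _).2 (hfre _ _).1 (by linarith)
      refine h4.trans ?_
      have h5 : B ^ 4 / M * (M * ε / 2) ≤ B ^ 4 / M * Rr v :=
        mul_le_mul_of_nonneg_left h3 (by positivity)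
      refine le_trans ?_ h5
      have h6 : B ^ 4 / M * (M * ε / 2) = ε * B * (B * B) * (B / 2) := by
        field_simp
      rw [h6]
      have h7 : 0 ≤ ε * B * (B * B) := by positivity
      nlinarith
  · intro w
    rw [Finset.sum_congr rfl fun v _ => hcore v w, ← Finset.sum_div]
    congr 1
    rw [hdg]
    exact Finset.sum_congr rfl fun v _ => hys v w
  · intro v w hvw
    have h3 := hcore v w
    simp only at hvw
    rw [h3] at hvw
    have h4 : y v w ≠ 0 := fun h => hvw (by rw [h, zero_div])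
    refine ⟨hnX v fun h => h4 (hy1 v w h), hnX w fun h => h4 (hy3 v w h)⟩
  · intro v w
    simp only
    rw [hcore v w, ← hM]
    have hgv : g v.1 = P.gg ω X S v.1 := by rw [hg]
    have hgw : g w.1 = P.gg ω X S w.1 := by rw [hg]
    rw [← hgv, ← hgw]
    refine (hge _ (hyb v w).1).trans ?_
    apply mul_le_mul_of_nonneg_left _ (by linarith)
    exact div_le_div_of_nonneg_right (hyb v w).2 hMM.le

end MP_80c395_TP
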