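import Mathlib

/-!
# Project TQ: distribution of items into bins

Among all assignments `b : I → Fin P` with at most `L` items in every bin (there is one, because
`card I ≤ L * P`) take one with `∑ p, (load p)^2` minimal.  Let `M` be the maximal load, attained at the
bin `v`.  If `M ≤ amax` we are in the first case.  Otherwise `v` has at least two items (one item
would have size `≤ amax < M`; no item: load `0`, but then `M = 0`, all loads are `0 ≤ amax`, first
case), so its smallest item `i` has `a i ≤ M / 2`.  Let `w ≠ v` be a bin with less than `L` items.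
Moving `i` to `w` changes the sum of the squares by
`(load v - a i)^2 + (load w + a i)^2 - (load v)^2 - (load w)^2 = 2 a i (load w + a i - load v)`, which
is `≥ 0` by minimality; so (`a i > 0`) `load w ≥ M - a i ≥ M / 2`.
-/

set_option autoImplicit false

namespace MP_80c395_TP

open Finset

theorem bundling {I : Type} [Fintype I] [DecidableEq I] (P L : ℕ) (hP : 0 < P) (a : I → ℝ)
    (amax : ℝ) (h0 : 0 ≤ amax) (ha : ∀ i, 0 < a i) (ha1 : ∀ i, a i ≤ amax)
    (hcard : Fintype.card I ≤ L * P) :
    ∃ b : I → Fin P, (∀ p, (univ.filter (fun i => b i = p)).card ≤ L) ∧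
      ((∀ p, ∑ i ∈ univ.filter (fun i => b i = p), a i ≤ amax) ∨
        ∃ M : ℝ, amax < M ∧ (∀ p, ∑ i ∈ univ.filter (fun i => b i = p), a i ≤ M) ∧
          ∀ p, (univ.filter (fun i => b i = p)).card < L →
            M / 2 ≤ ∑ i ∈ univ.filter (fun i => b i = p), a i) := by
  classical
  -- loads
  obtain ⟨ld, hld⟩ : ∃ ld : (I → Fin P) → Fin P → ℝ,
      ld = fun b p => ∑ i ∈ univ.filter (fun i => b i = p), a i := ⟨_, rfl⟩
  have hldd : ∀ b p, ∑ i ∈ univ.filter (fun i => b i = p), a i = ld b p := by
    intro b p
    rw [hld]
  have hupd : ∀ (b : I → Fin P) (i : I) (w p : Fin P),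
      ld (Function.update b i w) p =
        ld b p - (if b i = p then a i else 0) + (if w = p then a i else 0) := by
    intro b i w p
    have h1 : ld (Function.update b i w) p - ld b p =
        (if w = p then a i else 0) - (if b i = p then a i else 0) := by
      rw [hld]
      simp only [sum_filter]
      rw [← sum_sub_distrib, sum_eq_single i]
      · rw [Function.update_self]
      · intro j _ hj
        rw [Function.update_of_ne hj, sub_self]
      · intro h
        exact absurd (mem_univ i) h
    linarith
  have hload : ∀ (b : I → Fin P) (p : Fin P), 0 ≤ ld b p := by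
    intro b p
    rw [hld]
    exact sum_nonneg fun i _ => (ha i).le
  -- a valid assignment
  have hex : ∃ b : I → Fin P, ∀ p, (univ.filter (fun i => b i = p)).card ≤ L := by
    have he := (Fintype.equivFin I)
    have hlt : ∀ i, (he i).1 / L < P := fun i =>
      Nat.div_lt_of_lt_mul (lt_of_lt_of_le (he i).2 hcard)
    refine ⟨fun i => ⟨(he i).1 / L, hlt i⟩, fun p => ?_⟩
    rcases Nat.eq_zero_or_pos L with hL | hL
    · subst hL
      rw [zero_mul] at hcard
      haveI : IsEmpty I := Fintype.card_eq_zero_iff.1 (by omega)
      rw [univ_eq_empty, filter_empty, card_empty]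
    · calc (univ.filter (fun i => (⟨(he i).1 / L, hlt i⟩ : Fin P) = p)).card
          ≤ (range L).card := by
            refine card_le_card_of_injOn (fun i => (he i).1 % L) ?_ ?_
            · intro i _
              rw [coe_range]
              exact Nat.mod_lt _ hL
            · intro i hi j hj hij
              rw [coe_filter, Set.mem_setOf_eq] at hi hj
              have h1 : (he i).1 / L = (he j).1 / L := by
                have := hi.2.trans hj.2.symm
                simpa using congrArg Fin.val this
              have h2 : (he i).1 % L = (he j).1 % L := hij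
              have h3 : (he i).1 = (he j).1 := by
                rw [← Nat.div_add_mod (he i).1 L, ← Nat.div_add_mod (he j).1 L, h1, h2]
              exact he.injective (Fin.ext h3)
        _ = L := card_range L
  obtain ⟨b₀, hb₀⟩ := hex
  obtain ⟨b, hb, hmin⟩ := exists_min_image
    (univ.filter fun b : I → Fin P => ∀ p, (univ.filter (fun i => b i = p)).card ≤ L)
    (fun b => ∑ p, (ld b p) ^ 2) ⟨b₀, mem_filter.2 ⟨mem_univ _, hb₀⟩⟩
  have hbv : ∀ p, (univ.filter (fun i => b i = p)).card ≤ L := (mem_filter.1 hb).2
  refine ⟨b, hbv, ?_⟩
  simp only [hldd]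
  haveI : Nonempty (Fin P) := ⟨⟨0, hP⟩⟩
  obtain ⟨v, _, hv⟩ := exists_max_image (univ : Finset (Fin P)) (ld b) univ_nonempty
  rcases le_or_gt (ld b v) amax with hM | hM
  · exact Or.inl fun p => (hv p (mem_univ p)).trans hM
  refine Or.inr ⟨ld b v, hM, fun p => hv p (mem_univ p), fun w hw => ?_⟩
  by_cases hwv : w = v
  · subst hwv
    have := hload b w
    linarith
  -- the smallest item of the fullest bin
  have hne : (univ.filter (fun i => b i = v)).Nonempty := by
    rw [nonempty_iff_ne_empty]
    intro h
    have h1 : ld b v = 0 := by rw [← hldd, h, sum_empty]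
    linarith
  obtain ⟨i, hi, himin⟩ := exists_min_image _ a hne
  have hbi : b i = v := (mem_filter.1 hi).2
  have h2 : 2 * a i ≤ ld b v := by
    have hex2 : ∃ j ∈ univ.filter (fun i => b i = v), j ≠ i := by
      by_contra hcon
      push Not at hcon
      have h3 : univ.filter (fun i => b i = v) = {i} :=
        eq_singleton_iff_unique_mem.2 ⟨hi, hcon⟩
      have h4 : ld b v = a i := by rw [← hldd, h3, sum_singleton]
      have := ha1 i
      linarith
    obtain ⟨j, hj, hji⟩ := hex2
    have h5 : ({i, j} : Finset I) ⊆ univ.filter (fun i => b i = v) := by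
      intro x hx
      rw [mem_insert, mem_singleton] at hx
      rcases hx with rfl | rfl
      · exact hi
      · exact hj
    have h6 := sum_le_sum_of_subset_of_nonneg h5 (fun x _ _ => (ha x).le)
    rw [sum_pair (Ne.symm hji), hldd] at h6
    have := himin j hj
    linarith
  -- move it to the bin `w`
  have hval : ∀ p, (univ.filter (fun j => Function.update b i w j = p)).card ≤ L := by
    intro p
    by_cases hpw : p = w
    · subst hpw
      have h7 : univ.filter (fun j => Function.update b i p j = p) ⊆
          insert i (univ.filter (fun j => b j = p)) := by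
        intro j hj
        by_cases hji : j = i
        · exact mem_insert.2 (Or.inl hji)
        · have := (mem_filter.1 hj).2
          rw [Function.update_of_ne hji] at this
          exact mem_insert.2 (Or.inr (mem_filter.2 ⟨mem_univ _, this⟩))
      exact ((card_le_card h7).trans (card_insert_le _ _)).trans hw
    · refine le_trans (card_le_card ?_) (hbv p)
      intro j hj
      have h8 := (mem_filter.1 hj).2
      by_cases hji : j = i
      · subst hji
        rw [Function.update_self] at h8
        exact absurd h8.symm hpw
      · rw [Function.update_of_ne hji] at h8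
        exact mem_filter.2 ⟨mem_univ _, h8⟩
  have h9 := hmin (Function.update b i w) (mem_filter.2 ⟨mem_univ _, hval⟩)
  have h10 : ∑ p, ((ld (Function.update b i w) p) ^ 2 - (ld b p) ^ 2) =
      ((ld (Function.update b i w) v) ^ 2 - (ld b v) ^ 2) +
        ((ld (Function.update b i w) w) ^ 2 - (ld b w) ^ 2) := by
    refine sum_eq_add v w (Ne.symm hwv) ?_ ?_ ?_
    · intro c _ hc
      rw [hupd, if_neg (by rw [hbi]; exact Ne.symm hc.1), if_neg (Ne.symm hc.2)]
      ring
    · intro h
      exact absurd (mem_univ _) h
    · intro h
      exact absurd (mem_univ _) h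
  rw [sum_sub_distrib, hupd, hupd, if_pos hbi, if_neg hwv,
    if_neg (by rw [hbi]; exact Ne.symm hwv), if_pos rfl] at h10
  have h11 : 0 ≤ 2 * a i * (ld b w + a i - ld b v) := by
    have h9' : ∑ p, (ld b p) ^ 2 ≤ ∑ p, (ld (Function.update b i w) p) ^ 2 := h9
    nlinarith [h10, h9']
  have h12 : 0 ≤ ld b w + a i - ld b v := by
    by_contra hcon
    push Not at hcon
    have := mul_neg_of_pos_of_neg (mul_pos two_pos (ha i)) hcon
    linarith
  linarith

end MP_80c395_TP
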