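import Pool.Agent.Lib.MP_80c395_co_TP.S1Rank
import Pool.Agent.Lib.MP_80c395_co_TP.ExDec

/-!
# Project TQ (all trees): closure of a set of vertices of a tree

`ex_closure`: start with `J = H`; while some `x ∉ J` has at least two neighbours in `J`, add it.  After
`t` steps `|J| = |H| + t` and `∑ x ∈ J, nb T J x ≥ 4 t` (every step adds at least two edges inside of
`J`, each counted twice), while `∑ x ∈ J, nb T J x ≤ 2 |J|` (`sum_nb_Z`); so `4 t ≤ 2 (|H| + t)`,
`t ≤ |H|`.  (Formally: among the sets `J ⊇ H` with `4 (|J| - |H|) ≤ ∑ x ∈ J, nb T J x` take one of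
maximal size.)

`big_count`: `h |{x | h ≤ deg x}| ≤ ∑ deg ≤ 2 m`.

`deg_count'`: `d |{x | d < deg x}| ≤ m`: for `m ≥ 2` all degrees are at least `1`, and
`2 m - 2 = ∑ deg ≥ (d + 1) c + (m - c)` for `c = |{x | d < deg x}|`, so `d c ≤ m - 2`; for `m = 1` the
set is empty.
-/

set_option autoImplicit false

namespace MP_80c395_TP

open Finset

private theorem closure_sum {m : ℕ} {T : SimpleGraph (Fin m)} (hT : T.IsTree) :
    ∑ x, nb T univ x + 2 = 2 * m := by
  classical
  have hdeg : ∀ x, nb T univ x = T.degree x := by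
    intro x
    unfold nb
    rw [← SimpleGraph.card_neighborFinset_eq_degree]
    congr 1
    ext y
    simp
  have h1 := T.sum_degrees_eq_twice_card_edges
  have h2 := hT.card_edgeFinset
  rw [Fintype.card_fin] at h2
  have h3 : ∑ x, nb T univ x = ∑ x, T.degree x := Finset.sum_congr rfl (fun x _ => hdeg x)
  rw [h3]
  have h4 : T.edgeFinset.card + 1 = m := by
    convert h2 using 2
  have h5 : ∑ x, T.degree x = 2 * T.edgeFinset.card := by
    convert h1 using 2
  rw [h5]
  omega

theorem ex_closure {m : ℕ} {T : SimpleGraph (Fin m)} (hT : T.IsTree) (H : Finset (Fin m)) :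
    ∃ J : Finset (Fin m), H ⊆ J ∧ J.card ≤ 2 * H.card ∧ ∀ x, x ∉ J → nb T J x ≤ 1 := by
  classical
  set S : Finset (Finset (Fin m)) :=
    univ.filter (fun J => H ⊆ J ∧ 4 * J.card ≤ 4 * H.card + ∑ x ∈ J, nb T J x) with hS
  have hne : S.Nonempty := ⟨H, by
    rw [hS, mem_filter]
    exact ⟨mem_univ _, Subset.refl _, Nat.le_add_right _ _⟩⟩
  obtain ⟨J, hJ, hmax⟩ := exists_max_image S (fun J => J.card) hne
  rw [hS, mem_filter] at hJ
  obtain ⟨-, hHJ, hJ2⟩ := hJ
  refine ⟨J, hHJ, ?_, ?_⟩
  · have := sum_nb_Z hT J
    omega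
  · intro x hx
    by_contra hlt
    push Not at hlt
    have hcard : (insert x J).card = J.card + 1 := card_insert_of_notMem hx
    have hmem : insert x J ∈ S := by
      rw [hS, mem_filter]
      refine ⟨mem_univ _, hHJ.trans (subset_insert _ _), ?_⟩
      rw [hcard, sum_insert hx]
      have h1 : nb T J x ≤ nb T (insert x J) x := by
        unfold nb
        exact card_le_card (filter_subset_filter _ (subset_insert _ _))
      have h2 : ∀ y ∈ J, nb T J y + (if T.Adj x y then 1 else 0) ≤ nb T (insert x J) y := by
        intro y _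
        unfold nb
        rw [filter_insert]
        by_cases hxy : T.Adj x y
        · rw [if_pos hxy, if_pos hxy.symm, card_insert_of_notMem]
          intro h
          exact hx (mem_filter.1 h).1
        · rw [if_neg hxy, if_neg (fun h => hxy h.symm)]
          exact le_of_eq (Nat.add_zero _)
      have h3 := sum_le_sum h2
      rw [sum_add_distrib] at h3
      have h4 : ∑ y ∈ J, (if T.Adj x y then 1 else 0) = nb T J x := by
        unfold nb
        rw [card_filter]
      rw [h4] at h3
      omega
    have := hmax _ hmem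
    beta_reduce at this
    omega

theorem big_count {m : ℕ} {T : SimpleGraph (Fin m)} (hT : T.IsTree) (h : ℕ) :
    h * (univ.filter (fun x => h ≤ nb T univ x)).card ≤ 2 * m := by
  classical
  have h6 : h * (univ.filter (fun x => h ≤ nb T univ x)).card ≤
      ∑ x ∈ univ.filter (fun x => h ≤ nb T univ x), nb T univ x := by
    rw [mul_comm, ← smul_eq_mul]
    exact Finset.card_nsmul_le_sum _ _ _ (fun x hx => (Finset.mem_filter.1 hx).2)
  have h7 : ∑ x ∈ univ.filter (fun x => h ≤ nb T univ x), nb T univ x ≤ ∑ x, nb T univ x :=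
    Finset.sum_le_sum_of_subset (Finset.filter_subset _ _)
  have := closure_sum hT
  omega

theorem deg_count' {m : ℕ} {T : SimpleGraph (Fin m)} (hT : T.IsTree) (d : ℕ) :
    d * (univ.filter (fun x => d < nb T univ x)).card ≤ m := by
  classical
  have hsum := closure_sum hT
  rcases Nat.lt_or_ge m 2 with hm | hm
  · -- all degrees vanish
    have h0 : ∑ x, nb T univ x = 0 := by omega
    have h1 : univ.filter (fun x => d < nb T univ x) = ∅ := by
      rw [filter_eq_empty_iff]
      intro x _
      have := (Finset.sum_eq_zero_iff.1 h0) x (mem_univ x)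
      omega
    rw [h1]
    simp
  · have hpos : ∀ x, 1 ≤ nb T univ x := by
      intro x
      have hnt : Nontrivial (Fin m) := Fin.nontrivial_iff_two_le.2 hm
      obtain ⟨y, hy⟩ := exists_ne x
      have hreach := hT.connected.preconnected x y
      obtain ⟨p⟩ := hreach
      cases p with
      | nil => exact absurd rfl hy
      | cons h q =>
        unfold nb
        rw [Nat.one_le_iff_ne_zero, Ne, card_eq_zero]
        exact (Nonempty.ne_empty ⟨_, mem_filter.2 ⟨mem_univ _, h⟩⟩)
    have h2 : ∀ x, 1 + (if d < nb T univ x then d else 0) ≤ nb T univ x := by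
      intro x
      have := hpos x
      split_ifs with h
      · omega
      · omega
    have h3 := sum_le_sum (fun x (_ : x ∈ (univ : Finset (Fin m))) => h2 x)
    rw [sum_add_distrib, ← sum_filter, sum_const, sum_const, card_univ, Fintype.card_fin,
      smul_eq_mul, smul_eq_mul, mul_one, mul_comm _ d] at h3
    omega

end MP_80c395_TP
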