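import Pool.Agent.Lib.MP_80c395_co_TQ.TLaw
import Pool.Agent.Lib.MP_80c395_co_TQ.BadS

/-!
# Project TQ: use of the hosts by a tree; codegrees; the load; bounds for the laws

Fix `i, v`; `gg = gg ω (X i) (S i) v.1`, `M = A.M`.
`use_V`.  Case 1: `hit ω (X i) j v.1 = 1` for some `j ∈ S i`, `j = lb i z0`, `z0 ∈ J i`.  Then `gg = 0`
(`hit_gg`), so `π i v = 0` and `ρ i (some z) v = 0` for `z ∈ md i` (upper bounds, lower bound `0`), and
`ρ i (some z) v = 0` for `z ∈ J i`, `z ≠ z0` (`hit_hit`, `lbi`).  The rest is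
`ac z0 ρ (some z0) v ≤ (1 - ε₂)(s / 2) M (1 + η) (2 / s) / M ≤ (1 - ε₂)(1 + η) ≤ 1 - ε₂ / 2`.
Case 2: no such `j`: `ρ i (some z) v = 0` for `z ∈ J i` (`sρs`).  If `v ∈ F i` or `v.1 = X i` or
`v.1 ∈ btr i`, everything is `0`.  Otherwise by the definition of `btr`:
`∑ z ∈ md, ac z * fre (φ z).1 v.1 ≤ ∑ z ∈ md, ac z + κ₅ M`, so with `x = (∑ z ∈ md, ac z) / M`,
`y = (n0 + nr) / M` the left side is at most `(1 + η)^2 gg ((x + κ₅) am + y a0) ≤
(1 + η)^2 gg (1 - ε₂ - pS + 2 κ₅)` (`massVm, massV0`: `x am + y a0 ≤ (x + y) max am a0`; `am ≤ 2`).  If `gg = 0` done;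
otherwise `gg (1 - pS) = 1` (`gg_val`) and `gg ≥ 1` (`pS ≥ 0`), so this is `≤ (1 + 3 η) (1 - ε₂ + 2 κ₅) ≤
1 - ε₂ / 2`.

`use_C`: at most one `z ∈ Z` has `φ z = u` (`inj`).  If `z ∈ J i`: `ρ (some z) w ≠ 0` implies (`sρs`, `ho3`)
`own = some i`, so the sum is `0`.  If `z ∈ md i`: `ac z ≤ γh M`, `ρ ≤ (1 + η) 2 B^2 / M ≤ 3 B^2 / M`.

`use_load`: the slots at `u` have different labels (`lbu`), so their `ac` are together at most
`∑ j, s (u.1) j / 2 * M ≤ M`, as `∑ j, s X j / 2 = (∑ j, ∑ Y, p X j Y) / q ≤ 1` (`sum_p`, `∑ j, p X j Y ≤ 1` because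
`pf ≥ 0`); the medium centres at most `bm M ≤ 2 M`.

`law_bd`: `sρu` with `s ≥ γ`; `mρu`, `πu` with `am, a0 ≤ 2`, `gg, fre ≤ B`; `η ≤ 1/2`, `B ≥ 4`, `γ ≤ 1`.
-/

set_option autoImplicit false

namespace MP_80c395_TP

open Finset

variable {q R : ℕ} {P : Par q R} {ε B : ℝ} {G : Type} [Fintype G] [DecidableEq G] [Nonempty G]
  {A : Plc q R G} {ω : Om q R} {η κ₅ : ℝ}

private theorem UseV_M (hP : ParOK P ε B) : 0 < A.M := by
  have h1 : (0 : ℝ) < q := by exact_mod_cast hP.q0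
  have h2 : (0 : ℝ) < Fintype.card G := by exact_mod_cast Fintype.card_pos
  exact mul_pos h1 h2

private theorem UseV_md (hP : ParOK P ε B) {D₁ D K Λ : ℕ} {ε₂ γ κ₄ δ₅ γh : ℝ} {bm : Fin q → ℝ}
    (hA : PlcOK A P D₁ D K Λ B ε₂ γ κ₄ δ₅ γh bm) {bt : Fin A.k → Finset (Fin q)}
    {bu : Fin q × G → Finset (Fin q)} (L : Laws P A ω bt bu B η) (hη : 0 ≤ η) (hη1 : η ≤ 1 / 2)
    (i : Fin A.k) {z : Fin (A.mm i)} (hz : z ∈ A.md i) (v : Fin q × G) :
    L.ρ i (some z) v ≤ 3 * B ^ 2 / A.M := by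
  have hM := UseV_M (A := A) hP
  have hB := B_ge hP
  refine (L.mρu i z hz v).trans ?_
  have h1 := gg_bd hP (hA.vd i) ω v.1
  have h2 := fre_bd hP ω (A.φ i z).1 v.1
  have h3 := hP.am_lo v.1
  have h4 := hP.am_hi v.1
  have h5 := hP.ε0
  have h6 : P.gg ω (A.X i) (A.S i) v.1 * P.fre ω (A.φ i z).1 v.1 ≤ B * B :=
    mul_le_mul h1.2 h2.2 h2.1 (by linarith)
  have h7 : P.am v.1 * (P.gg ω (A.X i) (A.S i) v.1 * P.fre ω (A.φ i z).1 v.1) ≤ 2 * (B * B) :=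
    mul_le_mul (by linarith) h6 (mul_nonneg h1.1 h2.1) (by norm_num)
  have h8 : 0 ≤ P.am v.1 * (P.gg ω (A.X i) (A.S i) v.1 * P.fre ω (A.φ i z).1 v.1) :=
    mul_nonneg (by linarith) (mul_nonneg h1.1 h2.1)
  rw [← mul_div_assoc]
  refine div_le_div_of_nonneg_right ?_ hM.le
  calc (1 + η) * (P.am v.1 * (P.gg ω (A.X i) (A.S i) v.1 * P.fre ω (A.φ i z).1 v.1))
      ≤ (3 / 2) * (2 * (B * B)) := mul_le_mul (by linarith) h7 h8 (by norm_num)
    _ = 3 * B ^ 2 := by ring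

private theorem UseV_split {f : (i : Fin A.k) → Fin (A.mm i) → ℝ} (i : Fin A.k)
    (hJ : A.J i ⊆ (A.d i).Z) :
    ∑ z ∈ (A.d i).Z, f i z = ∑ z ∈ A.J i, f i z + ∑ z ∈ A.md i, f i z := by
  rw [add_comm]
  exact (Finset.sum_sdiff hJ).symm

private theorem UseV_s (hP : ParOK P ε B) (X : Fin q) : ∑ j, P.s X j / 2 ≤ 1 := by
  have hq : (0 : ℝ) < q := by exact_mod_cast hP.q0
  have h1 : ∑ j, ∑ Y, P.p X j Y ≤ q := by
    rw [Finset.sum_comm]
    calc ∑ Y, ∑ j, P.p X j Y ≤ ∑ _Y : Fin q, (1 : ℝ) := by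
          refine Finset.sum_le_sum fun Y _ => ?_
          have h2 := pf_pos hP X Y
          have h3 : 0 ≤ ∑ j, P.p Y j X := Finset.sum_nonneg fun j _ => p_nonneg hP Y j X
          unfold Par.pf at h2
          linarith
      _ = q := by simp
  have h4 : ∑ j, ∑ Y, P.p X j Y = (∑ j, P.s X j / 2) * q := by
    rw [Finset.sum_mul]
    refine Finset.sum_congr rfl fun j _ => ?_
    rw [sum_p hP]
    ring
  rw [h4] at h1
  by_contra hcon
  push Not at hcon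
  have h5 := mul_lt_mul_of_pos_right hcon hq
  linarith

private theorem UseV_fin {g x a ps ε₂ κ₅ η : ℝ} (hg0 : 0 ≤ g) (hps : 0 ≤ ps)
    (hgv : g ≠ 0 → g * (1 - ps) = 1) (hκ₅ : 0 ≤ κ₅) (hη : 0 ≤ η) (hη1 : η ≤ 1 / 2)
    (hε₂ : ε₂ ≤ 1) (hnum : 3 * η + 2 * κ₅ ≤ ε₂ / 2) (hx : x ≤ (1 + η) ^ 2 * g * a)
    (ha : a ≤ 1 - ε₂ - ps + 2 * κ₅) : x ≤ 1 - ε₂ / 2 := by
  rcases eq_or_ne g 0 with h0 | h0
  · rw [h0, mul_zero, zero_mul] at hx
    linarith
  · have h1 := hgv h0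
    have h2 : 1 ≤ g := by nlinarith
    have h3 : g * a ≤ 1 - ε₂ + 2 * κ₅ := by
      have h4 := mul_le_mul_of_nonneg_left ha hg0
      have h5 : 0 ≤ ε₂ - 2 * κ₅ := by linarith
      nlinarith
    have h6 : (1 + η) ^ 2 ≤ 1 + 3 * η := by nlinarith
    have h7 : 0 ≤ 1 - ε₂ + 2 * κ₅ := by linarith
    have h8 : (1 + η) ^ 2 * g * a ≤ (1 + η) ^ 2 * (1 - ε₂ + 2 * κ₅) := by
      rw [mul_assoc]
      exact mul_le_mul_of_nonneg_left h3 (sq_nonneg _)
    have h9 : (1 + η) ^ 2 * (1 - ε₂ + 2 * κ₅) ≤ (1 + 3 * η) * (1 - ε₂ + 2 * κ₅) :=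
      mul_le_mul_of_nonneg_right h6 h7
    nlinarith

theorem use_V (hP : ParOK P ε B) {D₁ D K Λ : ℕ} {ε₂ γ κ₄ δ₅ γh : ℝ} {bm : Fin q → ℝ}
    (hA : PlcOK A P D₁ D K Λ B ε₂ γ κ₄ δ₅ γh bm)
    (L : Laws P A ω (btr P A ω κ₅) (bho P A ω κ₅) B η) (hη : 0 ≤ η) (hη1 : η ≤ 1 / 2)
    (hκ₅ : 0 ≤ κ₅) (hγ : 0 < γ) (hε₂ : ε₂ ≤ 1) (hnum : 3 * η + 2 * κ₅ ≤ ε₂ / 2)
    (i : Fin A.k) (v : Fin q × G) :
    ∑ z ∈ (A.d i).Z, (ac (A.d i) z : ℝ) * L.ρ i (some z) v +
      (n0 (A.d i) + (1 + η) * nr (A.d i)) * L.π i v ≤ 1 - ε₂ / 2 := by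
  classical
  have hM := UseV_M (A := A) hP
  have hε₂0 : 0 ≤ ε₂ := by linarith
  rw [UseV_split (f := fun i z => (ac (A.d i) z : ℝ) * L.ρ i (some z) v) i (hA.JZ i)]
  have hmdZ : ∀ z ∈ A.md i, z ∈ (A.d i).Z := fun z hz => (mem_sdiff.1 hz).1
  have hgg := gg_bd hP (hA.vd i) ω v.1
  by_cases hc : ∃ j ∈ A.S i, hit ω (A.X i) j v.1 = 1
  · obtain ⟨j, hj, hh⟩ := hc
    obtain ⟨z0, hz0, rfl⟩ := mem_image.1 hj
    have hh0 : hit ω (A.X i) (A.lb i z0) v.1 ≠ 0 := by rw [hh]; exact one_ne_zero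
    have hg : P.gg ω (A.X i) (A.S i) v.1 = 0 := hit_gg hh0 hj
    have hπ : L.π i v = 0 := by
      have h1 := L.πu i v
      rw [hg, zero_mul, zero_div, mul_zero] at h1
      exact le_antisymm h1 (L.π0 i v)
    have hmd : ∑ z ∈ A.md i, (ac (A.d i) z : ℝ) * L.ρ i (some z) v = 0 := by
      refine sum_eq_zero fun z hz => ?_
      have h1 := L.mρu i z hz v
      rw [hg, zero_mul, mul_zero, zero_div, mul_zero] at h1
      rw [le_antisymm h1 (L.ρ0 i z (hmdZ z hz) v), mul_zero]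
    have hJ : ∑ z ∈ A.J i, (ac (A.d i) z : ℝ) * L.ρ i (some z) v =
        (ac (A.d i) z0 : ℝ) * L.ρ i (some z0) v := by
      refine sum_eq_single_of_mem z0 hz0 fun z hz hne => ?_
      by_cases h1 : L.ρ i (some z) v = 0
      · rw [h1, mul_zero]
      · exfalso
        have h2 := (L.sρs i z hz v h1).2.1
        have h3 : hit ω (A.X i) (A.lb i z) v.1 ≠ 0 := by rw [h2]; exact one_ne_zero
        exact hne (hA.lbi i z hz z0 hz0 (hit_hit h3 hh0))
    rw [hπ, hmd, hJ, mul_zero, add_zero, add_zero]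
    have h1 := L.sρu i z0 hz0 v
    rw [hh, mul_one] at h1
    have h2 := hA.sγ i z0 hz0
    have h3 := hA.acs i z0 hz0
    set s := P.s (A.X i) (A.lb i z0) with hs
    have hs0 : 0 < s := lt_of_lt_of_le hγ h2
    have h4 : 0 ≤ (1 + η) * (2 / s / A.M) := by positivity
    calc (ac (A.d i) z0 : ℝ) * L.ρ i (some z0) v
        ≤ (ac (A.d i) z0 : ℝ) * ((1 + η) * (2 / s / A.M)) :=
          mul_le_mul_of_nonneg_left h1 (Nat.cast_nonneg _)
      _ ≤ ((1 - ε₂) * (s / 2 * A.M)) * ((1 + η) * (2 / s / A.M)) :=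
          mul_le_mul_of_nonneg_right h3 h4
      _ = (1 - ε₂) * (1 + η) := by
          field_simp
      _ ≤ 1 - ε₂ / 2 := by nlinarith
  · push Not at hc
    have hJ : ∑ z ∈ A.J i, (ac (A.d i) z : ℝ) * L.ρ i (some z) v = 0 := by
      refine sum_eq_zero fun z hz => ?_
      by_cases h1 : L.ρ i (some z) v = 0
      · rw [h1, mul_zero]
      · exact absurd (L.sρs i z hz v h1).2.1 (hc _ (mem_image_of_mem _ hz))
    rw [hJ, zero_add]
    by_cases hb : v ∈ A.F i ∨ v.1 = A.X i ∨ v.1 ∈ btr P A ω κ₅ i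
    · have hπ : L.π i v = 0 := by
        by_contra h1
        obtain ⟨h2, h3, h4⟩ := L.πs i v h1
        rcases hb with h5 | h5 | h5
        · exact h2 h5
        · exact h3 h5
        · exact h4 h5
      have hmd : ∑ z ∈ A.md i, (ac (A.d i) z : ℝ) * L.ρ i (some z) v = 0 := by
        refine sum_eq_zero fun z hz => ?_
        by_cases h1 : L.ρ i (some z) v = 0
        · rw [h1, mul_zero]
        · exfalso
          obtain ⟨h2, h3, h4, -⟩ := L.mρs i z hz v h1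
          rcases hb with h5 | h5 | h5
          · exact h2 h5
          · exact h3 h5
          · exact h4 h5
      rw [hπ, hmd, mul_zero, add_zero]
      linarith
    · push Not at hb
      obtain ⟨-, -, hb3⟩ := hb
      have hbt : ∑ z ∈ A.md i, (ac (A.d i) z : ℝ) * P.fre ω (A.φ i z).1 v.1 ≤
          ∑ z ∈ A.md i, (ac (A.d i) z : ℝ) + κ₅ * A.M := by
        by_contra hcon
        push Not at hcon
        apply hb3
        unfold btr
        exact mem_filter.2 ⟨mem_univ _, hcon⟩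
      have ham := hP.am_lo v.1
      have ham2 := hP.am_hi v.1
      have ha0 := hP.a0_lo v.1
      have hε0 := hP.ε0
      have ham0 : 0 ≤ P.am v.1 := by linarith
      have ha00 : 0 ≤ P.a0 v.1 := by linarith
      set g := P.gg ω (A.X i) (A.S i) v.1 with hg
      set sa : ℝ := ∑ z ∈ A.md i, (ac (A.d i) z : ℝ) with hsa
      have hsa0 : 0 ≤ sa := sum_nonneg fun z _ => Nat.cast_nonneg _
      have hmd : ∑ z ∈ A.md i, (ac (A.d i) z : ℝ) * L.ρ i (some z) v ≤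
          (1 + η) * (P.am v.1 * g * (sa + κ₅ * A.M) / A.M) := by
        calc ∑ z ∈ A.md i, (ac (A.d i) z : ℝ) * L.ρ i (some z) v
            ≤ ∑ z ∈ A.md i, (ac (A.d i) z : ℝ) * ((1 + η) *
              (P.am v.1 * (g * P.fre ω (A.φ i z).1 v.1) / A.M)) :=
              sum_le_sum fun z hz => mul_le_mul_of_nonneg_left (L.mρu i z hz v)
                (Nat.cast_nonneg _)
          _ = (1 + η) * (P.am v.1 * g *
              (∑ z ∈ A.md i, (ac (A.d i) z : ℝ) * P.fre ω (A.φ i z).1 v.1) / A.M) := by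
              rw [mul_sum, sum_div, mul_sum]
              refine sum_congr rfl fun z _ => ?_
              ring
          _ ≤ (1 + η) * (P.am v.1 * g * (sa + κ₅ * A.M) / A.M) := by
              refine mul_le_mul_of_nonneg_left ?_ (by linarith)
              refine div_le_div_of_nonneg_right ?_ hM.le
              exact mul_le_mul_of_nonneg_left hbt (mul_nonneg ham0 hgg.1)
      have hn0 : (0 : ℝ) ≤ n0 (A.d i) := Nat.cast_nonneg _
      have hnr : (0 : ℝ) ≤ nr (A.d i) := Nat.cast_nonneg _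
      have hπ : (n0 (A.d i) + (1 + η) * nr (A.d i)) * L.π i v ≤
          (1 + η) ^ 2 * (g * P.a0 v.1 * (n0 (A.d i) + nr (A.d i)) / A.M) := by
        have h1 : (n0 (A.d i) + (1 + η) * nr (A.d i) : ℝ) ≤
            (1 + η) * (n0 (A.d i) + nr (A.d i)) := by nlinarith
        have h2 : 0 ≤ (1 + η) * (g * P.a0 v.1 / A.M) :=
          mul_nonneg (by linarith) (div_nonneg (mul_nonneg hgg.1 ha00) hM.le)
        calc (n0 (A.d i) + (1 + η) * nr (A.d i)) * L.π i v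
            ≤ (n0 (A.d i) + (1 + η) * nr (A.d i)) * ((1 + η) * (g * P.a0 v.1 / A.M)) :=
              mul_le_mul_of_nonneg_left (L.πu i v) (by positivity)
          _ ≤ ((1 + η) * (n0 (A.d i) + nr (A.d i))) * ((1 + η) * (g * P.a0 v.1 / A.M)) :=
              mul_le_mul_of_nonneg_right h1 h2
          _ = (1 + η) ^ 2 * (g * P.a0 v.1 * (n0 (A.d i) + nr (A.d i)) / A.M) := by ring
      have hm1 := hA.massVm i v.1
      have hm2 := hA.massV0 i v.1
      rw [← hsa] at hm1 hm2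
      set x : ℝ := sa / A.M with hx
      set y : ℝ := (n0 (A.d i) + nr (A.d i)) / A.M with hy
      have hx0 : 0 ≤ x := div_nonneg hsa0 hM.le
      have hy0 : 0 ≤ y := div_nonneg (add_nonneg hn0 hnr) hM.le
      have hxy : (sa + n0 (A.d i) + nr (A.d i)) / A.M = x + y := by
        rw [hx, hy, ← add_div]
        ring
      rw [hxy] at hm1 hm2
      have hmix : x * P.am v.1 + y * P.a0 v.1 ≤ 1 - ε₂ - P.pS (A.X i) (A.S i) v.1 := by
        rcases le_total (P.am v.1) (P.a0 v.1) with h1 | h1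
        · have h2 := mul_le_mul_of_nonneg_left h1 hx0
          linarith
        · have h2 := mul_le_mul_of_nonneg_left h1 hy0
          linarith
      have hκ2 : κ₅ * P.am v.1 ≤ κ₅ * 2 := mul_le_mul_of_nonneg_left (by linarith) hκ₅
      refine UseV_fin (g := g) (a := (x + κ₅) * P.am v.1 + y * P.a0 v.1)
        (ps := P.pS (A.X i) (A.S i) v.1) hgg.1 (pS_nonneg hP _ _ _)
        (fun h => gg_val hP (hA.vd i) h) hκ₅ hη hη1 hε₂ hnum ?_ (by linarith)
      have e1 : (1 + η) * (P.am v.1 * g * (sa + κ₅ * A.M) / A.M) =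
          (1 + η) * (g * ((x + κ₅) * P.am v.1)) := by
        rw [hx]
        field_simp
      have e2 : (1 + η) ^ 2 * (g * P.a0 v.1 * (n0 (A.d i) + nr (A.d i)) / A.M) =
          (1 + η) ^ 2 * (g * (y * P.a0 v.1)) := by
        rw [hy]
        ring
      rw [e1] at hmd
      rw [e2] at hπ
      have h3 : 0 ≤ g * ((x + κ₅) * P.am v.1) :=
        mul_nonneg hgg.1 (mul_nonneg (by linarith) ham0)
      have h4 : (1 + η) * (g * ((x + κ₅) * P.am v.1)) ≤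
          (1 + η) ^ 2 * (g * ((x + κ₅) * P.am v.1)) := by
        refine mul_le_mul_of_nonneg_right ?_ h3
        nlinarith
      have h5 : (1 + η) ^ 2 * g * ((x + κ₅) * P.am v.1 + y * P.a0 v.1) =
          (1 + η) ^ 2 * (g * ((x + κ₅) * P.am v.1)) + (1 + η) ^ 2 * (g * (y * P.a0 v.1)) := by
        ring
      rw [h5]
      linarith

theorem use_C (hP : ParOK P ε B) {D₁ D K Λ : ℕ} {ε₂ γ κ₄ δ₅ γh : ℝ} {bm : Fin q → ℝ}
    (hA : PlcOK A P D₁ D K Λ B ε₂ γ κ₄ δ₅ γh bm) {bt : Fin A.k → Finset (Fin q)}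
    {bu : Fin q × G → Finset (Fin q)} (L : Laws P A ω bt bu B η) (hη : 0 ≤ η) (hη1 : η ≤ 1 / 2)
    (hγh : 0 ≤ γh) {r : ℕ} (own : Sym2 ((Fin q × G) ⊕ Fin r) → Option (Fin A.k))
    (ho3 : ∀ i, ∀ z ∈ A.J i, ∀ v, hit ω (A.X i) (A.lb i z) v.1 = 1 → ¬ A.zz (A.φ i z) v →
        own s(Sum.inl (A.φ i z), Sum.inl v) = some i) (i : Fin A.k) (u w : Fin q × G)
    (h : own s(Sum.inl u, Sum.inl w) = none) :
    ∑ z ∈ (A.d i).Z.filter (fun z => A.φ i z = u), (ac (A.d i) z : ℝ) * L.ρ i (some z) w ≤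
      3 * B ^ 2 * γh := by
  classical
  have hM := UseV_M (A := A) hP
  have hBg : 0 ≤ 3 * B ^ 2 * γh := by positivity
  rcases ((A.d i).Z.filter (fun z => A.φ i z = u)).eq_empty_or_nonempty with h0 | ⟨z0, hz0⟩
  · rw [h0, sum_empty]
    exact hBg
  · obtain ⟨hz0Z, hz0u⟩ := mem_filter.1 hz0
    have h1 : (A.d i).Z.filter (fun z => A.φ i z = u) = {z0} := by
      ext z
      rw [mem_filter, mem_singleton]
      constructor
      · rintro ⟨h2, h3⟩
        exact hA.inj i z h2 z0 hz0Z (by rw [h3, hz0u])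
      · rintro rfl
        exact ⟨hz0Z, hz0u⟩
    rw [h1, sum_singleton]
    by_cases hJ : z0 ∈ A.J i
    · by_cases h2 : L.ρ i (some z0) w = 0
      · rw [h2, mul_zero]
        exact hBg
      · exfalso
        obtain ⟨-, h3, h4⟩ := L.sρs i z0 hJ w h2
        have h5 := ho3 i z0 hJ w h3 h4
        rw [hz0u, h] at h5
        exact Option.some_ne_none _ h5.symm
    · have hmd : z0 ∈ A.md i := mem_sdiff.2 ⟨hz0Z, hJ⟩
      have h2 := UseV_md hP hA L hη hη1 i hmd w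
      have h3 := hA.acm i z0 hmd
      calc (ac (A.d i) z0 : ℝ) * L.ρ i (some z0) w
          ≤ (γh * A.M) * (3 * B ^ 2 / A.M) :=
            mul_le_mul h3 h2 (L.ρ0 i z0 hz0Z w) (mul_nonneg hγh hM.le)
        _ = 3 * B ^ 2 * γh := by
            field_simp

theorem use_load (hP : ParOK P ε B) {D₁ D K Λ : ℕ} {ε₂ γ κ₄ δ₅ γh : ℝ} {bm : Fin q → ℝ}
    (hA : PlcOK A P D₁ D K Λ B ε₂ γ κ₄ δ₅ γh bm) (hε₂ : 0 ≤ ε₂) (u : Fin q × G) :
    ∑ i, ∑ z ∈ (A.d i).Z.filter (fun z => A.φ i z = u), (ac (A.d i) z : ℝ) ≤ 3 * A.M := by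
  classical
  have hM := UseV_M (A := A) hP
  have h1 : ∀ i, ∑ z ∈ (A.d i).Z.filter (fun z => A.φ i z = u), (ac (A.d i) z : ℝ) =
      ∑ z ∈ (A.J i).filter (fun z => A.φ i z = u), (ac (A.d i) z : ℝ) +
        ∑ z ∈ (A.md i).filter (fun z => A.φ i z = u), (ac (A.d i) z : ℝ) := by
    intro i
    rw [sum_filter, sum_filter, sum_filter]
    exact UseV_split (f := fun i z => if A.φ i z = u then (ac (A.d i) z : ℝ) else 0) i (hA.JZ i)
  rw [sum_congr rfl fun i _ => h1 i, sum_add_distrib]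
  have h2 : ∑ i, ∑ z ∈ (A.md i).filter (fun z => A.φ i z = u), (ac (A.d i) z : ℝ) ≤ 2 * A.M :=
    (hA.star u).trans (mul_le_mul_of_nonneg_right (hA.bm2 u.1) hM.le)
  have h3 : ∑ i, ∑ z ∈ (A.J i).filter (fun z => A.φ i z = u), (ac (A.d i) z : ℝ) ≤ A.M := by
    have h4 : ∑ i, ∑ z ∈ (A.J i).filter (fun z => A.φ i z = u), (ac (A.d i) z : ℝ) ≤
        ∑ i, ∑ z ∈ (A.J i).filter (fun z => A.φ i z = u), P.s u.1 (A.lb i z) / 2 * A.M := by
      refine sum_le_sum fun i _ => sum_le_sum fun z hz => ?_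
      obtain ⟨hz1, hz2⟩ := mem_filter.1 hz
      have h5 := hA.acs i z hz1
      have h6 : A.X i = u.1 := by rw [← hA.JX i z hz1, hz2]
      rw [h6] at h5
      have h7 : 0 ≤ P.s u.1 (A.lb i z) / 2 * A.M :=
        mul_nonneg (div_nonneg (hP.s0 _ _) (by norm_num)) hM.le
      nlinarith
    refine h4.trans ?_
    rw [sum_sigma']
    have hinj : Set.InjOn (fun x : (i : Fin A.k) × Fin (A.mm i) => A.lb x.1 x.2)
        (univ.sigma fun i => (A.J i).filter (fun z => A.φ i z = u) :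
          Finset ((i : Fin A.k) × Fin (A.mm i))) := by
      rintro ⟨i, z⟩ hx ⟨i', z'⟩ hx' he
      rw [mem_coe, mem_sigma] at hx hx'
      obtain ⟨hz1, hz2⟩ := mem_filter.1 hx.2
      obtain ⟨hz1', hz2'⟩ := mem_filter.1 hx'.2
      simp only at hz1 hz2 hz1' hz2' he
      have hi : i = i' := hA.lbu i i' z hz1 z' hz1' (by rw [hz2, hz2']) he
      subst hi
      have hzz : z = z' := hA.lbi i z hz1 z' hz1' he
      rw [hzz]
    calc ∑ x ∈ (univ.sigma fun i => (A.J i).filter (fun z => A.φ i z = u) :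
          Finset ((i : Fin A.k) × Fin (A.mm i))), P.s u.1 (A.lb x.1 x.2) / 2 * A.M
        = ∑ j ∈ (univ.sigma fun i => (A.J i).filter (fun z => A.φ i z = u) :
          Finset ((i : Fin A.k) × Fin (A.mm i))).image (fun x => A.lb x.1 x.2),
            P.s u.1 j / 2 * A.M := (sum_image (f := fun j => P.s u.1 j / 2 * A.M) hinj).symm
      _ ≤ ∑ j, P.s u.1 j / 2 * A.M := by
          refine sum_le_sum_of_subset_of_nonneg (subset_univ _) fun j _ _ => ?_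
          exact mul_nonneg (div_nonneg (hP.s0 _ _) (by norm_num)) hM.le
      _ = (∑ j, P.s u.1 j / 2) * A.M := by rw [sum_mul]
      _ ≤ 1 * A.M := mul_le_mul_of_nonneg_right (UseV_s hP u.1) hM.le
      _ = A.M := one_mul _
  linarith

theorem law_bd (hP : ParOK P ε B) {D₁ D K Λ : ℕ} {ε₂ γ κ₄ δ₅ γh : ℝ} {bm : Fin q → ℝ}
    (hA : PlcOK A P D₁ D K Λ B ε₂ γ κ₄ δ₅ γh bm) {bt : Fin A.k → Finset (Fin q)}
    {bu : Fin q × G → Finset (Fin q)} (L : Laws P A ω bt bu B η) (hη : 0 ≤ η) (hη1 : η ≤ 1 / 2)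
    (hγ : 0 < γ) (hγ1 : γ ≤ 1) :
    (∀ i, ∀ z ∈ A.J i, ∀ v, L.ρ i (some z) v ≤ 3 / γ / A.M) ∧
    (∀ i, ∀ z ∈ A.md i, ∀ v, L.ρ i (some z) v ≤ 3 * B ^ 2 / A.M) ∧
    ∀ i v, L.π i v ≤ 3 * B / A.M := by
  have hM := UseV_M (A := A) hP
  have hB := B_ge hP
  refine ⟨fun i z hz v => ?_, fun i z hz v => UseV_md hP hA L hη hη1 i hz v, fun i v => ?_⟩
  · refine (L.sρu i z hz v).trans ?_
    have h1 := hA.sγ i z hz
    have h2 : hit ω (A.X i) (A.lb i z) v.1 ≤ 1 := by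
      rcases hit01 ω (A.X i) (A.lb i z) v.1 with h | h <;> rw [h]
      exact zero_le_one
    have h3 : 2 / P.s (A.X i) (A.lb i z) ≤ 2 / γ :=
      div_le_div_of_nonneg_left (by norm_num) hγ h1
    have hs0 : 0 < P.s (A.X i) (A.lb i z) := lt_of_lt_of_le hγ h1
    have h4 : 2 / P.s (A.X i) (A.lb i z) * hit ω (A.X i) (A.lb i z) v.1 ≤ 2 / γ * 1 := by
      refine mul_le_mul h3 h2 ?_ (by positivity)
      rcases hit01 ω (A.X i) (A.lb i z) v.1 with h | h <;> rw [h]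
      exact zero_le_one
    have h5 : (0 : ℝ) ≤ 2 / P.s (A.X i) (A.lb i z) * hit ω (A.X i) (A.lb i z) v.1 := by
      refine mul_nonneg (by positivity) ?_
      rcases hit01 ω (A.X i) (A.lb i z) v.1 with h | h <;> rw [h]
      exact zero_le_one
    rw [← mul_div_assoc]
    refine div_le_div_of_nonneg_right ?_ hM.le
    calc (1 + η) * (2 / P.s (A.X i) (A.lb i z) * hit ω (A.X i) (A.lb i z) v.1)
        ≤ (3 / 2) * (2 / γ * 1) := mul_le_mul (by linarith) h4 h5 (by norm_num)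
      _ = 3 / γ := by ring
  · refine (L.πu i v).trans ?_
    have h1 := gg_bd hP (hA.vd i) ω v.1
    have h2 := hP.a0_lo v.1
    have h3 := hP.a0_hi v.1
    have h4 := hP.ε0
    have h5 : P.gg ω (A.X i) (A.S i) v.1 * P.a0 v.1 ≤ B * 2 :=
      mul_le_mul h1.2 (by linarith) (by linarith) (by linarith)
    have h6 : 0 ≤ P.gg ω (A.X i) (A.S i) v.1 * P.a0 v.1 := mul_nonneg h1.1 (by linarith)
    rw [← mul_div_assoc]
    refine div_le_div_of_nonneg_right ?_ hM.le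
    calc (1 + η) * (P.gg ω (A.X i) (A.S i) v.1 * P.a0 v.1) ≤ (3 / 2) * (B * 2) :=
          mul_le_mul (by linarith) h5 h6 (by norm_num)
      _ = 3 * B := by ring

end MP_80c395_TP
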