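import Pool.Agent.Lib.MP_80c395_co_TQ.Mk2
import Pool.Agent.Lib.MP_80c395_co_TQ.UseV
import Pool.Agent.Lib.MP_80c395_co_TP.ATest

/-!
# Project TQ: the demands

`dmd Q C v = ∑ i, ∑ t, ∑ j, nb (C i) (sg t j) * lw i t j v` (ATest.lean); it is `0` for `v = inr _`.  Let `v = inl v'`.
* roots of pieces attached to slots: `≤ (1 + η) / M * ∑ i, ∑ z ∈ J, dz z (2 / s) hit ≤
  (3/2) (2 ∑ ∑ dz + θc M^2) / M` (`sρu`, `d1`/`d2`; `hit` is `0` for `X i = v'.1`);
* all other vertices: law at most `3 B^2 / M` (`law_bd`; `(1 + η) π ≤ (3/2) 3 B / M ≤ 3 B^2 / M`).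
`∑ i, ∑ z ∈ J, dz z ≤ ∑ i, ∑ t, nb (C i) (sg t (rt t)) ≤ ∑ i, ∑ x, nb (C i) x`, and the other vertices give at most
`∑ i, ∑ x, nb (C i) x` as well (the vertices `sg t j` are different).  `∑ x, nb C x = ∑ y ∈ C, nb univ y ≤ |C| b`
(`sum_nb_le` in S1Plc.lean) with `b = D`, `|C1| ≤ mm / K ≤ M / K`, or `b = D₁`, `|C2| ≤ 2 M / D`; there are at most
`5 M` trees.  So for `C1` the total is at most `(3 B^2 + 3) 5 M D / K + (3/2) θc M ≤ (20 B^2 D / K + 2 θc) M`
(`B ≥ 4`); for `C2` at most `(40 B^2 D₁ / D + 2 θc) M`.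
-/

set_option autoImplicit false

namespace MP_80c395_TP

open Finset

variable {q R : ℕ} {P : Par q R} {ε B : ℝ} {G : Type} [Fintype G] [DecidableEq G] [Nonempty G]
  {A : Plc q R G} {ω : Om q R} {η : ℝ}

private theorem Dmd2_sg {m : ℕ} {T : SimpleGraph (Fin m)} {d : Dec m} {D₁ D K : ℕ}
    (h : DecOK T d D₁ D K) (f : Fin m → ℕ) : ∑ t, ∑ j, f (d.sg t j) ≤ ∑ x, f x := by
  classical
  have hinj : Function.Injective (fun x : (t : Fin d.np) × Fin (d.sz t) => d.sg x.1 x.2) := by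
    rintro ⟨t, j⟩ ⟨t', j'⟩ he
    obtain ⟨h1, h2⟩ := h.inj t j t' j' he
    subst h1
    rw [Fin.ext h2]
  have e1 : ∑ t, ∑ j, f (d.sg t j) =
      ∑ x : (t : Fin d.np) × Fin (d.sz t), f (d.sg x.1 x.2) := by
    rw [Fintype.sum_sigma]
  rw [e1, ← Finset.sum_image (f := f) (s := univ) hinj.injOn]
  exact Finset.sum_le_sum_of_subset (Finset.subset_univ _)

private theorem Dmd2_rt {m : ℕ} (d : Dec m) (f : Fin m → ℕ) :
    ∑ t, f (d.sg t (d.rt t)) ≤ ∑ t, ∑ j, f (d.sg t j) :=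
  Finset.sum_le_sum fun t _ =>
    Finset.single_le_sum (f := fun j => f (d.sg t j)) (fun _ _ => Nat.zero_le _)
      (Finset.mem_univ (d.rt t))

private theorem Dmd2_dz {m : ℕ} (T : SimpleGraph (Fin m)) (d : Dec m) (C J : Finset (Fin m)) :
    ∑ z ∈ J, dz T d C z ≤ ∑ t, nb T C (d.sg t (d.rt t)) := by
  classical
  have e1 : ∀ z ∈ J, dz T d C z = ∑ t, if d.att t = some z then nb T C (d.sg t (d.rt t)) else 0 :=
    fun z _ => by
      unfold dz
      rw [Finset.sum_filter]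
  rw [Finset.sum_congr rfl e1, Finset.sum_comm]
  refine Finset.sum_le_sum fun t _ => ?_
  rcases d.att t with _ | z0
  · simp
  · simp only [Option.some.injEq]
    rw [Finset.sum_ite_eq]
    split_ifs
    · exact le_rfl
    · exact Nat.zero_le _

omit [DecidableEq G] in
private theorem Dmd2_M (hP : ParOK P ε B) : 0 < A.M := by
  have h1 : (0 : ℝ) < q := by exact_mod_cast hP.q0
  have h2 : (0 : ℝ) < Fintype.card G := by exact_mod_cast Fintype.card_pos
  exact mul_pos h1 h2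

/-- the vertices of one tree -/
private theorem Dmd2_tree {m : ℕ} {T : SimpleGraph (Fin m)} {d : Dec m} {D₁ D K : ℕ}
    (h : DecOK T d D₁ D K) (C J : Finset (Fin m)) (ρ : Option (Fin m) → ℝ) (p a : ℝ)
    (ha : 0 ≤ a) (hp : p ≤ a) (hn : ρ none ≤ a) (hJ0 : ∀ z ∈ J, 0 ≤ ρ (some z))
    (hm : ∀ z ∈ d.Z, z ∉ J → ρ (some z) ≤ a) :
    ∑ t, ∑ j, (nb T C (d.sg t j) : ℝ) * (if j.val = 0 then ρ (d.att t) else p) ≤
      a * (∑ x, nb T C x : ℕ) + ∑ z ∈ J, (dz T d C z : ℝ) * ρ (some z) := by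
  classical
  obtain ⟨e, he⟩ : ∃ e : Fin d.np → ℝ,
      e = fun t => ∑ z ∈ J, if d.att t = some z then ρ (some z) else 0 := ⟨_, rfl⟩
  have he0 : ∀ t, 0 ≤ e t := fun t => by
    rw [he]
    refine Finset.sum_nonneg fun z hz => ?_
    split_ifs
    · exact hJ0 z hz
    · exact le_rfl
  have hρ : ∀ t, ρ (d.att t) ≤ a + e t := fun t => by
    rcases ht : d.att t with _ | z
    · have := he0 t
      linarith
    · by_cases hz : z ∈ J
      · have h1 : ρ (some z) ≤ e t := by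
          rw [he]
          have h2 := Finset.single_le_sum (f := fun z' =>
            if d.att t = some z' then ρ (some z') else 0) (s := J) (fun z' hz' => by
              split_ifs
              · exact hJ0 z' hz'
              · exact le_rfl) hz
          simpa [ht] using h2
        linarith
      · have h1 := hm z (h.att_Z t z ht) hz
        have := he0 t
        linarith
  have h1 : ∀ t, ∀ j, (nb T C (d.sg t j) : ℝ) * (if j.val = 0 then ρ (d.att t) else p) ≤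
      a * (nb T C (d.sg t j) : ℕ) +
        (if j = d.rt t then (nb T C (d.sg t j) : ℝ) * e t else 0) := by
    intro t j
    have hn0 : (0 : ℝ) ≤ (nb T C (d.sg t j) : ℝ) := Nat.cast_nonneg _
    by_cases hj : j.val = 0
    · have hj' : j = d.rt t := Fin.ext hj
      rw [if_pos hj, if_pos hj']
      have := mul_le_mul_of_nonneg_left (hρ t) hn0
      linarith
    · have hj' : j ≠ d.rt t := fun h2 => hj (by rw [h2]; rfl)
      rw [if_neg hj, if_neg hj']
      have := mul_le_mul_of_nonneg_left hp hn0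
      linarith
  have h2 : ∑ t, ∑ j, (nb T C (d.sg t j) : ℝ) * (if j.val = 0 then ρ (d.att t) else p) ≤
      ∑ t, ∑ j, (a * (nb T C (d.sg t j) : ℕ) +
        (if j = d.rt t then (nb T C (d.sg t j) : ℝ) * e t else 0)) :=
    Finset.sum_le_sum fun t _ => Finset.sum_le_sum fun j _ => h1 t j
  refine h2.trans ?_
  have h3 : ∑ t, ∑ j, (a * (nb T C (d.sg t j) : ℕ) +
        (if j = d.rt t then (nb T C (d.sg t j) : ℝ) * e t else 0)) =
      a * ((∑ t, ∑ j, nb T C (d.sg t j) : ℕ) : ℝ) +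
        ∑ t, (nb T C (d.sg t (d.rt t)) : ℝ) * e t := by
    push_cast
    rw [Finset.mul_sum, ← Finset.sum_add_distrib]
    refine Finset.sum_congr rfl fun t _ => ?_
    rw [Finset.sum_add_distrib, ← Finset.mul_sum, Finset.sum_ite_eq' univ (d.rt t),
      if_pos (Finset.mem_univ _)]
  rw [h3]
  refine add_le_add ?_ (le_of_eq ?_)
  · refine mul_le_mul_of_nonneg_left ?_ ha
    exact_mod_cast Dmd2_sg h fun x => nb T C x
  · rw [he]
    simp only [Finset.mul_sum]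
    rw [Finset.sum_comm]
    refine Finset.sum_congr rfl fun z _ => ?_
    unfold dz
    rw [Nat.cast_sum, Finset.sum_filter, Finset.sum_mul]
    refine Finset.sum_congr rfl fun t _ => ?_
    split_ifs
    · rfl
    · simp

private theorem Dmd2_gen (hP : ParOK P ε B) {D₁ D K Λ : ℕ} {ε₂ γ κ₄ δ₅ γh : ℝ} {bm : Fin q → ℝ}
    (hA : PlcOK A P D₁ D K Λ B ε₂ γ κ₄ δ₅ γh bm) {θc : ℝ}
    {bt : Fin A.k → Finset (Fin q)} {bu : Fin q × G → Finset (Fin q)}
    (L : Laws P A ω bt bu B η) (hη : 0 ≤ η) (hη1 : η ≤ 1 / 2)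
    (hθc : 0 ≤ θc) (hγ : 0 < γ) (hγ1 : γ ≤ 1) (h0 : Fin q × G) {r : ℕ}
    (own : Sym2 ((Fin q × G) ⊕ Fin r) → Option (Fin A.k)) (v : (Fin q × G) ⊕ Fin r)
    (C : ∀ i, Finset (Fin (A.mm i))) (b : ℕ) {c : ℝ} (hc : 0 ≤ c)
    (hdeg : ∀ i, ∀ x ∈ C i, nb (A.T i) univ x ≤ b) (hcard : ∀ i, ((C i).card : ℝ) ≤ c)
    (hd : ∀ V, ∑ i ∈ univ.filter (fun i => A.X i ≠ V), ∑ z ∈ A.J i,
      (dz (A.T i) (A.d i) (C i) z : ℝ) * (2 / P.s (A.X i) (A.lb i z)) *
        hit ω (A.X i) (A.lb i z) V ≤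
      2 * (∑ i, ∑ z ∈ A.J i, (dz (A.T i) (A.d i) (C i) z : ℝ)) + θc * A.M ^ 2) :
    dmd (mkDat2 L h0 own (1 + η)) C v ≤ 15 * (B ^ 2 + 1) * (c * b) + 3 / 2 * θc * A.M := by
  have hM := Dmd2_M (A := A) hP
  have hB := B_ge hP
  have hcb : 0 ≤ c * b := mul_nonneg hc (Nat.cast_nonneg _)
  have hrhs : 0 ≤ 15 * (B ^ 2 + 1) * (c * b) + 3 / 2 * θc * A.M := by positivity
  cases v with
  | inr y =>
    have e1 : dmd (mkDat2 L h0 own (1 + η)) C (Sum.inr y) = 0 := by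
      unfold dmd
      refine Finset.sum_eq_zero fun i _ => Finset.sum_eq_zero fun t _ =>
        Finset.sum_eq_zero fun j _ => ?_
      exact mul_zero _
    rw [e1]
    exact hrhs
  | inl v =>
    have e1 : dmd (mkDat2 L h0 own (1 + η)) C (Sum.inl v) =
        ∑ i, ∑ t, ∑ j, (nb (A.T i) (C i) ((A.d i).sg t j) : ℝ) *
          (if j.val = 0 then L.ρ i ((A.d i).att t) v else (1 + η) * L.π i v) := rfl
    rw [e1]
    obtain ⟨l1, l2, l3⟩ := law_bd hP hA L hη hη1 hγ hγ1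
    have ha : 0 ≤ 3 * B ^ 2 / A.M := by positivity
    have hB2 : (3 / 2) * (3 * B) ≤ 3 * B ^ 2 := by nlinarith
    have hπ : ∀ i, (1 + η) * L.π i v ≤ 3 * B ^ 2 / A.M := fun i => by
      calc (1 + η) * L.π i v ≤ (3 / 2) * (3 * B / A.M) :=
            mul_le_mul (by linarith) (l3 i v) (L.π0 i v) (by norm_num)
        _ = (3 / 2) * (3 * B) / A.M := by ring
        _ ≤ 3 * B ^ 2 / A.M := div_le_div_of_nonneg_right hB2 hM.le
    have hπ1 : ∀ i, L.ρ i none v ≤ 3 * B ^ 2 / A.M := fun i => by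
      rw [L.ρn]
      refine le_trans ?_ (hπ i)
      have h1 := L.π0 i v
      have h2 := mul_nonneg hη h1
      linarith
    have h1 : ∀ i, ∑ t, ∑ j, (nb (A.T i) (C i) ((A.d i).sg t j) : ℝ) *
          (if j.val = 0 then L.ρ i ((A.d i).att t) v else (1 + η) * L.π i v) ≤
        3 * B ^ 2 / A.M * (∑ x, nb (A.T i) (C i) x : ℕ) +
          ∑ z ∈ A.J i, (dz (A.T i) (A.d i) (C i) z : ℝ) * L.ρ i (some z) v := fun i =>
      Dmd2_tree (hA.dec i) (C i) (A.J i) (fun o => L.ρ i o v) _ _ ha (hπ i) (hπ1 i)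
        (fun z hz => L.ρ0 i z (hA.JZ i hz) v)
        (fun z hz hz' => l2 i z (mem_sdiff.2 ⟨hz, hz'⟩) v)
    have hnb : ∀ i, ((∑ x, nb (A.T i) (C i) x : ℕ) : ℝ) ≤ c * b := fun i => by
      have h2 : ((∑ x, nb (A.T i) (C i) x : ℕ) : ℝ) ≤ ((C i).card * b : ℕ) := by
        exact_mod_cast sum_nb_le (A.T i) univ (C i) b (hdeg i)
      refine h2.trans ?_
      rw [Nat.cast_mul]
      exact mul_le_mul_of_nonneg_right (hcard i) (Nat.cast_nonneg _)
    have hdz : ∀ i, ∑ z ∈ A.J i, (dz (A.T i) (A.d i) (C i) z : ℝ) ≤ c * b := fun i => by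
      refine le_trans ?_ (hnb i)
      exact_mod_cast (Dmd2_dz (A.T i) (A.d i) (C i) (A.J i)).trans
        ((Dmd2_rt (A.d i) fun x => nb (A.T i) (C i) x).trans
          (Dmd2_sg (hA.dec i) fun x => nb (A.T i) (C i) x))
    have hk : ∀ f : Fin A.k → ℝ, (∀ i, f i ≤ c * b) → ∑ i, f i ≤ 5 * A.M * (c * b) := by
      intro f hf
      refine (Finset.sum_le_sum fun i _ => hf i).trans ?_
      rw [Finset.sum_const, Finset.card_univ, Fintype.card_fin, nsmul_eq_mul]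
      exact mul_le_mul_of_nonneg_right hA.k_le hcb
    -- the roots at slots
    have h2 : ∑ i, ∑ z ∈ A.J i, (dz (A.T i) (A.d i) (C i) z : ℝ) * L.ρ i (some z) v ≤
        (1 + η) / A.M * ∑ i ∈ univ.filter (fun i => A.X i ≠ v.1), ∑ z ∈ A.J i,
          (dz (A.T i) (A.d i) (C i) z : ℝ) * (2 / P.s (A.X i) (A.lb i z)) *
            hit ω (A.X i) (A.lb i z) v.1 := by
      rw [Finset.sum_filter, Finset.mul_sum]
      refine Finset.sum_le_sum fun i _ => ?_
      by_cases hX : A.X i = v.1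
      · rw [if_neg (not_not.2 hX), mul_zero]
        refine Finset.sum_nonpos fun z hz => ?_
        refine mul_nonpos_of_nonneg_of_nonpos (Nat.cast_nonneg _) ?_
        refine (L.sρu i z hz v).trans (le_of_eq ?_)
        have h3 : hit ω (A.X i) (A.lb i z) v.1 = 0 := if_pos hX
        rw [h3, mul_zero, zero_div, mul_zero]
      · rw [if_pos hX, Finset.mul_sum]
        refine Finset.sum_le_sum fun z hz => ?_
        refine (mul_le_mul_of_nonneg_left (L.sρu i z hz v) (Nat.cast_nonneg _)).trans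
          (le_of_eq ?_)
        ring
    have h3 : (1 + η) / A.M * ∑ i ∈ univ.filter (fun i => A.X i ≠ v.1), ∑ z ∈ A.J i,
          (dz (A.T i) (A.d i) (C i) z : ℝ) * (2 / P.s (A.X i) (A.lb i z)) *
            hit ω (A.X i) (A.lb i z) v.1 ≤
        15 * (c * b) + 3 / 2 * θc * A.M := by
      have h4 := hk (fun i => ∑ z ∈ A.J i, (dz (A.T i) (A.d i) (C i) z : ℝ)) hdz
      have h5 : 0 ≤ 2 * (5 * A.M * (c * b)) + θc * A.M ^ 2 := by positivity
      calc (1 + η) / A.M * ∑ i ∈ univ.filter (fun i => A.X i ≠ v.1), ∑ z ∈ A.J i,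
          (dz (A.T i) (A.d i) (C i) z : ℝ) * (2 / P.s (A.X i) (A.lb i z)) *
            hit ω (A.X i) (A.lb i z) v.1
          ≤ (1 + η) / A.M * (2 * (5 * A.M * (c * b)) + θc * A.M ^ 2) := by
            refine mul_le_mul_of_nonneg_left ?_ (div_nonneg (by linarith) hM.le)
            refine (hd v.1).trans ?_
            linarith
        _ ≤ (3 / 2) / A.M * (2 * (5 * A.M * (c * b)) + θc * A.M ^ 2) := by
            refine mul_le_mul_of_nonneg_right ?_ h5
            exact div_le_div_of_nonneg_right (by linarith) hM.le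
        _ = 15 * (c * b) + 3 / 2 * θc * A.M := by
            field_simp
            ring
    calc ∑ i, ∑ t, ∑ j, (nb (A.T i) (C i) ((A.d i).sg t j) : ℝ) *
          (if j.val = 0 then L.ρ i ((A.d i).att t) v else (1 + η) * L.π i v)
        ≤ ∑ i, (3 * B ^ 2 / A.M * (∑ x, nb (A.T i) (C i) x : ℕ) +
          ∑ z ∈ A.J i, (dz (A.T i) (A.d i) (C i) z : ℝ) * L.ρ i (some z) v) :=
          Finset.sum_le_sum fun i _ => h1 i
      _ = 3 * B ^ 2 / A.M * (∑ i, ((∑ x, nb (A.T i) (C i) x : ℕ) : ℝ)) +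
          ∑ i, ∑ z ∈ A.J i, (dz (A.T i) (A.d i) (C i) z : ℝ) * L.ρ i (some z) v := by
          rw [Finset.sum_add_distrib, Finset.mul_sum]
      _ ≤ 3 * B ^ 2 / A.M * (5 * A.M * (c * b)) + (15 * (c * b) + 3 / 2 * θc * A.M) :=
          add_le_add (mul_le_mul_of_nonneg_left (hk _ hnb) ha) (h2.trans h3)
      _ = 15 * (B ^ 2 + 1) * (c * b) + 3 / 2 * θc * A.M := by
          field_simp
          ring

theorem dmd_two (hP : ParOK P ε B) {D₁ D K Λ : ℕ} {ε₂ γ κ₄ δ₅ γh : ℝ} {bm : Fin q → ℝ}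
    (hA : PlcOK A P D₁ D K Λ B ε₂ γ κ₄ δ₅ γh bm) {θ θc : ℝ} (hω : QRc P A B θ θc γ ω)
    {bt : Fin A.k → Finset (Fin q)} {bu : Fin q × G → Finset (Fin q)}
    (L : Laws P A ω bt bu B η) (hη : 0 ≤ η) (hη1 : η ≤ 1 / 2)
    (hθc : 0 ≤ θc) (hγ : 0 < γ) (hγ1 : γ ≤ 1) (hD : 1 ≤ D) (hK : 1 ≤ K) (h0 : Fin q × G) {r : ℕ}
    (own : Sym2 ((Fin q × G) ⊕ Fin r) → Option (Fin A.k)) (v : (Fin q × G) ⊕ Fin r) :
    dmd (mkDat2 L h0 own (1 + η)) (fun i => (A.d i).C1) v ≤ (20 * B ^ 2 * D / K + 2 * θc) * A.M ∧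
    dmd (mkDat2 L h0 own (1 + η)) (fun i => (A.d i).C2) v ≤
      (40 * B ^ 2 * D₁ / D + 2 * θc) * A.M := by
  have hM := Dmd2_M (A := A) hP
  have hB := B_ge hP
  have hB2 : 16 ≤ B ^ 2 := by nlinarith
  have hDr : (0 : ℝ) < D := by exact_mod_cast hD
  have hKr : (0 : ℝ) < K := by exact_mod_cast hK
  have hθM : 0 ≤ θc * A.M := mul_nonneg hθc hM.le
  refine ⟨?_, ?_⟩
  · refine (Dmd2_gen hP hA L hη hη1 hθc hγ hγ1 h0 own v (fun i => (A.d i).C1) D
      (c := A.M / K) (by positivity) (fun i => (hA.dec i).deg1) (fun i => ?_) hω.d1).trans ?_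
    · rw [le_div_iff₀ hKr]
      have h1 : (K : ℝ) * (A.d i).C1.card ≤ A.mm i := by exact_mod_cast (hA.dec i).c1
      have h2 := hA.m_le i
      linarith
    · have h3 : 15 * (B ^ 2 + 1) * (A.M / K * D) ≤ 20 * B ^ 2 * (A.M / K * D) :=
        mul_le_mul_of_nonneg_right (by linarith) (by positivity)
      have h4 : (20 * B ^ 2 * D / K + 2 * θc) * A.M =
          20 * B ^ 2 * (A.M / K * D) + 2 * (θc * A.M) := by ring
      rw [h4]
      linarith
  · refine (Dmd2_gen hP hA L hη hη1 hθc hγ hγ1 h0 own v (fun i => (A.d i).C2) D₁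
      (c := 2 * A.M / D) (by positivity) (fun i => (hA.dec i).deg2) (fun i => ?_) hω.d2).trans ?_
    · rw [le_div_iff₀ hDr]
      have h1 : (D : ℝ) * (A.d i).C2.card ≤ 2 * A.mm i := by exact_mod_cast (hA.dec i).c2
      have h2 := hA.m_le i
      linarith
    · have h3 : 15 * (B ^ 2 + 1) * (2 * A.M / D * D₁) ≤ 20 * B ^ 2 * (2 * A.M / D * D₁) :=
        mul_le_mul_of_nonneg_right (by linarith) (by positivity)
      have h4 : (40 * B ^ 2 * D₁ / D + 2 * θc) * A.M =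
          20 * B ^ 2 * (2 * A.M / D * D₁) + 2 * (θc * A.M) := by ring
      rw [h4]
      linarith

end MP_80c395_TP
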