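import Pool.Agent.Lib.MP_80c395_co_TQ.Closure

/-!
# Project TQ: decomposition of a tree with prescribed centres

The same proofs as in Pool/Agent/Lib/MP_80c395_co_TP/OneEdge.lean (`one_edge`) and ExDec.lean
(`exists_dec`), where the initial set `H₀` is any set which contains all vertices of degree `> D`.

`one_edge_J`: copy the proof of `one_edge` with the given `H0` in place of
`{x | D < deg x}` (use `sep_step` of OneEdge.lean).

`exists_dec_J`: `H0 = J ∪ {x | D < deg x}`.  `cZ`: `Z ⊆ J ∪ {x | D₁ < deg x}`, so by `deg_count'`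
`D₁ |Z| ≤ D₁ |J| + m ≤ 2 m`; `c2`: `|C2| ≤ |H0| ≤ |J| + |{x | D < deg x}|`, `D |C2| ≤ 2 m`.
The rest as in `exists_dec`.
-/

set_option autoImplicit false

namespace MP_80c395_TP

open Finset

section oe

variable {m : ℕ} {T : SimpleGraph (Fin m)} {A B : Finset (Fin m)} {x y z : Fin m}

private theorem ExDecJ_refl (hx : x ∈ A) : Jn T A x x :=
  ⟨hx, hx, SimpleGraph.Reachable.refl _⟩

private theorem ExDecJ_symm (h : Jn T A x y) : Jn T A y x := by
  obtain ⟨hx, hy, h⟩ := h
  exact ⟨hy, hx, h.symm⟩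

private theorem ExDecJ_trans (h : Jn T A x y) (h' : Jn T A y z) : Jn T A x z := by
  obtain ⟨hx, hy, h⟩ := h
  obtain ⟨hy', hz, h'⟩ := h'
  exact ⟨hx, hz, h.trans h'⟩

private theorem ExDecJ_mono (hAB : A ⊆ B) (h : Jn T A x y) : Jn T B x y := by
  obtain ⟨hx, hy, h⟩ := h
  have hAB' : (A : Set (Fin m)) ≤ (B : Set (Fin m)) := fun v hv => hAB hv
  exact ⟨hAB hx, hAB hy, h.map (SimpleGraph.induceHomOfLE T hAB').toHom⟩

private theorem ExDecJ_adj (hx : x ∈ A) (hy : y ∈ A) (h : T.Adj x y) : Jn T A x y :=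
  ⟨hx, hy, SimpleGraph.Adj.reachable (by simpa using h)⟩

end oe

theorem one_edge_J {m : ℕ} {T : SimpleGraph (Fin m)} (hT : T.IsTree) (D₁ : ℕ)
    (H0 : Finset (Fin m)) :
    ∃ Z C : Finset (Fin m), Disjoint Z C ∧ H0 ⊆ Z ∧ (∀ x ∈ Z, x ∈ H0 ∨ D₁ < nb T univ x) ∧
      (∀ x ∈ C, nb T univ x ≤ D₁) ∧ C.card ≤ H0.card ∧
      ∀ P, Cn T P → Disjoint P (Z ∪ C) → ∀ x ∈ P, ∀ x' ∈ P, ∀ z ∈ Z, ∀ z' ∈ Z,
        T.Adj x z → T.Adj x' z' → x = x' ∧ z = z' := by
  classical
  obtain ⟨OK, hOK⟩ : ∃ OK : Finset (Fin m) × Finset (Fin m) → Prop, OK = fun Q =>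
      H0 ⊆ Q.1 ∧ (∀ z ∈ Q.1, z ∈ H0 ∨ D₁ < nb T univ z) ∧ Disjoint Q.1 Q.2 ∧
      (∀ x ∈ Q.2, nb T univ x ≤ D₁) ∧ (∀ z ∈ Q.1, ∃ h ∈ H0, Jn T Q.1 z h) ∧
      (Q.2 = ∅ ∨ ∃ A ⊆ H0, Q.2.card + 1 ≤ A.card ∧
        ∀ a ∈ A, ∀ b ∈ A, a ≠ b → ¬ Jn T (univ \ Q.2) a b) := ⟨_, rfl⟩
  have hne : ((univ : Finset (Finset (Fin m) × Finset (Fin m))).filter OK).Nonempty := by
    refine ⟨(H0, ∅), mem_filter.2 ⟨mem_univ _, ?_⟩⟩
    rw [hOK]
    refine ⟨Subset.refl _, fun z hz => Or.inl hz, disjoint_empty_right _,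
      fun x hx => absurd hx (notMem_empty x), fun z hz => ⟨z, hz, ExDecJ_refl hz⟩, Or.inl rfl⟩
  obtain ⟨⟨Z, C⟩, hZC, hmax⟩ := exists_max_image _ (fun Q => Q.1.card + Q.2.card) hne
  have hok := (mem_filter.1 hZC).2
  rw [hOK] at hok
  obtain ⟨o1, o2, o3, o4, o5, o6⟩ := hok
  simp only at o1 o2 o3 o4 o5 o6
  have hmax' : ∀ Q, OK Q → Q.1.card + Q.2.card ≤ Z.card + C.card := fun Q hQ =>
    hmax Q (mem_filter.2 ⟨mem_univ _, hQ⟩)
  refine ⟨Z, C, o3, o1, o2, o4, ?_, ?_⟩
  · rcases o6 with h | ⟨A, hA, hc, -⟩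
    · rw [h, card_empty]
      exact Nat.zero_le _
    · have := card_le_card hA
      omega
  · intro P hP hPZ x hx x' hx' z hz z' hz' hxz hxz'
    by_contra hcon
    have hPZ' : Disjoint P Z := (disjoint_union_right.1 hPZ).1
    have hPC : Disjoint P C := (disjoint_union_right.1 hPZ).2
    have hxZ : x ∉ Z := disjoint_left.1 hPZ' hx
    have hxC : x ∉ C := disjoint_left.1 hPC hx
    rcases lt_or_ge D₁ (nb T univ x) with hdeg | hdeg
    · -- add `x` to `Z`
      have hsub : Z ⊆ insert x Z := subset_insert _ _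
      have h1 : OK (insert x Z, C) := by
        rw [hOK]
        refine ⟨o1.trans hsub, ?_, ?_, o4, ?_, o6⟩
        · intro v hv
          rcases mem_insert.1 hv with h0 | h0
          · rw [h0]
            exact Or.inr hdeg
          · exact o2 v h0
        · exact disjoint_insert_left.2 ⟨hxC, o3⟩
        · intro v hv
          rcases mem_insert.1 hv with h0 | h0
          · obtain ⟨h, hh, hj⟩ := o5 z hz
            refine ⟨h, hh, ?_⟩
            rw [h0]
            exact ExDecJ_trans (ExDecJ_adj (mem_insert_self _ _) (hsub hz) hxz)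
              (ExDecJ_mono hsub hj)
          · obtain ⟨h, hh, hj⟩ := o5 v h0
            exact ⟨h, hh, ExDecJ_mono hsub hj⟩
      have h2 := hmax' _ h1
      simp only [card_insert_of_notMem hxZ] at h2
      omega
    · -- add `x` to `C`
      obtain ⟨h, hh, hj⟩ := o5 z hz
      obtain ⟨h', hh', hj'⟩ := o5 z' hz'
      obtain ⟨s1, s2⟩ := sep_step hT o3 hP hPZ hx hx' hz hz' hxz hxz' hcon hj hj'
      have hZC' : ∀ v ∈ Z, v ∈ univ \ C := fun v hv =>
        mem_sdiff.2 ⟨mem_univ _, disjoint_left.1 o3 hv⟩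
      have hZx : ∀ v ∈ Z, v ∈ univ \ insert x C := fun v hv =>
        mem_sdiff.2 ⟨mem_univ _, fun h0 => by
          rcases mem_insert.1 h0 with h3 | h3
          · exact hxZ (h3 ▸ hv)
          · exact disjoint_left.1 o3 hv h3⟩
      have hcx : univ \ insert x C ⊆ univ \ C := sdiff_subset_sdiff (Subset.refl _)
        (subset_insert _ _)
      obtain ⟨A, hA, hAc, hAp⟩ : ∃ A ⊆ H0, C.card + 1 ≤ A.card ∧
          ∀ a ∈ A, ∀ b ∈ A, a ≠ b → ¬ Jn T (univ \ C) a b := by
        rcases o6 with h0 | h0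
        · refine ⟨{h}, singleton_subset_iff.2 hh, by rw [h0]; simp, ?_⟩
          intro a ha b hb hab
          rw [mem_singleton] at ha hb
          exact absurd (ha.trans hb.symm) hab
        · exact h0
      obtain ⟨A1, hA1⟩ : ∃ A1, A1 = A.filter (fun a => ¬ Jn T (univ \ C) a h) := ⟨_, rfl⟩
      have hA1m : ∀ a, a ∈ A1 ↔ a ∈ A ∧ ¬ Jn T (univ \ C) a h := fun a => by
        rw [hA1, mem_filter]
      have hcard1 : A.card ≤ A1.card + 1 := by
        have e1 := card_filter_add_card_filter_not (s := A) (fun a => Jn T (univ \ C) a h)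
        have e2 : (A.filter (fun a => Jn T (univ \ C) a h)).card ≤ 1 := by
          rw [card_le_one]
          intro a ha b hb
          by_contra hab
          exact hAp a (mem_filter.1 ha).1 b (mem_filter.1 hb).1 hab
            (ExDecJ_trans (mem_filter.1 ha).2 (ExDecJ_symm (mem_filter.1 hb).2))
        rw [← hA1] at e1
        omega
      have hrh : Jn T (univ \ C) h h := ExDecJ_refl (hZC' h (o1 hh))
      have hnh' : h' ∉ A1 := fun h0 => ((hA1m h').1 h0).2 (ExDecJ_symm s1)
      have hhh' : h ≠ h' := fun h0 => s2 (h0 ▸ ExDecJ_refl (hZx h (o1 hh)))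
      have hnh : h ∉ insert h' A1 := fun h0 => by
        rcases mem_insert.1 h0 with h3 | h3
        · exact hhh' h3
        · exact ((hA1m h).1 h3).2 hrh
      have hcard2 : (insert h (insert h' A1)).card = A1.card + 2 := by
        rw [card_insert_of_notMem hnh, card_insert_of_notMem hnh']
      have hA1p : ∀ a ∈ A1, ¬ Jn T (univ \ insert x C) a h ∧
          ¬ Jn T (univ \ insert x C) a h' := fun a ha => by
        have h3 := ((hA1m a).1 ha).2
        exact ⟨fun h4 => h3 (ExDecJ_mono hcx h4),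
          fun h4 => h3 (ExDecJ_trans (ExDecJ_mono hcx h4) (ExDecJ_symm s1))⟩
      have h1 : OK (Z, insert x C) := by
        rw [hOK]
        refine ⟨o1, o2, disjoint_insert_right.2 ⟨hxZ, o3⟩, ?_, o5, Or.inr
          ⟨insert h (insert h' A1), ?_, ?_, ?_⟩⟩
        · intro v hv
          rcases mem_insert.1 hv with h0 | h0
          · rw [h0]
            exact hdeg
          · exact o4 v h0
        · intro v hv
          rcases mem_insert.1 hv with h0 | h0
          · rw [h0]
            exact hh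
          · rcases mem_insert.1 h0 with h3 | h3
            · rw [h3]
              exact hh'
            · exact hA ((hA1m v).1 h3).1
        · rw [hcard2, card_insert_of_notMem hxC]
          omega
        · intro a ha b hb hab
          rcases mem_insert.1 ha with ha1 | ha1
          · rcases mem_insert.1 hb with hb1 | hb1
            · exact absurd (ha1.trans hb1.symm) hab
            · rcases mem_insert.1 hb1 with hb2 | hb2
              · rw [ha1, hb2]
                exact s2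
              · rw [ha1]
                exact fun h4 => (hA1p b hb2).1 (ExDecJ_symm h4)
          · rcases mem_insert.1 ha1 with ha2 | ha2
            · rcases mem_insert.1 hb with hb1 | hb1
              · rw [ha2, hb1]
                exact fun h4 => s2 (ExDecJ_symm h4)
              · rcases mem_insert.1 hb1 with hb2 | hb2
                · exact absurd (ha2.trans hb2.symm) hab
                · rw [ha2]
                  exact fun h4 => (hA1p b hb2).2 (ExDecJ_symm h4)
            · rcases mem_insert.1 hb with hb1 | hb1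
              · rw [hb1]
                exact (hA1p a ha2).1
              · rcases mem_insert.1 hb1 with hb2 | hb2
                · rw [hb2]
                  exact (hA1p a ha2).2
                · exact fun h4 => hAp a ((hA1m a).1 ha2).1 b ((hA1m b).1 hb2).1 hab
                    (ExDecJ_mono hcx h4)
      have h2 := hmax' _ h1
      simp only [card_insert_of_notMem hxC] at h2
      omega

theorem exists_dec_J {m : ℕ} {T : SimpleGraph (Fin m)} (hT : T.IsTree) (D₁ D K : ℕ)
    (hD : D₁ ≤ D) (J : Finset (Fin m)) (hJ : D * J.card ≤ m) :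
    ∃ d : Dec m, DecOK T d D₁ D K ∧ J ⊆ d.Z := by
  classical
  obtain ⟨Z, C2, hZC, hH, hZ1', hC2, hC2c, hone⟩ := one_edge_J hT D₁
    (J ∪ univ.filter (fun x => D < nb T univ x))
  have hJZ : J ⊆ Z := (subset_union_left).trans hH
  have hZ2 : ∀ x, D < nb T univ x → x ∈ Z := fun x hx =>
    hH (mem_union.2 (Or.inr (mem_filter.2 ⟨mem_univ _, hx⟩)))
  obtain ⟨C1, hC1W, hC1c, hC1P⟩ := cut_forest hT K (univ \ (Z ∪ C2))
  obtain ⟨np, P, hPne, hPc, hPm, hPd, hPe⟩ := comps T ((univ \ (Z ∪ C2)) \ C1)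
  have hPsub : ∀ t, P t ⊆ (univ \ (Z ∪ C2)) \ C1 := fun t x hx => (hPm x).2 ⟨t, hx⟩
  have hPdis : ∀ t, Disjoint (P t) (Z ∪ C2) := by
    intro t
    rw [Finset.disjoint_left]
    intro x hx hx2
    have h1 := hPsub t hx
    rw [Finset.mem_sdiff, Finset.mem_sdiff] at h1
    exact h1.1.2 hx2
  -- roots
  have hroot : ∀ t, ∃ (x0 : Fin m) (a : Option (Fin m)), x0 ∈ P t ∧
      (∀ z, a = some z → z ∈ Z ∧ T.Adj x0 z) ∧
      (∀ x ∈ P t, ∀ z ∈ Z, T.Adj x z → a = some z ∧ x = x0) := by
    intro t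
    by_cases h : ∃ x ∈ P t, ∃ z ∈ Z, T.Adj x z
    · obtain ⟨x, hx, z, hz, hxz⟩ := h
      refine ⟨x, some z, hx, ?_, ?_⟩
      · intro z' hz'
        obtain rfl : z = z' := Option.some.inj hz'
        exact ⟨hz, hxz⟩
      · intro x' hx' z' hz' hxz'
        obtain ⟨h1, h2⟩ := hone (P t) (hPc t) (hPdis t) x hx x' hx' z hz z' hz' hxz hxz'
        exact ⟨by rw [h2], h1.symm⟩
    · obtain ⟨x0, hx0⟩ := hPne t
      refine ⟨x0, none, hx0, ?_, ?_⟩
      · intro z hz
        exact absurd hz (by simp)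
      · intro x hx z hz hxz
        exact absurd ⟨x, hx, z, hz, hxz⟩ h
  choose x0 at0 hx0 hat1 hat2 using hroot
  have henum := fun t => enum_piece hT (hPc t) (hx0 t)
  choose l hl σ q hlc hσi hσm hσ0 hqlt hσe using henum
  have hσP : ∀ t j, σ t j ∈ P t := fun t j => (hσm t _).2 ⟨j, rfl⟩
  have hσW : ∀ t j, σ t j ∉ Z ∧ σ t j ∉ C2 ∧ σ t j ∉ C1 := by
    intro t j
    have h1 := hPsub t (hσP t j)
    rw [Finset.mem_sdiff, Finset.mem_sdiff, Finset.mem_union] at h1
    exact ⟨fun h => h1.1.2 (Or.inl h), fun h => h1.1.2 (Or.inr h), h1.2⟩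
  have hdegZ : ∀ x, x ∉ Z → nb T univ x ≤ D := by
    intro x hx
    by_contra h
    exact hx (hZ2 x (by omega))
  refine ⟨⟨Z, C1, C2, np, l, σ, q, at0, hl⟩, ?_, hJZ⟩
  constructor
  · -- sz_le
    intro t
    change l t ≤ K
    rw [hlc t]
    exact hC1P (P t) (hPsub t) (hPc t)
  · -- inj
    intro t j t' j' h
    change σ t j = σ t' j' at h
    have h1 : t = t' := hPd t t' (σ t j) (hσP t j) (h ▸ hσP t' j')
    subst h1
    exact ⟨rfl, congrArg Fin.val (hσi t h)⟩
  · -- pr_lt
    intro t j hj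
    exact hqlt t j hj
  · -- cover
    intro x
    change x ∈ Z ∨ x ∈ C1 ∨ x ∈ C2 ∨ ∃ t j, σ t j = x
    by_cases h1 : x ∈ Z
    · exact Or.inl h1
    by_cases h2 : x ∈ C1
    · exact Or.inr (Or.inl h2)
    by_cases h3 : x ∈ C2
    · exact Or.inr (Or.inr (Or.inl h3))
    · refine Or.inr (Or.inr (Or.inr ?_))
      obtain ⟨t, ht⟩ := (hPm x).1 (by simp [h1, h2, h3])
      obtain ⟨j, hj⟩ := (hσm t x).1 ht
      exact ⟨t, j, hj⟩
  · intro t j
    exact (hσW t j).1
  · intro t j
    exact (hσW t j).2.2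
  · intro t j
    exact (hσW t j).2.1
  · -- Z1
    change Disjoint Z C1
    rw [Finset.disjoint_left]
    intro x hx hx1
    have h1 := hC1W hx1
    rw [Finset.mem_sdiff, Finset.mem_union] at h1
    exact h1.2 (Or.inl hx)
  · exact hZC
  · -- C12
    change Disjoint C1 C2
    rw [Finset.disjoint_left]
    intro x hx hx2
    have h1 := hC1W hx
    rw [Finset.mem_sdiff, Finset.mem_union] at h1
    exact h1.2 (Or.inr hx2)
  · -- e_in
    intro t j t' j' h
    change T.Adj (σ t j) (σ t' j') at h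
    have h1 : t = t' := hPe t t' _ _ (hσP t j) (hσP t' j') h
    subst h1
    exact ⟨rfl, hσe t j j' h⟩
  · -- e_Z
    intro t j z hz h
    change T.Adj (σ t j) z at h
    obtain ⟨h1, h2⟩ := hat2 t (σ t j) (hσP t j) z hz h
    refine ⟨h1, ?_⟩
    have h3 : σ t j = σ t ⟨0, hl t⟩ := by rw [h2, hσ0 t]
    have h4 := hσi t h3
    rw [h4]
  · -- att_Z
    intro t z h
    exact (hat1 t z h).1
  · -- att_adj
    intro t z h
    change T.Adj (σ t ⟨0, hl t⟩) z
    rw [hσ0 t]
    exact (hat1 t z h).2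
  · -- deg_sg
    intro t j
    exact hdegZ _ (hσW t j).1
  · -- deg1
    intro x hx
    apply hdegZ
    intro hxZ
    have h1 := hC1W hx
    rw [Finset.mem_sdiff, Finset.mem_union] at h1
    exact h1.2 (Or.inl hxZ)
  · intro x hx
    exact hC2 x hx
  · -- cZ
    change D₁ * Z.card ≤ 2 * m
    have h1 : Z ⊆ J ∪ univ.filter (fun x => D₁ < nb T univ x) := by
      intro x hx
      rcases hZ1' x hx with h | h
      · rcases mem_union.1 h with h2 | h2
        · exact mem_union.2 (Or.inl h2)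
        · exact mem_union.2 (Or.inr (mem_filter.2
            ⟨mem_univ _, lt_of_le_of_lt hD (mem_filter.1 h2).2⟩))
      · exact mem_union.2 (Or.inr (mem_filter.2 ⟨mem_univ _, h⟩))
    have h2 := (card_le_card h1).trans (card_union_le _ _)
    have h3 := Nat.mul_le_mul_left D₁ h2
    have h4 := deg_count' hT D₁
    have h5 : D₁ * J.card ≤ D * J.card := Nat.mul_le_mul_right _ hD
    rw [mul_add] at h3
    omega
  · -- c1
    change K * C1.card ≤ m
    have h1 : (univ \ (Z ∪ C2)).card ≤ m := by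
      refine le_trans (Finset.card_le_univ _) ?_
      simp
    have h2 : K * C1.card ≤ (K + 1) * C1.card := Nat.mul_le_mul_right _ (by omega)
    omega
  · -- c2
    change D * C2.card ≤ 2 * m
    have h2 := hC2c.trans (card_union_le _ _)
    have h3 := Nat.mul_le_mul_left D h2
    have h4 := deg_count' hT D
    rw [mul_add] at h3
    omega

end MP_80c395_TP
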