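import Pool.Agent.Lib.MP_80c395_co_TQ.Water

/-!
# Project TQ: the levels of the clusters

Case 1 (all `lev X ≤ 1 + e/8`): `t' = lev`.  Case 2: `t' X = max (lev X) (M0 / 2)`.  In case 2
`(1 - κ) q M0 / 2 ≤ ∑ X, lev X ≤ q` (`ht`), so `M0 ≤ 4`, and `∑ t' ≤ ∑ lev + κ q M0 / 2 ≤ ∑ lev + 2 κ q`.
`water` (Water.lean) gives `x ≥ 0` with `∑ X, max (x - t' X) 0 = T q`.  `β X = max (x - t' X) 0`,
`t X = t' X + β X = max (t' X) x`, `tb = (∑ t) / q = (∑ t') / q + T`, `tm = min X, t X ≥ 0`.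
`0 < β X`: `t X = x ≤ t Y` for all `Y`, so `t X = tm`; `β X ≤ x = tm ≤ tb ≤ 1`.
Last claim, case 1: if `x ≤ 1 + e/8` all `t X ≤ 1 + e/8`; otherwise all `t X = x > 1`, but
`tb ≤ 1 - e`.  Case 2: if `x ≤ M0`: `M0 / 2 ≤ t X ≤ M0`; otherwise all `t X = x = tm > 0`.
-/

set_option autoImplicit false

namespace MP_80c395_TP

open Finset

private theorem Levels_aux {q : ℕ} (hq : 0 < q) (e κ : ℝ) (he : 0 < e) (lev t' : Fin q → ℝ)
    (h0 : ∀ X, 0 ≤ t' X) (h1 : ∀ X, lev X ≤ t' X) (T : ℝ) (hT : 0 ≤ T)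
    (ht : (∑ X, lev X) / q + T + 2 * κ ≤ 1 - e)
    (hs : ∑ X, t' X ≤ ∑ X, lev X + 2 * κ * q) :
    ∃ x tm tb : ℝ, 0 ≤ x ∧ (∀ X, 0 ≤ max (x - t' X) 0 ∧ max (x - t' X) 0 ≤ 1 ∧
        lev X + max (x - t' X) 0 ≤ max (t' X) x ∧ tm ≤ max (t' X) x) ∧
      (∀ X, 0 < max (x - t' X) 0 → max (t' X) x = tm) ∧ 0 ≤ tm ∧
      ∑ X, max (x - t' X) 0 = T * q ∧ tb * q = ∑ X, max (t' X) x ∧
      tb ≤ (∑ X, lev X) / q + T + 2 * κ ∧ ∃ X, max (t' X) x = tm := by
  have hq' : (0 : ℝ) < q := by exact_mod_cast hq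
  obtain ⟨x, hx, hxT⟩ := water hq t' h0 (T * q) (by positivity)
  have hne : (univ : Finset (Fin q)).Nonempty := ⟨⟨0, hq⟩, mem_univ _⟩
  obtain ⟨X₀, -, hX₀⟩ := Finset.exists_min_image univ (fun X => max (t' X) x) hne
  have hmax : ∀ X, max (t' X) x = t' X + max (x - t' X) 0 := fun X => by
    rcases le_total x (t' X) with h | h
    · rw [max_eq_left h, max_eq_right (by linarith), add_zero]
    · rw [max_eq_right h, max_eq_left (by linarith)]
      ring
  have hsum : ∑ X, max (t' X) x = ∑ X, t' X + T * q := by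
    rw [← hxT, ← Finset.sum_add_distrib]
    exact Finset.sum_congr rfl fun X _ => hmax X
  have htb : (∑ X, max (t' X) x) / q ≤ (∑ X, lev X) / q + T + 2 * κ := by
    rw [hsum, div_le_iff₀ hq']
    have : ((∑ X, lev X) / q + T + 2 * κ) * q = ∑ X, lev X + T * q + 2 * κ * q := by
      field_simp
    rw [this]
    linarith
  have htm : max (t' X₀) x ≤ (∑ X, max (t' X) x) / q := by
    rw [le_div_iff₀ hq']
    have h2 : ∑ _X : Fin q, max (t' X₀) x ≤ ∑ X, max (t' X) x :=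
      Finset.sum_le_sum fun X hX => hX₀ X hX
    rw [Finset.sum_const, card_univ, Fintype.card_fin, nsmul_eq_mul] at h2
    linarith
  refine ⟨x, max (t' X₀) x, (∑ X, max (t' X) x) / q, hx, fun X => ⟨le_max_right _ _, ?_, ?_,
    hX₀ X (mem_univ _)⟩, fun X hX => ?_, le_max_of_le_right hx, hxT, ?_, htb, X₀, rfl⟩
  · refine max_le ?_ zero_le_one
    have h3 := le_max_right (t' X₀) x
    have h4 := h0 X
    linarith
  · rw [hmax]
    linarith [h1 X]
  · have h3 : t' X < x := by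
      by_contra h
      rw [max_eq_right (by linarith)] at hX
      exact lt_irrefl _ hX
    have h4 := hX₀ X (mem_univ _)
    have h5 := le_max_right (t' X₀) x
    rw [max_eq_right h3.le] at h4 ⊢
    linarith
  · rw [div_mul_cancel₀ _ hq'.ne']

open Classical in
theorem levels {q : ℕ} (hq : 0 < q) (e κ : ℝ) (he : 0 < e) (he1 : e ≤ 1 / 4) (hκ : 0 ≤ κ)
    (hκ1 : κ ≤ 1 / 2) (lev : Fin q → ℝ) (h0 : ∀ X, 0 ≤ lev X) (T : ℝ) (hT : 0 ≤ T)
    (ht : (∑ X, lev X) / q + T + 2 * κ ≤ 1 - e)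
    (hc : (∀ X, lev X ≤ 1 + e / 8) ∨ ∃ M0 : ℝ, 0 < M0 ∧ (∀ X, lev X ≤ M0) ∧
      ((univ.filter (fun X => lev X < M0 / 2)).card : ℝ) ≤ κ * q) :
    ∃ (t β : Fin q → ℝ) (tm tb : ℝ), (∀ X, 0 ≤ β X ∧ β X ≤ 1 ∧ lev X + β X ≤ t X ∧ tm ≤ t X) ∧
      (∀ X, 0 < β X → t X = tm) ∧ 0 ≤ tm ∧ ∑ X, β X = T * q ∧ tb * q = ∑ X, t X ∧
      tb ≤ (∑ X, lev X) / q + T + 2 * κ ∧
      ((∀ X, t X ≤ 1 + e / 8) ∨ (0 < tm ∧ ∀ X, t X ≤ 2 * tm)) := by
  have hq' : (0 : ℝ) < q := by exact_mod_cast hq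
  rcases hc with hc | ⟨M0, hM0, hlM, hcard⟩
  · obtain ⟨x, tm, tb, hx, a1, a2, a3, a4, a5, a6, X₀, a7⟩ :=
      Levels_aux hq e κ he lev lev h0 (fun X => le_rfl) T hT ht (by
        have : 0 ≤ 2 * κ * q := by positivity
        linarith)
    refine ⟨fun X => max (lev X) x, fun X => max (x - lev X) 0, tm, tb, a1, a2, a3, a4, a5, a6,
      Or.inl fun X => ?_⟩
    refine max_le (hc X) ?_
    by_contra hlt
    push Not at hlt
    have h2 : ∑ X, max (lev X) x = q * x := by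
      rw [Finset.sum_congr rfl (g := fun _ => x) fun X _ => max_eq_right ((hc X).trans hlt.le),
        Finset.sum_const, card_univ, Fintype.card_fin, nsmul_eq_mul]
    rw [h2] at a5
    have h3 : tb = x := by
      have : tb * q = x * q := by linarith
      exact mul_right_cancel₀ hq'.ne' this
    linarith
  · set F := univ.filter (fun X => lev X < M0 / 2) with hF
    have hlow : (q - (F.card : ℝ)) * (M0 / 2) ≤ ∑ X, lev X := by
      have h2 : ∑ X, (M0 / 2 - if X ∈ F then M0 / 2 else 0) ≤ ∑ X, lev X := by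
        refine Finset.sum_le_sum fun X _ => ?_
        by_cases hX : X ∈ F
        · rw [if_pos hX]
          linarith [h0 X]
        · rw [if_neg hX, sub_zero]
          by_contra h
          exact hX (Finset.mem_filter.2 ⟨mem_univ _, not_le.1 h⟩)
      rw [Finset.sum_sub_distrib, Finset.sum_const, card_univ, Fintype.card_fin, nsmul_eq_mul,
        Finset.sum_ite_mem, Finset.univ_inter, Finset.sum_const, nsmul_eq_mul] at h2
      linarith
    have hup : ∑ X, lev X ≤ q := by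
      have h2 : (∑ X, lev X) / q ≤ 1 := by linarith
      rwa [div_le_one hq'] at h2
    have hM4 : M0 ≤ 4 := by
      have h2 : (F.card : ℝ) ≤ 1 / 2 * q := hcard.trans (mul_le_mul_of_nonneg_right hκ1 hq'.le)
      have h3 : (q : ℝ) / 2 * (M0 / 2) ≤ (q - (F.card : ℝ)) * (M0 / 2) :=
        mul_le_mul_of_nonneg_right (by linarith) (by linarith)
      by_contra h
      push Not at h
      nlinarith
    have hs : ∑ X, max (lev X) (M0 / 2) ≤ ∑ X, lev X + 2 * κ * q := by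
      have h2 : ∑ X, max (lev X) (M0 / 2) ≤ ∑ X, (lev X + if X ∈ F then M0 / 2 else 0) := by
        refine Finset.sum_le_sum fun X _ => ?_
        by_cases hX : X ∈ F
        · rw [if_pos hX]
          exact max_le (by linarith) (by linarith [h0 X])
        · rw [if_neg hX, add_zero]
          refine max_le le_rfl ?_
          by_contra h
          exact hX (Finset.mem_filter.2 ⟨mem_univ _, not_le.1 h⟩)
      rw [Finset.sum_add_distrib, Finset.sum_ite_mem, Finset.univ_inter, Finset.sum_const,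
        nsmul_eq_mul] at h2
      have h3 : (F.card : ℝ) * (M0 / 2) ≤ κ * q * 2 :=
        mul_le_mul hcard (by linarith) (by linarith) (by positivity)
      linarith
    obtain ⟨x, tm, tb, hx, a1, a2, a3, a4, a5, a6, X₀, a7⟩ :=
      Levels_aux hq e κ he lev (fun X => max (lev X) (M0 / 2))
        (fun X => (h0 X).trans (le_max_left _ _)) (fun X => le_max_left _ _) T hT ht hs
    refine ⟨fun X => max (max (lev X) (M0 / 2)) x, fun X => max (x - max (lev X) (M0 / 2)) 0,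
      tm, tb, fun X => ⟨(a1 X).1, (a1 X).2.1, (a1 X).2.2.1, (a1 X).2.2.2⟩, a2, a3, a4, a5, a6,
      Or.inr ⟨?_, fun X => ?_⟩⟩
    · rw [← a7]
      exact lt_of_lt_of_le (by linarith : (0 : ℝ) < M0 / 2)
        ((le_max_right _ _).trans (le_max_left _ _))
    · have h2 : M0 / 2 ≤ tm := by
        rw [← a7]
        exact (le_max_right _ _).trans (le_max_left _ _)
      have h3 : x ≤ tm := by
        rw [← a7]
        exact le_max_right _ _
      have h4 := hlM X
      refine max_le (max_le ?_ ?_) ?_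
      · linarith
      · linarith
      · linarith

end MP_80c395_TP
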