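import Mathlib

/-!
# Project TQ: the numbers of the law

Notation: `tb` is the average of the levels `t X ≥ tm ≥ 0`, `a_Y = t Y - tb`,
`SS z l h a b = 1 - z a - l b + h a b`, `lam = 1 / (2 - tb)`, `tb ≤ 1 - ε`, so
`1/2 ≤ lam ≤ 1 / (1 + ε)`.  Let `L = ∑ X, l X`, `ld = 1 - tb - L - ls - l0 ≥ ε`.

Identity: for all real `a, b`, with `t_Y = tb + a`, `t_W = tb + b` and numbers `ζ_Y, ζ_W`:
if `t_Y ζ_Y = (1-θ) q0 + θ lam t_Y` (same for `W`) then
`t_Y (1 - ζ_Y b) / 2 + t_W (1 - ζ_W a) / 2 = tb + (a+b)/2 - (1-θ) q0 (a+b)/2 - θ lam (tb (a+b) + 2ab)/2`.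

Case 1: all `t X ≤ 1 + ε/8`.  All `ζ = lam`, all `η = lam / (1 - tb)`.  Then
stars `+ (1 - tb) SS = 1` identically (constant: `tb + (1-tb)`; linear: `(1 - lam tb)/2 - lam (1-tb) =
1/2 - lam (2 - tb)/2 = 0`; bilinear: `- lam + (1-tb) η = 0`; `θ = 1` above).  Let `Lb = 1 - tb ≥ ε`,
`A = 1 + ε/8 - tb = Lb + ε/8`, `-tb ≤ a, b ≤ A`.  `SS` is bilinear, so its minimum is at a corner:
`(A,A)`: `≥ (1 - lam A)^2 ≥ (3/8)^2 - ..`: `lam A ≤ Lb/(1+Lb) + ε/8 ≤ 1/2 + 1/32`; so `≥ 1/5`;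
`(A,-B)`, `B = tb`: `1 - lam A + lam B (1 - A / Lb) ≥ 1 - lam A - lam B (ε/8)/ε ≥ 15/32 - 1/8 ≥ 1/5`;
`(-B,-B)`: `≥ 1`.  So `SS ≥ 1/5`, and stars + light `= 1 - (1 - tb - L - ls - l0) SS ≤ 1 - ε/5 ≤
1 - ε^3`.  `SS ≤ 1 + 2 + 1/ε ≤ 4/ε`.  `1 - lam a ≥ 1 - lam A ≥ 1/4 ≥ ε`,
`1 - lam a ≤ 1 + lam tb ≤ 1 + (1-ε)/(1+ε) ≤ 2 - ε`.

Case 2: `0 < tm`, `tm ≤ t X ≤ 2 tm` for all `X`; so `tm ≤ tb ≤ 2 tm`.  `A = 2 tm - tb ∈ [0, tm]`,
`Bm = tb - tm ∈ [0, tm]`, `-Bm ≤ a_Y ≤ A`.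
`q0 = lam (tb + L + ls) / (1 + ∑ X, l X / t X + ls / tm) ≤ lam (1 - ε) ≤ 1 - ε`, `q0 ≥ 0`.
For `θ ∈ [0,1]`: `ζ X = (1-θ) q0 / t X + θ lam`, `ζs = (1-θ) q0 / tm + θ lam`.  All of these, and `lam`,
satisfy `z A ≤ 1 - ε`, `z Bm ≤ 1 - ε` (`q0 A / t X ≤ q0 ≤ 1 - ε`; `lam A ≤ lam tm ≤ lam tb ≤ 1 - ε`; the
same for `Bm`), hence `ε ≤ 1 - z a_Y ≤ 2 - ε`.
`η` for `(z, lam)`: `h = max 0 (((z + lam) A - 1) / A^2)` (`0` if `A = 0`; in Lean division by `0` is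
`0`).  Corners of `SS z lam h` on `[-Bm, A]^2`: `(A,A)`: `1 - (z+lam) A + h A^2 ≥ 0`; `(A,-Bm)`: if
`h = 0`: `1 - z A + lam Bm ≥ 0`; if `h > 0`: `= (1 - z A)(1 + Bm / A) ≥ 0`; `(-Bm,A)`: the same with
`lam`; `(-Bm,-Bm)`: `≥ 1`.  So `SS ≥ 0`.  Also `h ≤ z lam` (from `(1 - z A)(1 - lam A) ≥ 0`), so
`SS ≤ (1 + z Bm)(1 + lam Bm) ≤ 4` at `(-Bm,-Bm)`, and `≤ 2` at the other corners.
Linear coefficient of stars + light + `ld (1 - lam a)(1 - lam b)`: for every `θ` it is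
`1/2 - (1-θ) q0 (1 + ∑ l X / t X + ls / tm)/2 - θ lam (tb + L + ls)/2 - lam (L + ls)/2 - lam (l0 + ld)
= 1/2 - lam (tb + 2 (1 - tb))/2 = 0`.  Constant coefficient: `tb + L + ls + l0 + ld = 1`.
Bilinear coefficient `Φ(θ) = - θ lam + ∑ l X η X + ls ηs + l0 η0 + ld lam^2`, continuous in `θ`,
`Φ(0) ≥ 0`, `Φ(1) ≤ - lam + lam^2 (1 - tb) ≤ 0` (at `θ = 1` all `η ≤ lam^2`); so there is `θ` with
`Φ(θ) = 0`, and then stars + light `= 1 - ld (1 - lam a)(1 - lam b) ≤ 1 - ε^3`.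
-/

set_option autoImplicit false

namespace MP_80c395_TP

open Finset

/-- the bilinear function of the law -/
def SS (z l h a b : ℝ) : ℝ := 1 - z * a - l * b + h * a * b

lemma LPLaw_affine {α β x p q c : ℝ} (hp : p ≤ x) (hq : x ≤ q) (h1 : c ≤ α + β * p)
    (h2 : c ≤ α + β * q) : c ≤ α + β * x := by
  rcases le_total 0 β with h | h
  · have := mul_le_mul_of_nonneg_left hp h
    linarith
  · have := mul_le_mul_of_nonpos_left hq h
    linarith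

lemma LPLaw_bil {α β γ δ a b B A c : ℝ} (ha : -B ≤ a) (ha' : a ≤ A) (hb : -B ≤ b) (hb' : b ≤ A)
    (h1 : c ≤ α + β * A + γ * A + δ * A * A) (h2 : c ≤ α + β * A + γ * -B + δ * A * -B)
    (h3 : c ≤ α + β * -B + γ * A + δ * -B * A) (h4 : c ≤ α + β * -B + γ * -B + δ * -B * -B) :
    c ≤ α + β * a + γ * b + δ * a * b := by
  have h5 : c ≤ (α + β * a) + (γ + δ * a) * A := by
    have := LPLaw_affine (α := α + γ * A) (β := β + δ * A) (c := c) ha ha' (by linarith)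
      (by linarith)
    linarith
  have h6 : c ≤ (α + β * a) + (γ + δ * a) * -B := by
    have := LPLaw_affine (α := α + γ * -B) (β := β + δ * -B) (c := c) ha ha' (by linarith)
      (by linarith)
    linarith
  have := LPLaw_affine hb hb' h6 h5
  linarith

lemma LPLaw_low {z l h a b B A c : ℝ} (ha : -B ≤ a) (ha' : a ≤ A) (hb : -B ≤ b) (hb' : b ≤ A)
    (h1 : c ≤ SS z l h A A) (h2 : c ≤ SS z l h A (-B)) (h3 : c ≤ SS z l h (-B) A)
    (h4 : c ≤ SS z l h (-B) (-B)) : c ≤ SS z l h a b := by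
  unfold SS at *
  have := LPLaw_bil (α := 1) (β := -z) (γ := -l) (δ := h) (c := c) ha ha' hb hb'
    (by linarith) (by linarith) (by linarith) (by linarith)
  linarith

lemma LPLaw_up {z l h a b B A c : ℝ} (ha : -B ≤ a) (ha' : a ≤ A) (hb : -B ≤ b) (hb' : b ≤ A)
    (h1 : SS z l h A A ≤ c) (h2 : SS z l h A (-B) ≤ c) (h3 : SS z l h (-B) A ≤ c)
    (h4 : SS z l h (-B) (-B) ≤ c) : SS z l h a b ≤ c := by
  unfold SS at *
  have := LPLaw_bil (α := -1) (β := z) (γ := l) (δ := -h) (c := -c) ha ha' hb hb'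
    (by linarith) (by linarith) (by linarith) (by linarith)
  linarith

lemma LPLaw_sum {q : ℕ} (l ζ η : Fin q → ℝ) (lam a b : ℝ) :
    ∑ X, l X * ((SS (ζ X) lam (η X) a b + SS (ζ X) lam (η X) b a) / 2) =
      ∑ X, l X - (a + b) / 2 * ∑ X, l X * ζ X - lam * (a + b) / 2 * ∑ X, l X +
        a * b * ∑ X, l X * η X := by
  rw [Finset.mul_sum, Finset.mul_sum, Finset.mul_sum, ← Finset.sum_sub_distrib,
    ← Finset.sum_sub_distrib, ← Finset.sum_add_distrib]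
  refine Finset.sum_congr rfl fun X _ => ?_
  unfold SS
  ring

/-- the first case -/
lemma LPLaw_one (ε : ℝ) (hε : 0 < ε) (hε1 : ε ≤ 1 / 4) {q : ℕ} (t : Fin q → ℝ)
    (tm tb : ℝ) (l : Fin q → ℝ) (ls l0 : ℝ) (htb0 : 0 ≤ tb) (h0 : 0 ≤ tm)
    (htm : ∀ X, tm ≤ t X) (hl : ∀ X, 0 ≤ l X) (hls : 0 ≤ ls) (hl0 : 0 ≤ l0)
    (htot : tb + ∑ X, l X + ls + l0 ≤ 1 - ε) (hcase : ∀ X, t X ≤ 1 + ε / 8) :
    ∃ (lam ζs ηs η0 : ℝ) (ζ η : Fin q → ℝ),
      (∀ X, t X = tm → ζ X = ζs) ∧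
      (∀ X Y, ε ≤ 1 - ζ X * (t Y - tb) ∧ 1 - ζ X * (t Y - tb) ≤ 2 - ε) ∧
      (∀ Y, ε ≤ 1 - ζs * (t Y - tb) ∧ 1 - ζs * (t Y - tb) ≤ 2 - ε) ∧
      (∀ Y, ε ≤ 1 - lam * (t Y - tb) ∧ 1 - lam * (t Y - tb) ≤ 2 - ε) ∧
      (∀ X Y W, 0 ≤ SS (ζ X) lam (η X) (t Y - tb) (t W - tb) ∧
        SS (ζ X) lam (η X) (t Y - tb) (t W - tb) ≤ 4 / ε) ∧
      (∀ Y W, 0 ≤ SS ζs lam ηs (t Y - tb) (t W - tb) ∧
        SS ζs lam ηs (t Y - tb) (t W - tb) ≤ 4 / ε) ∧
      (∀ Y W, 0 ≤ SS lam lam η0 (t Y - tb) (t W - tb) ∧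
        SS lam lam η0 (t Y - tb) (t W - tb) ≤ 4 / ε) ∧
      ∀ Y W, t Y * (1 - ζ Y * (t W - tb)) / 2 + t W * (1 - ζ W * (t Y - tb)) / 2 +
          ∑ X, l X * ((SS (ζ X) lam (η X) (t Y - tb) (t W - tb) +
            SS (ζ X) lam (η X) (t W - tb) (t Y - tb)) / 2) +
          ls * ((SS ζs lam ηs (t Y - tb) (t W - tb) + SS ζs lam ηs (t W - tb) (t Y - tb)) / 2) +
          l0 * SS lam lam η0 (t Y - tb) (t W - tb) ≤ 1 - ε ^ 3 := by
  have hL : 0 ≤ ∑ X, l X := Finset.sum_nonneg fun X _ => hl X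
  have htb1 : tb ≤ 1 - ε := by linarith
  have h2 : 0 < 2 - tb := by linarith
  have h1 : 0 < 1 - tb := by linarith
  obtain ⟨lam, hlam⟩ : ∃ lam, lam = 1 / (2 - tb) := ⟨_, rfl⟩
  have hlam0 : 0 < lam := by rw [hlam]; positivity
  have hlamE : lam * (2 - tb) = 1 := by
    rw [hlam]
    field_simp
  have hlam1 : lam ≤ 1 := by nlinarith
  obtain ⟨h, hh⟩ : ∃ h, h = lam / (1 - tb) := ⟨_, rfl⟩
  have hhE : h * (1 - tb) = lam := by
    rw [hh]
    field_simp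
  have hh0 : 0 < h := by rw [hh]; positivity
  obtain ⟨A, hA⟩ : ∃ A, A = 1 - tb + ε / 8 := ⟨_, rfl⟩
  have hA0 : 0 < A := by rw [hA]; positivity
  have hlA : lam * A ≤ 17 / 32 := by
    have e1 : lam * A = 1 - lam + lam * (ε / 8) := by
      rw [hA]
      linarith
    have e2 : 1 / 2 ≤ lam := by nlinarith
    have e3 : lam * (ε / 8) ≤ 1 * (ε / 8) :=
      mul_le_mul_of_nonneg_right hlam1 (by positivity)
    linarith
  have hltb : lam * tb ≤ 1 - ε := by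
    have e1 : lam * tb ≤ 1 * tb := mul_le_mul_of_nonneg_right hlam1 htb0
    linarith
  have hab : ∀ Y, -tb ≤ t Y - tb ∧ t Y - tb ≤ A := fun Y => by
    have e1 := htm Y
    have e2 := hcase Y
    constructor <;> linarith
  have hhl : lam ^ 2 ≤ h := by
    have e1 : lam * (1 - tb) ≤ 1 := by nlinarith
    have e2 : lam ^ 2 * (1 - tb) ≤ h * (1 - tb) := by
      rw [hhE]
      nlinarith
    exact le_of_mul_le_mul_right e2 h1
  have hhA : h * A = lam + h * (ε / 8) := by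
    rw [hA]
    linarith
  have hhε : h * ε ≤ lam := by
    rw [← hhE]
    exact mul_le_mul_of_nonneg_left (by linarith) hh0.le
  -- lower bound
  have hlow : ∀ Y W, 1 / 5 ≤ SS lam lam h (t Y - tb) (t W - tb) := by
    intro Y W
    have c2 : 1 / 5 ≤ 1 - lam * A - lam * -tb + h * A * -tb := by
      rw [hhA]
      have e1 : h * (ε / 8) * tb ≤ lam / 8 * tb :=
        mul_le_mul_of_nonneg_right (by linarith) htb0
      linarith
    refine LPLaw_low (hab Y).1 (hab Y).2 (hab W).1 (hab W).2 ?_ ?_ ?_ ?_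
    · unfold SS
      have e1 : lam ^ 2 * (A * A) ≤ h * (A * A) :=
        mul_le_mul_of_nonneg_right hhl (by positivity)
      have e2 : (15 / 32) ^ 2 ≤ (1 - lam * A) ^ 2 :=
        pow_le_pow_left₀ (by norm_num) (by linarith) 2
      nlinarith
    · exact c2
    · unfold SS
      linarith
    · unfold SS
      have e1 : 0 ≤ lam * tb := by positivity
      have e2 : 0 ≤ h * (tb * tb) := by positivity
      linarith
  have hup : ∀ Y W, SS lam lam h (t Y - tb) (t W - tb) ≤ 4 / ε := by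
    intro Y W
    have hε4 : 4 ≤ 4 / ε := by
      rw [le_div_iff₀ hε]
      linarith
    have hlA0 : 0 ≤ lam * A := by positivity
    have hhtb : 0 ≤ h * A * tb := by positivity
    have hlt0 : 0 ≤ lam * tb := by positivity
    refine LPLaw_up (hab Y).1 (hab Y).2 (hab W).1 (hab W).2 ?_ ?_ ?_ ?_
    · unfold SS
      have e1 : h * A ≤ 9 / 8 * lam := by
        rw [hhA]
        linarith
      have e2 : h * A * A ≤ 9 / 8 * lam * A := mul_le_mul_of_nonneg_right e1 hA0.le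
      linarith
    · unfold SS
      linarith
    · unfold SS
      linarith
    · unfold SS
      have e1 : h ≤ 1 / ε := by
        rw [le_div_iff₀ hε]
        linarith
      have e2 : h * (tb * tb) ≤ 1 / ε * (tb * tb) :=
        mul_le_mul_of_nonneg_right e1 (by positivity)
      have e3 : tb * tb ≤ 1 := by nlinarith
      have e4 : 1 / ε * (tb * tb) ≤ 1 / ε * 1 := mul_le_mul_of_nonneg_left e3 (by positivity)
      have e5 : 4 / ε = 1 / ε + 3 * (1 / ε) := by ring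
      have e6 : 1 ≤ 1 / ε := by
        rw [le_div_iff₀ hε]
        linarith
      have e7 : 1 - lam * -tb - lam * -tb + h * -tb * -tb = 1 + 2 * (lam * tb) +
          h * (tb * tb) := by ring
      rw [e7, e5]
      linarith
  have hz : ∀ Y, ε ≤ 1 - lam * (t Y - tb) ∧ 1 - lam * (t Y - tb) ≤ 2 - ε := by
    intro Y
    have e1 := mul_le_mul_of_nonneg_left (hab Y).1 hlam0.le
    have e2 := mul_le_mul_of_nonneg_left (hab Y).2 hlam0.le
    constructor <;> linarith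
  have hs : ∀ Y W, 0 ≤ SS lam lam h (t Y - tb) (t W - tb) ∧
      SS lam lam h (t Y - tb) (t W - tb) ≤ 4 / ε := fun Y W =>
    ⟨by linarith [hlow Y W], hup Y W⟩
  refine ⟨lam, lam, h, h, fun _ => lam, fun _ => h, fun _ _ => rfl, fun _ Y => hz Y, hz, hz,
    fun _ Y W => hs Y W, hs, hs, fun Y W => ?_⟩
  have hS := hlow Y W
  have hsum := LPLaw_sum l (fun _ => lam) (fun _ => h) lam (t Y - tb) (t W - tb)
  rw [hsum, ← Finset.sum_mul, ← Finset.sum_mul]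
  generalize ∑ X, l X = L at hL htot
  have e1 : t Y * (1 - lam * (t W - tb)) / 2 + t W * (1 - lam * (t Y - tb)) / 2 +
      (L - (t Y - tb + (t W - tb)) / 2 * (L * lam) - lam * (t Y - tb + (t W - tb)) / 2 * L +
        (t Y - tb) * (t W - tb) * (L * h)) +
      ls * ((SS lam lam h (t Y - tb) (t W - tb) + SS lam lam h (t W - tb) (t Y - tb)) / 2) +
      l0 * SS lam lam h (t Y - tb) (t W - tb) =
      1 - (1 - tb - L - ls - l0) * SS lam lam h (t Y - tb) (t W - tb) := by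
    unfold SS
    linear_combination (-(t Y - tb + (t W - tb)) / 2) * hlamE +
      ((t Y - tb) * (t W - tb)) * hhE
  rw [e1]
  have e2 : ε * (1 / 5) ≤ (1 - tb - L - ls - l0) * SS lam lam h (t Y - tb) (t W - tb) :=
    mul_le_mul (by linarith) hS (by norm_num) (by linarith)
  have e3 : ε ^ 3 ≤ ε * (1 / 16) := by
    have : ε ^ 2 ≤ 1 / 16 := by nlinarith
    calc ε ^ 3 = ε * ε ^ 2 := by ring
      _ ≤ ε * (1 / 16) := mul_le_mul_of_nonneg_left this hε.le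
  linarith

/-- the coefficient of the second case -/
noncomputable def LPLaw_h (lam A z : ℝ) : ℝ := max 0 (((z + lam) * A - 1) / A ^ 2)

lemma LPLaw_h_nonneg (lam A z : ℝ) : 0 ≤ LPLaw_h lam A z := le_max_left _ _

lemma LPLaw_h_le {lam A z : ℝ} (hlam : 0 ≤ lam) (hz : 0 ≤ z) (h1 : z * A ≤ 1)
    (h2 : lam * A ≤ 1) : LPLaw_h lam A z ≤ z * lam := by
  unfold LPLaw_h
  refine max_le (mul_nonneg hz hlam) ?_
  rcases eq_or_ne A 0 with rfl | hA
  · simp only [mul_zero, zero_sub, ne_eq, OfNat.ofNat_ne_zero, not_false_eq_true, zero_pow,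
      div_zero]
    exact mul_nonneg hz hlam
  · rw [div_le_iff₀ (by positivity)]
    nlinarith [mul_nonneg (sub_nonneg.2 h1) (sub_nonneg.2 h2)]

lemma LPLaw_SS {lam A B z : ℝ} (hA : 0 ≤ A) (hB : 0 ≤ B) (hlam : 0 ≤ lam) (hz : 0 ≤ z)
    (h1 : z * A ≤ 1) (h2 : lam * A ≤ 1) (h3 : z * B ≤ 1) (h4 : lam * B ≤ 1) {a b : ℝ}
    (ha : -B ≤ a) (ha' : a ≤ A) (hb : -B ≤ b) (hb' : b ≤ A) :
    0 ≤ SS z lam (LPLaw_h lam A z) a b ∧ SS z lam (LPLaw_h lam A z) a b ≤ 4 := by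
  have hh0 := LPLaw_h_nonneg lam A z
  have hh1 := LPLaw_h_le hlam hz h1 h2
  have hlB : 0 ≤ lam * B := mul_nonneg hlam hB
  have hzB : 0 ≤ z * B := mul_nonneg hz hB
  have hlA : 0 ≤ lam * A := mul_nonneg hlam hA
  have hzA : 0 ≤ z * A := mul_nonneg hz hA
  constructor
  · rcases le_or_gt ((z + lam) * A) 1 with h5 | h5
    · have e0 : LPLaw_h lam A z = 0 := by
        unfold LPLaw_h
        exact max_eq_left (div_nonpos_of_nonpos_of_nonneg (by linarith) (by positivity))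
      rw [e0]
      refine LPLaw_low ha ha' hb hb' ?_ ?_ ?_ ?_ <;> unfold SS <;> linarith
    · have hA0 : 0 < A := by
        rcases hA.lt_or_eq with h | h
        · exact h
        · rw [← h, mul_zero] at h5
          linarith
      obtain ⟨h, hh⟩ : ∃ h, h = LPLaw_h lam A z := ⟨_, rfl⟩
      have hhE : h * A ^ 2 = (z + lam) * A - 1 := by
        rw [hh]
        unfold LPLaw_h
        rw [max_eq_right (div_nonneg (by linarith) (by positivity))]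
        field_simp
      rw [← hh] at hh0 hh1 ⊢
      have key : ∀ w v : ℝ, (w + v) * A - 1 = h * A ^ 2 → w * A ≤ 1 → 0 ≤ w →
          0 ≤ 1 - w * A + v * B - h * A * B := by
        intro w v hwv hw1 hw0
        have e1 : A * (1 - w * A + v * B - h * A * B) = (1 - w * A) * (A + B) := by
          linear_combination B * hwv
        have e2 : 0 ≤ A * (1 - w * A + v * B - h * A * B) := by
          rw [e1]
          exact mul_nonneg (by linarith) (by linarith)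
        exact nonneg_of_mul_nonneg_right e2 hA0
      refine LPLaw_low ha ha' hb hb' ?_ ?_ ?_ ?_
      · unfold SS
        linarith
      · have := key z lam hhE.symm h1 hz
        unfold SS
        linarith
      · have := key lam z (by rw [hhE]; ring) h2 hlam
        unfold SS
        linarith
      · unfold SS
        have e1 : 0 ≤ h * (B * B) := by positivity
        linarith
  · have e1 : LPLaw_h lam A z * (A * A) ≤ z * lam * (A * A) :=
      mul_le_mul_of_nonneg_right hh1 (by positivity)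
    have e2 : LPLaw_h lam A z * (B * B) ≤ z * lam * (B * B) :=
      mul_le_mul_of_nonneg_right hh1 (by positivity)
    have e3 : 0 ≤ LPLaw_h lam A z * (A * B) := by positivity
    refine LPLaw_up ha ha' hb hb' ?_ ?_ ?_ ?_ <;> unfold SS
    · nlinarith [mul_nonneg (sub_nonneg.2 h1) (sub_nonneg.2 h2)]
    · linarith
    · linarith
    · have e4 : (1 + z * B) * (1 + lam * B) ≤ 2 * 2 :=
        mul_le_mul (by linarith) (by linarith) (by linarith) (by norm_num)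
      nlinarith

lemma LPLaw_lin {A B z ε : ℝ} (hz : 0 ≤ z) (h1 : z * A ≤ 1 - ε) (h2 : z * B ≤ 1 - ε)
    {a : ℝ} (ha : -B ≤ a) (ha' : a ≤ A) : ε ≤ 1 - z * a ∧ 1 - z * a ≤ 2 - ε := by
  have e1 := mul_le_mul_of_nonneg_left ha hz
  have e2 := mul_le_mul_of_nonneg_left ha' hz
  constructor <;> linarith

/-- the second case -/
lemma LPLaw_two (ε : ℝ) (hε : 0 < ε) (hε1 : ε ≤ 1 / 4) {q : ℕ} (t : Fin q → ℝ)
    (tm tb : ℝ) (l : Fin q → ℝ) (ls l0 : ℝ) (htmb : tm ≤ tb) (htb2 : tb ≤ 2 * tm)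
    (htm : ∀ X, tm ≤ t X) (hl : ∀ X, 0 ≤ l X) (hls : 0 ≤ ls) (hl0 : 0 ≤ l0)
    (htot : tb + ∑ X, l X + ls + l0 ≤ 1 - ε) (h0 : 0 < tm) (hcase : ∀ X, t X ≤ 2 * tm) :
    ∃ (lam ζs ηs η0 : ℝ) (ζ η : Fin q → ℝ),
      (∀ X, t X = tm → ζ X = ζs) ∧
      (∀ X Y, ε ≤ 1 - ζ X * (t Y - tb) ∧ 1 - ζ X * (t Y - tb) ≤ 2 - ε) ∧
      (∀ Y, ε ≤ 1 - ζs * (t Y - tb) ∧ 1 - ζs * (t Y - tb) ≤ 2 - ε) ∧
      (∀ Y, ε ≤ 1 - lam * (t Y - tb) ∧ 1 - lam * (t Y - tb) ≤ 2 - ε) ∧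
      (∀ X Y W, 0 ≤ SS (ζ X) lam (η X) (t Y - tb) (t W - tb) ∧
        SS (ζ X) lam (η X) (t Y - tb) (t W - tb) ≤ 4 / ε) ∧
      (∀ Y W, 0 ≤ SS ζs lam ηs (t Y - tb) (t W - tb) ∧
        SS ζs lam ηs (t Y - tb) (t W - tb) ≤ 4 / ε) ∧
      (∀ Y W, 0 ≤ SS lam lam η0 (t Y - tb) (t W - tb) ∧
        SS lam lam η0 (t Y - tb) (t W - tb) ≤ 4 / ε) ∧
      ∀ Y W, t Y * (1 - ζ Y * (t W - tb)) / 2 + t W * (1 - ζ W * (t Y - tb)) / 2 +
          ∑ X, l X * ((SS (ζ X) lam (η X) (t Y - tb) (t W - tb) +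
            SS (ζ X) lam (η X) (t W - tb) (t Y - tb)) / 2) +
          ls * ((SS ζs lam ηs (t Y - tb) (t W - tb) + SS ζs lam ηs (t W - tb) (t Y - tb)) / 2) +
          l0 * SS lam lam η0 (t Y - tb) (t W - tb) ≤ 1 - ε ^ 3 := by
  have hL : 0 ≤ ∑ X, l X := Finset.sum_nonneg fun X _ => hl X
  have htb0 : 0 < tb := by linarith
  have htb1 : tb ≤ 1 - ε := by linarith
  have h2 : 0 < 2 - tb := by linarith
  have ht0 : ∀ X, 0 < t X := fun X => h0.trans_le (htm X)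
  obtain ⟨lam, hlam⟩ : ∃ lam, lam = 1 / (2 - tb) := ⟨_, rfl⟩
  have hlam0 : 0 < lam := by rw [hlam]; positivity
  have hlamE : lam * (2 - tb) = 1 := by
    rw [hlam]
    field_simp
  have hlam1 : lam ≤ 1 := by nlinarith
  obtain ⟨A, hA⟩ : ∃ A, A = 2 * tm - tb := ⟨_, rfl⟩
  obtain ⟨B, hB⟩ : ∃ B, B = tb - tm := ⟨_, rfl⟩
  have hA0 : 0 ≤ A := by linarith
  have hB0 : 0 ≤ B := by linarith
  have hAm : A ≤ tm := by linarith
  have hBm : B ≤ tm := by linarith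
  have hab : ∀ Y, -B ≤ t Y - tb ∧ t Y - tb ≤ A := fun Y => by
    have e1 := htm Y
    have e2 := hcase Y
    constructor <;> linarith
  have hltb : lam * tb ≤ 1 - ε := by
    have e1 : lam * tb ≤ 1 * tb := mul_le_mul_of_nonneg_right hlam1 htb0.le
    linarith
  have hlA : lam * A ≤ 1 - ε := (mul_le_mul_of_nonneg_left (by linarith) hlam0.le).trans hltb
  have hlB : lam * B ≤ 1 - ε := (mul_le_mul_of_nonneg_left (by linarith) hlam0.le).trans hltb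
  -- the number `q0`
  obtain ⟨Q, hQ⟩ : ∃ Q, Q = 1 + ∑ X, l X / t X + ls / tm := ⟨_, rfl⟩
  have hQ1 : 1 ≤ Q := by
    have e1 : 0 ≤ ∑ X, l X / t X := Finset.sum_nonneg fun X _ => div_nonneg (hl X) (ht0 X).le
    have e2 : 0 ≤ ls / tm := by positivity
    linarith
  obtain ⟨q0, hq0⟩ : ∃ q0, q0 = lam * (tb + ∑ X, l X + ls) / Q := ⟨_, rfl⟩
  have hq0Q : q0 * Q = lam * (tb + ∑ X, l X + ls) := by
    rw [hq0]
    field_simp
  have hq00 : 0 ≤ q0 := by rw [hq0]; positivity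
  have hq01 : q0 ≤ 1 - ε := by
    have e1 : q0 * 1 ≤ q0 * Q := mul_le_mul_of_nonneg_left hQ1 hq00
    have e2 : lam * (tb + ∑ X, l X + ls) ≤ 1 * (tb + ∑ X, l X + ls) :=
      mul_le_mul_of_nonneg_right hlam1 (by linarith)
    linarith
  -- the functions of `θ`
  have hz : ∀ θ : ℝ, 0 ≤ θ → θ ≤ 1 → ∀ s : ℝ, tm ≤ s →
      0 ≤ (1 - θ) * (q0 / s) + θ * lam ∧ ((1 - θ) * (q0 / s) + θ * lam) * A ≤ 1 - ε ∧
        ((1 - θ) * (q0 / s) + θ * lam) * B ≤ 1 - ε := by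
    intro θ hθ0 hθ1 s hs
    have hs0 : 0 < s := h0.trans_le hs
    have e1 : 0 ≤ q0 / s := by positivity
    have key : ∀ C : ℝ, 0 ≤ C → C ≤ tm → lam * C ≤ 1 - ε →
        ((1 - θ) * (q0 / s) + θ * lam) * C ≤ 1 - ε := by
      intro C hC0 hC1 hC2
      have e2 : q0 / s * C ≤ 1 - ε := by
        have e3 : q0 / s * C ≤ q0 / s * s := mul_le_mul_of_nonneg_left (by linarith) e1
        rw [div_mul_cancel₀ _ hs0.ne'] at e3
        linarith
      have e4 := mul_le_mul_of_nonneg_left e2 (sub_nonneg.2 hθ1)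
      have e5 := mul_le_mul_of_nonneg_left hC2 hθ0
      linarith
    refine ⟨?_, key A hA0 hAm hlA, key B hB0 hBm hlB⟩
    exact add_nonneg (mul_nonneg (by linarith) e1) (mul_nonneg hθ0 hlam0.le)
  have hcont : ∀ s : ℝ, Continuous fun θ : ℝ =>
      LPLaw_h lam A ((1 - θ) * (q0 / s) + θ * lam) := by
    intro s
    unfold LPLaw_h
    fun_prop
  let Φ : ℝ → ℝ := fun θ => -(θ * lam) +
    ∑ X, l X * LPLaw_h lam A ((1 - θ) * (q0 / t X) + θ * lam) +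
    ls * LPLaw_h lam A ((1 - θ) * (q0 / tm) + θ * lam) + l0 * LPLaw_h lam A lam +
    (1 - tb - ∑ X, l X - ls - l0) * lam ^ 2
  have hΦc : Continuous Φ := by
    have e1 : Continuous fun θ : ℝ => ∑ X, l X * LPLaw_h lam A ((1 - θ) * (q0 / t X) + θ * lam) :=
      continuous_finsetSum _ fun X _ => (hcont (t X)).const_mul _
    have e2 := (hcont tm).const_mul ls
    exact ((((continuous_id.mul continuous_const).neg.add e1).add e2).add
      continuous_const).add continuous_const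
  have hΦ0 : 0 ≤ Φ 0 := by
    have e1 : 0 ≤ ∑ X, l X * LPLaw_h lam A ((1 - 0) * (q0 / t X) + 0 * lam) :=
      Finset.sum_nonneg fun X _ => mul_nonneg (hl X) (LPLaw_h_nonneg _ _ _)
    have e2 : 0 ≤ ls * LPLaw_h lam A ((1 - 0) * (q0 / tm) + 0 * lam) :=
      mul_nonneg hls (LPLaw_h_nonneg _ _ _)
    have e3 : 0 ≤ l0 * LPLaw_h lam A lam := mul_nonneg hl0 (LPLaw_h_nonneg _ _ _)
    have e4 : 0 ≤ (1 - tb - ∑ X, l X - ls - l0) * lam ^ 2 :=
      mul_nonneg (by linarith) (by positivity)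
    change 0 ≤ -(0 * lam) + _ + _ + _ + _
    linarith
  have hΦ1 : Φ 1 ≤ 0 := by
    have e0 : ∀ s : ℝ, (1 - 1) * (q0 / s) + 1 * lam = lam := fun s => by ring
    have eh : LPLaw_h lam A lam ≤ lam * lam :=
      LPLaw_h_le hlam0.le hlam0.le (by linarith) (by linarith)
    have e1 : (∑ X, l X) * LPLaw_h lam A lam ≤ (∑ X, l X) * (lam * lam) :=
      mul_le_mul_of_nonneg_left eh hL
    have e2 : ls * LPLaw_h lam A lam ≤ ls * (lam * lam) := mul_le_mul_of_nonneg_left eh hls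
    have e3 : l0 * LPLaw_h lam A lam ≤ l0 * (lam * lam) := mul_le_mul_of_nonneg_left eh hl0
    have e5 : lam * (lam * (2 - tb)) = lam * 1 := by rw [hlamE]
    have e6 : 0 ≤ lam * lam := by positivity
    change -(1 * lam) + ∑ X, l X * LPLaw_h lam A ((1 - 1) * (q0 / t X) + 1 * lam) +
      ls * LPLaw_h lam A ((1 - 1) * (q0 / tm) + 1 * lam) + _ + _ ≤ 0
    simp only [e0]
    rw [← Finset.sum_mul]
    nlinarith
  obtain ⟨θ, ⟨hθ0, hθ1⟩, hθ⟩ := intermediate_value_Icc' (zero_le_one (α := ℝ))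
    hΦc.continuousOn ⟨hΦ1, hΦ0⟩
  have hzX := fun X => hz θ hθ0 hθ1 (t X) (htm X)
  have hzs := hz θ hθ0 hθ1 tm le_rfl
  have h4 : 4 ≤ 4 / ε := by
    rw [le_div_iff₀ hε]
    linarith
  have hSS : ∀ z : ℝ, 0 ≤ z → z * A ≤ 1 - ε → z * B ≤ 1 - ε → ∀ Y W,
      0 ≤ SS z lam (LPLaw_h lam A z) (t Y - tb) (t W - tb) ∧
      SS z lam (LPLaw_h lam A z) (t Y - tb) (t W - tb) ≤ 4 / ε := by
    intro z hz0 hzA hzB Y W
    have e1 := LPLaw_SS hA0 hB0 hlam0.le hz0 (by linarith) (by linarith) (by linarith)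
      (by linarith) (hab Y).1 (hab Y).2 (hab W).1 (hab W).2
    exact ⟨e1.1, e1.2.trans h4⟩
  have hlin : ∀ z : ℝ, 0 ≤ z → z * A ≤ 1 - ε → z * B ≤ 1 - ε → ∀ Y,
      ε ≤ 1 - z * (t Y - tb) ∧ 1 - z * (t Y - tb) ≤ 2 - ε := fun z hz0 hzA hzB Y =>
    LPLaw_lin hz0 hzA hzB (hab Y).1 (hab Y).2
  refine ⟨lam, (1 - θ) * (q0 / tm) + θ * lam,
    LPLaw_h lam A ((1 - θ) * (q0 / tm) + θ * lam), LPLaw_h lam A lam,
    fun X => (1 - θ) * (q0 / t X) + θ * lam,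
    fun X => LPLaw_h lam A ((1 - θ) * (q0 / t X) + θ * lam), ?_, ?_, ?_, ?_, ?_, ?_, ?_, ?_⟩
  · intro X hX
    dsimp only
    rw [hX]
  · exact fun X Y => hlin _ (hzX X).1 (hzX X).2.1 (hzX X).2.2 Y
  · exact hlin _ hzs.1 hzs.2.1 hzs.2.2
  · exact hlin _ hlam0.le hlA hlB
  · exact fun X Y W => hSS _ (hzX X).1 (hzX X).2.1 (hzX X).2.2 Y W
  · exact hSS _ hzs.1 hzs.2.1 hzs.2.2
  · exact hSS _ hlam0.le hlA hlB
  · intro Y W
    have hsum := LPLaw_sum l (fun X => (1 - θ) * (q0 / t X) + θ * lam)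
      (fun X => LPLaw_h lam A ((1 - θ) * (q0 / t X) + θ * lam)) lam (t Y - tb) (t W - tb)
    have hlz : ∑ X, l X * ((1 - θ) * (q0 / t X) + θ * lam) =
        (1 - θ) * q0 * (Q - 1 - ls / tm) + θ * lam * ∑ X, l X := by
      have e1 : Q - 1 - ls / tm = ∑ X, l X / t X := by
        rw [hQ]
        ring
      rw [e1, Finset.mul_sum, Finset.mul_sum, ← Finset.sum_add_distrib]
      refine Finset.sum_congr rfl fun X _ => ?_
      ring
    have htz : ∀ X, t X * ((1 - θ) * (q0 / t X) + θ * lam) = (1 - θ) * q0 + θ * lam * t X := by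
      intro X
      have := (ht0 X).ne'
      field_simp
    have hzs' : ls * ((1 - θ) * (q0 / tm) + θ * lam) =
        (1 - θ) * q0 * (ls / tm) + θ * lam * ls := by ring
    have hY := htz Y
    have hW := htz W
    have hΦe : -(θ * lam) + ∑ X, l X * LPLaw_h lam A ((1 - θ) * (q0 / t X) + θ * lam) +
        ls * LPLaw_h lam A ((1 - θ) * (q0 / tm) + θ * lam) + l0 * LPLaw_h lam A lam +
        (1 - tb - ∑ X, l X - ls - l0) * lam ^ 2 = 0 := hθ
    have hlY := hlin lam hlam0.le hlA hlB Y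
    have hlW := hlin lam hlam0.le hlA hlB W
    rw [hsum, hlz]
    beta_reduce
    generalize ∑ X, l X * LPLaw_h lam A ((1 - θ) * (q0 / t X) + θ * lam) = E at hΦe ⊢
    generalize LPLaw_h lam A ((1 - θ) * (q0 / tm) + θ * lam) = Hs at hΦe ⊢
    generalize LPLaw_h lam A lam = H0 at hΦe ⊢
    generalize (1 - θ) * (q0 / t Y) + θ * lam = zY at hY ⊢
    generalize (1 - θ) * (q0 / t W) + θ * lam = zW at hW ⊢
    generalize (1 - θ) * (q0 / tm) + θ * lam = zs at hzs' ⊢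
    generalize ls / tm = r at hzs' ⊢
    generalize ∑ X, l X = L at *
    obtain ⟨a, ha⟩ : ∃ a, a = t Y - tb := ⟨_, rfl⟩
    obtain ⟨b, hb⟩ : ∃ b, b = t W - tb := ⟨_, rfl⟩
    have hYa : t Y = tb + a := by rw [ha]; ring
    have hWb : t W = tb + b := by rw [hb]; ring
    rw [← ha] at hlY
    rw [← hb] at hlW
    rw [← ha, ← hb]
    rw [hYa] at hY ⊢
    rw [hWb] at hW ⊢
    have e1 : (tb + a) * (1 - zY * b) / 2 + (tb + b) * (1 - zW * a) / 2 +
        (L - (a + b) / 2 * ((1 - θ) * q0 * (Q - 1 - r) + θ * lam * L) - lam * (a + b) / 2 * L +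
          a * b * E) +
        ls * ((SS zs lam Hs a b + SS zs lam Hs b a) / 2) + l0 * SS lam lam H0 a b =
        1 - (1 - tb - L - ls - l0) * ((1 - lam * a) * (1 - lam * b)) := by
      unfold SS
      linear_combination (-b / 2) * hY + (-a / 2) * hW + (-(a + b) / 2) * hzs' + (a * b) * hΦe +
        (-(a + b) / 2 * (1 - θ)) * hq0Q + (-(a + b) / 2) * hlamE
    rw [e1]
    have e2 : ε * (ε * ε) ≤ (1 - tb - L - ls - l0) * ((1 - lam * a) * (1 - lam * b)) := by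
      refine mul_le_mul (by linarith) ?_ (by positivity) (by linarith)
      exact mul_le_mul hlY.1 hlW.1 hε.le (by linarith [hlY.1])
    have e3 : ε ^ 3 = ε * (ε * ε) := by ring
    rw [e3]
    linarith

theorem lp_law (ε : ℝ) (hε : 0 < ε) (hε1 : ε ≤ 1 / 4) {q : ℕ} (hq : 0 < q) (t : Fin q → ℝ)
    (tm tb : ℝ) (l : Fin q → ℝ) (ls l0 : ℝ) (htb : tb * q = ∑ X, t X) (h0 : 0 ≤ tm)
    (htm : ∀ X, tm ≤ t X) (hl : ∀ X, 0 ≤ l X) (hls : 0 ≤ ls) (hl0 : 0 ≤ l0)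
    (htot : tb + ∑ X, l X + ls + l0 ≤ 1 - ε)
    (hcase : (∀ X, t X ≤ 1 + ε / 8) ∨ (0 < tm ∧ ∀ X, t X ≤ 2 * tm)) :
    ∃ (lam ζs ηs η0 : ℝ) (ζ η : Fin q → ℝ),
      (∀ X, t X = tm → ζ X = ζs) ∧
      (∀ X Y, ε ≤ 1 - ζ X * (t Y - tb) ∧ 1 - ζ X * (t Y - tb) ≤ 2 - ε) ∧
      (∀ Y, ε ≤ 1 - ζs * (t Y - tb) ∧ 1 - ζs * (t Y - tb) ≤ 2 - ε) ∧
      (∀ Y, ε ≤ 1 - lam * (t Y - tb) ∧ 1 - lam * (t Y - tb) ≤ 2 - ε) ∧
      (∀ X Y W, 0 ≤ SS (ζ X) lam (η X) (t Y - tb) (t W - tb) ∧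
        SS (ζ X) lam (η X) (t Y - tb) (t W - tb) ≤ 4 / ε) ∧
      (∀ Y W, 0 ≤ SS ζs lam ηs (t Y - tb) (t W - tb) ∧
        SS ζs lam ηs (t Y - tb) (t W - tb) ≤ 4 / ε) ∧
      (∀ Y W, 0 ≤ SS lam lam η0 (t Y - tb) (t W - tb) ∧
        SS lam lam η0 (t Y - tb) (t W - tb) ≤ 4 / ε) ∧
      ∀ Y W, t Y * (1 - ζ Y * (t W - tb)) / 2 + t W * (1 - ζ W * (t Y - tb)) / 2 +
          ∑ X, l X * ((SS (ζ X) lam (η X) (t Y - tb) (t W - tb) +
            SS (ζ X) lam (η X) (t W - tb) (t Y - tb)) / 2) +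
          ls * ((SS ζs lam ηs (t Y - tb) (t W - tb) + SS ζs lam ηs (t W - tb) (t Y - tb)) / 2) +
          l0 * SS lam lam η0 (t Y - tb) (t W - tb) ≤ 1 - ε ^ 3 := by
  have hq0 : (0 : ℝ) < q := by exact_mod_cast hq
  have e1 : tm * q ≤ ∑ X, t X := by
    have := Finset.sum_le_sum (s := Finset.univ) fun X _ => htm X
    rw [Finset.sum_const, Finset.card_univ, Fintype.card_fin, nsmul_eq_mul] at this
    linarith
  have htmb : tm ≤ tb := by
    rw [← htb] at e1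
    exact le_of_mul_le_mul_right e1 hq0
  rcases hcase with hc | ⟨h0', hc⟩
  · exact LPLaw_one ε hε hε1 t tm tb l ls l0 (h0.trans htmb) h0 htm hl hls hl0 htot hc
  · have e2 : ∑ X, t X ≤ 2 * tm * q := by
      have := Finset.sum_le_sum (s := Finset.univ) fun X _ => hc X
      rw [Finset.sum_const, Finset.card_univ, Fintype.card_fin, nsmul_eq_mul] at this
      linarith
    have htb2 : tb ≤ 2 * tm := by
      rw [← htb] at e2
      exact le_of_mul_le_mul_right e2 hq0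
    exact LPLaw_two ε hε hε1 t tm tb l ls l0 htmb htb2 htm hl hls hl0 htot h0' hc

end MP_80c395_TP
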