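import Pool.Agent.Lib.MP_80c395_co_TQ.Par
import Pool.Agent.Lib.MP_80c395_co_TQ.LPLaw

/-!
# Project TQ: the numbers from the linear program

Apply `lp_law` (LPLaw.lean) with `ε = e`.  `a_Y = t Y - tb`, `∑ Y, a_Y = 0` (`htb`).  Put
`al X Y = 1 - ζ X a_Y`, `am Y = 1 - ζs a_Y`, `a0 Y = 1 - lam a_Y`, `SX X V W = SS (ζ X) lam (η X) a_V a_W`,
`Sm V W = SS ζs lam ηs a_V a_W`, `S0 V W = SS lam lam η0 a_V a_W`, `B = 4 / e^3`.  Row and column sums are
linear in `∑ a = 0`.  `SX ≤ 4 / e ≤ e B` (`e ≤ 1`).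
`pf X Y = 1 - (∑ j, s X j) al X Y / 2 - (∑ j, s Y j) al Y X / 2 ≥ 1 - t X al X Y / 2 - t Y al Y X / 2 ≥ e^3`
by the last claim of `lp_law` (all other terms there are `≥ 0`).
The mass inequality is the last claim of `lp_law` minus `(∑ j, s V j) al V W / 2 + (∑ j, s W j) al W V / 2`.
`Vd`: `pS X S Y = (∑ j ∈ S, s X j) al X Y / 2 ≤ (1 + e/8) (2 - e) / 2 ≤ 1 - e/4 ≤ 1 - e^3/4`.
-/

set_option autoImplicit false

namespace MP_80c395_TP

open Finset

theorem mk_par (e : ℝ) (he : 0 < e) (he1 : e ≤ 1 / 4) {q R : ℕ} (hq : 0 < q)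
    (s : Fin q → Fin R → ℝ) (hs : ∀ X j, 0 ≤ s X j) (t : Fin q → ℝ) (tm tb : ℝ) (l : Fin q → ℝ)
    (ls l0 : ℝ) (htb : tb * q = ∑ X, t X) (h0 : 0 ≤ tm) (htm : ∀ X, tm ≤ t X)
    (hl : ∀ X, 0 ≤ l X) (hls : 0 ≤ ls) (hl0 : 0 ≤ l0) (htot : tb + ∑ X, l X + ls + l0 ≤ 1 - e)
    (hcase : (∀ X, t X ≤ 1 + e / 8) ∨ (0 < tm ∧ ∀ X, t X ≤ 2 * tm))
    (hlev : ∀ X, ∑ j, s X j ≤ t X) :
    ∃ P : Par q R, ParOK P e (4 / e ^ 3) ∧ P.s = s ∧
      (∀ X Y, t X = tm → P.al X Y = P.am Y) ∧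
      (∀ V W, (t V - ∑ j, s V j) / 2 * P.al V W + (t W - ∑ j, s W j) / 2 * P.al W V +
        ∑ X, l X * ((P.SX X V W + P.SX X W V) / 2) + ls * ((P.Sm V W + P.Sm W V) / 2) +
        l0 * P.S0 V W ≤ P.pf V W - e ^ 3) ∧
      ∀ X (S : Finset (Fin R)), ∑ j ∈ S, s X j ≤ 1 + e / 8 → P.Vd (4 / e ^ 3) X S := by
  obtain ⟨lam, ζs, ηs, η0, ζ, η, c1, c2, c3, c4, c5, c6, c7, c8⟩ :=
    lp_law e he he1 hq t tm tb l ls l0 htb h0 htm hl hls hl0 htot hcase
  have hsum0 : ∑ Y, (t Y - tb) = 0 := by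
    rw [sum_sub_distrib, sum_const, card_univ, Fintype.card_fin, nsmul_eq_mul, ← htb]
    ring
  have hlin : ∀ z : ℝ, ∑ Y, (1 - z * (t Y - tb)) = q := by
    intro z
    rw [sum_sub_distrib, sum_const, card_univ, Fintype.card_fin, nsmul_eq_mul, ← mul_sum, hsum0]
    ring
  have hrow : ∀ z h' a : ℝ, ∑ W, SS z lam h' a (t W - tb) = q * (1 - z * a) := by
    intro z h' a
    have e1 : ∀ W, SS z lam h' a (t W - tb) = (1 - z * a) + (h' * a - lam) * (t W - tb) := by
      intro W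
      unfold SS
      ring
    rw [sum_congr rfl fun W _ => e1 W, sum_add_distrib, sum_const, card_univ, Fintype.card_fin,
      nsmul_eq_mul, ← mul_sum, hsum0]
    ring
  have hcol : ∀ z h' b : ℝ, ∑ V, SS z lam h' (t V - tb) b = q * (1 - lam * b) := by
    intro z h' b
    have e1 : ∀ V, SS z lam h' (t V - tb) b = (1 - lam * b) + (h' * b - z) * (t V - tb) := by
      intro V
      unfold SS
      ring
    rw [sum_congr rfl fun W _ => e1 W, sum_add_distrib, sum_const, card_univ, Fintype.card_fin,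
      nsmul_eq_mul, ← mul_sum, hsum0]
    ring
  have he3 : 0 < e ^ 3 := by positivity
  have hB1 : 4 / e ≤ 4 / e ^ 3 := by
    refine div_le_div_of_nonneg_left (by norm_num) he3 ?_
    nlinarith [mul_pos he he]
  have hB2 : 4 / e ≤ e * (4 / e ^ 3) := by
    have e1 : e * (4 / e ^ 3) = 4 / e ^ 2 := by field_simp
    rw [e1]
    refine div_le_div_of_nonneg_left (by norm_num) (by positivity) ?_
    nlinarith
  have hB3 : 1 / (4 / e ^ 3) = e ^ 3 / 4 := by rw [one_div_div]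
  obtain ⟨P, hP⟩ : ∃ P : Par q R, P = ⟨s, fun X Y => 1 - ζ X * (t Y - tb),
    fun Y => 1 - ζs * (t Y - tb), fun Y => 1 - lam * (t Y - tb),
    fun X V W => SS (ζ X) lam (η X) (t V - tb) (t W - tb),
    fun V W => SS ζs lam ηs (t V - tb) (t W - tb),
    fun V W => SS lam lam η0 (t V - tb) (t W - tb)⟩ := ⟨_, rfl⟩
  have p1 : P.s = s := by rw [hP]
  have p2 : ∀ X Y, P.al X Y = 1 - ζ X * (t Y - tb) := by intro X Y; rw [hP]
  have p3 : ∀ Y, P.am Y = 1 - ζs * (t Y - tb) := by intro Y; rw [hP]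
  have p4 : ∀ Y, P.a0 Y = 1 - lam * (t Y - tb) := by intro Y; rw [hP]
  have p5 : ∀ X V W, P.SX X V W = SS (ζ X) lam (η X) (t V - tb) (t W - tb) := by
    intro X V W; rw [hP]
  have p6 : ∀ V W, P.Sm V W = SS ζs lam ηs (t V - tb) (t W - tb) := by intro V W; rw [hP]
  have p7 : ∀ V W, P.S0 V W = SS lam lam η0 (t V - tb) (t W - tb) := by intro V W; rw [hP]
  have hpS : ∀ X (S : Finset (Fin R)) Y,
      ∑ j ∈ S, P.p X j Y = (∑ j ∈ S, s X j) * P.al X Y / 2 := by
    intro X S Y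
    unfold Par.p
    rw [p1, ← sum_div, ← sum_mul]
  have hpf : ∀ V W, P.pf V W = 1 - (∑ j, s V j) * P.al V W / 2 - (∑ j, s W j) * P.al W V / 2 := by
    intro V W
    unfold Par.pf
    rw [hpS, hpS]
  have hmass : ∀ V W, (t V - ∑ j, s V j) / 2 * P.al V W + (t W - ∑ j, s W j) / 2 * P.al W V +
        ∑ X, l X * ((P.SX X V W + P.SX X W V) / 2) + ls * ((P.Sm V W + P.Sm W V) / 2) +
        l0 * P.S0 V W ≤ P.pf V W - e ^ 3 := by
    intro V W
    have e1 := c8 V W
    rw [hpf]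
    simp only [p2, p5, p6, p7]
    linarith
  have hal0 : ∀ X Y, 0 ≤ P.al X Y := by
    intro X Y
    rw [p2]
    exact he.le.trans (c2 X Y).1
  have hpf0 : ∀ V W, e ^ 3 ≤ P.pf V W := by
    intro V W
    have e1 := hmass V W
    have e2 : 0 ≤ (t V - ∑ j, s V j) / 2 * P.al V W :=
      mul_nonneg (by linarith [hlev V]) (hal0 V W)
    have e3 : 0 ≤ (t W - ∑ j, s W j) / 2 * P.al W V :=
      mul_nonneg (by linarith [hlev W]) (hal0 W V)
    have e4 : 0 ≤ ∑ X, l X * ((P.SX X V W + P.SX X W V) / 2) := by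
      refine sum_nonneg fun X _ => mul_nonneg (hl X) ?_
      rw [p5, p5]
      linarith [(c5 X V W).1, (c5 X W V).1]
    have e5 : 0 ≤ ls * ((P.Sm V W + P.Sm W V) / 2) := by
      refine mul_nonneg hls ?_
      rw [p6, p6]
      linarith [(c6 V W).1, (c6 W V).1]
    have e6 : 0 ≤ l0 * P.S0 V W := by
      refine mul_nonneg hl0 ?_
      rw [p7]
      exact (c7 V W).1
    linarith
  refine ⟨P, ?_, p1, ?_, hmass, ?_⟩
  · refine
      { q0 := hq
        ε0 := he
        ε1 := by linarith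
        Bε := hB1
        s0 := fun X j => by rw [p1]; exact hs X j
        al_lo := fun X Y => by rw [p2]; exact (c2 X Y).1
        al_hi := fun X Y => by rw [p2]; exact (c2 X Y).2
        am_lo := fun Y => by rw [p3]; exact (c3 Y).1
        am_hi := fun Y => by rw [p3]; exact (c3 Y).2
        a0_lo := fun Y => by rw [p4]; exact (c4 Y).1
        a0_hi := fun Y => by rw [p4]; exact (c4 Y).2
        SX0 := fun X V W => by rw [p5]; exact (c5 X V W).1
        SXB := fun X V W => by rw [p5]; exact (c5 X V W).2.trans hB2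
        Sm0 := fun V W => by rw [p6]; exact (c6 V W).1
        SmB := fun V W => by rw [p6]; exact (c6 V W).2.trans hB2
        S00 := fun V W => by rw [p7]; exact (c7 V W).1
        S0B := fun V W => by rw [p7]; exact (c7 V W).2.trans hB2
        sal := fun X => by simp only [p2]; exact hlin _
        sam := by simp only [p3]; exact hlin _
        sa0 := by simp only [p4]; exact hlin _
        SXr := fun X V => by simp only [p5, p2]; exact hrow _ _ _
        SXc := fun X W => by simp only [p5, p4]; exact hcol _ _ _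
        Smr := fun V => by simp only [p6, p3]; exact hrow _ _ _
        Smc := fun W => by simp only [p6, p4]; exact hcol _ _ _
        S0r := fun V => by simp only [p7, p4]; exact hrow _ _ _
        S0s := fun V W => by
          rw [p7, p7]
          unfold SS
          ring
        pf0 := fun X Y => by
          rw [hB3]
          have := hpf0 X Y
          linarith }
  · intro X Y hX
    rw [p2, p3, c1 X hX]
  · intro X S hS Y
    have e1 : P.pS X S Y = (∑ j ∈ S, s X j) * P.al X Y / 2 := hpS X S Y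
    rw [e1, hB3]
    have e2 : P.al X Y ≤ 2 - e := by rw [p2]; exact (c2 X Y).2
    have e3 : (∑ j ∈ S, s X j) * P.al X Y ≤ (1 + e / 8) * (2 - e) :=
      mul_le_mul hS e2 (hal0 X Y) (by linarith)
    have e4 : e ^ 3 ≤ e := by nlinarith [mul_pos he he]
    nlinarith

end MP_80c395_TP
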