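import Pool.Agent.Lib.MP_80c395_co_TQ.Place2
import Pool.Agent.Lib.MP_80c395_co_TP.S1Plc

/-!
# Project TQ: placement of the medium centres

Like `ex_phi` (Pool/Agent/Lib/MP_80c395_co_TP/S1Plc.lean), with `place2` (Place2.lean) instead of `place`.
`H = Fin q × G`, `M = q * card G`.  Items: `Σ i : Fin k, {z // z ∈ (d i).Z \ J i}`, `tr a = a.1`, rank and
parent from `ex_par` (the parent counts only if it is in `Z \ J`), `fx a = some (φ0 i y)` if `y ∈ J i` is a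
neighbour of `z` (at most one, `Jc`), otherwise `none`; `own0 s = some i` if `s = s(φ0 i x, φ0 i y)` for adjacent
`x, y ∈ J i` (at most one `i` by `Jd`); `Al a` = the hosts outside of the cluster `X i` (`M - card G` many).
Kinds of loads `Fin 4 ⊕ Fin q ⊕ Fin k`:
* `inl 0`: `w = ac`, `cap v = (b v.1 + κ) M`, `mx = γh M`, `tot = card G * ∑ U, b U * M` (`htot`),
  `B = ⌊(1 - κ/4) M⌋`: `∑ v ∈ A, (b v.1 + κ/2) M ≤ ∑ v, b v.1 M` gives `(κ/2) |A| ≤ ∑ v ∉ A, b v.1 ≤ M - |A|`,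
  `|A| ≤ M / (1 + κ/2) ≤ (1 - κ/4) M`;
* `inl 1`: `w = nb C1 z`, `cap = l1 M`, `mx = M / K`, `tot = 5 D M^2 / K`, `B = ⌊10 D M / (K l1)⌋`;
* `inl 2`: `w = nb C2 z`, `cap = l2 M`, `mx = 2 M / D`, `tot = 10 D₁ M^2 / D`, `B = ⌊20 D₁ M / (D l2)⌋`;
* `inl 3` (`zz`): `w = nb Z z + 2`, `cap = lz M`, `mx = 3 M / D₁`, `tot = 40 M^2 / D₁`, `B = ⌊80 M / (D₁ lz)⌋`,
  `cz = ⌈lz M⌉`;
* `inr (inl x)`: `w = ac` if `X (tr a) = x`, else `0`; `cap = δ₅ M`, `mx = γh M ≤ δ₅ M / 2`, `tot = Λ M`,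
  `B = ⌊2 Λ / δ₅⌋`;
* `inr (inr i)`: `w = ac` if `tr a = i`, else `0`; bins `bn v = (v.1, g0)` (`g0 : G` fixed), `cap = δ₅ M`,
  `mx = γh M`, `tot = M` (`∑ z, ac z ≤ mm i ≤ M`), `B = ⌊2 / δ₅⌋ * card G` (`card G` hosts in every bin).
Bins are the hosts for all other kinds.  For an item `a` only `inl _`, `inr (inl (X (tr a)))`,
`inr (inr (tr a))` can have `w ≠ 0`.
`Zm = ⌊2 M / D₁⌋`, `e0 = f0 = ⌊κ₆ M⌋`: the number of `v` with `own0 s(v, y) ≠ none` is at most the number of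
neighbours in `J` of slots at `y`, the number of items with `fx = some y` at most the number of
neighbours in `Z` of slots at `y` (`Jz`).
The last condition: `2 M / D₁ + 2 (2 κ₆ M + lz M + 1) + (1 - κ/4) M + 10 D M / (K l1) + 20 D₁ M / (D l2) +
80 M / (D₁ lz) + (2 Λ + 2 card G) / δ₅ < M - card G`: `hnum` (`≤ κ M / 8`), `hN` (`≤ κ M / 16`).
`φ i z = φ0 i z` for `z ∈ J i`, `ψ (i, z)` for `z ∈ Z \ J` (anything else for the others).
`inj`: slots are in the cluster `X i`, the other centres are not.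
`dst`: a pair of adjacent centres is a pair of slots, or it is an item and one of its anchors
(`y ∈ J`: `fx`; both in `Z \ J`: one is the parent of the other).
-/

set_option autoImplicit false

namespace MP_80c395_TP

open Finset

private theorem all6 {q k : ℕ} {P : Fin 4 ⊕ (Fin q ⊕ Fin k) → Prop} (h0 : P (Sum.inl 0))
    (h1 : P (Sum.inl 1)) (h2 : P (Sum.inl 2)) (h3 : P (Sum.inl 3))
    (hx : ∀ x, P (Sum.inr (Sum.inl x))) (hi : ∀ i, P (Sum.inr (Sum.inr i))) : ∀ l, P l := by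
  rintro (l | x | i)
  · fin_cases l
    · exact h0
    · exact h1
    · exact h2
    · exact h3
  · exact hx x
  · exact hi i

private theorem sum_kinds {q k : ℕ} (w : Fin 4 ⊕ (Fin q ⊕ Fin k) → ℝ)
    (B : Fin 4 ⊕ (Fin q ⊕ Fin k) → ℕ) (x0 : Fin q) (i0 : Fin k)
    (hx : ∀ x, x ≠ x0 → w (Sum.inr (Sum.inl x)) = 0)
    (hi : ∀ i, i ≠ i0 → w (Sum.inr (Sum.inr i)) = 0) [DecidablePred fun l => w l ≠ 0] :
    ∑ l ∈ univ.filter (fun l => w l ≠ 0), B l ≤ B (Sum.inl 0) + B (Sum.inl 1) +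
      B (Sum.inl 2) + B (Sum.inl 3) + B (Sum.inr (Sum.inl x0)) + B (Sum.inr (Sum.inr i0)) := by
  have hle : ∀ l, (if w l ≠ 0 then B l else 0) ≤ B l := by
    intro l
    split_ifs
    · exact le_rfl
    · exact Nat.zero_le _
  rw [Finset.sum_filter, Fintype.sum_sum_type, Fintype.sum_sum_type, Fin.sum_univ_four,
    Finset.sum_eq_single x0, Finset.sum_eq_single i0]
  · have h0 := hle (Sum.inl 0)
    have h1 := hle (Sum.inl 1)
    have h2 := hle (Sum.inl 2)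
    have h3 := hle (Sum.inl 3)
    have h4 := hle (Sum.inr (Sum.inl x0))
    have h5 := hle (Sum.inr (Sum.inr i0))
    omega
  · intro i _ h
    exact if_neg (not_not.2 (hi i h))
  · intro h
    exact absurd (Finset.mem_univ _) h
  · intro x _ h
    exact if_neg (not_not.2 (hx x h))
  · intro h
    exact absurd (Finset.mem_univ _) h

private theorem Al_card {q : ℕ} {G : Type} [Fintype G] [DecidableEq G] (x : Fin q) :
    ((univ.filter (fun v : Fin q × G => v.1 ≠ x)).card : ℝ) =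
      q * Fintype.card G - Fintype.card G := by
  have h1 : univ.filter (fun v : Fin q × G => v.1 = x) = {x} ×ˢ univ := by
    ext ⟨a, b⟩
    simp
    exact eq_comm
  have h2 := Finset.card_filter_add_card_filter_not (s := univ)
    (fun v : Fin q × G => v.1 = x)
  rw [h1, Finset.card_product, Finset.card_singleton, one_mul, Finset.card_univ,
    Finset.card_univ, Fintype.card_prod, Fintype.card_fin] at h2
  have h3 : (Fintype.card G : ℝ) + ((univ.filter (fun v : Fin q × G => ¬ v.1 = x)).card : ℝ) =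
      q * Fintype.card G := by exact_mod_cast h2
  have h4 : univ.filter (fun v : Fin q × G => v.1 ≠ x) =
      univ.filter (fun v : Fin q × G => ¬ v.1 = x) := rfl
  rw [h4]
  linarith

private theorem B0_aux {V : Type} [Fintype V] [DecidableEq V] {A : Finset V} {β : V → ℝ}
    {M κ γh : ℝ} (b1 : ∀ v, β v ≤ 1) (hM : (Fintype.card V : ℝ) = M)
    (hM0 : 0 < M) (hκ : 0 < κ) (hκ1 : κ ≤ 1) (hγκ : 2 * γh ≤ κ)
    (h : ∑ v ∈ A, ((β v + κ) * M - γh * M) ≤ ∑ v, β v * M) :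
    A.card ≤ ⌊(1 - κ / 4) * M⌋₊ := by
  apply Nat.le_floor
  have h1 : ∑ v ∈ A, (β v + κ / 2) * M ≤ ∑ v, β v * M := by
    refine (Finset.sum_le_sum fun v _ => ?_).trans h
    nlinarith
  have h2 : ∑ v ∈ A, (β v + κ / 2) ≤ ∑ v, β v := by
    rw [← Finset.sum_mul, ← Finset.sum_mul] at h1
    exact le_of_mul_le_mul_right h1 hM0
  have h3 : ∑ v, β v = ∑ v ∈ A, β v + ∑ v ∈ Aᶜ, β v := (Finset.sum_add_sum_compl A β).symm
  have h4 : ∑ v ∈ Aᶜ, β v ≤ (Aᶜ.card : ℝ) := by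
    refine (Finset.sum_le_sum fun v _ => b1 v).trans (le_of_eq ?_)
    rw [Finset.sum_const, nsmul_eq_mul, mul_one]
  have h5 : (Aᶜ.card : ℝ) = M - A.card := by
    rw [Finset.card_compl, Nat.cast_sub (Finset.card_le_univ A), hM]
  rw [Finset.sum_add_distrib, Finset.sum_const, nsmul_eq_mul] at h2
  have h6 : (A.card : ℝ) * (1 + κ / 2) ≤ M := by linarith
  have h7 : (0 : ℝ) ≤ (A.card : ℝ) := Nat.cast_nonneg _
  have h8 : 0 ≤ (A.card : ℝ) * (κ * (2 - κ)) :=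
    mul_nonneg h7 (mul_nonneg hκ.le (by linarith))
  have h9 : 0 ≤ (1 - κ / 4) * (M - (A.card : ℝ) * (1 + κ / 2)) :=
    mul_nonneg (by linarith) (by linarith)
  nlinarith

private theorem sum_b {q : ℕ} {G : Type} [Fintype G] (b : Fin q → ℝ) (M : ℝ) :
    ∑ v : Fin q × G, b v.1 * M = Fintype.card G * ∑ U, b U * M := by
  rw [Fintype.sum_prod_type, Finset.mul_sum]
  refine Finset.sum_congr rfl fun U _ => ?_
  change ∑ _y : G, b U * M = _
  rw [Finset.sum_const, Finset.card_univ, nsmul_eq_mul]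

/-- every piece is attached to at most one centre -/
private theorem sum_ac {m : ℕ} {T : SimpleGraph (Fin m)} {d : Dec m} {D₁ D K : ℕ}
    (hd : DecOK T d D₁ D K) (Z : Finset (Fin m)) : ∑ z ∈ Z, ac d z ≤ m := by
  classical
  have h1 : ∑ z ∈ Z, ac d z ≤ d.np := by
    unfold ac
    have h2 : ∀ z ∈ Z, ∀ z' ∈ Z, z ≠ z' → Disjoint (univ.filter (fun t => d.att t = some z))
        (univ.filter (fun t => d.att t = some z')) := by
      intro z _ z' _ hz
      rw [Finset.disjoint_left]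
      intro t ht ht'
      have h3 := (Finset.mem_filter.1 ht).2
      have h4 := (Finset.mem_filter.1 ht').2
      rw [h3] at h4
      exact hz (Option.some.inj h4)
    rw [← Finset.card_biUnion h2]
    refine (Finset.card_le_univ _).trans ?_
    rw [Fintype.card_fin]
  refine h1.trans ?_
  have h5 : Function.Injective (fun t : Fin d.np => d.sg t (d.rt t)) := fun t t' h =>
    (hd.inj _ _ _ _ h).1
  have h6 := Fintype.card_le_of_injective _ h5
  rwa [Fintype.card_fin, Fintype.card_fin] at h6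

private theorem hB_aux2 {V : Type} {A : Finset V} {c mx tot b : ℝ} (hx : 0 < c - mx)
    (hb : tot ≤ b * (c - mx)) (h : ∑ _v ∈ A, (c - mx) ≤ tot) : A.card ≤ ⌊b⌋₊ := by
  rw [Finset.sum_const, nsmul_eq_mul] at h
  exact Nat.le_floor (le_of_mul_le_mul_right (h.trans hb) hx)

section items2

variable {k : ℕ} {mm : Fin k → ℕ}

/-- the items: the centres which are not in `J` -/
private abbrev It2 (d : ∀ i, Dec (mm i)) (J : ∀ i, Finset (Fin (mm i))) : Type :=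
  Σ i : Fin k, {z : Fin (mm i) // z ∈ (d i).Z \ J i}

variable {d : ∀ i, Dec (mm i)} {J : ∀ i, Finset (Fin (mm i))}

private theorem sum_It2 (f : ∀ i, Fin (mm i) → ℝ) :
    ∑ a : It2 d J, f a.1 a.2.1 = ∑ i, ∑ z ∈ (d i).Z \ J i, f i z := by
  rw [Fintype.sum_sigma]
  exact Finset.sum_congr rfl fun i _ => Finset.sum_coe_sort ((d i).Z \ J i) (f i)

private theorem load_It2 {P : ∀ i, Fin (mm i) → Prop} {Q : It2 d J → Prop}
    [∀ i, DecidablePred (P i)] [DecidablePred Q] (hPQ : ∀ a : It2 d J, P a.1 a.2.1 ↔ Q a)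
    (f : ∀ i, Fin (mm i) → ℝ) :
    ∑ i, ∑ z ∈ ((d i).Z \ J i).filter (fun z => P i z), f i z =
      ∑ a ∈ univ.filter (fun a : It2 d J => Q a), f a.1 a.2.1 := by
  rw [Finset.sum_filter, Fintype.sum_sigma]
  refine Finset.sum_congr rfl fun i _ => ?_
  rw [Finset.sum_filter, ← Finset.sum_coe_sort]
  refine Finset.sum_congr rfl fun z _ => ?_
  have h := hPQ ⟨i, z⟩
  by_cases hz : P i z.1
  · rw [if_pos hz, if_pos (h.1 hz)]
  · rw [if_neg hz, if_neg fun hq => hz (h.2 hq)]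

private theorem card_im (T : ∀ i, SimpleGraph (Fin (mm i))) (i : Fin k) (z : Fin (mm i)) :
    (open Classical in ((((d i).Z \ J i).attach.filter (fun x => (T i).Adj z x.1)).image
      (fun x => (⟨i, x⟩ : It2 d J))).card) ≤ nb (T i) (d i).Z z := by
  classical
  refine Finset.card_image_le.trans ?_
  unfold nb
  refine Finset.card_le_card_of_injOn (fun y => y.1) ?_ ?_
  · intro y hy
    have h1 := (Finset.mem_filter.1 (Finset.mem_coe.1 hy)).2
    exact Finset.mem_coe.2 (Finset.mem_filter.2 ⟨(Finset.mem_sdiff.1 y.2).1, h1⟩)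
  · intro y _ y' _ h
    exact Subtype.ext h

/-- ownership of the pairs of slots -/
private theorem ex_own {H : Type} (T : ∀ i, SimpleGraph (Fin (mm i)))
    (φ0 : ∀ i, Fin (mm i) → H)
    (Jd : ∀ i i', i ≠ i' → ∀ z1 ∈ J i, ∀ z2 ∈ J i, ∀ z3 ∈ J i', ∀ z4 ∈ J i', z1 ≠ z2 → z3 ≠ z4 →
      s(φ0 i z1, φ0 i z2) ≠ s(φ0 i' z3, φ0 i' z4)) :
    ∃ own0 : Sym2 H → Option ℕ, (∀ i, ∀ x ∈ J i, ∀ y ∈ J i, (T i).Adj x y →
      own0 s(φ0 i x, φ0 i y) = some i.val) ∧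
      ∀ s, own0 s ≠ none → ∃ i, ∃ x ∈ J i, ∃ y ∈ J i, (T i).Adj x y ∧
        s = s(φ0 i x, φ0 i y) := by
  classical
  refine ⟨fun s => if h : ∃ i : Fin k, ∃ x ∈ J i, ∃ y ∈ J i, (T i).Adj x y ∧
    s = s(φ0 i x, φ0 i y) then some (h.choose).val else none, ?_, ?_⟩
  · intro i x hx y hy hxy
    have h : ∃ i' : Fin k, ∃ x' ∈ J i', ∃ y' ∈ J i', (T i').Adj x' y' ∧
      s(φ0 i x, φ0 i y) = s(φ0 i' x', φ0 i' y') := ⟨i, x, hx, y, hy, hxy, rfl⟩
    have e : h.choose = i := by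
      obtain ⟨x', hx', y', hy', hxy', he⟩ := h.choose_spec
      by_contra hne
      exact Jd _ _ hne x' hx' y' hy' x hx y hy hxy'.ne hxy.ne he.symm
    beta_reduce
    rw [dif_pos h, e]
  · intro s hs
    by_contra hc
    exact hs (dif_neg hc)

/-- the slot next to an item -/
private theorem ex_fx {H : Type} (T : ∀ i, SimpleGraph (Fin (mm i)))
    (φ0 : ∀ i, Fin (mm i) → H)
    (Jc : ∀ i, ∀ x ∈ (d i).Z, x ∉ J i → nb (T i) (J i) x ≤ 1) :
    ∃ fx : It2 d J → Option H, (∀ i x (hx : x ∈ (d i).Z \ J i), ∀ y ∈ J i, (T i).Adj x y →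
      fx ⟨i, ⟨x, hx⟩⟩ = some (φ0 i y)) ∧
      ∀ a y, fx a = some y → ∃ z ∈ J a.1, (T a.1).Adj a.2.1 z ∧ φ0 a.1 z = y := by
  classical
  refine ⟨fun a => if h : ∃ z ∈ J a.1, (T a.1).Adj a.2.1 z then some (φ0 a.1 h.choose)
    else none, ?_, ?_⟩
  · intro i x hx y hy hxy
    have h : ∃ z ∈ J i, (T i).Adj x z := ⟨y, hy, hxy⟩
    have e : h.choose = y := by
      have h1 := Jc i x (Finset.mem_sdiff.1 hx).1 (Finset.mem_sdiff.1 hx).2
      unfold nb at h1
      rw [Finset.card_le_one] at h1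
      exact h1 _ (Finset.mem_filter.2 h.choose_spec) _ (Finset.mem_filter.2 ⟨hy, hxy⟩)
    beta_reduce
    rw [dif_pos h, e]
  · intro a y hay
    beta_reduce at hay
    by_cases h : ∃ z ∈ J a.1, (T a.1).Adj a.2.1 z
    · rw [dif_pos h] at hay
      exact ⟨h.choose, h.choose_spec.1, h.choose_spec.2, Option.some.inj hay⟩
    · rw [dif_neg h] at hay
      exact absurd hay (by simp)

end items2

open Classical in
theorem ex_phi2 {q : ℕ} {G : Type} [Fintype G] [DecidableEq G] [Nonempty G] (k : ℕ)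
    (mm : Fin k → ℕ) (T : ∀ i, SimpleGraph (Fin (mm i))) (d : ∀ i, Dec (mm i))
    (J : ∀ i, Finset (Fin (mm i))) (X : Fin k → Fin q) (φ0 : ∀ i, Fin (mm i) → Fin q × G)
    (b : Fin q → ℝ) (D₁ D K Λ : ℕ) (M κ δ₅ γh κ₆ l1 l2 lz : ℝ)
    (hM : M = q * Fintype.card G)
    (tree : ∀ i, (T i).IsTree) (dec : ∀ i, DecOK (T i) (d i) D₁ D K)
    (JZ : ∀ i, J i ⊆ (d i).Z)
    (Jc : ∀ i, ∀ x ∈ (d i).Z, x ∉ J i → nb (T i) (J i) x ≤ 1)
    (JX : ∀ i, ∀ z ∈ J i, (φ0 i z).1 = X i)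
    (Ji : ∀ i, ∀ z ∈ J i, ∀ z' ∈ J i, φ0 i z = φ0 i z' → z = z')
    (Jd : ∀ i i', i ≠ i' → ∀ z1 ∈ J i, ∀ z2 ∈ J i, ∀ z3 ∈ J i', ∀ z4 ∈ J i', z1 ≠ z2 → z3 ≠ z4 →
      s(φ0 i z1, φ0 i z2) ≠ s(φ0 i' z3, φ0 i' z4))
    (Jz : ∀ u, ∑ i, ∑ z ∈ (J i).filter (fun z => φ0 i z = u), (nb (T i) (d i).Z z : ℝ) ≤ κ₆ * M)
    (k_le : (k : ℝ) ≤ 5 * M) (m_le : ∀ i, (mm i : ℝ) ≤ M)
    (acm : ∀ i, ∀ z ∈ (d i).Z \ J i, (ac (d i) z : ℝ) ≤ γh * M)
    (Xc : ∀ x, (univ.filter (fun i => X i = x)).card ≤ Λ)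
    (b0 : ∀ U, 0 ≤ b U) (b1 : ∀ U, b U ≤ 1)
    (htot : ∑ i, ∑ z ∈ (d i).Z \ J i, (ac (d i) z : ℝ) ≤ Fintype.card G * ∑ U, b U * M)
    (hD₁ : 1 ≤ D₁) (hD : 1 ≤ D) (hK : 1 ≤ K) (hκ : 0 < κ) (hκ1 : κ ≤ 1) (hδ : 0 < δ₅)
    (hγh : 0 ≤ γh) (hγδ : 2 * γh ≤ δ₅) (hγκ : 2 * γh ≤ κ) (hκ₆ : 0 ≤ κ₆)
    (hl1 : 2 / (K : ℝ) ≤ l1) (hl2 : 4 / (D : ℝ) ≤ l2) (hlz : 6 / (D₁ : ℝ) ≤ lz)
    (hnum : 2 / (D₁ : ℝ) + 4 * κ₆ + 2 * lz + 10 * D / (K * l1) + 20 * D₁ / (D * l2) +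
      80 / (D₁ * lz) ≤ κ / 8)
    (hN : (2 * Λ + 2 * Fintype.card G) / δ₅ + Fintype.card G + 20 ≤ κ / 16 * M)
    (hN1 : 2 * D₁ ≤ M) :
    ∃ φ : ∀ i, Fin (mm i) → Fin q × G,
      (∀ i, ∀ z ∈ J i, φ i z = φ0 i z) ∧
      (∀ i, ∀ x ∈ (d i).Z, ∀ y ∈ (d i).Z, φ i x = φ i y → x = y) ∧
      (∀ i, ∀ z ∈ (d i).Z \ J i, (φ i z).1 ≠ X i) ∧
      (∀ i j, i ≠ j → ∀ a ∈ (d i).Z, ∀ b ∈ (d i).Z, ∀ c ∈ (d j).Z, ∀ e ∈ (d j).Z,
        (T i).Adj a b → (T j).Adj c e → s(φ i a, φ i b) ≠ s(φ j c, φ j e)) ∧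
      (∀ u, ∑ i, ∑ z ∈ ((d i).Z \ J i).filter (fun z => φ i z = u), (ac (d i) z : ℝ) ≤
        (b u.1 + κ) * M) ∧
      (∀ i U, ∑ z ∈ ((d i).Z \ J i).filter (fun z => (φ i z).1 = U), (ac (d i) z : ℝ) ≤
        δ₅ * M) ∧
      (∀ u x, ∑ i ∈ univ.filter (fun i => X i = x),
        ∑ z ∈ ((d i).Z \ J i).filter (fun z => φ i z = u), (ac (d i) z : ℝ) ≤ δ₅ * M) ∧
      (∀ u, ∑ i, ∑ z ∈ ((d i).Z \ J i).filter (fun z => φ i z = u),
        (nb (T i) (d i).C1 z : ℝ) ≤ l1 * M) ∧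
      (∀ u, ∑ i, ∑ z ∈ ((d i).Z \ J i).filter (fun z => φ i z = u),
        (nb (T i) (d i).C2 z : ℝ) ≤ l2 * M) ∧
      (∀ u, ∑ i, ∑ z ∈ ((d i).Z \ J i).filter (fun z => φ i z = u),
        (nb (T i) (d i).Z z : ℝ) ≤ lz * M) := by
  classical
  have hD₁r : (0 : ℝ) < D₁ := by exact_mod_cast hD₁
  have hDr : (0 : ℝ) < D := by exact_mod_cast hD
  have hKr : (0 : ℝ) < K := by exact_mod_cast hK
  have hM0 : 0 < M := by linarith
  have hGr : (0 : ℝ) ≤ Fintype.card G := Nat.cast_nonneg _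
  have hΛr : (0 : ℝ) ≤ Λ := Nat.cast_nonneg _
  obtain ⟨g0⟩ : Nonempty G := inferInstance
  have hcardH : (Fintype.card (Fin q × G) : ℝ) = M := by
    rw [Fintype.card_prod, Fintype.card_fin, hM]
    push_cast
    rfl
  have hl10 : 0 < l1 := lt_of_lt_of_le (by positivity) hl1
  have hl20 : 0 < l2 := lt_of_lt_of_le (by positivity) hl2
  have hlz0 : 0 < lz := lt_of_lt_of_le (by positivity) hlz
  have hl1M : 0 < l1 * M := by positivity
  have hl2M : 0 < l2 * M := by positivity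
  have hlzM : 0 < lz * M := by positivity
  have hδM : 0 < δ₅ * M := by positivity
  have hγM : 0 ≤ γh * M := by positivity
  -- sizes
  have hZc : ∀ i, ((d i).Z.card : ℝ) ≤ 2 * M / D₁ := by
    intro i
    rw [le_div_iff₀ hD₁r]
    have h1 : (D₁ : ℝ) * (d i).Z.card ≤ 2 * mm i := by exact_mod_cast (dec i).cZ
    have h2 := m_le i
    linarith
  have hC1c : ∀ i, ((d i).C1.card : ℝ) ≤ M / K := by
    intro i
    rw [le_div_iff₀ hKr]
    have h1 : (K : ℝ) * (d i).C1.card ≤ mm i := by exact_mod_cast (dec i).c1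
    have h2 := m_le i
    linarith
  have hC2c : ∀ i, ((d i).C2.card : ℝ) ≤ 2 * M / D := by
    intro i
    rw [le_div_iff₀ hDr]
    have h1 : (D : ℝ) * (d i).C2.card ≤ 2 * mm i := by exact_mod_cast (dec i).c2
    have h2 := m_le i
    linarith
  have hnb : ∀ i (C : Finset (Fin (mm i))) z, (nb (T i) C z : ℝ) ≤ C.card := by
    intro i C z
    unfold nb
    exact_mod_cast Finset.card_filter_le _ _
  -- total loads
  have htot0 : ∑ a : It2 d J, (ac (d a.1) a.2.1 : ℝ) ≤ Fintype.card G * ∑ U, b U * M := by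
    rw [sum_It2 (d := d) (J := J) fun i z => (ac (d i) z : ℝ)]
    exact htot
  have htot1 : ∑ a : It2 d J, (nb (T a.1) (d a.1).C1 a.2.1 : ℝ) ≤ 5 * D * M ^ 2 / K := by
    rw [sum_It2 (d := d) (J := J) fun i z => (nb (T i) (d i).C1 z : ℝ)]
    have h1 : ∀ i, ∑ z ∈ (d i).Z \ J i, (nb (T i) (d i).C1 z : ℝ) ≤ M / K * D := by
      intro i
      have h2 : ∑ z ∈ (d i).Z \ J i, (nb (T i) (d i).C1 z : ℝ) ≤ (d i).C1.card * D := by
        exact_mod_cast sum_nb_le (T i) ((d i).Z \ J i) (d i).C1 D (dec i).deg1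
      exact h2.trans (mul_le_mul_of_nonneg_right (hC1c i) hDr.le)
    refine (Finset.sum_le_sum fun i _ => h1 i).trans ?_
    rw [Finset.sum_const, Finset.card_univ, Fintype.card_fin, nsmul_eq_mul]
    have h3 : (0 : ℝ) ≤ M / K * D := by positivity
    refine (mul_le_mul_of_nonneg_right k_le h3).trans (le_of_eq ?_)
    ring
  have htot2 : ∑ a : It2 d J, (nb (T a.1) (d a.1).C2 a.2.1 : ℝ) ≤ 10 * D₁ * M ^ 2 / D := by
    rw [sum_It2 (d := d) (J := J) fun i z => (nb (T i) (d i).C2 z : ℝ)]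
    have h1 : ∀ i, ∑ z ∈ (d i).Z \ J i, (nb (T i) (d i).C2 z : ℝ) ≤ 2 * M / D * D₁ := by
      intro i
      have h2 : ∑ z ∈ (d i).Z \ J i, (nb (T i) (d i).C2 z : ℝ) ≤ (d i).C2.card * D₁ := by
        exact_mod_cast sum_nb_le (T i) ((d i).Z \ J i) (d i).C2 D₁ (dec i).deg2
      exact h2.trans (mul_le_mul_of_nonneg_right (hC2c i) hD₁r.le)
    refine (Finset.sum_le_sum fun i _ => h1 i).trans ?_
    rw [Finset.sum_const, Finset.card_univ, Fintype.card_fin, nsmul_eq_mul]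
    have h3 : (0 : ℝ) ≤ 2 * M / D * D₁ := by positivity
    refine (mul_le_mul_of_nonneg_right k_le h3).trans (le_of_eq ?_)
    ring
  have htot3 : ∑ a : It2 d J, ((nb (T a.1) (d a.1).Z a.2.1 : ℝ) + 2) ≤ 40 * M ^ 2 / D₁ := by
    rw [sum_It2 (d := d) (J := J) fun i z => (nb (T i) (d i).Z z : ℝ) + 2]
    have h1 : ∀ i, ∑ z ∈ (d i).Z \ J i, ((nb (T i) (d i).Z z : ℝ) + 2) ≤
        4 * (2 * M / D₁) := by
      intro i
      have h0 : ∑ z ∈ (d i).Z \ J i, ((nb (T i) (d i).Z z : ℝ) + 2) ≤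
          ∑ z ∈ (d i).Z, ((nb (T i) (d i).Z z : ℝ) + 2) :=
        Finset.sum_le_sum_of_subset_of_nonneg Finset.sdiff_subset
          (fun z _ _ => by positivity)
      refine h0.trans ?_
      rw [Finset.sum_add_distrib, Finset.sum_const, nsmul_eq_mul]
      have h2 : ∑ z ∈ (d i).Z, (nb (T i) (d i).Z z : ℝ) ≤ 2 * (d i).Z.card := by
        exact_mod_cast sum_nb_Z (tree i) (d i).Z
      have h3 := hZc i
      linarith
    refine (Finset.sum_le_sum fun i _ => h1 i).trans ?_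
    rw [Finset.sum_const, Finset.card_univ, Fintype.card_fin, nsmul_eq_mul]
    have h3 : (0 : ℝ) ≤ 4 * (2 * M / D₁) := by positivity
    refine (mul_le_mul_of_nonneg_right k_le h3).trans (le_of_eq ?_)
    ring
  have hacM : ∀ i, ∑ z ∈ (d i).Z \ J i, (ac (d i) z : ℝ) ≤ M := by
    intro i
    have h1 : ∑ z ∈ (d i).Z \ J i, (ac (d i) z : ℝ) ≤ mm i := by
      exact_mod_cast sum_ac (dec i) ((d i).Z \ J i)
    exact h1.trans (m_le i)
  have htotx : ∀ x, ∑ a : It2 d J, (if X a.1 = x then (ac (d a.1) a.2.1 : ℝ) else 0) ≤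
      Λ * M := by
    intro x
    rw [sum_It2 (d := d) (J := J) fun i z => if X i = x then (ac (d i) z : ℝ) else 0]
    have h1 : ∀ i, ∑ z ∈ (d i).Z \ J i, (if X i = x then (ac (d i) z : ℝ) else 0) ≤
        if X i = x then M else 0 := by
      intro i
      by_cases h : X i = x
      · simp only [if_pos h]
        exact hacM i
      · simp only [if_neg h, Finset.sum_const_zero]
        exact le_rfl
    refine (Finset.sum_le_sum fun i _ => h1 i).trans ?_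
    rw [← Finset.sum_filter, Finset.sum_const, nsmul_eq_mul]
    have h2 : ((univ.filter (fun i => X i = x)).card : ℝ) ≤ Λ := by exact_mod_cast Xc x
    exact mul_le_mul_of_nonneg_right h2 hM0.le
  have htoti : ∀ i, ∑ a : It2 d J, (if a.1 = i then (ac (d a.1) a.2.1 : ℝ) else 0) ≤ M := by
    intro i
    rw [sum_It2 (d := d) (J := J) fun i' z => if i' = i then (ac (d i') z : ℝ) else 0]
    have h1 : ∀ i', ∑ z ∈ (d i').Z \ J i', (if i' = i then (ac (d i') z : ℝ) else 0) ≤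
        if i' = i then M else 0 := by
      intro i'
      by_cases h : i' = i
      · simp only [if_pos h]
        exact hacM i'
      · simp only [if_neg h, Finset.sum_const_zero]
        exact le_rfl
    refine (Finset.sum_le_sum fun i _ => h1 i).trans ?_
    rw [Finset.sum_ite_eq' univ i (fun _ => M), if_pos (Finset.mem_univ _)]
  -- parents
  choose rk par hpar1 hpar2 using fun i => ex_par (tree i)
  let pa : It2 d J → Option (It2 d J) := fun a => (par a.1 a.2.1).bind fun y =>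
    if h : y ∈ (d a.1).Z \ J a.1 then some ⟨a.1, ⟨y, h⟩⟩ else none
  have hpa : ∀ (i : Fin k) (x y : Fin (mm i)) (hx : x ∈ (d i).Z \ J i)
      (hy : y ∈ (d i).Z \ J i), par i x = some y →
      pa ⟨i, ⟨x, hx⟩⟩ = some ⟨i, ⟨y, hy⟩⟩ := by
    intro i x y hx hy h
    show (par i x).bind _ = _
    rw [h, Option.bind_some]
    exact dif_pos hy
  have hpa' : ∀ a b : It2 d J, pa a = some b → ∃ (y : Fin (mm a.1))
      (hy : y ∈ (d a.1).Z \ J a.1), par a.1 a.2.1 = some y ∧ b = ⟨a.1, ⟨y, hy⟩⟩ := by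
    intro a b h
    obtain ⟨y, hy, hb⟩ := Option.bind_eq_some_iff.1 h
    by_cases h1 : y ∈ (d a.1).Z \ J a.1
    · rw [dif_pos h1] at hb
      exact ⟨y, h1, hy, (Option.some.inj hb).symm⟩
    · rw [dif_neg h1] at hb
      exact absurd hb (by simp)
  obtain ⟨own0, O1, O2⟩ := ex_own (J := J) T φ0 Jd
  obtain ⟨fx, F1, F2⟩ := ex_fx (d := d) (J := J) T φ0 Jc
  -- the kinds of loads
  obtain ⟨w, w0, w1, w2, w3, wx, wi⟩ : ∃ w : Fin 4 ⊕ (Fin q ⊕ Fin k) → It2 d J → ℝ,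
      (∀ a, w (Sum.inl 0) a = (ac (d a.1) a.2.1 : ℝ)) ∧
      (∀ a, w (Sum.inl 1) a = (nb (T a.1) (d a.1).C1 a.2.1 : ℝ)) ∧
      (∀ a, w (Sum.inl 2) a = (nb (T a.1) (d a.1).C2 a.2.1 : ℝ)) ∧
      (∀ a, w (Sum.inl 3) a = (nb (T a.1) (d a.1).Z a.2.1 : ℝ) + 2) ∧
      (∀ x a, w (Sum.inr (Sum.inl x)) a =
        if X a.1 = x then (ac (d a.1) a.2.1 : ℝ) else 0) ∧
      (∀ i a, w (Sum.inr (Sum.inr i)) a =
        if a.1 = i then (ac (d a.1) a.2.1 : ℝ) else 0) :=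
    ⟨Sum.elim (![fun a => (ac (d a.1) a.2.1 : ℝ),
      fun a => (nb (T a.1) (d a.1).C1 a.2.1 : ℝ),
      fun a => (nb (T a.1) (d a.1).C2 a.2.1 : ℝ),
      fun a => (nb (T a.1) (d a.1).Z a.2.1 : ℝ) + 2])
      (Sum.elim (fun x a => if X a.1 = x then (ac (d a.1) a.2.1 : ℝ) else 0)
        (fun i a => if a.1 = i then (ac (d a.1) a.2.1 : ℝ) else 0)),
      fun _ => rfl, fun _ => rfl, fun _ => rfl, fun _ => rfl, fun _ _ => rfl,
      fun _ _ => rfl⟩
  obtain ⟨bn, n0, nx, ni⟩ : ∃ bn : Fin 4 ⊕ (Fin q ⊕ Fin k) → Fin q × G → Fin q × G,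
      (∀ l v, bn (Sum.inl l) v = v) ∧ (∀ x v, bn (Sum.inr (Sum.inl x)) v = v) ∧
      (∀ i v, bn (Sum.inr (Sum.inr i)) v = (v.1, g0)) :=
    ⟨Sum.elim (fun _ v => v) (Sum.elim (fun _ v => v) (fun _ v => (v.1, g0))),
      fun _ _ => rfl, fun _ _ => rfl, fun _ _ => rfl⟩
  obtain ⟨cap, c0, c1, c2, c3, cx, ci⟩ : ∃ cap : Fin 4 ⊕ (Fin q ⊕ Fin k) → Fin q × G → ℝ,
      (∀ v, cap (Sum.inl 0) v = (b v.1 + κ) * M) ∧ (∀ v, cap (Sum.inl 1) v = l1 * M) ∧
      (∀ v, cap (Sum.inl 2) v = l2 * M) ∧ (∀ v, cap (Sum.inl 3) v = lz * M) ∧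
      (∀ x v, cap (Sum.inr (Sum.inl x)) v = δ₅ * M) ∧
      (∀ i v, cap (Sum.inr (Sum.inr i)) v = δ₅ * M) :=
    ⟨Sum.elim (![fun v => (b v.1 + κ) * M, fun _ => l1 * M, fun _ => l2 * M,
      fun _ => lz * M]) (Sum.elim (fun _ _ => δ₅ * M) (fun _ _ => δ₅ * M)),
      fun _ => rfl, fun _ => rfl, fun _ => rfl, fun _ => rfl, fun _ _ => rfl,
      fun _ _ => rfl⟩
  obtain ⟨mx, m0, m1, m2, m3, mx', mi'⟩ : ∃ mx : Fin 4 ⊕ (Fin q ⊕ Fin k) → ℝ,
      mx (Sum.inl 0) = γh * M ∧ mx (Sum.inl 1) = M / K ∧ mx (Sum.inl 2) = 2 * M / D ∧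
      mx (Sum.inl 3) = 3 * M / D₁ ∧ (∀ x, mx (Sum.inr (Sum.inl x)) = γh * M) ∧
      (∀ i, mx (Sum.inr (Sum.inr i)) = γh * M) :=
    ⟨Sum.elim (![γh * M, M / K, 2 * M / D, 3 * M / D₁])
      (Sum.elim (fun _ => γh * M) (fun _ => γh * M)),
      rfl, rfl, rfl, rfl, fun _ => rfl, fun _ => rfl⟩
  obtain ⟨tot, t0, t1, t2, t3, tx, ti⟩ : ∃ tot : Fin 4 ⊕ (Fin q ⊕ Fin k) → ℝ,
      tot (Sum.inl 0) = Fintype.card G * ∑ U, b U * M ∧
      tot (Sum.inl 1) = 5 * D * M ^ 2 / K ∧ tot (Sum.inl 2) = 10 * D₁ * M ^ 2 / D ∧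
      tot (Sum.inl 3) = 40 * M ^ 2 / D₁ ∧ (∀ x, tot (Sum.inr (Sum.inl x)) = Λ * M) ∧
      (∀ i, tot (Sum.inr (Sum.inr i)) = M) :=
    ⟨Sum.elim (![Fintype.card G * ∑ U, b U * M, 5 * D * M ^ 2 / K, 10 * D₁ * M ^ 2 / D,
      40 * M ^ 2 / D₁]) (Sum.elim (fun _ => Λ * M) (fun _ => M)),
      rfl, rfl, rfl, rfl, fun _ => rfl, fun _ => rfl⟩
  obtain ⟨B, B0, B1, B2, B3, Bx, Bi⟩ : ∃ B : Fin 4 ⊕ (Fin q ⊕ Fin k) → ℕ,
      B (Sum.inl 0) = ⌊(1 - κ / 4) * M⌋₊ ∧ B (Sum.inl 1) = ⌊10 * D * M / (K * l1)⌋₊ ∧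
      B (Sum.inl 2) = ⌊20 * D₁ * M / (D * l2)⌋₊ ∧ B (Sum.inl 3) = ⌊80 * M / (D₁ * lz)⌋₊ ∧
      (∀ x, B (Sum.inr (Sum.inl x)) = ⌊2 * Λ / δ₅⌋₊) ∧
      (∀ i, B (Sum.inr (Sum.inr i)) = ⌊2 / δ₅⌋₊ * Fintype.card G) :=
    ⟨Sum.elim (![⌊(1 - κ / 4) * M⌋₊, ⌊10 * D * M / (K * l1)⌋₊,
      ⌊20 * D₁ * M / (D * l2)⌋₊, ⌊80 * M / (D₁ * lz)⌋₊])
      (Sum.elim (fun _ => ⌊2 * Λ / δ₅⌋₊) (fun _ => ⌊2 / δ₅⌋₊ * Fintype.card G)),
      rfl, rfl, rfl, rfl, fun _ => rfl, fun _ => rfl⟩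
  have hw0 : ∀ l a, 0 ≤ w l a := by
    refine all6 ?_ ?_ ?_ ?_ ?_ ?_
    · intro a
      rw [w0]
      positivity
    · intro a
      rw [w1]
      positivity
    · intro a
      rw [w2]
      positivity
    · intro a
      rw [w3]
      positivity
    · intro x a
      rw [wx]
      split_ifs
      · positivity
      · exact le_rfl
    · intro i a
      rw [wi]
      split_ifs
      · positivity
      · exact le_rfl
  have hmx : ∀ l a, w l a ≤ mx l := by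
    refine all6 ?_ ?_ ?_ ?_ ?_ ?_
    · intro a
      rw [w0, m0]
      exact acm a.1 a.2.1 a.2.2
    · intro a
      rw [w1, m1]
      exact (hnb _ _ _).trans (hC1c a.1)
    · intro a
      rw [w2, m2]
      exact (hnb _ _ _).trans (hC2c a.1)
    · intro a
      rw [w3, m3]
      have h1 := (hnb a.1 (d a.1).Z a.2.1).trans (hZc a.1)
      have h2 : 2 ≤ M / D₁ := by
        rw [le_div_iff₀ hD₁r]
        linarith
      have h3 : 3 * M / D₁ = 2 * M / D₁ + M / D₁ := by ring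
      linarith
    · intro x a
      rw [wx, mx']
      split_ifs
      · exact acm a.1 a.2.1 a.2.2
      · exact hγM
    · intro i a
      rw [wi, mi']
      split_ifs
      · exact acm a.1 a.2.1 a.2.2
      · exact hγM
  have htotw : ∀ l, ∑ a, w l a ≤ tot l := by
    refine all6 ?_ ?_ ?_ ?_ ?_ ?_
    · rw [t0]
      simp only [w0]
      exact htot0
    · rw [t1]
      simp only [w1]
      exact htot1
    · rw [t2]
      simp only [w2]
      exact htot2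
    · rw [t3]
      simp only [w3]
      exact htot3
    · intro x
      rw [tx]
      simp only [wx]
      exact htotx x
    · intro i
      rw [ti]
      simp only [wi]
      exact htoti i
  have hcap : ∀ l v, 0 ≤ cap l v := by
    refine all6 ?_ ?_ ?_ ?_ ?_ ?_
    · intro v
      rw [c0]
      exact mul_nonneg (by linarith [b0 v.1]) hM0.le
    · intro v
      rw [c1]
      exact hl1M.le
    · intro v
      rw [c2]
      exact hl2M.le
    · intro v
      rw [c3]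
      exact hlzM.le
    · intro x v
      rw [cx]
      exact hδM.le
    · intro i v
      rw [ci]
      exact hδM.le
  have hfil : ∀ A : Finset (Fin q × G), univ.filter (fun x => x ∈ A) = A := by
    intro A
    ext x
    simp
  have hB1 : l1 * M / 2 ≤ l1 * M - M / K := by
    have h1 : 1 / (K : ℝ) ≤ l1 / 2 := by
      have : 2 / (K : ℝ) = 2 * (1 / K) := by ring
      linarith
    have h2 := mul_le_mul_of_nonneg_right h1 hM0.le
    have h3 : 1 / (K : ℝ) * M = M / K := by ring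
    linarith
  have hB1' : 5 * D * M ^ 2 / K ≤ 10 * D * M / (K * l1) * (l1 * M - M / K) := by
    have h1 : 5 * D * M ^ 2 / K = 10 * D * M / (K * l1) * (l1 * M / 2) := by
      field_simp
      ring
    rw [h1]
    exact mul_le_mul_of_nonneg_left hB1 (by positivity)
  have hB2 : l2 * M / 2 ≤ l2 * M - 2 * M / D := by
    have h1 : 2 / (D : ℝ) ≤ l2 / 2 := by
      have : 4 / (D : ℝ) = 2 * (2 / D) := by ring
      linarith
    have h2 := mul_le_mul_of_nonneg_right h1 hM0.le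
    have h3 : 2 / (D : ℝ) * M = 2 * M / D := by ring
    linarith
  have hB2' : 10 * D₁ * M ^ 2 / D ≤ 20 * D₁ * M / (D * l2) * (l2 * M - 2 * M / D) := by
    have h1 : 10 * D₁ * M ^ 2 / D = 20 * D₁ * M / (D * l2) * (l2 * M / 2) := by
      field_simp
      ring
    rw [h1]
    exact mul_le_mul_of_nonneg_left hB2 (by positivity)
  have hB3 : lz * M / 2 ≤ lz * M - 3 * M / D₁ := by
    have h1 : 3 / (D₁ : ℝ) ≤ lz / 2 := by
      have : 6 / (D₁ : ℝ) = 2 * (3 / D₁) := by ring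
      linarith
    have h2 := mul_le_mul_of_nonneg_right h1 hM0.le
    have h3 : 3 / (D₁ : ℝ) * M = 3 * M / D₁ := by ring
    linarith
  have hB3' : 40 * M ^ 2 / D₁ ≤ 80 * M / (D₁ * lz) * (lz * M - 3 * M / D₁) := by
    have h1 : 40 * M ^ 2 / D₁ = 80 * M / (D₁ * lz) * (lz * M / 2) := by
      field_simp
      ring
    rw [h1]
    exact mul_le_mul_of_nonneg_left hB3 (by positivity)
  have hB5 : δ₅ * M / 2 ≤ δ₅ * M - γh * M := by nlinarith
  have hB5x : Λ * M ≤ 2 * Λ / δ₅ * (δ₅ * M - γh * M) := by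
    have h1 : Λ * M = 2 * Λ / δ₅ * (δ₅ * M / 2) := by
      field_simp
    rw [h1]
    exact mul_le_mul_of_nonneg_left hB5 (by positivity)
  have hB5i : M ≤ 2 / δ₅ * (δ₅ * M - γh * M) := by
    have h1 : M = 2 / δ₅ * (δ₅ * M / 2) := by
      field_simp
    calc M = 2 / δ₅ * (δ₅ * M / 2) := h1
      _ ≤ _ := mul_le_mul_of_nonneg_left hB5 (by positivity)
  have hBw : ∀ l (A : Finset (Fin q × G)), ∑ v ∈ A, (cap l v - mx l) ≤ tot l →
      (univ.filter (fun x => bn l x ∈ A)).card ≤ B l := by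
    refine all6 ?_ ?_ ?_ ?_ ?_ ?_
    · intro A h
      simp only [n0, hfil, B0]
      simp only [c0, m0, t0] at h
      rw [← sum_b (G := G) b M] at h
      exact B0_aux (fun v => b1 v.1) hcardH hM0 hκ hκ1 hγκ h
    · intro A h
      simp only [n0, hfil, B1]
      simp only [c1, m1, t1] at h
      exact hB_aux2 (lt_of_lt_of_le (by linarith) hB1) hB1' h
    · intro A h
      simp only [n0, hfil, B2]
      simp only [c2, m2, t2] at h
      exact hB_aux2 (lt_of_lt_of_le (by linarith) hB2) hB2' h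
    · intro A h
      simp only [n0, hfil, B3]
      simp only [c3, m3, t3] at h
      exact hB_aux2 (lt_of_lt_of_le (by linarith) hB3) hB3' h
    · intro x A h
      simp only [nx, hfil, Bx]
      simp only [cx, mx', tx] at h
      exact hB_aux2 (lt_of_lt_of_le (by linarith) hB5) hB5x h
    · intro i A h
      simp only [ni, Bi]
      simp only [ci, mi', ti] at h
      have h1 : A.card ≤ ⌊2 / δ₅⌋₊ := hB_aux2 (lt_of_lt_of_le (by linarith) hB5) hB5i h
      have h2 : univ.filter (fun x : Fin q × G => (x.1, g0) ∈ A) ⊆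
          (A.image Prod.fst) ×ˢ (univ : Finset G) := by
        intro x hx
        exact Finset.mem_product.2 ⟨Finset.mem_image.2 ⟨_, (Finset.mem_filter.1 hx).2, rfl⟩,
          Finset.mem_univ _⟩
      refine (Finset.card_le_card h2).trans ?_
      rw [Finset.card_product, Finset.card_univ]
      exact Nat.mul_le_mul_right _ (Finset.card_image_le.trans h1)
  have hS : ∀ y, ∑ i, ∑ z ∈ (J i).filter (fun z => φ0 i z = y), nb (T i) (d i).Z z ≤
      ⌊κ₆ * M⌋₊ := by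
    intro y
    apply Nat.le_floor
    have h := Jz y
    push_cast
    exact h
  have hZm : ∀ i, (univ.filter (fun a : It2 d J => a.1.val = i)).card ≤ ⌊2 * M / D₁⌋₊ := by
    intro i
    by_cases hi : i < k
    · have h1 : (univ.filter (fun a : It2 d J => a.1.val = i)).card ≤
          (d ⟨i, hi⟩).Z.card := by
        have hsub : univ.filter (fun a : It2 d J => a.1.val = i) ⊆
            ((d ⟨i, hi⟩).Z \ J ⟨i, hi⟩).attach.image
              fun z => (⟨⟨i, hi⟩, z⟩ : It2 d J) := by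
          rintro ⟨j, z⟩ ha
          have h2 : j.val = i := (Finset.mem_filter.1 ha).2
          subst h2
          exact Finset.mem_image.2 ⟨z, Finset.mem_attach _ _, rfl⟩
        exact (Finset.card_le_card hsub).trans
          (Finset.card_image_le.trans (by
            rw [Finset.card_attach]
            exact Finset.card_le_card Finset.sdiff_subset))
      exact h1.trans (Nat.le_floor (hZc ⟨i, hi⟩))
    · have h1 : univ.filter (fun a : It2 d J => a.1.val = i) = ∅ := by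
        refine Finset.filter_eq_empty_iff.2 fun a _ h2 => ?_
        have := a.1.2
        omega
      rw [h1, Finset.card_empty]
      exact Nat.zero_le _
  have hzz : ∀ a, ((univ.filter (fun b => pa b = some a)).card : ℝ) + 2 ≤
      w (Sum.inl 3) a := by
    intro a
    rw [w3]
    have h1 : (univ.filter (fun b => pa b = some a)).card ≤
        nb (T a.1) (d a.1).Z a.2.1 := by
      obtain ⟨i, z⟩ := a
      refine (Finset.card_le_card (t := (((d i).Z \ J i).attach.filter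
        fun x => (T i).Adj z.1 x.1).image fun x => (⟨i, x⟩ : It2 d J)) ?_).trans
          (card_im T i z.1)
      intro b hb
      obtain ⟨y, hy, h2, h3⟩ := hpa' b _ (Finset.mem_filter.1 hb).2
      obtain ⟨j, x⟩ := b
      obtain rfl : i = j := congrArg Sigma.fst h3
      have h4 : z = ⟨y, hy⟩ := eq_of_heq (Sigma.mk.inj h3).2
      refine Finset.mem_image.2 ⟨x, Finset.mem_filter.2 ⟨Finset.mem_attach _ _, ?_⟩, rfl⟩
      rw [h4]
      exact (hpar1 i _ _ h2).1.symm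
    have h2 : ((univ.filter (fun b => pa b = some a)).card : ℝ) ≤
        nb (T a.1) (d a.1).Z a.2.1 := by exact_mod_cast h1
    linarith
  have he0 : ∀ y, (univ.filter (fun v => own0 s(v, y) ≠ none)).card ≤ ⌊κ₆ * M⌋₊ := by
    intro y
    refine (Finset.card_le_card (t := univ.biUnion fun i =>
      ((J i).filter (fun z => φ0 i z = y)).biUnion fun z =>
        ((d i).Z.filter (fun x => (T i).Adj z x)).image (φ0 i)) ?_).trans
        (le_trans ?_ (hS y))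
    · intro v hv
      obtain ⟨i, x, hx, x', hx', hadj, he⟩ := O2 _ (Finset.mem_filter.1 hv).2
      rw [Sym2.eq_iff] at he
      rcases he with ⟨h1, h2⟩ | ⟨h1, h2⟩
      · exact Finset.mem_biUnion.2 ⟨i, Finset.mem_univ _, Finset.mem_biUnion.2
          ⟨x', Finset.mem_filter.2 ⟨hx', h2.symm⟩, Finset.mem_image.2
            ⟨x, Finset.mem_filter.2 ⟨JZ i hx, hadj.symm⟩, h1.symm⟩⟩⟩
      · exact Finset.mem_biUnion.2 ⟨i, Finset.mem_univ _, Finset.mem_biUnion.2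
          ⟨x, Finset.mem_filter.2 ⟨hx, h2.symm⟩, Finset.mem_image.2
            ⟨x', Finset.mem_filter.2 ⟨JZ i hx', hadj⟩, h1.symm⟩⟩⟩
    · refine Finset.card_biUnion_le.trans (Finset.sum_le_sum fun i _ =>
        Finset.card_biUnion_le.trans (Finset.sum_le_sum fun z _ => ?_))
      unfold nb
      exact Finset.card_image_le
  have hf0 : ∀ y, (univ.filter (fun b => fx b = some y)).card ≤ ⌊κ₆ * M⌋₊ := by
    intro y
    refine (Finset.card_le_card (t := univ.biUnion fun i =>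
      ((J i).filter (fun z => φ0 i z = y)).biUnion fun z =>
        (((d i).Z \ J i).attach.filter (fun x => (T i).Adj z x.1)).image
          fun x => (⟨i, x⟩ : It2 d J)) ?_).trans (le_trans ?_ (hS y))
    · rintro ⟨i, x⟩ hb
      obtain ⟨z, hz, hadj, he⟩ := F2 _ _ (Finset.mem_filter.1 hb).2
      exact Finset.mem_biUnion.2 ⟨i, Finset.mem_univ _, Finset.mem_biUnion.2
        ⟨z, Finset.mem_filter.2 ⟨hz, he⟩, Finset.mem_image.2
          ⟨x, Finset.mem_filter.2 ⟨Finset.mem_attach _ _, hadj.symm⟩, rfl⟩⟩⟩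
    · exact Finset.card_biUnion_le.trans (Finset.sum_le_sum fun i _ =>
        Finset.card_biUnion_le.trans (Finset.sum_le_sum fun z _ => card_im T i z))
  have hAl : ∀ a : It2 d J, ⌊2 * M / D₁⌋₊ + 2 * (⌊κ₆ * M⌋₊ + ⌈lz * M⌉₊ + ⌊κ₆ * M⌋₊) +
      ∑ l ∈ univ.filter (fun l => w l a ≠ 0), B l <
      (univ.filter (fun v : Fin q × G => v.1 ≠ X a.1)).card := by
    intro a
    have h0 := sum_kinds (fun l => w l a) B (X a.1) a.1
      (fun x hx => by
        rw [wx, if_neg hx.symm])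
      (fun i hi => by
        rw [wi, if_neg hi.symm])
    rw [B0, B1, B2, B3, Bx, Bi] at h0
    have hc := Al_card (G := G) (X a.1)
    rw [← hM] at hc
    have e1 : ((⌊2 * M / D₁⌋₊ : ℕ) : ℝ) ≤ 2 * M / D₁ := Nat.floor_le (by positivity)
    have e2 : ((⌈lz * M⌉₊ : ℕ) : ℝ) < lz * M + 1 := Nat.ceil_lt_add_one hlzM.le
    have e3 : ((⌊(1 - κ / 4) * M⌋₊ : ℕ) : ℝ) ≤ (1 - κ / 4) * M :=
      Nat.floor_le (mul_nonneg (by linarith) hM0.le)
    have e4 : ((⌊10 * D * M / (K * l1)⌋₊ : ℕ) : ℝ) ≤ 10 * D * M / (K * l1) :=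
      Nat.floor_le (by positivity)
    have e5 : ((⌊20 * D₁ * M / (D * l2)⌋₊ : ℕ) : ℝ) ≤ 20 * D₁ * M / (D * l2) :=
      Nat.floor_le (by positivity)
    have e6 : ((⌊80 * M / (D₁ * lz)⌋₊ : ℕ) : ℝ) ≤ 80 * M / (D₁ * lz) :=
      Nat.floor_le (by positivity)
    have e7 : ((⌊κ₆ * M⌋₊ : ℕ) : ℝ) ≤ κ₆ * M := Nat.floor_le (by positivity)
    have e8 : ((⌊2 * Λ / δ₅⌋₊ : ℕ) : ℝ) ≤ 2 * Λ / δ₅ := Nat.floor_le (by positivity)
    have e9 : ((⌊2 / δ₅⌋₊ : ℕ) : ℝ) * Fintype.card G ≤ 2 / δ₅ * Fintype.card G :=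
      mul_le_mul_of_nonneg_right (Nat.floor_le (by positivity)) hGr
    have e10 : 2 * Λ / δ₅ + 2 / δ₅ * Fintype.card G =
        (2 * Λ + 2 * Fintype.card G) / δ₅ := by ring
    have h1 := mul_le_mul_of_nonneg_right hnum hM0.le
    have h2 : (2 / (D₁ : ℝ) + 4 * κ₆ + 2 * lz + 10 * D / (K * l1) + 20 * D₁ / (D * l2) +
        80 / (D₁ * lz)) * M = 2 * M / D₁ + 4 * (κ₆ * M) + 2 * (lz * M) +
        10 * D * M / (K * l1) + 20 * D₁ * M / (D * l2) + 80 * M / (D₁ * lz) := by ring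
    rw [h2] at h1
    have h3 : ((⌊2 * M / D₁⌋₊ + 2 * (⌊κ₆ * M⌋₊ + ⌈lz * M⌉₊ + ⌊κ₆ * M⌋₊) +
        (⌊(1 - κ / 4) * M⌋₊ + ⌊10 * D * M / (K * l1)⌋₊ + ⌊20 * D₁ * M / (D * l2)⌋₊ +
          ⌊80 * M / (D₁ * lz)⌋₊ + ⌊2 * Λ / δ₅⌋₊ + ⌊2 / δ₅⌋₊ * Fintype.card G) : ℕ) : ℝ) <
        ((univ.filter (fun v : Fin q × G => v.1 ≠ X a.1)).card : ℝ) := by
      rw [hc]
      push_cast
      have h4 : 0 < κ * M := by positivity
      linarith
    refine lt_of_le_of_lt (Nat.add_le_add_left h0 _) ?_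
    exact_mod_cast h3
  -- the placement
  obtain ⟨ψ, q1, q2, q3, q4, q5⟩ := place2 (I := It2 d J) (V := Fin q × G)
    (Λ := Fin 4 ⊕ (Fin q ⊕ Fin k))
    (fun a => a.1.val) (fun a => rk a.1 a.2.1) pa fx own0
    (fun a => univ.filter (fun v : Fin q × G => v.1 ≠ X a.1)) w bn cap mx tot B
    ⌊2 * M / D₁⌋₊ ⌊κ₆ * M⌋₊ ⌊κ₆ * M⌋₊ ⌈lz * M⌉₊ (Sum.inl 3) (n0 3)
    (by
      intro a b h
      obtain ⟨y, hy, h1, rfl⟩ := hpa' a b h
      exact ⟨rfl, (hpar1 a.1 _ _ h1).2⟩)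
    hw0 hmx htotw hcap hBw hZm hzz
    (fun v => by
      rw [c3]
      exact Nat.le_ceil _) he0 hf0 hAl
  -- the conclusion
  let φ : ∀ i, Fin (mm i) → Fin q × G := fun i x =>
    if x ∈ J i then φ0 i x else
      if h : x ∈ (d i).Z \ J i then ψ ⟨i, ⟨x, h⟩⟩ else φ0 i x
  have hφJ : ∀ i x, x ∈ J i → φ i x = φ0 i x := fun i x hx => if_pos hx
  have hφ : ∀ i x (hx : x ∈ (d i).Z \ J i), φ i x = ψ ⟨i, ⟨x, hx⟩⟩ := by
    intro i x hx
    show (if x ∈ J i then φ0 i x else _) = _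
    rw [if_neg (Finset.mem_sdiff.1 hx).2, dif_pos hx]
  have hφ' : ∀ a : It2 d J, φ a.1 a.2.1 = ψ a := fun a => hφ a.1 a.2.1 a.2.2
  have hψX : ∀ a : It2 d J, (ψ a).1 ≠ X a.1 := fun a => (Finset.mem_filter.1 (q1 a)).2
  have hanc : ∀ i, ∀ a ∈ (d i).Z, ∀ b ∈ (d i).Z, (T i).Adj a b →
      own0 s(φ i a, φ i b) = some i.val ∨
      ∃ x : It2 d J, ∃ y : Fin q × G, x.1 = i ∧ Anc pa fx ψ x y ∧
        s(ψ x, y) = s(φ i a, φ i b) := by
    intro i a ha b hb hab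
    by_cases haJ : a ∈ J i
    · by_cases hbJ : b ∈ J i
      · left
        rw [hφJ i a haJ, hφJ i b hbJ]
        exact O1 i a haJ b hbJ hab
      · right
        have hb' : b ∈ (d i).Z \ J i := Finset.mem_sdiff.2 ⟨hb, hbJ⟩
        refine ⟨⟨i, ⟨b, hb'⟩⟩, φ0 i a, rfl, Or.inl (F1 i b hb' a haJ hab.symm), ?_⟩
        rw [hφ i b hb', hφJ i a haJ, Sym2.eq_swap]
    · have ha' : a ∈ (d i).Z \ J i := Finset.mem_sdiff.2 ⟨ha, haJ⟩
      by_cases hbJ : b ∈ J i
      · right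
        refine ⟨⟨i, ⟨a, ha'⟩⟩, φ0 i b, rfl, Or.inl (F1 i a ha' b hbJ hab), ?_⟩
        rw [hφ i a ha', hφJ i b hbJ]
      · right
        have hb' : b ∈ (d i).Z \ J i := Finset.mem_sdiff.2 ⟨hb, hbJ⟩
        rcases hpar2 i a b hab with h | h
        · refine ⟨⟨i, ⟨a, ha'⟩⟩, ψ ⟨i, ⟨b, hb'⟩⟩, rfl,
            Or.inr ⟨_, hpa i a b ha' hb' h, rfl⟩, ?_⟩
          rw [hφ i a ha', hφ i b hb']
        · refine ⟨⟨i, ⟨b, hb'⟩⟩, ψ ⟨i, ⟨a, ha'⟩⟩, rfl,
            Or.inr ⟨_, hpa i b a hb' ha' h, rfl⟩, ?_⟩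
          rw [hφ i a ha', hφ i b hb', Sym2.eq_swap]
  refine ⟨φ, ?_, ?_, ?_, ?_, ?_, ?_, ?_, ?_, ?_, ?_⟩
  · exact fun i z hz => hφJ i z hz
  · intro i x hx y hy hxy
    by_cases hxJ : x ∈ J i
    · by_cases hyJ : y ∈ J i
      · rw [hφJ i x hxJ, hφJ i y hyJ] at hxy
        exact Ji i x hxJ y hyJ hxy
      · have hy' : y ∈ (d i).Z \ J i := Finset.mem_sdiff.2 ⟨hy, hyJ⟩
        rw [hφJ i x hxJ, hφ i y hy'] at hxy
        exact absurd ((congrArg Prod.fst hxy).symm.trans (JX i x hxJ)) (hψX ⟨i, ⟨y, hy'⟩⟩)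
    · have hx' : x ∈ (d i).Z \ J i := Finset.mem_sdiff.2 ⟨hx, hxJ⟩
      by_cases hyJ : y ∈ J i
      · rw [hφJ i y hyJ, hφ i x hx'] at hxy
        exact absurd ((congrArg Prod.fst hxy).trans (JX i y hyJ)) (hψX ⟨i, ⟨x, hx'⟩⟩)
      · have hy' : y ∈ (d i).Z \ J i := Finset.mem_sdiff.2 ⟨hy, hyJ⟩
        by_contra hne'
        rw [hφ i x hx', hφ i y hy'] at hxy
        refine q2 ⟨i, ⟨x, hx'⟩⟩ ⟨i, ⟨y, hy'⟩⟩ ?_ rfl hxy
        intro h
        exact hne' (congrArg Subtype.val (eq_of_heq (Sigma.mk.inj h).2))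
  · intro i z hz
    rw [hφ i z hz]
    exact hψX ⟨i, ⟨z, hz⟩⟩
  · intro i j hij a ha b hb c hc e he hab hce heq
    have hne : i.val ≠ j.val := fun h => hij (Fin.ext h)
    rcases hanc i a ha b hb hab with h1 | ⟨x, y, hx, hxy, h1⟩
    · rcases hanc j c hc e he hce with h2 | ⟨x', y', hx', hxy', h2⟩
      · rw [heq, h2] at h1
        exact hne (Option.some.inj h1).symm
      · have h3 := q4 x' y' hxy' i.val (by rw [h2, ← heq]; exact h1)
        rw [hx'] at h3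
        exact hne h3
    · rcases hanc j c hc e he hce with h2 | ⟨x', y', hx', hxy', h2⟩
      · have h3 := q4 x y hxy j.val (by rw [h1, heq]; exact h2)
        rw [hx] at h3
        exact hne h3.symm
      · have h3 := q5 x x' y y' hxy hxy' (by rw [h1, h2]; exact heq)
        rw [hx, hx'] at h3
        exact hne h3
  · intro u
    have h := q3 (Sum.inl 0) u
    simp only [n0, w0, c0] at h
    refine le_trans (le_of_eq ?_) h
    exact load_It2 (P := fun i z => φ i z = u) (Q := fun a => ψ a = u)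
      (fun a => by rw [hφ' a]) fun i z => (ac (d i) z : ℝ)
  · intro i U
    have h := q3 (Sum.inr (Sum.inr i)) (U, g0)
    simp only [ni, wi, ci] at h
    refine le_trans (le_of_eq ?_) h
    rw [← load_It2 (P := fun i z => (φ i z).1 = U) (Q := fun a => ((ψ a).1, g0) = (U, g0))
      (fun a => by
        rw [hφ' a]
        constructor
        · intro h
          rw [h]
        · intro h
          exact congrArg Prod.fst h) fun i' z => if i' = i then (ac (d i') z : ℝ) else 0]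
    rw [Finset.sum_eq_single i]
    · simp only [if_true]
    · intro j _ hj
      simp only [if_neg hj, Finset.sum_const_zero]
    · intro h
      exact absurd (Finset.mem_univ _) h
  · intro u x
    have h := q3 (Sum.inr (Sum.inl x)) u
    simp only [nx, wx, cx] at h
    refine le_trans (le_of_eq ?_) h
    rw [← load_It2 (P := fun i z => φ i z = u) (Q := fun a => ψ a = u)
      (fun a => by rw [hφ' a]) fun i z => if X i = x then (ac (d i) z : ℝ) else 0]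
    rw [Finset.sum_filter]
    refine Finset.sum_congr rfl fun i _ => ?_
    by_cases hi : X i = x
    · simp only [if_pos hi]
    · simp only [if_neg hi, Finset.sum_const_zero]
  · intro u
    have h := q3 (Sum.inl 1) u
    simp only [n0, w1, c1] at h
    refine le_trans (le_of_eq ?_) h
    exact load_It2 (P := fun i z => φ i z = u) (Q := fun a => ψ a = u)
      (fun a => by rw [hφ' a]) fun i z => (nb (T i) (d i).C1 z : ℝ)
  · intro u
    have h := q3 (Sum.inl 2) u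
    simp only [n0, w2, c2] at h
    refine le_trans (le_of_eq ?_) h
    exact load_It2 (P := fun i z => φ i z = u) (Q := fun a => ψ a = u)
      (fun a => by rw [hφ' a]) fun i z => (nb (T i) (d i).C2 z : ℝ)
  · intro u
    have h := q3 (Sum.inl 3) u
    simp only [n0, w3, c3] at h
    refine le_trans (le_of_eq ?_)
      ((Finset.sum_le_sum fun a _ => le_add_of_nonneg_right (by norm_num)).trans h)
    exact load_It2 (P := fun i z => φ i z = u) (Q := fun a => ψ a = u)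
      (fun a => by rw [hφ' a]) fun i z => (nb (T i) (d i).Z z : ℝ)

end MP_80c395_TP
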