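import Mathlib

/-!
# Project TQ: grouping by type with room for all remainders

For a type `t : τ` let `c t` be the number of the `p` with `ty p = t` and `n t = ⌈c t / m⌉`
(natural numbers, `(c t + m - 1) / m`), so `n t * m ≤ c t + m` and, summed over `t`,
`(∑ t, n t) * m ≤ P + card τ * m ≤ q * m`,
`∑ t, n t ≤ q`.  Hence there is an injection `ι` of the clusters `Σ t, Fin (n t)` into `Fin q`.
For every `t` there is an injection of `{p // ty p = t}` (cardinality `c t ≤ n t * m`) into
`Fin (n t) × G` (`card G = m`); together (with `ι`) they give `e`.  `cty X = t` if `X = ι (t, _)`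
and `t0` for the other `X`.

Third claim: every `(X, x)` not in the image of `e` with `cty X ≠ t0` (so `X = ι (t, _)`) is one of
the `∑ t, (n t * m - c t) ≤ card τ * m` unused places; the clusters not in the image of `ι` have
`cty X = t0`.
Last claim: `X = ι (t, k)`; as `(n t - 1) * m < c t`, no cluster `(t, k)` can be without a `p`.
-/

set_option autoImplicit false

namespace MP_80c395_TP

open Finset

open Classical in
theorem group_cl {τ G : Type} [Fintype τ] [DecidableEq τ] [Fintype G] [DecidableEq G]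
    [Nonempty G] (P q : ℕ) (ty : Fin P → τ) (t0 : τ)
    (hP : P + Fintype.card τ * Fintype.card G ≤ q * Fintype.card G) :
    ∃ (e : Fin P → Fin q × G) (cty : Fin q → τ), Function.Injective e ∧
      (∀ p, cty (e p).1 = ty p) ∧
      (univ.filter (fun x : Fin q × G => (∀ p, e p ≠ x) ∧ cty x.1 ≠ t0)).card ≤
        Fintype.card τ * Fintype.card G ∧
      (∀ X, cty X ≠ t0 → ∃ p, (e p).1 = X) := by
  set m := Fintype.card G with hm
  have hm0 : 0 < m := Fintype.card_pos
  set c : τ → ℕ := fun t => Fintype.card {p // ty p = t} with hc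
  set n : τ → ℕ := fun t => (c t + m - 1) / m with hn
  have hn1 : ∀ t, n t * m + 1 ≤ c t + m := by
    intro t
    have h := Nat.div_mul_le_self (c t + m - 1) m
    change n t * m ≤ _ at h
    omega
  have hn2 : ∀ t, c t ≤ n t * m := by
    intro t
    have h1 := Nat.div_add_mod (c t + m - 1) m
    have h2 := Nat.mod_lt (c t + m - 1) hm0
    change m * n t + _ = _ at h1
    rw [mul_comm (n t) m]
    omega
  have hsc : ∑ t, c t = P := by
    have h := Fintype.card_congr (Equiv.sigmaFiberEquiv ty)
    rw [Fintype.card_sigma, Fintype.card_fin] at h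
    exact h
  have hsn : (∑ t, n t) * m ≤ P + Fintype.card τ * m := by
    rw [Finset.sum_mul]
    calc ∑ t, n t * m ≤ ∑ t, (c t + m) := Finset.sum_le_sum (fun t _ => by have := hn1 t; omega)
      _ = P + Fintype.card τ * m := by
        rw [Finset.sum_add_distrib, hsc, Finset.sum_const, smul_eq_mul]
        rfl
  have hq : ∑ t, n t ≤ q := Nat.le_of_mul_le_mul_right (hsn.trans hP) hm0
  have hcN : Fintype.card (Σ t, Fin (n t)) = ∑ t, n t := by
    rw [Fintype.card_sigma]
    simp
  obtain ⟨ι⟩ := Function.Embedding.nonempty_of_card_le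
    (α := Σ t, Fin (n t)) (β := Fin q) (by rw [hcN, Fintype.card_fin]; exact hq)
  have hψ : ∀ t, Nonempty ({p // ty p = t} ↪ Fin (n t) × G) := by
    intro t
    refine Function.Embedding.nonempty_of_card_le ?_
    rw [Fintype.card_prod, Fintype.card_fin]
    exact hn2 t
  have ψ : ∀ t, {p // ty p = t} ↪ Fin (n t) × G := fun t => (hψ t).some
  set E : Fin P → (Σ t, Fin (n t)) × G := fun p =>
    (⟨ty p, (ψ (ty p) ⟨p, rfl⟩).1⟩, (ψ (ty p) ⟨p, rfl⟩).2) with hE
  have hEt : ∀ t p (h : ty p = t), E p = (⟨t, (ψ t ⟨p, h⟩).1⟩, (ψ t ⟨p, h⟩).2) := by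
    intro t p h
    subst h
    rfl
  have hEi : Function.Injective E := by
    intro p p' hpp
    have h1 : ty p = ty p' := congrArg (fun z => z.1.1) hpp
    rw [hEt (ty p') p h1, hEt (ty p') p' rfl] at hpp
    obtain ⟨h2, h3⟩ := Prod.mk.inj hpp
    have h4 := eq_of_heq (Sigma.mk.inj h2).2
    have h5 := (ψ (ty p')).injective (Prod.ext h4 h3)
    exact congrArg Subtype.val h5
  have hFi : Function.Injective (fun z : (Σ t, Fin (n t)) × G => (ι z.1, z.2)) := by
    rintro ⟨a, b⟩ ⟨a', b'⟩ h
    obtain ⟨h1, h2⟩ := Prod.mk.inj h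
    exact Prod.ext (ι.injective h1) h2
  set cty : Fin q → τ := fun X => if h : ∃ y, ι y = X then (Classical.choose h).1 else t0 with hcty
  have hct1 : ∀ y, cty (ι y) = y.1 := by
    intro y
    have h : ∃ y', ι y' = ι y := ⟨y, rfl⟩
    simp only [hcty]
    rw [dif_pos h]
    rw [ι.injective (Classical.choose_spec h)]
  have hct2 : ∀ X, cty X ≠ t0 → ∃ y, ι y = X := by
    intro X hX
    by_contra h
    apply hX
    simp only [hcty]
    rw [dif_neg h]
  refine ⟨fun p => (ι (E p).1, (E p).2), cty, ?_, ?_, ?_, ?_⟩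
  · exact hFi.comp hEi
  · intro p
    change cty (ι (E p).1) = ty p
    rw [hct1]
  · have hsub : (univ.filter (fun x : Fin q × G => (∀ p, (ι (E p).1, (E p).2) ≠ x) ∧
        cty x.1 ≠ t0)) ⊆ (univ \ univ.image E).image
          (fun z : (Σ t, Fin (n t)) × G => (ι z.1, z.2)) := by
      intro x hx
      rw [Finset.mem_filter] at hx
      obtain ⟨_, hx1, hx2⟩ := hx
      obtain ⟨y, hy⟩ := hct2 x.1 hx2
      rw [Finset.mem_image]
      refine ⟨(y, x.2), ?_, ?_⟩
      · rw [Finset.mem_sdiff]
        refine ⟨Finset.mem_univ _, fun hh => ?_⟩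
        rw [Finset.mem_image] at hh
        obtain ⟨p, _, hp⟩ := hh
        apply hx1 p
        rw [hp]
        exact Prod.ext hy rfl
      · exact Prod.ext hy rfl
    refine (Finset.card_le_card hsub).trans ?_
    refine Finset.card_image_le.trans ?_
    have h1 := Finset.card_sdiff_add_card_eq_card (Finset.subset_univ (univ.image E))
    rw [Finset.card_image_of_injective _ hEi, Finset.card_univ, Finset.card_univ,
      Fintype.card_fin, Fintype.card_prod, hcN, ← hm] at h1
    omega
  · intro X hX
    obtain ⟨⟨t, k⟩, hy⟩ := hct2 X hX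
    by_contra hcon
    have hno : ∀ p (h : ty p = t), (ψ t ⟨p, h⟩).1 ≠ k := by
      intro p h hk
      apply hcon
      refine ⟨p, ?_⟩
      change ι (E p).1 = X
      rw [hEt t p h, hk]
      exact hy
    have hinj : Function.Injective (fun p : {p // ty p = t} =>
        ((⟨(ψ t p).1, hno p.1 p.2⟩, (ψ t p).2) : {k' : Fin (n t) // k' ≠ k} × G)) := by
      intro a b hab
      obtain ⟨h1, h2⟩ := Prod.mk.inj hab
      exact (ψ t).injective (Prod.ext (congrArg Subtype.val h1) h2)
    have h1 := Fintype.card_le_of_injective _ hinj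
    rw [Fintype.card_prod] at h1
    have h2 : Fintype.card {k' : Fin (n t) // k' ≠ k} = n t - 1 := by
      rw [Fintype.card_subtype_compl, Fintype.card_fin]
      simp
    rw [h2, ← hm] at h1
    have h3 := hn1 t
    have h4 : 1 ≤ n t := by
      have := k.2
      omega
    have h5 : n t * m = (n t - 1) * m + m := by
      obtain ⟨s, hs⟩ : ∃ s, n t = s + 1 := ⟨n t - 1, by omega⟩
      rw [hs]
      simp only [Nat.add_sub_cancel]
      ring
    change c t ≤ (n t - 1) * m at h1
    omega

end MP_80c395_TP
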