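import Mathlib

/-!
# Project TQ: grouping by type; shifts with different differences

`sort_cl`: sort the elements of `Fin (q * m)` by their type: let `e₀ : Fin (q*m) ≃ Fin (q*m)` be a
permutation such that the types `ty (e₀ 0), ty (e₀ 1), ..` are in increasing order (with respect to a
numbering of the finite type `τ`; e.g. `Tuple.sort`), and cut the sequence into `q` blocks of `m`
consecutive elements (`finProdFinEquiv`).  A block which is not constant contains two consecutive
elements with different types, and since the sequence is increasing there are at most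
`card τ - 1` such places (the type just before a jump determines the jump).

`golomb`: the numbers `g j = 2 ^ j`, `j < R`, and `m > 2 ^ (R + 1)`: if
`g j - g j' ≡ g l - g l'` mod `m` with `j ≠ j'` then `j = l` and `j' = l'`: both differences have
absolute value `< 2 ^ R`, so they are equal integers: `2^j + 2^l' = 2^l + 2^j'`, and by uniqueness of
binary representations `{j, l'} = {l, j'}` as multisets; `j = j'` is excluded.
-/

set_option autoImplicit false

namespace MP_80c395_TP

open Finset

private theorem SortCl_two {a b c d : ℕ} (h : 2 ^ a + 2 ^ b = 2 ^ c + 2 ^ d) (hd : a ≠ d) :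
    a = c ∧ b = d := by
  have key := Finset.geomSum_injective (n := 2) le_rfl
  have h2 : ∀ {x y : ℕ}, x ≠ y → ∑ i ∈ ({x, y} : Finset ℕ), 2 ^ i = 2 ^ x + 2 ^ y := fun hxy =>
    Finset.sum_pair hxy
  have h1 : ∀ x : ℕ, ∑ i ∈ ({x + 1} : Finset ℕ), 2 ^ i = 2 ^ x + 2 ^ x := by
    intro x
    rw [Finset.sum_singleton, pow_succ]
    ring
  by_cases hab : a = b
  · subst hab
    by_cases hcd : c = d
    · subst hcd
      have h3 : ({a + 1} : Finset ℕ) = {c + 1} := key (by
        show ∑ i ∈ ({a + 1} : Finset ℕ), 2 ^ i = ∑ i ∈ ({c + 1} : Finset ℕ), 2 ^ i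
        rw [h1, h1, h])
      have h4 := Finset.singleton_injective h3
      exact absurd (Nat.succ_injective h4) hd
    · have h3 : ({a + 1} : Finset ℕ) = {c, d} := key (by
        show ∑ i ∈ ({a + 1} : Finset ℕ), 2 ^ i = ∑ i ∈ ({c, d} : Finset ℕ), 2 ^ i
        rw [h1, h2 hcd, h])
      have h4 : c ∈ ({a + 1} : Finset ℕ) := by
        rw [h3]
        simp
      have h5 : d ∈ ({a + 1} : Finset ℕ) := by
        rw [h3]
        simp
      rw [Finset.mem_singleton] at h4 h5
      exact absurd (h4.trans h5.symm) hcd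
  · by_cases hcd : c = d
    · subst hcd
      have h3 : ({a, b} : Finset ℕ) = {c + 1} := key (by
        show ∑ i ∈ ({a, b} : Finset ℕ), 2 ^ i = ∑ i ∈ ({c + 1} : Finset ℕ), 2 ^ i
        rw [h1, h2 hab, h])
      have h4 : a ∈ ({c + 1} : Finset ℕ) := by
        rw [← h3]
        simp
      have h5 : b ∈ ({c + 1} : Finset ℕ) := by
        rw [← h3]
        simp
      rw [Finset.mem_singleton] at h4 h5
      exact absurd (h4.trans h5.symm) hab
    · have h3 : ({a, b} : Finset ℕ) = {c, d} := key (by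
        show ∑ i ∈ ({a, b} : Finset ℕ), 2 ^ i = ∑ i ∈ ({c, d} : Finset ℕ), 2 ^ i
        rw [h2 hab, h2 hcd, h])
      have h4 : a ∈ ({c, d} : Finset ℕ) := by
        rw [← h3]
        simp
      have h5 : b ∈ ({c, d} : Finset ℕ) := by
        rw [← h3]
        simp
      rw [Finset.mem_insert, Finset.mem_singleton] at h4 h5
      have h6 : a = c := h4.resolve_right hd
      refine ⟨h6, h5.resolve_left fun h7 => hab (h6.trans h7.symm)⟩

theorem sort_cl {τ : Type} [Fintype τ] [DecidableEq τ] (q m : ℕ) (ty : Fin (q * m) → τ) :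
    ∃ (e : Fin (q * m) ≃ Fin q × Fin m) (Bad : Finset (Fin q)), Bad.card ≤ Fintype.card τ ∧
      ∀ X, X ∉ Bad → ∀ x x', ty (e.symm (X, x)) = ty (e.symm (X, x')) := by
  classical
  obtain ⟨f, hf⟩ : ∃ f : Fin (q * m) → Fin (Fintype.card τ),
      f = fun i => Fintype.equivFin τ (ty i) := ⟨_, rfl⟩
  obtain ⟨σ, hσ⟩ : ∃ σ : Equiv.Perm (Fin (q * m)), Monotone (f ∘ σ) :=
    ⟨Tuple.sort f, Tuple.monotone_sort f⟩
  obtain ⟨h, hh⟩ : ∃ h : Fin q → Fin m → Fin (Fintype.card τ),
      ∀ X x, h X x = f (σ (finProdFinEquiv (X, x))) := ⟨_, fun _ _ => rfl⟩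
  have hmono : ∀ (X X' : Fin q) (x x' : Fin m), (x : ℕ) + m * X ≤ x' + m * X' →
      h X x ≤ h X' x' := by
    intro X X' x x' hle
    rw [hh, hh]
    refine hσ (show finProdFinEquiv (X, x) ≤ finProdFinEquiv (X', x') from Fin.le_def.2 ?_)
    rw [finProdFinEquiv_apply_val, finProdFinEquiv_apply_val]
    exact hle
  refine ⟨σ.symm.trans finProdFinEquiv.symm, univ.filter (fun X => ∃ x x', h X x ≠ h X x'),
    ?_, ?_⟩
  · rcases Nat.eq_zero_or_pos m with hm | hm
    · have h0 : univ.filter (fun X => ∃ x x', h X x ≠ h X x') = ∅ := by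
        refine Finset.filter_eq_empty_iff.2 fun X _ hX => ?_
        obtain ⟨x, _⟩ := hX
        have := x.2
        omega
      rw [h0, Finset.card_empty]
      exact Nat.zero_le _
    · have hl : m - 1 < m := by omega
      have key : ∀ X, (∃ x x', h X x ≠ h X x') → h X ⟨0, hm⟩ < h X ⟨m - 1, hl⟩ := by
        intro X hX
        by_contra hcon
        rw [not_lt] at hcon
        obtain ⟨x, x', hx⟩ := hX
        have hx1 : ∀ x : Fin m, h X x = h X ⟨0, hm⟩ := by
          intro x
          refine le_antisymm (le_trans (hmono X X x ⟨m - 1, hl⟩ ?_) hcon) (hmono X X _ x ?_)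
          · have := x.2
            show (x : ℕ) + m * X ≤ (m - 1) + m * X
            omega
          · show 0 + m * (X : ℕ) ≤ x + m * X
            omega
        exact hx ((hx1 x).trans (hx1 x').symm)
      have key2 : ∀ X X' : Fin q, X < X' → (∃ x x', h X' x ≠ h X' x') →
          h X ⟨m - 1, hl⟩ < h X' ⟨m - 1, hl⟩ := by
        intro X X' hlt hX'
        refine lt_of_le_of_lt (hmono X X' ⟨m - 1, hl⟩ ⟨0, hm⟩ ?_) (key X' hX')
        show (m - 1) + m * (X : ℕ) ≤ 0 + m * (X' : ℕ)
        have h1 : (X : ℕ) + 1 ≤ X' := hlt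
        have h2 : m * ((X : ℕ) + 1) ≤ m * X' := Nat.mul_le_mul_left m h1
        rw [mul_add, mul_one] at h2
        omega
      have h3 := Finset.card_le_card_of_injOn (s := univ.filter (fun X => ∃ x x', h X x ≠ h X x'))
        (t := (univ : Finset (Fin (Fintype.card τ)))) (fun X => h X ⟨m - 1, hl⟩)
        (fun X _ => Finset.mem_univ _) (by
          intro X hX X' hX' he
          have hX1 := (Finset.mem_filter.1 (Finset.mem_coe.1 hX)).2
          have hX2 := (Finset.mem_filter.1 (Finset.mem_coe.1 hX')).2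
          rcases lt_trichotomy X X' with h1 | h1 | h1
          · exact absurd he (key2 X X' h1 hX2).ne
          · exact h1
          · exact absurd he (key2 X' X h1 hX1).ne')
      rwa [Finset.card_univ, Fintype.card_fin] at h3
  · intro X hX x x'
    have h1 : h X x = h X x' := by
      by_contra h2
      exact hX (Finset.mem_filter.2 ⟨Finset.mem_univ _, x, x', h2⟩)
    rw [hh, hh, hf] at h1
    exact (Fintype.equivFin τ).injective h1

theorem golomb (R m : ℕ) (hm : 2 ^ (R + 1) < m) :
    ∃ g : Fin R → ZMod m, Function.Injective g ∧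
      ∀ j j' l l', j ≠ j' → g j - g j' = g l - g l' → j = l ∧ j' = l' := by
  have hlt : ∀ j : Fin R, 2 ^ (j : ℕ) * 2 ≤ 2 ^ R := by
    intro j
    rw [← pow_succ]
    exact Nat.pow_le_pow_right (by norm_num) j.2
  have h2R : 2 ^ (R + 1) = 2 ^ R * 2 := pow_succ 2 R
  have hcast : ∀ a b : ℕ, a < m → b < m → (a : ZMod m) = b → a = b := by
    intro a b ha hb h
    have h1 := (ZMod.natCast_eq_natCast_iff' a b m).1 h
    rwa [Nat.mod_eq_of_lt ha, Nat.mod_eq_of_lt hb] at h1
  refine ⟨fun j => ((2 ^ (j : ℕ) : ℕ) : ZMod m), fun j j' h => ?_, fun j j' l l' hne h => ?_⟩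
  · have h1 := hcast _ _ (by have := hlt j; omega) (by have := hlt j'; omega) h
    exact Fin.ext (Nat.pow_right_injective le_rfl h1)
  · have h1 : ((2 ^ (j : ℕ) + 2 ^ (l' : ℕ) : ℕ) : ZMod m) =
        ((2 ^ (l : ℕ) + 2 ^ (j' : ℕ) : ℕ) : ZMod m) := by
      rw [Nat.cast_add, Nat.cast_add]
      exact sub_eq_sub_iff_add_eq_add.1 h
    have h2 := hcast _ _ (by have := hlt j; have := hlt l'; omega)
      (by have := hlt l; have := hlt j'; omega) h1
    obtain ⟨h3, h4⟩ := SortCl_two h2 fun h5 => hne (Fin.ext h5)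
    exact ⟨Fin.ext h3, Fin.ext h4.symm⟩

end MP_80c395_TP
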