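import Pool.Agent.Lib.MP_80c395_co_TQ.Bundle
import Pool.Agent.Lib.MP_80c395_co_TQ.Group
import Pool.Agent.Lib.MP_80c395_co_TQ.SortCl

/-!
# Project TQ: hosts for the slots

`R = L * R₁`, `G = ZMod m` (`ZMod.card`), `P = (q - Tn) * m` bins, `amax = Vl 0 + R₁ γ'`.  The
level of the slot
`z ∈ J i` in the coordinate `l` is `lev i z l = ⌊val i z l / γ'⌋₊ + 1`, between `1` and `Am - 1`; so
`val ≤ γ' lev ≤ val + γ'`.  Heavy trees: `J i ≠ ∅`; size `a i = ∑ z ∈ J i, γ' lev i z 0`, `0 < a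
i ≤ amax`.
`bundling` (Bundle.lean) gives `b : heavy trees → Fin P`.  In every bin there are at most `L R₁ =
R` slots;
number them injectively: `lb i z : Fin R`.  The type of the bin `p` is the function
`ty p j l = lev i z l` if the slot `(i, z)` of `p` has the number `j`, and `0` if there is none;
`t0 = 0`.
`group_cl` (Group.lean) gives `e : Fin P → Fin q × ZMod m` and `cty`; `lv X j l = cty X j l`.
`golomb` (SortCl.lean) gives `g : Fin R → ZMod m`.  For a heavy tree `i` with `e (b i) = (X, x)`: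
`X i = X`,
`φ0 i z = (X, x + g (lb i z))`.  For the other trees `X i = i mod q`.

* `Xc`: at most `m` bins have their place in the cluster `x`, each with at most `L` trees; at
most `k / q + 1`
  other trees.
* `inj`, `lbi`: `g` and `lb i` are injective.  `lbu`: `φ0 i z = φ0 i' z'`, `lb i z = lb i' z'` gives
  `e (b i) = e (b i')`, so the same bin and the same slot.
* `dst`: `z1 ≠ z2` in `J i`, `z3 ≠ z4` in `J i'`, `s(φ0 z1, φ0 z2) = s(φ0 z3, φ0 z4)`; e.g. `φ0
z1 = φ0 z3`,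
  `φ0 z2 = φ0 z4`: `g (lb z1) - g (lb z2) = g (lb z3) - g (lb z4)`, so `lb z1 = lb z3` and `i =
  i'` by `lbu`;
  the other case is the same.
* third claim: `X` with `cty X = t0`: all `lv` are `0`.  Otherwise `cty X = ty p` for some bin
`p` (last claim
  of `group_cl`) and `∑ j, γ' lv X j l = ∑ i ∈ p, ∑ z ∈ J i, γ' lev i z l ≤ L (Vl l + R₁ γ')`.
* fourth claim: `m ∑ X, ∑ j, γ' lv X j 0 = ∑ (X, x), ..`: the places `e p` give the sum of the `a
i`; the other
  places with `cty X ≠ t0` are at most `Tn * m` many, each with `≤ L (Vl 0 + R₁ γ')`.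
* last claim: the two cases of `bundling`: in the first case all bins, hence all clusters have
  `∑ j, γ' lv X j 0 ≤ amax`.  In the second case with `M0 = M`: a cluster `X` with sum `< M0 / 2`
  and
  `cty X ≠ t0` contains only full bins (with `L` trees; at most `k / L` of them) and at most `Tn
  * m` other
  places in total; a cluster with `cty X = t0` contains no bin `p` (its load would be `0 < M0 /
  2`, so it would
  be full, but a bin without slots contains no heavy tree, `L ≥ 1`), so its places are among the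
  `q m - P = Tn m` places which are not of the form `e p`.
-/

set_option autoImplicit false

namespace MP_80c395_TP

open Finset

/-- hosts `φ0` and labels `lb` of the slots `J i` -/
structure SlotOK {q m R k : ℕ} (mm : Fin k → ℕ) (J : ∀ i, Finset (Fin (mm i)))
    (X : Fin k → Fin q) (lb : ∀ i, Fin (mm i) → Fin R)
    (φ0 : ∀ i, Fin (mm i) → Fin q × ZMod m) : Prop where
  JX : ∀ i, ∀ z ∈ J i, (φ0 i z).1 = X i
  inj : ∀ i, ∀ z ∈ J i, ∀ z' ∈ J i, φ0 i z = φ0 i z' → z = z'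
  lbi : ∀ i, ∀ z ∈ J i, ∀ z' ∈ J i, lb i z = lb i z' → z = z'
  lbu : ∀ i i', ∀ z ∈ J i, ∀ z' ∈ J i', φ0 i z = φ0 i' z' → lb i z = lb i' z' → i = i'
  dst : ∀ i i', i ≠ i' → ∀ z1 ∈ J i, ∀ z2 ∈ J i, ∀ z3 ∈ J i', ∀ z4 ∈ J i', z1 ≠ z2 → z3 ≠ z4 →
    s(φ0 i z1, φ0 i z2) ≠ s(φ0 i' z3, φ0 i' z4)

private theorem Slots_bundle {k : ℕ} (P L : ℕ) (hP : 0 < P) (H : Fin k → Prop) [DecidablePred H]
    (a : Fin k → ℝ) (amax : ℝ) (h0 : 0 ≤ amax) (ha : ∀ i, H i → 0 < a i)
    (hz : ∀ i, ¬ H i → a i = 0) (ha1 : ∀ i, a i ≤ amax) (hk : k ≤ L * P) :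
    ∃ b : Fin k → Fin P, (∀ p, (univ.filter (fun i => H i ∧ b i = p)).card ≤ L) ∧
      ((∀ p, ∑ i ∈ univ.filter (fun i => b i = p), a i ≤ amax) ∨
        ∃ M : ℝ, amax < M ∧ (∀ p, ∑ i ∈ univ.filter (fun i => b i = p), a i ≤ M) ∧
          ∀ p, (univ.filter (fun i => H i ∧ b i = p)).card < L →
            M / 2 ≤ ∑ i ∈ univ.filter (fun i => b i = p), a i) := by
  classical
  obtain ⟨b, hb1, hb2⟩ := bundling (I := {i : Fin k // H i}) P L hP (fun i => a i.1) amax h0
    (fun i => ha i.1 i.2) (fun i => ha1 i.1) (by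
      refine (Fintype.card_subtype_le _).trans ?_
      rw [Fintype.card_fin]
      exact hk)
  obtain ⟨b', hb'⟩ : ∃ b' : Fin k → Fin P, ∀ i, ∀ h : H i, b' i = b ⟨i, h⟩ :=
    ⟨fun i => if h : H i then b ⟨i, h⟩ else ⟨0, hP⟩, fun i h => dif_pos h⟩
  have hmap : ∀ p, univ.filter (fun i => H i ∧ b' i = p) =
      (univ.filter (fun i : {i : Fin k // H i} => b i = p)).map (Function.Embedding.subtype H) := by
    intro p
    ext i
    rw [mem_filter, mem_map]
    constructor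
    · rintro ⟨-, h1, h2⟩
      refine ⟨⟨i, h1⟩, ?_, rfl⟩
      rw [mem_filter, ← hb' i h1]
      exact ⟨mem_univ _, h2⟩
    · rintro ⟨j, hj, rfl⟩
      rw [mem_filter] at hj
      refine ⟨mem_univ _, j.2, ?_⟩
      rw [← hj.2]
      exact hb' j.1 j.2
  have hcard : ∀ p, (univ.filter (fun i => H i ∧ b' i = p)).card =
      (univ.filter (fun i : {i : Fin k // H i} => b i = p)).card := fun p => by
    rw [hmap, card_map]
  have hsum : ∀ p, ∑ i ∈ univ.filter (fun i => b' i = p), a i =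
      ∑ i ∈ univ.filter (fun i : {i : Fin k // H i} => b i = p), a i.1 := by
    intro p
    have h1 : ∑ i ∈ univ.filter (fun i => H i ∧ b' i = p), a i =
        ∑ i ∈ univ.filter (fun i => b' i = p), a i := by
      refine sum_subset (fun i hi => ?_) (fun i hi hni => ?_)
      · rw [mem_filter] at hi ⊢
        exact ⟨hi.1, hi.2.2⟩
      · refine hz i fun hH => hni ?_
        rw [mem_filter] at hi ⊢
        exact ⟨hi.1, hH, hi.2⟩
    rw [← h1, hmap, sum_map]
    rfl
  refine ⟨b', fun p => (hcard p).le.trans (hb1 p), ?_⟩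
  simp only [hcard, hsum]
  exact hb2

private theorem Slots_label {S : Type} [DecidableEq S] {P R : ℕ} (hR : 0 < R)
    (T : Fin P → Finset S) (hT : ∀ p, (T p).card ≤ R) :
    ∃ lab : Fin P → S → Fin R, ∀ p, ∀ s ∈ T p, ∀ s' ∈ T p, lab p s = lab p s' → s = s' := by
  refine ⟨fun p s => if h : s ∈ T p then Fin.castLE (hT p) ((T p).equivFin ⟨s, h⟩) else ⟨0, hR⟩,
    fun p s hs s' hs' h => ?_⟩
  simp only [dif_pos hs, dif_pos hs'] at h
  have h1 := (T p).equivFin.injective (Fin.castLE_injective (hT p) h)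
  exact congrArg Subtype.val h1

private theorem Slots_sum_le {k P : ℕ} (H : Fin k → Prop) [DecidablePred H] (b : Fin k → Fin P)
    (g : Fin k → ℝ) {c : ℝ} (hg : ∀ i, g i ≤ c) (hz : ∀ i, ¬ H i → g i = 0) (p : Fin P) :
    ∑ i ∈ univ.filter (fun i => b i = p), g i ≤
      ((univ.filter (fun i => H i ∧ b i = p)).card : ℝ) * c := by
  classical
  have h1 : ∑ i ∈ univ.filter (fun i => H i ∧ b i = p), g i =
      ∑ i ∈ univ.filter (fun i => b i = p), g i := by
    refine sum_subset (fun i hi => ?_) (fun i hi hni => ?_)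
    · rw [mem_filter] at hi ⊢
      exact ⟨hi.1, hi.2.2⟩
    · refine hz i fun hH => hni ?_
      rw [mem_filter] at hi ⊢
      exact ⟨hi.1, hH, hi.2⟩
  rw [← h1, ← nsmul_eq_mul]
  exact sum_le_card_nsmul _ _ _ fun i _ => hg i

private theorem Slots_mod {k q : ℕ} (hq : 0 < q) (x : Fin q) :
    (univ.filter (fun i : Fin k => (⟨(i : ℕ) % q, Nat.mod_lt _ hq⟩ : Fin q) = x)).card ≤
      k / q + 1 := by
  rw [← card_range (k / q + 1)]
  refine card_le_card_of_injOn (fun i : Fin k => (i : ℕ) / q) ?_ ?_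
  · intro i _
    rw [mem_coe, mem_range]
    have := Nat.div_le_div_right (c := q) i.2.le
    simp only
    omega
  · intro i hi j hj h
    rw [mem_coe, mem_filter] at hi hj
    have h1 : (i : ℕ) % q = x := congrArg Fin.val hi.2
    have h2 : (j : ℕ) % q = x := congrArg Fin.val hj.2
    have h3 := Nat.div_add_mod (i : ℕ) q
    have h4 := Nat.div_add_mod (j : ℕ) q
    have h5 : (i : ℕ) / q = (j : ℕ) / q := h
    apply Fin.ext
    rw [← h3, ← h4, h5, h1, h2]

open Classical in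
theorem ex_slots (L R₁ Am : ℕ) (hL : 1 ≤ L) (hR : 1 ≤ R₁) (γ' : ℝ) (hγ : 0 < γ')
    (hAm : 1 / γ' + 2 ≤ Am) (q m : ℕ) [NeZero m] (hm : 2 ^ (L * R₁ + 1) < m) (Tn : ℕ)
    (hTn : Tn = Fintype.card (Fin (L * R₁) → Fin 4 → Fin Am)) (hq : Tn < q) {k : ℕ}
    (mm : Fin k → ℕ) (J : ∀ i, Finset (Fin (mm i))) (val : ∀ i, Fin (mm i) → Fin 4 → ℝ)
    (hk : k ≤ L * ((q - Tn) * m)) (hJ : ∀ i, (J i).card ≤ R₁) (h0 : ∀ i z l, 0 ≤ val i z l)
    (h1 : ∀ i z l, val i z l ≤ 1) (Vl : Fin 4 → ℝ) (hV0 : ∀ l, 0 ≤ Vl l)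
    (hV : ∀ i l, ∑ z ∈ J i, val i z l ≤ Vl l) :
    ∃ (X : Fin k → Fin q) (lb : ∀ i, Fin (mm i) → Fin (L * R₁))
      (φ0 : ∀ i, Fin (mm i) → Fin q × ZMod m) (lv : Fin q → Fin (L * R₁) → Fin 4 → ℕ),
      SlotOK mm J X lb φ0 ∧
      (∀ x, (univ.filter (fun i => X i = x)).card ≤ m * L + (k / q + 1)) ∧
      (∀ i, ∀ z ∈ J i, ∀ l, val i z l ≤ γ' * lv (X i) (lb i z) l ∧
        γ' * lv (X i) (lb i z) l ≤ val i z l + γ' ∧ 1 ≤ lv (X i) (lb i z) l) ∧
      (∀ x l, ∑ j, γ' * (lv x j l : ℝ) ≤ L * (Vl l + R₁ * γ')) ∧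
      ((∑ x, ∑ j, γ' * (lv x j 0 : ℝ)) * m ≤ ∑ i, ∑ z ∈ J i, (val i z 0 + γ') +
        Tn * m * (L * (Vl 0 + R₁ * γ'))) ∧
      ((∀ x, ∑ j, γ' * (lv x j 0 : ℝ) ≤ Vl 0 + R₁ * γ') ∨
        ∃ M0 : ℝ, Vl 0 + R₁ * γ' < M0 ∧ (∀ x, ∑ j, γ' * (lv x j 0 : ℝ) ≤ M0) ∧
          ((univ.filter (fun x => ∑ j, γ' * (lv x j 0 : ℝ) < M0 / 2)).card : ℝ) * m ≤
            k / L + 2 * Tn * m) := by
  have hR0 : 0 < L * R₁ := Nat.mul_pos hL hR
  have hm0 : 0 < m := lt_of_le_of_lt (Nat.zero_le _) hm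
  have hq0 : 0 < q := lt_of_le_of_lt (Nat.zero_le _) hq
  have hP0 : 0 < (q - Tn) * m := Nat.mul_pos (by omega) hm0
  have hAm0 : 0 < Am := by
    have h2 : (0 : ℝ) < Am := lt_of_lt_of_le (by positivity) hAm
    exact_mod_cast h2
  -- levels
  obtain ⟨lev, hlev⟩ : ∃ lev : (i : Fin k) → Fin (mm i) → Fin 4 → ℕ,
      ∀ i z l, lev i z l = ⌊val i z l / γ'⌋₊ + 1 := ⟨_, fun _ _ _ => rfl⟩
  have hlev1 : ∀ i z l, 1 ≤ lev i z l := fun i z l => by
    rw [hlev]
    omega
  have hlev2 : ∀ i z l, val i z l ≤ γ' * lev i z l := fun i z l => by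
    rw [hlev]
    push_cast
    have := (Nat.lt_floor_add_one (val i z l / γ')).le
    rw [div_le_iff₀ hγ] at this
    linarith
  have hlev3 : ∀ i z l, γ' * (lev i z l : ℝ) ≤ val i z l + γ' := fun i z l => by
    rw [hlev]
    push_cast
    have := Nat.floor_le (div_nonneg (h0 i z l) hγ.le)
    rw [le_div_iff₀ hγ] at this
    linarith
  have hlev4 : ∀ i z l, lev i z l < Am := fun i z l => by
    have h2 := hlev3 i z l
    have h3 := h1 i z l
    have h4 : (lev i z l : ℝ) ≤ 1 / γ' + 1 := by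
      rw [div_add_one hγ.ne', le_div_iff₀ hγ]
      linarith
    have h5 : (lev i z l : ℝ) < Am := by linarith
    exact_mod_cast h5
  -- sizes
  obtain ⟨g0, hg0⟩ : ∃ g0 : Fin 4 → Fin k → ℝ, ∀ l i, g0 l i = ∑ z ∈ J i, γ' * (lev i z l : ℝ) :=
    ⟨_, fun _ _ => rfl⟩
  have hg0le' : ∀ l i, g0 l i ≤ ∑ z ∈ J i, (val i z l + γ') := fun l i => by
    rw [hg0]
    exact sum_le_sum fun z _ => hlev3 i z l
  have hg0le : ∀ l i, g0 l i ≤ Vl l + R₁ * γ' := fun l i => by
    refine (hg0le' l i).trans ?_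
    rw [sum_add_distrib, sum_const, nsmul_eq_mul]
    have h2 : ((J i).card : ℝ) * γ' ≤ R₁ * γ' :=
      mul_le_mul_of_nonneg_right (by exact_mod_cast hJ i) hγ.le
    have := hV i l
    linarith
  have hg0z : ∀ l i, ¬ (J i).Nonempty → g0 l i = 0 := fun l i h => by
    rw [hg0, Finset.not_nonempty_iff_eq_empty.1 h, sum_empty]
  have hg0p : ∀ i, (J i).Nonempty → 0 < g0 0 i := fun i h => by
    rw [hg0]
    refine sum_pos (fun z _ => mul_pos hγ ?_) h
    exact_mod_cast hlev1 i z 0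
  have hg0nn : ∀ l i, 0 ≤ g0 l i := fun l i => by
    rw [hg0]
    exact sum_nonneg fun z _ => by positivity
  have hc0 : ∀ l, 0 ≤ Vl l + R₁ * γ' := fun l => add_nonneg (hV0 l) (by positivity)
  obtain ⟨b, hb1, hb2⟩ := Slots_bundle ((q - Tn) * m) L hP0 (fun i => (J i).Nonempty) (g0 0)
    (Vl 0 + R₁ * γ') (hc0 0) hg0p (hg0z 0) (hg0le 0) hk
  -- slots of the bins
  obtain ⟨T, hT⟩ : ∃ T : Fin ((q - Tn) * m) → Finset (Σ i : Fin k, Fin (mm i)),
      ∀ p, T p = (univ.filter (fun i => b i = p)).sigma J := ⟨_, fun _ => rfl⟩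
  have hmT : ∀ p s, s ∈ T p ↔ b s.1 = p ∧ s.2 ∈ J s.1 := fun p s => by
    rw [hT, mem_sigma, mem_filter]
    exact ⟨fun h => ⟨h.1.2, h.2⟩, fun h => ⟨⟨mem_univ _, h.1⟩, h.2⟩⟩
  have hTc : ∀ p, (T p).card ≤ L * R₁ := fun p => by
    rw [hT, card_sigma]
    have h2 := Slots_sum_le (fun i => (J i).Nonempty) b (fun i => ((J i).card : ℝ))
      (c := (R₁ : ℝ)) (fun i => by exact_mod_cast hJ i)
      (fun i h => by rw [Finset.not_nonempty_iff_eq_empty.1 h, card_empty, Nat.cast_zero]) p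
    have h3 : ((univ.filter (fun i => (J i).Nonempty ∧ b i = p)).card : ℝ) * R₁ ≤ L * R₁ :=
      mul_le_mul_of_nonneg_right (by exact_mod_cast hb1 p) (Nat.cast_nonneg _)
    have h4 := h2.trans h3
    exact_mod_cast h4
  obtain ⟨lab, hlab⟩ := Slots_label hR0 T hTc
  -- types of the bins
  obtain ⟨tn, htn⟩ : ∃ tn : Fin ((q - Tn) * m) → Fin (L * R₁) → Fin 4 → ℕ, ∀ p j l,
      tn p j l = ∑ s ∈ (T p).filter (fun s => lab p s = j), lev s.1 s.2 l :=
    ⟨_, fun _ _ _ => rfl⟩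
  have htn1 : ∀ p, ∀ s ∈ T p, ∀ l, tn p (lab p s) l = lev s.1 s.2 l := by
    intro p s hs l
    have h2 : (T p).filter (fun s' => lab p s' = lab p s) = {s} := by
      ext s'
      rw [mem_filter, mem_singleton]
      exact ⟨fun h => hlab p s' h.1 s hs h.2, fun h => by rw [h]; exact ⟨hs, rfl⟩⟩
    rw [htn, h2, sum_singleton]
  have htn2 : ∀ p j l, tn p j l < Am := by
    intro p j l
    by_cases h : ∃ s ∈ T p, lab p s = j
    · obtain ⟨s, hs, rfl⟩ := h
      rw [htn1 p s hs]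
      exact hlev4 _ _ _
    · have h2 : (T p).filter (fun s' => lab p s' = j) = ∅ :=
        filter_eq_empty_iff.2 fun s hs hj => h ⟨s, hs, hj⟩
      rw [htn, h2, sum_empty]
      exact hAm0
  have htn3 : ∀ p l, ∑ j, γ' * (tn p j l : ℝ) = ∑ i ∈ univ.filter (fun i => b i = p), g0 l i := by
    intro p l
    have h2 : ∑ j, tn p j l = ∑ s ∈ T p, lev s.1 s.2 l := by
      simp only [htn]
      exact sum_fiberwise _ _ _
    rw [← mul_sum, ← Nat.cast_sum, h2, hT, sum_sigma]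
    push_cast
    rw [mul_sum]
    refine sum_congr rfl fun i _ => ?_
    rw [hg0, mul_sum]
  obtain ⟨e, cty, he, hcty, -, hex⟩ := group_cl (G := ZMod m) ((q - Tn) * m) q
    (fun p j l => (⟨tn p j l, htn2 p j l⟩ : Fin Am)) (fun _ _ => (⟨0, hAm0⟩ : Fin Am)) (by
      rw [← hTn, ZMod.card, ← Nat.add_mul]
      exact Nat.mul_le_mul_right _ (by omega))
  obtain ⟨g, hg, hg'⟩ := golomb (L * R₁) m hm
  obtain ⟨lv, hlv⟩ : ∃ lv : Fin q → Fin (L * R₁) → Fin 4 → ℕ, ∀ x j l,
      lv x j l = (cty x j l : ℕ) := ⟨_, fun _ _ _ => rfl⟩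
  have hlv1 : ∀ p j l, lv (e p).1 j l = tn p j l := fun p j l => by
    rw [hlv, hcty]
  have hlv0 : ∀ x, (∀ p, (e p).1 ≠ x) → ∀ j l, lv x j l = 0 := by
    intro x hx j l
    have h2 : cty x = fun _ _ => (⟨0, hAm0⟩ : Fin Am) := by
      by_contra hcon
      obtain ⟨p, hp⟩ := hex x hcon
      exact hx p hp
    rw [hlv, h2]
  -- the sums of the clusters
  obtain ⟨sm, hsm⟩ : ∃ sm : Fin 4 → Fin q → ℝ, ∀ l x, sm l x = ∑ j, γ' * (lv x j l : ℝ) :=
    ⟨_, fun _ _ => rfl⟩
  have hsm1 : ∀ l p, sm l (e p).1 = ∑ i ∈ univ.filter (fun i => b i = p), g0 l i := fun l p => by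
    rw [hsm, ← htn3]
    refine sum_congr rfl fun j _ => ?_
    rw [hlv1]
  have hsm0 : ∀ l x, (∀ p, (e p).1 ≠ x) → sm l x = 0 := fun l x hx => by
    rw [hsm]
    exact sum_eq_zero fun j _ => by rw [hlv0 x hx, Nat.cast_zero, mul_zero]
  have hsmnn : ∀ l x, 0 ≤ sm l x := fun l x => by
    rw [hsm]
    exact sum_nonneg fun j _ => by positivity
  have hall : ∀ (l : Fin 4) (B : ℝ), 0 ≤ B →
      (∀ p, ∑ i ∈ univ.filter (fun i => b i = p), g0 l i ≤ B) → ∀ x, sm l x ≤ B := by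
    intro l B hB hp x
    by_cases h : ∃ p, (e p).1 = x
    · obtain ⟨p, rfl⟩ := h
      rw [hsm1]
      exact hp p
    · push Not at h
      rw [hsm0 l x h]
      exact hB
  have hsmle : ∀ l x, sm l x ≤ L * (Vl l + R₁ * γ') := by
    intro l
    refine hall l _ (mul_nonneg (Nat.cast_nonneg _) (hc0 l)) fun p => ?_
    refine (Slots_sum_le (fun i => (J i).Nonempty) b (g0 l) (hg0le l) (hg0z l) p).trans ?_
    exact mul_le_mul_of_nonneg_right (by exact_mod_cast hb1 p) (hc0 l)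
  -- places
  have hYc : ((univ.image e)ᶜ : Finset (Fin q × ZMod m)).card = Tn * m := by
    rw [card_compl, card_image_of_injective _ he, card_univ, Fintype.card_fin, Fintype.card_prod,
      Fintype.card_fin, ZMod.card, ← Nat.sub_mul]
    congr 1
    omega
  obtain ⟨X, hX1, hX2⟩ : ∃ X : Fin k → Fin q, (∀ i, (J i).Nonempty → X i = (e (b i)).1) ∧
      ∀ i, ¬ (J i).Nonempty → X i = ⟨(i : ℕ) % q, Nat.mod_lt _ hq0⟩ :=
    ⟨fun i => if (J i).Nonempty then (e (b i)).1 else ⟨(i : ℕ) % q, Nat.mod_lt _ hq0⟩,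
      fun i h => if_pos h, fun i h => if_neg h⟩
  obtain ⟨lb, hlb⟩ : ∃ lb : ∀ i, Fin (mm i) → Fin (L * R₁), ∀ i z, lb i z = lab (b i) ⟨i, z⟩ :=
    ⟨_, fun _ _ => rfl⟩
  obtain ⟨φ0, hφ⟩ : ∃ φ0 : ∀ i, Fin (mm i) → Fin q × ZMod m, ∀ i z,
      φ0 i z = ((e (b i)).1, (e (b i)).2 + g (lb i z)) := ⟨_, fun _ _ => rfl⟩
  have hmem : ∀ i, ∀ z ∈ J i, (⟨i, z⟩ : Σ i : Fin k, Fin (mm i)) ∈ T (b i) := fun i z hz =>
    (hmT _ _).2 ⟨rfl, hz⟩
  have hlbi : ∀ i, ∀ z ∈ J i, ∀ z' ∈ J i, lb i z = lb i z' → z = z' := by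
    intro i z hz z' hz' h
    rw [hlb, hlb] at h
    have h2 := hlab (b i) _ (hmem i z hz) _ (hmem i z' hz') h
    exact eq_of_heq (Sigma.mk.inj h2).2
  have hlbu : ∀ i i', ∀ z ∈ J i, ∀ z' ∈ J i', φ0 i z = φ0 i' z' → lb i z = lb i' z' → i = i' := by
    intro i i' z hz z' hz' h h2
    rw [hφ, hφ, h2, Prod.mk.injEq] at h
    have h3 : e (b i) = e (b i') := Prod.ext h.1 (add_right_cancel h.2)
    have h4 : b i = b i' := he h3
    rw [hlb, hlb, ← h4] at h2
    have h5 : (⟨i', z'⟩ : Σ i : Fin k, Fin (mm i)) ∈ T (b i) := (hmT _ _).2 ⟨h4.symm, hz'⟩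
    have h6 := hlab (b i) _ (hmem i z hz) _ h5 h2
    exact congrArg Sigma.fst h6
  refine ⟨X, lb, φ0, lv, ⟨?_, ?_, hlbi, hlbu, ?_⟩, ?_, ?_, ?_, ?_, ?_⟩
  · intro i z hz
    rw [hφ, hX1 i ⟨z, hz⟩]
  · intro i z hz z' hz' h
    rw [hφ, hφ, Prod.mk.injEq] at h
    exact hlbi i z hz z' hz' (hg (add_left_cancel h.2))
  · intro i i' hii z1 h1' z2 h2' z3 h3' z4 h4' h12 h34 heq
    have key : ∀ z3 ∈ J i', ∀ z4 ∈ J i', φ0 i z1 = φ0 i' z3 → φ0 i z2 = φ0 i' z4 → False := by
      intro z3 h3' z4 h4' e1 e2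
      have e1' := congrArg Prod.snd e1
      have e2' := congrArg Prod.snd e2
      rw [hφ, hφ] at e1' e2'
      simp only at e1' e2'
      have e3 : g (lb i z1) - g (lb i z2) = g (lb i' z3) - g (lb i' z4) := by
        have h5 : g (lb i z1) - g (lb i z2) =
            ((e (b i)).2 + g (lb i z1)) - ((e (b i)).2 + g (lb i z2)) := by ring
        rw [h5, e1', e2']
        ring
      have e4 := hg' _ _ _ _ (fun h => h12 (hlbi i z1 h1' z2 h2' h)) e3
      exact hii (hlbu i i' z1 h1' z3 h3' e1 e4.1)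
    rcases Sym2.eq_iff.1 heq with ⟨e1, e2⟩ | ⟨e1, e2⟩
    · exact key z3 h3' z4 h4' e1 e2
    · exact key z4 h4' z3 h3' e1 e2
  · intro x
    have hsub : univ.filter (fun i => X i = x) ⊆
        ((univ : Finset (ZMod m)).biUnion fun y =>
          univ.filter (fun i => (J i).Nonempty ∧ e (b i) = (x, y))) ∪
        univ.filter (fun i : Fin k => (⟨(i : ℕ) % q, Nat.mod_lt _ hq0⟩ : Fin q) = x) := by
      intro i hi
      rw [mem_filter] at hi
      rw [mem_union, mem_biUnion, mem_filter]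
      by_cases h : (J i).Nonempty
      · left
        refine ⟨(e (b i)).2, mem_univ _, ?_⟩
        rw [mem_filter]
        refine ⟨mem_univ _, h, ?_⟩
        rw [← hi.2, hX1 i h]
      · right
        refine ⟨mem_univ _, ?_⟩
        rw [← hX2 i h]
        exact hi.2
    refine (card_le_card hsub).trans ((card_union_le _ _).trans (Nat.add_le_add ?_
      (Slots_mod hq0 x)))
    refine card_biUnion_le.trans ?_
    have h2 : ∀ y ∈ (univ : Finset (ZMod m)),
        (univ.filter (fun i => (J i).Nonempty ∧ e (b i) = (x, y))).card ≤ L := by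
      intro y _
      by_cases h : ∃ p, e p = (x, y)
      · obtain ⟨p, hp⟩ := h
        refine le_trans (card_le_card fun i hi => ?_) (hb1 p)
        rw [mem_filter] at hi ⊢
        exact ⟨hi.1, hi.2.1, he (hi.2.2.trans hp.symm)⟩
      · have h3 : univ.filter (fun i => (J i).Nonempty ∧ e (b i) = (x, y)) = ∅ :=
          filter_eq_empty_iff.2 fun i _ hi => h ⟨_, hi.2⟩
        rw [h3, card_empty]
        exact Nat.zero_le _
    refine (sum_le_card_nsmul _ _ _ h2).trans (le_of_eq ?_)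
    rw [card_univ, ZMod.card, smul_eq_mul]
  · intro i z hz l
    have h2 : lv (X i) (lb i z) l = lev i z l := by
      rw [hX1 i ⟨z, hz⟩, hlv1, hlb]
      exact htn1 (b i) _ (hmem i z hz) l
    rw [h2]
    exact ⟨hlev2 i z l, hlev3 i z l, hlev1 i z l⟩
  · intro x l
    rw [← hsm]
    exact hsmle l x
  · have h2 : ∀ x, ∑ j, γ' * (lv x j 0 : ℝ) = sm 0 x := fun x => (hsm 0 x).symm
    simp only [h2]
    have h3 : (∑ x, sm 0 x) * m = ∑ y : Fin q × ZMod m, sm 0 y.1 := by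
      rw [Fintype.sum_prod_type, sum_mul]
      refine sum_congr rfl fun x _ => ?_
      simp only
      rw [sum_const, card_univ, ZMod.card, nsmul_eq_mul, mul_comm]
    have h4 : ∑ y ∈ univ.image e, sm 0 y.1 = ∑ i, g0 0 i := by
      rw [sum_image fun p _ p' _ h => he h]
      simp only [hsm1]
      exact sum_fiberwise _ _ _
    have h5 : ∑ y ∈ (univ.image e)ᶜ, sm 0 y.1 ≤ Tn * m * (L * (Vl 0 + R₁ * γ')) := by
      refine (sum_le_card_nsmul _ _ _ fun y _ => hsmle 0 y.1).trans (le_of_eq ?_)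
      rw [hYc, nsmul_eq_mul]
      push_cast
      ring
    rw [h3, ← sum_add_sum_compl (univ.image e), h4]
    exact add_le_add (sum_le_sum fun i _ => hg0le' 0 i) h5
  · have h2 : ∀ x, ∑ j, γ' * (lv x j 0 : ℝ) = sm 0 x := fun x => (hsm 0 x).symm
    simp only [h2]
    rcases hb2 with hb2 | ⟨M, hM1, hM2, hM3⟩
    · exact Or.inl (hall 0 _ (hc0 0) hb2)
    · refine Or.inr ⟨M, hM1, hall 0 M ((hc0 0).trans hM1.le) hM2, ?_⟩
      have hfull : ((univ.filter (fun p : Fin ((q - Tn) * m) =>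
          sm 0 (e p).1 < M / 2)).card : ℝ) ≤ k / L := by
        have hL0 : (0 : ℝ) < L := by exact_mod_cast hL
        rw [le_div_iff₀ hL0]
        have h3 : (univ.filter (fun p : Fin ((q - Tn) * m) => sm 0 (e p).1 < M / 2)).card * L ≤
            ∑ p ∈ univ.filter (fun p : Fin ((q - Tn) * m) => sm 0 (e p).1 < M / 2),
              (univ.filter (fun i => (J i).Nonempty ∧ b i = p)).card := by
          rw [← smul_eq_mul]
          refine card_nsmul_le_sum _ _ _ fun p hp => ?_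
          rw [mem_filter, hsm1] at hp
          by_contra hcon
          have := hM3 p (not_le.1 hcon)
          linarith [hp.2]
        have h4 : ∑ p ∈ univ.filter (fun p : Fin ((q - Tn) * m) => sm 0 (e p).1 < M / 2),
              (univ.filter (fun i => (J i).Nonempty ∧ b i = p)).card ≤
            ∑ p, (univ.filter (fun i : Fin k => b i = p)).card := by
          refine (sum_le_univ_sum_of_nonneg fun _ => Nat.zero_le _).trans
            (sum_le_sum fun p _ => card_le_card fun i hi => ?_)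
          rw [mem_filter] at hi ⊢
          exact ⟨hi.1, hi.2.2⟩
        have h5 : ∑ p, (univ.filter (fun i : Fin k => b i = p)).card = k := by
          have := card_eq_sum_card_fiberwise (s := (univ : Finset (Fin k))) (f := b)
            (t := univ) (fun i _ => mem_coe.2 (mem_univ _))
          rw [← this, card_univ, Fintype.card_fin]
        have h6 := h3.trans (h4.trans h5.le)
        exact_mod_cast h6
      have hA : (univ.filter (fun x => sm 0 x < M / 2)).card * m =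
          (univ.filter (fun y : Fin q × ZMod m => sm 0 y.1 < M / 2)).card := by
        have h3 : univ.filter (fun y : Fin q × ZMod m => sm 0 y.1 < M / 2) =
            (univ.filter (fun x => sm 0 x < M / 2)) ×ˢ (univ : Finset (ZMod m)) := by
          ext y
          rw [mem_product, mem_filter, mem_filter]
          exact ⟨fun h => ⟨⟨mem_univ _, h.2⟩, mem_univ _⟩, fun h => ⟨mem_univ _, h.1.2⟩⟩
        rw [h3, card_product, card_univ, ZMod.card]
      have hB : (univ.filter (fun y : Fin q × ZMod m => sm 0 y.1 < M / 2)).card ≤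
          (univ.filter (fun p : Fin ((q - Tn) * m) => sm 0 (e p).1 < M / 2)).card + Tn * m := by
        rw [← hYc]
        have h3 : univ.filter (fun y : Fin q × ZMod m => sm 0 y.1 < M / 2) ⊆
            (univ.filter (fun p : Fin ((q - Tn) * m) => sm 0 (e p).1 < M / 2)).image e ∪
              (univ.image e)ᶜ := by
          intro y hy
          rw [mem_filter] at hy
          rw [mem_union, mem_compl, mem_image]
          by_cases h : y ∈ univ.image e
          · left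
            obtain ⟨p, -, rfl⟩ := mem_image.1 h
            exact ⟨p, mem_filter.2 ⟨mem_univ _, hy.2⟩, rfl⟩
          · exact Or.inr h
        exact (card_le_card h3).trans ((card_union_le _ _).trans
          (Nat.add_le_add_right card_image_le _))
      have hC : ((univ.filter (fun x => sm 0 x < M / 2)).card : ℝ) * m ≤
          ((univ.filter (fun p : Fin ((q - Tn) * m) => sm 0 (e p).1 < M / 2)).card : ℝ) +
            Tn * m := by
        have h3 := hA.le.trans hB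
        exact_mod_cast h3
      have hD : (0 : ℝ) ≤ Tn * m := by positivity
      linarith

end MP_80c395_TP
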