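import Pool.Agent.Lib.MP_80c395_co_TQ.TreeD
import Pool.Agent.Lib.MP_80c395_co_TQ.Slots
import Pool.Agent.Lib.MP_80c395_co_TQ.Phi2
import Pool.Agent.Lib.MP_80c395_co_TQ.MkPar
import Pool.Agent.Lib.MP_80c395_co_TQ.Levels

/-!
# Project TQ: from decomposed trees to placed centres (assembly)

`M = q m`, `G = ZMod m` (`ZMod.card`), `R = L R₁`, `B = 4 / e^3`, `ε₂ = e^3 / 8`,
`δs = 2 ε₂ = e^3 / 4 ≤ e / 64`,
`κ₆ = L (4 / D₁ + R₁ γ)`, `Λ = m L + (5 m + 1)`.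
1. `ex_slots` with `γ' = γ`, `val i z = (ac, nb Z, nb C1, nb C2) / M` (`≤ 1` as all are
`≤ mm i ≤ M`),
   `Vl = (1/2 + μ, 4 / D₁, D / K, 2 D₁ / D)` (`dec_counts`; `∑ z ∈ Z, nb Z z ≤ 2 |Z|` is `sum_nb_Z`
   (S1Rank);
   `cZ, c1, c2` of `DecOK`).  `k ≤ 5 M ≤ L ((q - Tn) m)` by `hL` (`L ≥ 80`, `Tn ≤ q / 2`).
2. `s X j = 2 (1 + δs) γ lv X j 0`, `lev X = ∑ j, s X j`.
   `∑ X, lev X ≤ 2 (1 + δs) (∑ ∑ J, (ac / M + γ) + Tn m L (Vl 0 + R₁ γ)) / m`, so with `q m = M`,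
   `k ≤ 5 M`,
   `|J| ≤ R₁`, `Vl 0 + R₁ γ ≤ 1`:
   `(∑ lev) / q ≤ 2 (1 + δs) (∑ ∑ J, ac) / M^2 + 4 (5 R₁ γ + Tn L / q)`.
3. `T = 2 (∑ i, ∑ z ∈ Z \ J, ac) / M^2`, `l x = 2 (∑ i with X i = x, ∑ z ∈ J, cz) / M^2`,
   `ls = 2 (∑ i, ∑ z ∈ Z \ J, cz) / M^2`, `l0 = 2 (∑ i, dp) / M^2`.  By the second claim of
   `dec_counts`
   `(∑ lev) / q + T + ∑ l + ls + l0 ≤ (1 + δs) 2 (∑ mm) / M^2 + 20 R₁ γ + 4 Tn L / q ≤
   1 - 2 e + δs + 20 R₁ γ + 4 Tn L / q ≤ 1 - e - 2 (e / 16)`.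
   `levels` with `κ = e / 16`: case 1: `lev X ≤ 2 (1 + δs) (1/2 + μ + R₁ γ) ≤ 1 + e/8`; case 2 with
   `2 (1 + δs) M0`: the number of low clusters is at most
   `(k / L + 2 Tn m) / m ≤ 5 q / L + 2 Tn ≤ (e/16) q`.
4. `mk_par`: `P`, `ParOK P e B`; `htot` from 3. (`tb ≤ (∑ lev)/q + T + 2 (e/16)`).
5. `ex_phi2` with `b U = β U / 2` (`htot`: `m ∑ U, b U M = m (T q / 2) M = ∑ ∑ ac`), `l1 = l1c`,
`l2 = l2c`.
   `Jz`: at a host `u` the slots have different labels (`lbu`) and `X i = u.1`, so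
   `∑ nb Z ≤ ∑ j, γ lv u.1 j 1 M ≤ κ₆ M`; the same bounds for `C1`: `L (D / K + R₁ γ) M`, `C2`.
6. `A = ⟨k, mm, T, d, J, X, lb, φ⟩`, `bm U = β U / 2 + κ`.  `PlcOK`:
   * `acs`: `ac ≤ γ lv M = (s / 2) M / (1 + δs) ≤ (1 - ε₂) (s / 2) M`; `sγ`: `s ≥ 2 (1 + δs) γ ≥ γ`;
   * `vd`: `∑ j ∈ S i, s = ∑ z ∈ J i, s ≤ 2 (1 + δs) (1/2 + μ + R₁ γ) ≤ 1 + e/8`;
   * `zzd`: slots `κ₆ M`, the others `lz M`; `Zc`: `D₁ |Z| ≤ 2 M`;
   * `massE`: if `β V > 0` then `t V = tm` and `am W = al V W`; so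
   `bm V am W ≤ (t V - lev V)/2 al V W + 2 κ`
     (`lev V + β V ≤ t V`, `am ≤ 2`); the other terms are those of `mk_par`; `4 κ + ε₂ ≤ e^3`;
   * `massVm, massV0`: with `x = (∑ z ∈ J, ac) / M`: the left side is at most
   `(1/2 + μ - x) (2 - e)`
     (first claim of `dec_counts`), `pS = ∑ z ∈ J, s al / 2 ≤ (1 + δs) (x + R₁ γ) (2 - e)`; the sum
     is at most
     `(2 - e) (1/2 + μ + δs + 2 R₁ γ) ≤ 1 - e/4 ≤ 1 - ε₂`;
   * `Xc`: `k / q ≤ 5 m`.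
7. the last two claims: slots as in 5., the others by `ex_phi2`.
-/

set_option autoImplicit false

namespace MP_80c395_TP

open Finset

/-- the four values of a vertex -/
private noncomputable def vl {m : ℕ} (T : SimpleGraph (Fin m)) (d : Dec m) (M : ℝ) (z : Fin m)
    (l : Fin 4) : ℝ :=
  (![(ac d z : ℝ), (nb T d.Z z : ℝ), (nb T d.C1 z : ℝ), (nb T d.C2 z : ℝ)] l) / M

/-- bounds for the sums of the values -/
private noncomputable def Vv (μ D₁ D K : ℝ) (l : Fin 4) : ℝ :=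
  ![1 / 2 + μ, 4 / D₁, D / K, 2 * D₁ / D] l

private theorem all4 {Q : Fin 4 → Prop} (h0 : Q 0) (h1 : Q 1) (h2 : Q 2) (h3 : Q 3)
    (l : Fin 4) : Q l := by
  fin_cases l
  · exact h0
  · exact h1
  · exact h2
  · exact h3

private theorem nb_le_card {m : ℕ} (T : SimpleGraph (Fin m)) (A : Finset (Fin m)) (z : Fin m) :
    nb T A z ≤ m := by
  classical
  unfold nb
  refine (card_le_univ _).trans ?_
  rw [Fintype.card_fin]

private theorem vl_bd {m : ℕ} {T : SimpleGraph (Fin m)} {d : Dec m} {D₁ D K : ℕ}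
    (hd : DecOK T d D₁ D K) {M : ℝ} (hM : 0 < M) (hm : (m : ℝ) ≤ M) (z : Fin m) (l : Fin 4) :
    0 ≤ vl T d M z l ∧ vl T d M z l ≤ 1 := by
  have key : ∀ a : ℕ, a ≤ m → 0 ≤ (a : ℝ) / M ∧ (a : ℝ) / M ≤ 1 := by
    intro a ha
    have h1 : (a : ℝ) ≤ m := by exact_mod_cast ha
    exact ⟨by positivity, (div_le_one hM).2 (h1.trans hm)⟩
  unfold vl
  refine all4 (Q := fun l => 0 ≤ (![(ac d z : ℝ), (nb T d.Z z : ℝ), (nb T d.C1 z : ℝ),
    (nb T d.C2 z : ℝ)] l) / M ∧ (![(ac d z : ℝ), (nb T d.Z z : ℝ), (nb T d.C1 z : ℝ),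
    (nb T d.C2 z : ℝ)] l) / M ≤ 1) ?_ ?_ ?_ ?_ l
  · exact key _ (((dec_counts hd).2.2.1 z).trans (nb_le_card T _ z))
  · exact key _ (nb_le_card T _ z)
  · exact key _ (nb_le_card T _ z)
  · exact key _ (nb_le_card T _ z)

private theorem vl_sum {m : ℕ} {T : SimpleGraph (Fin m)} (hT : T.IsTree) {d : Dec m}
    {D₁ D K : ℕ} (hd : DecOK T d D₁ D K) {M μ : ℝ} (hM : 0 < M)
    (hm : (m : ℝ) ≤ (1 / 2 + μ) * M) (hm1 : (m : ℝ) ≤ M) (hD₁ : 1 ≤ D₁) (hD : 1 ≤ D)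
    (hK : 1 ≤ K) {J : Finset (Fin m)} (hJ : J ⊆ d.Z) (l : Fin 4) :
    ∑ z ∈ J, vl T d M z l ≤ Vv μ D₁ D K l := by
  have hD₁r : (0 : ℝ) < D₁ := by exact_mod_cast hD₁
  have hDr : (0 : ℝ) < D := by exact_mod_cast hD
  have hKr : (0 : ℝ) < K := by exact_mod_cast hK
  obtain ⟨c1, -, -, c4, c5⟩ := dec_counts hd
  have key : ∀ (f : Fin m → ℕ) (c : ℝ), ((∑ z ∈ d.Z, f z : ℕ) : ℝ) ≤ c * M →
      ∑ z ∈ J, (f z : ℝ) / M ≤ c := by
    intro f c hc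
    rw [← sum_div, div_le_iff₀ hM]
    refine le_trans ?_ hc
    rw [Nat.cast_sum]
    exact sum_le_sum_of_subset_of_nonneg hJ fun _ _ _ => Nat.cast_nonneg _
  unfold vl Vv
  refine all4 (Q := fun l => ∑ z ∈ J, (![(ac d z : ℝ), (nb T d.Z z : ℝ), (nb T d.C1 z : ℝ),
    (nb T d.C2 z : ℝ)] l) / M ≤ ![1 / 2 + μ, 4 / (D₁ : ℝ), (D : ℝ) / K, 2 * (D₁ : ℝ) / D] l)
    ?_ ?_ ?_ ?_ l
  · refine key (fun z => ac d z) _ (le_trans ?_ hm)
    exact_mod_cast (by omega : ∑ z ∈ d.Z, ac d z ≤ m)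
  · refine key (fun z => nb T d.Z z) _ ?_
    have h1 := sum_nb_Z hT d.Z
    have h2 := hd.cZ
    have h1r : ((∑ z ∈ d.Z, nb T d.Z z : ℕ) : ℝ) ≤ 2 * d.Z.card := by exact_mod_cast h1
    have h2r : (D₁ : ℝ) * d.Z.card ≤ 2 * m := by exact_mod_cast h2
    refine h1r.trans ?_
    show 2 * (d.Z.card : ℝ) ≤ 4 / (D₁ : ℝ) * M
    rw [div_mul_eq_mul_div, le_div_iff₀ hD₁r]
    nlinarith
  · refine key (fun z => nb T d.C1 z) _ ?_
    have h2 := hd.c1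
    have h1r : ((∑ z ∈ d.Z, nb T d.C1 z : ℕ) : ℝ) ≤ d.C1.card * D := by exact_mod_cast c4
    have h2r : (K : ℝ) * d.C1.card ≤ m := by exact_mod_cast h2
    refine h1r.trans ?_
    show (d.C1.card : ℝ) * D ≤ (D : ℝ) / K * M
    rw [div_mul_eq_mul_div, le_div_iff₀ hKr]
    nlinarith
  · refine key (fun z => nb T d.C2 z) _ ?_
    have h2 := hd.c2
    have h1r : ((∑ z ∈ d.Z, nb T d.C2 z : ℕ) : ℝ) ≤ d.C2.card * D₁ := by exact_mod_cast c5
    have h2r : (D : ℝ) * d.C2.card ≤ 2 * m := by exact_mod_cast h2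
    refine h1r.trans ?_
    show (d.C2.card : ℝ) * D₁ ≤ 2 * (D₁ : ℝ) / D * M
    rw [div_mul_eq_mul_div, le_div_iff₀ hDr]
    nlinarith

/-- fibres -/
private theorem fib {k q : ℕ} (X : Fin k → Fin q) (c : Fin k → ℝ) (g : Fin q → ℝ) :
    ∑ x, (∑ i ∈ univ.filter (fun i => X i = x), c i) * g x = ∑ i, c i * g (X i) := by
  rw [← sum_fiberwise univ X (fun i => c i * g (X i))]
  refine sum_congr rfl fun x _ => ?_
  rw [sum_mul]
  refine sum_congr rfl fun i hi => ?_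
  rw [(mem_filter.1 hi).2]

/-- the load of the slots of a host -/
private theorem slot_load {q m R k : ℕ} {mm : Fin k → ℕ} {J : ∀ i, Finset (Fin (mm i))}
    {X : Fin k → Fin q} {lb : ∀ i, Fin (mm i) → Fin R} {φ0 : ∀ i, Fin (mm i) → Fin q × ZMod m}
    (h : SlotOK mm J X lb φ0) (f : ∀ i, Fin (mm i) → ℝ) (g : Fin q → Fin R → ℝ)
    (hg : ∀ x j, 0 ≤ g x j) (hf : ∀ i, ∀ z ∈ J i, f i z ≤ g (X i) (lb i z))
    (u : Fin q × ZMod m) :
    ∑ i, ∑ z ∈ (J i).filter (fun z => φ0 i z = u), f i z ≤ ∑ j, g u.1 j := by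
  classical
  have h1 : ∑ i, ∑ z ∈ (J i).filter (fun z => φ0 i z = u), f i z ≤
      ∑ i, ∑ z ∈ (J i).filter (fun z => φ0 i z = u), g u.1 (lb i z) := by
    refine sum_le_sum fun i _ => sum_le_sum fun z hz => ?_
    obtain ⟨hz1, hz2⟩ := mem_filter.1 hz
    have h2 := hf i z hz1
    rw [← h.JX i z hz1, hz2] at h2
    exact h2
  refine h1.trans ?_
  rw [sum_sigma' univ (fun i => (J i).filter (fun z => φ0 i z = u))
    (fun i z => g u.1 (lb i z))]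
  have h3 : ∑ x ∈ univ.sigma (fun i => (J i).filter (fun z => φ0 i z = u)),
      g u.1 (lb x.1 x.2) = ∑ j ∈ (univ.sigma (fun i => (J i).filter (fun z => φ0 i z = u))).image
        (fun x => lb x.1 x.2), g u.1 j := by
    rw [sum_image]
    rintro ⟨i, z⟩ hx ⟨i', z'⟩ hx' hxx
    rw [mem_coe, mem_sigma] at hx hx'
    obtain ⟨hz1, hz2⟩ := mem_filter.1 hx.2
    obtain ⟨hz1', hz2'⟩ := mem_filter.1 hx'.2
    simp only at hz1 hz2 hz1' hz2' hxx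
    have hii := h.lbu i i' z hz1 z' hz1' (hz2.trans hz2'.symm) hxx
    subst hii
    rw [h.lbi i z hz1 z' hz1' hxx]
  rw [h3]
  exact sum_le_sum_of_subset_of_nonneg (subset_univ _) fun j _ _ => hg _ _

/-- slots and the other centres -/
private theorem split_load {k : ℕ} {mm : Fin k → ℕ} {H : Type} [DecidableEq H]
    {J Z : ∀ i, Finset (Fin (mm i))} (JZ : ∀ i, J i ⊆ Z i) {φ φ0 : ∀ i, Fin (mm i) → H}
    (hφ : ∀ i, ∀ z ∈ J i, φ i z = φ0 i z) (f : ∀ i, Fin (mm i) → ℝ) (u : H) :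
    ∑ i, ∑ z ∈ (Z i).filter (fun z => φ i z = u), f i z =
      ∑ i, ∑ z ∈ (J i).filter (fun z => φ0 i z = u), f i z +
        ∑ i, ∑ z ∈ (Z i \ J i).filter (fun z => φ i z = u), f i z := by
  rw [← sum_add_distrib]
  refine sum_congr rfl fun i _ => ?_
  rw [sum_filter, sum_filter, sum_filter, add_comm, ← sum_sdiff (JZ i)]
  congr 1
  refine sum_congr rfl fun z hz => ?_
  rw [hφ i z hz]

/-- the places of the slots -/
private theorem ep_slots {e γ μ M : ℝ} {L R₁ Am m D₁ D K q Tn : ℕ} [NeZero m]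
    (he : 0 < e) (he1 : e ≤ 1 / 4) (hL1 : 1 ≤ L) (hR1 : 1 ≤ R₁) (hγ : 0 < γ)
    (hAm : 1 / γ + 2 ≤ Am) (hm : 2 ^ (L * R₁ + 1) < m)
    (hTn : Tn = Fintype.card (Fin (L * R₁) → Fin 4 → Fin Am)) (hq : 0 < q)
    (hL : 5 / (L : ℝ) + 2 * Tn / q ≤ e / 16) (hTL : (Tn : ℝ) * L / q ≤ e / 64)
    (hRγ : R₁ * γ ≤ e / 200) (hμ0 : 0 ≤ μ) (hμ : μ ≤ e / 100)
    (hD₁ : 1 ≤ D₁) (hD : 1 ≤ D) (hK : 1 ≤ K) (hM : M = q * m)
    {k : ℕ} {mm : Fin k → ℕ} {T : ∀ i, SimpleGraph (Fin (mm i))} {d : ∀ i, Dec (mm i)}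
    {J : ∀ i, Finset (Fin (mm i))} (tree : ∀ i, (T i).IsTree)
    (dec : ∀ i, DecOK (T i) (d i) D₁ D K) (JZ : ∀ i, J i ⊆ (d i).Z)
    (JR : ∀ i, (J i).card ≤ R₁)
    (k_le : (k : ℝ) ≤ 5 * M) (m_le : ∀ i, (mm i : ℝ) ≤ (1 / 2 + μ) * M) :
    ∃ (X : Fin k → Fin q) (lb : ∀ i, Fin (mm i) → Fin (L * R₁))
      (φ0 : ∀ i, Fin (mm i) → Fin q × ZMod m) (lv : Fin q → Fin (L * R₁) → Fin 4 → ℕ),
      SlotOK mm J X lb φ0 ∧
      (∀ x, (univ.filter (fun i => X i = x)).card ≤ m * L + (5 * m + 1)) ∧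
      (∀ i, ∀ z ∈ J i, ∀ l, vl (T i) (d i) M z l ≤ γ * lv (X i) (lb i z) l ∧
        γ * lv (X i) (lb i z) l ≤ vl (T i) (d i) M z l + γ ∧ 1 ≤ lv (X i) (lb i z) l) ∧
      (∀ x l, ∑ j, γ * (lv x j l : ℝ) ≤ L * (Vv μ D₁ D K l + R₁ * γ)) ∧
      ((∑ x, ∑ j, γ * (lv x j 0 : ℝ)) / q ≤ (∑ i, ∑ z ∈ J i, (ac (d i) z : ℝ)) / M ^ 2 +
        5 * (e / 200) + e / 64) ∧
      ((∀ x, ∑ j, γ * (lv x j 0 : ℝ) ≤ 1 / 2 + μ + R₁ * γ) ∨
        ∃ M0 : ℝ, 0 < M0 ∧ (∀ x, ∑ j, γ * (lv x j 0 : ℝ) ≤ M0) ∧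
          ((univ.filter (fun x => ∑ j, γ * (lv x j 0 : ℝ) < M0 / 2)).card : ℝ) ≤
            e / 16 * q) := by
  have hqr : (0 : ℝ) < q := by exact_mod_cast hq
  have hm0 : 0 < m := Nat.pos_of_ne_zero (NeZero.ne m)
  have hmr : (0 : ℝ) < m := by exact_mod_cast hm0
  have hM0 : 0 < M := by rw [hM]; positivity
  have hLr : (0 : ℝ) < L := by exact_mod_cast hL1
  have hm1 : ∀ i, (mm i : ℝ) ≤ M := fun i => by
    have h1 : (1 / 2 + μ) * M ≤ 1 * M := mul_le_mul_of_nonneg_right (by linarith) hM0.le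
    have h2 := m_le i
    linarith
  have hTq0 : 0 ≤ 2 * (Tn : ℝ) / q := by positivity
  have hL0 : 0 ≤ 5 / (L : ℝ) := by positivity
  have hL10 : 10 ≤ L := by
    have h1 : 5 / (L : ℝ) ≤ 1 / 64 := by linarith
    rw [div_le_iff₀ hLr] at h1
    have h2 : (10 : ℝ) ≤ L := by linarith
    exact_mod_cast h2
  have hTq : 2 * Tn ≤ q := by
    have h1 : 2 * (Tn : ℝ) / q ≤ 1 := by linarith
    rw [div_le_one hqr] at h1
    exact_mod_cast h1
  have hk5 : k ≤ 5 * (q * m) := by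
    rw [hM] at k_le
    exact_mod_cast k_le
  have hk : k ≤ L * ((q - Tn) * m) := by
    have h1 : q ≤ 2 * (q - Tn) := by omega
    calc k ≤ 5 * (q * m) := hk5
      _ ≤ 5 * ((2 * (q - Tn)) * m) := by gcongr
      _ = 10 * ((q - Tn) * m) := by ring
      _ ≤ L * ((q - Tn) * m) := by gcongr
  have hTq1 : Tn < q := by omega
  have hVv0 : ∀ l, 0 ≤ Vv μ D₁ D K l := by
    unfold Vv
    refine all4 ?_ ?_ ?_ ?_
    · show 0 ≤ 1 / 2 + μ
      linarith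
    · show 0 ≤ 4 / (D₁ : ℝ)
      positivity
    · show 0 ≤ (D : ℝ) / K
      positivity
    · show 0 ≤ 2 * (D₁ : ℝ) / D
      positivity
  obtain ⟨X, lb, φ0, lv, hS, hXc, hlv, hsum, htotal, hcase⟩ := ex_slots L R₁ Am hL1 hR1 γ hγ hAm
    q m hm Tn hTn hTq1 mm J (fun i z l => vl (T i) (d i) M z l) hk JR
    (fun i z l => (vl_bd (dec i) hM0 (hm1 i) z l).1)
    (fun i z l => (vl_bd (dec i) hM0 (hm1 i) z l).2) (Vv μ D₁ D K) hVv0
    (fun i l => vl_sum (tree i) (dec i) hM0 (m_le i) (hm1 i) hD₁ hD hK (JZ i) l)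
  have hV0 : Vv μ D₁ D K 0 = 1 / 2 + μ := rfl
  rw [hV0] at hcase htotal
  have hV1 : 1 / 2 + μ + R₁ * γ ≤ 1 := by linarith
  have hRγ0 : 0 ≤ (R₁ : ℝ) * γ := by positivity
  refine ⟨X, lb, φ0, lv, hS, ?_, hlv, hsum, ?_, ?_⟩
  · intro x
    refine (le_of_eq (by congr!)).trans ((hXc x).trans ?_)
    have h1 : k / q ≤ 5 * m := by
      refine Nat.div_le_of_le_mul ?_
      calc k ≤ 5 * (q * m) := hk5
        _ = q * (5 * m) := by ring
    omega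
  · rw [div_le_iff₀ hqr]
    have h1 : ∑ i, ∑ z ∈ J i, (vl (T i) (d i) M z 0 + γ) ≤
        (∑ i, ∑ z ∈ J i, (ac (d i) z : ℝ)) / M + 5 * M * (R₁ * γ) := by
      have h2 : ∀ i, ∑ z ∈ J i, (vl (T i) (d i) M z 0 + γ) ≤
          (∑ z ∈ J i, (ac (d i) z : ℝ)) / M + R₁ * γ := by
        intro i
        rw [sum_add_distrib, sum_const, nsmul_eq_mul, sum_div]
        have h3 : ((J i).card : ℝ) * γ ≤ R₁ * γ := by
          refine mul_le_mul_of_nonneg_right ?_ hγ.le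
          exact_mod_cast JR i
        have h4 : ∑ z ∈ J i, vl (T i) (d i) M z 0 = ∑ z ∈ J i, (ac (d i) z : ℝ) / M := rfl
        rw [h4]
        linarith
      refine (sum_le_sum fun i _ => h2 i).trans ?_
      rw [sum_add_distrib, ← sum_div, sum_const, card_univ, Fintype.card_fin, nsmul_eq_mul]
      have h5 : (k : ℝ) * (R₁ * γ) ≤ 5 * M * (R₁ * γ) := mul_le_mul_of_nonneg_right k_le hRγ0
      linarith
    have h2 : (Tn : ℝ) * m * (L * (1 / 2 + μ + R₁ * γ)) ≤ e / 64 * M := by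
      rw [div_le_iff₀ hqr] at hTL
      have h3 : (L : ℝ) * (1 / 2 + μ + R₁ * γ) ≤ L * 1 := mul_le_mul_of_nonneg_left hV1 hLr.le
      calc (Tn : ℝ) * m * (L * (1 / 2 + μ + R₁ * γ)) ≤ (Tn : ℝ) * m * (L * 1) :=
            mul_le_mul_of_nonneg_left h3 (by positivity)
        _ = (Tn * L) * m := by ring
        _ ≤ (e / 64 * q) * m := mul_le_mul_of_nonneg_right hTL hmr.le
        _ = e / 64 * M := by rw [hM]; ring
    have h3 : 5 * M * (R₁ * γ) ≤ 5 * M * (e / 200) :=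
      mul_le_mul_of_nonneg_left hRγ (by positivity)
    have h4 : (∑ x, ∑ j, γ * (lv x j 0 : ℝ)) * m ≤
        (∑ i, ∑ z ∈ J i, (ac (d i) z : ℝ)) / M + 5 * M * (e / 200) + e / 64 * M := by
      have h5 := htotal
      linarith
    have h6 : (((∑ i, ∑ z ∈ J i, (ac (d i) z : ℝ)) / M ^ 2 + 5 * (e / 200) + e / 64) * q) * m =
        (∑ i, ∑ z ∈ J i, (ac (d i) z : ℝ)) / M + 5 * M * (e / 200) + e / 64 * M := by
      have h7 : (∑ i, ∑ z ∈ J i, (ac (d i) z : ℝ)) / M ^ 2 * M =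
          (∑ i, ∑ z ∈ J i, (ac (d i) z : ℝ)) / M := by
        field_simp
      have h8 : (((∑ i, ∑ z ∈ J i, (ac (d i) z : ℝ)) / M ^ 2 + 5 * (e / 200) + e / 64) * q) * m =
        (∑ i, ∑ z ∈ J i, (ac (d i) z : ℝ)) / M ^ 2 * (q * m) + 5 * (q * m) * (e / 200) +
          e / 64 * (q * m) := by ring
      rw [h8, ← hM, h7]
    rw [← h6] at h4
    exact le_of_mul_le_mul_right h4 hmr
  · rcases hcase with h | ⟨M0, h1, h2, h3⟩
    · exact Or.inl h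
    · refine Or.inr ⟨M0, by linarith, h2, ?_⟩
      refine (le_of_eq (by congr!)).trans (le_of_mul_le_mul_right (h3.trans ?_) hmr)
      have h4 : (k : ℝ) / L ≤ 5 / L * q * m := by
        rw [div_le_iff₀ hLr]
        have h5 : 5 / (L : ℝ) * q * m * L = 5 * (q * m) := by field_simp
        rw [h5, ← hM]
        exact k_le
      have h6 : 2 * (Tn : ℝ) * m = 2 * Tn / q * q * m := by field_simp
      rw [h6]
      have h7 : (5 / (L : ℝ) + 2 * Tn / q) * (q * m) ≤ e / 16 * (q * m) :=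
        mul_le_mul_of_nonneg_right hL (by positivity)
      linarith

private theorem e3_bd {e : ℝ} (he : 0 < e) (he1 : e ≤ 1 / 4) :
    0 < e ^ 3 ∧ e ^ 3 ≤ e / 16 := by
  refine ⟨by positivity, ?_⟩
  have h1 : e * e ≤ 1 / 16 := by nlinarith
  have h2 : e ^ 3 = e * (e * e) := by ring
  rw [h2]
  nlinarith

/-- the numbers -/
private theorem ep_par {e μ r : ℝ} {q R k : ℕ} (he : 0 < e) (he1 : e ≤ 1 / 4) (hq : 0 < q)
    (hμ0 : 0 ≤ μ) (hμ : μ ≤ e / 100) (hr0 : 0 ≤ r) (hr : r ≤ e / 200)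
    (g : Fin q → Fin R → ℝ) (hg : ∀ x j, 0 ≤ g x j) (X : Fin k → Fin q)
    {sJ sm cm dd : ℝ} {cJ : Fin k → ℝ} (hsJ : 0 ≤ sJ) (hsm : 0 ≤ sm) (hcm : 0 ≤ cm)
    (hdd : 0 ≤ dd) (hcJ : ∀ i, 0 ≤ cJ i)
    (h1 : (∑ x, ∑ j, g x j) / q ≤ sJ + 5 * (e / 200) + e / 64)
    (h2 : 2 * (sJ + sm + ∑ i, cJ i + cm + dd) ≤ 1 - 2 * e)
    (hcase : (∀ x, ∑ j, g x j ≤ 1 / 2 + μ + r) ∨
        ∃ M0 : ℝ, 0 < M0 ∧ (∀ x, ∑ j, g x j ≤ M0) ∧
          ((univ.filter (fun x => ∑ j, g x j < M0 / 2)).card : ℝ) ≤ e / 16 * q) :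
    ∃ (P : Par q R) (β : Fin q → ℝ), ParOK P e (4 / e ^ 3) ∧
      (∀ x j, P.s x j = 2 * (1 + e ^ 3 / 4) * g x j) ∧ (∀ x, 0 ≤ β x ∧ β x ≤ 1) ∧
      ∑ x, β x = 2 * sm * q ∧
      (∀ V W, β V / 2 * P.am W + β W / 2 * P.am V + 2 * dd * P.S0 V W +
        ∑ i, cJ i * (P.SX (X i) V W + P.SX (X i) W V) + cm * (P.Sm V W + P.Sm W V) ≤
        P.pf V W - e ^ 3) ∧
      ∀ x (S : Finset (Fin R)), ∑ j ∈ S, P.s x j ≤ 1 + e / 8 → P.Vd (4 / e ^ 3) x S := by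
  obtain ⟨e30, e31⟩ := e3_bd he he1
  have hqr : (0 : ℝ) < q := by exact_mod_cast hq
  set c : ℝ := 2 * (1 + e ^ 3 / 4) with hc
  have hc0 : 0 < c := by positivity
  have hlevs : ∀ x, ∑ j, c * g x j = c * ∑ j, g x j := fun x => (mul_sum _ _ _).symm
  set lev : Fin q → ℝ := fun x => ∑ j, c * g x j with hlev
  have hlev0 : ∀ x, 0 ≤ lev x := fun x => sum_nonneg fun j _ => mul_nonneg hc0.le (hg x j)
  have hsumlev : (∑ x, lev x) / q = c * ((∑ x, ∑ j, g x j) / q) := by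
    rw [hlev, sum_congr rfl fun x _ => hlevs x, ← mul_sum, mul_div_assoc]
  have hsc : 0 ≤ ∑ i, cJ i := sum_nonneg fun i _ => hcJ i
  have hlevq : (∑ x, lev x) / q ≤ 2 * sJ + 2 * (e ^ 3 / 4) * sJ + 4 * (5 * (e / 200) + e / 64) := by
    rw [hsumlev]
    have h3 : c * ((∑ x, ∑ j, g x j) / q) ≤ c * (sJ + (5 * (e / 200) + e / 64)) :=
      mul_le_mul_of_nonneg_left (by linarith) hc0.le
    have h4 : c * (5 * (e / 200) + e / 64) ≤ 4 * (5 * (e / 200) + e / 64) := by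
      refine mul_le_mul_of_nonneg_right ?_ (by linarith)
      rw [hc]
      linarith
    have h5 : c * (sJ + (5 * (e / 200) + e / 64)) =
        2 * sJ + 2 * (e ^ 3 / 4) * sJ + c * (5 * (e / 200) + e / 64) := by
      rw [hc]
      ring
    linarith
  have hsJ1 : 2 * (e ^ 3 / 4) * sJ ≤ e / 64 := by
    have h3 : 2 * sJ ≤ 1 := by linarith
    have h4 : (e ^ 3 / 4) * (2 * sJ) ≤ (e ^ 3 / 4) * 1 :=
      mul_le_mul_of_nonneg_left h3 (by positivity)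
    linarith
  have htot0 : (∑ x, lev x) / q + 2 * sm + 2 * (e / 16) + (2 * (∑ i, cJ i) + 2 * cm + 2 * dd) ≤
      1 - e := by linarith
  have hcond : (∀ x, lev x ≤ 1 + e / 8) ∨ ∃ M0 : ℝ, 0 < M0 ∧ (∀ x, lev x ≤ M0) ∧
      ((univ.filter (fun x => lev x < M0 / 2)).card : ℝ) ≤ e / 16 * q := by
    rcases hcase with h | ⟨M0, a1, a2, a3⟩
    · left
      intro x
      have h3 : lev x ≤ c * (1 / 2 + μ + r) := by
        rw [hlev]
        simp only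
        rw [hlevs]
        exact mul_le_mul_of_nonneg_left (h x) hc0.le
      have h4 : c * (1 / 2 + μ + r) = 1 + e ^ 3 / 4 + c * (μ + r) := by
        rw [hc]
        ring
      have h5 : c * (μ + r) ≤ 4 * (μ + r) := by
        refine mul_le_mul_of_nonneg_right ?_ (by linarith)
        rw [hc]
        linarith
      linarith
    · right
      refine ⟨c * M0, by positivity, ?_, ?_⟩
      · intro x
        rw [hlev]
        simp only
        rw [hlevs]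
        exact mul_le_mul_of_nonneg_left (a2 x) hc0.le
      · refine le_trans ?_ a3
        have h3 : univ.filter (fun x => lev x < c * M0 / 2) =
            univ.filter (fun x => ∑ j, g x j < M0 / 2) := by
          refine filter_congr fun x _ => ?_
          rw [hlev]
          simp only
          rw [hlevs, mul_div_assoc]
          exact mul_lt_mul_iff_right₀ hc0
        rw [h3]
  obtain ⟨t, β, tm, tb, b1, b2, b3, b4, b5, b6, b7⟩ := levels hq e (e / 16) he he1 (by linarith)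
    (by linarith) lev hlev0 (2 * sm) (by linarith) (by linarith)
    (by
      rcases hcond with h | ⟨M0, a1, a2, a3⟩
      · exact Or.inl h
      · exact Or.inr ⟨M0, a1, a2, (le_of_eq (by congr!)).trans a3⟩)
  have hl : ∑ x, 2 * (∑ i ∈ univ.filter (fun i => X i = x), cJ i) = 2 * ∑ i, cJ i := by
    rw [← mul_sum]
    have h3 := fib X cJ (fun _ => 1)
    simp only [mul_one] at h3
    rw [h3]
  obtain ⟨P, hP, hPs, p1, p2, p3⟩ := mk_par e he he1 hq (fun x j => c * g x j)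
    (fun x j => mul_nonneg hc0.le (hg x j)) t tm tb
    (fun x => 2 * (∑ i ∈ univ.filter (fun i => X i = x), cJ i)) (2 * cm) (2 * dd) b5 b3
    (fun x => (b1 x).2.2.2)
    (fun x => mul_nonneg zero_le_two (sum_nonneg fun i _ => hcJ i)) (by linarith) (by linarith)
    (by rw [hl]; linarith) b7 (fun x => by
      have h3 := b1 x
      have h4 : lev x ≤ t x := by linarith [h3.1, h3.2.2.1]
      exact h4)
  have hPs' : ∀ x j, P.s x j = c * g x j := fun x j => by rw [hPs]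
  refine ⟨P, β, hP, hPs', fun x => ⟨(b1 x).1, (b1 x).2.1⟩, b4, ?_, fun x S hS => p3 x S (by
    simp only [hPs'] at hS
    exact hS)⟩
  intro V W
  have h3 := p2 V W
  have hal : ∀ x y, 0 ≤ P.al x y := fun x y => he.le.trans (hP.al_lo x y)
  have h4 : ∀ V W, β V / 2 * P.am W ≤ (t V - ∑ j, c * g V j) / 2 * P.al V W := by
    intro V W
    have h5 := b1 V
    have h6 : 0 ≤ t V - lev V - β V := by linarith [h5.2.2.1]
    have h7 : 0 ≤ (t V - lev V) / 2 := by linarith [h5.1]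
    have h9 : (t V - ∑ j, c * g V j) = t V - lev V := rfl
    rw [h9]
    rcases lt_or_eq_of_le h5.1 with h | h
    · rw [← p1 V W (b2 V h)]
      exact mul_le_mul_of_nonneg_right (by linarith) (hal V W)
    · rw [← h]
      have h8 := mul_nonneg h7 (hal V W)
      linarith
  have h5 := fib X cJ (fun x => P.SX x V W + P.SX x W V)
  have h6 : ∑ x, 2 * (∑ i ∈ univ.filter (fun i => X i = x), cJ i) *
      ((P.SX x V W + P.SX x W V) / 2) = ∑ i, cJ i * (P.SX (X i) V W + P.SX (X i) W V) := by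
    rw [← h5]
    refine sum_congr rfl fun x _ => ?_
    ring
  rw [h6] at h3
  have h7 := h4 V W
  have h8 := h4 W V
  linarith

theorem ex_plc (e κ κ₄ δ₅ γh l1 l2 lz l1c l2c μ γ : ℝ) (L R₁ Am m D₁ D K q Tn : ℕ) [NeZero m]
    (he : 0 < e) (he1 : e ≤ 1 / 4) (hL1 : 1 ≤ L) (hR1 : 1 ≤ R₁) (hγ : 0 < γ)
    (hAm : 1 / γ + 2 ≤ Am) (hm : 2 ^ (L * R₁ + 1) < m)
    (hTn : Tn = Fintype.card (Fin (L * R₁) → Fin 4 → Fin Am)) (hq : 0 < q)
    (hL : 5 / (L : ℝ) + 2 * Tn / q ≤ e / 16) (hTL : (Tn : ℝ) * L / q ≤ e / 64)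
    (hRγ : R₁ * γ ≤ e / 200) (hμ0 : 0 ≤ μ) (hμ : μ ≤ e / 100) (hκ0 : 0 < κ)
    (hκ : κ ≤ e ^ 3 / 32) (hδ : 0 < δ₅) (hγh : 0 ≤ γh) (hγδ : 2 * γh ≤ δ₅) (hγκ : 2 * γh ≤ κ)
    (hD₁ : 1 ≤ D₁) (hD : 1 ≤ D) (hK : 1 ≤ K)
    (hl1c : 2 / (K : ℝ) ≤ l1c) (hl2c : 4 / (D : ℝ) ≤ l2c) (hlz : 6 / (D₁ : ℝ) ≤ lz)
    (hnum : 2 / (D₁ : ℝ) + 4 * (L * (4 / D₁ + R₁ * γ)) + 2 * lz + 10 * D / (K * l1c) +
      20 * D₁ / (D * l2c) + 80 / (D₁ * lz) ≤ κ / 8)
    (hN : (2 * ((m * L + (5 * m + 1) : ℕ) : ℝ) + 2 * m) / δ₅ + m + 20 ≤ κ / 16 * (q * m))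
    (hN1 : 2 * (D₁ : ℝ) ≤ q * m)
    (h5 : L * (4 / D₁ + R₁ * γ) + lz ≤ κ₄) (h5' : 2 / (D₁ : ℝ) ≤ κ₄)
    (h6 : L * (D / K + R₁ * γ) + l1c ≤ l1) (h7 : L * (2 * D₁ / D + R₁ * γ) + l2c ≤ l2)
    (k : ℕ) (mm : Fin k → ℕ) (T : ∀ i, SimpleGraph (Fin (mm i))) (d : ∀ i, Dec (mm i))
    (J : ∀ i, Finset (Fin (mm i))) (tree : ∀ i, (T i).IsTree)
    (dec : ∀ i, DecOK (T i) (d i) D₁ D K) (JZ : ∀ i, J i ⊆ (d i).Z)
    (Jc : ∀ i, ∀ x, x ∉ J i → nb (T i) (J i) x ≤ 1) (JR : ∀ i, (J i).card ≤ R₁)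
    (acm : ∀ i, ∀ z, z ∉ J i → (nb (T i) univ z : ℝ) ≤ γh * (q * m))
    (k_le : (k : ℝ) ≤ 5 * (q * m)) (m_le : ∀ i, (mm i : ℝ) ≤ (1 / 2 + μ) * (q * m))
    (htot : 2 * (∑ i, (mm i : ℝ)) / (q * m) ^ 2 ≤ 1 - 2 * e) :
    ∃ (X : Fin k → Fin q) (lb : ∀ i, Fin (mm i) → Fin (L * R₁))
      (φ : ∀ i, Fin (mm i) → Fin q × ZMod m) (P : Par q (L * R₁)) (bm : Fin q → ℝ),
      ParOK P e (4 / e ^ 3) ∧
      PlcOK (⟨k, mm, T, d, J, X, lb, φ⟩ : Plc q (L * R₁) (ZMod m)) P D₁ D K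
        (m * L + (5 * m + 1)) (4 / e ^ 3) (e ^ 3 / 8) γ κ₄ δ₅ γh bm ∧
      (∀ u, ∑ i, ∑ z ∈ (d i).Z.filter (fun z => φ i z = u), (nb (T i) (d i).C1 z : ℝ) ≤
        l1 * (q * m)) ∧
      ∀ u, ∑ i, ∑ z ∈ (d i).Z.filter (fun z => φ i z = u), (nb (T i) (d i).C2 z : ℝ) ≤
        l2 * (q * m) := by
  obtain ⟨M, hMdef⟩ : ∃ M : ℝ, M = (q : ℝ) * m := ⟨_, rfl⟩
  rw [← hMdef] at hN hN1 k_le htot
  simp only [← hMdef] at acm m_le ⊢
  have hqr : (0 : ℝ) < q := by exact_mod_cast hq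
  have hm0 : 0 < m := Nat.pos_of_ne_zero (NeZero.ne m)
  have hmr : (0 : ℝ) < m := by exact_mod_cast hm0
  have hM0 : 0 < M := by rw [hMdef]; positivity
  have hM2 : 0 < M ^ 2 := by positivity
  obtain ⟨e30, e31⟩ := e3_bd he he1
  have hRγ0 : 0 ≤ (R₁ : ℝ) * γ := by positivity
  have hm1 : ∀ i, (mm i : ℝ) ≤ M := fun i => by
    have h1 : (1 / 2 + μ) * M ≤ 1 * M := mul_le_mul_of_nonneg_right (by linarith) hM0.le
    have h2 := m_le i
    linarith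
  obtain ⟨X, lb, φ0, lv, hS, hXc, hlv, hsum, hG, hcase⟩ := ep_slots he he1 hL1 hR1 hγ hAm hm hTn
    hq hL hTL hRγ hμ0 hμ hD₁ hD hK hMdef tree dec JZ JR k_le m_le
  have hcnt : ∀ i, ∑ z ∈ J i, (ac (d i) z : ℝ) + ∑ z ∈ (d i).Z \ J i, (ac (d i) z : ℝ) +
      ∑ z ∈ J i, (cz (d i) z : ℝ) + ∑ z ∈ (d i).Z \ J i, (cz (d i) z : ℝ) + dp (d i) ≤ mm i := by
    intro i
    have h1 := (dec_counts (dec i)).2.1
    rw [sum_add_distrib, ← sum_sdiff (JZ i), ← sum_sdiff (JZ i)] at h1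
    have h2 : ∑ z ∈ J i, ac (d i) z + ∑ z ∈ (d i).Z \ J i, ac (d i) z +
      ∑ z ∈ J i, cz (d i) z + ∑ z ∈ (d i).Z \ J i, cz (d i) z + dp (d i) ≤ mm i := by omega
    exact_mod_cast h2
  have hcnt1 : ∀ i, ∑ z ∈ J i, (ac (d i) z : ℝ) + (∑ z ∈ (d i).Z \ J i, (ac (d i) z : ℝ) +
      n0 (d i) + nr (d i)) ≤ mm i := by
    intro i
    have h1 := (dec_counts (dec i)).1
    rw [← sum_sdiff (JZ i)] at h1
    have h2 : ∑ z ∈ J i, ac (d i) z + (∑ z ∈ (d i).Z \ J i, ac (d i) z +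
      n0 (d i) + nr (d i)) ≤ mm i := by omega
    exact_mod_cast h2
  have hacnb : ∀ i z, (ac (d i) z : ℝ) ≤ nb (T i) univ z := fun i z => by
    exact_mod_cast (dec_counts (dec i)).2.2.1 z
  have hall : (∑ i, ∑ z ∈ J i, (ac (d i) z : ℝ)) +
      (∑ i, ∑ z ∈ (d i).Z \ J i, (ac (d i) z : ℝ)) + (∑ i, ∑ z ∈ J i, (cz (d i) z : ℝ)) +
      (∑ i, ∑ z ∈ (d i).Z \ J i, (cz (d i) z : ℝ)) + (∑ i, (dp (d i) : ℝ)) ≤
      ∑ i, (mm i : ℝ) := by
    rw [← sum_add_distrib, ← sum_add_distrib, ← sum_add_distrib, ← sum_add_distrib]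
    exact sum_le_sum fun i _ => hcnt i
  have nn : ∀ (f : ∀ i, Fin (mm i) → ℕ) (Z : ∀ i, Finset (Fin (mm i))),
      0 ≤ ∑ i, ∑ z ∈ Z i, (f i z : ℝ) := fun f Z =>
    sum_nonneg fun i _ => sum_nonneg fun z _ => Nat.cast_nonneg _
  have h2 : 2 * ((∑ i, ∑ z ∈ J i, (ac (d i) z : ℝ)) / M ^ 2 +
      (∑ i, ∑ z ∈ (d i).Z \ J i, (ac (d i) z : ℝ)) / M ^ 2 +
      ∑ i, (∑ z ∈ J i, (cz (d i) z : ℝ)) / M ^ 2 +
      (∑ i, ∑ z ∈ (d i).Z \ J i, (cz (d i) z : ℝ)) / M ^ 2 + (∑ i, (dp (d i) : ℝ)) / M ^ 2) ≤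
      1 - 2 * e := by
    refine le_trans ?_ htot
    rw [← sum_div, ← add_div, ← add_div, ← add_div, ← add_div, mul_div_assoc]
    exact mul_le_mul_of_nonneg_left (div_le_div_of_nonneg_right hall hM2.le) zero_le_two
  obtain ⟨P, β, hP, hPs, hβ, hβs, hmass, hVd⟩ := ep_par he he1 hq hμ0 hμ hRγ0 hRγ
    (fun x j => γ * (lv x j 0 : ℝ)) (fun x j => by positivity) X
    (div_nonneg (nn _ _) hM2.le) (div_nonneg (nn _ _) hM2.le) (div_nonneg (nn _ _) hM2.le)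
    (div_nonneg (sum_nonneg fun i _ => Nat.cast_nonneg _) hM2.le)
    (fun i => div_nonneg (sum_nonneg fun z _ => Nat.cast_nonneg _) hM2.le) hG h2 hcase
  -- the loads of the slots
  have hload : ∀ (l : Fin 4) (f : ∀ i, Fin (mm i) → ℝ),
      (∀ i, ∀ z ∈ J i, f i z = vl (T i) (d i) M z l * M) → ∀ u,
      ∑ i, ∑ z ∈ (J i).filter (fun z => φ0 i z = u), f i z ≤
        L * (Vv μ D₁ D K l + R₁ * γ) * M := by
    intro l f hf u
    refine (slot_load hS f (fun x j => γ * (lv x j l : ℝ) * M) (fun x j => by positivity)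
      (fun i z hz => ?_) u).trans ?_
    · rw [hf i z hz]
      exact mul_le_mul_of_nonneg_right (hlv i z hz l).1 hM0.le
    · rw [← sum_mul]
      exact mul_le_mul_of_nonneg_right (hsum u.1 l) hM0.le
  have hl1' : ∀ u, ∑ i, ∑ z ∈ (J i).filter (fun z => φ0 i z = u), (nb (T i) (d i).Z z : ℝ) ≤
      L * (4 / D₁ + R₁ * γ) * M := hload 1 _ (fun i z _ => by
    show _ = (nb (T i) (d i).Z z : ℝ) / M * M
    rw [div_mul_cancel₀ _ hM0.ne'])
  have hl2' : ∀ u, ∑ i, ∑ z ∈ (J i).filter (fun z => φ0 i z = u), (nb (T i) (d i).C1 z : ℝ) ≤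
      L * (D / K + R₁ * γ) * M := hload 2 _ (fun i z _ => by
    show _ = (nb (T i) (d i).C1 z : ℝ) / M * M
    rw [div_mul_cancel₀ _ hM0.ne'])
  have hl3' : ∀ u, ∑ i, ∑ z ∈ (J i).filter (fun z => φ0 i z = u), (nb (T i) (d i).C2 z : ℝ) ≤
      L * (2 * D₁ / D + R₁ * γ) * M := hload 3 _ (fun i z _ => by
    show _ = (nb (T i) (d i).C2 z : ℝ) / M * M
    rw [div_mul_cancel₀ _ hM0.ne'])
  have hcard : Fintype.card (ZMod m) = m := ZMod.card m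
  have hMG : M = (q : ℝ) * Fintype.card (ZMod m) := by rw [hcard, hMdef]
  have hκ6 : 0 ≤ L * (4 / (D₁ : ℝ) + R₁ * γ) := by positivity
  obtain ⟨φ, f1, f2, f3, f4, f5, f6, f7, f8, f9, f10⟩ := ex_phi2 k mm T d J X φ0
    (fun x => β x / 2) D₁ D K (m * L + (5 * m + 1)) M κ δ₅ γh (L * (4 / D₁ + R₁ * γ)) l1c l2c lz
    hMG tree dec JZ (fun i x _ hx => Jc i x hx) hS.JX hS.inj hS.dst hl1' k_le hm1
    (fun i z hz => (hacnb i z).trans (acm i z (mem_sdiff.1 hz).2))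
    (fun x => (le_of_eq (by congr!)).trans (hXc x)) (fun U => by
      have h3 := (hβ U).1
      positivity) (fun U => by
      have h3 := (hβ U).2
      show β U / 2 ≤ 1
      linarith) (by
      refine le_of_eq ?_
      rw [hcard]
      have h3 : ∑ U, β U / 2 * M = (∑ U, β U) * (M / 2) := by
        rw [sum_mul]
        refine sum_congr rfl fun U _ => ?_
        ring
      rw [h3, hβs]
      have h4 : (m : ℝ) * (2 * ((∑ i, ∑ z ∈ (d i).Z \ J i, (ac (d i) z : ℝ)) / M ^ 2) * q *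
          (M / 2)) = (∑ i, ∑ z ∈ (d i).Z \ J i, (ac (d i) z : ℝ)) / M ^ 2 * ((q * m) * M) := by
        ring
      rw [h4, ← hMdef]
      field_simp) hD₁ hD hK hκ0 (by linarith) hδ hγh hγδ hγκ hκ6 hl1c hl2c hlz hnum
    (by rw [hcard]; exact hN) hN1
  have hSJs : ∀ i, ∑ z ∈ J i, P.s (X i) (lb i z) ≤
      2 * (1 + e ^ 3 / 4) * ((∑ z ∈ J i, (ac (d i) z : ℝ)) / M + R₁ * γ) := by
    intro i
    rw [sum_congr rfl fun z _ => hPs (X i) (lb i z), ← mul_sum]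
    refine mul_le_mul_of_nonneg_left ?_ (by positivity)
    have h3 : ∀ z ∈ J i, γ * (lv (X i) (lb i z) 0 : ℝ) ≤ (ac (d i) z : ℝ) / M + γ :=
      fun z hz => (hlv i z hz 0).2.1
    refine (sum_le_sum h3).trans ?_
    rw [sum_add_distrib, sum_const, nsmul_eq_mul, ← sum_div]
    have h4 : ((J i).card : ℝ) * γ ≤ R₁ * γ := by
      refine mul_le_mul_of_nonneg_right ?_ hγ.le
      exact_mod_cast JR i
    linarith
  have himg : ∀ i (h : Fin (L * R₁) → ℝ), ∑ j ∈ (J i).image (lb i), h j =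
      ∑ z ∈ J i, h (lb i z) := by
    intro i h
    rw [sum_image]
    intro z hz z' hz' hzz
    exact hS.lbi i z hz z' hz' hzz
  have hJac : ∀ i, (∑ z ∈ J i, (ac (d i) z : ℝ)) / M ≤ 1 / 2 + μ := by
    intro i
    rw [div_le_iff₀ hM0]
    have h3 := hcnt1 i
    have h4 : (0 : ℝ) ≤ ∑ z ∈ (d i).Z \ J i, (ac (d i) z : ℝ) + n0 (d i) + nr (d i) := by
      positivity
    have h5 := m_le i
    linarith
  have hJac0 : ∀ i, 0 ≤ (∑ z ∈ J i, (ac (d i) z : ℝ)) / M := fun i => by positivity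
  have hSJ1 : ∀ i, ∑ z ∈ J i, P.s (X i) (lb i z) ≤ 1 + e / 8 := by
    intro i
    refine (hSJs i).trans ?_
    have h3 : (∑ z ∈ J i, (ac (d i) z : ℝ)) / M + R₁ * γ ≤ 1 / 2 + (e / 100 + e / 200) := by
      have := hJac i
      linarith
    refine (mul_le_mul_of_nonneg_left h3 (by positivity)).trans ?_
    have h4 : (e ^ 3 / 4) * (1 / 2 + (e / 100 + e / 200)) ≤ e ^ 3 / 4 * 1 :=
      mul_le_mul_of_nonneg_left (by linarith) (by positivity)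
    linarith
  have hcl : ∀ (C : ∀ i, Finset (Fin (mm i))) (l1' l2' : ℝ),
      (∀ u, ∑ i, ∑ z ∈ (J i).filter (fun z => φ0 i z = u), (nb (T i) (C i) z : ℝ) ≤
        l1' * M) →
      (∀ u, ∑ i, ∑ z ∈ ((d i).Z \ J i).filter (fun z => φ i z = u),
        (nb (T i) (C i) z : ℝ) ≤ l2' * M) → ∀ (c : ℝ), l1' + l2' ≤ c → ∀ u,
      ∑ i, ∑ z ∈ (d i).Z.filter (fun z => φ i z = u), (nb (T i) (C i) z : ℝ) ≤ c * M := by
    intro C l1' l2' a1 a2 c hc u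
    rw [split_load JZ f1 (fun i z => (nb (T i) (C i) z : ℝ)) u]
    have h3 := a1 u
    have h4 := a2 u
    have h5 := mul_le_mul_of_nonneg_right hc hM0.le
    linarith
  have hmV : ∀ i Y (α : ℝ), e ≤ α → α ≤ 2 - e →
      ((∑ z ∈ (d i).Z \ J i, (ac (d i) z : ℝ)) + n0 (d i) + nr (d i)) / M * α ≤
      1 - e ^ 3 / 8 - P.pS (X i) ((J i).image (lb i)) Y := by
    intro i Y α hα0 hα
    have hx0 := hJac0 i
    have hx1 := hJac i
    set x : ℝ := (∑ z ∈ J i, (ac (d i) z : ℝ)) / M with hx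
    have h3 : ((∑ z ∈ (d i).Z \ J i, (ac (d i) z : ℝ)) + n0 (d i) + nr (d i)) / M ≤
        1 / 2 + μ - x := by
      have h4 := hcnt1 i
      have h5 := m_le i
      have h6 : (1 / 2 + μ - x) * M = (1 / 2 + μ) * M - ∑ z ∈ J i, (ac (d i) z : ℝ) := by
        rw [sub_mul, hx, div_mul_cancel₀ _ hM0.ne']
      rw [div_le_iff₀ hM0, h6]
      linarith
    have h30 : 0 ≤ ((∑ z ∈ (d i).Z \ J i, (ac (d i) z : ℝ)) + n0 (d i) + nr (d i)) / M := by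
      positivity
    have h4 : ((∑ z ∈ (d i).Z \ J i, (ac (d i) z : ℝ)) + n0 (d i) + nr (d i)) / M * α ≤
        (1 / 2 + μ - x) * (2 - e) :=
      (mul_le_mul_of_nonneg_left hα h30).trans (mul_le_mul_of_nonneg_right h3 (by linarith))
    have h5 : P.pS (X i) ((J i).image (lb i)) Y ≤ (1 + e ^ 3 / 4) * (x + R₁ * γ) * (2 - e) := by
      unfold Par.pS Par.p
      rw [himg i (fun j => P.s (X i) j * P.al (X i) Y / 2), ← sum_div, ← sum_mul]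
      have h6 := hSJs i
      have h7 : (∑ z ∈ J i, P.s (X i) (lb i z)) * P.al (X i) Y ≤
          (2 * (1 + e ^ 3 / 4) * (x + R₁ * γ)) * (2 - e) :=
        mul_le_mul h6 (hP.al_hi _ _) (he.le.trans (hP.al_lo _ _)) (by positivity)
      linarith
    have h6 : (1 + e ^ 3 / 4) * (x + R₁ * γ) ≤ x + e / 64 + 2 * (e / 200) := by
      have h7 : (e ^ 3 / 4) * x ≤ (e ^ 3 / 4) * 1 :=
        mul_le_mul_of_nonneg_left (by linarith) (by positivity)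
      have h8 : (e ^ 3 / 4) * (R₁ * γ) ≤ 1 * (R₁ * γ) :=
        mul_le_mul_of_nonneg_right (by linarith) hRγ0
      linarith
    have h7 : (1 + e ^ 3 / 4) * (x + R₁ * γ) * (2 - e) ≤
        (x + e / 64 + 2 * (e / 200)) * (2 - e) := mul_le_mul_of_nonneg_right h6 (by linarith)
    have h8 : (1 / 2 + μ - x) * (2 - e) + (x + e / 64 + 2 * (e / 200)) * (2 - e) ≤
        (1 / 2 + (e / 100 + e / 64 + 2 * (e / 200))) * (2 - e) := by
      rw [← add_mul]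
      exact mul_le_mul_of_nonneg_right (by linarith) (by linarith)
    have h9 : (1 / 2 + (e / 100 + e / 64 + 2 * (e / 200))) * (2 - e) ≤ 1 - e ^ 3 / 8 := by
      nlinarith
    linarith
  refine ⟨X, lb, φ, P, fun U => β U / 2 + κ, hP, ?_, ?_, ?_⟩
  · have hAM : (⟨k, mm, T, d, J, X, lb, φ⟩ : Plc q (L * R₁) (ZMod m)).M = M := hMG.symm
    refine
      { tree := tree, dec := dec, JZ := JZ, inj := f2, dst := f4, JX := ?_, MX := f3
        lbi := hS.lbi, lbu := ?_, vd := ?_, sγ := ?_, k_le := ?_, m_le := ?_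
        Xc := fun x => (le_of_eq (by congr!)).trans (hXc x), acs := ?_, acm := ?_, Zc := ?_
        zzd := ?_, bm0 := ?_, bm2 := ?_, star := ?_, clT := ?_, clX := ?_, massE := ?_
        massVm := ?_, massV0 := ?_ }
    · intro i z hz
      show (φ i z).1 = X i
      rw [f1 i z hz]
      exact hS.JX i z hz
    · intro i i' z hz z' hz' h h'
      change φ i z = φ i' z' at h
      rw [f1 i z hz, f1 i' z' hz'] at h
      exact hS.lbu i i' z hz z' hz' h h'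
    · intro i
      refine hVd (X i) ((J i).image (lb i)) ?_
      rw [himg]
      exact hSJ1 i
    · intro i z hz
      show γ ≤ P.s (X i) (lb i z)
      rw [hPs]
      have h3 : (1 : ℝ) ≤ lv (X i) (lb i z) 0 := by exact_mod_cast (hlv i z hz 0).2.2
      have h4 : γ * 1 ≤ γ * (lv (X i) (lb i z) 0 : ℝ) := mul_le_mul_of_nonneg_left h3 hγ.le
      have h5 : 0 ≤ (1 + 2 * (e ^ 3 / 4)) * (γ * (lv (X i) (lb i z) 0 : ℝ)) := by positivity
      linarith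
    · rw [hAM]
      exact k_le
    · rw [hAM]
      exact hm1
    · rw [hAM]
      intro i z hz
      show (ac (d i) z : ℝ) ≤ (1 - e ^ 3 / 8) * (P.s (X i) (lb i z) / 2 * M)
      rw [hPs]
      have h3 : (ac (d i) z : ℝ) / M ≤ γ * (lv (X i) (lb i z) 0 : ℝ) := (hlv i z hz 0).1
      rw [div_le_iff₀ hM0] at h3
      have h4 : 0 ≤ γ * (lv (X i) (lb i z) 0 : ℝ) * M := by positivity
      have h5 : 1 ≤ (1 - e ^ 3 / 8) * (1 + e ^ 3 / 4) := by nlinarith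
      have h6 := mul_le_mul_of_nonneg_right h5 h4
      have h7 : (1 - e ^ 3 / 8) * (2 * (1 + e ^ 3 / 4) * (γ * (lv (X i) (lb i z) 0 : ℝ)) / 2 *
          M) = (1 - e ^ 3 / 8) * (1 + e ^ 3 / 4) * (γ * (lv (X i) (lb i z) 0 : ℝ) * M) := by
        ring
      rw [h7]
      linarith
    · rw [hAM]
      intro i z hz
      exact (hacnb i z).trans (acm i z (mem_sdiff.1 hz).2)
    · rw [hAM]
      intro i
      show ((d i).Z.card : ℝ) ≤ κ₄ * M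
      have hD₁r : (0 : ℝ) < D₁ := by exact_mod_cast hD₁
      have h3 : (D₁ : ℝ) * (d i).Z.card ≤ 2 * mm i := by exact_mod_cast (dec i).cZ
      have h4 := hm1 i
      have h5 : ((d i).Z.card : ℝ) ≤ 2 / D₁ * M := by
        rw [div_mul_eq_mul_div, le_div_iff₀ hD₁r]
        linarith
      exact h5.trans (mul_le_mul_of_nonneg_right h5' hM0.le)
    · rw [hAM]
      exact hcl (fun i => (d i).Z) _ _ hl1' f10 κ₄ h5
    · intro U
      have h3 := (hβ U).1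
      show 0 ≤ β U / 2 + κ
      linarith
    · intro U
      have h3 := (hβ U).2
      show β U / 2 + κ ≤ 2
      linarith
    · rw [hAM]
      exact f5
    · rw [hAM]
      exact f6
    · rw [hAM]
      intro u x
      refine (le_of_eq ?_).trans (f7 u x)
      refine sum_congr (by congr!) fun i _ => ?_
      rfl
    · rw [hAM]
      intro V W _
      show (β V / 2 + κ) * P.am W + (β W / 2 + κ) * P.am V +
        2 * (∑ i, (dp (d i) : ℝ)) / M ^ 2 * P.S0 V W +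
        (∑ i, (∑ z ∈ J i, (cz (d i) z : ℝ)) * (P.SX (X i) V W + P.SX (X i) W V)) / M ^ 2 +
        (∑ i, ∑ z ∈ (d i).Z \ J i, (cz (d i) z : ℝ)) / M ^ 2 * (P.Sm V W + P.Sm W V) ≤
        P.pf V W - e ^ 3 / 8
      have h3 := hmass V W
      have h4 : (∑ i, (∑ z ∈ J i, (cz (d i) z : ℝ)) * (P.SX (X i) V W + P.SX (X i) W V)) /
          M ^ 2 = ∑ i, (∑ z ∈ J i, (cz (d i) z : ℝ)) / M ^ 2 *
            (P.SX (X i) V W + P.SX (X i) W V) := by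
        rw [sum_div]
        refine sum_congr rfl fun i _ => ?_
        ring
      rw [h4, mul_div_assoc]
      have h6 : ∀ Y, κ * P.am Y ≤ κ * 2 := fun Y =>
        mul_le_mul_of_nonneg_left (by linarith [hP.am_hi Y]) hκ0.le
      have h7 := h6 V
      have h8 := h6 W
      linarith
    · rw [hAM]
      intro i Y
      exact hmV i Y _ (hP.am_lo Y) (hP.am_hi Y)
    · rw [hAM]
      intro i Y
      exact hmV i Y _ (hP.a0_lo Y) (hP.a0_hi Y)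
  · exact hcl (fun i => (d i).C1) _ _ hl2' f8 l1 h6
  · exact hcl (fun i => (d i).C2) _ _ hl3' f9 l2 h7

end MP_80c395_TP
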