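import Pool.Agent.Lib.MP_80c395_co_TQ.ParE

/-!
# Project TQ: statistics of the labels, sums over clusters

All are special cases of `poly1`, `poly2`, `poly3` (QRG.lean, stubs) with `w = P.wL` (`wL_IsW`),
`Tm = Fin q`, `c t = ` the coefficient if `t` is different from the fixed clusters and `0` otherwise, the
coordinates `key X t`, `key V t`, ..., the functions `gF`, `fF`, `hF` (or `gF - 1`, `fF - 1`) and the
expectations `wL_hF`, `wL_fF`, `wL_gF` (ParE.lean, stubs).  `C = B q` (`|c| ≤ B`), `C' = B`: `t ↦ key X t` is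
injective (`key_inj`).  All functions are bounded by `B` (`fF_bd`, `gF_bd`, `hF_bd`).
`fre ω V W` is a function of the coordinate `key V W = key W V`.
-/

set_option autoImplicit false

namespace MP_80c395_TP

open Finset Pool.Agent.Lib.CD

variable {q R : ℕ} {P : Par q R} {ε B : ℝ}

private theorem StatA_s {q : ℕ} (A : Finset (Fin q)) (K f : Fin q → ℝ) :
    ∑ t, (if t ∈ A then K t else 0) * f t = ∑ t ∈ A, K t * f t := by
  simp only [ite_mul, zero_mul]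
  rw [Finset.sum_ite_mem, Finset.univ_inter]

private theorem StatA_c {q : ℕ} {K : Fin q → ℝ} {B : ℝ} (hB : 0 ≤ B) (hK : ∀ t, |K t| ≤ B)
    (A : Finset (Fin q)) (t : Fin q) : |if t ∈ A then K t else 0| ≤ B := by
  split_ifs
  · exact hK t
  · rw [abs_zero]
    exact hB

private theorem StatA_C {q : ℕ} {K : Fin q → ℝ} {B : ℝ} (hB : 0 ≤ B) (hK : ∀ t, |K t| ≤ B)
    (A : Finset (Fin q)) : ∑ t, |if t ∈ A then K t else 0| ≤ B * q := by
  refine (Finset.sum_le_card_nsmul _ _ B fun t _ => StatA_c hB hK A t).trans (le_of_eq ?_)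
  rw [Finset.card_univ, Fintype.card_fin, nsmul_eq_mul, mul_comm]

private theorem StatA_k {q : ℕ} {K : Fin q → ℝ} {B : ℝ} (hB : 0 ≤ B) (hK : ∀ t, |K t| ≤ B)
    (A : Finset (Fin q)) (X : Fin q) (i : Fin q × Fin q) :
    ∑ t ∈ univ.filter (fun t => key X t = i), |if t ∈ A then K t else 0| ≤ B := by
  have hcard : (univ.filter (fun t => key X t = i)).card ≤ 1 := by
    rw [Finset.card_le_one]
    intro a ha b hb
    have ha' := (Finset.mem_filter.1 ha).2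
    have hb' := (Finset.mem_filter.1 hb).2
    rcases key_inj (ha'.trans hb'.symm) with h | h
    · exact h.2
    · exact h.2.trans h.1
  refine (Finset.sum_le_card_nsmul _ _ B fun t _ => StatA_c hB hK A t).trans ?_
  rw [nsmul_eq_mul]
  have h1 : ((univ.filter (fun t => key X t = i)).card : ℝ) ≤ 1 := by exact_mod_cast hcard
  exact (mul_le_mul_of_nonneg_right h1 hB).trans (le_of_eq (one_mul B))

private theorem StatA_g1 (hP : ParOK P ε B) (A : Finset (Fin q)) (X : Fin q) (K : Fin q → ℝ)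
    (hK : ∀ W, |K W| ≤ B) (h1 : Fin q → Lb q R → ℝ) (hh1 : ∀ t l, |h1 t l| ≤ B) {δ : ℝ}
    (hδ : 0 ≤ δ) (e1 : Fin q → ℝ) (he1 : ∀ t ∈ A, ∑ l, P.wL (key X t) l * h1 t l = e1 t)
    (G : Om q R → ℝ) (hG : ∀ ω, G ω = ∑ t ∈ A, K t * h1 t (ω (key X t)) - ∑ t ∈ A, K t * e1 t) :
    PW P.wL (fun ω => δ * q < |G ω|) ≤ 2 * Real.exp (-(δ ^ 2 * q / (16 * B ^ 4))) := by
  have hB := B_ge hP
  have hB0 : 0 < B := by linarith
  have hq : (0 : ℝ) < q := by exact_mod_cast hP.q0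
  have h := poly1 (wL_IsW hP) (fun t => if t ∈ A then K t else 0) (fun t => key X t) h1
    (B := B) (C := B * q) (C' := B) (δ := δ * q) (by linarith) hh1 (StatA_C hB0.le hK A)
    (by positivity) hB0 (StatA_k hB0.le hK A X) (by positivity)
  simp only [StatA_s] at h
  have hs : ∑ t ∈ A, K t * ∑ l, P.wL (key X t) l * h1 t l = ∑ t ∈ A, K t * e1 t :=
    Finset.sum_congr rfl fun t ht => by rw [he1 t ht]
  rw [hs] at h
  simp only [← hG] at h
  refine h.trans (le_of_eq ?_)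
  congr 3
  field_simp

private theorem StatA_g2 (hP : ParOK P ε B) (A : Finset (Fin q)) (X U : Fin q)
    (hne : ∀ t ∈ A, key X t ≠ key U t) (K : Fin q → ℝ)
    (hK : ∀ W, |K W| ≤ B) (h1 h2 : Fin q → Lb q R → ℝ) (hh1 : ∀ t l, |h1 t l| ≤ B)
    (hh2 : ∀ t l, |h2 t l| ≤ B) {δ : ℝ}
    (hδ : 0 ≤ δ) (e1 e2 : Fin q → ℝ) (he1 : ∀ t ∈ A, ∑ l, P.wL (key X t) l * h1 t l = e1 t)
    (he2 : ∀ t ∈ A, ∑ l, P.wL (key U t) l * h2 t l = e2 t)
    (G : Om q R → ℝ) (hG : ∀ ω, G ω = ∑ t ∈ A, K t * (h1 t (ω (key X t)) * h2 t (ω (key U t))) -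
      ∑ t ∈ A, K t * (e1 t * e2 t)) :
    PW P.wL (fun ω => δ * q < |G ω|) ≤ 2 * Real.exp (-(δ ^ 2 * q / (64 * B ^ 6))) := by
  have hB := B_ge hP
  have hB0 : 0 < B := by linarith
  have hq : (0 : ℝ) < q := by exact_mod_cast hP.q0
  have h := poly2 (wL_IsW hP) (fun t => if t ∈ A then K t else 0) (fun t => key X t)
    (fun t => key U t) h1 h2
    (B := B) (C := B * q) (C' := B) (δ := δ * q) (by linarith) hh1 hh2
    (fun t ht => by
      by_cases hA : t ∈ A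
      · exact hne t hA
      · exact absurd (if_neg hA) ht) (StatA_C hB0.le hK A)
    (by positivity) hB0 (StatA_k hB0.le hK A X) (StatA_k hB0.le hK A U) (by positivity)
  simp only [StatA_s] at h
  have hs : ∑ t ∈ A, K t * ((∑ l, P.wL (key X t) l * h1 t l) *
      ∑ l, P.wL (key U t) l * h2 t l) = ∑ t ∈ A, K t * (e1 t * e2 t) :=
    Finset.sum_congr rfl fun t ht => by rw [he1 t ht, he2 t ht]
  rw [hs] at h
  simp only [← hG] at h
  refine h.trans (le_of_eq ?_)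
  congr 3
  field_simp

private theorem StatA_g3 (hP : ParOK P ε B) (A : Finset (Fin q)) (X U W : Fin q)
    (hne : ∀ t ∈ A, key X t ≠ key U t ∧ key X t ≠ key W t ∧ key U t ≠ key W t)
    (K : Fin q → ℝ) (hK : ∀ W, |K W| ≤ B) (h1 h2 h3 : Fin q → Lb q R → ℝ)
    (hh1 : ∀ t l, |h1 t l| ≤ B) (hh2 : ∀ t l, |h2 t l| ≤ B) (hh3 : ∀ t l, |h3 t l| ≤ B) {δ : ℝ}
    (hδ : 0 ≤ δ) (e1 e2 e3 : Fin q → ℝ)
    (he1 : ∀ t ∈ A, ∑ l, P.wL (key X t) l * h1 t l = e1 t)
    (he2 : ∀ t ∈ A, ∑ l, P.wL (key U t) l * h2 t l = e2 t)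
    (he3 : ∀ t ∈ A, ∑ l, P.wL (key W t) l * h3 t l = e3 t)
    (G : Om q R → ℝ) (hG : ∀ ω, G ω = ∑ t ∈ A, K t *
      (h1 t (ω (key X t)) * h2 t (ω (key U t)) * h3 t (ω (key W t))) -
      ∑ t ∈ A, K t * (e1 t * e2 t * e3 t)) :
    PW P.wL (fun ω => δ * q < |G ω|) ≤ 2 * Real.exp (-(δ ^ 2 * q / (144 * B ^ 8))) := by
  have hB := B_ge hP
  have hB0 : 0 < B := by linarith
  have hq : (0 : ℝ) < q := by exact_mod_cast hP.q0
  have h := poly3 (wL_IsW hP) (fun t => if t ∈ A then K t else 0) (fun t => key X t)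
    (fun t => key U t) (fun t => key W t) h1 h2 h3
    (B := B) (C := B * q) (C' := B) (δ := δ * q) (by linarith) hh1 hh2 hh3
    (fun t ht => by
      by_cases hA : t ∈ A
      · exact hne t hA
      · exact absurd (if_neg hA) ht) (StatA_C hB0.le hK A)
    (by positivity) hB0 (StatA_k hB0.le hK A X) (StatA_k hB0.le hK A U)
    (StatA_k hB0.le hK A W) (by positivity)
  simp only [StatA_s] at h
  have hs : ∑ t ∈ A, K t * ((∑ l, P.wL (key X t) l * h1 t l) *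
      (∑ l, P.wL (key U t) l * h2 t l) * ∑ l, P.wL (key W t) l * h3 t l) =
      ∑ t ∈ A, K t * (e1 t * e2 t * e3 t) :=
    Finset.sum_congr rfl fun t ht => by rw [he1 t ht, he2 t ht, he3 t ht]
  rw [hs] at h
  simp only [← hG] at h
  refine h.trans (le_of_eq ?_)
  congr 3
  field_simp

private theorem StatA_kne {X U t : Fin q} (hXU : X ≠ U) (hX : t ≠ X) :
    key X t ≠ key U t := by
  intro h
  rcases key_inj h with h1 | h1
  · exact hXU h1.1
  · exact hX h1.1.symm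

private theorem StatA_gb (hP : ParOK P ε B) {X : Fin q} {S : Finset (Fin R)} (hS : P.Vd B X S)
    (t : Fin q) (l : Lb q R) : |P.gF X S t l| ≤ B := by
  have h := gF_bd hP hS t l
  rw [abs_of_nonneg h.1]
  exact h.2

private theorem StatA_fb (hP : ParOK P ε B) (X t : Fin q) (l : Lb q R) : |P.fF X t l| ≤ B := by
  have h := fF_bd hP X t l
  rw [abs_of_nonneg h.1]
  exact h.2

private theorem StatA_hb (hP : ParOK P ε B) (X : Fin q) (j : Fin R) (l : Lb q R) :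
    |hF X j l| ≤ B := by
  have h := hF_bd X j l
  have hB := B_ge hP
  rw [abs_of_nonneg h.1]
  linarith [h.2]

private theorem StatA_gb1 (hP : ParOK P ε B) {X : Fin q} {S : Finset (Fin R)}
    (hS : P.Vd B X S) (t : Fin q) (l : Lb q R) : |P.gF X S t l - 1| ≤ B := by
  have h := gF_bd hP hS t l
  have hB := B_ge hP
  rw [abs_le]
  constructor
  · linarith [h.1]
  · linarith [h.2]

private theorem StatA_fb1 (hP : ParOK P ε B) (X t : Fin q) (l : Lb q R) :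
    |P.fF X t l - 1| ≤ B := by
  have h := fF_bd hP X t l
  have hB := B_ge hP
  rw [abs_le]
  constructor
  · linarith [h.1]
  · linarith [h.2]

private theorem StatA_1 (hP : ParOK P ε B) (W : Fin q) :
    |(fun _ : Fin q => (1 : ℝ)) W| ≤ B := by
  have hB := B_ge hP
  change |(1 : ℝ)| ≤ B
  rw [abs_one]
  linarith

private theorem StatA_gg (ω : Om q R) {X Y : Fin q} (h : Y ≠ X) (S : Finset (Fin R)) :
    P.gg ω X S Y = P.gF X S Y (ω (key X Y)) := by
  unfold Par.gg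
  rw [if_neg h.symm]

private theorem StatA_ff (ω : Om q R) {X Y : Fin q} (h : Y ≠ X) :
    P.fre ω X Y = P.fF X Y (ω (key X Y)) := by
  unfold Par.fre
  rw [if_neg h.symm]

private theorem StatA_ff' (ω : Om q R) {X Y : Fin q} (h : X ≠ Y) :
    P.fre ω X Y = P.fF X Y (ω (key Y X)) := by
  unfold Par.fre
  rw [if_neg h, key_comm]

private theorem StatA_hh (ω : Om q R) {X Y : Fin q} (h : Y ≠ X) (j : Fin R) :
    hit ω X j Y = hF X j (ω (key X Y)) := by
  unfold hit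
  rw [if_neg h.symm]

private theorem StatA_wg1 (hP : ParOK P ε B) {X t : Fin q} (h : t ≠ X) {S : Finset (Fin R)}
    (hS : P.Vd B X S) : ∑ l, P.wL (key X t) l * (P.gF X S t l - 1) = 0 := by
  simp only [mul_sub, mul_one]
  rw [Finset.sum_sub_distrib, wL_gF hP h.symm hS, (wL_IsW hP).one, sub_self]

private theorem StatA_wf1 (hP : ParOK P ε B) {X t : Fin q} (h : t ≠ X) :
    ∑ l, P.wL (key X t) l * (P.fF X t l - 1) = 0 := by
  simp only [mul_sub, mul_one]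
  rw [Finset.sum_sub_distrib, wL_fF hP h.symm, (wL_IsW hP).one, sub_self]

private theorem StatA_wf' (hP : ParOK P ε B) {X t : Fin q} (h : t ≠ X) :
    ∑ l, P.wL (key X t) l * P.fF t X l = 1 := by
  rw [key_comm]
  exact wL_fF hP h

theorem stat_row (hP : ParOK P ε B) {X V : Fin q} (hXV : X ≠ V) {S : Finset (Fin R)}
    (hS : P.Vd B X S) (K : Fin q → ℝ) (hK : ∀ W, |K W| ≤ B) {δ : ℝ} (hδ : 0 ≤ δ) :
    PW P.wL (fun ω => δ * q < |∑ W ∈ univ.filter (fun W => W ≠ X ∧ W ≠ V),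
          K W * (P.gg ω X S W * P.fre ω V W) -
        ∑ W ∈ univ.filter (fun W => W ≠ X ∧ W ≠ V), K W|) ≤
      2 * Real.exp (-(δ ^ 2 * q / (64 * B ^ 6))) := by
  refine StatA_g2 hP (univ.filter (fun W => W ≠ X ∧ W ≠ V)) X V (fun t ht =>
    StatA_kne hXV (Finset.mem_filter.1 ht).2.1) K hK (fun t l => P.gF X S t l)
    (fun t l => P.fF V t l) (StatA_gb hP hS) (StatA_fb hP V) hδ (fun _ => 1) (fun _ => 1)
    (fun t ht => wL_gF hP (Finset.mem_filter.1 ht).2.1.symm hS)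
    (fun t ht => wL_fF hP (Finset.mem_filter.1 ht).2.2.symm) _ fun ω => ?_
  congr 1
  · refine Finset.sum_congr rfl fun t ht => ?_
    rw [StatA_gg ω (Finset.mem_filter.1 ht).2.1, StatA_ff ω (Finset.mem_filter.1 ht).2.2]
  · refine Finset.sum_congr rfl fun t _ => ?_
    rw [mul_one, mul_one]

theorem stat_hit (hP : ParOK P ε B) (X : Fin q) (j : Fin R) (K : Fin q → ℝ)
    (hK : ∀ W, |K W| ≤ B) {δ : ℝ} (hδ : 0 ≤ δ) :
    PW P.wL (fun ω => δ * q < |∑ Y ∈ univ.filter (fun Y => Y ≠ X), K Y * hit ω X j Y -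
        ∑ Y ∈ univ.filter (fun Y => Y ≠ X), K Y * P.p X j Y|) ≤
      2 * Real.exp (-(δ ^ 2 * q / (16 * B ^ 4))) := by
  refine StatA_g1 hP (univ.filter (fun Y => Y ≠ X)) X K hK (fun _ l => hF X j l)
    (fun _ => StatA_hb hP X j) hδ (fun Y => P.p X j Y)
    (fun t ht => wL_hF (Finset.mem_filter.1 ht).2.symm j) _ fun ω => ?_
  congr 1
  refine Finset.sum_congr rfl fun t ht => ?_
  rw [StatA_hh ω (Finset.mem_filter.1 ht).2]

theorem stat_hf (hP : ParOK P ε B) {X W : Fin q} (hXW : X ≠ W) (j : Fin R) (K : Fin q → ℝ)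
    (hK : ∀ W, |K W| ≤ B) {δ : ℝ} (hδ : 0 ≤ δ) :
    PW P.wL (fun ω => δ * q < |∑ V ∈ univ.filter (fun V => V ≠ X ∧ V ≠ W),
          K V * (hit ω X j V * P.fre ω V W) -
        ∑ V ∈ univ.filter (fun V => V ≠ X ∧ V ≠ W), K V * P.p X j V|) ≤
      2 * Real.exp (-(δ ^ 2 * q / (64 * B ^ 6))) := by
  refine StatA_g2 hP (univ.filter (fun V => V ≠ X ∧ V ≠ W)) X W (fun t ht =>
    StatA_kne hXW (Finset.mem_filter.1 ht).2.1) K hK (fun _ l => hF X j l)
    (fun t l => P.fF t W l) (fun _ => StatA_hb hP X j) (fun t => StatA_fb hP t W) hδ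
    (fun V => P.p X j V) (fun _ => 1)
    (fun t ht => wL_hF (Finset.mem_filter.1 ht).2.1.symm j)
    (fun t ht => StatA_wf' hP (Finset.mem_filter.1 ht).2.2) _ fun ω => ?_
  congr 1
  · refine Finset.sum_congr rfl fun t ht => ?_
    rw [StatA_hh ω (Finset.mem_filter.1 ht).2.1, StatA_ff' ω (Finset.mem_filter.1 ht).2.2]
  · refine Finset.sum_congr rfl fun t _ => ?_
    rw [mul_one]

theorem stat_f (hP : ParOK P ε B) (V : Fin q) (K : Fin q → ℝ)
    (hK : ∀ W, |K W| ≤ B) {δ : ℝ} (hδ : 0 ≤ δ) :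
    PW P.wL (fun ω => δ * q < |∑ W ∈ univ.filter (fun W => W ≠ V), K W * P.fre ω V W -
        ∑ W ∈ univ.filter (fun W => W ≠ V), K W|) ≤
      2 * Real.exp (-(δ ^ 2 * q / (16 * B ^ 4))) := by
  refine StatA_g1 hP (univ.filter (fun W => W ≠ V)) V K hK (fun t l => P.fF V t l)
    (StatA_fb hP V) hδ (fun _ => 1)
    (fun t ht => wL_fF hP (Finset.mem_filter.1 ht).2.symm) _ fun ω => ?_
  congr 1
  · refine Finset.sum_congr rfl fun t ht => ?_
    rw [StatA_ff ω (Finset.mem_filter.1 ht).2]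
  · refine Finset.sum_congr rfl fun t _ => ?_
    rw [mul_one]

theorem stat_g (hP : ParOK P ε B) (X : Fin q) {S : Finset (Fin R)} (hS : P.Vd B X S)
    (K : Fin q → ℝ) (hK : ∀ W, |K W| ≤ B) {δ : ℝ} (hδ : 0 ≤ δ) :
    PW P.wL (fun ω => δ * q < |∑ V ∈ univ.filter (fun V => V ≠ X), K V * P.gg ω X S V -
        ∑ V ∈ univ.filter (fun V => V ≠ X), K V|) ≤
      2 * Real.exp (-(δ ^ 2 * q / (16 * B ^ 4))) := by
  refine StatA_g1 hP (univ.filter (fun V => V ≠ X)) X K hK (fun t l => P.gF X S t l)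
    (StatA_gb hP hS) hδ (fun _ => 1)
    (fun t ht => wL_gF hP (Finset.mem_filter.1 ht).2.symm hS) _ fun ω => ?_
  congr 1
  · refine Finset.sum_congr rfl fun t ht => ?_
    rw [StatA_gg ω (Finset.mem_filter.1 ht).2]
  · refine Finset.sum_congr rfl fun t _ => ?_
    rw [mul_one]

theorem stat_gg0 (hP : ParOK P ε B) {X X' : Fin q} (hXX : X ≠ X') {S S' : Finset (Fin R)}
    (hS : P.Vd B X S) (hS' : P.Vd B X' S') {δ : ℝ} (hδ : 0 ≤ δ) :
    PW P.wL (fun ω => δ * q < |∑ Y ∈ univ.filter (fun Y => Y ≠ X ∧ Y ≠ X'),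
          (P.gg ω X S Y - 1) * (P.gg ω X' S' Y - 1)|) ≤
      2 * Real.exp (-(δ ^ 2 * q / (64 * B ^ 6))) := by
  refine StatA_g2 hP (univ.filter (fun Y => Y ≠ X ∧ Y ≠ X')) X X' (fun t ht =>
    StatA_kne hXX (Finset.mem_filter.1 ht).2.1) (fun _ => 1) (StatA_1 hP)
    (fun t l => P.gF X S t l - 1) (fun t l => P.gF X' S' t l - 1) (StatA_gb1 hP hS)
    (StatA_gb1 hP hS') hδ (fun _ => 0) (fun _ => 0)
    (fun t ht => StatA_wg1 hP (Finset.mem_filter.1 ht).2.1 hS)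
    (fun t ht => StatA_wg1 hP (Finset.mem_filter.1 ht).2.2 hS') _ fun ω => ?_
  simp only [mul_zero, Finset.sum_const_zero, sub_zero, one_mul]
  refine Finset.sum_congr rfl fun t ht => ?_
  rw [StatA_gg ω (Finset.mem_filter.1 ht).2.1, StatA_gg ω (Finset.mem_filter.1 ht).2.2]

theorem stat_ff0 (hP : ParOK P ε B) {U U' : Fin q} (hUU : U ≠ U') {δ : ℝ} (hδ : 0 ≤ δ) :
    PW P.wL (fun ω => δ * q < |∑ Y ∈ univ.filter (fun Y => Y ≠ U ∧ Y ≠ U'),
          (P.fre ω U Y - 1) * (P.fre ω U' Y - 1)|) ≤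
      2 * Real.exp (-(δ ^ 2 * q / (64 * B ^ 6))) := by
  refine StatA_g2 hP (univ.filter (fun Y => Y ≠ U ∧ Y ≠ U')) U U' (fun t ht =>
    StatA_kne hUU (Finset.mem_filter.1 ht).2.1) (fun _ => 1) (StatA_1 hP)
    (fun t l => P.fF U t l - 1) (fun t l => P.fF U' t l - 1) (StatA_fb1 hP U)
    (StatA_fb1 hP U') hδ (fun _ => 0) (fun _ => 0)
    (fun t ht => StatA_wf1 hP (Finset.mem_filter.1 ht).2.1)
    (fun t ht => StatA_wf1 hP (Finset.mem_filter.1 ht).2.2) _ fun ω => ?_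
  simp only [mul_zero, Finset.sum_const_zero, sub_zero, one_mul]
  refine Finset.sum_congr rfl fun t ht => ?_
  rw [StatA_ff ω (Finset.mem_filter.1 ht).2.1, StatA_ff ω (Finset.mem_filter.1 ht).2.2]

theorem stat_gff (hP : ParOK P ε B) {X U W : Fin q} (hXU : X ≠ U) (hXW : X ≠ W) (hUW : U ≠ W)
    {S : Finset (Fin R)} (hS : P.Vd B X S) (K : Fin q → ℝ) (hK : ∀ W, |K W| ≤ B)
    {δ : ℝ} (hδ : 0 ≤ δ) :
    PW P.wL (fun ω => δ * q < |∑ V ∈ univ.filter (fun V => V ≠ X ∧ V ≠ U ∧ V ≠ W),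
          K V * (P.gg ω X S V * P.fre ω U V * P.fre ω V W) -
        ∑ V ∈ univ.filter (fun V => V ≠ X ∧ V ≠ U ∧ V ≠ W), K V|) ≤
      2 * Real.exp (-(δ ^ 2 * q / (144 * B ^ 8))) := by
  refine StatA_g3 hP (univ.filter (fun V => V ≠ X ∧ V ≠ U ∧ V ≠ W)) X U W (fun t ht =>
    ⟨StatA_kne hXU (Finset.mem_filter.1 ht).2.1, StatA_kne hXW (Finset.mem_filter.1 ht).2.1,
      StatA_kne hUW (Finset.mem_filter.1 ht).2.2.1⟩) K hK (fun t l => P.gF X S t l)
    (fun t l => P.fF U t l) (fun t l => P.fF t W l) (StatA_gb hP hS) (StatA_fb hP U)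
    (fun t => StatA_fb hP t W) hδ (fun _ => 1) (fun _ => 1) (fun _ => 1)
    (fun t ht => wL_gF hP (Finset.mem_filter.1 ht).2.1.symm hS)
    (fun t ht => wL_fF hP (Finset.mem_filter.1 ht).2.2.1.symm)
    (fun t ht => StatA_wf' hP (Finset.mem_filter.1 ht).2.2.2) _ fun ω => ?_
  congr 1
  · refine Finset.sum_congr rfl fun t ht => ?_
    rw [StatA_gg ω (Finset.mem_filter.1 ht).2.1, StatA_ff ω (Finset.mem_filter.1 ht).2.2.1,
      StatA_ff' ω (Finset.mem_filter.1 ht).2.2.2]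
  · refine Finset.sum_congr rfl fun t _ => ?_
    rw [mul_one, mul_one, mul_one]

end MP_80c395_TP
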