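import Pool.Agent.Lib.MP_80c395_co_TQ.ParE

/-!
# Project TQ: statistics of the labels, sums over trees

All are special cases of `poly1`, `poly2`, `poly3` (QRG.lean, stubs) with `w = P.wL` (`wL_IsW`), `Tm = τ`,
`c t = e t` if the side conditions on `t` hold and `0` otherwise, the coordinates `key (X t) V`,
`key (X t) W`, `key (U t) V`, the functions `gF`, `fF`, `hF` and the expectations `wL_hF`, `wL_fF`, `wL_gF`
(ParE.lean, stubs).  `C = A`, `C' = A' / q`: `key (X t) V = i` determines `X t` (`key_inj`, `X t ≠ V`), so the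
sum of the `|c t|` over these `t` is at most `A' / q`; the same for `key (U t) V`.
The coordinates are different: `key (X t) V ≠ key (X t) W` as `V ≠ W`; `key (X t) V ≠ key (U t) V` as
`X t ≠ U t`; `key (U t) V ≠ key (X t) W` as `X t ≠ U t`, `V ≠ X t`.
-/

set_option autoImplicit false

namespace MP_80c395_TP

open Finset Pool.Agent.Lib.CD

variable {q R : ℕ} {P : Par q R} {ε B : ℝ} {τ : Type} [Fintype τ]

private theorem StatB_sum (Q : τ → Prop) [DecidablePred Q] (e f g : τ → ℝ)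
    (h : ∀ t, Q t → f t = g t) :
    ∑ t, (if Q t then e t else 0) * f t = ∑ t ∈ univ.filter Q, e t * g t := by
  rw [Finset.sum_filter]
  refine Finset.sum_congr rfl fun t _ => ?_
  by_cases hQ : Q t
  · rw [if_pos hQ, if_pos hQ, h t hQ]
  · rw [if_neg hQ, if_neg hQ, zero_mul]

omit [Fintype τ] in
private theorem StatB_abs (Q : τ → Prop) [DecidablePred Q] (e : τ → ℝ) (t : τ) :
    |if Q t then e t else 0| ≤ |e t| := by
  split_ifs
  · exact le_rfl
  · rw [abs_zero]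
    exact abs_nonneg _

private theorem StatB_A (Q : τ → Prop) [DecidablePred Q] (e : τ → ℝ) {A : ℝ}
    (hA : ∑ t, |e t| ≤ A) : ∑ t, |if Q t then e t else 0| ≤ A :=
  (Finset.sum_le_sum fun t _ => StatB_abs Q e t).trans hA

private theorem StatB_key (Q : τ → Prop) [DecidablePred Q] (V : Fin q) (X : τ → Fin q)
    (e : τ → ℝ) {b : ℝ} (hb : 0 ≤ b) (hQ : ∀ t, Q t → X t ≠ V)
    (hA' : ∀ x, ∑ t ∈ univ.filter (fun t => X t = x), |e t| ≤ b) (i : Fin q × Fin q) :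
    ∑ t ∈ univ.filter (fun t => key (X t) V = i), |if Q t then e t else 0| ≤ b := by
  by_cases h : ∃ t0, Q t0 ∧ key (X t0) V = i
  · obtain ⟨t0, h1, h2⟩ := h
    refine le_trans ?_ (hA' (X t0))
    rw [Finset.sum_filter, Finset.sum_filter]
    refine Finset.sum_le_sum fun t _ => ?_
    by_cases h3 : key (X t) V = i
    · rw [if_pos h3]
      by_cases h4 : Q t
      · have h5 : X t = X t0 := by
          rw [← h2] at h3
          rcases key_inj h3 with h6 | h6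
          · exact h6.1
          · exact absurd h6.1 (hQ t h4)
        rw [if_pos h5]
        exact StatB_abs Q e t
      · rw [if_neg h4, abs_zero]
        split_ifs
        · exact abs_nonneg _
        · exact le_rfl
    · rw [if_neg h3]
      split_ifs
      · exact abs_nonneg _
      · exact le_rfl
  · refine le_trans (le_of_eq (Finset.sum_eq_zero fun t ht => ?_)) hb
    rw [Finset.mem_filter] at ht
    rw [if_neg fun h4 => h ⟨t, h4, ht.2⟩, abs_zero]

private theorem StatB_ne {V W X : Fin q} (hVW : V ≠ W) (hX : X ≠ V) : key X V ≠ key X W := by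
  intro h
  rcases key_inj h with h1 | h1
  · exact hVW h1.2
  · exact hX h1.2.symm

private theorem StatB_abs_le {x b : ℝ} (h : 0 ≤ x ∧ x ≤ b) : |x| ≤ b := by
  rw [abs_of_nonneg h.1]
  exact h.2

theorem stat_t (hP : ParOK P ε B) (V : Fin q) (X : τ → Fin q) (j : τ → Fin R) (e : τ → ℝ)
    {A A' δ : ℝ} (hA : ∑ t, |e t| ≤ A) (hA' : ∀ x, ∑ t ∈ univ.filter (fun t => X t = x), |e t| ≤ A' / q)
    (hA0 : 0 < A) (hA0' : 0 < A') (hδ : 0 ≤ δ) :
    PW P.wL (fun ω => δ < |∑ t ∈ univ.filter (fun t => X t ≠ V), e t * hit ω (X t) (j t) V -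
        ∑ t ∈ univ.filter (fun t => X t ≠ V), e t * P.p (X t) (j t) V|) ≤
      2 * Real.exp (-(δ ^ 2 * q / (16 * B ^ 2 * A' * A))) := by
  have hB := B_ge hP
  have hq : (0 : ℝ) < q := by exact_mod_cast hP.q0
  have hb : 0 < A' / q := by positivity
  have h := poly1 (wL_IsW hP) (fun t => if X t ≠ V then e t else 0) (fun t => key (X t) V)
    (fun t => hF (X t) (j t)) (B := B) (C := A) (C' := A' / q) (δ := δ) (by linarith)
    (fun t l => StatB_abs_le ⟨(hF_bd (X t) (j t) l).1, (hF_bd (X t) (j t) l).2.trans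
      (by linarith)⟩)
    (StatB_A _ e hA) hA0 hb (StatB_key (fun t => X t ≠ V) V X e hb.le (fun t ht => ht) hA') hδ
  have e1 : ∀ ω : Om q R, ∑ t, (if X t ≠ V then e t else 0) *
      hF (X t) (j t) (ω (key (X t) V)) =
      ∑ t ∈ univ.filter (fun t => X t ≠ V), e t * hit ω (X t) (j t) V := by
    intro ω
    refine StatB_sum (fun t => X t ≠ V) e _ _ fun t ht => ?_
    rw [hit, if_neg ht]
  have e2 : ∑ t, (if X t ≠ V then e t else 0) * ∑ l, P.wL (key (X t) V) l *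
      hF (X t) (j t) l = ∑ t ∈ univ.filter (fun t => X t ≠ V), e t * P.p (X t) (j t) V :=
    StatB_sum (fun t => X t ≠ V) e _ _ fun t ht => wL_hF ht (j t)
  simp only [e1, e2] at h
  refine h.trans (le_of_eq ?_)
  congr 3
  field_simp

theorem stat_gg (hP : ParOK P ε B) {V W : Fin q} (hVW : V ≠ W) (X : τ → Fin q)
    (S : τ → Finset (Fin R)) (hS : ∀ t, P.Vd B (X t) (S t)) (e : τ → ℝ)
    {A A' δ : ℝ} (hA : ∑ t, |e t| ≤ A) (hA' : ∀ x, ∑ t ∈ univ.filter (fun t => X t = x), |e t| ≤ A' / q)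
    (hA0 : 0 < A) (hA0' : 0 < A') (hδ : 0 ≤ δ) :
    PW P.wL (fun ω => δ < |∑ t ∈ univ.filter (fun t => X t ≠ V ∧ X t ≠ W),
          e t * (P.gg ω (X t) (S t) V * P.gg ω (X t) (S t) W) -
        ∑ t ∈ univ.filter (fun t => X t ≠ V ∧ X t ≠ W), e t|) ≤
      2 * Real.exp (-(δ ^ 2 * q / (64 * B ^ 4 * A' * A))) := by
  have hB := B_ge hP
  have hq : (0 : ℝ) < q := by exact_mod_cast hP.q0
  have hb : 0 < A' / q := by positivity
  have h := poly2 (wL_IsW hP) (fun t => if X t ≠ V ∧ X t ≠ W then e t else 0)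
    (fun t => key (X t) V) (fun t => key (X t) W)
    (fun t => P.gF (X t) (S t) V) (fun t => P.gF (X t) (S t) W)
    (B := B) (C := A) (C' := A' / q) (δ := δ) (by linarith)
    (fun t l => StatB_abs_le (gF_bd hP (hS t) V l))
    (fun t l => StatB_abs_le (gF_bd hP (hS t) W l))
    (fun t ht => StatB_ne hVW (by
      by_contra hcon
      exact ht (if_neg fun h => h.1 hcon)))
    (StatB_A _ e hA) hA0 hb
    (StatB_key (fun t => X t ≠ V ∧ X t ≠ W) V X e hb.le (fun t ht => ht.1) hA')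
    (StatB_key (fun t => X t ≠ V ∧ X t ≠ W) W X e hb.le (fun t ht => ht.2) hA') hδ
  have e1 : ∀ ω : Om q R, ∑ t, (if X t ≠ V ∧ X t ≠ W then e t else 0) *
      (P.gF (X t) (S t) V (ω (key (X t) V)) * P.gF (X t) (S t) W (ω (key (X t) W))) =
      ∑ t ∈ univ.filter (fun t => X t ≠ V ∧ X t ≠ W),
        e t * (P.gg ω (X t) (S t) V * P.gg ω (X t) (S t) W) := by
    intro ω
    refine StatB_sum (fun t => X t ≠ V ∧ X t ≠ W) e _ _ fun t ht => ?_
    rw [Par.gg, if_neg ht.1, Par.gg, if_neg ht.2]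
  have e2 : ∑ t, (if X t ≠ V ∧ X t ≠ W then e t else 0) *
      ((∑ l, P.wL (key (X t) V) l * P.gF (X t) (S t) V l) *
        ∑ l, P.wL (key (X t) W) l * P.gF (X t) (S t) W l) =
      ∑ t ∈ univ.filter (fun t => X t ≠ V ∧ X t ≠ W), e t := by
    rw [StatB_sum (fun t => X t ≠ V ∧ X t ≠ W) e _ (fun _ => 1) fun t ht => by
      rw [wL_gF hP ht.1 (hS t), wL_gF hP ht.2 (hS t), mul_one]]
    simp only [mul_one]
  simp only [e1, e2] at h
  refine h.trans (le_of_eq ?_)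
  congr 3
  field_simp

theorem stat_hg (hP : ParOK P ε B) {V W : Fin q} (hVW : V ≠ W) (X : τ → Fin q) (j : τ → Fin R)
    (S : τ → Finset (Fin R)) (hS : ∀ t, P.Vd B (X t) (S t)) (e : τ → ℝ)
    {A A' δ : ℝ} (hA : ∑ t, |e t| ≤ A) (hA' : ∀ x, ∑ t ∈ univ.filter (fun t => X t = x), |e t| ≤ A' / q)
    (hA0 : 0 < A) (hA0' : 0 < A') (hδ : 0 ≤ δ) :
    PW P.wL (fun ω => δ < |∑ t ∈ univ.filter (fun t => X t ≠ V ∧ X t ≠ W),
          e t * (hit ω (X t) (j t) V * P.gg ω (X t) (S t) W) -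
        ∑ t ∈ univ.filter (fun t => X t ≠ V ∧ X t ≠ W), e t * P.p (X t) (j t) V|) ≤
      2 * Real.exp (-(δ ^ 2 * q / (64 * B ^ 4 * A' * A))) := by
  have hB := B_ge hP
  have hq : (0 : ℝ) < q := by exact_mod_cast hP.q0
  have hb : 0 < A' / q := by positivity
  have h := poly2 (wL_IsW hP) (fun t => if X t ≠ V ∧ X t ≠ W then e t else 0)
    (fun t => key (X t) V) (fun t => key (X t) W)
    (fun t => hF (X t) (j t)) (fun t => P.gF (X t) (S t) W)
    (B := B) (C := A) (C' := A' / q) (δ := δ) (by linarith)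
    (fun t l => StatB_abs_le ⟨(hF_bd (X t) (j t) l).1, (hF_bd (X t) (j t) l).2.trans
      (by linarith)⟩)
    (fun t l => StatB_abs_le (gF_bd hP (hS t) W l))
    (fun t ht => StatB_ne hVW (by
      by_contra hcon
      exact ht (if_neg fun h => h.1 hcon)))
    (StatB_A _ e hA) hA0 hb
    (StatB_key (fun t => X t ≠ V ∧ X t ≠ W) V X e hb.le (fun t ht => ht.1) hA')
    (StatB_key (fun t => X t ≠ V ∧ X t ≠ W) W X e hb.le (fun t ht => ht.2) hA') hδ
  have e1 : ∀ ω : Om q R, ∑ t, (if X t ≠ V ∧ X t ≠ W then e t else 0) *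
      (hF (X t) (j t) (ω (key (X t) V)) * P.gF (X t) (S t) W (ω (key (X t) W))) =
      ∑ t ∈ univ.filter (fun t => X t ≠ V ∧ X t ≠ W),
        e t * (hit ω (X t) (j t) V * P.gg ω (X t) (S t) W) := by
    intro ω
    refine StatB_sum (fun t => X t ≠ V ∧ X t ≠ W) e _ _ fun t ht => ?_
    rw [hit, if_neg ht.1, Par.gg, if_neg ht.2]
  have e2 : ∑ t, (if X t ≠ V ∧ X t ≠ W then e t else 0) *
      ((∑ l, P.wL (key (X t) V) l * hF (X t) (j t) l) *
        ∑ l, P.wL (key (X t) W) l * P.gF (X t) (S t) W l) =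
      ∑ t ∈ univ.filter (fun t => X t ≠ V ∧ X t ≠ W), e t * P.p (X t) (j t) V :=
    StatB_sum (fun t => X t ≠ V ∧ X t ≠ W) e _ _ fun t ht => by
      rw [wL_hF ht.1 (j t), wL_gF hP ht.2 (hS t), mul_one]
  simp only [e1, e2] at h
  refine h.trans (le_of_eq ?_)
  congr 3
  field_simp

theorem stat_gfg (hP : ParOK P ε B) {V W : Fin q} (hVW : V ≠ W) (X U : τ → Fin q)
    (S : τ → Finset (Fin R)) (hS : ∀ t, P.Vd B (X t) (S t)) (e : τ → ℝ)
    {A A' δ : ℝ} (hA : ∑ t, |e t| ≤ A) (hA' : ∀ x, ∑ t ∈ univ.filter (fun t => X t = x), |e t| ≤ A' / q)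
    (hAU : ∀ x, ∑ t ∈ univ.filter (fun t => U t = x), |e t| ≤ A' / q)
    (hA0 : 0 < A) (hA0' : 0 < A') (hδ : 0 ≤ δ) :
    PW P.wL (fun ω => δ < |∑ t ∈ univ.filter (fun t => X t ≠ V ∧ X t ≠ W ∧ U t ≠ V ∧ U t ≠ W ∧
            X t ≠ U t), e t * (P.gg ω (X t) (S t) V * P.fre ω (U t) V * P.gg ω (X t) (S t) W) -
        ∑ t ∈ univ.filter (fun t => X t ≠ V ∧ X t ≠ W ∧ U t ≠ V ∧ U t ≠ W ∧ X t ≠ U t), e t|) ≤
      2 * Real.exp (-(δ ^ 2 * q / (144 * B ^ 6 * A' * A))) := by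
  have hB := B_ge hP
  have hq : (0 : ℝ) < q := by exact_mod_cast hP.q0
  have hb : 0 < A' / q := by positivity
  have h := poly3 (wL_IsW hP) (fun t => if X t ≠ V ∧ X t ≠ W ∧ U t ≠ V ∧ U t ≠ W ∧ X t ≠ U t
      then e t else 0)
    (fun t => key (X t) V) (fun t => key (U t) V) (fun t => key (X t) W)
    (fun t => P.gF (X t) (S t) V) (fun t => P.fF (U t) V) (fun t => P.gF (X t) (S t) W)
    (B := B) (C := A) (C' := A' / q) (δ := δ) (by linarith)
    (fun t l => StatB_abs_le (gF_bd hP (hS t) V l))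
    (fun t l => StatB_abs_le (fF_bd hP (U t) V l))
    (fun t l => StatB_abs_le (gF_bd hP (hS t) W l))
    (fun t ht => by
      have hQ : X t ≠ V ∧ X t ≠ W ∧ U t ≠ V ∧ U t ≠ W ∧ X t ≠ U t := by
        by_contra hcon
        exact ht (if_neg hcon)
      obtain ⟨q1, q2, q3, q4, q5⟩ := hQ
      refine ⟨fun h => ?_, StatB_ne hVW q1, fun h => ?_⟩
      · rcases key_inj h with h1 | h1
        · exact q5 h1.1
        · exact q1 h1.1
      · rcases key_inj h with h1 | h1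
        · exact hVW h1.2
        · exact q4 h1.1)
    (StatB_A _ e hA) hA0 hb
    (StatB_key (fun t => X t ≠ V ∧ X t ≠ W ∧ U t ≠ V ∧ U t ≠ W ∧ X t ≠ U t) V X e hb.le
      (fun t ht => ht.1) hA')
    (StatB_key (fun t => X t ≠ V ∧ X t ≠ W ∧ U t ≠ V ∧ U t ≠ W ∧ X t ≠ U t) V U e hb.le
      (fun t ht => ht.2.2.1) hAU)
    (StatB_key (fun t => X t ≠ V ∧ X t ≠ W ∧ U t ≠ V ∧ U t ≠ W ∧ X t ≠ U t) W X e hb.le
      (fun t ht => ht.2.1) hA') hδ
  have e1 : ∀ ω : Om q R, ∑ t, (if X t ≠ V ∧ X t ≠ W ∧ U t ≠ V ∧ U t ≠ W ∧ X t ≠ U t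
        then e t else 0) *
      (P.gF (X t) (S t) V (ω (key (X t) V)) * P.fF (U t) V (ω (key (U t) V)) *
        P.gF (X t) (S t) W (ω (key (X t) W))) =
      ∑ t ∈ univ.filter (fun t => X t ≠ V ∧ X t ≠ W ∧ U t ≠ V ∧ U t ≠ W ∧ X t ≠ U t),
        e t * (P.gg ω (X t) (S t) V * P.fre ω (U t) V * P.gg ω (X t) (S t) W) := by
    intro ω
    refine StatB_sum (fun t => X t ≠ V ∧ X t ≠ W ∧ U t ≠ V ∧ U t ≠ W ∧ X t ≠ U t) e _ _
      fun t ht => ?_
    rw [Par.gg, if_neg ht.1, Par.fre, if_neg ht.2.2.1, Par.gg, if_neg ht.2.1]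
  have e2 : ∑ t, (if X t ≠ V ∧ X t ≠ W ∧ U t ≠ V ∧ U t ≠ W ∧ X t ≠ U t then e t else 0) *
      ((∑ l, P.wL (key (X t) V) l * P.gF (X t) (S t) V l) *
        (∑ l, P.wL (key (U t) V) l * P.fF (U t) V l) *
        ∑ l, P.wL (key (X t) W) l * P.gF (X t) (S t) W l) =
      ∑ t ∈ univ.filter (fun t => X t ≠ V ∧ X t ≠ W ∧ U t ≠ V ∧ U t ≠ W ∧ X t ≠ U t), e t := by
    rw [StatB_sum (fun t => X t ≠ V ∧ X t ≠ W ∧ U t ≠ V ∧ U t ≠ W ∧ X t ≠ U t) e _ (fun _ => 1)
      fun t ht => by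
        rw [wL_gF hP ht.1 (hS t), wL_fF hP ht.2.2.1, wL_gF hP ht.2.1 (hS t), mul_one, mul_one]]
    simp only [mul_one]
  simp only [e1, e2] at h
  refine h.trans (le_of_eq ?_)
  congr 3
  field_simp

end MP_80c395_TP
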