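import Pool.Agent.Lib.MP_80c395_co_TQ.QRc
import Pool.Agent.Lib.MP_80c395_co_TQ.StatA
import Pool.Agent.Lib.MP_80c395_co_TQ.StatB

/-!
# Project TQ: quasi-random labels exist

Union bound over all conditions of `QRc` for random labels (`PW P.wL`, `wL_IsW`); if the sum of the
probabilities of failure is `< 1` there are good labels (otherwise the probability of `True` would be
`< 1`).  The probabilities are bounded by StatA, StatB (stubs):
* `r0, rm, rX, ra`: `stat_row` with `K = S0 V`, `Sm V`, `SX X V`, `am` (all bounded by `B`), at most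
  `4 q^2 2^R` conditions;
* `h9`: `stat_g`, `q 2^R` conditions; `h8`: `stat_f` with `K = pf V`, `q` conditions;
* `h2`: `stat_hit` with `K = prt ..` (between `0` and `1`), `δ = θ γ / 8`: at most
  `∑ i, mm i ≤ 5 M^2` conditions (`k_le, m_le`);
* `h3`: `stat_hf`, `K = SX / al ≤ B` (`SX ≤ ε B`, `al ≥ ε`), `q^2 R` conditions;
* `h4`: `stat_gff`, `q^3 2^R` conditions; `g0`: `stat_gg0`, `q^2 4^R`; `f0`: `stat_ff0`, `q^2`;
* `e0`: `stat_gg` with `τ = Fin k`, `e i = dp (d i) / M^2`, `δ = θ`: `dp (d i) ≤ mm i ≤ M` (`∑ t, sz t ≤ mm i`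
  because of `inj`), `∑ e ≤ 5`, for every cluster `∑ ≤ Λ / M ≤ Λ / q`.  The upper bound of `QRc` follows
  (the sum over the trees with `X i ≠ V, W` is at most the sum over all), multiply by `M^2`;
* `e1`: `stat_hg` with `τ = Σ i, Fin (mm i)`, `e (i, z) = cz z (2/s) (SX/al) / M^2` for `z ∈ J i`, else `0`;
  `cz ≤ ..`, `∑ z, cz z ≤ mm i ≤ M`, `2/s ≤ 2/γ`: `∑ e ≤ 5 (2/γ) B`, for every cluster `≤ Λ (2/γ) B / q`; and
  `e p = cz SX / M^2` (`p = s al / 2`);
* `e2`: `stat_gfg` with `τ = Σ i, Fin (mm i)`, `U (i, z) = (φ i z).1`, `e = cz z / M^2` for `z ∈ md i`, else `0`: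
  `∑ e ≤ 5`, for `X`: `Λ / q`; for `U`: `cz z ≤ K ac z` (`chn t ≤ sz t ≤ K`), the sum of the `ac z` over
  all medium `z` with `(φ i z).1 = U` is at most `∑ u ∈ U, bm M ≤ card G * 2 M` (`star`, `bm2`), so
  `≤ 2 K card G M / M^2 = 2 K / q`.  (`X i ≠ U` for `z ∈ md i` is `MX`.)
* `d1, d2`: `stat_t` with `δ = θc`, `e = dz (2/s) / M^2`; `∑ z ∈ J i, dz z ≤ ∑ t, nb (sg t (rt t)) ≤ D mm i`
  (`deg_sg`, every piece is attached to at most one centre, `∑ t, 1 ≤ mm i`), so `∑ e ≤ 5 D (2/γ)`, for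
  every cluster `≤ Λ D (2/γ) / q`; `e p = dz al / M^2 ≤ 2 dz / M^2`.
Every probability is at most `2 exp (- c q)` with a constant `c > 0` which depends only on the constants;
the number of conditions is at most `C q^3` (`M = q g`), and `2 C q^3 exp (- c q) < 1` for large `q`.
-/

set_option autoImplicit false

namespace MP_80c395_TP

open Finset Pool.Agent.Lib.CD

private theorem ExQR_un {q R : ℕ} {P : Par q R} {ε B : ℝ} (hP : ParOK P ε B) {κ : Type}
    [Fintype κ] (Q : κ → Prop) (A : κ → Om q R → Prop) (Φ : Om q R → Prop) {b C : ℝ}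
    (hb : 0 ≤ b) (hC : (Fintype.card κ : ℝ) ≤ C * q ^ 3)
    (h : ∀ k, Q k → PW P.wL (fun ω => ¬ A k ω) ≤ b) (hΦ : ∀ ω, (∀ k, Q k → A k ω) → Φ ω) :
    PW P.wL (fun ω => ¬ Φ ω) ≤ C * q ^ 3 * b := by
  have hw := wL_IsW hP
  have h1 : PW P.wL (fun ω => ¬ Φ ω) ≤
      PW P.wL (fun ω => ∃ k ∈ (univ : Finset κ), Q k ∧ ¬ A k ω) := by
    refine pw_mono hw fun ω hω => ?_
    by_contra h2
    push Not at h2
    exact hω (hΦ ω fun k hk => h2 k (mem_univ k) hk)
  have h3 : ∀ k ∈ (univ : Finset κ), PW P.wL (fun ω => Q k ∧ ¬ A k ω) ≤ b := by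
    intro k _
    by_cases hk : Q k
    · exact (pw_mono hw fun ω hω => hω.2).trans (h k hk)
    · refine (pw_mono hw (B := fun _ => False) fun ω hω => hk hω.1).trans ?_
      rw [pw_false]
      exact hb
  calc PW P.wL (fun ω => ¬ Φ ω) ≤
        PW P.wL (fun ω => ∃ k ∈ (univ : Finset κ), Q k ∧ ¬ A k ω) := h1
    _ ≤ ∑ k ∈ (univ : Finset κ), PW P.wL (fun ω => Q k ∧ ¬ A k ω) := pw_ex hw univ _
    _ ≤ ∑ _k ∈ (univ : Finset κ), b := Finset.sum_le_sum h3
    _ = Fintype.card κ * b := by rw [Finset.sum_const, nsmul_eq_mul, Finset.card_univ]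
    _ ≤ C * q ^ 3 * b := mul_le_mul_of_nonneg_right hC hb

private theorem ExQR_pow {q : ℕ} (hq : 0 < q) {a b : ℕ} (h : a ≤ b) :
    (q : ℝ) ^ a ≤ (q : ℝ) ^ b :=
  pow_le_pow_right₀ (by exact_mod_cast hq) h

private theorem ExQR_ev (C c : ℝ) (hc : 0 < c) :
    ∀ᶠ q : ℕ in Filter.atTop, C * (q : ℝ) ^ 3 * (2 * Real.exp (-(c * q))) ≤ 1 / 17 := by
  have h1 : Filter.Tendsto (fun x : ℝ => x ^ 3 * Real.exp (-x)) Filter.atTop (nhds 0) :=
    Real.tendsto_pow_mul_exp_neg_atTop_nhds_zero 3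
  have h2 : Filter.Tendsto (fun q : ℕ => c * (q : ℝ)) Filter.atTop Filter.atTop :=
    tendsto_natCast_atTop_atTop.const_mul_atTop hc
  have h4 : Filter.Tendsto (fun q : ℕ => C * (q : ℝ) ^ 3 * (2 * Real.exp (-(c * q))))
      Filter.atTop (nhds 0) := by
    have h5 := (h1.comp h2).const_mul (2 * C / c ^ 3)
    rw [mul_zero] at h5
    refine h5.congr fun q => ?_
    simp only [Function.comp]
    field_simp
  exact h4.eventually_le_const (by norm_num)

private theorem ExQR_and {q R : ℕ} {P : Par q R} {ε B : ℝ} (hP : ParOK P ε B)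
    {Φ Ψ : Om q R → Prop} {a b : ℝ} (h1 : PW P.wL (fun ω => ¬ Φ ω) ≤ a)
    (h2 : PW P.wL (fun ω => ¬ Ψ ω) ≤ b) : PW P.wL (fun ω => ¬ (Φ ω ∧ Ψ ω)) ≤ a + b := by
  have hw := wL_IsW hP
  refine (pw_mono hw (B := fun ω => ¬ Φ ω ∨ ¬ Ψ ω) fun ω hω => ?_).trans
    ((pw_or hw _ _).trans (add_le_add h1 h2))
  by_contra h
  push Not at h
  exact hω h

section stat

variable {q R : ℕ} {P : Par q R} {ε B θ : ℝ}

private theorem ExQR_row (hP : ParOK P ε B) (hθ : 0 ≤ θ)
    (K : Fin q → Fin q → Fin q → ℝ) (hK : ∀ X V W, |K X V W| ≤ B) :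
    PW P.wL (fun ω => ¬ ∀ X V S, X ≠ V → P.Vd B X S →
      |∑ W ∈ univ.filter (fun W => W ≠ X ∧ W ≠ V), K X V W * (P.gg ω X S W * P.fre ω V W) -
        ∑ W ∈ univ.filter (fun W => W ≠ X ∧ W ≠ V), K X V W| ≤ θ * q) ≤
      2 ^ R * q ^ 3 * (2 * Real.exp (-(θ ^ 2 / (64 * B ^ 6) * q))) := by
  refine ExQR_un hP (κ := Fin q × Fin q × Finset (Fin R))
    (fun k => k.1 ≠ k.2.1 ∧ P.Vd B k.1 k.2.2)
    (fun k ω => |∑ W ∈ univ.filter (fun W => W ≠ k.1 ∧ W ≠ k.2.1),
      K k.1 k.2.1 W * (P.gg ω k.1 k.2.2 W * P.fre ω k.2.1 W) -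
        ∑ W ∈ univ.filter (fun W => W ≠ k.1 ∧ W ≠ k.2.1), K k.1 k.2.1 W| ≤ θ * q) _
    (by positivity) ?_ ?_ ?_
  · rw [Fintype.card_prod, Fintype.card_prod, Fintype.card_finset, Fintype.card_fin,
      Fintype.card_fin]
    push_cast
    calc (q : ℝ) * (q * 2 ^ R) = 2 ^ R * q ^ 2 := by ring
      _ ≤ 2 ^ R * q ^ 3 :=
        mul_le_mul_of_nonneg_left (ExQR_pow hP.q0 (by norm_num)) (by positivity)
  · rintro ⟨X, V, S⟩ ⟨h1, h2⟩
    refine (pw_mono (wL_IsW hP) fun ω hω => not_le.1 hω).trans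
      ((stat_row hP h1 h2 (K X V) (hK X V) hθ).trans (le_of_eq ?_))
    congr 3
    ring
  · intro ω h X V S h1 h2
    exact h ⟨X, V, S⟩ ⟨h1, h2⟩

private theorem ExQR_h9 (hP : ParOK P ε B) (hθ : 0 ≤ θ) :
    PW P.wL (fun ω => ¬ ∀ X S, P.Vd B X S →
      |∑ V ∈ univ.filter (fun V => V ≠ X), P.a0 V * P.gg ω X S V -
      ∑ V ∈ univ.filter (fun V => V ≠ X), P.a0 V| ≤ θ * q) ≤
      2 ^ R * q ^ 3 * (2 * Real.exp (-(θ ^ 2 / (16 * B ^ 4) * q))) := by
  have hB := B_ge hP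
  refine ExQR_un hP (κ := Fin q × Finset (Fin R))
    (fun k => P.Vd B k.1 k.2)
    (fun k ω => |∑ V ∈ univ.filter (fun V => V ≠ k.1), P.a0 V * P.gg ω k.1 k.2 V -
      ∑ V ∈ univ.filter (fun V => V ≠ k.1), P.a0 V| ≤ θ * q) _
    (by positivity) ?_ ?_ ?_
  · rw [Fintype.card_prod, Fintype.card_finset, Fintype.card_fin, Fintype.card_fin]
    push_cast
    calc (q : ℝ) * 2 ^ R = 2 ^ R * q ^ 1 := by ring
      _ ≤ 2 ^ R * q ^ 3 :=
        mul_le_mul_of_nonneg_left (ExQR_pow hP.q0 (by norm_num)) (by positivity)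
  · rintro ⟨X, S⟩ h1
    have hK : ∀ W, |P.a0 W| ≤ B := fun W => by
      rw [abs_of_nonneg (hP.ε0.le.trans (hP.a0_lo W))]
      linarith [hP.a0_hi W, hP.ε0]
    refine (pw_mono (wL_IsW hP) fun ω hω => not_le.1 hω).trans
      ((stat_g hP X h1 P.a0 hK hθ).trans (le_of_eq ?_))
    congr 3
    ring
  · intro ω h X S h1
    exact h ⟨X, S⟩ h1

private theorem ExQR_h8 (hP : ParOK P ε B) (hθ : 0 ≤ θ) :
    PW P.wL (fun ω => ¬ ∀ V, |∑ W ∈ univ.filter (fun W => W ≠ V), P.pf V W * P.fre ω V W -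
      ∑ W ∈ univ.filter (fun W => W ≠ V), P.pf V W| ≤ θ * q) ≤
      1 * q ^ 3 * (2 * Real.exp (-(θ ^ 2 / (16 * B ^ 4) * q))) := by
  have hB := B_ge hP
  refine ExQR_un hP (κ := Fin q) (fun _ => True)
    (fun V ω => |∑ W ∈ univ.filter (fun W => W ≠ V), P.pf V W * P.fre ω V W -
      ∑ W ∈ univ.filter (fun W => W ≠ V), P.pf V W| ≤ θ * q) _
    (by positivity) ?_ ?_ ?_
  · rw [Fintype.card_fin, one_mul]
    have := ExQR_pow hP.q0 (show 1 ≤ 3 by norm_num)
    rwa [pow_one] at this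
  · intro V _
    have hK : ∀ W, |P.pf V W| ≤ B := fun W => by
      rw [abs_of_pos (pf_pos hP V W)]
      linarith [pf_le hP V W]
    refine (pw_mono (wL_IsW hP) fun ω hω => not_le.1 hω).trans
      ((stat_f hP V (P.pf V) hK hθ).trans (le_of_eq ?_))
    congr 3
    ring
  · intro ω h V
    exact h V trivial

private theorem ExQR_h3 (hP : ParOK P ε B) (hθ : 0 ≤ θ) :
    PW P.wL (fun ω => ¬ ∀ X j W, W ≠ X → |∑ V ∈ univ.filter (fun V => V ≠ X ∧ V ≠ W),
        P.SX X V W / P.al X V * (hit ω X j V * P.fre ω V W) -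
      ∑ V ∈ univ.filter (fun V => V ≠ X ∧ V ≠ W), P.SX X V W / P.al X V * P.p X j V| ≤
    θ * q) ≤ R * q ^ 3 * (2 * Real.exp (-(θ ^ 2 / (64 * B ^ 6) * q))) := by
  have hB := B_ge hP
  refine ExQR_un hP (κ := Fin q × Fin R × Fin q) (fun k => k.2.2 ≠ k.1)
    (fun k ω => |∑ V ∈ univ.filter (fun V => V ≠ k.1 ∧ V ≠ k.2.2),
        P.SX k.1 V k.2.2 / P.al k.1 V * (hit ω k.1 k.2.1 V * P.fre ω V k.2.2) -
      ∑ V ∈ univ.filter (fun V => V ≠ k.1 ∧ V ≠ k.2.2),
        P.SX k.1 V k.2.2 / P.al k.1 V * P.p k.1 k.2.1 V| ≤ θ * q) _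
    (by positivity) ?_ ?_ ?_
  · rw [Fintype.card_prod, Fintype.card_prod, Fintype.card_fin, Fintype.card_fin]
    push_cast
    calc (q : ℝ) * (R * q) = R * q ^ 2 := by ring
      _ ≤ R * q ^ 3 :=
        mul_le_mul_of_nonneg_left (ExQR_pow hP.q0 (by norm_num)) (by positivity)
  · rintro ⟨X, j, W⟩ h1
    have hK : ∀ V, |P.SX X V W / P.al X V| ≤ B := fun V => by
      have h2 := hP.al_lo X V
      have h3 : 0 < P.al X V := lt_of_lt_of_le hP.ε0 h2
      rw [abs_of_nonneg (div_nonneg (hP.SX0 X V W) h3.le), div_le_iff₀ h3]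
      calc P.SX X V W ≤ ε * B := hP.SXB X V W
        _ ≤ B * P.al X V := by
          rw [mul_comm]
          exact mul_le_mul_of_nonneg_left h2 (by linarith)
    refine (pw_mono (wL_IsW hP) fun ω hω => not_le.1 hω).trans
      ((stat_hf hP (Ne.symm h1) j (fun V => P.SX X V W / P.al X V) hK hθ).trans (le_of_eq ?_))
    congr 3
    ring
  · intro ω h X j W h1
    exact h ⟨X, j, W⟩ h1

private theorem ExQR_h4 (hP : ParOK P ε B) (hθ : 0 ≤ θ) (K : Fin q → Fin q → ℝ)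
    (hK : ∀ V W, |K V W| ≤ B) :
    PW P.wL (fun ω => ¬ ∀ X U W S, X ≠ U → X ≠ W → U ≠ W → P.Vd B X S →
    |∑ V ∈ univ.filter (fun V => V ≠ X ∧ V ≠ U ∧ V ≠ W),
        K V W * (P.gg ω X S V * P.fre ω U V * P.fre ω V W) -
      ∑ V ∈ univ.filter (fun V => V ≠ X ∧ V ≠ U ∧ V ≠ W), K V W| ≤ θ * q) ≤
      2 ^ R * q ^ 3 * (2 * Real.exp (-(θ ^ 2 / (144 * B ^ 8) * q))) := by
  refine ExQR_un hP (κ := Fin q × Fin q × Fin q × Finset (Fin R))
    (fun k => k.1 ≠ k.2.1 ∧ k.1 ≠ k.2.2.1 ∧ k.2.1 ≠ k.2.2.1 ∧ P.Vd B k.1 k.2.2.2)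
    (fun k ω => |∑ V ∈ univ.filter (fun V => V ≠ k.1 ∧ V ≠ k.2.1 ∧ V ≠ k.2.2.1),
        K V k.2.2.1 * (P.gg ω k.1 k.2.2.2 V * P.fre ω k.2.1 V * P.fre ω V k.2.2.1) -
      ∑ V ∈ univ.filter (fun V => V ≠ k.1 ∧ V ≠ k.2.1 ∧ V ≠ k.2.2.1), K V k.2.2.1| ≤ θ * q) _
    (by positivity) ?_ ?_ ?_
  · rw [Fintype.card_prod, Fintype.card_prod, Fintype.card_prod, Fintype.card_finset,
      Fintype.card_fin, Fintype.card_fin]
    push_cast
    exact le_of_eq (by ring)
  · rintro ⟨X, U, W, S⟩ ⟨h1, h2, h3, h4⟩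
    refine (pw_mono (wL_IsW hP) fun ω hω => not_le.1 hω).trans
      ((stat_gff hP h1 h2 h3 h4 (fun V => K V W) (fun V => hK V W) hθ).trans (le_of_eq ?_))
    congr 3
    ring
  · intro ω h X U W S h1 h2 h3 h4
    exact h ⟨X, U, W, S⟩ ⟨h1, h2, h3, h4⟩

private theorem ExQR_g0 (hP : ParOK P ε B) (hθ : 0 ≤ θ) :
    PW P.wL (fun ω => ¬ ∀ X X' S S', X ≠ X' → P.Vd B X S → P.Vd B X' S' →
    |∑ Y ∈ univ.filter (fun Y => Y ≠ X ∧ Y ≠ X'), (P.gg ω X S Y - 1) * (P.gg ω X' S' Y - 1)| ≤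
      θ * q) ≤
      2 ^ R * 2 ^ R * q ^ 3 * (2 * Real.exp (-(θ ^ 2 / (64 * B ^ 6) * q))) := by
  refine ExQR_un hP (κ := Fin q × Fin q × Finset (Fin R) × Finset (Fin R))
    (fun k => k.1 ≠ k.2.1 ∧ P.Vd B k.1 k.2.2.1 ∧ P.Vd B k.2.1 k.2.2.2)
    (fun k ω => |∑ Y ∈ univ.filter (fun Y => Y ≠ k.1 ∧ Y ≠ k.2.1),
      (P.gg ω k.1 k.2.2.1 Y - 1) * (P.gg ω k.2.1 k.2.2.2 Y - 1)| ≤ θ * q) _
    (by positivity) ?_ ?_ ?_
  · rw [Fintype.card_prod, Fintype.card_prod, Fintype.card_prod, Fintype.card_finset,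
      Fintype.card_fin, Fintype.card_fin]
    push_cast
    calc (q : ℝ) * (q * (2 ^ R * 2 ^ R)) = 2 ^ R * 2 ^ R * q ^ 2 := by ring
      _ ≤ 2 ^ R * 2 ^ R * q ^ 3 :=
        mul_le_mul_of_nonneg_left (ExQR_pow hP.q0 (by norm_num)) (by positivity)
  · rintro ⟨X, X', S, S'⟩ ⟨h1, h2, h3⟩
    refine (pw_mono (wL_IsW hP) fun ω hω => not_le.1 hω).trans
      ((stat_gg0 hP h1 h2 h3 hθ).trans (le_of_eq ?_))
    congr 3
    ring
  · intro ω h X X' S S' h1 h2 h3
    exact h ⟨X, X', S, S'⟩ ⟨h1, h2, h3⟩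

private theorem ExQR_f0 (hP : ParOK P ε B) (hθ : 0 ≤ θ) :
    PW P.wL (fun ω => ¬ ∀ U U', U ≠ U' → |∑ Y ∈ univ.filter (fun Y => Y ≠ U ∧ Y ≠ U'),
      (P.fre ω U Y - 1) * (P.fre ω U' Y - 1)| ≤ θ * q) ≤
      1 * q ^ 3 * (2 * Real.exp (-(θ ^ 2 / (64 * B ^ 6) * q))) := by
  refine ExQR_un hP (κ := Fin q × Fin q) (fun k => k.1 ≠ k.2)
    (fun k ω => |∑ Y ∈ univ.filter (fun Y => Y ≠ k.1 ∧ Y ≠ k.2),
      (P.fre ω k.1 Y - 1) * (P.fre ω k.2 Y - 1)| ≤ θ * q) _
    (by positivity) ?_ ?_ ?_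
  · rw [Fintype.card_prod, Fintype.card_fin]
    push_cast
    have := ExQR_pow hP.q0 (show 2 ≤ 3 by norm_num)
    rw [one_mul]
    linarith [sq (q : ℝ)]
  · rintro ⟨U, U'⟩ h1
    refine (pw_mono (wL_IsW hP) fun ω hω => not_le.1 hω).trans
      ((stat_ff0 hP h1 hθ).trans (le_of_eq ?_))
    congr 3
    ring
  · intro ω h U U' h1
    exact h ⟨U, U'⟩ h1

end stat

section dec

variable {m : ℕ} {T : SimpleGraph (Fin m)} {d : Dec m} {D₁ D K : ℕ}

private theorem ExQR_sz (h : DecOK T d D₁ D K) : ∑ t, d.sz t ≤ m := by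
  have h1 : Function.Injective (fun a : (Σ t : Fin d.np, Fin (d.sz t)) => d.sg a.1 a.2) := by
    rintro ⟨t, j⟩ ⟨t', j'⟩ h2
    obtain ⟨h3, h4⟩ := h.inj t j t' j' h2
    subst h3
    rw [Fin.ext h4]
  have h5 := Fintype.card_le_of_injective _ h1
  rw [Fintype.card_sigma, Fintype.card_fin] at h5
  simpa only [Fintype.card_fin] using h5

private theorem ExQR_att (d : Dec m) (f : Fin d.np → ℕ) :
    ∑ z, ∑ t ∈ univ.filter (fun t => d.att t = some z), f t ≤ ∑ t, f t := by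
  simp only [Finset.sum_filter]
  rw [Finset.sum_comm]
  refine Finset.sum_le_sum fun t _ => ?_
  rcases h : d.att t with _ | z
  · simp
  · simp only [Option.some.injEq]
    rw [Finset.sum_ite_eq]
    simp

private theorem ExQR_chn (d : Dec m) (t : Fin d.np) : chn d t ≤ d.sz t := by
  unfold chn
  refine (Finset.card_le_univ _).trans ?_
  rw [Fintype.card_fin]

private theorem ExQR_cz (h : DecOK T d D₁ D K) : ∑ z, cz d z ≤ m := by
  unfold cz
  exact (ExQR_att d _).trans ((Finset.sum_le_sum fun t _ => ExQR_chn d t).trans (ExQR_sz h))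

private theorem ExQR_dp (h : DecOK T d D₁ D K) : dp d ≤ m := by
  unfold dp
  refine (Finset.sum_le_sum fun t _ => ?_).trans (ExQR_sz h)
  omega

private theorem ExQR_czac (h : DecOK T d D₁ D K) (z : Fin m) : cz d z ≤ K * ac d z := by
  unfold cz ac
  refine (Finset.sum_le_sum fun t _ => (ExQR_chn d t).trans (h.sz_le t)).trans ?_
  rw [Finset.sum_const, smul_eq_mul, mul_comm]

private theorem ExQR_dz (h : DecOK T d D₁ D K) (C : Finset (Fin m)) :
    ∑ z, dz T d C z ≤ D * m := by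
  unfold dz
  refine (ExQR_att d _).trans ?_
  have h1 : ∀ t : Fin d.np, nb T C (d.sg t (d.rt t)) ≤ D * d.sz t := by
    intro t
    have h2 : nb T C (d.sg t (d.rt t)) ≤ nb T univ (d.sg t (d.rt t)) := by
      classical
      unfold nb
      refine Finset.card_le_card fun y hy => ?_
      exact Finset.mem_filter.2 ⟨Finset.mem_univ _, (Finset.mem_filter.1 hy).2⟩
    have h3 := h.deg_sg t (d.rt t)
    have h4 := d.pos t
    calc nb T C (d.sg t (d.rt t)) ≤ D := h2.trans h3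
      _ = D * 1 := (mul_one D).symm
      _ ≤ D * d.sz t := Nat.mul_le_mul_left D h4
  refine (Finset.sum_le_sum fun t _ => h1 t).trans ?_
  rw [← Finset.mul_sum]
  exact Nat.mul_le_mul_left D (ExQR_sz h)

end dec

section trees

variable {q R : ℕ} {G : Type} [Fintype G] [DecidableEq G] {A : Plc q R G} {P : Par q R}
  {D₁ D K Λ : ℕ} {ε B ε₂ γ κ₄ δ₅ γh : ℝ} {bm : Fin q → ℝ}

omit [DecidableEq G] in
private theorem ExQR_M (hP : ParOK P ε B) (hg : 0 < Fintype.card G) :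
    (0 : ℝ) < A.M ∧ (q : ℝ) ≤ A.M := by
  have h1 : (0 : ℝ) < q := by exact_mod_cast hP.q0
  have h2 : (1 : ℝ) ≤ Fintype.card G := by exact_mod_cast hg
  have h3 : (q : ℝ) ≤ A.M := by
    unfold Plc.M
    calc (q : ℝ) = q * 1 := (mul_one _).symm
      _ ≤ q * Fintype.card G := mul_le_mul_of_nonneg_left h2 h1.le
  exact ⟨h1.trans_le h3, h3⟩

private theorem ExQR_A (hA : PlcOK A P D₁ D K Λ B ε₂ γ κ₄ δ₅ γh bm) (hM : 0 < A.M)
    {f : Fin A.k → ℝ} {c : ℝ} (hc : 0 ≤ c) (hf : ∀ i, f i ≤ c / A.M) : ∑ i, f i ≤ 5 * c := by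
  calc ∑ i, f i ≤ ∑ _i : Fin A.k, c / A.M := Finset.sum_le_sum fun i _ => hf i
    _ = A.k * (c / A.M) := by
      rw [Finset.sum_const, nsmul_eq_mul, Finset.card_univ, Fintype.card_fin]
    _ ≤ 5 * A.M * (c / A.M) := mul_le_mul_of_nonneg_right hA.k_le (div_nonneg hc hM.le)
    _ = 5 * c := by field_simp

private theorem ExQR_B (hA : PlcOK A P D₁ D K Λ B ε₂ γ κ₄ δ₅ γh bm) (hq : 0 < q)
    (hqM : (q : ℝ) ≤ A.M) {f : Fin A.k → ℝ} {c : ℝ} (hc : 0 ≤ c) (hf : ∀ i, f i ≤ c / A.M)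
    (x : Fin q) : ∑ i ∈ univ.filter (fun i => A.X i = x), f i ≤ Λ * c / q := by
  have h1 : (0 : ℝ) < q := by exact_mod_cast hq
  have h2 : c / A.M ≤ c / q := div_le_div_of_nonneg_left hc h1 hqM
  calc ∑ i ∈ univ.filter (fun i => A.X i = x), f i ≤
        ∑ _i ∈ univ.filter (fun i => A.X i = x), c / q :=
          Finset.sum_le_sum fun i _ => (hf i).trans h2
    _ = (univ.filter (fun i => A.X i = x)).card * (c / q) := by
      rw [Finset.sum_const, nsmul_eq_mul]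
    _ ≤ Λ * (c / q) := mul_le_mul_of_nonneg_right (by exact_mod_cast hA.Xc x)
        (div_nonneg hc h1.le)
    _ = Λ * c / q := by ring

private theorem ExQR_sig {k : ℕ} {mm : Fin k → ℕ} (F : (Σ i : Fin k, Fin (mm i)) → ℝ)
    (X : Fin k → Fin q) (x : Fin q) :
    ∑ t ∈ univ.filter (fun t : Σ i : Fin k, Fin (mm i) => X t.1 = x), F t =
      ∑ i ∈ univ.filter (fun i => X i = x), ∑ z, F ⟨i, z⟩ := by
  rw [Finset.sum_filter, Fintype.sum_sigma, Finset.sum_filter]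
  refine Finset.sum_congr rfl fun i _ => ?_
  by_cases h : X i = x
  · simp only [h, if_true]
  · simp only [h, if_false, Finset.sum_const_zero]

private theorem ExQR_gen (hA : PlcOK A P D₁ D K Λ B ε₂ γ κ₄ δ₅ γh bm) (hq : 0 < q)
    (hM : 0 < A.M) (hqM : (q : ℝ) ≤ A.M) (f : (Σ i : Fin A.k, Fin (A.mm i)) → ℝ)
    (hf0 : ∀ t, 0 ≤ f t) {c : ℝ} (hc : 0 ≤ c) (hf1 : ∀ i, ∑ z, f ⟨i, z⟩ ≤ c * A.M) :
    ∑ t, |f t / A.M ^ 2| ≤ 5 * c + 1 ∧
      ∀ x, ∑ t ∈ univ.filter (fun t : Σ i : Fin A.k, Fin (A.mm i) => A.X t.1 = x),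
        |f t / A.M ^ 2| ≤ (Λ * c + 1) / q := by
  have h1 : ∀ t, |f t / A.M ^ 2| = f t / A.M ^ 2 := fun t =>
    abs_of_nonneg (div_nonneg (hf0 t) (by positivity))
  have h2 : ∀ i, ∑ z, f ⟨i, z⟩ / A.M ^ 2 ≤ c / A.M := by
    intro i
    rw [← Finset.sum_div, div_le_div_iff₀ (by positivity) hM]
    calc (∑ z, f ⟨i, z⟩) * A.M ≤ c * A.M * A.M := mul_le_mul_of_nonneg_right (hf1 i) hM.le
      _ = c * A.M ^ 2 := by ring
  have hq0 : (0 : ℝ) < q := by exact_mod_cast hq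
  refine ⟨?_, fun x => ?_⟩
  · simp only [h1]
    rw [Fintype.sum_sigma]
    have := ExQR_A hA hM hc h2
    linarith
  · simp only [h1]
    rw [ExQR_sig (fun t => f t / A.M ^ 2) A.X x]
    refine (ExQR_B hA hq hqM hc h2 x).trans ?_
    exact div_le_div_of_nonneg_right (by linarith) hq0.le

private theorem ExQR_fin {M θ L m T F : ℝ} (hL : L = M ^ 2 * F)
    (hm : M ^ 2 * m ≤ T) (h : ¬ (L ≤ T + θ * M ^ 2)) : θ < |F - m| := by
  by_contra h1
  have h2 := (abs_le.1 (not_lt.1 h1)).2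
  apply h
  rw [hL]
  nlinarith [mul_le_mul_of_nonneg_left h2 (sq_nonneg M)]

variable {θ : ℝ}

open Classical in
omit [DecidableEq G] in
private theorem ExQR_prt (hg : 0 < Fintype.card G) (E : Fin q × G → Prop) (Y : Fin q) :
    0 ≤ prt E Y ∧ prt E Y ≤ 1 := by
  have hgr : (0 : ℝ) < Fintype.card G := by exact_mod_cast hg
  have h1 : ((univ.filter (fun v : Fin q × G => v.1 = Y ∧ E v)).card : ℝ) ≤
      Fintype.card G := by
    have h2 : (univ.filter (fun v : Fin q × G => v.1 = Y ∧ E v)).card ≤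
        (univ : Finset G).card := by
      refine Finset.card_le_card_of_injOn (fun v => v.2) (fun _ _ => mem_coe.2 (mem_univ _)) ?_
      rintro ⟨a, b⟩ ha ⟨a', b'⟩ ha' h3
      have h4 := (Finset.mem_filter.1 (mem_coe.1 ha)).2.1
      have h5 := (Finset.mem_filter.1 (mem_coe.1 ha')).2.1
      dsimp only at h3 h4 h5
      rw [h3, h4, h5]
    rw [Finset.card_univ] at h2
    exact_mod_cast h2
  have h6 : (0 : ℝ) ≤ ((univ.filter (fun v : Fin q × G => v.1 = Y ∧ E v)).card : ℝ) /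
    Fintype.card G := by positivity
  have h7 : ((univ.filter (fun v : Fin q × G => v.1 = Y ∧ E v)).card : ℝ) /
      Fintype.card G ≤ 1 := by
    rw [div_le_one hgr]
    exact h1
  unfold prt
  exact ⟨by linarith, by linarith⟩

private theorem ExQR_h2 (hP : ParOK P ε B) (hA : PlcOK A P D₁ D K Λ B ε₂ γ κ₄ δ₅ γh bm)
    (hg : 0 < Fintype.card G) (hθ : 0 ≤ θ) :
    PW P.wL (fun ω => ¬ ∀ i, ∀ z ∈ A.J i, |∑ Y ∈ univ.filter (fun Y => Y ≠ A.X i),
        prt (fun v => v ∈ A.F i ∨ A.zz (A.φ i z) v) Y * hit ω (A.X i) (A.lb i z) Y -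
      ∑ Y ∈ univ.filter (fun Y => Y ≠ A.X i),
        prt (fun v => v ∈ A.F i ∨ A.zz (A.φ i z) v) Y * P.p (A.X i) (A.lb i z) Y| ≤ θ * q) ≤
      5 * (Fintype.card G : ℝ) ^ 2 * q ^ 3 *
        (2 * Real.exp (-(θ ^ 2 / (16 * B ^ 4) * q))) := by
  have hB := B_ge hP
  have hM := (ExQR_M (A := A) hP hg).1
  have hgr : (0 : ℝ) < Fintype.card G := by exact_mod_cast hg
  refine ExQR_un hP (κ := Σ i : Fin A.k, Fin (A.mm i)) (fun k => k.2 ∈ A.J k.1)
    (fun k ω => |∑ Y ∈ univ.filter (fun Y => Y ≠ A.X k.1),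
        prt (fun v => v ∈ A.F k.1 ∨ A.zz (A.φ k.1 k.2) v) Y *
          hit ω (A.X k.1) (A.lb k.1 k.2) Y -
      ∑ Y ∈ univ.filter (fun Y => Y ≠ A.X k.1),
        prt (fun v => v ∈ A.F k.1 ∨ A.zz (A.φ k.1 k.2) v) Y *
          P.p (A.X k.1) (A.lb k.1 k.2) Y| ≤ θ * q) _
    (by positivity) ?_ ?_ ?_
  · rw [Fintype.card_sigma]
    simp only [Fintype.card_fin]
    push_cast
    calc ∑ i, (A.mm i : ℝ) ≤ ∑ _i : Fin A.k, A.M := Finset.sum_le_sum fun i _ => hA.m_le i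
      _ = A.k * A.M := by
        rw [Finset.sum_const, nsmul_eq_mul, Finset.card_univ, Fintype.card_fin]
      _ ≤ 5 * A.M * A.M := mul_le_mul_of_nonneg_right hA.k_le hM.le
      _ = 5 * (Fintype.card G : ℝ) ^ 2 * q ^ 2 := by
        unfold Plc.M
        ring
      _ ≤ 5 * (Fintype.card G : ℝ) ^ 2 * q ^ 3 :=
        mul_le_mul_of_nonneg_left (ExQR_pow hP.q0 (by norm_num)) (by positivity)
  · rintro ⟨i, z⟩ _
    have hK : ∀ Y, |prt (fun v => v ∈ A.F i ∨ A.zz (A.φ i z) v) Y| ≤ B := by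
      intro Y
      obtain ⟨h1, h2⟩ := ExQR_prt hg (fun v => v ∈ A.F i ∨ A.zz (A.φ i z) v) Y
      rw [abs_of_nonneg h1]
      linarith
    refine (pw_mono (wL_IsW hP) fun ω hω => not_le.1 hω).trans
      ((stat_hit hP (A.X i) (A.lb i z)
        (fun Y => prt (fun v => v ∈ A.F i ∨ A.zz (A.φ i z) v) Y) hK hθ).trans (le_of_eq ?_))
    congr 3
    ring
  · intro ω h i z hz
    exact h ⟨i, z⟩ hz

private theorem ExQR_e0 (hP : ParOK P ε B) (hA : PlcOK A P D₁ D K Λ B ε₂ γ κ₄ δ₅ γh bm)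
    (hg : 0 < Fintype.card G) (hθ : 0 ≤ θ) :
    PW P.wL (fun ω => ¬ ∀ V W, V ≠ W →
      ∑ i ∈ univ.filter (fun i => A.X i ≠ V ∧ A.X i ≠ W),
        (dp (A.d i) : ℝ) * (P.gg ω (A.X i) (A.S i) V * P.gg ω (A.X i) (A.S i) W) ≤
      (∑ i, (dp (A.d i) : ℝ)) + θ * A.M ^ 2) ≤
      1 * q ^ 3 * (2 * Real.exp (-(θ ^ 2 / (64 * B ^ 4 * (Λ + 1) * 5) * q))) := by
  obtain ⟨hM, hqM⟩ := ExQR_M (A := A) hP hg
  have hq0 : (0 : ℝ) < q := by exact_mod_cast hP.q0
  refine ExQR_un hP (κ := Fin q × Fin q) (fun k => k.1 ≠ k.2)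
    (fun k ω => ∑ i ∈ univ.filter (fun i => A.X i ≠ k.1 ∧ A.X i ≠ k.2),
        (dp (A.d i) : ℝ) * (P.gg ω (A.X i) (A.S i) k.1 * P.gg ω (A.X i) (A.S i) k.2) ≤
      (∑ i, (dp (A.d i) : ℝ)) + θ * A.M ^ 2) _
    (by positivity) ?_ ?_ ?_
  · rw [Fintype.card_prod, Fintype.card_fin]
    push_cast
    have := ExQR_pow hP.q0 (show 2 ≤ 3 by norm_num)
    rw [one_mul]
    linarith [sq (q : ℝ)]
  · rintro ⟨V, W⟩ h1
    have a0 : ∀ i, |(dp (A.d i) : ℝ) / A.M ^ 2| = (dp (A.d i) : ℝ) / A.M ^ 2 := fun i =>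
      abs_of_nonneg (by positivity)
    have a1 : ∀ i, (dp (A.d i) : ℝ) / A.M ^ 2 ≤ 1 / A.M := by
      intro i
      have h2 : (dp (A.d i) : ℝ) ≤ A.M :=
        le_trans (by exact_mod_cast ExQR_dp (hA.dec i)) (hA.m_le i)
      rw [div_le_div_iff₀ (by positivity) hM, one_mul, sq]
      exact mul_le_mul_of_nonneg_right h2 hM.le
    have a2 : ∑ i, |(dp (A.d i) : ℝ) / A.M ^ 2| ≤ 5 := by
      simp only [a0]
      have := ExQR_A hA hM zero_le_one a1
      linarith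
    have a3 : ∀ x, ∑ i ∈ univ.filter (fun i => A.X i = x), |(dp (A.d i) : ℝ) / A.M ^ 2| ≤
        ((Λ : ℝ) + 1) / q := by
      intro x
      simp only [a0]
      refine (ExQR_B hA hP.q0 hqM zero_le_one a1 x).trans ?_
      exact div_le_div_of_nonneg_right (by linarith) hq0.le
    have a4 := stat_gg hP h1 A.X A.S hA.vd (fun i => (dp (A.d i) : ℝ) / A.M ^ 2) a2 a3
      (by norm_num) (by positivity) hθ
    refine (pw_mono (wL_IsW hP) fun ω hω => ?_).trans (a4.trans (le_of_eq ?_))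
    · refine ExQR_fin (M := A.M) ?_ ?_ hω
      · rw [Finset.mul_sum]
        refine Finset.sum_congr rfl fun i _ => ?_
        field_simp
      · rw [Finset.mul_sum]
        refine le_trans (le_of_eq (Finset.sum_congr rfl fun i _ => ?_))
          (Finset.sum_le_sum_of_subset_of_nonneg
            (Finset.filter_subset (fun i => A.X i ≠ V ∧ A.X i ≠ W) univ)
            fun i _ _ => Nat.cast_nonneg (dp (A.d i)))
        field_simp
    · congr 3
      ring
  · intro ω h V W h1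
    exact h ⟨V, W⟩ h1

private theorem ExQR_e1 (hP : ParOK P ε B) (hA : PlcOK A P D₁ D K Λ B ε₂ γ κ₄ δ₅ γh bm)
    (hg : 0 < Fintype.card G) (hγ : 0 < γ) (hθ : 0 ≤ θ) :
    PW P.wL (fun ω => ¬ ∀ V W, V ≠ W →
      ∑ i ∈ univ.filter (fun i => A.X i ≠ V ∧ A.X i ≠ W), ∑ z ∈ A.J i,
      (cz (A.d i) z : ℝ) * (2 / P.s (A.X i) (A.lb i z) * (P.SX (A.X i) V W / P.al (A.X i) V)) *
        (hit ω (A.X i) (A.lb i z) V * P.gg ω (A.X i) (A.S i) W) ≤
    (∑ i, (∑ z ∈ A.J i, (cz (A.d i) z : ℝ)) * P.SX (A.X i) V W) + θ * A.M ^ 2) ≤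
      1 * q ^ 3 * (2 * Real.exp (-(θ ^ 2 / (64 * B ^ 4 * (Λ * (2 / γ * B) + 1) *
        (5 * (2 / γ * B) + 1)) * q))) := by
  obtain ⟨hM, hqM⟩ := ExQR_M (A := A) hP hg
  have hq0 : (0 : ℝ) < q := by exact_mod_cast hP.q0
  have hB := B_ge hP
  refine ExQR_un hP (κ := Fin q × Fin q) (fun k => k.1 ≠ k.2)
    (fun k ω => ∑ i ∈ univ.filter (fun i => A.X i ≠ k.1 ∧ A.X i ≠ k.2), ∑ z ∈ A.J i,
      (cz (A.d i) z : ℝ) *
        (2 / P.s (A.X i) (A.lb i z) * (P.SX (A.X i) k.1 k.2 / P.al (A.X i) k.1)) *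
        (hit ω (A.X i) (A.lb i z) k.1 * P.gg ω (A.X i) (A.S i) k.2) ≤
    (∑ i, (∑ z ∈ A.J i, (cz (A.d i) z : ℝ)) * P.SX (A.X i) k.1 k.2) + θ * A.M ^ 2) _
    (by positivity) ?_ ?_ ?_
  · rw [Fintype.card_prod, Fintype.card_fin]
    push_cast
    have := ExQR_pow hP.q0 (show 2 ≤ 3 by norm_num)
    rw [one_mul]
    linarith [sq (q : ℝ)]
  · rintro ⟨V, W⟩ h1
    obtain ⟨f, hf⟩ : ∃ f : (Σ i : Fin A.k, Fin (A.mm i)) → ℝ, f = fun t =>
      if t.2 ∈ A.J t.1 then (cz (A.d t.1) t.2 : ℝ) * (2 / P.s (A.X t.1) (A.lb t.1 t.2) *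
        (P.SX (A.X t.1) V W / P.al (A.X t.1) V)) else 0 := ⟨_, rfl⟩
    have hal : ∀ X, 0 < P.al X V := fun X => lt_of_lt_of_le hP.ε0 (hP.al_lo X V)
    have hr : ∀ X, P.SX X V W / P.al X V ≤ B := fun X => by
      rw [div_le_iff₀ (hal X)]
      calc P.SX X V W ≤ ε * B := hP.SXB X V W
        _ ≤ B * P.al X V := by
          rw [mul_comm]
          exact mul_le_mul_of_nonneg_left (hP.al_lo X V) (by linarith)
    have hf0 : ∀ t, 0 ≤ f t := by
      intro t
      rw [hf]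
      dsimp only
      split_ifs
      · exact mul_nonneg (Nat.cast_nonneg _) (mul_nonneg (div_nonneg (by norm_num) (hP.s0 _ _))
          (div_nonneg (hP.SX0 _ _ _) (hal _).le))
      · exact le_rfl
    have hf1 : ∀ i, ∑ z, f ⟨i, z⟩ ≤ 2 / γ * B * A.M := by
      intro i
      have h2 : ∀ z, f ⟨i, z⟩ ≤ 2 / γ * B * (cz (A.d i) z : ℝ) := by
        intro z
        rw [hf]
        dsimp only
        split_ifs with hz
        · rw [mul_comm]
          refine mul_le_mul_of_nonneg_right ?_ (Nat.cast_nonneg _)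
          have h3 := hA.sγ i z hz
          refine mul_le_mul (div_le_div_of_nonneg_left (by norm_num) hγ h3) (hr _)
            (div_nonneg (hP.SX0 _ _ _) (hal _).le) (by positivity)
        · positivity
      refine (Finset.sum_le_sum fun z _ => h2 z).trans ?_
      rw [← Finset.mul_sum]
      refine mul_le_mul_of_nonneg_left ?_ (by positivity)
      refine le_trans ?_ (hA.m_le i)
      exact_mod_cast ExQR_cz (hA.dec i)
    obtain ⟨a2, a3⟩ := ExQR_gen hA hP.q0 hM hqM f hf0 (by positivity) hf1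
    have a4 := stat_hg hP h1 (fun t : Σ i : Fin A.k, Fin (A.mm i) => A.X t.1)
      (fun t => A.lb t.1 t.2) (fun t => A.S t.1) (fun t => hA.vd t.1) (fun t => f t / A.M ^ 2)
      a2 a3 (by positivity) (by positivity) hθ
    refine (pw_mono (wL_IsW hP) fun ω hω => ?_).trans (a4.trans (le_of_eq ?_))
    · refine ExQR_fin (M := A.M) ?_ ?_ hω
      · rw [Finset.sum_filter, Finset.sum_filter, Fintype.sum_sigma, Finset.mul_sum]
        refine Finset.sum_congr rfl fun i _ => ?_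
        by_cases hi : A.X i ≠ V ∧ A.X i ≠ W
        · rw [if_pos hi, Finset.mul_sum, ← Finset.sum_filter_add_sum_filter_not univ
            (fun z => z ∈ A.J i)]
          rw [Finset.sum_eq_zero (s := univ.filter (fun z => ¬ z ∈ A.J i)), add_zero]
          · refine Finset.sum_congr ?_ fun z hz => ?_
            · ext z
              simp
            · rw [if_pos hi, hf]
              dsimp only
              rw [if_pos (Finset.mem_filter.1 hz).2]
              field_simp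
          · intro z hz
            rw [if_pos hi, hf]
            dsimp only
            rw [if_neg (Finset.mem_filter.1 hz).2]
            simp
        · rw [if_neg hi]
          simp only [if_neg hi, Finset.sum_const_zero, mul_zero]
      · rw [Finset.mul_sum]
        have b1 : ∀ t : (Σ i : Fin A.k, Fin (A.mm i)),
            A.M ^ 2 * (f t / A.M ^ 2 * P.p (A.X t.1) (A.lb t.1 t.2) V) =
              if t.2 ∈ A.J t.1 then (cz (A.d t.1) t.2 : ℝ) * P.SX (A.X t.1) V W else 0 := by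
          intro t
          rw [hf]
          dsimp only
          split_ifs with hz
          · have c1 : P.s (A.X t.1) (A.lb t.1 t.2) ≠ 0 :=
              (lt_of_lt_of_le hγ (hA.sγ t.1 t.2 hz)).ne'
            have c2 : P.al (A.X t.1) V ≠ 0 := (hal _).ne'
            unfold Par.p
            field_simp
          · simp
        have b2 : ∀ t : (Σ i : Fin A.k, Fin (A.mm i)),
            (0 : ℝ) ≤ if t.2 ∈ A.J t.1 then (cz (A.d t.1) t.2 : ℝ) * P.SX (A.X t.1) V W else 0 := by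
          intro t
          split_ifs
          · exact mul_nonneg (Nat.cast_nonneg _) (hP.SX0 _ _ _)
          · exact le_rfl
        refine le_trans (le_of_eq (Finset.sum_congr rfl fun t _ => b1 t)) ?_
        refine (Finset.sum_le_sum_of_subset_of_nonneg (Finset.filter_subset _ univ)
            fun t _ _ => b2 t).trans (le_of_eq ?_)
        rw [Fintype.sum_sigma]
        refine Finset.sum_congr rfl fun i _ => ?_
        dsimp only
        rw [Finset.sum_mul, ← Finset.sum_filter]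
        refine Finset.sum_congr ?_ fun z _ => rfl
        ext z
        simp
    · congr 3
      ring
  · intro ω h V W h1
    exact h ⟨V, W⟩ h1

private theorem ExQR_e2 (hP : ParOK P ε B) (hA : PlcOK A P D₁ D K Λ B ε₂ γ κ₄ δ₅ γh bm)
    (hg : 0 < Fintype.card G) (hθ : 0 ≤ θ) :
    PW P.wL (fun ω => ¬ ∀ V W, V ≠ W →
      ∑ i ∈ univ.filter (fun i => A.X i ≠ V ∧ A.X i ≠ W),
      ∑ z ∈ (A.md i).filter (fun z => (A.φ i z).1 ≠ V ∧ (A.φ i z).1 ≠ W), (cz (A.d i) z : ℝ) *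
        (P.gg ω (A.X i) (A.S i) V * P.fre ω (A.φ i z).1 V * P.gg ω (A.X i) (A.S i) W) ≤
    (∑ i, ∑ z ∈ A.md i, (cz (A.d i) z : ℝ)) + θ * A.M ^ 2) ≤
      1 * q ^ 3 * (2 * Real.exp (-(θ ^ 2 / (144 * B ^ 6 * (Λ + 1 + 2 * K) * 6) * q))) := by
  obtain ⟨hM, hqM⟩ := ExQR_M (A := A) hP hg
  have hq0 : (0 : ℝ) < q := by exact_mod_cast hP.q0
  have hgr : (0 : ℝ) < Fintype.card G := by exact_mod_cast hg
  have hB := B_ge hP
  refine ExQR_un hP (κ := Fin q × Fin q) (fun k => k.1 ≠ k.2)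
    (fun k ω => ∑ i ∈ univ.filter (fun i => A.X i ≠ k.1 ∧ A.X i ≠ k.2),
      ∑ z ∈ (A.md i).filter (fun z => (A.φ i z).1 ≠ k.1 ∧ (A.φ i z).1 ≠ k.2),
        (cz (A.d i) z : ℝ) * (P.gg ω (A.X i) (A.S i) k.1 * P.fre ω (A.φ i z).1 k.1 *
          P.gg ω (A.X i) (A.S i) k.2) ≤
    (∑ i, ∑ z ∈ A.md i, (cz (A.d i) z : ℝ)) + θ * A.M ^ 2) _
    (by positivity) ?_ ?_ ?_
  · rw [Fintype.card_prod, Fintype.card_fin]
    push_cast
    have := ExQR_pow hP.q0 (show 2 ≤ 3 by norm_num)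
    rw [one_mul]
    linarith [sq (q : ℝ)]
  · rintro ⟨V, W⟩ h1
    obtain ⟨f, hf⟩ : ∃ f : (Σ i : Fin A.k, Fin (A.mm i)) → ℝ, f = fun t =>
      if t.2 ∈ A.md t.1 then (cz (A.d t.1) t.2 : ℝ) else 0 := ⟨_, rfl⟩
    have hf0 : ∀ t, 0 ≤ f t := by
      intro t
      rw [hf]
      dsimp only
      split_ifs
      · exact Nat.cast_nonneg _
      · exact le_rfl
    have hf1 : ∀ i, ∑ z, f ⟨i, z⟩ ≤ 1 * A.M := by
      intro i
      have h2 : ∀ z, f ⟨i, z⟩ ≤ (cz (A.d i) z : ℝ) := by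
        intro z
        rw [hf]
        dsimp only
        split_ifs
        · exact le_rfl
        · exact Nat.cast_nonneg _
      refine (Finset.sum_le_sum fun z _ => h2 z).trans ?_
      rw [one_mul]
      refine le_trans ?_ (hA.m_le i)
      exact_mod_cast ExQR_cz (hA.dec i)
    obtain ⟨a2, a3⟩ := ExQR_gen hA hP.q0 hM hqM f hf0 zero_le_one hf1
    have a2' : ∑ t, |f t / A.M ^ 2| ≤ 6 := by linarith
    have a3' : ∀ x, ∑ t ∈ univ.filter (fun t : Σ i : Fin A.k, Fin (A.mm i) => A.X t.1 = x),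
        |f t / A.M ^ 2| ≤ ((Λ : ℝ) + 1 + 2 * K) / q := by
      intro x
      refine (a3 x).trans (div_le_div_of_nonneg_right ?_ hq0.le)
      have : (0 : ℝ) ≤ K := Nat.cast_nonneg K
      linarith
    have a5 : ∀ x, ∑ t ∈ univ.filter (fun t : Σ i : Fin A.k, Fin (A.mm i) =>
        (A.φ t.1 t.2).1 = x), |f t / A.M ^ 2| ≤ ((Λ : ℝ) + 1 + 2 * K) / q := by
      intro x
      have c1 : ∑ t ∈ univ.filter (fun t : Σ i : Fin A.k, Fin (A.mm i) =>
          (A.φ t.1 t.2).1 = x), f t ≤ 2 * K * Fintype.card G * A.M := by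
        have c2 : ∀ u : Fin q × G, ∑ i, ∑ z ∈ (A.md i).filter (fun z => A.φ i z = u),
            (cz (A.d i) z : ℝ) ≤ 2 * K * A.M := by
          intro u
          calc ∑ i, ∑ z ∈ (A.md i).filter (fun z => A.φ i z = u), (cz (A.d i) z : ℝ) ≤
                ∑ i, ∑ z ∈ (A.md i).filter (fun z => A.φ i z = u),
                  (K : ℝ) * (ac (A.d i) z : ℝ) :=
                Finset.sum_le_sum fun i _ => Finset.sum_le_sum fun z _ => by
                  exact_mod_cast ExQR_czac (hA.dec i) z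
            _ = K * ∑ i, ∑ z ∈ (A.md i).filter (fun z => A.φ i z = u),
                  (ac (A.d i) z : ℝ) := by
                simp only [Finset.mul_sum]
            _ ≤ K * (2 * A.M) := by
                refine mul_le_mul_of_nonneg_left ((hA.star u).trans ?_) (Nat.cast_nonneg K)
                exact mul_le_mul_of_nonneg_right (hA.bm2 _) hM.le
            _ = 2 * K * A.M := by ring
        have c3 : ∑ t ∈ univ.filter (fun t : Σ i : Fin A.k, Fin (A.mm i) =>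
            (A.φ t.1 t.2).1 = x), f t =
            ∑ y : G, ∑ i, ∑ z ∈ (A.md i).filter (fun z => A.φ i z = (x, y)),
              (cz (A.d i) z : ℝ) := by
          rw [Finset.sum_comm, Finset.sum_filter, Fintype.sum_sigma]
          refine Finset.sum_congr rfl fun i _ => ?_
          have c4 : ∀ y : G, ∑ z ∈ (A.md i).filter (fun z => A.φ i z = (x, y)),
              (cz (A.d i) z : ℝ) = ∑ z, if z ∈ A.md i ∧ A.φ i z = (x, y) then
                (cz (A.d i) z : ℝ) else 0 := by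
            intro y
            rw [← Finset.sum_filter]
            refine Finset.sum_congr ?_ fun _ _ => rfl
            ext z
            simp
          rw [Finset.sum_congr rfl fun y _ => c4 y, Finset.sum_comm]
          refine Finset.sum_congr rfl fun z _ => ?_
          rw [hf]
          dsimp only
          by_cases e1 : z ∈ A.md i
          · by_cases e2 : (A.φ i z).1 = x
            · rw [if_pos e2, if_pos e1, Finset.sum_eq_single (A.φ i z).2]
              · rw [if_pos ⟨e1, Prod.ext e2 rfl⟩]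
              · intro y _ hy
                rw [if_neg]
                rintro ⟨_, e3⟩
                exact hy (congrArg Prod.snd e3).symm
              · intro e3
                exact absurd (Finset.mem_univ _) e3
            · rw [if_neg e2, Finset.sum_eq_zero]
              intro y _
              rw [if_neg]
              rintro ⟨_, e3⟩
              exact e2 (congrArg Prod.fst e3)
          · rw [if_neg e1, ite_self, Finset.sum_eq_zero]
            intro y _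
            rw [if_neg]
            rintro ⟨e3, _⟩
            exact e1 e3
        rw [c3]
        refine (Finset.sum_le_sum fun y _ => c2 (x, y)).trans (le_of_eq ?_)
        rw [Finset.sum_const, nsmul_eq_mul, Finset.card_univ]
        ring
      have c5 : ∀ t, |f t / A.M ^ 2| = f t / A.M ^ 2 := fun t =>
        abs_of_nonneg (div_nonneg (hf0 t) (by positivity))
      simp only [c5]
      rw [← Finset.sum_div]
      calc (∑ t ∈ univ.filter (fun t : Σ i : Fin A.k, Fin (A.mm i) =>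
            (A.φ t.1 t.2).1 = x), f t) / A.M ^ 2 ≤
            2 * K * Fintype.card G * A.M / A.M ^ 2 :=
              div_le_div_of_nonneg_right c1 (by positivity)
        _ = 2 * K / q := by
          unfold Plc.M
          field_simp
        _ ≤ ((Λ : ℝ) + 1 + 2 * K) / q := by
          refine div_le_div_of_nonneg_right ?_ hq0.le
          have : (0 : ℝ) ≤ Λ := Nat.cast_nonneg Λ
          linarith
    have a4 := stat_gfg hP h1 (fun t : Σ i : Fin A.k, Fin (A.mm i) => A.X t.1)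
      (fun t => (A.φ t.1 t.2).1) (fun t => A.S t.1) (fun t => hA.vd t.1)
      (fun t => f t / A.M ^ 2) a2' a3' a5 (by norm_num) (by positivity) hθ
    refine (pw_mono (wL_IsW hP) fun ω hω => ?_).trans (a4.trans (le_of_eq ?_))
    · refine ExQR_fin (M := A.M) ?_ ?_ hω
      · rw [Finset.sum_filter, Finset.sum_filter, Fintype.sum_sigma, Finset.mul_sum]
        refine Finset.sum_congr rfl fun i _ => ?_
        by_cases hi : A.X i ≠ V ∧ A.X i ≠ W
        · rw [if_pos hi, Finset.mul_sum, ← Finset.sum_filter_add_sum_filter_not univ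
            (fun z => z ∈ (A.md i).filter (fun z => (A.φ i z).1 ≠ V ∧ (A.φ i z).1 ≠ W))]
          rw [Finset.sum_eq_zero (s := univ.filter (fun z => ¬ z ∈ (A.md i).filter
            (fun z => (A.φ i z).1 ≠ V ∧ (A.φ i z).1 ≠ W))), add_zero]
          · refine Finset.sum_congr ?_ fun z hz => ?_
            · ext z
              simp
            · obtain ⟨e1, e2, e3⟩ := Finset.mem_filter.1 (Finset.mem_filter.1 hz).2
              have e4 := hA.MX i z e1
              rw [if_pos ⟨hi.1, hi.2, e2, e3, Ne.symm e4⟩, hf]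
              dsimp only
              rw [if_pos e1]
              field_simp
          · intro z hz
            have e1 := (Finset.mem_filter.1 hz).2
            by_cases e2 : z ∈ A.md i
            · rw [if_neg, mul_zero]
              rintro ⟨_, _, e3, e4, _⟩
              exact e1 (Finset.mem_filter.2 ⟨e2, e3, e4⟩)
            · rw [hf]
              dsimp only
              rw [if_neg e2]
              simp
        · rw [if_neg hi, Finset.sum_eq_zero, mul_zero]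
          intro z _
          rw [if_neg]
          rintro ⟨e1, e2, _⟩
          exact hi ⟨e1, e2⟩
      · rw [Finset.mul_sum]
        have b1 : ∀ t : (Σ i : Fin A.k, Fin (A.mm i)), A.M ^ 2 * (f t / A.M ^ 2) = f t := by
          intro t
          field_simp
        refine le_trans (le_of_eq (Finset.sum_congr rfl fun t _ => b1 t)) ?_
        refine (Finset.sum_le_sum_of_subset_of_nonneg (Finset.filter_subset _ univ)
            fun t _ _ => hf0 t).trans (le_of_eq ?_)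
        rw [Fintype.sum_sigma, hf]
        refine Finset.sum_congr rfl fun i _ => ?_
        dsimp only
        rw [← Finset.sum_filter]
        refine Finset.sum_congr ?_ fun z _ => rfl
        ext z
        simp
    · congr 3
      ring
  · intro ω h V W h1
    exact h ⟨V, W⟩ h1

private theorem ExQR_d (hP : ParOK P ε B) (hA : PlcOK A P D₁ D K Λ B ε₂ γ κ₄ δ₅ γh bm)
    (hg : 0 < Fintype.card G) (hγ : 0 < γ) (hθ : 0 ≤ θ) (C : ∀ i, Finset (Fin (A.mm i))) :
    PW P.wL (fun ω => ¬ ∀ V,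
      ∑ i ∈ univ.filter (fun i => A.X i ≠ V), ∑ z ∈ A.J i,
      (dz (A.T i) (A.d i) (C i) z : ℝ) * (2 / P.s (A.X i) (A.lb i z)) *
        hit ω (A.X i) (A.lb i z) V ≤
    2 * (∑ i, ∑ z ∈ A.J i, (dz (A.T i) (A.d i) (C i) z : ℝ)) + θ * A.M ^ 2) ≤
      1 * q ^ 3 * (2 * Real.exp (-(θ ^ 2 / (16 * B ^ 2 * (Λ * (2 / γ * D) + 1) *
        (5 * (2 / γ * D) + 1)) * q))) := by
  obtain ⟨hM, hqM⟩ := ExQR_M (A := A) hP hg
  have hq0 : (0 : ℝ) < q := by exact_mod_cast hP.q0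
  have hB := B_ge hP
  refine ExQR_un hP (κ := Fin q) (fun _ => True)
    (fun V ω => ∑ i ∈ univ.filter (fun i => A.X i ≠ V), ∑ z ∈ A.J i,
      (dz (A.T i) (A.d i) (C i) z : ℝ) * (2 / P.s (A.X i) (A.lb i z)) *
        hit ω (A.X i) (A.lb i z) V ≤
    2 * (∑ i, ∑ z ∈ A.J i, (dz (A.T i) (A.d i) (C i) z : ℝ)) + θ * A.M ^ 2) _
    (by positivity) ?_ ?_ ?_
  · rw [Fintype.card_fin, one_mul]
    have := ExQR_pow hP.q0 (show 1 ≤ 3 by norm_num)
    rwa [pow_one] at this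
  · intro V _
    obtain ⟨f, hf⟩ : ∃ f : (Σ i : Fin A.k, Fin (A.mm i)) → ℝ, f = fun t =>
      if t.2 ∈ A.J t.1 then (dz (A.T t.1) (A.d t.1) (C t.1) t.2 : ℝ) *
        (2 / P.s (A.X t.1) (A.lb t.1 t.2)) else 0 := ⟨_, rfl⟩
    have hf0 : ∀ t, 0 ≤ f t := by
      intro t
      rw [hf]
      dsimp only
      split_ifs
      · exact mul_nonneg (Nat.cast_nonneg _) (div_nonneg (by norm_num) (hP.s0 _ _))
      · exact le_rfl
    have hf1 : ∀ i, ∑ z, f ⟨i, z⟩ ≤ 2 / γ * D * A.M := by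
      intro i
      have h2 : ∀ z, f ⟨i, z⟩ ≤ 2 / γ * (dz (A.T i) (A.d i) (C i) z : ℝ) := by
        intro z
        rw [hf]
        dsimp only
        split_ifs with hz
        · rw [mul_comm]
          refine mul_le_mul_of_nonneg_right ?_ (Nat.cast_nonneg _)
          exact div_le_div_of_nonneg_left (by norm_num) hγ (hA.sγ i z hz)
        · positivity
      refine (Finset.sum_le_sum fun z _ => h2 z).trans ?_
      rw [← Finset.mul_sum, mul_assoc]
      refine mul_le_mul_of_nonneg_left ?_ (by positivity)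
      have h3 : ∑ z, (dz (A.T i) (A.d i) (C i) z : ℝ) ≤ D * (A.mm i : ℝ) := by
        exact_mod_cast ExQR_dz (hA.dec i) (C i)
      exact h3.trans (mul_le_mul_of_nonneg_left (hA.m_le i) (Nat.cast_nonneg D))
    obtain ⟨a2, a3⟩ := ExQR_gen hA hP.q0 hM hqM f hf0 (by positivity) hf1
    have a4 := stat_t hP V (fun t : Σ i : Fin A.k, Fin (A.mm i) => A.X t.1)
      (fun t => A.lb t.1 t.2) (fun t => f t / A.M ^ 2)
      a2 a3 (by positivity) (by positivity) hθ
    refine (pw_mono (wL_IsW hP) fun ω hω => ?_).trans (a4.trans (le_of_eq ?_))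
    · refine ExQR_fin (M := A.M) ?_ ?_ hω
      · rw [Finset.sum_filter, Finset.sum_filter, Fintype.sum_sigma, Finset.mul_sum]
        refine Finset.sum_congr rfl fun i _ => ?_
        by_cases hi : A.X i ≠ V
        · rw [if_pos hi, Finset.mul_sum, ← Finset.sum_filter_add_sum_filter_not univ
            (fun z => z ∈ A.J i)]
          rw [Finset.sum_eq_zero (s := univ.filter (fun z => ¬ z ∈ A.J i)), add_zero]
          · refine Finset.sum_congr ?_ fun z hz => ?_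
            · ext z
              simp
            · rw [if_pos hi, hf]
              dsimp only
              rw [if_pos (Finset.mem_filter.1 hz).2]
              field_simp
          · intro z hz
            rw [if_pos hi, hf]
            dsimp only
            rw [if_neg (Finset.mem_filter.1 hz).2]
            simp
        · rw [if_neg hi]
          simp only [if_neg hi, Finset.sum_const_zero, mul_zero]
      · rw [Finset.mul_sum]
        have b1 : ∀ t : (Σ i : Fin A.k, Fin (A.mm i)),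
            A.M ^ 2 * (f t / A.M ^ 2 * P.p (A.X t.1) (A.lb t.1 t.2) V) ≤
              if t.2 ∈ A.J t.1 then 2 * (dz (A.T t.1) (A.d t.1) (C t.1) t.2 : ℝ) else 0 := by
          intro t
          rw [hf]
          dsimp only
          split_ifs with hz
          · have c1 : P.s (A.X t.1) (A.lb t.1 t.2) ≠ 0 :=
              (lt_of_lt_of_le hγ (hA.sγ t.1 t.2 hz)).ne'
            have c2 : A.M ^ 2 * ((dz (A.T t.1) (A.d t.1) (C t.1) t.2 : ℝ) *
                (2 / P.s (A.X t.1) (A.lb t.1 t.2)) / A.M ^ 2 *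
                P.p (A.X t.1) (A.lb t.1 t.2) V) =
                P.al (A.X t.1) V * (dz (A.T t.1) (A.d t.1) (C t.1) t.2 : ℝ) := by
              unfold Par.p
              field_simp
            rw [c2]
            refine mul_le_mul_of_nonneg_right ?_ (Nat.cast_nonneg _)
            linarith [hP.al_hi (A.X t.1) V, hP.ε0]
          · simp
        have b2 : ∀ t : (Σ i : Fin A.k, Fin (A.mm i)),
            (0 : ℝ) ≤ if t.2 ∈ A.J t.1 then
              2 * (dz (A.T t.1) (A.d t.1) (C t.1) t.2 : ℝ) else 0 := by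
          intro t
          split_ifs
          · positivity
          · exact le_rfl
        refine le_trans (Finset.sum_le_sum fun t _ => b1 t) ?_
        refine (Finset.sum_le_sum_of_subset_of_nonneg (Finset.filter_subset _ univ)
            fun t _ _ => b2 t).trans (le_of_eq ?_)
        rw [Fintype.sum_sigma, Finset.mul_sum]
        refine Finset.sum_congr rfl fun i _ => ?_
        dsimp only
        rw [Finset.mul_sum, ← Finset.sum_filter]
        refine Finset.sum_congr ?_ fun z _ => rfl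
        ext z
        simp
    · congr 3
      ring
  · intro ω h V
    exact h V trivial

end trees

theorem ex_qr (ε B θ θc γ ε₂ κ₄ δ₅ γh : ℝ) (hε : 0 < ε) (hB : 1 ≤ B) (hθ : 0 < θ) (hθc : 0 < θc)
    (hγ : 0 < γ) (R g D₁ D K Λ : ℕ) (hg : 0 < g) :
    ∃ q0 : ℕ, ∀ q, q0 ≤ q → ∀ (G : Type) [Fintype G] [DecidableEq G], Fintype.card G = g →
      ∀ (P : Par q R) (A : Plc q R G) (bm : Fin q → ℝ), ParOK P ε B →
        PlcOK A P D₁ D K Λ B ε₂ γ κ₄ δ₅ γh bm → ∃ ω : Om q R, QRc P A B θ θc γ ω := by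
  obtain ⟨q0, hq0⟩ := Filter.eventually_atTop.1
    ((ExQR_ev (2 ^ R) (θ ^ 2 / (64 * B ^ 6)) (by positivity)).and
    ((ExQR_ev (2 ^ R) (θ ^ 2 / (16 * B ^ 4)) (by positivity)).and
    ((ExQR_ev 1 (θ ^ 2 / (16 * B ^ 4)) (by positivity)).and
    ((ExQR_ev (5 * (g : ℝ) ^ 2) ((θ * γ / 8) ^ 2 / (16 * B ^ 4)) (by positivity)).and
    ((ExQR_ev R ((θ * γ / 8) ^ 2 / (64 * B ^ 6)) (by positivity)).and
    ((ExQR_ev (2 ^ R) (θ ^ 2 / (144 * B ^ 8)) (by positivity)).and
    ((ExQR_ev (2 ^ R * 2 ^ R) (θc ^ 2 / (64 * B ^ 6)) (by positivity)).and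
    ((ExQR_ev 1 (θc ^ 2 / (64 * B ^ 6)) (by positivity)).and
    ((ExQR_ev 1 (θ ^ 2 / (64 * B ^ 4 * (Λ + 1) * 5)) (by positivity)).and
    ((ExQR_ev 1 (θ ^ 2 / (64 * B ^ 4 * (Λ * (2 / γ * B) + 1) * (5 * (2 / γ * B) + 1)))
      (by positivity)).and
    ((ExQR_ev 1 (θ ^ 2 / (144 * B ^ 6 * (Λ + 1 + 2 * K) * 6)) (by positivity)).and
    (ExQR_ev 1 (θc ^ 2 / (16 * B ^ 2 * (Λ * (2 / γ * D) + 1) * (5 * (2 / γ * D) + 1)))
      (by positivity)))))))))))))
  refine ⟨q0, fun q hq G _ _ hG P A bm hP hA => ?_⟩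
  obtain ⟨e1, e2, e3, e4, e5, e6, e7, e8, e9, e10, e11, e12⟩ := hq0 q hq
  have hg' : 0 < Fintype.card G := by rw [hG]; exact hg
  have hθ0 := hθ.le
  have hθγ : 0 ≤ θ * γ / 8 := by positivity
  have hB4 := B_ge hP
  have hεB : ε * B ≤ B := by nlinarith [hP.ε1]
  have kS0 : ∀ X V W : Fin q, |P.S0 V W| ≤ B := fun _ V W => by
    rw [abs_of_nonneg (hP.S00 V W)]
    exact (hP.S0B V W).trans hεB
  have kSm : ∀ V W : Fin q, |P.Sm V W| ≤ B := fun V W => by
    rw [abs_of_nonneg (hP.Sm0 V W)]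
    exact (hP.SmB V W).trans hεB
  have kSX : ∀ X V W : Fin q, |P.SX X V W| ≤ B := fun X V W => by
    rw [abs_of_nonneg (hP.SX0 X V W)]
    exact (hP.SXB X V W).trans hεB
  have kam : ∀ X V W : Fin q, |P.am W| ≤ B := fun _ _ W => by
    rw [abs_of_nonneg (hP.ε0.le.trans (hP.am_lo W))]
    linarith [hP.am_hi W, hP.ε0]
  have f1 := (ExQR_row hP hθ0 (fun _ V W => P.S0 V W) kS0).trans e1
  have f2 := (ExQR_row hP hθ0 (fun _ V W => P.Sm V W) (fun _ => kSm)).trans e1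
  have f3 := (ExQR_row hP hθ0 (fun X V W => P.SX X V W) kSX).trans e1
  have f4 := (ExQR_row hP hθ0 (fun _ _ W => P.am W) kam).trans e1
  have f5 := (ExQR_h9 hP hθ0).trans e2
  have f6 := (ExQR_h8 hP hθ0).trans e3
  rw [← hG] at e4
  have f7 := (ExQR_h2 hP hA hg' hθγ).trans e4
  have f8 := (ExQR_h3 hP hθγ).trans e5
  have f9 := (ExQR_h4 hP hθ0 P.Sm kSm).trans e6
  have f10 := (ExQR_g0 hP hθc.le).trans e7
  have f11 := (ExQR_f0 hP hθc.le).trans e8
  have f12 := (ExQR_e0 hP hA hg' hθ0).trans e9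
  have f13 := (ExQR_e1 hP hA hg' hγ hθ0).trans e10
  have f14 := (ExQR_e2 hP hA hg' hθ0).trans e11
  have f15 := (ExQR_d hP hA hg' hγ hθc.le (fun i => (A.d i).C1)).trans e12
  have f16 := (ExQR_d hP hA hg' hγ hθc.le (fun i => (A.d i).C2)).trans e12
  have F := ExQR_and hP f1 (ExQR_and hP f2 (ExQR_and hP f3 (ExQR_and hP f4 (ExQR_and hP f5
    (ExQR_and hP f6 (ExQR_and hP f7 (ExQR_and hP f8 (ExQR_and hP f9 (ExQR_and hP f10
    (ExQR_and hP f11 (ExQR_and hP f12 (ExQR_and hP f13 (ExQR_and hP f14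
    (ExQR_and hP f15 f16))))))))))))))
  by_contra hno
  push Not at hno
  have h1 : PW P.wL (fun _ : Om q R => True) ≤ 16 / 17 := by
    refine (pw_mono (wL_IsW hP) fun ω _ => ?_).trans (F.trans (le_of_eq (by norm_num)))
    rintro ⟨g1, g2, g3, g4, g5, g6, g7, g8, g9, g10, g11, g12, g13, g14, g15, g16⟩
    exact hno ω ⟨g1, g2, g3, g4, g5, g6, g7, g8, g9, g10, g11, g12, g13, g14, g15, g16⟩
  have h2 := pw_not (wL_IsW hP) (fun _ : Om q R => False)
  rw [pw_false, sub_zero] at h2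
  simp only [not_false_eq_true] at h2
  rw [h2] at h1
  norm_num at h1

end MP_80c395_TP
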