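import Pool.Agent.Lib.MP_80c395_co_TQ.UseE
import Pool.Agent.Lib.MP_80c395_co_TQ.Dmd2

/-!
# Project TQ: from placed centres and quasi-random labels to the packing

`bad_small` (BadS), `ex_laws` (TLaw) with `bt = btr P A ω κ₅`, `bu = bho P A ω κ₅`, `ex_own` (Own),
`mk2_ok` (Mk2),
`use_V`, `use_C`, `use_load`, `law_bd` (UseV), `use_E` (UseE), `dmd_two` (Dmd2); all stubs.
`ε' = ε₂ / 2`.
`hmain` is the conclusion of `tp_main` for the constants.  `M = A.M ≤ N = card V` (`hM`).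
`hk, hm` of `mk2_ok`: `k ≤ 3 N` is `hk3`; `mm i ≤ M ≤ N` (`m_le`).
`cload` of `mkDat2`: at `inl u` it is `∑ i, ∑ z ∈ Z, φ z = u, nb (C i) z` (cast to the reals), at
`inr _` it is `0`.
`Z = J ∪ md` for `hlw`.
-/

set_option autoImplicit false

namespace MP_80c395_TP

open Finset

variable {q R : ℕ} {P : Par q R} {ε B : ℝ} {G : Type} [Fintype G] [DecidableEq G] [Nonempty G]
  {A : Plc q R G} {ω : Om q R}

theorem s2_inst (hP : ParOK P ε B) {D₁ D K Λ : ℕ} {ε₂ γ κ₄ δ₅ γh : ℝ} {bm : Fin q → ℝ}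
    (hA : PlcOK A P D₁ D K Λ B ε₂ γ κ₄ δ₅ γh bm) {θ θc : ℝ} (hω : QRc P A B θ θc γ ω)
    {r : ℕ} (W1 W2 : Finset ((Fin q × G) ⊕ Fin r)) (hW1 : ∀ v : Fin q × G, Sum.inl v ∉ W1)
    (hW2 : ∀ v : Fin q × G, Sum.inl v ∉ W2) {η κ₅ A0 δ' γ₂ l1 l2 u1 u2 : ℝ}
    (hη : 0 ≤ η) (hκ₅ : 0 < κ₅) (hθ : 0 ≤ θ) (hθc : 0 ≤ θc) (hγ : 0 < γ) (hγ1 : γ ≤ 1)
    (hε₂ : 0 < ε₂)
    (hε₂1 : ε₂ ≤ 1) (hδ₅ : 0 ≤ δ₅) (hγh : 0 ≤ γh) (hδ' : 0 ≤ δ') (hγ₂ : 0 ≤ γ₂)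
    (hD₁ : 1 ≤ D₁) (hD : 1 ≤ D) (hK : 1 ≤ K)
    (n1 : 2 * B ≤ θ * q) (n2 : 2 ≤ κ₄ * q) (n3 : B ^ 3 * (5 * κ₄) ≤ θ) (n4 : 30 * θ ≤ η * ε)
    (n5 : 3 * η + 4 * κ₅ + 5 * B * θ ≤ ε₂ / 2) (n6 : 6 * B * θ ≤ 1) (n7 : 2 * B ^ 2 ≤ θc * q)
    (n8 : (B + 1) ^ 2 * 2 * δ₅ + 8 * θc ≤ κ₄ * κ₅ ^ 2) (n9 : 3 * B ^ 2 * γh ≤ γ₂)
    (hM : A.M ≤ Fintype.card ((Fin q × G) ⊕ Fin r))
    (a1 : 3 / γ / A.M ≤ A0 / Fintype.card ((Fin q × G) ⊕ Fin r))
    (a2 : 3 * B ^ 4 / A.M ≤ A0 / Fintype.card ((Fin q × G) ⊕ Fin r))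
    (hk3 : A.k ≤ 3 * Fintype.card ((Fin q × G) ⊕ Fin r))
    (c1 : ∀ u, ∑ i, ∑ z ∈ (A.d i).Z.filter (fun z => A.φ i z = u),
      (nb (A.T i) (A.d i).C1 z : ℝ) ≤ l1 * Fintype.card ((Fin q × G) ⊕ Fin r))
    (c2 : ∀ u, ∑ i, ∑ z ∈ (A.d i).Z.filter (fun z => A.φ i z = u),
      (nb (A.T i) (A.d i).C2 z : ℝ) ≤ l2 * Fintype.card ((Fin q × G) ⊕ Fin r))
    (hl1 : 0 ≤ l1) (hl2 : 0 ≤ l2)
    (b1 : (20 * B ^ 2 * D / K + 2 * θc) * A.M ≤ u1 * Fintype.card ((Fin q × G) ⊕ Fin r))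
    (b2 : (40 * B ^ 2 * D₁ / D + 2 * θc) * A.M ≤ u2 * Fintype.card ((Fin q × G) ⊕ Fin r))
    (hmain : ∀ (Q : Dat ((Fin q × G) ⊕ Fin r)),
        DatOK Q (univ.image Sum.inl) (W1 ∪ W2) D₁ D K A0 δ' (ε₂ / 2) γ₂ →
        (∀ v, (Q.cload (fun i => (Q.d i).C1) v : ℝ) ≤
          l1 * Fintype.card ((Fin q × G) ⊕ Fin r)) →
        (∀ v, (Q.cload (fun i => (Q.d i).C2) v : ℝ) ≤
          l2 * Fintype.card ((Fin q × G) ⊕ Fin r)) →
        (∀ v, dmd Q (fun i => (Q.d i).C1) v ≤ u1 * Fintype.card ((Fin q × G) ⊕ Fin r)) →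
        (∀ v, dmd Q (fun i => (Q.d i).C2) v ≤ u2 * Fintype.card ((Fin q × G) ⊕ Fin r)) →
        ∃ f : ∀ i, Fin (Q.m i) → (Fin q × G) ⊕ Fin r, (∀ i, Function.Injective (f i)) ∧
          ∀ i j, i ≠ j → ∀ a b c d, (Q.T i).Adj a b → (Q.T j).Adj c d →
            s(f i a, f i b) ≠ s(f j c, f j d)) :
    ∃ f : ∀ i, Fin (A.mm i) → (Fin q × G) ⊕ Fin r, (∀ i, Function.Injective (f i)) ∧
      ∀ i j, i ≠ j → ∀ a b c d, (A.T i).Adj a b → (A.T j).Adj c d →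
        s(f i a, f i b) ≠ s(f j c, f j d) := by
  classical
  have hB4 : 4 ≤ B := B_ge hP
  have hη1 : η ≤ 1 / 2 := by
    have h1 : 0 ≤ 5 * B * θ := by positivity
    linarith
  have hq0 : (0 : ℝ) < q := by exact_mod_cast hP.q0
  have hG0 : (0 : ℝ) < Fintype.card G := by exact_mod_cast Fintype.card_pos
  have hM0 : 0 < A.M := mul_pos hq0 hG0
  obtain ⟨hbt, hbu⟩ := bad_small hP hA hω n7 hκ₅ hδ₅ n8
  obtain ⟨L⟩ := ex_laws hP hA hω (btr P A ω κ₅) (bho P A ω κ₅) hbt hbu hγ hγ1 n1 n2 n3 n4 hη1 n6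
  obtain ⟨own, ho1, ho2, ho3⟩ := ex_own hA ω r
  obtain ⟨lJ, lm, lp⟩ := law_bd hP hA L hη hη1 hγ hγ1
  obtain ⟨g0⟩ : Nonempty G := inferInstance
  set h0 : Fin q × G := (⟨0, hP.q0⟩, g0) with hh0
  have hB1 : 1 ≤ B := by linarith
  have hB24 : B ^ 2 ≤ B ^ 4 := pow_le_pow_right₀ hB1 (by norm_num)
  have hB14 : B ≤ B ^ 4 := by
    have h1 : B ^ 1 ≤ B ^ 4 := pow_le_pow_right₀ hB1 (by norm_num)
    rwa [pow_one] at h1
  have hdiv : ∀ x : ℝ, x ≤ 3 * B ^ 4 →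
      x / A.M ≤ A0 / Fintype.card ((Fin q × G) ⊕ Fin r) := fun x hx =>
    (div_le_div_of_nonneg_right hx hM0.le).trans a2
  have hok : DatOK (mkDat2 L h0 own (1 + η)) (univ.image Sum.inl) (W1 ∪ W2) D₁ D K A0 δ'
      (ε₂ / 2) γ₂ := by
    refine mk2_ok hA L h0 own ho1 ho2 ho3 ?_ hη hδ' hk3 ?_ ?_ ?_ ?_ ?_ ?_ ?_ ?_ hγ₂ ?_
    · intro v hv
      rcases mem_union.1 hv with h | h
      · exact hW1 v h
      · exact hW2 v h
    · intro i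
      have h1 := (hA.m_le i).trans hM
      exact_mod_cast h1
    · intro u
      have h1 := use_load hP hA hε₂.le u
      linarith
    · intro i z hz v
      by_cases h : z ∈ A.J i
      · exact (lJ i z h v).trans a1
      · exact (lm i z (mem_sdiff.2 ⟨hz, h⟩) v).trans (hdiv _ (by linarith))
    · intro i v
      exact (lp i v).trans (hdiv _ (by linarith))
    · refine hdiv _ ?_
      have h1 : 0 ≤ B ^ 4 := by positivity
      linarith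
    · intro i v
      refine use_V hP hA L hη hη1 hκ₅.le hγ hε₂1 ?_ i v
      have h1 : 0 ≤ 5 * B * θ := by positivity
      linarith
    · intro v w _ h
      exact use_E hP hA hω L hη hη1 hκ₅.le hθ hγ hε₂.le hε₂1 n5 own ho3 v w h
    · linarith
    · intro i u w h
      exact (use_C hP hA L hη hη1 hγh own ho3 i u w h).trans n9
  have hcl : ∀ (C : ∀ i, Finset (Fin (A.mm i))) (l : ℝ), 0 ≤ l →
      (∀ u, ∑ i, ∑ z ∈ (A.d i).Z.filter (fun z => A.φ i z = u),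
        (nb (A.T i) (C i) z : ℝ) ≤ l * Fintype.card ((Fin q × G) ⊕ Fin r)) →
      ∀ v, ((mkDat2 L h0 own (1 + η)).cload C v : ℝ) ≤
        l * Fintype.card ((Fin q × G) ⊕ Fin r) := by
    intro C l hl hC v
    cases v with
    | inl u =>
      refine le_trans (le_of_eq ?_) (hC u)
      unfold Dat.cload
      push_cast
      refine sum_congr rfl fun i _ => ?_
      refine sum_congr ?_ fun z _ => rfl
      ext z
      constructor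
      · intro h
        have h2 := (@mem_filter _ _ (fun _ => Classical.propDecidable _) _ _).1 h
        exact mem_filter.2 ⟨h2.1, Sum.inl.inj h2.2⟩
      · intro h
        exact (@mem_filter _ _ (fun _ => Classical.propDecidable _) _ _).2 ⟨mem_of_mem_filter z h,
          congrArg Sum.inl (mem_filter.1 h).2⟩
    | inr u =>
      have h1 : (mkDat2 L h0 own (1 + η)).cload C (Sum.inr u) = 0 := by
        unfold Dat.cload
        refine sum_eq_zero fun i _ => ?_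
        refine sum_eq_zero fun z hz => ?_
        have h2 := ((@mem_filter _ _ (fun _ => Classical.propDecidable _) _ _).1 hz).2
        exact absurd h2 (fun h => Sum.inl_ne_inr h)
      rw [h1, Nat.cast_zero]
      positivity
  have hd := fun v => dmd_two hP hA hω L hη hη1 hθc hγ hγ1 hD hK h0 own v
  exact hmain (mkDat2 L h0 own (1 + η)) hok (hcl _ l1 hl1 c1) (hcl _ l2 hl2 c2)
    (fun v => (hd v).1.trans b1) (fun v => (hd v).2.trans b2)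


end MP_80c395_TP
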