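import Pool.Agent.Lib.MP_80c395_co_TQ.RowLaw

/-!
# Project TQ: the law of the pieces attached to a medium centre

`H = Fin q × G`, `M = q * card G`, `τ = θ / ε` (`30 τ ≤ η ≤ 1/2`).  The centre is placed at `u`, `u.1 ≠ X`.
`ρ`: `row_law` with `V = u.1`, `K = am`, `α = 1`, `ex v := v ∈ F ∨ v.1 = X ∨ v.1 ∈ bt ∨ zz u v ∨ v.1 ∈ bu`:
`ρ v ≤ (1 + 6 τ) am gg fre(u.1, v.1) / M`.
`κ1 v`, `v.1 ≠ X`: `row_law` with `K = Sm v.1`, `α = am v.1`,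
`ex w := w ∈ F ∨ w.1 = X ∨ w.1 ∈ bt ∨ zz v w ∨ w.1 = u.1`; `v.1 = X`: `def_row`.
Product: `ρ v κ1 v w ≤ (1 + 6 τ)^2 gg(v) fre(u,v) Sm(v,w) gg(w) fre(v,w) / M^2 ≤ (1 + 13 τ) ...`, zero if
`v.1 = X`, `w.1 = X`, `w.1 = u.1`.  (`v.1 = u.1`: `fre = 0`.)
Sum over `v`, for `w.1 ≠ X, u.1`: `≤ (1 + 13 τ) (gg(w.1) / M^2) card G ∑ V ≠ X, u.1, w.1, Sm gg fre fre`, by
`h4` the sum is at most `∑ V, Sm V w.1 + θ q = q (a0 + θ)` (`Smc`), total
`≤ (1 + 13 τ) (1 + τ) gg a0 / M ≤ (1 + 15 τ) gg a0 / M ≤ (1 + η / 2) gg a0 / M`.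
-/

set_option autoImplicit false

namespace MP_80c395_TP

open Finset

variable {q R : ℕ} {P : Par q R} {ε B : ℝ} {G : Type} [Fintype G] [DecidableEq G] [Nonempty G]

theorem medl_sum_fst {q : ℕ} {G : Type} [Fintype G] (f : Fin q → ℝ) :
    ∑ v : Fin q × G, f v.1 = Fintype.card G * ∑ V, f V := by
  rw [Fintype.sum_prod_type, Finset.mul_sum]
  refine Finset.sum_congr rfl fun V _ => ?_
  show ∑ _y : G, f V = _
  rw [Finset.sum_const, nsmul_eq_mul, Finset.card_univ]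

theorem medl_bd {ε B θ α K g f M : ℝ} (hε : 0 < ε) (hB : 4 ≤ B) (hα : ε ≤ α) (hK0 : 0 ≤ K)
    (hK : K ≤ ε * B) (g0 : 0 ≤ g) (gB : g ≤ B) (f0 : 0 ≤ f) (fB : f ≤ B) (hM : 0 < M)
    (hθ : 6 * θ ≤ ε) : (1 + 6 * θ / ε) * (K * (g * f) / (α * M)) ≤ B ^ 4 / M := by
  have hα0 : 0 < α := hε.trans_le hα
  have h1 : 1 + 6 * θ / ε ≤ 2 := by
    have : 6 * θ / ε ≤ 1 := by
      rw [div_le_one hε]
      exact hθ
    linarith
  have h2 : K * (g * f) / (α * M) ≤ B ^ 3 / M := by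
    rw [div_le_div_iff₀ (by positivity) hM]
    have h3 : K * (g * f) ≤ ε * B * (B * B) := by gcongr
    have h4 : ε * B * (B * B) ≤ α * B ^ 3 := by
      have : ε * B ^ 3 ≤ α * B ^ 3 := by gcongr
      linarith
    have h5 := mul_le_mul_of_nonneg_right (h3.trans h4) hM.le
    linarith
  have h6 : 0 ≤ K * (g * f) / (α * M) := by positivity
  have h7 : (1 + 6 * θ / ε) * (K * (g * f) / (α * M)) ≤ 2 * (K * (g * f) / (α * M)) :=
    mul_le_mul_of_nonneg_right h1 h6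
  have h8 : 2 * (B ^ 3 / M) ≤ B ^ 4 / M := by
    rw [mul_div_assoc', div_le_div_iff_of_pos_right hM]
    have : 0 < B ^ 3 := by positivity
    nlinarith
  linarith

open Classical in
theorem med_law (hP : ParOK P ε B) (ω : Om q R) {X : Fin q} {S : Finset (Fin R)}
    (hS : P.Vd B X S) (F : Finset (Fin q × G)) (bt bu : Finset (Fin q))
    (zz : Fin q × G → Fin q × G → Prop) (u : Fin q × G) (hu : u.1 ≠ X) {θ κ₃ η : ℝ}
    (ha : |∑ W ∈ univ.filter (fun W => W ≠ X ∧ W ≠ u.1),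
          P.am W * (P.gg ω X S W * P.fre ω u.1 W) -
        ∑ W ∈ univ.filter (fun W => W ≠ X ∧ W ≠ u.1), P.am W| ≤ θ * q)
    (h1 : ∀ V, V ≠ X → |∑ W ∈ univ.filter (fun W => W ≠ X ∧ W ≠ V),
          P.Sm V W * (P.gg ω X S W * P.fre ω V W) -
        ∑ W ∈ univ.filter (fun W => W ≠ X ∧ W ≠ V), P.Sm V W| ≤ θ * q)
    (h4 : ∀ W, W ≠ X → W ≠ u.1 → |∑ V ∈ univ.filter (fun V => V ≠ X ∧ V ≠ u.1 ∧ V ≠ W),
          P.Sm V W * (P.gg ω X S V * P.fre ω u.1 V * P.fre ω V W) -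
        ∑ V ∈ univ.filter (fun V => V ≠ X ∧ V ≠ u.1 ∧ V ≠ W), P.Sm V W| ≤ θ * q)
    (h8 : ∀ V, |∑ W ∈ univ.filter (fun W => W ≠ V), P.pf V W * P.fre ω V W -
        ∑ W ∈ univ.filter (fun W => W ≠ V), P.pf V W| ≤ θ * q)
    (hq : 2 * B ≤ θ * q)
    (hexc : ∀ v, ((univ.filter (fun w : Fin q × G => w ∈ F ∨ w.1 = X ∨ w.1 ∈ bt ∨ zz v w ∨
      w.1 ∈ bu ∨ w.1 = u.1)).card : ℝ) ≤ κ₃ * (q * Fintype.card G))
    (hκ : B ^ 3 * κ₃ ≤ θ) (hθ : 30 * θ ≤ η * ε) (hη : η ≤ 1 / 2) (hθB : 6 * B * θ ≤ 1) :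
    ∃ (ρ : Fin q × G → ℝ) (κ : Fin q × G → Fin q × G → ℝ),
      (∀ v, 0 ≤ ρ v) ∧ ∑ v, ρ v = 1 ∧
      (∀ v, ρ v ≠ 0 → v ∉ F ∧ v.1 ≠ X ∧ v.1 ∉ bt ∧ ¬ zz u v ∧ v.1 ∉ bu ∧ P.fre ω u.1 v.1 ≠ 0) ∧
      (∀ v, ρ v ≤ (1 + η) * (P.am v.1 * (P.gg ω X S v.1 * P.fre ω u.1 v.1) /
        (q * Fintype.card G))) ∧
      (∀ v w, 0 ≤ κ v w) ∧ (∀ v, ∑ w, κ v w = 1) ∧
      (∀ v w, κ v w ≠ 0 → w ∉ F ∧ P.fre ω v.1 w.1 ≠ 0 ∧ ¬ zz v w) ∧
      (∀ v w, κ v w ≤ B ^ 4 / (q * Fintype.card G)) ∧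
      (∀ v w, ρ v * κ v w ≠ 0 → w ∉ F ∧ v.1 ≠ X ∧ w.1 ≠ X ∧ w.1 ∉ bt ∧ w.1 ≠ u.1) ∧
      (∀ w, ∑ v, ρ v * κ v w ≤
        (1 + η / 2) * (P.gg ω X S w.1 * P.a0 w.1 / (q * Fintype.card G))) ∧
      ∀ v w, ρ v * κ v w ≤ (1 + η) * (P.Sm v.1 w.1 *
        (P.gg ω X S v.1 * P.fre ω u.1 v.1 * P.gg ω X S w.1) * P.fre ω v.1 w.1 /
          (q * Fintype.card G) ^ 2) := by
  have hB := B_ge hP
  have hε := hP.ε0
  have hε1 := hP.ε1
  have hq0 : (0 : ℝ) < q := by exact_mod_cast hP.q0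
  have hG0 : (0 : ℝ) < Fintype.card G := by exact_mod_cast Fintype.card_pos
  obtain ⟨M, hMd⟩ : ∃ M : ℝ, M = q * Fintype.card G := ⟨_, rfl⟩
  have hM : 0 < M := by
    rw [hMd]
    positivity
  have hθ0 : 0 < θ := by
    by_contra hcon
    push Not at hcon
    nlinarith
  have h6 : 6 * θ ≤ ε := by nlinarith
  obtain ⟨τ, hτd⟩ : ∃ τ : ℝ, τ = θ / ε := ⟨_, rfl⟩
  have hθτ : θ = τ * ε := by
    rw [hτd]
    field_simp
  have hτ0 : 0 < τ := by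
    rw [hτd]
    positivity
  have hτη : 30 * τ ≤ η := by
    rw [hθτ] at hθ
    have h7 : 30 * τ * ε ≤ η * ε := by linarith
    exact le_of_mul_le_mul_right h7 hε
  have h6τ : 6 * θ / ε = 6 * τ := by
    rw [hτd]
    ring
  obtain ⟨ρ, r1, r2, r3, r4⟩ := row_law hP ω (Ne.symm hu) hS P.am
    (fun W => hε.le.trans (hP.am_lo W))
    (fun W => (hP.am_hi W).trans (by linarith)) (α := 1) (θ := θ) (κ₃ := κ₃)
    (by rw [hP.sam, mul_one]) hε1 ha hq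
    (fun w => w ∈ F ∨ w.1 = X ∨ w.1 ∈ bt ∨ zz u w ∨ w.1 ∈ bu ∨ w.1 = u.1)
    (fun w hw => Or.inr (Or.inl hw)) (by convert hexc u) hκ h6
  have hex : ∀ v : Fin q × G, ∃ κ : Fin q × G → ℝ, (∀ w, 0 ≤ κ w) ∧ ∑ w, κ w = 1 ∧
      (∀ w, κ w ≠ 0 → ¬ (w ∈ F ∨ w.1 = X ∨ w.1 ∈ bt ∨ zz v w ∨ w.1 ∈ bu ∨ w.1 = u.1) ∧
        P.fre ω v.1 w.1 ≠ 0) ∧ (∀ w, κ w ≤ B ^ 4 / M) ∧
      (v.1 ≠ X → ∀ w, κ w ≤ (1 + 6 * τ) *
        (P.Sm v.1 w.1 * (P.gg ω X S w.1 * P.fre ω v.1 w.1) / (P.am v.1 * M))) := by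
    intro v
    by_cases hv : v.1 = X
    · obtain ⟨κ, k1, k2, k3, k4⟩ := def_row hP ω v.1 (h8 v.1) hq
        (fun w => w ∈ F ∨ w.1 = X ∨ w.1 ∈ bt ∨ zz v w ∨ w.1 ∈ bu ∨ w.1 = u.1)
        (by convert hexc v) hκ hθB
      refine ⟨κ, k1, k2, k3, fun w => ?_, fun h => absurd hv h⟩
      have h7 := k4 w
      rw [← hMd] at h7
      refine h7.trans ?_
      gcongr
      have h9 : (4 : ℝ) ^ 3 ≤ B ^ 3 := pow_le_pow_left₀ (by norm_num) hB 3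
      nlinarith
    · obtain ⟨κ, k1, k2, k3, k4⟩ := row_law hP ω (Ne.symm hv) hS (P.Sm v.1)
        (hP.Sm0 v.1) (fun W => (hP.SmB v.1 W).trans (by nlinarith)) (hP.Smr v.1)
        (hP.am_lo v.1) (h1 v.1 hv) hq
        (fun w => w ∈ F ∨ w.1 = X ∨ w.1 ∈ bt ∨ zz v w ∨ w.1 ∈ bu ∨ w.1 = u.1)
        (fun w hw => Or.inr (Or.inl hw)) (by convert hexc v) hκ h6
      rw [← hMd, h6τ] at k4
      refine ⟨κ, k1, k2, fun w hw => ⟨(k3 w hw).1, (k3 w hw).2.2⟩, fun w => ?_, fun _ => k4⟩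
      refine (k4 w).trans ?_
      have g1 := gg_bd hP hS ω w.1
      have g2 := fre_bd hP ω v.1 w.1
      rw [← h6τ]
      exact medl_bd hε hB (hP.am_lo v.1) (hP.Sm0 v.1 w.1) (hP.SmB v.1 w.1) g1.1 g1.2 g2.1 g2.2
        hM h6
  choose κ k1 k2 k3 k4 k5 using hex
  rw [← hMd, h6τ] at r4
  have hρX : ∀ v, ρ v ≠ 0 → v.1 ≠ X ∧ v.1 ≠ u.1 := by
    intro v hv
    have h7 := (r3 v hv).1
    push Not at h7
    exact ⟨h7.2.1, h7.2.2.2.2.2⟩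
  have hfac : (1 + 6 * τ) ^ 2 ≤ 1 + 14 * τ := by nlinarith
  have hprod : ∀ v w, v.1 ≠ X → ρ v * κ v w ≤ (1 + 6 * τ) ^ 2 / M ^ 2 *
      (P.Sm v.1 w.1 * (P.gg ω X S v.1 * P.fre ω u.1 v.1 * P.gg ω X S w.1) *
        P.fre ω v.1 w.1) := by
    intro v w hv
    have h7 := mul_le_mul (r4 v) (k5 v hv w) (k1 v w) ((r1 v).trans (r4 v))
    refine h7.trans (le_of_eq ?_)
    have ham : P.am v.1 ≠ 0 := (hε.trans_le (hP.am_lo v.1)).ne'
    field_simp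
  have hnn : ∀ v w : Fin q × G, 0 ≤ P.Sm v.1 w.1 *
      (P.gg ω X S v.1 * P.fre ω u.1 v.1 * P.gg ω X S w.1) * P.fre ω v.1 w.1 := by
    intro v w
    have a1 := hP.Sm0 v.1 w.1
    have a2 := (gg_bd hP hS ω v.1).1
    have a3 := (fre_bd hP ω u.1 v.1).1
    have a4 := (gg_bd hP hS ω w.1).1
    have a5 := (fre_bd hP ω v.1 w.1).1
    positivity
  rw [← hMd]
  refine ⟨ρ, κ, r1, r2, ?_, ?_, k1, k2, ?_, k4, ?_, ?_, ?_⟩
  · intro v hv
    obtain ⟨a1, -, a3⟩ := r3 v hv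
    push Not at a1
    exact ⟨a1.1, a1.2.1, a1.2.2.1, a1.2.2.2.1, a1.2.2.2.2.1, a3⟩
  · intro v
    refine (r4 v).trans ?_
    rw [one_mul]
    have a1 := hε.le.trans (hP.am_lo v.1)
    have a2 := (gg_bd hP hS ω v.1).1
    have a3 := (fre_bd hP ω u.1 v.1).1
    have a4 : 0 ≤ P.am v.1 * (P.gg ω X S v.1 * P.fre ω u.1 v.1) / M := by positivity
    exact mul_le_mul_of_nonneg_right (by linarith) a4
  · intro v w hw
    obtain ⟨a1, a2⟩ := k3 v w hw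
    push Not at a1
    exact ⟨a1.1, a2, a1.2.2.2.1⟩
  · intro v w hvw
    have b1 : ρ v ≠ 0 := left_ne_zero_of_mul hvw
    have b2 : κ v w ≠ 0 := right_ne_zero_of_mul hvw
    obtain ⟨a1, a2⟩ := k3 v w b2
    push Not at a1
    exact ⟨a1.1, (hρX v b1).1, a1.2.1, a1.2.2.1, a1.2.2.2.2.2⟩
  · intro w
    have ha0 := hε.trans_le (hP.a0_lo w.1)
    have hgw := (gg_bd hP hS ω w.1).1
    have hR : 0 ≤ P.gg ω X S w.1 * P.a0 w.1 / M := by positivity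
    by_cases hwX : w.1 = X ∨ w.1 = u.1
    · have h7 : ∑ v, ρ v * κ v w = 0 := by
        refine Finset.sum_eq_zero fun v _ => ?_
        by_cases h9 : κ v w = 0
        · rw [h9, mul_zero]
        · have h10 := (k3 v w h9).1
          push Not at h10
          rcases hwX with h11 | h11
          · exact absurd h11 h10.2.1
          · exact absurd h11 h10.2.2.2.2.2
      rw [h7]
      exact mul_nonneg (by linarith) hR
    · push Not at hwX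
      obtain ⟨hwX, hwu⟩ := hwX
      obtain ⟨f, hf⟩ : ∃ f : Fin q → ℝ, f = fun V => if V ≠ X ∧ V ≠ u.1 ∧ V ≠ w.1 then
            (1 + 6 * τ) ^ 2 / M ^ 2 * P.gg ω X S w.1 *
            (P.Sm V w.1 * (P.gg ω X S V * P.fre ω u.1 V * P.fre ω V w.1)) else 0 := ⟨_, rfl⟩
      have h7 : ∑ v, ρ v * κ v w ≤ ∑ v : Fin q × G, f v.1 := by
        rw [hf]
        refine Finset.sum_le_sum fun v _ => ?_
        by_cases h9 : ρ v * κ v w = 0
        · rw [h9]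
          show 0 ≤ if v.1 ≠ X ∧ v.1 ≠ u.1 ∧ v.1 ≠ w.1 then _ else _
          split_ifs
          · have a1 := hP.Sm0 v.1 w.1
            have a2 := (gg_bd hP hS ω v.1).1
            have a3 := (fre_bd hP ω u.1 v.1).1
            have a5 := (fre_bd hP ω v.1 w.1).1
            positivity
          · exact le_rfl
        · have b1 : ρ v ≠ 0 := left_ne_zero_of_mul h9
          have b2 : κ v w ≠ 0 := right_ne_zero_of_mul h9
          have b3 := hρX v b1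
          have b4 : v.1 ≠ w.1 := by
            intro h10
            apply (k3 v w b2).2
            rw [h10, fre_self]
          show _ ≤ if v.1 ≠ X ∧ v.1 ≠ u.1 ∧ v.1 ≠ w.1 then _ else _
          rw [if_pos ⟨b3.1, b3.2, b4⟩]
          refine (hprod v w b3.1).trans (le_of_eq ?_)
          ring
      rw [medl_sum_fst f, hf, ← Finset.sum_filter, ← Finset.mul_sum] at h7
      have h9 := (abs_le.1 (h4 w.1 hwX hwu)).2
      have h10 : ∑ V ∈ univ.filter (fun V => V ≠ X ∧ V ≠ u.1 ∧ V ≠ w.1), P.Sm V w.1 ≤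
          q * P.a0 w.1 := by
        rw [← hP.Smc w.1]
        exact Finset.sum_le_sum_of_subset_of_nonneg (Finset.filter_subset _ _)
          fun V _ _ => hP.Sm0 V w.1
      have h11 : ∑ V ∈ univ.filter (fun V => V ≠ X ∧ V ≠ u.1 ∧ V ≠ w.1),
          P.Sm V w.1 * (P.gg ω X S V * P.fre ω u.1 V * P.fre ω V w.1) ≤
          q * (P.a0 w.1 * (1 + τ)) := by
        have h12 : θ ≤ τ * P.a0 w.1 := by
          rw [hθτ]
          exact mul_le_mul_of_nonneg_left (hP.a0_lo w.1) hτ0.le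
        nlinarith
      refine h7.trans ?_
      have hC : 0 ≤ (1 + 6 * τ) ^ 2 / M ^ 2 * P.gg ω X S w.1 := by positivity
      have h13 := mul_le_mul_of_nonneg_left (mul_le_mul_of_nonneg_left h11 hC) hG0.le
      refine h13.trans ?_
      have h14 : (Fintype.card G : ℝ) * ((1 + 6 * τ) ^ 2 / M ^ 2 * P.gg ω X S w.1 *
          (q * (P.a0 w.1 * (1 + τ)))) =
          (1 + 6 * τ) ^ 2 * (1 + τ) * (P.gg ω X S w.1 * P.a0 w.1 / M) := by
        have h15 : (Fintype.card G : ℝ) = M / q := by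
          rw [hMd]
          field_simp
        rw [h15]
        field_simp
      rw [h14]
      refine mul_le_mul_of_nonneg_right ?_ hR
      have h16 : (1 + 6 * τ) ^ 2 * (1 + τ) ≤ (1 + 14 * τ) * (1 + τ) :=
        mul_le_mul_of_nonneg_right hfac (by linarith)
      nlinarith
  · intro v w
    have hR := hnn v w
    by_cases hv : ρ v = 0
    · rw [hv, zero_mul]
      have : 0 ≤ η := by linarith
      positivity
    · refine (hprod v w (hρX v hv).1).trans ?_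
      rw [div_mul_eq_mul_div, mul_div_assoc]
      have : 0 ≤ P.Sm v.1 w.1 * (P.gg ω X S v.1 * P.fre ω u.1 v.1 * P.gg ω X S w.1) *
        P.fre ω v.1 w.1 / M ^ 2 := by positivity
      exact mul_le_mul_of_nonneg_right (by linarith) this

end MP_80c395_TP
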