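import Pool.Agent.Lib.MP_80c395_co_TQ.Plc

/-!
# Project TQ: owners of host edges

`V = (Fin q × G) ⊕ Fin r`.  For a tree `i` and `s : Sym2 V` let `Z i s`: there are `x, y ∈ Z i`
adjacent with `s = s(inl (φ x), inl (φ y))`; at most one `i` (`dst`).  `L i s`: there are `z ∈ J i`
and `v` with `s = s(inl (φ z), inl v)` and `hit ω (X i) (lb z) v.1 = 1`; at most one `i`: if
`s(φ z, v) = s(φ' z', v')` with `φ z = φ' z'`, `v = v'`: `X i = (φ z).1 = X i'` (`JX`),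
`lb z = lb' z'` (`hit_hit`), so `i = i'` (`lbu`); if `φ z = v'`, `v = φ' z'`:
`hit ω (X i) _ v.1 = 1` with `v.1 = X i'`, and `hit ω (X i') _ (X i) = 1`, contradiction
(`hit_hit'`).
`own s = some i` if `Z i s` for some `i`; otherwise `some i` if `L i s` for some `i`; otherwise
`none`.
-/

set_option autoImplicit false

namespace MP_80c395_TP

open Finset

variable {q R : ℕ} {P : Par q R} {ε B : ℝ} {G : Type} [Fintype G] [DecidableEq G] [Nonempty G]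

private theorem Own_inl {V : Type} {r : ℕ} {a b c e : V}
    (h : s((Sum.inl a : V ⊕ Fin r), Sum.inl b) = s(Sum.inl c, Sum.inl e)) :
    (a = c ∧ b = e) ∨ (a = e ∧ b = c) := by
  rcases Sym2.eq_iff.1 h with ⟨h1, h2⟩ | ⟨h1, h2⟩
  · exact Or.inl ⟨Sum.inl.inj h1, Sum.inl.inj h2⟩
  · exact Or.inr ⟨Sum.inl.inj h1, Sum.inl.inj h2⟩

/-- `s` is the host edge of an edge between two centres of the tree `i` -/
private def Own_Z {q R : ℕ} {G : Type} (A : Plc q R G) (r : ℕ) (i : Fin A.k)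
    (s : Sym2 ((Fin q × G) ⊕ Fin r)) : Prop :=
  ∃ x ∈ (A.d i).Z, ∃ y ∈ (A.d i).Z, (A.T i).Adj x y ∧
    s(Sum.inl (A.φ i x), Sum.inl (A.φ i y)) = s

/-- `s` is a host edge at a slot of the tree `i` with the label of this slot -/
private def Own_L {q R : ℕ} {G : Type} (A : Plc q R G) (ω : Om q R) (r : ℕ) (i : Fin A.k)
    (s : Sym2 ((Fin q × G) ⊕ Fin r)) : Prop :=
  ∃ z ∈ A.J i, ∃ v : Fin q × G, hit ω (A.X i) (A.lb i z) v.1 = 1 ∧
    s(Sum.inl (A.φ i z), Sum.inl v) = s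

omit [Nonempty G] in
private theorem Own_Zu {A : Plc q R G} {D₁ D K Λ : ℕ} {ε₂ γ κ₄ δ₅ γh : ℝ}
    {bm : Fin q → ℝ} (hA : PlcOK A P D₁ D K Λ B ε₂ γ κ₄ δ₅ γh bm) {r : ℕ} {i j : Fin A.k}
    {s : Sym2 ((Fin q × G) ⊕ Fin r)} (hi : Own_Z A r i s) (hj : Own_Z A r j s) : i = j := by
  obtain ⟨a, ha, b, hb, hab, h1⟩ := hi
  obtain ⟨c, hc, e, he, hce, h2⟩ := hj
  by_contra hne
  refine hA.dst i j hne a ha b hb c hc e he hab hce (Sym2.eq_iff.2 ?_)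
  exact Own_inl (h1.trans h2.symm)

omit [Nonempty G] in
private theorem Own_Lu {A : Plc q R G} {D₁ D K Λ : ℕ} {ε₂ γ κ₄ δ₅ γh : ℝ}
    {bm : Fin q → ℝ} (hA : PlcOK A P D₁ D K Λ B ε₂ γ κ₄ δ₅ γh bm) {ω : Om q R} {r : ℕ}
    {i j : Fin A.k} {s : Sym2 ((Fin q × G) ⊕ Fin r)} (hi : Own_L A ω r i s)
    (hj : Own_L A ω r j s) : i = j := by
  obtain ⟨z, hz, v, hv, h1⟩ := hi
  obtain ⟨z', hz', v', hv', h2⟩ := hj
  have hv0 : hit ω (A.X i) (A.lb i z) v.1 ≠ 0 := by rw [hv]; exact one_ne_zero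
  have hv0' : hit ω (A.X j) (A.lb j z') v'.1 ≠ 0 := by rw [hv']; exact one_ne_zero
  have hX := hA.JX i z hz
  have hX' := hA.JX j z' hz'
  rcases Own_inl (h1.trans h2.symm) with ⟨h3, h4⟩ | ⟨h3, h4⟩
  · have h5 : A.X j = A.X i := by rw [← hX, ← hX', h3]
    rw [h5, ← h4] at hv0'
    exact hA.lbu i j z hz z' hz' h3 (hit_hit hv0 hv0')
  · exfalso
    have h5 : v.1 = A.X j := by rw [h4, hX']
    have h6 : v'.1 = A.X i := by rw [← h3, hX]
    rw [h5] at hv0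
    rw [h6] at hv0'
    exact hv0' (hit_hit' _ hv0)

theorem ex_own {A : Plc q R G} {D₁ D K Λ : ℕ} {ε₂ γ κ₄ δ₅ γh : ℝ}
    {bm : Fin q → ℝ} (hA : PlcOK A P D₁ D K Λ B ε₂ γ κ₄ δ₅ γh bm) (ω : Om q R) (r : ℕ) :
    ∃ own : Sym2 ((Fin q × G) ⊕ Fin r) → Option (Fin A.k),
      (∀ i, ∀ x ∈ (A.d i).Z, ∀ y ∈ (A.d i).Z, (A.T i).Adj x y →
        own s(Sum.inl (A.φ i x), Sum.inl (A.φ i y)) = some i) ∧
      (∀ u v i, own s(Sum.inl u, Sum.inl v) = some i → A.zz u v ∨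
        (∃ z ∈ A.J i, A.φ i z = u ∧ hit ω (A.X i) (A.lb i z) v.1 = 1) ∨
        (∃ z ∈ A.J i, A.φ i z = v ∧ hit ω (A.X i) (A.lb i z) u.1 = 1)) ∧
      ∀ i, ∀ z ∈ A.J i, ∀ v, hit ω (A.X i) (A.lb i z) v.1 = 1 → ¬ A.zz (A.φ i z) v →
        own s(Sum.inl (A.φ i z), Sum.inl v) = some i := by
  classical
  have hzz : ∀ (i : Fin A.k) (u v : Fin q × G), Own_Z A r i s(Sum.inl u, Sum.inl v) →
      A.zz u v := by
    rintro i u v ⟨x, hx, y, hy, hxy, h⟩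
    rcases Own_inl h with ⟨h1, h2⟩ | ⟨h1, h2⟩
    · exact ⟨i, x, hx, y, hy, hxy, h1, h2⟩
    · exact ⟨i, y, hy, x, hx, hxy.symm, h2, h1⟩
  refine ⟨fun s => if h : ∃ i, Own_Z A r i s then some h.choose else
    if h' : ∃ i, Own_L A ω r i s then some h'.choose else none, ?_, ?_, ?_⟩
  · intro i x hx y hy hxy
    have h0 : Own_Z A r i s(Sum.inl (A.φ i x), Sum.inl (A.φ i y)) := ⟨x, hx, y, hy, hxy, rfl⟩
    have h : ∃ j, Own_Z A r j s(Sum.inl (A.φ i x), Sum.inl (A.φ i y)) := ⟨i, h0⟩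
    simp only [dif_pos h]
    exact congrArg some (Own_Zu hA h.choose_spec h0)
  · intro u v i hi
    by_cases h : ∃ i, Own_Z A r i s(Sum.inl u, Sum.inl v)
    · obtain ⟨j, hj⟩ := h
      exact Or.inl (hzz j u v hj)
    · right
      by_cases h' : ∃ i, Own_L A ω r i s(Sum.inl u, Sum.inl v)
      · simp only [dif_neg h, dif_pos h'] at hi
        have h2 := h'.choose_spec
        rw [Option.some.inj hi] at h2
        obtain ⟨z, hz, w, hw, h3⟩ := h2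
        rcases Own_inl h3 with ⟨h4, h5⟩ | ⟨h4, h5⟩
        · exact Or.inl ⟨z, hz, h4, by rw [← h5]; exact hw⟩
        · exact Or.inr ⟨z, hz, h4, by rw [← h5]; exact hw⟩
      · simp only [dif_neg h, dif_neg h'] at hi
        exact absurd hi (by simp)
  · intro i z hz v hv hn
    have h : ¬ ∃ j, Own_Z A r j s(Sum.inl (A.φ i z), Sum.inl v) := by
      rintro ⟨j, hj⟩
      exact hn (hzz j _ _ hj)
    have h0 : Own_L A ω r i s(Sum.inl (A.φ i z), Sum.inl v) := ⟨z, hz, v, hv, rfl⟩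
    have h' : ∃ j, Own_L A ω r j s(Sum.inl (A.φ i z), Sum.inl v) := ⟨i, h0⟩
    simp only [dif_neg h, dif_pos h']
    exact congrArg some (Own_Lu hA h'.choose_spec h0)

end MP_80c395_TP
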