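import Pool.Agent.Lib.MP_80c395_co_TQ.TLaw
import Pool.Agent.Lib.MP_80c395_co_TQ.Own

/-!
# Project TQ: the data for the nibble

`V = (Fin q × G) ⊕ Fin r`, laws and kernels are extended by `eV`, `eK`.  `c = 1 + η`.
`mk2_ok`: the fields of `DatOK` for `mkDat2`.  Sums over `V`: `Fintype.sum_sum_type`.
* `lw1`, `kn1`, ...: for an attached piece `att t = some z`, `z ∈ Z` (`att_Z`); for an unattached piece `ρn, κn`.
  `kn (inr _) (inl w)` is the row of the fixed host `h0`.
* `lwV`: `ρ i (att t) v ≠ 0`: `v ∉ F i` in all cases (`πs, sρs, mρs`).  If `hst i t = some u`: `att t = some z`,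
  `u = inl (φ z)`.  If `z ∈ J i`: `hit ω (X i) (lb z) v.1 = 1` and `¬ zz`, so `own = some i` (`ho3`).  If `z ∈ md i`:
  `fre ω (φ z).1 v.1 ≠ 0` and `¬ zz`, so `own = none`: otherwise `ho2` gives `zz` or a `hit`, and `hit ≠ 0` implies
  `fre = 0` (`hit_fre`, `fre_comm`; note `(φ i' z').1 = X i'` for `z' ∈ J i'`, `JX`).
* `knV`, `knO`: `fre ω v.1 w.1 ≠ 0` (`κs`, `k1s`), so `v ≠ w` (`fre_self`), and `own = none` as before.
* `dom` (`0 < j`): if `(pr t j).val = 0`: `∑ v, ρ κ1 ≤ (1 + η) π w = lw j w` (`dom`; for `att t = none` it is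
  `∑ π κ = π w` by `st`); otherwise `∑ v, c π κ = c π w`.  Multiply by `1 + δ' ≥ 1`.
* `useV`: `∑ t, ∑ j, lw = ∑ t, ρ i (att t) v + c (∑ t, (sz t - 1)) π v`, and the sum over the pieces `t` is
  `∑ z ∈ Z, ac z ρ (some z) v + n0 π v`; `hV`.  For `v = inr _` it is `0`.
* `useE`: if `a` or `b` is `inr _`, all terms are `0`.  `star (inl v) (inl w) = sH v w`,
  `light (inl v) (inl w) ≤ lH v w`: for `j` with `0 < j.val`: `lw (pr j) v kn j v w` is
  `ρ (att t) v κ1 (att t) v w` if `(pr t j).val = 0` (`chn t` many), otherwise `c π v κ v w`; group the pieces by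
  `att t`; for unattached pieces all of them are `≤ c π κ` (`c ≥ 1`).  `dp` counts the terms `c π κ`.
* `cod`: `hC`.  `load_le`: `hload`.  `φ_own`: `ho1`.
-/

set_option autoImplicit false

namespace MP_80c395_TP

open Finset

/-- extension of a function by zero -/
def eV {H : Type} {r : ℕ} (f : H → ℝ) : H ⊕ Fin r → ℝ := Sum.elim f (fun _ => 0)

/-- extension of a kernel -/
def eK {H : Type} {r : ℕ} (h0 : H) (k : H → H → ℝ) : H ⊕ Fin r → H ⊕ Fin r → ℝ := fun a b =>
  match a, b with
  | Sum.inl v, Sum.inl w => k v w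
  | Sum.inr _, Sum.inl w => k h0 w
  | _, Sum.inr _ => 0

private theorem mk2_grp {m : ℕ} (d : Dec m) (hZ : ∀ t z, d.att t = some z → z ∈ d.Z)
    (h : Fin d.np → ℝ) :
    ∑ t, h t = ∑ t ∈ univ.filter (fun t => d.att t = none), h t +
      ∑ z ∈ d.Z, ∑ t ∈ univ.filter (fun t => d.att t = some z), h t := by
  have h1 : ∑ t, h t = ∑ o : Option (Fin m), ∑ t ∈ univ.filter (fun t => d.att t = o), h t :=
    (Finset.sum_fiberwise univ d.att h).symm
  rw [h1, Fintype.sum_option]
  congr 1
  refine (Finset.sum_subset (Finset.subset_univ _) ?_).symm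
  intro z _ hz
  refine Finset.sum_eq_zero ?_
  intro t ht
  exact absurd (hZ t z (Finset.mem_filter.1 ht).2) hz

private theorem mk2_grp2 {m : ℕ} (d : Dec m) (hZ : ∀ t z, d.att t = some z → z ∈ d.Z)
    (f : Option (Fin m) → ℝ) :
    ∑ t, f (d.att t) = (n0 d : ℝ) * f none + ∑ z ∈ d.Z, (ac d z : ℝ) * f (some z) := by
  rw [mk2_grp d hZ]
  congr 1
  · rw [Finset.sum_congr rfl fun t ht => by rw [(Finset.mem_filter.1 ht).2]]
    rw [Finset.sum_const, nsmul_eq_mul, n0]
  · refine Finset.sum_congr rfl fun z _ => ?_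
    rw [Finset.sum_congr rfl fun t ht => by rw [(Finset.mem_filter.1 ht).2]]
    rw [Finset.sum_const, nsmul_eq_mul, ac]

private theorem mk2_cnt {n : ℕ} (hn : 0 < n) :
    (univ.filter (fun j : Fin n => 0 < j.val)).card = n - 1 := by
  obtain ⟨k, rfl⟩ : ∃ k, n = k + 1 := ⟨n - 1, by omega⟩
  have h1 : univ.filter (fun j : Fin (k + 1) => 0 < j.val) = univ.erase 0 := by
    ext j
    rw [Finset.mem_filter, Finset.mem_erase]
    constructor
    · rintro ⟨_, h⟩
      refine ⟨?_, Finset.mem_univ _⟩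
      rintro rfl
      exact absurd h (by simp)
    · rintro ⟨h, _⟩
      refine ⟨Finset.mem_univ _, ?_⟩
      exact Nat.pos_of_ne_zero fun h2 => h (Fin.ext h2)
  rw [h1, Finset.card_erase_of_mem (Finset.mem_univ _), Finset.card_univ, Fintype.card_fin]

private theorem mk2_fe {τ : Type} [Fintype τ] (p : τ → Prop) (I : DecidablePred p)
    (h : ∀ t, ¬ p t) : (@Finset.filter τ p I univ).card = 0 := by
  rw [Finset.card_eq_zero, Finset.filter_eq_empty_iff]
  exact fun t _ => h t

private theorem mk2_chn {m : ℕ} (d : Dec m) (t : Fin d.np) : chn d t ≤ d.sz t - 1 := by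
  rw [← mk2_cnt (d.pos t), chn]
  refine Finset.card_le_card fun j hj => ?_
  rw [Finset.mem_filter] at hj ⊢
  exact ⟨hj.1, hj.2.1⟩

/-- the sum over the vertices of a piece of the law -/
private theorem mk2_sumj {n : ℕ} (hn : 0 < n) (a b : ℝ) :
    ∑ j : Fin n, (if j.val = 0 then a else b) = a + ((n - 1 : ℕ) : ℝ) * b := by
  obtain ⟨k, rfl⟩ : ∃ k, n = k + 1 := ⟨n - 1, by omega⟩
  rw [Fin.sum_univ_succ]
  rw [if_pos (show ((0 : Fin (k + 1)) : ℕ) = 0 from rfl)]
  rw [Finset.sum_congr rfl fun j _ => if_neg (show ¬ ((Fin.succ j : Fin (k + 1)) : ℕ) = 0 by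
    rw [Fin.val_succ]; omega)]
  rw [Finset.sum_const, Finset.card_univ, Fintype.card_fin, nsmul_eq_mul]
  simp

/-- the sum over the vertices of a piece for the light edges -/
private theorem mk2_sumk {m : ℕ} (d : Dec m) (t : Fin d.np) (I : ∀ j : Fin (d.sz t),
    Decidable (0 < j.val)) (a b : ℝ) :
    ∑ j : Fin (d.sz t), (@ite _ (0 < j.val) (I j) (if (d.pr t j).val = 0 then a else b) 0) =
      (chn d t : ℝ) * a + ((d.sz t - 1 - chn d t : ℕ) : ℝ) * b := by
  obtain rfl : I = fun j : Fin (d.sz t) => Nat.decLt 0 j.val := Subsingleton.elim _ _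
  have h0 : ∀ j : Fin (d.sz t), (if 0 < j.val then
      (if (d.pr t j).val = 0 then a else b) else 0) =
      (if 0 < j.val then b else 0) + (if 0 < j.val ∧ (d.pr t j).val = 0 then a - b else 0) := by
    intro j
    by_cases h1 : 0 < j.val <;> by_cases h2 : (d.pr t j).val = 0 <;> simp [h1, h2]
  rw [Finset.sum_congr rfl fun j _ => h0 j, Finset.sum_add_distrib, ← Finset.sum_filter,
    ← Finset.sum_filter, Finset.sum_const, Finset.sum_const, nsmul_eq_mul, nsmul_eq_mul,
    mk2_cnt (d.pos t)]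
  have h3 := mk2_chn d t
  rw [Nat.cast_sub h3]
  change _ + (chn d t : ℝ) * (a - b) = _
  ring

variable {q R : ℕ} {P : Par q R} {ε B : ℝ} {G : Type} [Fintype G] [DecidableEq G]
  {A : Plc q R G} {ω : Om q R} {bt : Fin A.k → Finset (Fin q)} {bu : Fin q × G → Finset (Fin q)}
  {η : ℝ}

/-- the data for the nibble -/
def mkDat2 (L : Laws P A ω bt bu B η) (h0 : Fin q × G) {r : ℕ}
    (own : Sym2 ((Fin q × G) ⊕ Fin r) → Option (Fin A.k)) (c : ℝ) :
    Dat ((Fin q × G) ⊕ Fin r) where
  k := A.k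
  m := A.mm
  T := A.T
  d := A.d
  φ := fun i x => Sum.inl (A.φ i x)
  own := own
  lw := fun i t j => eV (fun v => if j.val = 0 then L.ρ i ((A.d i).att t) v else c * L.π i v)
  kn := fun i t j => eK h0 (fun v w => if ((A.d i).pr t j).val = 0 then
    L.κ1 i ((A.d i).att t) v w else L.κ i v w)

/-- use of the host edge `{v, w}` by edges from centres at `v` -/
noncomputable def sH (L : Laws P A ω bt bu B η) (v w : Fin q × G) : ℝ :=
  ∑ i, ∑ z ∈ (A.d i).Z.filter (fun z => A.φ i z = v), (ac (A.d i) z : ℝ) * L.ρ i (some z) w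

/-- use of the host edge `{v, w}` by edges inside of pieces, with the parent at `v` -/
noncomputable def lH (L : Laws P A ω bt bu B η) (c : ℝ) (v w : Fin q × G) : ℝ :=
  ∑ i, (∑ z ∈ (A.d i).Z, (cz (A.d i) z : ℝ) * (L.ρ i (some z) v * L.κ1 i (some z) v w) +
    dp (A.d i) * (c * (L.π i v * L.κ i v w)))

/-- the piece is unattached or attached to a centre -/
private def Att (A : Plc q R G) (i : Fin A.k) (o : Option (Fin (A.mm i))) : Prop :=
  o = none ∨ ∃ z ∈ (A.d i).Z, o = some z

omit [Fintype G] [DecidableEq G] in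
private theorem mk2_att (hZ : ∀ i, ∀ t z, (A.d i).att t = some z → z ∈ (A.d i).Z) (i : Fin A.k)
    (t : Fin (A.d i).np) : Att A i ((A.d i).att t) := by
  rcases h : (A.d i).att t with _ | z
  · exact Or.inl rfl
  · exact Or.inr ⟨z, hZ i t z h, rfl⟩

private theorem mk2_r0 (L : Laws P A ω bt bu B η) {i : Fin A.k} {o : Option (Fin (A.mm i))}
    (h : Att A i o) (v : Fin q × G) : 0 ≤ L.ρ i o v := by
  rcases h with rfl | ⟨z, hz, rfl⟩
  · rw [L.ρn]
    exact L.π0 i v
  · exact L.ρ0 i z hz v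

private theorem mk2_r1 (L : Laws P A ω bt bu B η) {i : Fin A.k} {o : Option (Fin (A.mm i))}
    (h : Att A i o) : ∑ v, L.ρ i o v = 1 := by
  rcases h with rfl | ⟨z, hz, rfl⟩
  · rw [Finset.sum_congr rfl fun v _ => L.ρn i v]
    exact L.π1 i
  · exact L.ρ1 i z hz

private theorem mk2_k0 (L : Laws P A ω bt bu B η) {i : Fin A.k} {o : Option (Fin (A.mm i))}
    (h : Att A i o) (v w : Fin q × G) : 0 ≤ L.κ1 i o v w := by
  rcases h with rfl | ⟨z, hz, rfl⟩
  · rw [L.κn]
    exact L.κ0 i v w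
  · exact L.k10 i z hz v w

private theorem mk2_k1 (L : Laws P A ω bt bu B η) {i : Fin A.k} {o : Option (Fin (A.mm i))}
    (h : Att A i o) (v : Fin q × G) : ∑ w, L.κ1 i o v w = 1 := by
  rcases h with rfl | ⟨z, hz, rfl⟩
  · rw [Finset.sum_congr rfl fun w _ => L.κn i v w]
    exact L.κr i v
  · exact L.k1r i z hz v

private theorem mk2_ks (L : Laws P A ω bt bu B η) {i : Fin A.k} {o : Option (Fin (A.mm i))}
    (h : Att A i o) (v w : Fin q × G) (h1 : L.κ1 i o v w ≠ 0) :
    w ∉ A.F i ∧ P.fre ω v.1 w.1 ≠ 0 ∧ ¬ A.zz v w := by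
  rcases h with rfl | ⟨z, hz, rfl⟩
  · rw [L.κn] at h1
    exact L.κs i v w h1
  · exact L.k1s i z hz v w h1

private theorem mk2_kA (L : Laws P A ω bt bu B η) {i : Fin A.k} {o : Option (Fin (A.mm i))}
    (h : Att A i o) (v w : Fin q × G) : L.κ1 i o v w ≤ B ^ 4 / A.M := by
  rcases h with rfl | ⟨z, hz, rfl⟩
  · rw [L.κn]
    exact L.κA i v w
  · exact L.k1A i z hz v w

private theorem mk2_dom (L : Laws P A ω bt bu B η) (hη : 0 ≤ η) {i : Fin A.k}
    {o : Option (Fin (A.mm i))} (h : Att A i o) (w : Fin q × G) :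
    ∑ v, L.ρ i o v * L.κ1 i o v w ≤ (1 + η) * L.π i w := by
  rcases h with rfl | ⟨z, hz, rfl⟩
  · rw [Finset.sum_congr rfl fun v _ => by rw [L.ρn, L.κn], L.st]
    nlinarith [L.π0 i w]
  · exact L.dom i z hz w

omit [Fintype G] in
private theorem mk2_F {i : Fin A.k} {v : Fin q × G} (h : v ∉ A.F i) :
    ∀ z ∈ (A.d i).Z, A.φ i z ≠ v := by
  intro z hz h1
  exact h (Finset.mem_image.2 ⟨z, hz, h1⟩)

private theorem mk2_rF (L : Laws P A ω bt bu B η) {i : Fin A.k} {o : Option (Fin (A.mm i))}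
    (h : Att A i o) (v : Fin q × G) (h1 : L.ρ i o v ≠ 0) : v ∉ A.F i := by
  rcases h with rfl | ⟨z, hz, rfl⟩
  · rw [L.ρn] at h1
    exact (L.πs i v h1).1
  · by_cases hJ : z ∈ A.J i
    · exact (L.sρs i z hJ v h1).1
    · exact (L.mρs i z (Finset.mem_sdiff.2 ⟨hz, hJ⟩) v h1).1

theorem mk2_ok [Nonempty G] {D₁ D K Λ : ℕ} {ε₂ γ κ₄ δ₅ γh : ℝ} {bm : Fin q → ℝ}
    (hA : PlcOK A P D₁ D K Λ B ε₂ γ κ₄ δ₅ γh bm) (L : Laws P A ω bt bu B η) (h0 : Fin q × G)
    {r : ℕ} (own : Sym2 ((Fin q × G) ⊕ Fin r) → Option (Fin A.k))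
    (ho1 : ∀ i, ∀ x ∈ (A.d i).Z, ∀ y ∈ (A.d i).Z, (A.T i).Adj x y →
        own s(Sum.inl (A.φ i x), Sum.inl (A.φ i y)) = some i)
    (ho2 : ∀ u v i, own s(Sum.inl u, Sum.inl v) = some i → A.zz u v ∨
        (∃ z ∈ A.J i, A.φ i z = u ∧ hit ω (A.X i) (A.lb i z) v.1 = 1) ∨
        (∃ z ∈ A.J i, A.φ i z = v ∧ hit ω (A.X i) (A.lb i z) u.1 = 1))
    (ho3 : ∀ i, ∀ z ∈ A.J i, ∀ v, hit ω (A.X i) (A.lb i z) v.1 = 1 → ¬ A.zz (A.φ i z) v →
        own s(Sum.inl (A.φ i z), Sum.inl v) = some i)
    {W : Finset ((Fin q × G) ⊕ Fin r)} (hW : ∀ v : Fin q × G, Sum.inl v ∉ W)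
    {A0 δ' ε' γ₂ : ℝ} (hη : 0 ≤ η) (hδ' : 0 ≤ δ')
    (hk : A.k ≤ 3 * Fintype.card ((Fin q × G) ⊕ Fin r))
    (hm : ∀ i, A.mm i ≤ Fintype.card ((Fin q × G) ⊕ Fin r))
    (hload : ∀ u, ∑ i, ∑ z ∈ (A.d i).Z.filter (fun z => A.φ i z = u), (ac (A.d i) z : ℝ) ≤
      3 * Fintype.card ((Fin q × G) ⊕ Fin r))
    (hlw : ∀ i, ∀ z ∈ (A.d i).Z, ∀ v, L.ρ i (some z) v ≤
      A0 / Fintype.card ((Fin q × G) ⊕ Fin r))
    (hlp : ∀ i v, L.π i v ≤ A0 / Fintype.card ((Fin q × G) ⊕ Fin r))
    (hkn : B ^ 4 / A.M ≤ A0 / Fintype.card ((Fin q × G) ⊕ Fin r))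
    (hV : ∀ i v, ∑ z ∈ (A.d i).Z, (ac (A.d i) z : ℝ) * L.ρ i (some z) v +
      (n0 (A.d i) + (1 + η) * nr (A.d i)) * L.π i v ≤ 1 - ε')
    (hE : ∀ v w, v ≠ w → own s(Sum.inl v, Sum.inl w) = none →
      sH L v w + sH L w v + lH L (1 + η) v w + lH L (1 + η) w v ≤ 1 - ε')
    (hε' : ε' ≤ 1) (hγ₂ : 0 ≤ γ₂)
    (hC : ∀ i u w, own s(Sum.inl u, Sum.inl w) = none →
      ∑ z ∈ (A.d i).Z.filter (fun z => A.φ i z = u), (ac (A.d i) z : ℝ) * L.ρ i (some z) w ≤
        γ₂) :
    DatOK (mkDat2 L h0 own (1 + η)) (univ.image Sum.inl) W D₁ D K A0 δ' ε' γ₂ := by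
  classical
  have hc : (1 : ℝ) ≤ 1 + η := by linarith
  have hc0 : (0 : ℝ) ≤ 1 + η := by linarith
  have hZ : ∀ i, ∀ t z, (A.d i).att t = some z → z ∈ (A.d i).Z := fun i => (hA.dec i).att_Z
  have hAtt := mk2_att hZ
  have hN0 : 0 ≤ A0 / Fintype.card ((Fin q × G) ⊕ Fin r) := by
    refine le_trans ?_ hkn
    have h1 : 0 ≤ A.M := by
      unfold Plc.M
      positivity
    have h2 : 0 ≤ B ^ 4 := by positivity
    exact div_nonneg h2 h1
  -- free host edges
  have hfree : ∀ u v : Fin q × G, P.fre ω u.1 v.1 ≠ 0 → ¬ A.zz u v →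
      own s(Sum.inl u, Sum.inl v) = none := by
    intro u v h1 h2
    by_contra h3
    obtain ⟨i', hi'⟩ := Option.ne_none_iff_exists'.1 h3
    rcases ho2 u v i' hi' with h4 | ⟨z, hz, h5, h6⟩ | ⟨z, hz, h5, h6⟩
    · exact h2 h4
    · have h7 := hA.JX i' z hz
      rw [h5] at h7
      rw [h7] at h1
      exact h1 (hit_fre (P := P) (by rw [h6]; exact one_ne_zero))
    · have h7 := hA.JX i' z hz
      rw [h5] at h7
      rw [h7, fre_comm] at h1
      exact h1 (hit_fre (P := P) (by rw [h6]; exact one_ne_zero))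
  -- values
  have hrt : ∀ i t v, (mkDat2 L h0 own (1 + η)).lw i t ((A.d i).rt t) (Sum.inl v) =
      L.ρ i ((A.d i).att t) v := by
    intro i t v
    change (if ((A.d i).rt t).val = 0 then L.ρ i ((A.d i).att t) v else (1 + η) * L.π i v) = _
    rw [if_pos (show ((A.d i).rt t).val = 0 from rfl)]
  have hlw0 : ∀ i t (j : Fin ((A.d i).sz t)) v,
      0 ≤ (if j.val = 0 then L.ρ i ((A.d i).att t) v else (1 + η) * L.π i v) := by
    intro i t j v
    split_ifs
    · exact mk2_r0 L (hAtt i t) v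
    · exact mul_nonneg hc0 (L.π0 i v)
  have hkn0 : ∀ i t (j : Fin ((A.d i).sz t)) v w,
      0 ≤ (if ((A.d i).pr t j).val = 0 then L.κ1 i ((A.d i).att t) v w else L.κ i v w) := by
    intro i t j v w
    split_ifs
    · exact mk2_k0 L (hAtt i t) v w
    · exact L.κ0 i v w
  have hkn1 : ∀ i t (j : Fin ((A.d i).sz t)) v, ∑ w,
      (if ((A.d i).pr t j).val = 0 then L.κ1 i ((A.d i).att t) v w else L.κ i v w) = 1 := by
    intro i t j v
    split_ifs
    · exact mk2_k1 L (hAtt i t) v
    · exact L.κr i v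
  have hknA : ∀ i t (j : Fin ((A.d i).sz t)) v w,
      (if ((A.d i).pr t j).val = 0 then L.κ1 i ((A.d i).att t) v w else L.κ i v w) ≤
        A0 / Fintype.card ((Fin q × G) ⊕ Fin r) := by
    intro i t j v w
    refine le_trans ?_ hkn
    split_ifs
    · exact mk2_kA L (hAtt i t) v w
    · exact L.κA i v w
  have hkns : ∀ i t (j : Fin ((A.d i).sz t)) v w,
      (if ((A.d i).pr t j).val = 0 then L.κ1 i ((A.d i).att t) v w else L.κ i v w) ≠ 0 →
        w ∉ A.F i ∧ P.fre ω v.1 w.1 ≠ 0 ∧ ¬ A.zz v w := by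
    intro i t j v w h
    split_ifs at h
    · exact mk2_ks L (hAtt i t) v w h
    · exact L.κs i v w h
  -- the host of the centre
  have hhst : ∀ i t u, ((A.d i).att t).map (fun x => (Sum.inl (A.φ i x) : (Fin q × G) ⊕ Fin r)) =
      some u → ∃ z, (A.d i).att t = some z ∧ u = Sum.inl (A.φ i z) := by
    intro i t u h
    obtain ⟨z, h1, h2⟩ := Option.map_eq_some_iff.1 h
    exact ⟨z, h1, h2.symm⟩
  have hsum : ∀ i u (f : Option (Fin (A.mm i)) → ℝ)
      (I : ∀ t, Decidable ((mkDat2 L h0 own (1 + η)).hst i t = some (Sum.inl u))),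
      (∑ t, @ite _ ((mkDat2 L h0 own (1 + η)).hst i t = some (Sum.inl u)) (I t)
        (f ((A.d i).att t)) 0) =
      ∑ z ∈ (A.d i).Z.filter (fun z => A.φ i z = u), (ac (A.d i) z : ℝ) * f (some z) := by
    intro i u f I
    have h1 : ∀ t, (@ite _ ((mkDat2 L h0 own (1 + η)).hst i t = some (Sum.inl u)) (I t)
        (f ((A.d i).att t)) 0) =
        (fun o : Option (Fin (A.mm i)) => if o.map (fun x =>
          (Sum.inl (A.φ i x) : (Fin q × G) ⊕ Fin r)) = some (Sum.inl u) then f o else 0)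
          ((A.d i).att t) := by
      intro t
      have e : ((mkDat2 L h0 own (1 + η)).hst i t = some (Sum.inl u)) ↔
        (((A.d i).att t).map (fun x =>
          (Sum.inl (A.φ i x) : (Fin q × G) ⊕ Fin r)) = some (Sum.inl u)) := Iff.rfl
      by_cases h2 : (mkDat2 L h0 own (1 + η)).hst i t = some (Sum.inl u)
      · rw [if_pos h2]
        exact (if_pos (e.1 h2)).symm
      · rw [if_neg h2]
        exact (if_neg (fun h3 => h2 (e.2 h3))).symm
    refine (Finset.sum_congr rfl fun t _ => h1 t).trans ?_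
    refine (mk2_grp2 (A.d i) (hZ i) (fun o : Option (Fin (A.mm i)) => if o.map (fun x =>
      (Sum.inl (A.φ i x) : (Fin q × G) ⊕ Fin r)) = some (Sum.inl u) then f o else 0)).trans ?_
    rw [Finset.sum_filter]
    have h3 : (if (none : Option (Fin (A.mm i))).map (fun x =>
        (Sum.inl (A.φ i x) : (Fin q × G) ⊕ Fin r)) = some (Sum.inl u) then f none else 0) = 0 :=
      if_neg (by simp)
    rw [h3, mul_zero, zero_add]
    refine Finset.sum_congr rfl fun z _ => ?_
    by_cases h4 : A.φ i z = u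
    · rw [if_pos h4, if_pos (by rw [Option.map_some, h4])]
    · rw [if_neg h4, if_neg (by
        rw [Option.map_some, Option.some.injEq, Sum.inl.injEq]
        exact h4), mul_zero]
  have hstar : ∀ v w, (mkDat2 L h0 own (1 + η)).star (Sum.inl v) (Sum.inl w) = sH L v w := by
    intro v w
    unfold Dat.star sH
    refine Finset.sum_congr rfl fun i _ => ?_
    refine (Finset.sum_congr rfl fun t _ => ?_).trans
      (hsum i v (fun o => L.ρ i o w) (fun t => Classical.propDecidable _))
    by_cases h : (mkDat2 L h0 own (1 + η)).hst i t = some (Sum.inl v)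
    · rw [if_pos h, if_pos h]
      exact hrt i t w
    · rw [if_neg h, if_neg h]
  have hstar0 : ∀ a b, (∀ v, a ≠ Sum.inl v) ∨ (∀ w, b ≠ Sum.inl w) →
      (mkDat2 L h0 own (1 + η)).star a b = 0 := by
    intro a b h
    unfold Dat.star
    refine Finset.sum_eq_zero fun i _ => Finset.sum_eq_zero fun t _ => ?_
    rcases h with h | h
    · rw [if_neg]
      intro h1
      obtain ⟨z, _, h2⟩ := hhst i t a h1
      exact h _ h2
    · rcases b with b | b
      · exact absurd rfl (h b)
      · exact ite_self 0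
  have hlight0 : ∀ a b, (∀ v, a ≠ Sum.inl v) ∨ (∀ w, b ≠ Sum.inl w) →
      (mkDat2 L h0 own (1 + η)).light a b = 0 := by
    intro a b h
    unfold Dat.light
    refine Finset.sum_eq_zero fun i _ => Finset.sum_eq_zero fun t _ =>
      Finset.sum_eq_zero fun j _ => ?_
    rcases h with h | h
    · rcases a with a | a
      · exact absurd rfl (h a)
      · refine ite_eq_right_iff.2 fun _ => ?_
        exact zero_mul _
    · rcases b with b | b
      · exact absurd rfl (h b)
      · refine ite_eq_right_iff.2 fun _ => ?_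
        rcases a with a | a
        · exact mul_zero _
        · exact mul_zero _
  have hlight : ∀ v w, (mkDat2 L h0 own (1 + η)).light (Sum.inl v) (Sum.inl w) ≤
      lH L (1 + η) v w := by
    intro v w
    unfold Dat.light lH
    refine Finset.sum_le_sum fun i _ => ?_
    obtain ⟨c, hcc⟩ : ∃ c, c = (1 + η) * (L.π i v * L.κ i v w) := ⟨_, rfl⟩
    have hcc0 : 0 ≤ c := by
      rw [hcc]
      exact mul_nonneg hc0 (mul_nonneg (L.π0 i v) (L.κ0 i v w))
    have hcc1 : L.π i v * L.κ i v w ≤ c := by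
      rw [hcc]
      nlinarith [mul_nonneg (L.π0 i v) (L.κ0 i v w)]
    obtain ⟨g, hg⟩ : ∃ g : Option (Fin (A.mm i)) → ℝ,
      g = fun o => L.ρ i o v * L.κ1 i o v w := ⟨_, rfl⟩
    have h1 : ∀ t : Fin (A.d i).np, (∑ j : Fin ((A.d i).sz t), if 0 < j.val then
        (mkDat2 L h0 own (1 + η)).lw i t ((A.d i).pr t j) (Sum.inl v) *
        (mkDat2 L h0 own (1 + η)).kn i t j (Sum.inl v) (Sum.inl w) else 0) =
        (chn (A.d i) t : ℝ) * g ((A.d i).att t) +
          (((A.d i).sz t - 1 - chn (A.d i) t : ℕ) : ℝ) * c := by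
      intro t
      rw [← mk2_sumk (A.d i) t (fun j => inferInstance)]
      refine Finset.sum_congr rfl fun j _ => ?_
      by_cases h2 : 0 < j.val
      · rw [if_pos h2, if_pos h2]
        change (if ((A.d i).pr t j).val = 0 then L.ρ i ((A.d i).att t) v else
          (1 + η) * L.π i v) * (if ((A.d i).pr t j).val = 0 then
          L.κ1 i ((A.d i).att t) v w else L.κ i v w) = _
        rw [hg, hcc]
        split_ifs
        · rfl
        · ring
      · rw [if_neg h2, if_neg h2]
    have h2 : ∀ t : Fin (A.d i).np, (chn (A.d i) t : ℝ) * g ((A.d i).att t) +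
          (((A.d i).sz t - 1 - chn (A.d i) t : ℕ) : ℝ) * c ≤
        (if (A.d i).att t = none then 0 else (chn (A.d i) t : ℝ) * g ((A.d i).att t)) +
          (((A.d i).sz t - 1 - if (A.d i).att t = none then 0 else chn (A.d i) t : ℕ) : ℝ) *
          c := by
      intro t
      by_cases h3 : (A.d i).att t = none
      · rw [if_pos h3, if_pos h3, zero_add, h3, hg]
        have h4 := mk2_chn (A.d i) t
        change (chn (A.d i) t : ℝ) * (L.ρ i none v * L.κ1 i none v w) + _ ≤ _
        rw [L.ρn, L.κn, Nat.sub_zero, Nat.cast_sub h4]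
        have h5 : (0 : ℝ) ≤ chn (A.d i) t := Nat.cast_nonneg _
        nlinarith [mul_le_mul_of_nonneg_left hcc1 h5]
      · rw [if_neg h3, if_neg h3]
    have h3 : (∑ t : Fin (A.d i).np, ((if (A.d i).att t = none then 0 else
        (chn (A.d i) t : ℝ) * g ((A.d i).att t)) +
          (((A.d i).sz t - 1 - if (A.d i).att t = none then 0 else chn (A.d i) t : ℕ) : ℝ) *
          c)) = ∑ z ∈ (A.d i).Z, (cz (A.d i) z : ℝ) * g (some z) + dp (A.d i) * c := by
      rw [Finset.sum_add_distrib, mk2_grp (A.d i) (hZ i)]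
      congr 1
      · rw [Finset.sum_eq_zero fun t ht => by rw [if_pos (Finset.mem_filter.1 ht).2], zero_add]
        refine Finset.sum_congr rfl fun z _ => ?_
        rw [cz, Nat.cast_sum, Finset.sum_mul]
        refine Finset.sum_congr rfl fun t ht => ?_
        have h4 := (Finset.mem_filter.1 ht).2
        rw [if_neg (by rw [h4]; simp), h4]
      · rw [← Finset.sum_mul, dp, Nat.cast_sum]
    have h4 := Finset.sum_le_sum fun (t : Fin (A.d i).np) (_ : t ∈ univ) => (h1 t).le.trans (h2 t)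
    rw [h3, hg, hcc] at h4
    exact h4
  constructor
  · exact hA.tree
  · exact hA.dec
  · exact hk
  · exact hm
  · rw [Finset.disjoint_left]
    intro x hx
    obtain ⟨v, _, rfl⟩ := Finset.mem_image.1 hx
    exact hW v
  · intro i x hx y hy h
    exact hA.inj i x hx y hy (Sum.inl_injective h)
  · intro i x _
    exact hW _
  · exact ho1
  · -- load_le
    intro u
    rcases u with u | u
    · have h1 : (((mkDat2 L h0 own (1 + η)).load (Sum.inl u) : ℕ) : ℝ) =
          ∑ i, ∑ z ∈ (A.d i).Z.filter (fun z => A.φ i z = u), (ac (A.d i) z : ℝ) := by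
        unfold Dat.load
        rw [Nat.cast_sum]
        refine Finset.sum_congr rfl fun i _ => ?_
        have h2 := hsum i u (fun _ => 1) (fun t => Classical.propDecidable _)
        simp only [mul_one] at h2
        rw [Finset.card_filter, Nat.cast_sum]
        refine (Finset.sum_congr rfl fun t _ => ?_).trans h2
        by_cases h : (mkDat2 L h0 own (1 + η)).hst i t = some (Sum.inl u)
        · rw [if_pos h, if_pos h]
          exact Nat.cast_one
        · rw [if_neg h, if_neg h]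
          exact Nat.cast_zero
      have h2 := hload u
      rw [← h1] at h2
      exact_mod_cast h2
    · have h1 : (mkDat2 L h0 own (1 + η)).load (Sum.inr u) = 0 := by
        unfold Dat.load
        refine Finset.sum_eq_zero fun i _ => mk2_fe _ _ ?_
        intro t h2
        obtain ⟨z, _, h3⟩ := hhst i t _ h2
        exact absurd h3 (by simp)
      rw [h1]
      exact Nat.zero_le _
  · -- lw0
    intro i t j v
    rcases v with v | v
    · exact hlw0 i t j v
    · exact le_refl _
  · -- kn0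
    intro i t j v w
    rcases v with v | v <;> rcases w with w | w
    · exact hkn0 i t j v w
    · exact le_refl _
    · exact hkn0 i t j h0 w
    · exact le_refl _
  · -- lw1
    intro i t
    rw [Fintype.sum_sum_type]
    have h1 : ∑ b : Fin r, (mkDat2 L h0 own (1 + η)).lw i t ((A.d i).rt t) (Sum.inr b) = 0 :=
      Finset.sum_eq_zero fun _ _ => rfl
    have h2 : ∑ v, (mkDat2 L h0 own (1 + η)).lw i t ((A.d i).rt t) (Sum.inl v) = 1 := by
      rw [Finset.sum_congr rfl fun v _ => hrt i t v]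
      exact mk2_r1 L (hAtt i t)
    exact (congrArg₂ (· + ·) h2 h1).trans (add_zero 1)
  · -- kn1
    intro i t j v
    rw [Fintype.sum_sum_type]
    rcases v with v | v
    · have h1 : ∑ b : Fin r, (mkDat2 L h0 own (1 + η)).kn i t j (Sum.inl v) (Sum.inr b) = 0 :=
        Finset.sum_eq_zero fun _ _ => rfl
      exact (congrArg₂ (· + ·) (hkn1 i t j v) h1).trans (add_zero 1)
    · have h1 : ∑ b : Fin r, (mkDat2 L h0 own (1 + η)).kn i t j (Sum.inr v) (Sum.inr b) = 0 :=
        Finset.sum_eq_zero fun _ _ => rfl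
      exact (congrArg₂ (· + ·) (hkn1 i t j h0) h1).trans (add_zero 1)
  · -- lwA
    intro i t v
    rcases v with v | v
    · refine le_trans (hrt i t v).le ?_
      rcases hAtt i t with h | ⟨z, hz, h⟩
      · rw [h, L.ρn]
        exact hlp i v
      · rw [h]
        exact hlw i z hz v
    · exact hN0
  · -- knA
    intro i t j v w
    rcases v with v | v <;> rcases w with w | w
    · exact hknA i t j v w
    · exact hN0
    · exact hknA i t j h0 w
    · exact hN0
  · -- lwV
    intro i t v h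
    rcases v with v | v
    · have h1 : L.ρ i ((A.d i).att t) v ≠ 0 := by
        rw [← hrt i t v]
        exact h
      refine ⟨Finset.mem_image_of_mem _ (Finset.mem_univ _), ?_, ?_⟩
      · intro z hz h2
        exact mk2_F (mk2_rF L (hAtt i t) v h1) z hz (Sum.inl_injective h2)
      · intro u hu
        obtain ⟨z, h2, rfl⟩ := hhst i t u hu
        have hz := hZ i t z h2
        rw [h2] at h1
        by_cases hJ : z ∈ A.J i
        · obtain ⟨_, h3, h4⟩ := L.sρs i z hJ v h1
          exact Or.inr (ho3 i z hJ v h3 h4)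
        · obtain ⟨_, _, _, h3, _, h4⟩ := L.mρs i z (Finset.mem_sdiff.2 ⟨hz, hJ⟩) v h1
          exact Or.inl (hfree _ _ h4 h3)
    · exact absurd rfl h
  · -- knV
    intro i t j v w h
    rcases w with w | w
    · have h1 : w ∉ A.F i := by
        rcases v with v | v
        · exact (hkns i t j v w h).1
        · exact (hkns i t j h0 w h).1
      refine ⟨Finset.mem_image_of_mem _ (Finset.mem_univ _), ?_⟩
      intro z hz h2
      exact mk2_F h1 z hz (Sum.inl_injective h2)
    · rcases v with v | v <;> exact absurd rfl h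
  · -- knO
    intro i t j v w hv _ h
    obtain ⟨v, _, rfl⟩ := Finset.mem_image.1 hv
    rcases w with w | w
    · obtain ⟨_, h2, h3⟩ := hkns i t j v w h
      refine ⟨?_, Or.inl (hfree v w h2 h3)⟩
      intro h4
      rw [Sum.inl_injective h4] at h2
      exact h2 (fre_self ω w.1)
    · exact absurd rfl h
  · -- dom
    intro i t j w hj
    rcases w with w | w
    · have h1 : (mkDat2 L h0 own (1 + η)).lw i t j (Sum.inl w) = (1 + η) * L.π i w := by
        change (if j.val = 0 then L.ρ i ((A.d i).att t) w else (1 + η) * L.π i w) = _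
        rw [if_neg (by omega)]
      have h2 : ∑ b : Fin r, (mkDat2 L h0 own (1 + η)).lw i t ((A.d i).pr t j) (Sum.inr b) *
          (mkDat2 L h0 own (1 + η)).kn i t j (Sum.inr b) (Sum.inl w) = 0 :=
        Finset.sum_eq_zero fun _ _ => zero_mul _
      have h3 : ∑ v, (mkDat2 L h0 own (1 + η)).lw i t ((A.d i).pr t j) (Sum.inl v) *
          (mkDat2 L h0 own (1 + η)).kn i t j (Sum.inl v) (Sum.inl w) ≤
          (1 + η) * L.π i w := by
        change ∑ v, (if ((A.d i).pr t j).val = 0 then L.ρ i ((A.d i).att t) v else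
          (1 + η) * L.π i v) * (if ((A.d i).pr t j).val = 0 then
          L.κ1 i ((A.d i).att t) v w else L.κ i v w) ≤ _
        by_cases h4 : ((A.d i).pr t j).val = 0
        · simp only [if_pos h4]
          exact mk2_dom L hη (hAtt i t) w
        · simp only [if_neg h4]
          rw [← L.st i w, Finset.mul_sum]
          exact (Finset.sum_congr rfl fun v _ => by ring).le
      have h5 : 0 ≤ (1 + η) * L.π i w := mul_nonneg hc0 (L.π0 i w)
      rw [Fintype.sum_sum_type, h1]
      refine le_trans (add_le_add h3 h2.le) ?_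
      nlinarith
    · have h1 : ∑ v, (mkDat2 L h0 own (1 + η)).lw i t ((A.d i).pr t j) v *
          (mkDat2 L h0 own (1 + η)).kn i t j v (Sum.inr w) = 0 := by
        refine Finset.sum_eq_zero fun v _ => ?_
        rcases v with v | v
        · exact mul_zero _
        · exact mul_zero _
      refine le_trans h1.le (le_of_eq ?_)
      exact (mul_zero _).symm
  · -- useV
    intro i v
    rcases v with v | v
    · have h2 : ∑ t, L.ρ i ((A.d i).att t) v = (n0 (A.d i) : ℝ) * L.π i v +
          ∑ z ∈ (A.d i).Z, (ac (A.d i) z : ℝ) * L.ρ i (some z) v := by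
        rw [mk2_grp2 (A.d i) (hZ i) (fun o => L.ρ i o v), L.ρn]
      have h3 : ∑ t : Fin (A.d i).np, ∑ j : Fin ((A.d i).sz t),
          (if j.val = 0 then L.ρ i ((A.d i).att t) v else (1 + η) * L.π i v) ≤ 1 - ε' := by
        rw [Finset.sum_congr rfl fun t _ => mk2_sumj ((A.d i).pos t) _ _,
          Finset.sum_add_distrib, h2, ← Finset.sum_mul, ← Nat.cast_sum]
        have h4 := hV i v
        rw [nr] at h4
        linarith
      exact h3
    · refine le_trans (le_of_eq ?_) (sub_nonneg.2 hε')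
      exact Finset.sum_eq_zero fun t _ => Finset.sum_eq_zero fun j _ => rfl
  · -- useE
    intro a b hab hown
    rcases a with a | a
    · rcases b with b | b
      · rw [hstar, hstar]
        have h1 := hlight a b
        have h2 := hlight b a
        have h3 := hE a b (fun h => hab (by rw [h])) hown
        linarith
      · rw [hstar0 _ _ (Or.inr (by simp)), hstar0 _ _ (Or.inl (by simp)),
          hlight0 _ _ (Or.inr (by simp)), hlight0 _ _ (Or.inl (by simp))]
        linarith
    · rw [hstar0 _ _ (Or.inl (by simp)), hstar0 _ _ (Or.inr (by simp)),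
        hlight0 _ _ (Or.inl (by simp)), hlight0 _ _ (Or.inr (by simp))]
      linarith
  · -- cod
    intro i u w hown
    rcases u with u | u
    · rcases w with w | w
      · refine le_trans (le_of_eq ?_) (hC i u w hown)
        refine (Finset.sum_congr rfl fun t _ => ?_).trans
          (hsum i u (fun o => L.ρ i o w) (fun t => Classical.propDecidable _))
        by_cases h : (mkDat2 L h0 own (1 + η)).hst i t = some (Sum.inl u)
        · rw [if_pos h, if_pos h]
          exact hrt i t w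
        · rw [if_neg h, if_neg h]
      · refine le_trans (le_of_eq ?_) hγ₂
        refine Finset.sum_eq_zero fun t _ => ?_
        exact ite_self 0
    · refine le_trans (le_of_eq ?_) hγ₂
      refine Finset.sum_eq_zero fun t _ => ?_
      rw [if_neg]
      intro h1
      obtain ⟨z, _, h2⟩ := hhst i t _ h1
      exact absurd h2 (by simp)

end MP_80c395_TP
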