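import Pool.Agent.Lib.MP_80c395_co_TQ.QRG

/-!
# Project TQ: clusters, labels of the pairs of clusters (definitions)

There are `q` clusters of hosts and `R` slots in every cluster.  A pair of different clusters `X, Y` gets
a random label: `some (X, j)` (the host edges between `X` and `Y` are used by the slots `j` of the hosts of
`X`) with probability `p X j Y`, `some (Y, j)` with probability `p Y j X`, or `none` (the host edges are
free) with probability `pf X Y`.
-/

set_option autoImplicit false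

namespace MP_80c395_TP

open Finset Pool.Agent.Lib.CD

/-- the numbers: `s X j` size of the slot `j` of the cluster `X`; `al X Y`, `am Y`, `a0 Y`: densities of
the law of the roots at slots of `X`, of the roots at medium centres, of the stationary law; `SX X`,
`Sm`, `S0`: densities of the laws of the first edges after slots of `X`, after medium centres, and of the
other edges -/
structure Par (q R : ℕ) where
  s : Fin q → Fin R → ℝ
  al : Fin q → Fin q → ℝ
  am : Fin q → ℝ
  a0 : Fin q → ℝ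
  SX : Fin q → Fin q → Fin q → ℝ
  Sm : Fin q → Fin q → ℝ
  S0 : Fin q → Fin q → ℝ

/-- labels -/
abbrev Lb (q R : ℕ) : Type := Option (Fin q × Fin R)

/-- labellings -/
abbrev Om (q R : ℕ) : Type := Fin q × Fin q → Lb q R

/-- the coordinate of the pair `{X, Y}` -/
def key {q : ℕ} (X Y : Fin q) : Fin q × Fin q := (min X Y, max X Y)

/-- indicator of the label `(X, j)` -/
noncomputable def hF {q R : ℕ} (X : Fin q) (j : Fin R) (l : Lb q R) : ℝ :=
  if l = some (X, j) then 1 else 0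

/-- `1` if the host edges between `X` and `Y` are used by the slots `j` of `X` -/
noncomputable def hit {q R : ℕ} (ω : Om q R) (X : Fin q) (j : Fin R) (Y : Fin q) : ℝ :=
  if X = Y then 0 else hF X j (ω (key X Y))

namespace Par

variable {q R : ℕ} (P : Par q R)

noncomputable def p (X : Fin q) (j : Fin R) (Y : Fin q) : ℝ := P.s X j * P.al X Y / 2

noncomputable def pS (X : Fin q) (S : Finset (Fin R)) (Y : Fin q) : ℝ := ∑ j ∈ S, P.p X j Y

noncomputable def pf (X Y : Fin q) : ℝ := 1 - ∑ j, P.p X j Y - ∑ j, P.p Y j X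

/-- the weights of the labels -/
noncomputable def wL (c : Fin q × Fin q) (l : Lb q R) : ℝ :=
  match l with
  | none => P.pf c.1 c.2
  | some (Z, j) =>
    (if Z = c.1 then P.p c.1 j c.2 else 0) + (if Z = c.2 then P.p c.2 j c.1 else 0)

/-- indicator of `none`, divided by its probability -/
noncomputable def fF (X Y : Fin q) (l : Lb q R) : ℝ := if l = none then 1 / P.pf X Y else 0

open Classical in
/-- indicator of no label `(X, j)`, `j ∈ S`, divided by its probability -/
noncomputable def gF (X : Fin q) (S : Finset (Fin R)) (Y : Fin q) (l : Lb q R) : ℝ :=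
  if ∃ j ∈ S, l = some (X, j) then 0 else 1 / (1 - P.pS X S Y)

/-- free pairs of clusters, normalised -/
noncomputable def fre (ω : Om q R) (X Y : Fin q) : ℝ := if X = Y then 0 else P.fF X Y (ω (key X Y))

/-- clusters not used by the slots `j ∈ S` of `X`, normalised -/
noncomputable def gg (ω : Om q R) (X : Fin q) (S : Finset (Fin R)) (Y : Fin q) : ℝ :=
  if X = Y then 1 / (1 - P.pS X S Y) else P.gF X S Y (ω (key X Y))

/-- the set of labels `S` is admissible for the cluster `X` -/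
def Vd (B : ℝ) (X : Fin q) (S : Finset (Fin R)) : Prop := ∀ Y, P.pS X S Y ≤ 1 - 1 / B

end Par

/-- conditions on the numbers -/
structure ParOK {q R : ℕ} (P : Par q R) (ε B : ℝ) : Prop where
  q0 : 0 < q
  ε0 : 0 < ε
  ε1 : ε ≤ 1
  Bε : 4 / ε ≤ B
  s0 : ∀ X j, 0 ≤ P.s X j
  al_lo : ∀ X Y, ε ≤ P.al X Y
  al_hi : ∀ X Y, P.al X Y ≤ 2 - ε
  am_lo : ∀ Y, ε ≤ P.am Y
  am_hi : ∀ Y, P.am Y ≤ 2 - ε
  a0_lo : ∀ Y, ε ≤ P.a0 Y
  a0_hi : ∀ Y, P.a0 Y ≤ 2 - ε
  SX0 : ∀ X V W, 0 ≤ P.SX X V W
  SXB : ∀ X V W, P.SX X V W ≤ ε * B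
  Sm0 : ∀ V W, 0 ≤ P.Sm V W
  SmB : ∀ V W, P.Sm V W ≤ ε * B
  S00 : ∀ V W, 0 ≤ P.S0 V W
  S0B : ∀ V W, P.S0 V W ≤ ε * B
  sal : ∀ X, ∑ Y, P.al X Y = q
  sam : ∑ Y, P.am Y = q
  sa0 : ∑ Y, P.a0 Y = q
  SXr : ∀ X V, ∑ W, P.SX X V W = q * P.al X V
  SXc : ∀ X W, ∑ V, P.SX X V W = q * P.a0 W
  Smr : ∀ V, ∑ W, P.Sm V W = q * P.am V
  Smc : ∀ W, ∑ V, P.Sm V W = q * P.a0 W
  S0r : ∀ V, ∑ W, P.S0 V W = q * P.a0 V
  S0s : ∀ V W, P.S0 V W = P.S0 W V
  pf0 : ∀ X Y, 1 / B ≤ P.pf X Y

end MP_80c395_TP
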