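import Pool.Agent.Lib.MP_80c395_co_TQ.Par

/-!
# Project TQ: elementary facts about the labels

`B ≥ 4` (`4 / ε ≤ B`, `ε ≤ 1`).
`key_inj`: cases on the order.
`wL_IsW`: `pf ≥ 1 / B > 0`, `p ≥ 0`; the sum over all labels is
`pf c.1 c.2 + ∑ j, p c.1 j c.2 + ∑ j, p c.2 j c.1 = 1` (`Fintype.sum_option`, `Fintype.sum_prod_type`).
`wL_hF, wL_fF, wL_gF`: `X ≠ Y`; `key X Y` is `(X, Y)` or `(Y, X)` (`lt_or_gt_of_ne`), the weight of
`some (X, j)` is `p X j Y` in both cases, the weight of `none` is `pf X Y` (symmetric).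
`sum_p`: `∑ Y, al X Y = q`.
The others are case distinctions.
-/

set_option autoImplicit false

namespace MP_80c395_TP

open Finset Pool.Agent.Lib.CD

theorem key_comm {q : ℕ} (X Y : Fin q) : key X Y = key Y X := by
  unfold key
  rw [min_comm, max_comm]

theorem key_inj {q : ℕ} {X Y X' Y' : Fin q} (h : key X Y = key X' Y') :
    (X = X' ∧ Y = Y') ∨ (X = Y' ∧ Y = X') := by
  unfold key at h
  rw [Prod.mk.injEq] at h
  obtain ⟨h1, h2⟩ := h
  rcases le_total X Y with a | a <;> rcases le_total X' Y' with b | b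
  · rw [min_eq_left a, min_eq_left b] at h1
    rw [max_eq_right a, max_eq_right b] at h2
    exact Or.inl ⟨h1, h2⟩
  · rw [min_eq_left a, min_eq_right b] at h1
    rw [max_eq_right a, max_eq_left b] at h2
    exact Or.inr ⟨h1, h2⟩
  · rw [min_eq_right a, min_eq_left b] at h1
    rw [max_eq_left a, max_eq_right b] at h2
    exact Or.inr ⟨h2, h1⟩
  · rw [min_eq_right a, min_eq_right b] at h1
    rw [max_eq_left a, max_eq_left b] at h2
    exact Or.inl ⟨h2, h1⟩

theorem hF_bd {q R : ℕ} (X : Fin q) (j : Fin R) (l : Lb q R) : 0 ≤ hF X j l ∧ hF X j l ≤ 1 := by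
  unfold hF
  split_ifs <;> norm_num

theorem hit01 {q R : ℕ} (ω : Om q R) (X : Fin q) (j : Fin R) (Y : Fin q) :
    hit ω X j Y = 0 ∨ hit ω X j Y = 1 := by
  unfold hit hF
  split_ifs <;> simp

private theorem ParE_hit {q R : ℕ} {ω : Om q R} {X Y : Fin q} {j : Fin R}
    (h : hit ω X j Y ≠ 0) : X ≠ Y ∧ ω (key X Y) = some (X, j) := by
  unfold hit hF at h
  split_ifs at h with h1 h2
  · exact absurd rfl h
  · exact ⟨h1, h2⟩
  · exact absurd rfl h

theorem hit_hit {q R : ℕ} {ω : Om q R} {X Y : Fin q} {j j' : Fin R} (h : hit ω X j Y ≠ 0)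
    (h' : hit ω X j' Y ≠ 0) : j = j' := by
  obtain ⟨_, h1⟩ := ParE_hit h
  obtain ⟨_, h2⟩ := ParE_hit h'
  rw [h1, Option.some.injEq, Prod.mk.injEq] at h2
  exact h2.2

theorem hit_hit' {q R : ℕ} {ω : Om q R} {X Y : Fin q} {j : Fin R} (j' : Fin R)
    (h : hit ω X j Y ≠ 0) : hit ω Y j' X = 0 := by
  obtain ⟨h0, h1⟩ := ParE_hit h
  by_contra hcon
  obtain ⟨_, h2⟩ := ParE_hit hcon
  rw [key_comm, h1, Option.some.injEq, Prod.mk.injEq] at h2
  exact h0 h2.1

theorem hit_self {q R : ℕ} (ω : Om q R) (X : Fin q) (j : Fin R) : hit ω X j X = 0 := by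
  unfold hit
  rw [if_pos rfl]

variable {q R : ℕ} {P : Par q R} {ε B : ℝ}

theorem hit_fre {ω : Om q R} {X Y : Fin q} {j : Fin R} (h : hit ω X j Y ≠ 0) :
    P.fre ω X Y = 0 := by
  obtain ⟨h0, h1⟩ := ParE_hit h
  rw [Par.fre, if_neg h0, Par.fF, h1, if_neg (Option.some_ne_none _)]

theorem hit_gg {ω : Om q R} {X Y : Fin q} {j : Fin R} {S : Finset (Fin R)}
    (h : hit ω X j Y ≠ 0) (hj : j ∈ S) : P.gg ω X S Y = 0 := by
  obtain ⟨h0, h1⟩ := ParE_hit h
  rw [Par.gg, if_neg h0, Par.gF, if_pos ⟨j, hj, h1⟩]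

theorem pf_comm (X Y : Fin q) : P.pf X Y = P.pf Y X := by
  unfold Par.pf
  ring

theorem fre_comm (ω : Om q R) (X Y : Fin q) : P.fre ω X Y = P.fre ω Y X := by
  unfold Par.fre Par.fF
  rw [key_comm X Y, pf_comm X Y]
  simp only [eq_comm (a := X) (b := Y)]

theorem fre_self (ω : Om q R) (X : Fin q) : P.fre ω X X = 0 := by
  rw [Par.fre, if_pos rfl]

theorem p_nonneg (hP : ParOK P ε B) (X : Fin q) (j : Fin R) (Y : Fin q) : 0 ≤ P.p X j Y := by
  have h1 := hP.s0 X j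
  have h2 := hP.al_lo X Y
  have h3 := hP.ε0
  have h4 : 0 ≤ P.al X Y := by linarith
  unfold Par.p
  positivity

theorem p_le (hP : ParOK P ε B) (X : Fin q) (j : Fin R) (Y : Fin q) : P.p X j Y ≤ P.s X j := by
  have h1 := hP.s0 X j
  have h2 := hP.al_hi X Y
  have h3 := hP.ε0
  have h4 := mul_le_mul_of_nonneg_left h2 h1
  have h5 := mul_nonneg h1 h3.le
  unfold Par.p
  nlinarith

theorem sum_p (hP : ParOK P ε B) (X : Fin q) (j : Fin R) :
    ∑ Y, P.p X j Y = P.s X j * q / 2 := by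
  unfold Par.p
  rw [← Finset.sum_div, ← Finset.mul_sum, hP.sal]

theorem pS_nonneg (hP : ParOK P ε B) (X : Fin q) (S : Finset (Fin R)) (Y : Fin q) :
    0 ≤ P.pS X S Y := by
  unfold Par.pS
  exact Finset.sum_nonneg fun j _ => p_nonneg hP X j Y

private theorem ParE_B (hP : ParOK P ε B) : 4 ≤ B := by
  have h1 := hP.ε0
  have h2 := hP.ε1
  have h3 := hP.Bε
  have h4 : (4 : ℝ) ≤ 4 / ε := by
    rw [le_div_iff₀ h1]
    linarith
  linarith

theorem pf_pos (hP : ParOK P ε B) (X Y : Fin q) : 0 < P.pf X Y := by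
  have h1 := ParE_B hP
  have h2 := hP.pf0 X Y
  have h3 : 0 < 1 / B := by positivity
  linarith

theorem pf_le (hP : ParOK P ε B) (X Y : Fin q) : P.pf X Y ≤ 1 := by
  have h1 : 0 ≤ ∑ j, P.p X j Y := Finset.sum_nonneg fun j _ => p_nonneg hP X j Y
  have h2 : 0 ≤ ∑ j, P.p Y j X := Finset.sum_nonneg fun j _ => p_nonneg hP Y j X
  unfold Par.pf
  linarith

theorem B_ge (hP : ParOK P ε B) : 4 ≤ B := by
  exact ParE_B hP

theorem fF_bd (hP : ParOK P ε B) (X Y : Fin q) (l : Lb q R) :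
    0 ≤ P.fF X Y l ∧ P.fF X Y l ≤ B := by
  have h1 := ParE_B hP
  have h2 := hP.pf0 X Y
  have h3 := pf_pos hP X Y
  unfold Par.fF
  split_ifs
  · refine ⟨by positivity, ?_⟩
    rw [div_le_iff₀ h3]
    rw [div_le_iff₀ (by linarith)] at h2
    linarith
  · exact ⟨le_refl _, by linarith⟩

private theorem ParE_g (hP : ParOK P ε B) {X : Fin q} {S : Finset (Fin R)} (hS : P.Vd B X S)
    (Y : Fin q) : 0 < 1 - P.pS X S Y ∧ 0 < 1 / (1 - P.pS X S Y) ∧
      1 / (1 - P.pS X S Y) ≤ B := by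
  have h1 := ParE_B hP
  have h2 := hS Y
  have h3 : 0 < 1 / B := by positivity
  have h4 : 0 < 1 - P.pS X S Y := by linarith
  refine ⟨h4, by positivity, ?_⟩
  have h5 : 1 / B ≤ 1 - P.pS X S Y := by linarith
  rw [div_le_iff₀ h4]
  rw [div_le_iff₀ (by linarith)] at h5
  linarith

theorem gF_bd (hP : ParOK P ε B) {X : Fin q} {S : Finset (Fin R)} (hS : P.Vd B X S) (Y : Fin q)
    (l : Lb q R) : 0 ≤ P.gF X S Y l ∧ P.gF X S Y l ≤ B := by
  have h1 := ParE_B hP
  obtain ⟨_, h2, h3⟩ := ParE_g hP hS Y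
  unfold Par.gF
  split_ifs
  · exact ⟨le_refl _, by linarith⟩
  · exact ⟨h2.le, h3⟩

theorem fre_bd (hP : ParOK P ε B) (ω : Om q R) (X Y : Fin q) :
    0 ≤ P.fre ω X Y ∧ P.fre ω X Y ≤ B := by
  have h1 := ParE_B hP
  unfold Par.fre
  split_ifs
  · exact ⟨le_refl _, by linarith⟩
  · exact fF_bd hP X Y _

theorem gg_bd (hP : ParOK P ε B) {X : Fin q} {S : Finset (Fin R)} (hS : P.Vd B X S)
    (ω : Om q R) (Y : Fin q) : 0 ≤ P.gg ω X S Y ∧ P.gg ω X S Y ≤ B := by
  obtain ⟨_, h2, h3⟩ := ParE_g hP hS Y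
  unfold Par.gg
  split_ifs
  · exact ⟨h2.le, h3⟩
  · exact gF_bd hP hS Y _

theorem fre_val (hP : ParOK P ε B) {ω : Om q R} {X Y : Fin q} (h : P.fre ω X Y ≠ 0) :
    P.fre ω X Y * P.pf X Y = 1 := by
  have h3 := pf_pos hP X Y
  unfold Par.fre Par.fF at h ⊢
  split_ifs at h ⊢
  · exact absurd rfl h
  · rw [div_mul_cancel₀ _ h3.ne']
  · exact absurd rfl h

theorem gg_val (hP : ParOK P ε B) {X : Fin q} {S : Finset (Fin R)} (hS : P.Vd B X S)
    {ω : Om q R} {Y : Fin q} (h : P.gg ω X S Y ≠ 0) : P.gg ω X S Y * (1 - P.pS X S Y) = 1 := by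
  obtain ⟨h3, _, _⟩ := ParE_g hP hS Y
  unfold Par.gg Par.gF at h ⊢
  split_ifs at h ⊢
  · rw [div_mul_cancel₀ _ h3.ne']
  · exact absurd rfl h
  · rw [div_mul_cancel₀ _ h3.ne']

theorem gg_zero (hP : ParOK P ε B) {X : Fin q} {S : Finset (Fin R)} (hS : P.Vd B X S)
    {ω : Om q R} {Y : Fin q} (h : P.gg ω X S Y = 0) : ∃ j ∈ S, hit ω X j Y = 1 := by
  obtain ⟨_, h3, _⟩ := ParE_g hP hS Y
  unfold Par.gg Par.gF at h
  split_ifs at h with h1 h2
  · exact absurd h h3.ne'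
  · obtain ⟨j, hj, h4⟩ := h2
    refine ⟨j, hj, ?_⟩
    rw [hit, if_neg h1, hF, if_pos h4]
  · exact absurd h h3.ne'

private theorem ParE_sum (P : Par q R) (c : Fin q × Fin q) : ∑ l, P.wL c l = 1 := by
  rw [Fintype.sum_option, Fintype.sum_prod_type]
  have h1 : ∀ Z : Fin q, ∑ j : Fin R, P.wL c (some (Z, j)) =
      (if Z = c.1 then ∑ j, P.p c.1 j c.2 else 0) +
        (if Z = c.2 then ∑ j, P.p c.2 j c.1 else 0) := by
    intro Z
    have h2 : ∀ j : Fin R, P.wL c (some (Z, j)) = (if Z = c.1 then P.p c.1 j c.2 else 0) +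
        (if Z = c.2 then P.p c.2 j c.1 else 0) := fun j => rfl
    rw [Finset.sum_congr rfl fun j _ => h2 j, Finset.sum_add_distrib]
    congr 1
    · split_ifs
      · rfl
      · exact Finset.sum_const_zero
    · split_ifs
      · rfl
      · exact Finset.sum_const_zero
  rw [Finset.sum_congr rfl fun Z _ => h1 Z, Finset.sum_add_distrib, Finset.sum_ite_eq',
    Finset.sum_ite_eq', if_pos (Finset.mem_univ _), if_pos (Finset.mem_univ _)]
  change P.pf c.1 c.2 + _ = 1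
  unfold Par.pf
  ring

private theorem ParE_key {X Y : Fin q} (h : X ≠ Y) (j : Fin R) :
    P.wL (key X Y) (some (X, j)) = P.p X j Y := by
  rcases lt_or_gt_of_ne h with a | a
  · have e : key X Y = (X, Y) := by
      rw [key, min_eq_left a.le, max_eq_right a.le]
    rw [e]
    change (if X = X then P.p X j Y else 0) + (if X = Y then P.p Y j X else 0) = _
    rw [if_pos rfl, if_neg h, add_zero]
  · have e : key X Y = (Y, X) := by
      rw [key, min_eq_right a.le, max_eq_left a.le]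
    rw [e]
    change (if X = Y then P.p Y j X else 0) + (if X = X then P.p X j Y else 0) = _
    rw [if_pos rfl, if_neg h, zero_add]

private theorem ParE_none (X Y : Fin q) : P.wL (key X Y) none = P.pf X Y := by
  change P.pf (min X Y) (max X Y) = _
  rcases le_total X Y with a | a
  · rw [min_eq_left a, max_eq_right a]
  · rw [min_eq_right a, max_eq_left a, pf_comm]

theorem wL_IsW (hP : ParOK P ε B) : IsW P.wL := by
  refine ⟨fun c l => ?_, fun c => ParE_sum P c⟩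
  cases l with
  | none => exact (pf_pos hP c.1 c.2).le
  | some z =>
    obtain ⟨Z, j⟩ := z
    change 0 ≤ (if Z = c.1 then P.p c.1 j c.2 else 0) + (if Z = c.2 then P.p c.2 j c.1 else 0)
    have h1 := p_nonneg hP c.1 j c.2
    have h2 := p_nonneg hP c.2 j c.1
    split_ifs <;> linarith

theorem wL_hF {X Y : Fin q} (h : X ≠ Y) (j : Fin R) :
    ∑ l, P.wL (key X Y) l * hF X j l = P.p X j Y := by
  rw [Finset.sum_eq_single (some (X, j))]
  · rw [ParE_key h, hF, if_pos rfl, mul_one]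
  · intro l _ hl
    rw [hF, if_neg hl, mul_zero]
  · intro hn
    exact absurd (Finset.mem_univ _) hn

theorem wL_fF (hP : ParOK P ε B) {X Y : Fin q} (h : X ≠ Y) :
    ∑ l, P.wL (key X Y) l * P.fF X Y l = 1 := by
  have h3 := pf_pos hP X Y
  rw [Finset.sum_eq_single none]
  · rw [ParE_none, Par.fF, if_pos rfl, mul_one_div, div_self h3.ne']
  · intro l _ hl
    rw [Par.fF, if_neg hl, mul_zero]
  · intro hn
    exact absurd (Finset.mem_univ _) hn

theorem wL_gF (hP : ParOK P ε B) {X Y : Fin q} (h : X ≠ Y) {S : Finset (Fin R)}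
    (hS : P.Vd B X S) : ∑ l, P.wL (key X Y) l * P.gF X S Y l = 1 := by
  classical
  obtain ⟨h3, _, _⟩ := ParE_g hP hS Y
  have h1 : ∀ l : Lb q R, P.wL (key X Y) l * P.gF X S Y l =
      (P.wL (key X Y) l - ∑ j ∈ S, P.wL (key X Y) l * hF X j l) * (1 / (1 - P.pS X S Y)) := by
    intro l
    unfold Par.gF
    split_ifs with hl
    · obtain ⟨j, hj, rfl⟩ := hl
      rw [mul_zero, Finset.sum_eq_single_of_mem j hj, hF, if_pos rfl, mul_one, sub_self, zero_mul]
      intro i _ hij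
      rw [hF, if_neg, mul_zero]
      intro hcon
      rw [Option.some.injEq, Prod.mk.injEq] at hcon
      exact hij hcon.2.symm
    · rw [Finset.sum_eq_zero, sub_zero]
      intro j hj
      rw [hF, if_neg (fun hcon => hl ⟨j, hj, hcon⟩), mul_zero]
  rw [Finset.sum_congr rfl fun l _ => h1 l, ← Finset.sum_mul, Finset.sum_sub_distrib,
    Finset.sum_comm, Finset.sum_congr rfl fun j _ => wL_hF (P := P) h j, ParE_sum]
  change (1 - P.pS X S Y) * _ = 1
  rw [mul_one_div, div_self h3.ne']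

end MP_80c395_TP
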