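import Pool.Agent.Lib.MP_80c395_co_TP.Place

/-!
# Project TQ: greedy placement of centres, with loads of classes of hosts

The same as `place` (Pool/Agent/Lib/MP_80c395_co_TP/Place.lean; copy the proof), with two changes:
* the load of kind `l` is counted in bins: `bn l : V → V`, the load of the bin `v` is
  `∑ a, bn l (ψ a) = v, w l a ≤ cap l v`.  A host `x` is forbidden for the item `a` because of `l`
  if `cap l (bn l x) - mx l <` load of the bin `bn l x`.  Let `A` be the set of the bins `v` with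
  `cap l v - mx l <` load: `∑ v ∈ A, (cap l v - mx l) ≤ ∑ v ∈ A, load ≤ tot l`, so by `hB` at most
  `B l` hosts `x` have `bn l x ∈ A`.
* for the item `a` only the kinds `l` with `w l a ≠ 0` count: placing `a` does not change the loads
  of the other kinds.  So the number of forbidden hosts is at most
  `Zm + 2 (e0 + cz + f0) + ∑ l with w l a ≠ 0, B l < |Al a|`.
For the kind `zz` the bins are the hosts (`hbz`).
-/

set_option autoImplicit false

namespace MP_80c395_TP

open Finset

private def ancF2 {I V : Type} [DecidableEq V] (pa : I → Option I) (fx : I → Option V)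
    (ψ : I → V) (a : I) : Finset V := (fx a).toFinset ∪ ((pa a).map ψ).toFinset

private theorem mem_ancF2 {I V : Type} [DecidableEq V] {pa : I → Option I} {fx : I → Option V}
    {ψ : I → V} {a : I} {y : V} : y ∈ ancF2 pa fx ψ a ↔ Anc pa fx ψ a y := by
  unfold ancF2 Anc
  rw [Finset.mem_union, Option.mem_toFinset, Option.mem_toFinset, Option.mem_def, Option.mem_def,
    Option.map_eq_some_iff]

private theorem ancF2_card {I V : Type} [DecidableEq V] (pa : I → Option I) (fx : I → Option V)
    (ψ : I → V) (a : I) : (ancF2 pa fx ψ a).card ≤ 2 := by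
  refine (Finset.card_union_le _ _).trans ?_
  have h : ∀ o : Option V, o.toFinset.card ≤ 1 := by
    intro o
    cases o <;> simp
  have h1 := h (fx a)
  have h2 := h ((pa a).map ψ)
  omega

/-- the state of the greedy placement -/
private structure PInv2 {I V Λ : Type} [DecidableEq I] [DecidableEq V] (tr : I → ℕ)
    (pa : I → Option I) (fx : I → Option V) (own0 : Sym2 V → Option ℕ) (Al : I → Finset V)
    (w : Λ → I → ℝ) (bn : Λ → V → V) (cap : Λ → V → ℝ) (J : Finset I) (ψ : I → V) : Prop where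
  cl : ∀ a ∈ J, ∀ b, pa a = some b → b ∈ J
  al : ∀ a ∈ J, ψ a ∈ Al a
  dj : ∀ a ∈ J, ∀ b ∈ J, a ≠ b → tr a = tr b → ψ a ≠ ψ b
  ld : ∀ l v, ∑ a ∈ J.filter (fun a => bn l (ψ a) = v), w l a ≤ cap l v
  ow : ∀ a ∈ J, ∀ y, Anc pa fx ψ a y → ∀ i, own0 s(ψ a, y) = some i → i = tr a
  di : ∀ a ∈ J, ∀ a' ∈ J, ∀ y y', Anc pa fx ψ a y → Anc pa fx ψ a' y' →
    s(ψ a, y) = s(ψ a', y') → tr a = tr a'

private theorem place2_v {I V Λ : Type} [Fintype I] [DecidableEq I] [Fintype V] [DecidableEq V]
    [Fintype Λ] [DecidableEq Λ] (tr : I → ℕ) (pa : I → Option I) (fx : I → Option V)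
    (own0 : Sym2 V → Option ℕ) (Al : I → Finset V) (w : Λ → I → ℝ) (bn : Λ → V → V)
    (cap : Λ → V → ℝ) (mx tot : Λ → ℝ) (B : Λ → ℕ) (Zm e0 f0 cz : ℕ) (zz : Λ)
    (hbz : ∀ v, bn zz v = v)
    (hw0 : ∀ l a, 0 ≤ w l a) (hmx : ∀ l a, w l a ≤ mx l) (htot : ∀ l, ∑ a, w l a ≤ tot l)
    (hB : ∀ l (A : Finset V), ∑ v ∈ A, (cap l v - mx l) ≤ tot l →
      (univ.filter (fun x => bn l x ∈ A)).card ≤ B l)
    (hZm : ∀ i, (univ.filter (fun a => tr a = i)).card ≤ Zm)
    (hzz : ∀ a, ((univ.filter (fun b => pa b = some a)).card : ℝ) + 2 ≤ w zz a)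
    (hcz : ∀ v, cap zz v ≤ cz)
    (he0 : ∀ y, (univ.filter (fun v => own0 s(v, y) ≠ none)).card ≤ e0)
    (hf0 : ∀ y, (univ.filter (fun b => fx b = some y)).card ≤ f0)
    (hAl : ∀ a, Zm + 2 * (e0 + cz + f0) + ∑ l ∈ univ.filter (fun l => w l a ≠ 0), B l <
      (Al a).card)
    (J : Finset I) (ψ : I → V) (h : PInv2 tr pa fx own0 Al w bn cap J ψ) (a : I) :
    ∃ v ∈ Al a, (∀ b ∈ J, tr b = tr a → ψ b ≠ v) ∧
      (∀ l, w l a ≠ 0 → ∑ b ∈ J.filter (fun b => bn l (ψ b) = bn l v), w l b + w l a ≤
        cap l (bn l v)) ∧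
      (∀ y, Anc pa fx ψ a y → own0 s(v, y) = none) ∧
      ∀ y, Anc pa fx ψ a y → ∀ b ∈ J, ∀ y', Anc pa fx ψ b y' → s(v, y) ≠ s(ψ b, y') := by
  classical
  set F1 : Finset V := (J.filter (fun b => tr b = tr a)).image ψ with hF1
  set A2 : Λ → Finset V := fun l => univ.filter
    (fun v => cap l v - mx l < ∑ b ∈ J.filter (fun b => bn l (ψ b) = v), w l b) with hA2
  set F2 : Λ → Finset V := fun l => univ.filter (fun x => bn l x ∈ A2 l) with hF2
  set F3 : V → Finset V := fun y => univ.filter (fun v => own0 s(v, y) ≠ none) with hF3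
  set F4 : V → Finset V := fun y => univ.filter
    (fun v => ∃ b ∈ J, ∃ y', Anc pa fx ψ b y' ∧ s(v, y) = s(ψ b, y')) with hF4
  have c1 : F1.card ≤ Zm := by
    refine Finset.card_image_le.trans (le_trans (Finset.card_le_card ?_) (hZm (tr a)))
    exact Finset.filter_subset_filter _ (Finset.subset_univ _)
  have c2 : ∀ l, (F2 l).card ≤ B l := by
    intro l
    apply hB
    calc ∑ v ∈ A2 l, (cap l v - mx l)
        ≤ ∑ v ∈ A2 l, ∑ b ∈ J.filter (fun b => bn l (ψ b) = v), w l b :=
          Finset.sum_le_sum fun v hv => (Finset.mem_filter.1 hv).2.le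
      _ ≤ ∑ v, ∑ b ∈ J.filter (fun b => bn l (ψ b) = v), w l b :=
          Finset.sum_le_sum_of_subset_of_nonneg (Finset.subset_univ _)
            (fun v _ _ => Finset.sum_nonneg fun b _ => hw0 l b)
      _ = ∑ b ∈ J, w l b := Finset.sum_fiberwise J (fun b => bn l (ψ b)) (w l)
      _ ≤ ∑ b, w l b :=
          Finset.sum_le_sum_of_subset_of_nonneg (Finset.subset_univ _) (fun b _ _ => hw0 l b)
      _ ≤ tot l := htot l
  have c3 : ∀ y, (F3 y).card ≤ e0 := fun y => he0 y
  have c4 : ∀ y, (F4 y).card ≤ cz + f0 := by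
    intro y
    have hsub : F4 y ⊆ (J.filter (fun b => ψ b = y)).biUnion (fun b => ancF2 pa fx ψ b ∪
        (univ.filter (fun c => pa c = some b)).image ψ) ∪
        (univ.filter (fun b => fx b = some y)).image ψ := by
      intro v hv
      obtain ⟨b, hb, y', hy', he⟩ := (Finset.mem_filter.1 hv).2
      rw [Sym2.eq_iff] at he
      rcases he with ⟨h1, h2⟩ | ⟨h1, h2⟩
      · subst h2
        rcases hy' with hf | ⟨c, hc, hc'⟩
        · exact Finset.mem_union_right _
            (Finset.mem_image.2 ⟨b, Finset.mem_filter.2 ⟨Finset.mem_univ _, hf⟩, h1.symm⟩)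
        · exact Finset.mem_union_left _ (Finset.mem_biUnion.2
            ⟨c, Finset.mem_filter.2 ⟨h.cl b hb c hc, hc'⟩, Finset.mem_union_right _
              (Finset.mem_image.2 ⟨b, Finset.mem_filter.2 ⟨Finset.mem_univ _, hc⟩, h1.symm⟩)⟩)
      · subst h1
        exact Finset.mem_union_left _ (Finset.mem_biUnion.2
          ⟨b, Finset.mem_filter.2 ⟨hb, h2.symm⟩, Finset.mem_union_left _ (mem_ancF2.2 hy')⟩)
    have h1 : ((J.filter (fun b => ψ b = y)).biUnion (fun b => ancF2 pa fx ψ b ∪
        (univ.filter (fun c => pa c = some b)).image ψ)).card ≤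
        ∑ b ∈ J.filter (fun b => ψ b = y),
          ((univ.filter (fun c => pa c = some b)).card + 2) := by
      refine Finset.card_biUnion_le.trans (Finset.sum_le_sum fun b _ => ?_)
      refine (Finset.card_union_le _ _).trans ?_
      have h2 := ancF2_card pa fx ψ b
      have h3 : ((univ.filter (fun c => pa c = some b)).image ψ).card ≤
        (univ.filter (fun c => pa c = some b)).card := Finset.card_image_le
      omega
    have h2 : ((∑ b ∈ J.filter (fun b => ψ b = y),
          ((univ.filter (fun c => pa c = some b)).card + 2) : ℕ) : ℝ) ≤ (cz : ℝ) := by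
      push_cast
      have hld := h.ld zz y
      simp only [hbz] at hld
      exact (Finset.sum_le_sum fun b _ => hzz b).trans (hld.trans (hcz y))
    have h3 : ∑ b ∈ J.filter (fun b => ψ b = y),
          ((univ.filter (fun c => pa c = some b)).card + 2) ≤ cz := by exact_mod_cast h2
    have h4 : ((univ.filter (fun b => fx b = some y)).image ψ).card ≤ f0 :=
      Finset.card_image_le.trans (hf0 y)
    have h5 := (Finset.card_le_card hsub).trans (Finset.card_union_le _ _)
    omega
  have c34 : ((ancF2 pa fx ψ a).biUnion (fun y => F3 y ∪ F4 y)).card ≤ 2 * (e0 + cz + f0) := by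
    have h1 : ((ancF2 pa fx ψ a).biUnion (fun y => F3 y ∪ F4 y)).card ≤
        (ancF2 pa fx ψ a).card * (e0 + cz + f0) := by
      refine Finset.card_biUnion_le_card_mul _ _ _ fun y _ => ?_
      have h2 := Finset.card_union_le (F3 y) (F4 y)
      have h3 := c3 y
      have h4 := c4 y
      omega
    exact h1.trans (Nat.mul_le_mul_right _ (ancF2_card pa fx ψ a))
  have c2' : ((univ.filter (fun l => w l a ≠ 0)).biUnion F2).card ≤
      ∑ l ∈ univ.filter (fun l => w l a ≠ 0), B l :=
    Finset.card_biUnion_le.trans (Finset.sum_le_sum fun l _ => c2 l)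
  have hlt : (F1 ∪ (ancF2 pa fx ψ a).biUnion (fun y => F3 y ∪ F4 y) ∪
      (univ.filter (fun l => w l a ≠ 0)).biUnion F2).card < (Al a).card := by
    refine lt_of_le_of_lt (Finset.card_union_le _ _) ?_
    have h1 := Finset.card_union_le F1 ((ancF2 pa fx ψ a).biUnion (fun y => F3 y ∪ F4 y))
    have h2 := hAl a
    omega
  obtain ⟨v, hv, hvn⟩ := Finset.exists_mem_notMem_of_card_lt_card hlt
  rw [Finset.mem_union, Finset.mem_union, not_or, not_or] at hvn
  obtain ⟨⟨n1, n2⟩, n3⟩ := hvn
  refine ⟨v, hv, ?_, ?_, ?_, ?_⟩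
  · intro b hb hbt hbv
    exact n1 (Finset.mem_image.2 ⟨b, Finset.mem_filter.2 ⟨hb, hbt⟩, hbv⟩)
  · intro l hl
    have h1 : ¬ (cap l (bn l v) - mx l <
        ∑ b ∈ J.filter (fun b => bn l (ψ b) = bn l v), w l b) := fun hc =>
      n3 (Finset.mem_biUnion.2 ⟨l, Finset.mem_filter.2 ⟨Finset.mem_univ _, hl⟩,
        Finset.mem_filter.2 ⟨Finset.mem_univ _, Finset.mem_filter.2
          ⟨Finset.mem_univ _, hc⟩⟩⟩)
    have h2 := hmx l a
    push Not at h1
    linarith
  · intro y hy
    by_contra hc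
    exact n2 (Finset.mem_biUnion.2 ⟨y, mem_ancF2.2 hy, Finset.mem_union_left _
      (Finset.mem_filter.2 ⟨Finset.mem_univ _, hc⟩)⟩)
  · intro y hy b hb y' hy' he
    exact n2 (Finset.mem_biUnion.2 ⟨y, mem_ancF2.2 hy, Finset.mem_union_right _
      (Finset.mem_filter.2 ⟨Finset.mem_univ _, b, hb, y', hy', he⟩)⟩)

open Classical in
theorem place2 {I V Λ : Type} [Fintype I] [DecidableEq I] [Fintype V] [DecidableEq V]
    [Fintype Λ] [DecidableEq Λ] (tr rk : I → ℕ) (pa : I → Option I) (fx : I → Option V)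
    (own0 : Sym2 V → Option ℕ) (Al : I → Finset V) (w : Λ → I → ℝ) (bn : Λ → V → V)
    (cap : Λ → V → ℝ) (mx tot : Λ → ℝ) (B : Λ → ℕ) (Zm e0 f0 cz : ℕ) (zz : Λ)
    (hbz : ∀ v, bn zz v = v)
    (hpa : ∀ a b, pa a = some b → tr b = tr a ∧ rk b < rk a)
    (hw0 : ∀ l a, 0 ≤ w l a) (hmx : ∀ l a, w l a ≤ mx l) (htot : ∀ l, ∑ a, w l a ≤ tot l)
    (hcap : ∀ l v, 0 ≤ cap l v)
    (hB : ∀ l (A : Finset V), ∑ v ∈ A, (cap l v - mx l) ≤ tot l →
      (univ.filter (fun x => bn l x ∈ A)).card ≤ B l)
    (hZm : ∀ i, (univ.filter (fun a => tr a = i)).card ≤ Zm)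
    (hzz : ∀ a, ((univ.filter (fun b => pa b = some a)).card : ℝ) + 2 ≤ w zz a)
    (hcz : ∀ v, cap zz v ≤ cz)
    (he0 : ∀ y, (univ.filter (fun v => own0 s(v, y) ≠ none)).card ≤ e0)
    (hf0 : ∀ y, (univ.filter (fun b => fx b = some y)).card ≤ f0)
    (hAl : ∀ a, Zm + 2 * (e0 + cz + f0) + ∑ l ∈ univ.filter (fun l => w l a ≠ 0), B l <
      (Al a).card) :
    ∃ ψ : I → V, (∀ a, ψ a ∈ Al a) ∧ (∀ a b, a ≠ b → tr a = tr b → ψ a ≠ ψ b) ∧
      (∀ l v, ∑ a ∈ univ.filter (fun a => bn l (ψ a) = v), w l a ≤ cap l v) ∧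
      (∀ a y, Anc pa fx ψ a y → ∀ i, own0 s(ψ a, y) = some i → i = tr a) ∧
      ∀ a a' y y', Anc pa fx ψ a y → Anc pa fx ψ a' y' → s(ψ a, y) = s(ψ a', y') →
        tr a = tr a' := by
  classical
  by_cases hI : IsEmpty I
  · refine ⟨fun a => (hI.false a).elim, fun a => (hI.false a).elim, fun a => (hI.false a).elim,
      fun l v => ?_, fun a => (hI.false a).elim, fun a => (hI.false a).elim⟩
    rw [Finset.sum_eq_zero fun a _ => (hI.false a).elim]
    exact hcap l v
  rw [not_isEmpty_iff] at hI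
  obtain ⟨a₀⟩ := hI
  have hV : Nonempty V := by
    have h1 : 0 < (Al a₀).card := lt_of_le_of_lt (Nat.zero_le _) (hAl a₀)
    obtain ⟨v, _⟩ := Finset.card_pos.1 h1
    exact ⟨v⟩
  obtain ⟨v₀⟩ := hV
  have key : ∀ n : ℕ, n ≤ Fintype.card I → ∃ (J : Finset I) (ψ : I → V), J.card = n ∧
      PInv2 tr pa fx own0 Al w bn cap J ψ := by
    intro n
    induction n with
    | zero =>
      intro _
      refine ⟨∅, fun _ => v₀, rfl, ⟨?_, ?_, ?_, ?_, ?_, ?_⟩⟩
      · intro a ha
        exact absurd ha (Finset.notMem_empty a)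
      · intro a ha
        exact absurd ha (Finset.notMem_empty a)
      · intro a ha
        exact absurd ha (Finset.notMem_empty a)
      · intro l v
        rw [Finset.filter_empty, Finset.sum_empty]
        exact hcap l v
      · intro a ha
        exact absurd ha (Finset.notMem_empty a)
      · intro a ha
        exact absurd ha (Finset.notMem_empty a)
    | succ n ih =>
      intro hn
      obtain ⟨J, ψ, hJ, h⟩ := ih (by omega)
      have hne : (univ \ J).Nonempty := by
        rw [← Finset.card_pos, Finset.card_sdiff_of_subset (Finset.subset_univ _),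
          Finset.card_univ]
        omega
      obtain ⟨a, ha, hmin⟩ := Finset.exists_min_image (univ \ J) rk hne
      have haJ : a ∉ J := (Finset.mem_sdiff.1 ha).2
      have hpar : ∀ b, pa a = some b → b ∈ J := by
        intro b hb
        by_contra hbJ
        have h1 := hmin b (Finset.mem_sdiff.2 ⟨Finset.mem_univ _, hbJ⟩)
        have h2 := (hpa a b hb).2
        omega
      obtain ⟨v, hv, v1, v2, v3, v4⟩ := place2_v tr pa fx own0 Al w bn cap mx tot B Zm e0 f0 cz
        zz hbz hw0 hmx htot hB hZm hzz hcz he0 hf0 hAl J ψ h a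
      have hne' : ∀ b ∈ J, b ≠ a := fun b hb hba => haJ (hba ▸ hb)
      have hu : ∀ b ∈ J, Function.update ψ a v b = ψ b := fun b hb =>
        Function.update_of_ne (hne' b hb) _ _
      have hua : Function.update ψ a v a = v := Function.update_self _ _ _
      have hanc : ∀ b, (∀ c, pa b = some c → c ∈ J) → ∀ y,
          Anc pa fx (Function.update ψ a v) b y → Anc pa fx ψ b y := by
        intro b hb y hy
        rcases hy with hy | ⟨c, hc, hc'⟩
        · exact Or.inl hy
        · exact Or.inr ⟨c, hc, by rw [← hc', hu c (hb c hc)]⟩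
      refine ⟨insert a J, Function.update ψ a v, by rw [Finset.card_insert_of_notMem haJ, hJ],
        ⟨?_, ?_, ?_, ?_, ?_, ?_⟩⟩
      · intro b hb c hc
        rcases Finset.mem_insert.1 hb with rfl | hb
        · exact Finset.mem_insert_of_mem (hpar c hc)
        · exact Finset.mem_insert_of_mem (h.cl b hb c hc)
      · intro b hb
        rcases Finset.mem_insert.1 hb with rfl | hb
        · rw [hua]
          exact hv
        · rw [hu b hb]
          exact h.al b hb
      · intro b hb c hc hbc ht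
        rcases Finset.mem_insert.1 hb with hb1 | hb1 <;>
          rcases Finset.mem_insert.1 hc with hc1 | hc1
        · exact absurd (hb1.trans hc1.symm) hbc
        · rw [hb1, hua, hu c hc1]
          exact fun he => v1 c hc1 (by rw [← ht, hb1]) he.symm
        · rw [hc1, hua, hu b hb1]
          exact v1 b hb1 (by rw [ht, hc1])
        · rw [hu b hb1, hu c hc1]
          exact h.dj b hb1 c hc1 hbc ht
      · intro l x
        have h1 : ∑ b ∈ J.filter (fun b => bn l (Function.update ψ a v b) = x), w l b =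
            ∑ b ∈ J.filter (fun b => bn l (ψ b) = x), w l b := by
          refine Finset.sum_congr (Finset.filter_congr fun b hb => ?_) fun _ _ => rfl
          rw [hu b hb]
        rw [Finset.filter_insert, hua]
        by_cases hx : bn l v = x
        · rw [if_pos hx, Finset.sum_insert (fun hm => haJ (Finset.mem_filter.1 hm).1), h1]
          by_cases hl : w l a = 0
          · rw [hl, zero_add]
            exact h.ld l x
          · have h2 := v2 l hl
            rw [hx] at h2
            linarith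
        · rw [if_neg hx, h1]
          exact h.ld l x
      · intro b hb y hy i hi
        rcases Finset.mem_insert.1 hb with hb1 | hb1
        · rw [hb1] at hy
          rw [hb1, hua, v3 y (hanc a hpar y hy)] at hi
          exact absurd hi (by simp)
        · rw [hu b hb1] at hi
          exact h.ow b hb1 y (hanc b (h.cl b hb1) y hy) i hi
      · intro b hb c hc y y' hy hy' he
        rcases Finset.mem_insert.1 hb with hb1 | hb1 <;>
          rcases Finset.mem_insert.1 hc with hc1 | hc1
        · rw [hb1, hc1]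
        · rw [hb1] at hy
          rw [hb1, hua, hu c hc1] at he
          exact absurd he (v4 y (hanc a hpar y hy) c hc1 y' (hanc c (h.cl c hc1) y' hy'))
        · rw [hc1] at hy'
          rw [hc1, hua, hu b hb1] at he
          exact absurd he.symm (v4 y' (hanc a hpar y' hy') b hb1 y (hanc b (h.cl b hb1) y hy))
        · rw [hu b hb1, hu c hc1] at he
          exact h.di b hb1 c hc1 y y' (hanc b (h.cl b hb1) y hy) (hanc c (h.cl c hc1) y' hy') he
  obtain ⟨J, ψ, hJ, h⟩ := key _ le_rfl
  have hJu : J = univ := (Finset.card_eq_iff_eq_univ J).1 hJ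
  subst hJu
  exact ⟨ψ, fun a => h.al a (Finset.mem_univ _),
    fun a b => h.dj a (Finset.mem_univ _) b (Finset.mem_univ _), h.ld,
    fun a => h.ow a (Finset.mem_univ _),
    fun a a' => h.di a (Finset.mem_univ _) a' (Finset.mem_univ _)⟩

end MP_80c395_TP
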