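import Pool.Agent.Lib.MP_80c395_co_TQ.ParE
import Pool.Agent.Lib.MP_80c395_co_TP.S1Plc

/-!
# Project TQ: placed centres (definitions)

Hosts are the elements of `Fin q × G`, the cluster of `v` is `v.1`.
-/

set_option autoImplicit false

namespace MP_80c395_TP

open Finset

/-- number of children of the root in the piece `t` -/
def chn {m : ℕ} (d : Dec m) (t : Fin d.np) : ℕ :=
  (univ.filter (fun j : Fin (d.sz t) => 0 < j.val ∧ (d.pr t j).val = 0)).card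

/-- number of children of the roots of the pieces attached to `z` -/
def cz {m : ℕ} (d : Dec m) (z : Fin m) : ℕ :=
  ∑ t ∈ univ.filter (fun t => d.att t = some z), chn d t

/-- number of the other vertices of pieces which are not roots, and of the children of the roots of
unattached pieces -/
def dp {m : ℕ} (d : Dec m) : ℕ :=
  ∑ t, (d.sz t - 1 - if d.att t = none then 0 else chn d t)

/-- number of unattached pieces -/
def n0 {m : ℕ} (d : Dec m) : ℕ := (univ.filter (fun t => d.att t = none)).card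

/-- number of vertices of pieces which are not roots -/
def nr {m : ℕ} (d : Dec m) : ℕ := ∑ t, (d.sz t - 1)

/-- number of neighbours in `C` of the roots of the pieces attached to `z` -/
noncomputable def dz {m : ℕ} (T : SimpleGraph (Fin m)) (d : Dec m) (C : Finset (Fin m))
    (z : Fin m) : ℕ :=
  ∑ t ∈ univ.filter (fun t => d.att t = some z), nb T C (d.sg t (d.rt t))

/-- trees with decompositions, slots `J i` (centres of large degree), their labels `lb i`, the cluster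
`X i` of the slots of the tree `i`, and placed centres -/
structure Plc (q R : ℕ) (G : Type) where
  k : ℕ
  mm : Fin k → ℕ
  T : ∀ i, SimpleGraph (Fin (mm i))
  d : ∀ i, Dec (mm i)
  J : ∀ i, Finset (Fin (mm i))
  X : Fin k → Fin q
  lb : ∀ i, Fin (mm i) → Fin R
  φ : ∀ i, Fin (mm i) → Fin q × G

namespace Plc

variable {q R : ℕ} {G : Type} [Fintype G] [DecidableEq G] (A : Plc q R G)

/-- labels of the slots of the tree `i` -/
def S (i : Fin A.k) : Finset (Fin R) := (A.J i).image (A.lb i)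

/-- hosts of the centres of the tree `i` -/
def F (i : Fin A.k) : Finset (Fin q × G) := (A.d i).Z.image (A.φ i)

/-- medium centres -/
def md (i : Fin A.k) : Finset (Fin (A.mm i)) := (A.d i).Z \ A.J i

/-- the host edge `{u, v}` is used by an edge between two centres -/
def zz (u v : Fin q × G) : Prop :=
  ∃ i, ∃ x ∈ (A.d i).Z, ∃ y ∈ (A.d i).Z, (A.T i).Adj x y ∧ A.φ i x = u ∧ A.φ i y = v

/-- `q * card G`, the number of hosts -/
def M (_A : Plc q R G) : ℝ := (q : ℝ) * Fintype.card G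

end Plc

/-- conditions on the placed centres -/
structure PlcOK {q R : ℕ} {G : Type} [Fintype G] [DecidableEq G] (A : Plc q R G) (P : Par q R)
    (D₁ D K Λ : ℕ) (B ε₂ γ κ₄ δ₅ γh : ℝ) (bm : Fin q → ℝ) : Prop where
  tree : ∀ i, (A.T i).IsTree
  dec : ∀ i, DecOK (A.T i) (A.d i) D₁ D K
  JZ : ∀ i, A.J i ⊆ (A.d i).Z
  inj : ∀ i, ∀ x ∈ (A.d i).Z, ∀ y ∈ (A.d i).Z, A.φ i x = A.φ i y → x = y
  dst : ∀ i j, i ≠ j → ∀ a ∈ (A.d i).Z, ∀ b ∈ (A.d i).Z, ∀ c ∈ (A.d j).Z, ∀ e ∈ (A.d j).Z,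
    (A.T i).Adj a b → (A.T j).Adj c e → s(A.φ i a, A.φ i b) ≠ s(A.φ j c, A.φ j e)
  JX : ∀ i, ∀ z ∈ A.J i, (A.φ i z).1 = A.X i
  MX : ∀ i, ∀ z ∈ A.md i, (A.φ i z).1 ≠ A.X i
  lbi : ∀ i, ∀ z ∈ A.J i, ∀ z' ∈ A.J i, A.lb i z = A.lb i z' → z = z'
  lbu : ∀ i i', ∀ z ∈ A.J i, ∀ z' ∈ A.J i', A.φ i z = A.φ i' z' → A.lb i z = A.lb i' z' → i = i'
  vd : ∀ i, P.Vd B (A.X i) (A.S i)
  sγ : ∀ i, ∀ z ∈ A.J i, γ ≤ P.s (A.X i) (A.lb i z)
  k_le : (A.k : ℝ) ≤ 5 * A.M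
  m_le : ∀ i, (A.mm i : ℝ) ≤ A.M
  Xc : ∀ x, (univ.filter (fun i => A.X i = x)).card ≤ Λ
  acs : ∀ i, ∀ z ∈ A.J i, (ac (A.d i) z : ℝ) ≤ (1 - ε₂) * (P.s (A.X i) (A.lb i z) / 2 * A.M)
  acm : ∀ i, ∀ z ∈ A.md i, (ac (A.d i) z : ℝ) ≤ γh * A.M
  Zc : ∀ i, ((A.d i).Z.card : ℝ) ≤ κ₄ * A.M
  zzd : ∀ u, ∑ i, ∑ z ∈ (A.d i).Z.filter (fun z => A.φ i z = u), (nb (A.T i) (A.d i).Z z : ℝ) ≤
    κ₄ * A.M
  bm0 : ∀ U, 0 ≤ bm U
  bm2 : ∀ U, bm U ≤ 2
  star : ∀ u, ∑ i, ∑ z ∈ (A.md i).filter (fun z => A.φ i z = u), (ac (A.d i) z : ℝ) ≤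
    bm u.1 * A.M
  clT : ∀ i U, ∑ z ∈ (A.md i).filter (fun z => (A.φ i z).1 = U), (ac (A.d i) z : ℝ) ≤ δ₅ * A.M
  clX : ∀ u x, ∑ i ∈ univ.filter (fun i => A.X i = x),
    ∑ z ∈ (A.md i).filter (fun z => A.φ i z = u), (ac (A.d i) z : ℝ) ≤ δ₅ * A.M
  massE : ∀ V W, V ≠ W → bm V * P.am W + bm W * P.am V +
    2 * (∑ i, (dp (A.d i) : ℝ)) / A.M ^ 2 * P.S0 V W +
    (∑ i, (∑ z ∈ A.J i, (cz (A.d i) z : ℝ)) * (P.SX (A.X i) V W + P.SX (A.X i) W V)) / A.M ^ 2 +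
    (∑ i, ∑ z ∈ A.md i, (cz (A.d i) z : ℝ)) / A.M ^ 2 * (P.Sm V W + P.Sm W V) ≤
    P.pf V W - ε₂
  massVm : ∀ i Y, ((∑ z ∈ A.md i, (ac (A.d i) z : ℝ)) + n0 (A.d i) + nr (A.d i)) / A.M * P.am Y ≤
    1 - ε₂ - P.pS (A.X i) (A.S i) Y
  massV0 : ∀ i Y, ((∑ z ∈ A.md i, (ac (A.d i) z : ℝ)) + n0 (A.d i) + nr (A.d i)) / A.M * P.a0 Y ≤
    1 - ε₂ - P.pS (A.X i) (A.S i) Y

end MP_80c395_TP
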