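import Pool.Agent.Lib.MP_80c395_co_TP.McD

/-!
# Project TQ: concentration of polynomials in independent labels

`EW w F`, `PW w A`: expectation and probability in the finite product space `I → S` with coordinate
weights `w i` (Pool/Agent/Lib/MP_dcb6ed_co_CD/Defs.lean, Pw.lean); `mcd_up`, `mcd_lo`: McD.lean.

`poly_mean`: linearity (`ew_sum`, `ew_smul`) and independence (`ew_prod` with `V i = {i}`, `ew_coord`).

`poly_conc`: let `F ω = ∑ t, c t * ∏ i ∈ sp t, φ t i (ω i)`.  Changing the coordinate `i` changes `F` by at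
most `d i = 2 B^r ∑_{t, i ∈ sp t} |c t|` (terms with `i ∉ sp t` do not change; a product of at most `r`
factors bounded by `B`, `1 ≤ B`).  `d i ≤ 2 B^r C'`, `∑ i, d i ≤ 2 B^r r C` (double counting,
`|sp t| ≤ r`), so `∑ (d i)^2 ≤ 4 B^(2r) C' C r =: D`, and `mcd_up`, `mcd_lo` with this `D` give the
bound `2 exp (- δ^2 / (4 D))`.

`poly1`, `poly2`, `poly3`: special cases with one, two, three different coordinates.
(`k1 t, k2 t, k3 t` pairwise different; `sp t = {k1 t, k2 t, k3 t}`.)  In `poly3` the number of the terms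
containing `i` is counted for each position: `∑_{t, i ∈ sp t} |c t| ≤ 3 C'`; `r = 3`:
`16 * B^6 * (3 C') * C * 3`.  In `poly2`: `16 * B^4 * (2 C') * C * 2`.
-/

set_option autoImplicit false

namespace MP_80c395_TP

open Finset Pool.Agent.Lib.CD

variable {I S : Type} [Fintype I] [DecidableEq I] [Fintype S] [DecidableEq S]

theorem poly_mean {w : I → S → ℝ} (hw : IsW w) {Tm : Type} [Fintype Tm] (c : Tm → ℝ)
    (sp : Tm → Finset I) (φ : Tm → I → S → ℝ) :
    EW w (fun ω => ∑ t, c t * ∏ i ∈ sp t, φ t i (ω i)) =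
      ∑ t, c t * ∏ i ∈ sp t, ∑ s, w i s * φ t i s := by
  rw [ew_sum]
  refine Finset.sum_congr rfl fun t _ => ?_
  rw [ew_smul, ew_prod hw (sp t) (fun i ω => φ t i (ω i)) (fun i => {i})]
  · congr 1
    exact Finset.prod_congr rfl fun i _ => ew_coord hw i (φ t i)
  · intro i _ ω ω' h
    exact congrArg (φ t i) (h i (Finset.mem_singleton_self i))
  · intro k _ l _ hkl
    exact Finset.disjoint_singleton.2 hkl

omit [Fintype I] [DecidableEq I] in
private theorem QRG_prod {s : Finset I} {f : I → ℝ} {B : ℝ} {r : ℕ} (hB : 1 ≤ B)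
    (hf : ∀ i, |f i| ≤ B) (hr : s.card ≤ r) : |∏ i ∈ s, f i| ≤ B ^ r := by
  rw [Finset.abs_prod]
  refine le_trans (Finset.prod_le_prod (fun i _ => abs_nonneg _) fun i _ => hf i) ?_
  rw [Finset.prod_const]
  exact pow_le_pow_right₀ hB hr

theorem poly_conc {w : I → S → ℝ} (hw : IsW w) {Tm : Type} [Fintype Tm] (c : Tm → ℝ)
    (sp : Tm → Finset I) (φ : Tm → I → S → ℝ) {B C C' δ : ℝ} {r : ℕ} (hB : 1 ≤ B)
    (hφ : ∀ t i s, |φ t i s| ≤ B) (hr : ∀ t, (sp t).card ≤ r) (hr1 : 1 ≤ r)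
    (hC : ∑ t, |c t| ≤ C) (hC0 : 0 < C) (hC1 : 0 < C')
    (hC' : ∀ i, ∑ t ∈ univ.filter (fun t => i ∈ sp t), |c t| ≤ C') (hδ : 0 ≤ δ) :
    PW w (fun ω => δ < |∑ t, c t * ∏ i ∈ sp t, φ t i (ω i) -
        ∑ t, c t * ∏ i ∈ sp t, ∑ s, w i s * φ t i s|) ≤
      2 * Real.exp (-(δ ^ 2 / (16 * B ^ (2 * r) * C' * C * r))) := by
  classical
  obtain ⟨F, hF⟩ : ∃ F : (I → S) → ℝ, F = fun ω => ∑ t, c t * ∏ i ∈ sp t, φ t i (ω i) := ⟨_, rfl⟩
  have hE : ∑ t, c t * ∏ i ∈ sp t, ∑ s, w i s * φ t i s = EW w F := by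
    rw [hF, poly_mean hw]
  have hB0 : 0 < B ^ r := pow_pos (by linarith) r
  have hr0 : (0 : ℝ) < r := by exact_mod_cast hr1
  have hL : ∀ (i : I) (ω ω' : I → S), (∀ j, j ≠ i → ω j = ω' j) →
      |F ω - F ω'| ≤ 2 * B ^ r * ∑ t ∈ univ.filter (fun t => i ∈ sp t), |c t| := by
    intro i ω ω' h
    have e1 : F ω - F ω' = ∑ t ∈ univ.filter (fun t => i ∈ sp t),
        c t * (∏ j ∈ sp t, φ t j (ω j) - ∏ j ∈ sp t, φ t j (ω' j)) := by
      rw [hF]
      dsimp only
      rw [← Finset.sum_sub_distrib, Finset.sum_filter]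
      refine Finset.sum_congr rfl fun t _ => ?_
      by_cases hi : i ∈ sp t
      · rw [if_pos hi, mul_sub]
      · rw [if_neg hi]
        have e2 : ∏ j ∈ sp t, φ t j (ω j) = ∏ j ∈ sp t, φ t j (ω' j) := by
          refine Finset.prod_congr rfl fun j hj => ?_
          rw [h j (fun h1 => hi (h1 ▸ hj))]
        rw [e2, sub_self]
    rw [e1, Finset.mul_sum]
    refine (Finset.abs_sum_le_sum_abs _ _).trans (Finset.sum_le_sum fun t _ => ?_)
    rw [abs_mul, mul_comm]
    refine mul_le_mul_of_nonneg_right ?_ (abs_nonneg _)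
    have b1 := QRG_prod (s := sp t) (f := fun j => φ t j (ω j)) hB (fun j => hφ t j (ω j)) (hr t)
    have b2 := QRG_prod (s := sp t) (f := fun j => φ t j (ω' j)) hB (fun j => hφ t j (ω' j)) (hr t)
    refine (abs_sub _ _).trans ?_
    linarith
  have hd1 : ∀ i : I, 2 * B ^ r * ∑ t ∈ univ.filter (fun t => i ∈ sp t), |c t| ≤
      2 * B ^ r * C' := fun i => mul_le_mul_of_nonneg_left (hC' i) (by positivity)
  have hd0 : ∀ i : I, 0 ≤ 2 * B ^ r * ∑ t ∈ univ.filter (fun t => i ∈ sp t), |c t| :=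
    fun i => mul_nonneg (by positivity) (Finset.sum_nonneg fun t _ => abs_nonneg _)
  have hd2 : ∑ i : I, 2 * B ^ r * ∑ t ∈ univ.filter (fun t => i ∈ sp t), |c t| ≤
      2 * B ^ r * (r * C) := by
    rw [← Finset.mul_sum]
    refine mul_le_mul_of_nonneg_left ?_ (by positivity)
    have e3 : ∑ i : I, ∑ t ∈ univ.filter (fun t => i ∈ sp t), |c t| =
        ∑ t, ((sp t).card : ℝ) * |c t| := by
      simp only [Finset.sum_filter]
      rw [Finset.sum_comm]
      refine Finset.sum_congr rfl fun t _ => ?_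
      rw [← Finset.sum_filter, Finset.sum_const, nsmul_eq_mul]
      congr 2
      congr 1
      ext i
      simp
    rw [e3]
    calc ∑ t, ((sp t).card : ℝ) * |c t| ≤ ∑ t, (r : ℝ) * |c t| :=
          Finset.sum_le_sum fun t _ => mul_le_mul_of_nonneg_right (by exact_mod_cast hr t)
            (abs_nonneg _)
      _ = r * ∑ t, |c t| := by rw [Finset.mul_sum]
      _ ≤ r * C := mul_le_mul_of_nonneg_left hC hr0.le
  have hD : ∑ i : I, (2 * B ^ r * ∑ t ∈ univ.filter (fun t => i ∈ sp t), |c t|) ^ 2 ≤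
      4 * B ^ (2 * r) * C' * C * r := by
    calc ∑ i : I, (2 * B ^ r * ∑ t ∈ univ.filter (fun t => i ∈ sp t), |c t|) ^ 2 ≤
        ∑ i : I, (2 * B ^ r * C') * (2 * B ^ r * ∑ t ∈ univ.filter (fun t => i ∈ sp t), |c t|) := by
          refine Finset.sum_le_sum fun i _ => ?_
          rw [sq]
          exact mul_le_mul_of_nonneg_right (hd1 i) (hd0 i)
      _ = (2 * B ^ r * C') *
          ∑ i : I, 2 * B ^ r * ∑ t ∈ univ.filter (fun t => i ∈ sp t), |c t| := by
          rw [Finset.mul_sum]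
      _ ≤ (2 * B ^ r * C') * (2 * B ^ r * (r * C)) :=
          mul_le_mul_of_nonneg_left hd2 (by positivity)
      _ = 4 * B ^ (2 * r) * C' * C * r := by
          rw [two_mul r, pow_add]
          ring
  have hD0 : 0 < 4 * B ^ (2 * r) * C' * C * r := by
    have : 0 < B ^ (2 * r) := pow_pos (by linarith) _
    positivity
  have h1 := mcd_up hw F _ hL hD hD0 hδ
  have h2 := mcd_lo hw F _ hL hD hD0 hδ
  have e4 : 4 * (4 * B ^ (2 * r) * C' * C * r) = 16 * B ^ (2 * r) * C' * C * r := by ring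
  rw [e4] at h1 h2
  rw [hE]
  refine le_trans (pw_mono hw (B := fun ω => EW w F + δ ≤ F ω ∨ F ω ≤ EW w F - δ) fun ω hω => ?_)
    ((pw_or hw _ _).trans ?_)
  · have h3 : δ < |F ω - EW w F| := by
      rw [hF] at hω ⊢
      exact hω
    rcases lt_abs.1 h3 with h4 | h4
    · left
      linarith
    · right
      linarith
  · linarith

theorem poly1 {w : I → S → ℝ} (hw : IsW w) {Tm : Type} [Fintype Tm] (c : Tm → ℝ)
    (k1 : Tm → I) (h1 : Tm → S → ℝ) {B C C' δ : ℝ} (hB : 1 ≤ B)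
    (hh1 : ∀ t s, |h1 t s| ≤ B) (hC : ∑ t, |c t| ≤ C) (hC0 : 0 < C) (hC1 : 0 < C')
    (hk1 : ∀ i, ∑ t ∈ univ.filter (fun t => k1 t = i), |c t| ≤ C') (hδ : 0 ≤ δ) :
    PW w (fun ω => δ < |∑ t, c t * h1 t (ω (k1 t)) - ∑ t, c t * ∑ s, w (k1 t) s * h1 t s|) ≤
      2 * Real.exp (-(δ ^ 2 / (16 * B ^ 2 * C' * C))) := by
  have h := poly_conc hw c (fun t => {k1 t}) (fun t _ s => h1 t s) (r := 1) hB
    (fun t _ s => hh1 t s) (fun t => by simp) le_rfl hC hC0 hC1 (fun i => by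
      refine le_trans (le_of_eq ?_) (hk1 i)
      refine Finset.sum_congr ?_ fun _ _ => rfl
      ext t
      simp [eq_comm]) hδ
  simp only [Finset.prod_singleton, mul_one, Nat.cast_one] at h
  exact h

theorem poly2 {w : I → S → ℝ} (hw : IsW w) {Tm : Type} [Fintype Tm] (c : Tm → ℝ)
    (k1 k2 : Tm → I) (h1 h2 : Tm → S → ℝ) {B C C' δ : ℝ} (hB : 1 ≤ B)
    (hh1 : ∀ t s, |h1 t s| ≤ B) (hh2 : ∀ t s, |h2 t s| ≤ B)
    (hne : ∀ t, c t ≠ 0 → k1 t ≠ k2 t) (hC : ∑ t, |c t| ≤ C) (hC0 : 0 < C) (hC1 : 0 < C')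
    (hk1 : ∀ i, ∑ t ∈ univ.filter (fun t => k1 t = i), |c t| ≤ C')
    (hk2 : ∀ i, ∑ t ∈ univ.filter (fun t => k2 t = i), |c t| ≤ C') (hδ : 0 ≤ δ) :
    PW w (fun ω => δ < |∑ t, c t * (h1 t (ω (k1 t)) * h2 t (ω (k2 t))) -
        ∑ t, c t * ((∑ s, w (k1 t) s * h1 t s) * ∑ s, w (k2 t) s * h2 t s)|) ≤
      2 * Real.exp (-(δ ^ 2 / (64 * B ^ 4 * C' * C))) := by
  classical
  have h := poly_conc hw c (fun t => {k1 t, k2 t})
    (fun t i s => if i = k1 t then h1 t s else h2 t s) (r := 2) (C' := 2 * C') hB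
    (fun t i s => by
      split_ifs
      · exact hh1 t s
      · exact hh2 t s) (fun t => Finset.card_le_two) (by norm_num) hC hC0 (by linarith)
    (fun i => by
      have a1 := hk1 i
      have a2 := hk2 i
      rw [Finset.sum_filter] at a1 a2 ⊢
      rw [two_mul]
      refine le_trans ?_ (add_le_add a1 a2)
      rw [← Finset.sum_add_distrib]
      refine Finset.sum_le_sum fun t _ => ?_
      have a3 := abs_nonneg (c t)
      have u1 : (0 : ℝ) ≤ if k1 t = i then |c t| else 0 := by split_ifs <;> linarith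
      have u2 : (0 : ℝ) ≤ if k2 t = i then |c t| else 0 := by split_ifs <;> linarith
      by_cases b : i ∈ ({k1 t, k2 t} : Finset I)
      · rw [if_pos b]
        rw [Finset.mem_insert, Finset.mem_singleton] at b
        rcases b with b | b
        · rw [if_pos b.symm]
          linarith
        · rw [if_pos b.symm]
          linarith
      · rw [if_neg b]
        linarith) hδ
  have e1 : ∀ ω : I → S, ∑ t, c t * ∏ i ∈ ({k1 t, k2 t} : Finset I),
      (if i = k1 t then h1 t (ω i) else h2 t (ω i)) =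
      ∑ t, c t * (h1 t (ω (k1 t)) * h2 t (ω (k2 t))) := by
    intro ω
    refine Finset.sum_congr rfl fun t _ => ?_
    by_cases h0 : c t = 0
    · rw [h0, zero_mul, zero_mul]
    · have n := hne t h0
      rw [Finset.prod_pair n, if_pos rfl, if_neg n.symm]
  have e2 : ∑ t, c t * ∏ i ∈ ({k1 t, k2 t} : Finset I),
      ∑ s, w i s * (if i = k1 t then h1 t s else h2 t s) =
      ∑ t, c t * ((∑ s, w (k1 t) s * h1 t s) * ∑ s, w (k2 t) s * h2 t s) := by
    refine Finset.sum_congr rfl fun t _ => ?_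
    by_cases h0 : c t = 0
    · rw [h0, zero_mul, zero_mul]
    · have n := hne t h0
      rw [Finset.prod_pair n]
      simp only [if_true, if_neg n.symm]
  simp only [e1, e2] at h
  refine h.trans (le_of_eq ?_)
  congr 4
  push_cast
  ring

theorem poly3 {w : I → S → ℝ} (hw : IsW w) {Tm : Type} [Fintype Tm] (c : Tm → ℝ)
    (k1 k2 k3 : Tm → I) (h1 h2 h3 : Tm → S → ℝ) {B C C' δ : ℝ} (hB : 1 ≤ B)
    (hh1 : ∀ t s, |h1 t s| ≤ B) (hh2 : ∀ t s, |h2 t s| ≤ B) (hh3 : ∀ t s, |h3 t s| ≤ B)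
    (hne : ∀ t, c t ≠ 0 → k1 t ≠ k2 t ∧ k1 t ≠ k3 t ∧ k2 t ≠ k3 t)
    (hC : ∑ t, |c t| ≤ C) (hC0 : 0 < C) (hC1 : 0 < C')
    (hk1 : ∀ i, ∑ t ∈ univ.filter (fun t => k1 t = i), |c t| ≤ C')
    (hk2 : ∀ i, ∑ t ∈ univ.filter (fun t => k2 t = i), |c t| ≤ C')
    (hk3 : ∀ i, ∑ t ∈ univ.filter (fun t => k3 t = i), |c t| ≤ C') (hδ : 0 ≤ δ) :
    PW w (fun ω => δ < |∑ t, c t * (h1 t (ω (k1 t)) * h2 t (ω (k2 t)) * h3 t (ω (k3 t))) -
        ∑ t, c t * ((∑ s, w (k1 t) s * h1 t s) * (∑ s, w (k2 t) s * h2 t s) *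
          ∑ s, w (k3 t) s * h3 t s)|) ≤
      2 * Real.exp (-(δ ^ 2 / (144 * B ^ 6 * C' * C))) := by
  classical
  have h := poly_conc hw c (fun t => {k1 t, k2 t, k3 t})
    (fun t i s => if i = k1 t then h1 t s else if i = k2 t then h2 t s else h3 t s) (r := 3)
    (C' := 3 * C') hB
    (fun t i s => by
      split_ifs
      · exact hh1 t s
      · exact hh2 t s
      · exact hh3 t s) (fun t => Finset.card_le_three) (by norm_num) hC hC0 (by linarith)
    (fun i => by
      have a1 := hk1 i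
      have a2 := hk2 i
      have a4 := hk3 i
      rw [Finset.sum_filter] at a1 a2 a4 ⊢
      have a5 : 3 * C' = C' + C' + C' := by ring
      rw [a5]
      refine le_trans ?_ (add_le_add (add_le_add a1 a2) a4)
      rw [← Finset.sum_add_distrib, ← Finset.sum_add_distrib]
      refine Finset.sum_le_sum fun t _ => ?_
      have a3 := abs_nonneg (c t)
      have u1 : (0 : ℝ) ≤ if k1 t = i then |c t| else 0 := by split_ifs <;> linarith
      have u2 : (0 : ℝ) ≤ if k2 t = i then |c t| else 0 := by split_ifs <;> linarith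
      have u3 : (0 : ℝ) ≤ if k3 t = i then |c t| else 0 := by split_ifs <;> linarith
      by_cases b : i ∈ ({k1 t, k2 t, k3 t} : Finset I)
      · rw [if_pos b]
        rw [Finset.mem_insert, Finset.mem_insert, Finset.mem_singleton] at b
        rcases b with b | b | b
        · rw [if_pos b.symm]
          linarith
        · rw [if_pos b.symm]
          linarith
        · rw [if_pos b.symm]
          linarith
      · rw [if_neg b]
        linarith) hδ
  have e1 : ∀ ω : I → S, ∑ t, c t * ∏ i ∈ ({k1 t, k2 t, k3 t} : Finset I),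
      (if i = k1 t then h1 t (ω i) else if i = k2 t then h2 t (ω i) else h3 t (ω i)) =
      ∑ t, c t * (h1 t (ω (k1 t)) * h2 t (ω (k2 t)) * h3 t (ω (k3 t))) := by
    intro ω
    refine Finset.sum_congr rfl fun t _ => ?_
    by_cases h0 : c t = 0
    · rw [h0, zero_mul, zero_mul]
    · obtain ⟨n1, n2, n3⟩ := hne t h0
      have m1 : k1 t ∉ ({k2 t, k3 t} : Finset I) := by simp [n1, n2]
      rw [Finset.prod_insert m1, Finset.prod_pair n3, if_pos rfl, if_neg n1.symm, if_pos rfl,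
        if_neg n2.symm, if_neg n3.symm, mul_assoc]
  have e2 : ∑ t, c t * ∏ i ∈ ({k1 t, k2 t, k3 t} : Finset I),
      ∑ s, w i s * (if i = k1 t then h1 t s else if i = k2 t then h2 t s else h3 t s) =
      ∑ t, c t * ((∑ s, w (k1 t) s * h1 t s) * (∑ s, w (k2 t) s * h2 t s) *
          ∑ s, w (k3 t) s * h3 t s) := by
    refine Finset.sum_congr rfl fun t _ => ?_
    by_cases h0 : c t = 0
    · rw [h0, zero_mul, zero_mul]
    · obtain ⟨n1, n2, n3⟩ := hne t h0
      have m1 : k1 t ∉ ({k2 t, k3 t} : Finset I) := by simp [n1, n2]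
      rw [Finset.prod_insert m1, Finset.prod_pair n3]
      simp only [if_true, if_neg n1.symm, if_neg n2.symm, if_neg n3.symm]
      rw [mul_assoc]
  simp only [e1, e2] at h
  refine h.trans (le_of_eq ?_)
  congr 4
  push_cast
  ring

end MP_80c395_TP
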