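import Pool.Agent.Lib.MP_80c395_co_TQ.RowLaw

/-!
# Project TQ: the law of the pieces attached to a slot

`H = Fin q × G`, `M = q * card G`, `τ = θ / ε` (`30 τ ≤ η ≤ 1/2`), `s = P.s X j ≥ γ > 0`.  The centre is placed at `u`,
`u.1 = X`, label `j ∈ S`.
`Â = {v | hit ω X j v.1 = 1 ∧ v ∉ F ∧ ¬ zz u v}` (`hit` is `0` for `v.1 = X`).  With
`K Y = 1 - #{v | v.1 = Y ∧ (v ∈ F ∨ zz u v)} / card G`:
`|Â| = card G * ∑ Y ≠ X, K Y * hit ω X j Y ≥ card G * (∑ Y ≠ X, K Y * p X j Y - θ γ / 8 * q)`, and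
`∑ Y ≠ X, K Y p ≥ ∑ Y, p - s - s ∑ Y, (1 - K Y) ≥ s q / 2 - s - s κ₃ q` (`p ≤ s`, `sum_p`), so
`|Â| ≥ (s / 2) M (1 - 2 / q - 2 κ₃ - θ / 4) ≥ (s / 2) M (1 - θ)` (`2 B ≤ θ q`, `B^3 κ₃ ≤ θ`, `B ≥ 4`).
`ρ` is uniform on `Â`: `ρ v ≤ (1 + 2 θ) 2 / (s M)`.
`κ1 v`, `v.1 ≠ X`: `row_law` with `K = SX X v.1`, `α = al X v.1`, `ex w := w ∈ F ∨ w.1 = X ∨ w.1 ∈ bt ∨ zz v w`;
`v.1 = X`: `def_row`.
Product: `ρ v κ1 v w ≤ (1 + 2 θ)(1 + 6 τ) ...≤ (1 + 9 τ) (2 / (s M)) hit SX gg fre / (al M)`.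
Sum over `v`, for `w.1 ≠ X`: `≤ (1 + 9 τ) (2 / (s M^2)) gg(w.1) card G ∑ V ≠ X, w.1, hit fre SX / al`, by `h3`
the last sum is at most `∑ V, p SX / al + (θ γ / 8) q = (s/2) q a0 + (θ γ / 8) q` (`p = s al / 2`, `SXc`), total
`≤ (1 + 9 τ) (gg / M) (a0 + θ / 4) ≤ (1 + 10 τ) gg a0 / M ≤ (1 + η / 2) gg a0 / M`.
-/

set_option autoImplicit false

namespace MP_80c395_TP

open Finset

variable {q R : ℕ} {P : Par q R} {ε B : ℝ} {G : Type} [Fintype G] [DecidableEq G] [Nonempty G]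

open Classical in
/-- the part of the cluster `Y` outside of the bad set `E` -/
noncomputable def prt (E : Fin q × G → Prop) (Y : Fin q) : ℝ :=
  1 - ((univ.filter (fun v : Fin q × G => v.1 = Y ∧ E v)).card : ℝ) / Fintype.card G

theorem slotl_sum_fst {q : ℕ} {G : Type} [Fintype G] (f : Fin q → ℝ) :
    ∑ v : Fin q × G, f v.1 = Fintype.card G * ∑ V, f V := by
  rw [Fintype.sum_prod_type, Finset.mul_sum]
  refine Finset.sum_congr rfl fun V _ => ?_
  show ∑ _y : G, f V = _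
  rw [Finset.sum_const, nsmul_eq_mul, Finset.card_univ]

theorem slotl_bd {ε B θ α K g f M : ℝ} (hε : 0 < ε) (hB : 4 ≤ B) (hα : ε ≤ α) (hK0 : 0 ≤ K)
    (hK : K ≤ ε * B) (g0 : 0 ≤ g) (gB : g ≤ B) (f0 : 0 ≤ f) (fB : f ≤ B) (hM : 0 < M)
    (hθ : 6 * θ ≤ ε) : (1 + 6 * θ / ε) * (K * (g * f) / (α * M)) ≤ B ^ 4 / M := by
  have hα0 : 0 < α := hε.trans_le hα
  have h1 : 1 + 6 * θ / ε ≤ 2 := by
    have : 6 * θ / ε ≤ 1 := by
      rw [div_le_one hε]
      exact hθ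
    linarith
  have h2 : K * (g * f) / (α * M) ≤ B ^ 3 / M := by
    rw [div_le_div_iff₀ (by positivity) hM]
    have h3 : K * (g * f) ≤ ε * B * (B * B) := by gcongr
    have h4 : ε * B * (B * B) ≤ α * B ^ 3 := by
      have : ε * B ^ 3 ≤ α * B ^ 3 := by gcongr
      linarith
    have h5 := mul_le_mul_of_nonneg_right (h3.trans h4) hM.le
    linarith
  have h6 : 0 ≤ K * (g * f) / (α * M) := by positivity
  have h7 : (1 + 6 * θ / ε) * (K * (g * f) / (α * M)) ≤ 2 * (K * (g * f) / (α * M)) :=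
    mul_le_mul_of_nonneg_right h1 h6
  have h8 : 2 * (B ^ 3 / M) ≤ B ^ 4 / M := by
    rw [mul_div_assoc', div_le_div_iff_of_pos_right hM]
    have : 0 < B ^ 3 := by positivity
    nlinarith
  linarith

open Classical in
theorem slotl_cnt {q : ℕ} {G : Type} [Fintype G] [DecidableEq G] [Nonempty G]
    (E : Fin q × G → Prop) (Y : Fin q) :
    (Fintype.card G : ℝ) * prt E Y = ∑ y : G, (if E (Y, y) then (0 : ℝ) else 1) := by
  have hG0 : (0 : ℝ) < Fintype.card G := by exact_mod_cast Fintype.card_pos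
  unfold prt
  have h1 : ((univ.filter (fun v : Fin q × G => v.1 = Y ∧ E v)).card : ℝ) =
      ∑ y : G, (if E (Y, y) then (1 : ℝ) else 0) := by
    rw [Finset.card_filter]
    push_cast
    rw [Fintype.sum_prod_type, Finset.sum_eq_single Y]
    · simp
    · intro Z _ hZ
      simp [hZ]
    · intro h
      exact absurd (Finset.mem_univ _) h
  rw [h1, mul_sub, mul_one]
  have h3 : (Fintype.card G : ℝ) * ((∑ y : G, (if E (Y, y) then (1 : ℝ) else 0)) /
      Fintype.card G) = ∑ y : G, (if E (Y, y) then (1 : ℝ) else 0) := by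
    field_simp
  rw [h3]
  have h2 : (Fintype.card G : ℝ) = ∑ _y : G, (1 : ℝ) := by simp
  rw [h2, ← Finset.sum_sub_distrib]
  refine Finset.sum_congr rfl fun y _ => ?_
  split_ifs <;> norm_num

theorem slotl_prt {q : ℕ} {G : Type} [Fintype G] [DecidableEq G] [Nonempty G]
    (E : Fin q × G → Prop) (Y : Fin q) : 0 ≤ prt E Y ∧ prt E Y ≤ 1 := by
  classical
  have hG0 : (0 : ℝ) < Fintype.card G := by exact_mod_cast Fintype.card_pos
  have h1 := slotl_cnt E Y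
  have h2 : 0 ≤ ∑ y : G, (if E (Y, y) then (0 : ℝ) else 1) :=
    Finset.sum_nonneg fun y _ => by split_ifs <;> norm_num
  have h3 : ∑ y : G, (if E (Y, y) then (0 : ℝ) else 1) ≤ ∑ _y : G, (1 : ℝ) :=
    Finset.sum_le_sum fun y _ => by split_ifs <;> norm_num
  have h4 : ∑ _y : G, (1 : ℝ) = Fintype.card G := by simp
  rw [h4, ← h1] at h3
  rw [← h1] at h2
  constructor
  · exact nonneg_of_mul_nonneg_right h2 hG0
  · have h5 : (Fintype.card G : ℝ) * prt E Y ≤ Fintype.card G * 1 := by linarith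
    exact le_of_mul_le_mul_left h5 hG0

open Classical in
theorem slotl_A {q : ℕ} {G : Type} [Fintype G] [DecidableEq G] [Nonempty G]
    (E : Fin q × G → Prop) (h : Fin q → ℝ) (h01 : ∀ Y, h Y = 0 ∨ h Y = 1) :
    ((univ.filter (fun v : Fin q × G => h v.1 = 1 ∧ ¬ E v)).card : ℝ) =
      Fintype.card G * ∑ Y, prt E Y * h Y := by
  rw [Finset.card_filter]
  push_cast
  rw [Fintype.sum_prod_type, Finset.mul_sum]
  refine Finset.sum_congr rfl fun Y _ => ?_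
  rw [← mul_assoc, slotl_cnt, Finset.sum_mul]
  refine Finset.sum_congr rfl fun y _ => ?_
  rcases h01 Y with h1 | h1
  · simp [h1]
  · by_cases hE : E (Y, y) <;> simp [h1, hE]

open Classical in
theorem slotl_E {q : ℕ} {G : Type} [Fintype G] [DecidableEq G] [Nonempty G]
    (E : Fin q × G → Prop) :
    ((univ.filter (fun v => E v)).card : ℝ) = Fintype.card G * ∑ Y, (1 - prt E Y) := by
  rw [Finset.card_filter]
  push_cast
  rw [Fintype.sum_prod_type, Finset.mul_sum]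
  refine Finset.sum_congr rfl fun Y _ => ?_
  rw [mul_sub, slotl_cnt, mul_one]
  have h2 : (Fintype.card G : ℝ) = ∑ _y : G, (1 : ℝ) := by simp
  rw [h2, ← Finset.sum_sub_distrib]
  refine Finset.sum_congr rfl fun y _ => ?_
  split_ifs <;> norm_num

/-- the number of admissible hosts for a slot -/
theorem slotl_low {q R : ℕ} {P : Par q R} {ε B : ℝ} {G : Type} [Fintype G] [DecidableEq G]
    [Nonempty G] (hP : ParOK P ε B) (ω : Om q R) {X : Fin q} (E : Fin q × G → Prop)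
    (j : Fin R) {θ κ₃ γ n e : ℝ} (hs : γ ≤ P.s X j) (hs0 : 0 < P.s X j) (hθ0 : 0 < θ)
    (h2 : |∑ Y ∈ univ.filter (fun Y => Y ≠ X), prt E Y * hit ω X j Y -
        ∑ Y ∈ univ.filter (fun Y => Y ≠ X), prt E Y * P.p X j Y| ≤ θ * γ / 8 * q)
    (hq : 2 * B ≤ θ * q) (hκ : B ^ 3 * κ₃ ≤ θ) (hκ0 : 0 ≤ κ₃)
    (he : e = Fintype.card G * ∑ Y, (1 - prt E Y)) (he' : e ≤ κ₃ * (q * Fintype.card G))
    (hn : n = Fintype.card G * ∑ Y, prt E Y * hit ω X j Y) :
    P.s X j / 2 * (q * Fintype.card G) * (1 - θ) ≤ n := by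
  have hB := B_ge hP
  have hq0 : (0 : ℝ) < q := by exact_mod_cast hP.q0
  have hG0 : (0 : ℝ) < Fintype.card G := by exact_mod_cast Fintype.card_pos
  have b1 : ∑ Y, prt E Y * hit ω X j Y =
      ∑ Y ∈ univ.filter (fun Y => Y ≠ X), prt E Y * hit ω X j Y := by
    rw [Finset.sum_filter]
    refine Finset.sum_congr rfl fun Y _ => ?_
    by_cases h : Y = X
    · rw [h, hit_self]
      simp
    · simp [h]
  have b2 : ∑ Y, prt E Y * P.p X j Y - P.s X j ≤
      ∑ Y ∈ univ.filter (fun Y => Y ≠ X), prt E Y * P.p X j Y := by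
    have c1 := Finset.sum_erase_add univ (fun Y => prt E Y * P.p X j Y) (Finset.mem_univ X)
    have c2 : univ.filter (fun Y => Y ≠ X) = univ.erase X := by
      ext Y
      simp
    rw [c2, ← c1]
    have c3 := slotl_prt E X
    have c4 := p_le hP X j X
    have c5 := p_nonneg hP X j X
    show _ + prt E X * P.p X j X - _ ≤ _
    nlinarith
  have b3 : ∑ Y, P.p X j Y - P.s X j * ∑ Y, (1 - prt E Y) ≤ ∑ Y, prt E Y * P.p X j Y := by
    rw [Finset.mul_sum, ← Finset.sum_sub_distrib]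
    refine Finset.sum_le_sum fun Y _ => ?_
    have c3 := slotl_prt E Y
    have c4 := p_le hP X j Y
    nlinarith
  have b4 : ∑ Y, (1 - prt E Y) ≤ κ₃ * q := by
    have c1 : (Fintype.card G : ℝ) * ∑ Y, (1 - prt E Y) ≤ Fintype.card G * (κ₃ * q) := by
      rw [← he]
      linarith
    exact le_of_mul_le_mul_left c1 hG0
  rw [sum_p hP X j] at b3
  have b5 := (abs_le.1 h2).1
  have b6 : P.s X j * ∑ Y, (1 - prt E Y) ≤ P.s X j * (κ₃ * q) :=
    mul_le_mul_of_nonneg_left b4 hs0.le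
  have b7 : 64 * κ₃ ≤ θ := by
    have c1 : (4 : ℝ) ^ 3 ≤ B ^ 3 := pow_le_pow_left₀ (by norm_num) hB 3
    have c2 := mul_le_mul_of_nonneg_right c1 hκ0
    linarith
  have b8 : P.s X j * (64 * κ₃ * q) ≤ P.s X j * (θ * q) := by gcongr
  have b9 : 8 * P.s X j ≤ P.s X j * (θ * q) := by nlinarith
  have b10 : θ * γ * q ≤ θ * P.s X j * q := by gcongr
  have b11 : P.s X j * q / 2 * (1 - θ) ≤ ∑ Y, prt E Y * hit ω X j Y := by
    rw [b1]
    have : 0 < P.s X j * (θ * q) := by positivity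
    nlinarith
  rw [hn]
  have b12 := mul_le_mul_of_nonneg_left b11 hG0.le
  linarith

open Classical in
theorem slot_law (hP : ParOK P ε B) (ω : Om q R) {X : Fin q} {S : Finset (Fin R)}
    (hS : P.Vd B X S) (F : Finset (Fin q × G)) (bt : Finset (Fin q))
    (zz : Fin q × G → Fin q × G → Prop) (u : Fin q × G) (j : Fin R) {θ κ₃ η γ : ℝ}
    (hγ : 0 < γ) (hγ1 : γ ≤ 1) (hs : γ ≤ P.s X j)
    (h1 : ∀ V, V ≠ X → |∑ W ∈ univ.filter (fun W => W ≠ X ∧ W ≠ V),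
          P.SX X V W * (P.gg ω X S W * P.fre ω V W) -
        ∑ W ∈ univ.filter (fun W => W ≠ X ∧ W ≠ V), P.SX X V W| ≤ θ * q)
    (h2 : |∑ Y ∈ univ.filter (fun Y => Y ≠ X), prt (fun v => v ∈ F ∨ zz u v) Y * hit ω X j Y -
        ∑ Y ∈ univ.filter (fun Y => Y ≠ X), prt (fun v => v ∈ F ∨ zz u v) Y * P.p X j Y| ≤
      θ * γ / 8 * q)
    (h3 : ∀ W, W ≠ X → |∑ V ∈ univ.filter (fun V => V ≠ X ∧ V ≠ W),
          P.SX X V W / P.al X V * (hit ω X j V * P.fre ω V W) -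
        ∑ V ∈ univ.filter (fun V => V ≠ X ∧ V ≠ W), P.SX X V W / P.al X V * P.p X j V| ≤
      θ * γ / 8 * q)
    (h8 : ∀ V, |∑ W ∈ univ.filter (fun W => W ≠ V), P.pf V W * P.fre ω V W -
        ∑ W ∈ univ.filter (fun W => W ≠ V), P.pf V W| ≤ θ * q)
    (hq : 2 * B ≤ θ * q)
    (hexc : ∀ v, ((univ.filter (fun w : Fin q × G => w ∈ F ∨ w.1 = X ∨ w.1 ∈ bt ∨ zz v w)).card : ℝ) ≤
      κ₃ * (q * Fintype.card G))
    (hκ : B ^ 3 * κ₃ ≤ θ) (hθ : 30 * θ ≤ η * ε) (hη : η ≤ 1 / 2) (hθB : 6 * B * θ ≤ 1) :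
    ∃ (ρ : Fin q × G → ℝ) (κ : Fin q × G → Fin q × G → ℝ),
      (∀ v, 0 ≤ ρ v) ∧ ∑ v, ρ v = 1 ∧ (∀ v, ρ v ≠ 0 → v ∉ F ∧ hit ω X j v.1 = 1 ∧ ¬ zz u v) ∧
      (∀ v, ρ v ≤ (1 + η) * (2 / P.s X j * hit ω X j v.1 / (q * Fintype.card G))) ∧
      (∀ v w, 0 ≤ κ v w) ∧ (∀ v, ∑ w, κ v w = 1) ∧
      (∀ v w, κ v w ≠ 0 → w ∉ F ∧ P.fre ω v.1 w.1 ≠ 0 ∧ ¬ zz v w) ∧
      (∀ v w, κ v w ≤ B ^ 4 / (q * Fintype.card G)) ∧
      (∀ v w, ρ v * κ v w ≠ 0 → w ∉ F ∧ v.1 ≠ X ∧ w.1 ≠ X ∧ w.1 ∉ bt) ∧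
      (∀ w, ∑ v, ρ v * κ v w ≤
        (1 + η / 2) * (P.gg ω X S w.1 * P.a0 w.1 / (q * Fintype.card G))) ∧
      ∀ v w, ρ v * κ v w ≤ (1 + η) * (2 / P.s X j * (P.SX X v.1 w.1 / P.al X v.1) *
        (hit ω X j v.1 * P.gg ω X S w.1) * P.fre ω v.1 w.1 / (q * Fintype.card G) ^ 2) := by
  have hB := B_ge hP
  have hε := hP.ε0
  have hε1 := hP.ε1
  have hq0 : (0 : ℝ) < q := by exact_mod_cast hP.q0
  have hG0 : (0 : ℝ) < Fintype.card G := by exact_mod_cast Fintype.card_pos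
  obtain ⟨s, hsd⟩ : ∃ s : ℝ, s = P.s X j := ⟨_, rfl⟩
  have hs0 : 0 < s := by
    rw [hsd]
    exact hγ.trans_le hs
  obtain ⟨M, hMd⟩ : ∃ M : ℝ, M = q * Fintype.card G := ⟨_, rfl⟩
  have hM : 0 < M := by
    rw [hMd]
    positivity
  have hθ0 : 0 < θ := by
    by_contra hcon
    push Not at hcon
    nlinarith
  have h6 : 6 * θ ≤ ε := by nlinarith
  obtain ⟨τ, hτd⟩ : ∃ τ : ℝ, τ = θ / ε := ⟨_, rfl⟩
  have hθτ : θ = τ * ε := by
    rw [hτd]
    field_simp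
  have hτ0 : 0 < τ := by
    rw [hτd]
    positivity
  have hτη : 30 * τ ≤ η := by
    rw [hθτ] at hθ
    have h7 : 30 * τ * ε ≤ η * ε := by linarith
    exact le_of_mul_le_mul_right h7 hε
  have hθτ' : θ ≤ τ := by
    rw [hθτ]
    nlinarith
  have h6τ : 6 * θ / ε = 6 * τ := by
    rw [hτd]
    ring
  have hκ0 : 0 ≤ κ₃ := by
    have h7 := hexc u
    rw [← hMd] at h7
    by_contra hcon
    push Not at hcon
    have h8 := mul_neg_of_neg_of_pos hcon hM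
    have h9 : (0 : ℝ) ≤ ((univ.filter (fun w : Fin q × G =>
      w ∈ F ∨ w.1 = X ∨ w.1 ∈ bt ∨ zz u w)).card : ℝ) := Nat.cast_nonneg _
    linarith
  obtain ⟨A, hAd⟩ : ∃ A : Finset (Fin q × G),
    A = univ.filter (fun v => hit ω X j v.1 = 1 ∧ ¬ (v ∈ F ∨ zz u v)) := ⟨_, rfl⟩
  have hAcard : P.s X j / 2 * (q * Fintype.card G) * (1 - θ) ≤ (A.card : ℝ) := by
    refine slotl_low (e := ((univ.filter (fun v => v ∈ F ∨ zz u v)).card : ℝ)) hP ω
      (fun v => v ∈ F ∨ zz u v) j hs (hγ.trans_le hs) hθ0 h2 hq hκ hκ0 ?_ ?_ ?_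
    · have h7 := slotl_E (fun v : Fin q × G => v ∈ F ∨ zz u v)
      rw [← h7]
      congr!
    · refine le_trans ?_ (hexc u)
      have h7 : univ.filter (fun v => v ∈ F ∨ zz u v) ⊆ univ.filter (fun w : Fin q × G =>
          w ∈ F ∨ w.1 = X ∨ w.1 ∈ bt ∨ zz u w) := by
        intro w hw
        rw [Finset.mem_filter] at hw ⊢
        refine ⟨hw.1, ?_⟩
        rcases hw.2 with h | h
        · exact Or.inl h
        · exact Or.inr (Or.inr (Or.inr h))
      exact_mod_cast Finset.card_le_card h7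
    · rw [hAd, ← slotl_A (fun v : Fin q × G => v ∈ F ∨ zz u v) (fun Y => hit ω X j Y)
        (fun Y => hit01 ω X j Y)]
      congr!
  rw [← hsd, ← hMd] at hAcard
  have hθ24 : 24 * θ ≤ 1 := by nlinarith
  have hA0 : (0 : ℝ) < A.card := by
    refine lt_of_lt_of_le ?_ hAcard
    have : 0 < 1 - θ := by linarith
    positivity
  have hAinv : 1 / (A.card : ℝ) ≤ (1 + 2 * θ) * (2 / s / M) := by
    rw [div_le_iff₀ hA0]
    have h7 : (1 + 2 * θ) * (2 / s / M) * (s / 2 * M * (1 - θ)) ≤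
        (1 + 2 * θ) * (2 / s / M) * A.card := by gcongr
    have h8 : (1 + 2 * θ) * (2 / s / M) * (s / 2 * M * (1 - θ)) = (1 + 2 * θ) * (1 - θ) := by
      field_simp
    rw [h8] at h7
    nlinarith
  obtain ⟨ρ, hρd⟩ : ∃ ρ : Fin q × G → ℝ, ρ = fun v => if v ∈ A then 1 / (A.card : ℝ) else 0 :=
    ⟨_, rfl⟩
  have r1 : ∀ v, 0 ≤ ρ v := by
    intro v
    rw [hρd]
    show 0 ≤ if v ∈ A then 1 / (A.card : ℝ) else 0
    split_ifs
    · exact (one_div_pos.2 hA0).le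
    · exact le_rfl
  have r2 : ∑ v, ρ v = 1 := by
    rw [hρd]
    show ∑ v, (if v ∈ A then 1 / (A.card : ℝ) else 0) = 1
    rw [Finset.sum_ite_mem, Finset.univ_inter, Finset.sum_const, nsmul_eq_mul]
    exact mul_one_div_cancel hA0.ne'
  have r3 : ∀ v, ρ v ≠ 0 → hit ω X j v.1 = 1 ∧ ¬ (v ∈ F ∨ zz u v) := by
    intro v hv
    have h7 : v ∈ A := by
      by_contra hcon
      apply hv
      rw [hρd]
      exact if_neg hcon
    rw [hAd, Finset.mem_filter] at h7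
    exact h7.2
  have hh0 : ∀ Y, 0 ≤ hit ω X j Y := by
    intro Y
    rcases hit01 ω X j Y with h | h <;> rw [h]
    norm_num
  have r4 : ∀ v, ρ v ≤ (1 + 2 * θ) * (2 / s * hit ω X j v.1 / M) := by
    intro v
    by_cases hv : ρ v = 0
    · rw [hv]
      have := hh0 v.1
      positivity
    · have h7 := (r3 v hv).1
      rw [h7, mul_one]
      refine le_trans ?_ hAinv
      rw [hρd]
      show (if v ∈ A then 1 / (A.card : ℝ) else 0) ≤ _
      split_ifs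
      · exact le_rfl
      · exact (one_div_pos.2 hA0).le
  have hex : ∀ v : Fin q × G, ∃ κ : Fin q × G → ℝ, (∀ w, 0 ≤ κ w) ∧ ∑ w, κ w = 1 ∧
      (∀ w, κ w ≠ 0 → ¬ (w ∈ F ∨ w.1 = X ∨ w.1 ∈ bt ∨ zz v w) ∧
        P.fre ω v.1 w.1 ≠ 0) ∧ (∀ w, κ w ≤ B ^ 4 / M) ∧
      (v.1 ≠ X → ∀ w, κ w ≤ (1 + 6 * τ) *
        (P.SX X v.1 w.1 * (P.gg ω X S w.1 * P.fre ω v.1 w.1) / (P.al X v.1 * M))) := by
    intro v
    by_cases hv : v.1 = X
    · obtain ⟨κ, k1, k2, k3, k4⟩ := def_row hP ω v.1 (h8 v.1) hq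
        (fun w => w ∈ F ∨ w.1 = X ∨ w.1 ∈ bt ∨ zz v w) (by convert hexc v) hκ hθB
      refine ⟨κ, k1, k2, k3, fun w => ?_, fun h => absurd hv h⟩
      have h7 := k4 w
      rw [← hMd] at h7
      refine h7.trans ?_
      gcongr
      have h9 : (4 : ℝ) ^ 3 ≤ B ^ 3 := pow_le_pow_left₀ (by norm_num) hB 3
      nlinarith
    · obtain ⟨κ, k1, k2, k3, k4⟩ := row_law hP ω (Ne.symm hv) hS (P.SX X v.1)
        (hP.SX0 X v.1) (fun W => (hP.SXB X v.1 W).trans (by nlinarith)) (hP.SXr X v.1)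
        (hP.al_lo X v.1) (h1 v.1 hv) hq
        (fun w => w ∈ F ∨ w.1 = X ∨ w.1 ∈ bt ∨ zz v w)
        (fun w hw => Or.inr (Or.inl hw)) (by convert hexc v) hκ h6
      rw [← hMd, h6τ] at k4
      refine ⟨κ, k1, k2, fun w hw => ⟨(k3 w hw).1, (k3 w hw).2.2⟩, fun w => ?_, fun _ => k4⟩
      refine (k4 w).trans ?_
      have g1 := gg_bd hP hS ω w.1
      have g2 := fre_bd hP ω v.1 w.1
      rw [← h6τ]
      exact slotl_bd hε hB (hP.al_lo X v.1) (hP.SX0 X v.1 w.1) (hP.SXB X v.1 w.1) g1.1 g1.2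
        g2.1 g2.2 hM h6
  choose κ k1 k2 k3 k4 k5 using hex
  have hρX : ∀ v, ρ v ≠ 0 → v.1 ≠ X := by
    intro v hv h
    have h7 := (r3 v hv).1
    rw [h, hit_self] at h7
    norm_num at h7
  have hfac : (1 + 2 * θ) * (1 + 6 * τ) ≤ 1 + 9 * τ := by
    have h7 : (1 + 2 * θ) * (1 + 6 * τ) ≤ (1 + 2 * τ) * (1 + 6 * τ) := by gcongr
    nlinarith
  have hprod : ∀ v w, v.1 ≠ X → ρ v * κ v w ≤ (1 + 2 * θ) * (1 + 6 * τ) / M ^ 2 *
      (2 / s * (P.SX X v.1 w.1 / P.al X v.1) * (hit ω X j v.1 * P.gg ω X S w.1) *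
        P.fre ω v.1 w.1) := by
    intro v w hv
    have h7 := mul_le_mul (r4 v) (k5 v hv w) (k1 v w) ((r1 v).trans (r4 v))
    refine h7.trans (le_of_eq ?_)
    have ham : P.al X v.1 ≠ 0 := (hε.trans_le (hP.al_lo X v.1)).ne'
    field_simp
  have hnn : ∀ v w : Fin q × G, 0 ≤ 2 / s * (P.SX X v.1 w.1 / P.al X v.1) *
      (hit ω X j v.1 * P.gg ω X S w.1) * P.fre ω v.1 w.1 := by
    intro v w
    have a1 := hP.SX0 X v.1 w.1
    have a2 := hε.trans_le (hP.al_lo X v.1)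
    have a3 := hh0 v.1
    have a4 := (gg_bd hP hS ω w.1).1
    have a5 := (fre_bd hP ω v.1 w.1).1
    positivity
  rw [← hMd, ← hsd]
  refine ⟨ρ, κ, r1, r2, ?_, ?_, k1, k2, ?_, k4, ?_, ?_, ?_⟩
  · intro v hv
    obtain ⟨a1, a2⟩ := r3 v hv
    push Not at a2
    exact ⟨a2.1, a1, a2.2⟩
  · intro v
    refine (r4 v).trans ?_
    have a3 := hh0 v.1
    have a4 : 0 ≤ 2 / s * hit ω X j v.1 / M := by positivity
    exact mul_le_mul_of_nonneg_right (by linarith) a4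
  · intro v w hw
    obtain ⟨a1, a2⟩ := k3 v w hw
    push Not at a1
    exact ⟨a1.1, a2, a1.2.2.2⟩
  · intro v w hvw
    have b1 : ρ v ≠ 0 := left_ne_zero_of_mul hvw
    have b2 : κ v w ≠ 0 := right_ne_zero_of_mul hvw
    obtain ⟨a1, a2⟩ := k3 v w b2
    push Not at a1
    exact ⟨a1.1, hρX v b1, a1.2.1, a1.2.2.1⟩
  · intro w
    have ha0 := hε.trans_le (hP.a0_lo w.1)
    have hgw := (gg_bd hP hS ω w.1).1
    have hR : 0 ≤ P.gg ω X S w.1 * P.a0 w.1 / M := by positivity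
    by_cases hwX : w.1 = X
    · have h7 : ∑ v, ρ v * κ v w = 0 := by
        refine Finset.sum_eq_zero fun v _ => ?_
        by_cases h9 : κ v w = 0
        · rw [h9, mul_zero]
        · have h10 := (k3 v w h9).1
          push Not at h10
          exact absurd hwX h10.2.1
      rw [h7]
      exact mul_nonneg (by linarith) hR
    · obtain ⟨f, hf⟩ : ∃ f : Fin q → ℝ, f = fun V => if V ≠ X ∧ V ≠ w.1 then
            (1 + 2 * θ) * (1 + 6 * τ) / M ^ 2 * (2 / s) * P.gg ω X S w.1 *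
            (P.SX X V w.1 / P.al X V * (hit ω X j V * P.fre ω V w.1)) else 0 := ⟨_, rfl⟩
      have h7 : ∑ v, ρ v * κ v w ≤ ∑ v : Fin q × G, f v.1 := by
        rw [hf]
        refine Finset.sum_le_sum fun v _ => ?_
        by_cases h9 : ρ v * κ v w = 0
        · rw [h9]
          show 0 ≤ if v.1 ≠ X ∧ v.1 ≠ w.1 then _ else _
          split_ifs
          · have a1 := hP.SX0 X v.1 w.1
            have a2 := hε.trans_le (hP.al_lo X v.1)
            have a3 := hh0 v.1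
            have a5 := (fre_bd hP ω v.1 w.1).1
            positivity
          · exact le_rfl
        · have b1 : ρ v ≠ 0 := left_ne_zero_of_mul h9
          have b2 : κ v w ≠ 0 := right_ne_zero_of_mul h9
          have b3 := hρX v b1
          have b4 : v.1 ≠ w.1 := by
            intro h10
            apply (k3 v w b2).2
            rw [h10, fre_self]
          show _ ≤ if v.1 ≠ X ∧ v.1 ≠ w.1 then _ else _
          rw [if_pos ⟨b3, b4⟩]
          refine (hprod v w b3).trans (le_of_eq ?_)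
          ring
      rw [slotl_sum_fst f, hf, ← Finset.sum_filter, ← Finset.mul_sum] at h7
      have h9 := (abs_le.1 (h3 w.1 hwX)).2
      have h10 : ∑ V ∈ univ.filter (fun V => V ≠ X ∧ V ≠ w.1),
          P.SX X V w.1 / P.al X V * P.p X j V ≤ s / 2 * (q * P.a0 w.1) := by
        rw [← hP.SXc X w.1, Finset.mul_sum]
        refine le_trans (le_of_eq ?_) (Finset.sum_le_sum_of_subset_of_nonneg
          (Finset.filter_subset (fun V => V ≠ X ∧ V ≠ w.1) univ)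
          fun V _ _ => mul_nonneg (by positivity) (hP.SX0 X V w.1))
        refine Finset.sum_congr rfl fun V _ => ?_
        have a2 := (hε.trans_le (hP.al_lo X V)).ne'
        rw [hsd, Par.p]
        field_simp
      have h11 : ∑ V ∈ univ.filter (fun V => V ≠ X ∧ V ≠ w.1),
          P.SX X V w.1 / P.al X V * (hit ω X j V * P.fre ω V w.1) ≤
          s / 2 * (q * (P.a0 w.1 * (1 + τ))) := by
        have h12 : θ ≤ τ * P.a0 w.1 := by
          rw [hθτ]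
          exact mul_le_mul_of_nonneg_left (hP.a0_lo w.1) hτ0.le
        have h13 : θ * γ * q ≤ τ * P.a0 w.1 * s * q := by
          rw [hsd]
          gcongr
        have h14 : 0 < τ * P.a0 w.1 * s * q := by positivity
        nlinarith
      refine h7.trans ?_
      have hC : 0 ≤ (1 + 2 * θ) * (1 + 6 * τ) / M ^ 2 * (2 / s) * P.gg ω X S w.1 := by positivity
      have h13 := mul_le_mul_of_nonneg_left (mul_le_mul_of_nonneg_left h11 hC) hG0.le
      refine h13.trans ?_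
      have h14 : (Fintype.card G : ℝ) * ((1 + 2 * θ) * (1 + 6 * τ) / M ^ 2 * (2 / s) *
          P.gg ω X S w.1 * (s / 2 * (q * (P.a0 w.1 * (1 + τ))))) =
          (1 + 2 * θ) * (1 + 6 * τ) * (1 + τ) * (P.gg ω X S w.1 * P.a0 w.1 / M) := by
        have h15 : (Fintype.card G : ℝ) = M / q := by
          rw [hMd]
          field_simp
        rw [h15]
        field_simp
      rw [h14]
      refine mul_le_mul_of_nonneg_right ?_ hR
      have h16 : (1 + 2 * θ) * (1 + 6 * τ) * (1 + τ) ≤ (1 + 9 * τ) * (1 + τ) :=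
        mul_le_mul_of_nonneg_right hfac (by linarith)
      nlinarith
  · intro v w
    have hR := hnn v w
    by_cases hv : ρ v = 0
    · rw [hv, zero_mul]
      have : 0 ≤ η := by linarith
      positivity
    · refine (hprod v w (hρX v hv)).trans ?_
      rw [div_mul_eq_mul_div, mul_div_assoc]
      have : 0 ≤ 2 / s * (P.SX X v.1 w.1 / P.al X v.1) *
        (hit ω X j v.1 * P.gg ω X S w.1) * P.fre ω v.1 w.1 / M ^ 2 := by positivity
      exact mul_le_mul_of_nonneg_right (by linarith) this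

end MP_80c395_TP
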