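import Pool.Agent.Lib.MP_80c395_co_TQ.Plc
import Pool.Agent.Lib.MP_80c395_co_TQ.SlotLaw

/-!
# Project TQ: quasi-random labels (definition)
-/

set_option autoImplicit false

namespace MP_80c395_TP

open Finset

open Classical in
/-- the labels `ω` behave like random labels: sums over clusters with error `θ q` (in `g0`, `f0`: `θc q`),
sums over trees with error `θ M^2` (in `d1`, `d2`: `θc M^2`) -/
structure QRc {q R : ℕ} {G : Type} [Fintype G] [DecidableEq G] (P : Par q R) (A : Plc q R G)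
    (B θ θc γ : ℝ) (ω : Om q R) : Prop where
  r0 : ∀ X V S, X ≠ V → P.Vd B X S → |∑ W ∈ univ.filter (fun W => W ≠ X ∧ W ≠ V),
        P.S0 V W * (P.gg ω X S W * P.fre ω V W) -
      ∑ W ∈ univ.filter (fun W => W ≠ X ∧ W ≠ V), P.S0 V W| ≤ θ * q
  rm : ∀ X V S, X ≠ V → P.Vd B X S → |∑ W ∈ univ.filter (fun W => W ≠ X ∧ W ≠ V),
        P.Sm V W * (P.gg ω X S W * P.fre ω V W) -
      ∑ W ∈ univ.filter (fun W => W ≠ X ∧ W ≠ V), P.Sm V W| ≤ θ * q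
  rX : ∀ X V S, X ≠ V → P.Vd B X S → |∑ W ∈ univ.filter (fun W => W ≠ X ∧ W ≠ V),
        P.SX X V W * (P.gg ω X S W * P.fre ω V W) -
      ∑ W ∈ univ.filter (fun W => W ≠ X ∧ W ≠ V), P.SX X V W| ≤ θ * q
  ra : ∀ X V S, X ≠ V → P.Vd B X S → |∑ W ∈ univ.filter (fun W => W ≠ X ∧ W ≠ V),
        P.am W * (P.gg ω X S W * P.fre ω V W) -
      ∑ W ∈ univ.filter (fun W => W ≠ X ∧ W ≠ V), P.am W| ≤ θ * q
  h9 : ∀ X S, P.Vd B X S → |∑ V ∈ univ.filter (fun V => V ≠ X), P.a0 V * P.gg ω X S V -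
      ∑ V ∈ univ.filter (fun V => V ≠ X), P.a0 V| ≤ θ * q
  h8 : ∀ V, |∑ W ∈ univ.filter (fun W => W ≠ V), P.pf V W * P.fre ω V W -
      ∑ W ∈ univ.filter (fun W => W ≠ V), P.pf V W| ≤ θ * q
  h2 : ∀ i, ∀ z ∈ A.J i, |∑ Y ∈ univ.filter (fun Y => Y ≠ A.X i),
        prt (fun v => v ∈ A.F i ∨ A.zz (A.φ i z) v) Y * hit ω (A.X i) (A.lb i z) Y -
      ∑ Y ∈ univ.filter (fun Y => Y ≠ A.X i),
        prt (fun v => v ∈ A.F i ∨ A.zz (A.φ i z) v) Y * P.p (A.X i) (A.lb i z) Y| ≤ θ * γ / 8 * q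
  h3 : ∀ X j W, W ≠ X → |∑ V ∈ univ.filter (fun V => V ≠ X ∧ V ≠ W),
        P.SX X V W / P.al X V * (hit ω X j V * P.fre ω V W) -
      ∑ V ∈ univ.filter (fun V => V ≠ X ∧ V ≠ W), P.SX X V W / P.al X V * P.p X j V| ≤
    θ * γ / 8 * q
  h4 : ∀ X U W S, X ≠ U → X ≠ W → U ≠ W → P.Vd B X S →
    |∑ V ∈ univ.filter (fun V => V ≠ X ∧ V ≠ U ∧ V ≠ W),
        P.Sm V W * (P.gg ω X S V * P.fre ω U V * P.fre ω V W) -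
      ∑ V ∈ univ.filter (fun V => V ≠ X ∧ V ≠ U ∧ V ≠ W), P.Sm V W| ≤ θ * q
  g0 : ∀ X X' S S', X ≠ X' → P.Vd B X S → P.Vd B X' S' →
    |∑ Y ∈ univ.filter (fun Y => Y ≠ X ∧ Y ≠ X'), (P.gg ω X S Y - 1) * (P.gg ω X' S' Y - 1)| ≤
      θc * q
  f0 : ∀ U U', U ≠ U' → |∑ Y ∈ univ.filter (fun Y => Y ≠ U ∧ Y ≠ U'),
      (P.fre ω U Y - 1) * (P.fre ω U' Y - 1)| ≤ θc * q
  e0 : ∀ V W, V ≠ W → ∑ i ∈ univ.filter (fun i => A.X i ≠ V ∧ A.X i ≠ W),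
      (dp (A.d i) : ℝ) * (P.gg ω (A.X i) (A.S i) V * P.gg ω (A.X i) (A.S i) W) ≤
    (∑ i, (dp (A.d i) : ℝ)) + θ * A.M ^ 2
  e1 : ∀ V W, V ≠ W → ∑ i ∈ univ.filter (fun i => A.X i ≠ V ∧ A.X i ≠ W), ∑ z ∈ A.J i,
      (cz (A.d i) z : ℝ) * (2 / P.s (A.X i) (A.lb i z) * (P.SX (A.X i) V W / P.al (A.X i) V)) *
        (hit ω (A.X i) (A.lb i z) V * P.gg ω (A.X i) (A.S i) W) ≤
    (∑ i, (∑ z ∈ A.J i, (cz (A.d i) z : ℝ)) * P.SX (A.X i) V W) + θ * A.M ^ 2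
  e2 : ∀ V W, V ≠ W → ∑ i ∈ univ.filter (fun i => A.X i ≠ V ∧ A.X i ≠ W),
      ∑ z ∈ (A.md i).filter (fun z => (A.φ i z).1 ≠ V ∧ (A.φ i z).1 ≠ W), (cz (A.d i) z : ℝ) *
        (P.gg ω (A.X i) (A.S i) V * P.fre ω (A.φ i z).1 V * P.gg ω (A.X i) (A.S i) W) ≤
    (∑ i, ∑ z ∈ A.md i, (cz (A.d i) z : ℝ)) + θ * A.M ^ 2
  d1 : ∀ V, ∑ i ∈ univ.filter (fun i => A.X i ≠ V), ∑ z ∈ A.J i,
      (dz (A.T i) (A.d i) (A.d i).C1 z : ℝ) * (2 / P.s (A.X i) (A.lb i z)) *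
        hit ω (A.X i) (A.lb i z) V ≤
    2 * (∑ i, ∑ z ∈ A.J i, (dz (A.T i) (A.d i) (A.d i).C1 z : ℝ)) + θc * A.M ^ 2
  d2 : ∀ V, ∑ i ∈ univ.filter (fun i => A.X i ≠ V), ∑ z ∈ A.J i,
      (dz (A.T i) (A.d i) (A.d i).C2 z : ℝ) * (2 / P.s (A.X i) (A.lb i z)) *
        hit ω (A.X i) (A.lb i z) V ≤
    2 * (∑ i, ∑ z ∈ A.J i, (dz (A.T i) (A.d i) (A.d i).C2 z : ℝ)) + θc * A.M ^ 2

end MP_80c395_TP
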