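import Pool.Agent.Lib.MP_80c395_co_TQ.ParE

/-!
# Project TQ: row sums

Hosts are the elements of `H = Fin q × G`, the cluster of `v : H` is `v.1`; `M = q * card G`.

`row_sum`: `r w = 0` if `ex w`, in particular for `w.1 = X`, and for `w.1 = V` (`fre ω V V = 0`).  So
`∑ w, r w = card G * ∑ W ∉ {X, V}, K W gg fre - ∑ w with ex w, w.1 ∉ {X, V}, ..` where the second sum is between
`0` and `B^3 κ₃ M ≤ θ M`.  By `hst` the first sum is within `θ M` of `card G * ∑ W ∉ {X, V}, K W`, and this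
is between `M α - 2 B card G ≥ M α - θ M` (`hq : 2 * B ≤ θ * q`) and `M α`.  Together `3 θ M`.

`row_law`: `κ w = r w / ∑ r`.  `∑ r ≥ M (α - 3 θ) ≥ M α (1 - 3 θ / ε) > 0` and
`1 / (1 - 3 θ / ε) ≤ 1 + 6 θ / ε` (`6 θ ≤ ε`).

`def_row`: the default rows.  `h8`: at least `q / B - 2 θ q` clusters `W ≠ V` are free
(`pf V W * fre ω V W ≤ 1`, and `fre ω V W ≤ B`... see below); so at least
`M / B - 2 θ M - κ₃ M ≥ M / (2 B)` hosts `w` satisfy `fre ω V w.1 ≠ 0` and `¬ ex w`; take the uniform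
distribution on them.
(`h8` says `∑ W ≠ V, pf V W * fre ω V W ≥ ∑ W ≠ V, pf V W - θ q`.  Every term on the left is `0` or `1`
(`fre_val`), so the number of free clusters is at least `(q - 1) / B - θ q ≥ q / B - 2 θ q` as
`1 / B ≤ 1 ≤ θ q`.)
-/

set_option autoImplicit false

namespace MP_80c395_TP

open Finset

variable {q R : ℕ} {P : Par q R} {ε B : ℝ} {G : Type} [Fintype G] [DecidableEq G] [Nonempty G]

theorem RowLaw_F (hP : ParOK P ε B) (ω : Om q R) {X V : Fin q}
    {S : Finset (Fin R)} (hS : P.Vd B X S) (K : Fin q → ℝ) (hK0 : ∀ W, 0 ≤ K W)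
    (hKB : ∀ W, K W ≤ B) (W : Fin q) :
    0 ≤ K W * (P.gg ω X S W * P.fre ω V W) ∧ K W * (P.gg ω X S W * P.fre ω V W) ≤ B ^ 3 := by
  obtain ⟨g0, g1⟩ := gg_bd hP hS ω W
  obtain ⟨f0, f1⟩ := fre_bd hP ω V W
  have hB : 0 ≤ B := by linarith [B_ge hP]
  have h1 : P.gg ω X S W * P.fre ω V W ≤ B * B := mul_le_mul g1 f1 f0 hB
  refine ⟨mul_nonneg (hK0 W) (mul_nonneg g0 f0), ?_⟩
  calc K W * (P.gg ω X S W * P.fre ω V W) ≤ B * (B * B) :=
        mul_le_mul (hKB W) h1 (mul_nonneg g0 f0) hB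
    _ = B ^ 3 := by ring

open Classical in
theorem RowLaw_part {q : ℕ} {G : Type} [Fintype G] (F : Fin q → ℝ) (X V : Fin q) :
    ∑ w : Fin q × G, (if w.1 ≠ X ∧ w.1 ≠ V then F w.1 else 0) =
      Fintype.card G * ∑ W ∈ univ.filter (fun W => W ≠ X ∧ W ≠ V), F W := by
  rw [Fintype.sum_prod_type, Finset.sum_filter, Finset.mul_sum]
  refine Finset.sum_congr rfl fun W _ => ?_
  by_cases h : W ≠ X ∧ W ≠ V
  · simp only [if_pos h, Finset.sum_const, Finset.card_univ, nsmul_eq_mul]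
  · simp only [if_neg h, Finset.sum_const_zero, mul_zero]

open Classical in
theorem row_sum (hP : ParOK P ε B) (ω : Om q R) {X V : Fin q} (hXV : X ≠ V)
    {S : Finset (Fin R)} (hS : P.Vd B X S) (K : Fin q → ℝ) (hK0 : ∀ W, 0 ≤ K W)
    (hKB : ∀ W, K W ≤ B) {α θ κ₃ : ℝ} (hα : ∑ W, K W = q * α)
    (hst : |∑ W ∈ univ.filter (fun W => W ≠ X ∧ W ≠ V), K W * (P.gg ω X S W * P.fre ω V W) -
        ∑ W ∈ univ.filter (fun W => W ≠ X ∧ W ≠ V), K W| ≤ θ * q)
    (hq : 2 * B ≤ θ * q) (ex : Fin q × G → Prop) (hex : ∀ w, w.1 = X → ex w)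
    (hexc : ((univ.filter ex).card : ℝ) ≤ κ₃ * (q * Fintype.card G)) (hκ : B ^ 3 * κ₃ ≤ θ) :
    |∑ w : Fin q × G, (if ex w then 0 else K w.1 * (P.gg ω X S w.1 * P.fre ω V w.1)) -
      q * Fintype.card G * α| ≤ 3 * θ * (q * Fintype.card G) := by
  have hF := RowLaw_F (V := V) hP ω hS K hK0 hKB
  have hfV : P.fre ω V V = 0 := fre_self ω V
  have hsplit : ∀ w : Fin q × G,
      (if ex w then 0 else K w.1 * (P.gg ω X S w.1 * P.fre ω V w.1)) =
      (if w.1 ≠ X ∧ w.1 ≠ V then K w.1 * (P.gg ω X S w.1 * P.fre ω V w.1) else 0) -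
      (if ex w ∧ w.1 ≠ X ∧ w.1 ≠ V then K w.1 * (P.gg ω X S w.1 * P.fre ω V w.1) else 0) := by
    intro w
    by_cases h1 : ex w
    · simp only [h1, if_true, true_and, sub_self]
    · have h2 : w.1 ≠ X := fun h => h1 (hex w h)
      by_cases h3 : w.1 = V
      · rw [h3, hfV]
        simp
      · simp only [h1, if_false, false_and, h2, h3, ne_eq, not_false_eq_true, and_self, if_true,
          sub_zero]
  simp only [hsplit]
  rw [Finset.sum_sub_distrib,
    RowLaw_part (G := G) (fun W => K W * (P.gg ω X S W * P.fre ω V W)) X V]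
  generalize hf : (∑ W ∈ univ.filter (fun W => W ≠ X ∧ W ≠ V),
    K W * (P.gg ω X S W * P.fre ω V W)) = f1 at hst
  have hg : (1 : ℝ) ≤ Fintype.card G := by
    have : 0 < Fintype.card G := Fintype.card_pos
    exact_mod_cast this
  -- the second sum
  have hE0 : 0 ≤ ∑ w : Fin q × G, (if ex w ∧ w.1 ≠ X ∧ w.1 ≠ V then
      K w.1 * (P.gg ω X S w.1 * P.fre ω V w.1) else 0) :=
    Finset.sum_nonneg fun w _ => by
      split_ifs
      · exact (hF w.1).1
      · exact le_rfl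
  have hE1 : ∑ w : Fin q × G, (if ex w ∧ w.1 ≠ X ∧ w.1 ≠ V then
      K w.1 * (P.gg ω X S w.1 * P.fre ω V w.1) else 0) ≤ θ * (q * Fintype.card G) := by
    have hB : 0 ≤ B := by linarith [B_ge hP]
    calc ∑ w : Fin q × G, (if ex w ∧ w.1 ≠ X ∧ w.1 ≠ V then
          K w.1 * (P.gg ω X S w.1 * P.fre ω V w.1) else 0)
        ≤ ∑ w : Fin q × G, (if ex w then B ^ 3 else 0) := by
          refine Finset.sum_le_sum fun w _ => ?_
          by_cases h1 : ex w
          · rw [if_pos h1]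
            split_ifs
            · exact (hF w.1).2
            · positivity
          · rw [if_neg h1, if_neg fun h => h1 h.1]
      _ = B ^ 3 * ((univ.filter ex).card : ℝ) := by
          rw [← Finset.sum_filter, Finset.sum_const, nsmul_eq_mul, mul_comm]
      _ ≤ B ^ 3 * (κ₃ * (q * Fintype.card G)) :=
          mul_le_mul_of_nonneg_left hexc (by positivity)
      _ = B ^ 3 * κ₃ * (q * Fintype.card G) := by ring
      _ ≤ θ * (q * Fintype.card G) := mul_le_mul_of_nonneg_right hκ (by positivity)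
  -- the sum of the kernel
  have hK : ∑ W, K W = ∑ W ∈ univ.filter (fun W => W ≠ X ∧ W ≠ V), K W + (K X + K V) := by
    rw [← Finset.sum_filter_add_sum_filter_not univ (fun W => W ≠ X ∧ W ≠ V) K]
    congr 1
    have e1 : (univ.filter fun W : Fin q => ¬(W ≠ X ∧ W ≠ V)) = {X, V} := by
      ext W
      simp only [Finset.mem_filter, Finset.mem_univ, true_and, Finset.mem_insert,
        Finset.mem_singleton]
      tauto
    rw [e1, Finset.sum_pair hXV]
  generalize (∑ W ∈ univ.filter (fun W => W ≠ X ∧ W ≠ V), K W) = k1 at hst hK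
  rw [hα] at hK
  have hX0 := hK0 X
  have hV0 := hK0 V
  have hX1 := hKB X
  have hV1 := hKB V
  generalize (∑ w : Fin q × G, (if ex w ∧ w.1 ≠ X ∧ w.1 ≠ V then
      K w.1 * (P.gg ω X S w.1 * P.fre ω V w.1) else 0)) = E at hE0 hE1 ⊢
  have hg0 : (0 : ℝ) ≤ Fintype.card G := by linarith
  generalize (Fintype.card G : ℝ) = g at *
  have hd : |f1 - q * α| ≤ 2 * (θ * q) := by
    rw [abs_le] at hst ⊢
    constructor <;> linarith
  have e1 : g * f1 - E - q * g * α = g * (f1 - q * α) - E := by ring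
  rw [e1]
  have h2 : |g * (f1 - q * α)| ≤ g * (2 * (θ * q)) := by
    rw [abs_mul, abs_of_nonneg hg0]
    exact mul_le_mul_of_nonneg_left hd hg0
  have h3 : |E| ≤ θ * (q * g) := by
    rw [abs_of_nonneg hE0]
    exact hE1
  calc |g * (f1 - q * α) - E| ≤ |g * (f1 - q * α)| + |E| := abs_sub _ _
    _ ≤ g * (2 * (θ * q)) + θ * (q * g) := add_le_add h2 h3
    _ = 3 * θ * (q * g) := by ring

open Classical in
theorem row_law (hP : ParOK P ε B) (ω : Om q R) {X V : Fin q} (hXV : X ≠ V)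
    {S : Finset (Fin R)} (hS : P.Vd B X S) (K : Fin q → ℝ) (hK0 : ∀ W, 0 ≤ K W)
    (hKB : ∀ W, K W ≤ B) {α θ κ₃ : ℝ} (hα : ∑ W, K W = q * α) (hαε : ε ≤ α)
    (hst : |∑ W ∈ univ.filter (fun W => W ≠ X ∧ W ≠ V), K W * (P.gg ω X S W * P.fre ω V W) -
        ∑ W ∈ univ.filter (fun W => W ≠ X ∧ W ≠ V), K W| ≤ θ * q)
    (hq : 2 * B ≤ θ * q) (ex : Fin q × G → Prop) (hex : ∀ w, w.1 = X → ex w)
    (hexc : ((univ.filter ex).card : ℝ) ≤ κ₃ * (q * Fintype.card G)) (hκ : B ^ 3 * κ₃ ≤ θ)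
    (hθ : 6 * θ ≤ ε) :
    ∃ κ : Fin q × G → ℝ, (∀ w, 0 ≤ κ w) ∧ ∑ w, κ w = 1 ∧
      (∀ w, κ w ≠ 0 → ¬ ex w ∧ P.gg ω X S w.1 ≠ 0 ∧ P.fre ω V w.1 ≠ 0) ∧
      ∀ w, κ w ≤ (1 + 6 * θ / ε) *
        (K w.1 * (P.gg ω X S w.1 * P.fre ω V w.1) / (α * (q * Fintype.card G))) := by
  have hF := RowLaw_F (V := V) hP ω hS K hK0 hKB
  have hsum := row_sum (G := G) hP ω hXV hS K hK0 hKB hα hst hq ex hex hexc hκ
  have hε := hP.ε0
  have hq0 : (0 : ℝ) < q := by exact_mod_cast hP.q0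
  have hg0 : (0 : ℝ) < Fintype.card G := by
    have : 0 < Fintype.card G := Fintype.card_pos
    exact_mod_cast this
  have hB := B_ge hP
  have hθ0 : 0 < θ := by
    by_contra h
    push Not at h
    have := mul_nonpos_of_nonpos_of_nonneg h hq0.le
    linarith
  obtain ⟨Z, hZ⟩ : ∃ Z, Z = ∑ w : Fin q × G,
    (if ex w then 0 else K w.1 * (P.gg ω X S w.1 * P.fre ω V w.1)) := ⟨_, rfl⟩
  rw [← hZ] at hsum
  have hM : (0 : ℝ) < q * Fintype.card G := mul_pos hq0 hg0
  have hZ1 : (q * Fintype.card G) * (α - 3 * θ) ≤ Z := by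
    have := (abs_le.1 hsum).1
    linarith
  have hα0 : 0 < α := by linarith
  have hα3 : ε / 2 ≤ α - 3 * θ := by linarith
  have hZ0 : 0 < Z := lt_of_lt_of_le (mul_pos hM (by linarith)) hZ1
  have h6 : 0 ≤ 6 * θ / ε := by positivity
  have hαZ : α * (q * Fintype.card G) ≤ (1 + 6 * θ / ε) * Z := by
    have h1 : 3 * θ ≤ 6 * θ / ε * (α - 3 * θ) := by
      calc 3 * θ = 6 * θ / ε * (ε / 2) := by
            field_simp
            ring
        _ ≤ 6 * θ / ε * (α - 3 * θ) := mul_le_mul_of_nonneg_left hα3 h6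
    have h2 : α ≤ (1 + 6 * θ / ε) * (α - 3 * θ) := by linarith
    calc α * (q * Fintype.card G) ≤ (1 + 6 * θ / ε) * (α - 3 * θ) * (q * Fintype.card G) :=
          mul_le_mul_of_nonneg_right h2 hM.le
      _ = (1 + 6 * θ / ε) * ((q * Fintype.card G) * (α - 3 * θ)) := by ring
      _ ≤ (1 + 6 * θ / ε) * Z := mul_le_mul_of_nonneg_left hZ1 (by linarith)
  refine ⟨fun w => (if ex w then 0 else K w.1 * (P.gg ω X S w.1 * P.fre ω V w.1)) / Z,
    fun w => ?_, ?_, fun w hw => ?_, fun w => ?_⟩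
  · refine div_nonneg ?_ hZ0.le
    split_ifs
    · exact le_rfl
    · exact (hF w.1).1
  · rw [← Finset.sum_div, ← hZ, div_self hZ0.ne']
  · by_cases h1 : ex w
    · exact absurd (by simp [h1]) hw
    · refine ⟨h1, fun h2 => hw ?_, fun h2 => hw ?_⟩
      · simp [h2]
      · simp [h2]
  · have h1 : (if ex w then 0 else K w.1 * (P.gg ω X S w.1 * P.fre ω V w.1)) ≤
        K w.1 * (P.gg ω X S w.1 * P.fre ω V w.1) := by
      split_ifs
      · exact (hF w.1).1
      · exact le_rfl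
    have h0 := (hF w.1).1
    dsimp only
    generalize K w.1 * (P.gg ω X S w.1 * P.fre ω V w.1) = F at h1 h0 ⊢
    rw [div_le_iff₀ hZ0]
    refine h1.trans ?_
    have h2 : F = F / (α * (q * Fintype.card G)) * (α * (q * Fintype.card G)) := by
      field_simp
    calc F = F / (α * (q * Fintype.card G)) * (α * (q * Fintype.card G)) := h2
      _ ≤ F / (α * (q * Fintype.card G)) * ((1 + 6 * θ / ε) * Z) :=
          mul_le_mul_of_nonneg_left hαZ (by positivity)
      _ = (1 + 6 * θ / ε) * (F / (α * (q * Fintype.card G))) * Z := by ring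

open Classical in
theorem def_row (hP : ParOK P ε B) (ω : Om q R) (V : Fin q) {θ κ₃ : ℝ}
    (h8 : |∑ W ∈ univ.filter (fun W => W ≠ V), P.pf V W * P.fre ω V W -
        ∑ W ∈ univ.filter (fun W => W ≠ V), P.pf V W| ≤ θ * q)
    (hq : 2 * B ≤ θ * q) (ex : Fin q × G → Prop)
    (hexc : ((univ.filter ex).card : ℝ) ≤ κ₃ * (q * Fintype.card G)) (hκ : B ^ 3 * κ₃ ≤ θ)
    (hθ : 6 * B * θ ≤ 1) :
    ∃ κ : Fin q × G → ℝ, (∀ w, 0 ≤ κ w) ∧ ∑ w, κ w = 1 ∧
      (∀ w, κ w ≠ 0 → ¬ ex w ∧ P.fre ω V w.1 ≠ 0) ∧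
      ∀ w, κ w ≤ 2 * B / (q * Fintype.card G) := by
  have hq0 : (0 : ℝ) < q := by exact_mod_cast hP.q0
  have hg0 : (0 : ℝ) < Fintype.card G := by
    have : 0 < Fintype.card G := Fintype.card_pos
    exact_mod_cast this
  have hM : (0 : ℝ) < q * Fintype.card G := mul_pos hq0 hg0
  have hB := B_ge hP
  have hB0 : 0 < B := by linarith
  have hθ0 : 0 < θ := by
    by_contra h
    push Not at h
    have := mul_nonpos_of_nonpos_of_nonneg h hq0.le
    linarith
  have hκ3 : κ₃ ≤ θ := by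
    by_contra h
    push Not at h
    have h1 : 1 ≤ B ^ 3 := one_le_pow₀ (by linarith)
    nlinarith
  -- the free clusters
  obtain ⟨A, hA⟩ : ∃ A : Finset (Fin q), A = univ.filter fun W => P.fre ω V W ≠ 0 := ⟨_, rfl⟩
  have hA1 : ∑ W ∈ univ.filter (fun W => W ≠ V), P.pf V W * P.fre ω V W = (A.card : ℝ) := by
    rw [hA, Finset.card_filter, Nat.cast_sum, Finset.sum_filter]
    refine Finset.sum_congr rfl fun W _ => ?_
    by_cases h1 : W = V
    · subst h1
      rw [fre_self ω W]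
      simp
    · by_cases h2 : P.fre ω V W = 0
      · simp [h2]
      · have h3 := fre_val hP h2
        rw [if_pos h1, if_pos h2, mul_comm, h3, Nat.cast_one]
  have hA2 : q / B - 1 / B ≤ ∑ W ∈ univ.filter (fun W => W ≠ V), P.pf V W := by
    have e1 : q / B - 1 / B = ∑ W : Fin q, (1 / B - if W = V then 1 / B else 0) := by
      rw [Finset.sum_sub_distrib, Finset.sum_const, Finset.card_univ, Fintype.card_fin,
        nsmul_eq_mul, Finset.sum_ite_eq' univ V, if_pos (Finset.mem_univ V)]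
      ring
    rw [e1, Finset.sum_filter]
    refine Finset.sum_le_sum fun W _ => ?_
    by_cases h1 : W = V
    · simp [h1]
    · rw [if_neg h1, if_pos h1, sub_zero]
      exact hP.pf0 V W
  rw [hA1] at h8
  have hA3 : q / B - 2 * (θ * q) ≤ (A.card : ℝ) := by
    have h1 := (abs_le.1 h8).1
    have h2 : 1 / B ≤ 1 := by
      rw [div_le_one hB0]
      linarith
    linarith
  -- the hosts
  obtain ⟨D, hD⟩ : ∃ D : Finset (Fin q × G),
      D = univ.filter fun w => ¬ ex w ∧ P.fre ω V w.1 ≠ 0 := ⟨_, rfl⟩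
  have hD1 : (A.card * Fintype.card G : ℝ) ≤ D.card + (univ.filter ex).card := by
    have h1 : (A ×ˢ (univ : Finset G)) ⊆ D ∪ univ.filter ex := by
      intro w hw
      rw [Finset.mem_product, hA, Finset.mem_filter] at hw
      rw [Finset.mem_union, hD, Finset.mem_filter, Finset.mem_filter]
      by_cases h2 : ex w
      · exact Or.inr ⟨Finset.mem_univ _, h2⟩
      · exact Or.inl ⟨Finset.mem_univ _, h2, hw.1.2⟩
    have h2 := (Finset.card_le_card h1).trans (Finset.card_union_le _ _)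
    rw [Finset.card_product, Finset.card_univ] at h2
    exact_mod_cast h2
  have hD2 : (q * Fintype.card G : ℝ) / (2 * B) ≤ D.card := by
    have h1 : (q / B - 2 * (θ * q)) * Fintype.card G ≤ (A.card : ℝ) * Fintype.card G :=
      mul_le_mul_of_nonneg_right hA3 hg0.le
    have h2 : κ₃ * (q * Fintype.card G) ≤ θ * (q * Fintype.card G) :=
      mul_le_mul_of_nonneg_right hκ3 hM.le
    have h3 : 3 * θ ≤ 1 / (2 * B) := by
      rw [le_div_iff₀ (by positivity)]
      linarith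
    have h4 : 3 * θ * (q * Fintype.card G) ≤ 1 / (2 * B) * (q * Fintype.card G) :=
      mul_le_mul_of_nonneg_right h3 hM.le
    have h5 : (q * Fintype.card G : ℝ) / (2 * B) = 1 / (2 * B) * (q * Fintype.card G) := by ring
    have h6 : (q : ℝ) / B * Fintype.card G = 2 * (1 / (2 * B) * (q * Fintype.card G)) := by
      field_simp
    rw [h5]
    linarith
  have hD0 : (0 : ℝ) < D.card := lt_of_lt_of_le (by positivity) hD2
  refine ⟨fun w => if w ∈ D then 1 / (D.card : ℝ) else 0, fun w => ?_, ?_, fun w hw => ?_,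
    fun w => ?_⟩
  · dsimp only
    split_ifs
    · positivity
    · exact le_rfl
  · rw [Finset.sum_ite_mem, Finset.univ_inter, Finset.sum_const, nsmul_eq_mul]
    field_simp
  · have h1 : w ∈ D := by
      by_contra h
      exact hw (if_neg h)
    rw [hD, Finset.mem_filter] at h1
    exact h1.2
  · have h1 : 1 / (D.card : ℝ) ≤ 2 * B / (q * Fintype.card G) := by
      rw [div_le_div_iff₀ hD0 hM]
      rw [div_le_iff₀ (by positivity)] at hD2
      linarith
    dsimp only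
    split_ifs
    · exact h1
    · positivity

end MP_80c395_TP
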