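import Pool.Agent.Lib.MP_80c395_co_TQ.S2Fix

/-!
# Project TQ: choice of the constants

`0 < ε ≤ 1`.  `e = ε / 4`, `B = 4 / e^3`, `η = e^3 / 144`, `κ₅ = e^3 / 192`, `θ = e^6 / 4320`,
`κ₄ = θ / (5 B^3) = θ e^9 / 320`, `κ = e^3 / 32`, `μ₀ = e / 200`, `L = ⌈160 / e⌉`,
`D₁ ≥ 6400 L / (κ κ₄)`, `C = 51200 L B^2 / (κ μ₀^2)`, `D ≥ C D₁^2` (so `D ≥ D₁`), `K ≥ C D^2`,
`lz = κ₄ / 2`, `l1c = μ₀ / (64 D)`, `l2c = μ₀ / (64 D₁)`, `l1 = μ₀ / (32 D)`, `l2 = μ₀ / (32 D₁)`, `u1 = μ₀ / (64 D)`,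
`u2 = μ₀ / (64 D₁)`.
`tp_main` (TPMain) with `μ = μ₀`, `ε' = e^3 / 16`: `3200 D^2 ≤ μ₀^2 K`, `D (l1 + 2 u1) = μ₀ / 16`,
`800 D₁^2 ≤ μ₀^2 D`, `D₁ (l2 + 2 u2) = μ₀ / 16`; it gives `γ₂, δ'`.
`δ₅ = κ₄ κ₅^2 / (4 (B + 1)^2)`, `θc = min (κ₄ κ₅^2 / 16) (μ₀ / (256 D))`,
`γh = min (δ₅ / 2) (min (κ / 2) (γ₂ / (3 B^2)))`, `R₁ = ⌈4 / γh⌉`,
`γ = min (e / 200) (min (κ₄ / 4) (μ₀ / (128 D))) / (L R₁)`, `Am = ⌈1 / γ + 2⌉`, `m = 2^(L R₁ + 1) + 1`,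
`A0 = 6 / γ + 6 B^4`; `hmain` is the conclusion of `tp_main` for this `A0` (`≥ 1`).
Checks: `L R₁ γ ≤ κ₄ / 4`, `≤ μ₀ / (128 D) ≤ μ₀ / (128 D₁)`, `R₁ γ ≤ e / 200`;
`4 L / D₁ ≤ κ₄ / 4` (`κ ≤ 1`), so `h5`: `κ₄/4 + κ₄/4 + κ₄/2`; `h5'`, `hlz`: `D₁ ≥ 12 / κ₄`.
`hnum`: `2 / D₁ ≤ κ₄`, `4 (L (4 / D₁ + R₁ γ)) ≤ 2 κ₄`, `2 lz = κ₄`, `80 / (D₁ lz) = 160 / (D₁ κ₄) ≤ κ / 40`,
`10 D / (K l1c) = 640 D^2 / (K μ₀) ≤ κ / 40`, `20 D₁ / (D l2c) = 1280 D₁^2 / (D μ₀) ≤ κ / 40`, sum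
`≤ 4 κ₄ + 3 κ / 40 ≤ κ / 8` as `80 κ₄ ≤ κ`.
`h6`: `L D / K ≤ μ₀ / (128 D)`, `L R₁ γ ≤ μ₀ / (128 D)`; `h7`: `2 L D₁ / D ≤ μ₀ / (128 D₁)`, `L R₁ γ ≤ μ₀ / (128 D₁)`.
`n4`: `30 θ = e^6 / 144 ≤ e^4 / 144`; `n5`: `e^3/48 + e^3/48 + 20 e^3 / 4320 ≤ e^3 / 16`.
`b1`: `20 B^2 D / K ≤ μ₀ / (128 D)`, `2 θc ≤ μ₀ / (128 D)`; `b2`: `40 B^2 D₁ / D ≤ μ₀ / (128 D₁)`,
`2 θc ≤ μ₀ / (128 D) ≤ μ₀ / (128 D₁)`.

-/

set_option autoImplicit false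

namespace MP_80c395_TP

open Finset Pool.Agent.GT

/-- The inequalities between the constants (`b = B ^ 2`, `x` is a bound for `L R₁ γ`). -/
private theorem S2Core_num {κ κ₄ μ b L a d k : ℝ} (hκ : 0 < κ) (hκ1 : κ ≤ 1) (hκ₄ : 0 < κ₄)
    (h80 : 80 * κ₄ ≤ κ) (hμ : 0 < μ) (hμ1 : μ ≤ 1) (hb : 1 ≤ b) (hL : 1 ≤ L)
    (ha : 6400 * L ≤ κ * κ₄ * a) (hd : 51200 * (L * b * a ^ 2) ≤ κ * μ ^ 2 * d)
    (hk : 51200 * (L * b * d ^ 2) ≤ κ * μ ^ 2 * k) :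
    1 ≤ a ∧ a ≤ d ∧ 1 ≤ k ∧ 2 / k ≤ μ / (64 * d) ∧ 4 / d ≤ μ / (64 * a) ∧ 6 / a ≤ κ₄ / 2 ∧
    2 / a ≤ κ₄ ∧ 4 * L / a ≤ κ₄ / 4 ∧ 10 * d / (k * (μ / (64 * d))) ≤ κ / 40 ∧
    20 * a / (d * (μ / (64 * a))) ≤ κ / 40 ∧ 80 / (a * (κ₄ / 2)) ≤ κ / 40 ∧
    L * (d / k) ≤ μ / (128 * d) ∧ L * (2 * a / d) ≤ μ / (128 * a) ∧
    20 * b * d / k ≤ μ / (128 * d) ∧ 40 * b * a / d ≤ μ / (128 * a) ∧
    3200 * d ^ 2 ≤ μ ^ 2 * k ∧ 800 * a ^ 2 ≤ μ ^ 2 * d := by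
  have pos_of : ∀ x c y : ℝ, 0 < c → 0 < y → c ≤ y * x → 0 < x := by
    intro x c y hc hy h
    by_contra hx
    have := mul_nonpos_of_nonneg_of_nonpos hy.le (not_lt.1 hx)
    linarith
  have le_mul : ∀ x y : ℝ, 0 ≤ x → 1 ≤ y → x ≤ y * x := by
    intro x y hx hy
    calc x = 1 * x := (one_mul x).symm
      _ ≤ y * x := mul_le_mul_of_nonneg_right hy hx
  have mul_le : ∀ x y : ℝ, 0 ≤ x → y ≤ 1 → y * x ≤ x := by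
    intro x y hx hy
    calc y * x ≤ 1 * x := mul_le_mul_of_nonneg_right hy hx
      _ = x := one_mul x
  have sq_up : ∀ x : ℝ, 1 ≤ x → x ≤ x ^ 2 := by
    intro x hx
    calc x = 1 * x := (one_mul x).symm
      _ ≤ x * x := mul_le_mul_of_nonneg_right hx (by linarith)
      _ = x ^ 2 := (sq x).symm
  have hκκ : 0 < κ * κ₄ := mul_pos hκ hκ₄
  have ha0 : 0 < a := pos_of a (6400 * L) (κ * κ₄) (by linarith) hκκ ha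
  have ha1 : 6400 * L ≤ κ₄ * a := by
    have h1 : κ * (κ₄ * a) ≤ κ₄ * a := mul_le _ _ (by positivity) hκ1
    linarith [mul_assoc κ κ₄ a]
  have ha2 : 6400 * L ≤ a := by
    have h1 : κ₄ * a ≤ a := mul_le _ _ ha0.le (by linarith)
    linarith
  have ha3 : 1 ≤ a := by linarith
  have ha4 : a ≤ a ^ 2 := sq_up a ha3
  -- the products
  have prod : ∀ x : ℝ, 0 ≤ x → x ≤ L * b * x ∧ L * x ≤ L * b * x ∧ b * x ≤ L * b * x := by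
    intro x hx
    have h1 : x ≤ b * x := le_mul x b hx hb
    have h2 : b * x ≤ L * (b * x) := le_mul _ L (by positivity) hL
    have h3 : L * x ≤ L * (b * x) := mul_le_mul_of_nonneg_left h1 (by linarith)
    have h4 : L * (b * x) = L * b * x := (mul_assoc L b x).symm
    rw [h4] at h2 h3
    exact ⟨h1.trans h2, h3, h2⟩
  obtain ⟨pa1, pa2, pa3⟩ := prod (a ^ 2) (by positivity)
  have hmu : ∀ x : ℝ, 0 < x → κ * μ ^ 2 * x ≤ κ * (μ * x) ∧ κ * μ ^ 2 * x ≤ μ ^ 2 * x ∧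
      κ * μ ^ 2 * x ≤ μ * x ∧ κ * μ ^ 2 * x ≤ x := by
    intro x hx
    have h1 : μ * (μ * x) ≤ μ * x := mul_le _ _ (by positivity) hμ1
    have h2 : κ * (μ * (μ * x)) ≤ κ * (μ * x) := mul_le_mul_of_nonneg_left h1 hκ.le
    have h3 : κ * (μ * x) ≤ μ * x := mul_le _ _ (by positivity) hκ1
    have h4 : μ * x ≤ x := mul_le _ _ hx.le hμ1
    have h5 : κ * (μ ^ 2 * x) ≤ μ ^ 2 * x := mul_le _ _ (by positivity) hκ1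
    have e1 : κ * μ ^ 2 * x = κ * (μ * (μ * x)) := by ring
    have e2 : κ * μ ^ 2 * x = κ * (μ ^ 2 * x) := by ring
    refine ⟨?_, ?_, ?_, ?_⟩
    · rw [e1]; exact h2
    · rw [e2]; exact h5
    · rw [e1]; exact h2.trans h3
    · rw [e1]; exact (h2.trans h3).trans h4
  have hd0 : 0 < d := pos_of d (51200 * (L * b * a ^ 2)) (κ * μ ^ 2) (by positivity)
    (by positivity) hd
  obtain ⟨md1, md2, md3, md4⟩ := hmu d hd0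
  have hd3 : a ≤ d := by linarith
  have hd1 : 1 ≤ d := ha3.trans hd3
  have hd4 : d ≤ d ^ 2 := sq_up d hd1
  obtain ⟨pd1, pd2, pd3⟩ := prod (d ^ 2) (by positivity)
  have hk0 : 0 < k := pos_of k (51200 * (L * b * d ^ 2)) (κ * μ ^ 2) (by positivity)
    (by positivity) hk
  obtain ⟨mk1, mk2, mk3, mk4⟩ := hmu k hk0
  refine ⟨ha3, hd3, by linarith, ?_, ?_, ?_, ?_, ?_, ?_, ?_, ?_, ?_, ?_, ?_, ?_, ?_, ?_⟩
  · rw [div_le_div_iff₀ hk0 (by positivity)]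
    linarith
  · rw [div_le_div_iff₀ hd0 (by positivity)]
    linarith
  · rw [div_le_div_iff₀ ha0 (by norm_num)]
    linarith
  · rw [div_le_iff₀ ha0]
    linarith
  · rw [div_le_div_iff₀ ha0 (by norm_num)]
    linarith
  · have h1 : 10 * d / (k * (μ / (64 * d))) = 640 * d ^ 2 / (k * μ) := by
      field_simp
      ring
    rw [h1, div_le_div_iff₀ (by positivity) (by norm_num)]
    have h2 : κ * (k * μ) = κ * (μ * k) := by ring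
    rw [h2]
    linarith
  · have h1 : 20 * a / (d * (μ / (64 * a))) = 1280 * a ^ 2 / (d * μ) := by
      field_simp
      ring
    rw [h1, div_le_div_iff₀ (by positivity) (by norm_num)]
    have h2 : κ * (d * μ) = κ * (μ * d) := by ring
    rw [h2]
    linarith
  · rw [div_le_div_iff₀ (by positivity) (by norm_num)]
    have h2 : κ * (a * (κ₄ / 2)) = κ * κ₄ * a / 2 := by ring
    rw [h2]
    linarith
  · rw [← mul_div_assoc, div_le_div_iff₀ hk0 (by positivity)]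
    have h2 : L * d * (128 * d) = 128 * (L * d ^ 2) := by ring
    rw [h2]
    linarith
  · rw [← mul_div_assoc, div_le_div_iff₀ hd0 (by positivity)]
    have h2 : L * (2 * a) * (128 * a) = 256 * (L * a ^ 2) := by ring
    rw [h2]
    linarith
  · rw [div_le_div_iff₀ hk0 (by positivity)]
    have h2 : 20 * b * d * (128 * d) = 2560 * (b * d ^ 2) := by ring
    rw [h2]
    linarith
  · rw [div_le_div_iff₀ hd0 (by positivity)]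
    have h2 : 40 * b * a * (128 * a) = 5120 * (b * a ^ 2) := by ring
    rw [h2]
    linarith
  · linarith
  · linarith

theorem s2_core (ε : ℝ) (hε : 0 < ε) (hε1 : ε ≤ 1) :
    ∃ n0 : ℕ, ∀ n, n0 ≤ n → ∀ (k : ℕ) (mm : Fin k → ℕ) (T : ∀ i, SimpleGraph (Fin (mm i))),
      k ≤ 4 * n + 1 → (∀ i, (T i).IsTree) → (∀ i, mm i ≤ n + 1) →
      ((∑ i, (mm i - 1) : ℕ) : ℝ) ≤ (1 - ε) * (n * (2 * n + 1)) → Pk n mm T := by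
  obtain ⟨e, he⟩ : ∃ e : ℝ, e = ε / 4 := ⟨_, rfl⟩
  have he0 : 0 < e := by rw [he]; positivity
  have he1 : e ≤ 1 / 4 := by rw [he]; linarith
  have he2 : e ≤ 1 := by linarith
  have hc0 : 0 < e ^ 3 := by positivity
  have hc1 : e ^ 3 ≤ 1 := pow_le_one₀ he0.le he2
  obtain ⟨B, hB⟩ : ∃ B : ℝ, B = 4 / e ^ 3 := ⟨_, rfl⟩
  have hBe : B * e ^ 3 = 4 := by rw [hB]; field_simp
  have hB1 : 1 ≤ B := by rw [hB, le_div_iff₀ hc0]; linarith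
  have hB0 : 0 < B := by linarith
  obtain ⟨μ₀, hμe⟩ : ∃ x : ℝ, x = e / 200 := ⟨_, rfl⟩
  have hμ0 : 0 < μ₀ := by rw [hμe]; positivity
  have hμ1 : μ₀ ≤ 1 := by rw [hμe]; linarith
  obtain ⟨θ, hθe⟩ : ∃ x : ℝ, x = e ^ 6 / 4320 := ⟨_, rfl⟩
  have hθ0 : 0 < θ := by rw [hθe]; positivity
  obtain ⟨κ₄, hκ₄e⟩ : ∃ x : ℝ, x = θ * e ^ 9 / 320 := ⟨_, rfl⟩
  have hκ₄0 : 0 < κ₄ := by rw [hκ₄e]; positivity
  obtain ⟨κ, hκe⟩ : ∃ x : ℝ, x = e ^ 3 / 32 := ⟨_, rfl⟩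
  have hκ0 : 0 < κ := by rw [hκe]; positivity
  have hκ1 : κ ≤ 1 := by rw [hκe]; linarith
  have h80 : 80 * κ₄ ≤ κ := by
    have h1 : e ^ 12 ≤ 1 := pow_le_one₀ he0.le he2
    have h2 : e ^ 15 ≤ e ^ 3 := by
      calc e ^ 15 = e ^ 3 * e ^ 12 := by ring
        _ ≤ e ^ 3 * 1 := mul_le_mul_of_nonneg_left h1 hc0.le
        _ = e ^ 3 := mul_one _
    have h3 : 80 * κ₄ = e ^ 15 / 17280 := by rw [hκ₄e, hθe]; ring
    rw [h3, hκe]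
    linarith
  obtain ⟨L, hL⟩ : ∃ L : ℕ, L = ⌈160 / e⌉₊ := ⟨_, rfl⟩
  have hL160 : 160 / e ≤ L := by rw [hL]; exact Nat.le_ceil _
  have hL1 : 1 ≤ L := by rw [hL]; exact Nat.one_le_ceil_iff.2 (by positivity)
  have hL1r : (1 : ℝ) ≤ L := by exact_mod_cast hL1
  have hb1 : 1 ≤ B ^ 2 := one_le_pow₀ hB1
  obtain ⟨D₁, hD₁'⟩ : ∃ x : ℕ, 6400 * (L : ℝ) / (κ * κ₄) ≤ x := exists_nat_ge _
  have hD₁c : 6400 * (L : ℝ) ≤ κ * κ₄ * D₁ := by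
    rw [div_le_iff₀ (by positivity)] at hD₁'
    linarith
  obtain ⟨D, hD'⟩ : ∃ x : ℕ, 51200 * (L * B ^ 2 * (D₁ : ℝ) ^ 2) / (κ * μ₀ ^ 2) ≤ x :=
    exists_nat_ge _
  have hDc : 51200 * (L * B ^ 2 * (D₁ : ℝ) ^ 2) ≤ κ * μ₀ ^ 2 * D := by
    rw [div_le_iff₀ (by positivity)] at hD'
    linarith
  obtain ⟨K, hK'⟩ : ∃ x : ℕ, 51200 * (L * B ^ 2 * (D : ℝ) ^ 2) / (κ * μ₀ ^ 2) ≤ x :=
    exists_nat_ge _
  have hKc : 51200 * (L * B ^ 2 * (D : ℝ) ^ 2) ≤ κ * μ₀ ^ 2 * K := by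
    rw [div_le_iff₀ (by positivity)] at hK'
    linarith
  obtain ⟨q1, q2, q3, q4, q5, q6, q7, q8, q9, q10, q11, q12, q13, q14, q15, q16, q17⟩ :=
    S2Core_num hκ0 hκ1 hκ₄0 h80 hμ0 hμ1 hb1 hL1r hD₁c hDc hKc
  have hD₁1 : 1 ≤ D₁ := by exact_mod_cast q1
  have hD₁D : D₁ ≤ D := by exact_mod_cast q2
  have hK1 : 1 ≤ K := by exact_mod_cast q3
  have hDr : (1 : ℝ) ≤ D := q1.trans q2
  have hD₁0 : (0 : ℝ) < D₁ := by linarith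
  have hD0 : (0 : ℝ) < D := by linarith
  have hK0 : (0 : ℝ) < K := by linarith
  have hDD : μ₀ / (128 * D) ≤ μ₀ / (128 * D₁) :=
    div_le_div_of_nonneg_left hμ0.le (by positivity) (by linarith)
  have hu : ∀ x : ℝ, 1 ≤ x → μ₀ / (64 * x) ≤ 1 := by
    intro x hx
    rw [div_le_one (by positivity)]
    linarith
  have e1 : μ₀ / (32 * (D : ℝ)) = 4 * (μ₀ / (128 * D)) := by field_simp; norm_num
  have e2 : μ₀ / (64 * (D : ℝ)) = 2 * (μ₀ / (128 * D)) := by field_simp; norm_num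
  have e3 : μ₀ / (32 * (D₁ : ℝ)) = 4 * (μ₀ / (128 * D₁)) := by field_simp; norm_num
  have e4 : μ₀ / (64 * (D₁ : ℝ)) = 2 * (μ₀ / (128 * D₁)) := by field_simp; norm_num
  obtain ⟨γ₂, hγ₂, δ', hδ', hM⟩ := tp_main μ₀ (e ^ 3 / 8 / 2) hμ0 hμ1 (by positivity)
    (by linarith) D₁ D K hD₁1 hD₁D hK1 (μ₀ / (32 * D)) (μ₀ / (32 * D₁)) (μ₀ / (64 * D))
    (μ₀ / (64 * D₁)) (hu _ hDr) (hu _ q1) (by positivity) (by positivity) (by positivity)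
    (by positivity) q16
    (by
      have h1 : (D : ℝ) * (μ₀ / (32 * D) + 2 * (μ₀ / (64 * D))) = μ₀ / 16 := by
        field_simp; norm_num
      rw [h1]; linarith) q17
    (by
      have h1 : (D₁ : ℝ) * (μ₀ / (32 * D₁) + 2 * (μ₀ / (64 * D₁))) = μ₀ / 16 := by
        field_simp; norm_num
      rw [h1]; linarith)
  obtain ⟨κ₅, hκ₅e⟩ : ∃ x : ℝ, x = e ^ 3 / 192 := ⟨_, rfl⟩
  have hκ₅0 : 0 < κ₅ := by rw [hκ₅e]; positivity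
  obtain ⟨η, hηe⟩ : ∃ x : ℝ, x = e ^ 3 / 144 := ⟨_, rfl⟩
  obtain ⟨δ₅, hδ₅e⟩ : ∃ x : ℝ, x = κ₄ * κ₅ ^ 2 / (4 * (B + 1) ^ 2) := ⟨_, rfl⟩
  have hδ₅0 : 0 < δ₅ := by rw [hδ₅e]; positivity
  obtain ⟨θc, hθc0, hθc1, hθc2⟩ : ∃ x : ℝ, 0 < x ∧ x ≤ κ₄ * κ₅ ^ 2 / 16 ∧
      x ≤ μ₀ / (256 * D) :=
    ⟨min (κ₄ * κ₅ ^ 2 / 16) (μ₀ / (256 * D)), by positivity, min_le_left _ _, min_le_right _ _⟩
  have hθc3 : 2 * θc ≤ μ₀ / (128 * D) := by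
    have h1 : μ₀ / (128 * (D : ℝ)) = 2 * (μ₀ / (256 * D)) := by field_simp; norm_num
    rw [h1]; linarith
  obtain ⟨γh, hγh0, hγh1, hγh2, hγh3⟩ : ∃ x : ℝ, 0 < x ∧ x ≤ δ₅ / 2 ∧ x ≤ κ / 2 ∧
      x ≤ γ₂ / (3 * B ^ 2) :=
    ⟨min (δ₅ / 2) (min (κ / 2) (γ₂ / (3 * B ^ 2))), by positivity, min_le_left _ _,
      (min_le_right _ _).trans (min_le_left _ _), (min_le_right _ _).trans (min_le_right _ _)⟩
  obtain ⟨R₁, hR₁⟩ : ∃ x : ℕ, x = ⌈4 / γh⌉₊ := ⟨_, rfl⟩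
  have hR4 : 4 / γh ≤ R₁ := by rw [hR₁]; exact Nat.le_ceil _
  have hR1 : 1 ≤ R₁ := by rw [hR₁]; exact Nat.one_le_ceil_iff.2 (by positivity)
  have hR1r : (1 : ℝ) ≤ R₁ := by exact_mod_cast hR1
  obtain ⟨z, hz0, hz1, hz2, hz3⟩ : ∃ x : ℝ, 0 < x ∧ x ≤ e / 200 ∧ x ≤ κ₄ / 4 ∧
      x ≤ μ₀ / (128 * D) :=
    ⟨min (e / 200) (min (κ₄ / 4) (μ₀ / (128 * D))), by positivity, min_le_left _ _,
      (min_le_right _ _).trans (min_le_left _ _), (min_le_right _ _).trans (min_le_right _ _)⟩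
  obtain ⟨γ, hγe⟩ : ∃ x : ℝ, x = z / (L * R₁) := ⟨_, rfl⟩
  have hLR : (1 : ℝ) ≤ L * R₁ := by
    calc (1 : ℝ) = 1 * 1 := (one_mul 1).symm
      _ ≤ L * R₁ := mul_le_mul hL1r hR1r zero_le_one (by positivity)
  have hγ0 : 0 < γ := by rw [hγe]; positivity
  have hLRγ : L * (R₁ * γ) = z := by rw [hγe]; field_simp
  have hRγ0 : 0 < R₁ * γ := by positivity
  have hRγ : R₁ * γ ≤ z := by
    calc R₁ * γ = 1 * (R₁ * γ) := (one_mul _).symm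
      _ ≤ L * (R₁ * γ) := mul_le_mul_of_nonneg_right hL1r hRγ0.le
      _ = z := hLRγ
  have hγz : γ ≤ z := by
    calc γ = 1 * γ := (one_mul _).symm
      _ ≤ R₁ * γ := mul_le_mul_of_nonneg_right hR1r hγ0.le
      _ ≤ z := hRγ
  have hγ1 : γ ≤ 1 := by linarith
  obtain ⟨A0, hA0e⟩ : ∃ x : ℝ, x = 6 / γ + 6 * B ^ 4 := ⟨_, rfl⟩
  have hA0a : 6 / γ ≤ A0 := by
    have : 0 < 6 * B ^ 4 := by positivity
    rw [hA0e]; linarith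
  have hA0b : 6 * B ^ 4 ≤ A0 := by
    have : 0 < 6 / γ := by positivity
    rw [hA0e]; linarith
  have hA01 : 1 ≤ A0 := by
    have : 1 ≤ B ^ 4 := one_le_pow₀ hB1
    linarith
  have : NeZero (2 ^ (L * R₁ + 1) + 1) := ⟨Nat.succ_ne_zero _⟩
  have hs1 : L * (4 / D₁ + R₁ * γ) = 4 * L / D₁ + z := by
    rw [mul_add, hLRγ]; ring
  have hs2 : L * (D / K + R₁ * γ) = L * ((D : ℝ) / K) + z := by
    rw [mul_add, hLRγ]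
  have hs3 : L * (2 * D₁ / D + R₁ * γ) = L * (2 * (D₁ : ℝ) / D) + z := by
    rw [mul_add, hLRγ]
  exact s2_fix ε e μ₀ κ₄ κ₅ η θ θc δ₅ γh γ (κ₄ / 2) (μ₀ / (64 * D)) (μ₀ / (64 * D₁))
    (μ₀ / (32 * D)) (μ₀ / (32 * D₁)) (μ₀ / (64 * D)) (μ₀ / (64 * D₁)) γ₂ δ' A0
    L R₁ ⌈1 / γ + 2⌉₊ (2 ^ (L * R₁ + 1) + 1) D₁ D K
    hε hε1 he hμ0 hμe.le hL1 hR1 hD₁1 hD₁D hK1 hκ₄0 hκ₅0 (by rw [hηe]; positivity) hθ0 hθc0
    hδ₅0 hγh0 hγ0 hγ1 hγ₂ hδ' (by positivity) (by positivity)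
    (by
      rw [div_le_iff₀ he0] at hL160
      rw [div_le_div_iff₀ (by linarith) (by norm_num)]
      linarith)
    hR4 (hRγ.trans hz1) (Nat.le_ceil _) (Nat.lt_succ_self _) (by linarith)
    (by rw [← hκe]; linarith) q4 q5 q6
    (by
      rw [hs1, ← hκe]
      linarith)
    (by rw [hs1]; linarith)
    q7
    (by rw [hs2]; linarith)
    (by rw [hs3]; linarith)
    (by
      have h1 : (4 / e ^ 3) ^ 3 * (5 * κ₄) = θ := by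
        rw [hκ₄e]; field_simp; norm_num
      exact h1.le)
    (by
      have h1 : e ^ 2 ≤ 1 := pow_le_one₀ he0.le he2
      have h2 : e ^ 6 ≤ e ^ 4 := by
        calc e ^ 6 = e ^ 4 * e ^ 2 := by ring
          _ ≤ e ^ 4 * 1 := mul_le_mul_of_nonneg_left h1 (by positivity)
          _ = e ^ 4 := mul_one _
      have h3 : η * e = e ^ 4 / 144 := by rw [hηe]; ring
      rw [h3, hθe]
      linarith)
    (by
      have h1 : 5 * (4 / e ^ 3) * θ = e ^ 3 / 216 := by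
        rw [hθe]; field_simp; norm_num
      rw [h1, hηe, hκ₅e]
      linarith)
    (by
      have h1 : 6 * (4 / e ^ 3) * θ = e ^ 3 / 180 := by
        rw [hθe]; field_simp; norm_num
      rw [h1]
      linarith)
    (by
      have h1 : (4 / e ^ 3 + 1) ^ 2 * 2 * δ₅ = κ₄ * κ₅ ^ 2 / 2 := by
        rw [← hB, hδ₅e]; field_simp; norm_num
      rw [h1]
      linarith)
    (by
      rw [← hB]
      rw [le_div_iff₀ (by positivity)] at hγh3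
      linarith)
    (by rw [← hB]; linarith)
    (by rw [← hB]; linarith)
    hA0a
    (by rw [← hB]; exact hA0b)
    (hM A0 hA01)

end MP_80c395_TP
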