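import Pool.Agent.Lib.MP_80c395_co_TQ.ExPlc
import Pool.Agent.Lib.MP_80c395_co_TQ.ExQR
import Pool.Agent.Lib.MP_80c395_co_TQ.Inst2
import Pool.Agent.Lib.MP_80c395_co_TP.TPMain
import Pool.Agent.Lib.MP_80c395_co_GT.DefsG

/-!
# Project TQ: packing for fixed constants and large `n` (assembly)

`B = 4 / e^3`, `ε₂ = e^3 / 8`, `κ = e^3 / 32`, `Tn = card (Fin (L R₁) → Fin 4 → Fin Am)`, `Λ = m L + (5 m + 1)`.
`q0` from `ex_qr` for `e, B, θ, θc, γ, ε₂, κ₄, δ₅, γh`, `R = L R₁`, `g = m`.  Let `n` be large (larger than a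
constant depending on all the constants), `N = 2 n + 1`, `w = ⌈μ₀ N⌉`, `q = (N - 2 w) / m` (natural
numbers), `r = N - q m ≥ 2 w`, `M = q m ≥ N - 2 w - m ≥ (1 - 3 μ₀) N`, `M ≤ N ≤ 2 M`; `q` is as large as we
like.  `V = (Fin q × ZMod m) ⊕ Fin r`, `card V = N`; `W1, W2` = images under `Sum.inr` of
`{j | j < w}`, `{j | w ≤ j < 2 w}`.
* `h = ⌊γh M⌋₊ + 1 ≥ 4 D`; `tree_dec` gives `d i, J i`; `|J i| ≤ 4 mm i / h ≤ 4 / γh ≤ R₁`; `nb < h` means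
  `nb ≤ γh M`.
* `ex_plc` with `μ = 2 μ₀`: `mm i ≤ n + 1 = (N + 1) / 2 ≤ (1/2 + 2 μ₀)(1 - 3 μ₀) N ≤ (1/2 + 2 μ₀) M`
  (`μ₀ ≤ 1/24`, `N ≥ 2 / μ₀`); `k ≤ 4 n + 1 ≤ 2 N ≤ 5 M`;
  `htot`: `∑ mm i = ∑ (mm i - 1) + k ≤ (1 - ε) N (N - 1) / 2 + 2 N` (all `mm i ≥ 1`, trees are nonempty), so
  `2 (∑ mm) / M^2 ≤ (1 - ε + 4 / N) / (1 - 3 μ₀)^2 ≤ (1 - 4 e + 4 / N) / (1 - e / 32) ≤ 1 - 2 e`.
  The conditions with `q` (`hL, hTL, hN, hN1`) hold for large `q`; `h1 - h9` are the others.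
* `ex_qr` gives `ω`; `s2_inst` with `W1, W2`; `n1, n2, n7` hold for large `q`; `c1, c2` from `ex_plc` and
  `M ≤ N`; `b1, b2`: `M ≤ N`; `a1, a2`: `N ≤ 2 M`, `A0 ≥ 6 / γ`, `A0 ≥ 6 B^4`.
* `hmain` with `V1 = univ.image Sum.inl`.
* The packing into `V` gives a packing into `Fin (2 n + 1)` by an equivalence
  (`Fintype.equivFinOfCardEq`).
-/

set_option autoImplicit false

namespace MP_80c395_TP

open Finset Pool.Agent.GT

private theorem s2f_ge {c : ℝ} (hc : 0 < c) (x : ℝ) :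
    ∀ᶠ q : ℕ in Filter.atTop, x ≤ c * q :=
  (tendsto_natCast_atTop_atTop.const_mul_atTop hc).eventually_ge_atTop x

private theorem s2f_m {μ N M : ℝ} (hμ : 0 < μ) (hμ1 : μ ≤ 1 / 24) (hN : 2 ≤ μ * N)
    (hM : (1 - 3 * μ) * N ≤ M) : (N + 1) / 2 ≤ (1 / 2 + 2 * μ) * M := by
  have h1 : (1 / 2 + 2 * μ) * ((1 - 3 * μ) * N) ≤ (1 / 2 + 2 * μ) * M :=
    mul_le_mul_of_nonneg_left hM (by linarith)
  have h2 : (1 / 2 + 2 * μ) * ((1 - 3 * μ) * N) = N / 2 + (1 / 2 - 6 * μ) * (μ * N) := by ring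
  have h3 : 1 / 4 * (μ * N) ≤ (1 / 2 - 6 * μ) * (μ * N) :=
    mul_le_mul_of_nonneg_right (by linarith) (by linarith)
  linarith

private theorem s2f_tot {e μ N M S : ℝ} (he : 0 < e) (he1 : e ≤ 1 / 4) (hμ : 0 < μ)
    (hμ1 : μ ≤ e / 200) (hN : 4 ≤ e * N) (hN0 : 0 < N) (hM : (1 - 3 * μ) * N ≤ M) (hM0 : 0 < M)
    (hS : S ≤ (1 - 4 * e) * N ^ 2 / 2 + 2 * N) : 2 * S / M ^ 2 ≤ 1 - 2 * e := by
  rw [div_le_iff₀ (by positivity)]
  have h1 : (1 - e / 32) * N ^ 2 ≤ M ^ 2 := by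
    have a1 : 0 ≤ (1 - 3 * μ) * N := mul_nonneg (by linarith) hN0.le
    have a2 : ((1 - 3 * μ) * N) ^ 2 ≤ M ^ 2 := pow_le_pow_left₀ a1 hM 2
    have a3 : ((1 - 3 * μ) * N) ^ 2 = (1 - 6 * μ + 9 * μ ^ 2) * N ^ 2 := by ring
    have a5 : 0 ≤ μ ^ 2 := sq_nonneg μ
    have a4 : (1 - e / 32) * N ^ 2 ≤ (1 - 6 * μ + 9 * μ ^ 2) * N ^ 2 :=
      mul_le_mul_of_nonneg_right (by linarith) (sq_nonneg N)
    linarith
  have h2 : (1 - 2 * e) * ((1 - e / 32) * N ^ 2) ≤ (1 - 2 * e) * M ^ 2 :=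
    mul_le_mul_of_nonneg_left h1 (by linarith)
  have h3 : 4 * N ≤ e * N * N := mul_le_mul_of_nonneg_right hN hN0.le
  have h4 : (1 - 2 * e) * ((1 - e / 32) * N ^ 2) =
      (1 - 2 * e - e / 32) * N ^ 2 + e ^ 2 / 16 * N ^ 2 := by ring
  have h5 : 0 ≤ e ^ 2 / 16 * N ^ 2 := by positivity
  have h6 : 0 ≤ e * N ^ 2 := by positivity
  have h7 : e * N * N = e * N ^ 2 := by ring
  linarith

/-- a packing into any host of the right size -/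
private theorem s2f_pk {n : ℕ} {V : Type} [Fintype V] (hV : Fintype.card V = 2 * n + 1) {k : ℕ}
    (mm : Fin k → ℕ) (T : ∀ i, SimpleGraph (Fin (mm i))) (f : ∀ i, Fin (mm i) → V)
    (h1 : ∀ i, Function.Injective (f i))
    (h2 : ∀ i j, i ≠ j → ∀ a b c d, (T i).Adj a b → (T j).Adj c d →
      s(f i a, f i b) ≠ s(f j c, f j d)) : Pk n mm T := by
  have g := Fintype.equivFinOfCardEq hV
  refine ⟨fun i x => g (f i x), fun i => g.injective.comp (h1 i), ?_⟩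
  intro i j hij a b c d hab hcd h
  refine h2 i j hij a b c d hab hcd ?_
  have h3 : Sym2.map g s(f i a, f i b) = Sym2.map g s(f j c, f j d) := h
  exact Sym2.map.injective g.injective h3

theorem s2_fix (ε e μ₀ κ₄ κ₅ η θ θc δ₅ γh γ lz l1c l2c l1 l2 u1 u2 γ₂ δ' A0 : ℝ)
    (L R₁ Am m D₁ D K : ℕ) [NeZero m]
    (hε : 0 < ε) (hε1 : ε ≤ 1) (he : e = ε / 4) (hμ : 0 < μ₀) (hμ1 : μ₀ ≤ e / 200)
    (hL1 : 1 ≤ L) (hR1 : 1 ≤ R₁) (hD₁ : 1 ≤ D₁) (hD₁D : D₁ ≤ D) (hK : 1 ≤ K)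
    (hκ₄ : 0 < κ₄) (hκ₅ : 0 < κ₅) (hη : 0 ≤ η) (hθ : 0 < θ) (hθc : 0 < θc) (hδ₅ : 0 < δ₅)
    (hγh : 0 < γh) (hγ : 0 < γ) (hγ1 : γ ≤ 1) (hγ₂ : 0 < γ₂) (hδ' : 0 < δ')
    (hl1 : 0 ≤ l1) (hl2 : 0 ≤ l2) (hL : 5 / (L : ℝ) ≤ e / 32) (hR : 4 / γh ≤ R₁)
    (hRγ : R₁ * γ ≤ e / 200) (hAm : 1 / γ + 2 ≤ Am) (hm : 2 ^ (L * R₁ + 1) < m)
    (hγδ : 2 * γh ≤ δ₅) (hγκ : 2 * γh ≤ e ^ 3 / 32)
    (hl1c : 2 / (K : ℝ) ≤ l1c) (hl2c : 4 / (D : ℝ) ≤ l2c) (hlz : 6 / (D₁ : ℝ) ≤ lz)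
    (hnum : 2 / (D₁ : ℝ) + 4 * (L * (4 / D₁ + R₁ * γ)) + 2 * lz + 10 * D / (K * l1c) +
      20 * D₁ / (D * l2c) + 80 / (D₁ * lz) ≤ e ^ 3 / 32 / 8)
    (h5 : L * (4 / D₁ + R₁ * γ) + lz ≤ κ₄) (h5' : 2 / (D₁ : ℝ) ≤ κ₄)
    (h6 : L * (D / K + R₁ * γ) + l1c ≤ l1) (h7 : L * (2 * D₁ / D + R₁ * γ) + l2c ≤ l2)
    (n3 : (4 / e ^ 3) ^ 3 * (5 * κ₄) ≤ θ) (n4 : 30 * θ ≤ η * e)
    (n5 : 3 * η + 4 * κ₅ + 5 * (4 / e ^ 3) * θ ≤ e ^ 3 / 8 / 2) (n6 : 6 * (4 / e ^ 3) * θ ≤ 1)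
    (n8 : (4 / e ^ 3 + 1) ^ 2 * 2 * δ₅ + 8 * θc ≤ κ₄ * κ₅ ^ 2)
    (n9 : 3 * (4 / e ^ 3) ^ 2 * γh ≤ γ₂)
    (b1 : 20 * (4 / e ^ 3) ^ 2 * D / K + 2 * θc ≤ u1)
    (b2 : 40 * (4 / e ^ 3) ^ 2 * D₁ / D + 2 * θc ≤ u2)
    (a1 : 6 / γ ≤ A0) (a2 : 6 * (4 / e ^ 3) ^ 4 ≤ A0)
    (hmain : ∃ N0 : ℕ, ∀ (V : Type) [Fintype V] [DecidableEq V] (Q : Dat V)
        (V1 W1 W2 : Finset V), N0 ≤ Fintype.card V → Disjoint W1 W2 →
        μ₀ * Fintype.card V ≤ W1.card → μ₀ * Fintype.card V ≤ W2.card →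
        DatOK Q V1 (W1 ∪ W2) D₁ D K A0 δ' (e ^ 3 / 8 / 2) γ₂ →
        (∀ v, (Q.cload (fun i => (Q.d i).C1) v : ℝ) ≤ l1 * Fintype.card V) →
        (∀ v, (Q.cload (fun i => (Q.d i).C2) v : ℝ) ≤ l2 * Fintype.card V) →
        (∀ v, dmd Q (fun i => (Q.d i).C1) v ≤ u1 * Fintype.card V) →
        (∀ v, dmd Q (fun i => (Q.d i).C2) v ≤ u2 * Fintype.card V) →
        ∃ f : ∀ i, Fin (Q.m i) → V, (∀ i, Function.Injective (f i)) ∧
          ∀ i j, i ≠ j → ∀ a b c d, (Q.T i).Adj a b → (Q.T j).Adj c d →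
            s(f i a, f i b) ≠ s(f j c, f j d)) :
    ∃ n0 : ℕ, ∀ n, n0 ≤ n → ∀ (k : ℕ) (mm : Fin k → ℕ) (T : ∀ i, SimpleGraph (Fin (mm i))),
      k ≤ 4 * n + 1 → (∀ i, (T i).IsTree) → (∀ i, mm i ≤ n + 1) →
      ((∑ i, (mm i - 1) : ℕ) : ℝ) ≤ (1 - ε) * (n * (2 * n + 1)) → Pk n mm T := by
  classical
  have he0 : 0 < e := by
    rw [he]
    linarith
  have he1 : e ≤ 1 / 4 := by
    rw [he]
    linarith
  have hεe : ε = 4 * e := by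
    rw [he]
    ring
  have he3 : 0 < e ^ 3 := by positivity
  have he31 : e ^ 3 ≤ 1 := pow_le_one₀ he0.le (by linarith)
  have hB0 : 0 < 4 / e ^ 3 := by positivity
  have hB1 : 1 ≤ 4 / e ^ 3 := by
    rw [le_div_iff₀ he3]
    linarith
  have hmN : 0 < m := NeZero.pos m
  have hm0 : (0 : ℝ) < m := by exact_mod_cast hmN
  have hm1 : (1 : ℝ) ≤ m := by exact_mod_cast hmN
  have hD1 : 1 ≤ D := hD₁.trans hD₁D
  have hKp : (0 : ℝ) < K := by exact_mod_cast hK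
  have hDp : (0 : ℝ) < D := by exact_mod_cast hD1
  have hμe : μ₀ ≤ 1 / 800 := by linarith
  obtain ⟨Tn, hTn⟩ : ∃ Tn : ℕ, Tn = Fintype.card (Fin (L * R₁) → Fin 4 → Fin Am) := ⟨_, rfl⟩
  obtain ⟨q0, hqr⟩ := ex_qr e (4 / e ^ 3) θ θc γ (e ^ 3 / 8) κ₄ δ₅ γh he0 hB1 hθ hθc hγ (L * R₁) m
    D₁ D K (m * L + (5 * m + 1)) hmN
  obtain ⟨Q1, hQ1⟩ := Filter.eventually_atTop.1 ((s2f_ge (c := e / 32) (by positivity)
    (2 * (Tn : ℝ))).and ((s2f_ge (c := e / 64) (by positivity) ((Tn : ℝ) * L)).and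
    ((s2f_ge (c := e ^ 3 / 32 / 16 * m) (by positivity)
      ((2 * ((m * L + (5 * m + 1) : ℕ) : ℝ) + 2 * m) / δ₅ + m + 20)).and
    ((s2f_ge hm0 (2 * (D₁ : ℝ))).and
    ((s2f_ge (c := γh * m) (by positivity) (4 * (D : ℝ))).and
    ((s2f_ge hθ (2 * (4 / e ^ 3))).and
    ((s2f_ge hκ₄ 2).and (s2f_ge hθc (2 * (4 / e ^ 3) ^ 2)))))))))
  obtain ⟨N0, hmain⟩ := hmain
  obtain ⟨n1, hn1⟩ := exists_nat_ge (((m : ℝ) + 2) / μ₀)
  obtain ⟨n2, hn2⟩ := exists_nat_ge (4 / e)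
  refine ⟨N0 + n1 + n2 + 2 * m * (q0 + Q1 + 1), fun n hn k mm T hk htree hmm hsum => ?_⟩
  have hnA : 2 * m * (q0 + Q1 + 1) ≤ n := (Nat.le_add_left _ _).trans hn
  have hnB : N0 + n1 + n2 ≤ n := (Nat.le_add_right _ _).trans hn
  have hn0 : (0 : ℝ) ≤ n := Nat.cast_nonneg n
  obtain ⟨N, hN⟩ : ∃ N : ℝ, N = 2 * (n : ℝ) + 1 := ⟨_, rfl⟩
  have hNpos : 0 < N := by linarith
  have hμN : (m : ℝ) + 2 ≤ μ₀ * N := by
    have a1 : (n1 : ℝ) ≤ n := by exact_mod_cast (by omega : n1 ≤ n)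
    have a2 : ((m : ℝ) + 2) / μ₀ ≤ N := by linarith
    rw [div_le_iff₀ hμ] at a2
    linarith
  have heN : 4 ≤ e * N := by
    have a1 : (n2 : ℝ) ≤ n := by exact_mod_cast (by omega : n2 ≤ n)
    have a2 : 4 / e ≤ N := by linarith
    rw [div_le_iff₀ he0] at a2
    linarith
  have hμN1 : μ₀ * N ≤ 1 / 800 * N := mul_le_mul_of_nonneg_right hμe hNpos.le
  obtain ⟨w, hw1, hw2⟩ : ∃ w : ℕ, μ₀ * N ≤ w ∧ (w : ℝ) ≤ μ₀ * N + 1 :=
    ⟨⌈μ₀ * N⌉₊, Nat.le_ceil _, (Nat.ceil_lt_add_one (by positivity)).le⟩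
  have h2w : 2 * w ≤ 2 * n + 1 := by
    have a1 : 2 * (w : ℝ) ≤ 2 * (n : ℝ) + 1 := by linarith
    exact_mod_cast a1
  obtain ⟨q, hq⟩ : ∃ q, q = (2 * n + 1 - 2 * w) / m := ⟨_, rfl⟩
  have hq1 : q * m ≤ 2 * n + 1 - 2 * w := hq ▸ Nat.div_mul_le_self _ _
  have hq2 : 2 * n + 1 - 2 * w < q * m + m := hq ▸ Nat.lt_div_mul_add hmN
  obtain ⟨r, hr⟩ : ∃ r, q * m + r = 2 * n + 1 := ⟨2 * n + 1 - q * m, by omega⟩
  have h2wr : 2 * w ≤ r := by omega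
  obtain ⟨M, hMd⟩ : ∃ M : ℝ, M = (q : ℝ) * m := ⟨_, rfl⟩
  have hM1 : M + 2 * w ≤ N := by
    have a1 : q * m + 2 * w ≤ 2 * n + 1 := by omega
    have a2 : ((q * m + 2 * w : ℕ) : ℝ) ≤ ((2 * n + 1 : ℕ) : ℝ) := by exact_mod_cast a1
    push_cast at a2
    rw [hMd, hN]
    linarith
  have hM2 : N ≤ M + 2 * w + m := by
    have a1 : 2 * n + 1 ≤ q * m + 2 * w + m := by omega
    have a2 : ((2 * n + 1 : ℕ) : ℝ) ≤ ((q * m + 2 * w + m : ℕ) : ℝ) := by exact_mod_cast a1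
    push_cast at a2
    rw [hMd, hN]
    linarith
  have hM : (1 - 3 * μ₀) * N ≤ M := by linarith
  have hw0 : (0 : ℝ) ≤ w := Nat.cast_nonneg w
  have hMN : M ≤ N := by linarith
  have hNM : N ≤ 2 * M := by linarith
  have hM0 : 0 < M := by linarith
  have hqQ : q0 + Q1 + 1 ≤ q := by
    have a1 : 2 * n + 1 ≤ 2 * (q * m) := by
      have a2 : ((2 * n + 1 : ℕ) : ℝ) ≤ ((2 * (q * m) : ℕ) : ℝ) := by
        push_cast
        rw [hMd, hN] at hNM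
        exact hNM
      exact_mod_cast a2
    have a3 : m * (q0 + Q1 + 1) ≤ m * q := by
      have a4 : 2 * (m * (q0 + Q1 + 1)) ≤ 2 * (m * q) := by
        calc 2 * (m * (q0 + Q1 + 1)) = 2 * m * (q0 + Q1 + 1) := by ring
          _ ≤ 2 * n + 1 := by omega
          _ ≤ 2 * (q * m) := a1
          _ = 2 * (m * q) := by ring
      omega
    exact Nat.le_of_mul_le_mul_left a3 hmN
  obtain ⟨s1, s2, s3, s4, s5, s6, s7, s8⟩ := hQ1 q (by omega)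
  have hqpos : 0 < q := by omega
  have hqr0 : (0 : ℝ) < q := by exact_mod_cast hqpos
  -- decompositions
  obtain ⟨h, hh⟩ : ∃ h, h = ⌊γh * M⌋₊ + 1 := ⟨_, rfl⟩
  have hγM : 0 ≤ γh * M := by positivity
  have hh1 : 4 * D ≤ h := by
    have a1 : 4 * D ≤ ⌊γh * M⌋₊ := by
      refine Nat.le_floor ?_
      push_cast
      rw [hMd]
      linarith
    omega
  have hh2 : γh * M ≤ h := by
    rw [hh]
    push_cast
    exact (Nat.lt_floor_add_one _).le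
  choose d J hd hJZ hJc hJn hJd using fun i => tree_dec (htree i) D₁ D K h hD₁D hh1 hD1
  have hmm1 : ∀ i, 1 ≤ mm i := by
    intro i
    obtain ⟨x⟩ := (htree i).1.nonempty
    exact Fin.pos x
  have hmM : ∀ i, (mm i : ℝ) ≤ (1 / 2 + 2 * μ₀) * M := by
    intro i
    have a1 : (mm i : ℝ) ≤ n + 1 := by exact_mod_cast hmm i
    have a2 := s2f_m hμ (by linarith) (by linarith) hM
    linarith
  have hmM' : ∀ i, (mm i : ℝ) ≤ M := by
    intro i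
    refine (hmM i).trans ?_
    have a1 : (1 / 2 + 2 * μ₀) * M ≤ 1 * M := mul_le_mul_of_nonneg_right (by linarith) hM0.le
    linarith
  have hJR : ∀ i, (J i).card ≤ R₁ := by
    intro i
    have a1 : (h : ℝ) * (J i).card ≤ 4 * mm i := by exact_mod_cast hJc i
    have a2 : (γh * M) * (J i).card ≤ h * (J i).card :=
      mul_le_mul_of_nonneg_right hh2 (Nat.cast_nonneg _)
    have a3 : ((J i).card : ℝ) ≤ 4 / γh := by
      rw [le_div_iff₀ hγh]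
      have a4 : ((J i).card * γh) * M ≤ 4 * M := by
        calc ((J i).card * γh) * M = (γh * M) * (J i).card := by ring
          _ ≤ 4 * mm i := a2.trans a1
          _ ≤ 4 * M := by linarith [hmM' i]
      exact le_of_mul_le_mul_right a4 hM0
    exact_mod_cast a3.trans hR
  have hacm : ∀ i, ∀ z, z ∉ J i → (nb (T i) univ z : ℝ) ≤ γh * (q * m) := by
    intro i z hz
    have a1 := hJd i z hz
    rw [hh] at a1
    rw [← hMd]
    exact le_trans (by exact_mod_cast Nat.lt_succ_iff.1 a1) (Nat.floor_le hγM)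
  have hk2 : (k : ℝ) ≤ 2 * N := by
    have : (k : ℝ) ≤ 4 * n + 1 := by exact_mod_cast hk
    rw [hN]
    linarith
  have hsm : (∑ i, (mm i : ℝ)) ≤ (1 - 4 * e) * N ^ 2 / 2 + 2 * N := by
    have a1 : (∑ i, (mm i : ℝ)) = ((∑ i, (mm i - 1) : ℕ) : ℝ) + k := by
      have a2 : ∑ i, mm i = ∑ i, (mm i - 1) + k := by
        have a3 : ∑ i : Fin k, mm i = ∑ i : Fin k, ((mm i - 1) + 1) :=
          Finset.sum_congr rfl fun i _ => (Nat.sub_add_cancel (hmm1 i)).symm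
        rw [a3, Finset.sum_add_distrib]
        simp
      rw [← Nat.cast_sum, a2]
      push_cast
      ring
    have a5 : (n : ℝ) * (2 * n + 1) ≤ N ^ 2 / 2 := by
      have a : N ^ 2 / 2 = (n : ℝ) * (2 * n + 1) + (n + 1 / 2) := by
        rw [hN]
        ring
      linarith
    have a6 : (1 - 4 * e) * ((n : ℝ) * (2 * n + 1)) ≤ (1 - 4 * e) * (N ^ 2 / 2) :=
      mul_le_mul_of_nonneg_left a5 (by linarith)
    rw [hεe] at hsum
    rw [a1]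
    linarith
  have htot : 2 * (∑ i, (mm i : ℝ)) / (q * m) ^ 2 ≤ 1 - 2 * e := by
    rw [← hMd]
    exact s2f_tot he0 he1 hμ hμ1 heN hNpos hM hM0 hsm
  obtain ⟨X, lb, φ, P, bm, hP, hA, hc1, hc2⟩ := ex_plc e (e ^ 3 / 32) κ₄ δ₅ γh l1 l2 lz l1c l2c
    (2 * μ₀) γ L R₁ Am m D₁ D K q Tn he0 he1 hL1 hR1 hγ hAm hm hTn hqpos
    (by
      have a1 : 2 * (Tn : ℝ) / q ≤ e / 32 := by
        rw [div_le_iff₀ hqr0]
        exact s1
      linarith)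
    (by
      rw [div_le_iff₀ hqr0]
      exact s2)
    hRγ (by linarith) (by linarith) (by positivity) le_rfl hδ₅ hγh.le hγδ hγκ hD₁ hD1 hK hl1c
    hl2c hlz hnum (by linarith) (by linarith) h5 h5' h6 h7 k mm T d J htree hd hJZ hJn hJR hacm
    (by
      rw [← hMd]
      linarith)
    (fun i => by
      rw [← hMd]
      exact hmM i) htot
  obtain ⟨ω, hω⟩ := hqr q (by omega) (ZMod m) (ZMod.card m) P _ bm hP hA
  have hcard : Fintype.card ((Fin q × ZMod m) ⊕ Fin r) = 2 * n + 1 := by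
    rw [Fintype.card_sum, Fintype.card_prod, Fintype.card_fin, Fintype.card_fin, ZMod.card]
    exact hr
  have hcardR : (Fintype.card ((Fin q × ZMod m) ⊕ Fin r) : ℝ) = N := by
    rw [hcard, hN]
    push_cast
    ring
  -- the reserved sets
  obtain ⟨V1, -, hV1⟩ := Finset.exists_subset_card_eq (s := (univ : Finset (Fin r)))
    (n := w) (by rw [Finset.card_univ, Fintype.card_fin]; omega)
  have hV1c : (univ \ V1 : Finset (Fin r)).card = r - w := by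
    rw [Finset.card_sdiff_of_subset (Finset.subset_univ _), hV1, Finset.card_univ,
      Fintype.card_fin]
  obtain ⟨V2, hV2s, hV2⟩ := Finset.exists_subset_card_eq (s := univ \ V1)
    (n := w) (by rw [hV1c]; omega)
  have hVd : Disjoint V1 V2 := by
    rw [Finset.disjoint_left]
    intro x hx hx2
    exact (Finset.mem_sdiff.1 (hV2s hx2)).2 hx
  obtain ⟨W1, hW1⟩ : ∃ W1 : Finset ((Fin q × ZMod m) ⊕ Fin r), W1 = V1.image Sum.inr := ⟨_, rfl⟩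
  obtain ⟨W2, hW2⟩ : ∃ W2 : Finset ((Fin q × ZMod m) ⊕ Fin r), W2 = V2.image Sum.inr := ⟨_, rfl⟩
  have hW1c : W1.card = w := by
    rw [hW1, Finset.card_image_of_injective _ Sum.inr_injective, hV1]
  have hW2c : W2.card = w := by
    rw [hW2, Finset.card_image_of_injective _ Sum.inr_injective, hV2]
  have hWd : Disjoint W1 W2 := by
    rw [hW1, hW2]
    exact (Finset.disjoint_image Sum.inr_injective).2 hVd
  have hin : ∀ (V : Finset (Fin r)) (v : Fin q × ZMod m),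
      (Sum.inl v : (Fin q × ZMod m) ⊕ Fin r) ∉ V.image Sum.inr := by
    intro V v hv
    obtain ⟨x, -, hx⟩ := Finset.mem_image.1 hv
    exact Sum.inr_ne_inl hx
  have hAM : (⟨k, mm, T, d, J, X, lb, φ⟩ : Plc q (L * R₁) (ZMod m)).M = M := by
    unfold Plc.M
    rw [ZMod.card, hMd]
  have hdiv : ∀ x : ℝ, 0 ≤ x → 2 * x ≤ A0 → x / M ≤ A0 / N := by
    intro x hx hxA
    rw [div_le_div_iff₀ hM0 hNpos]
    calc x * N ≤ x * (2 * M) := mul_le_mul_of_nonneg_left hNM hx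
      _ = 2 * x * M := by ring
      _ ≤ A0 * M := mul_le_mul_of_nonneg_right hxA hM0.le
  obtain ⟨f, hf1, hf2⟩ := s2_inst hP hA hω (r := r) W1 W2
    (fun v => by
      rw [hW1]
      exact hin V1 v)
    (fun v => by
      rw [hW2]
      exact hin V2 v) (η := η) (κ₅ := κ₅) (A0 := A0) (δ' := δ') (γ₂ := γ₂) (l1 := l1) (l2 := l2)
    (u1 := u1) (u2 := u2) hη hκ₅ hθ.le hθc.le hγ hγ1 (by positivity) (by linarith) hδ₅.le hγh.le
    hδ'.le hγ₂.le hD₁ hD1 hK s6 s7 n3 n4 n5 n6 s8 n8 n9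
    (by
      rw [hAM, hcardR]
      exact hMN)
    (by
      rw [hAM, hcardR]
      refine hdiv _ (by positivity) ?_
      refine le_trans (le_of_eq ?_) a1
      ring)
    (by
      rw [hAM, hcardR]
      refine hdiv _ (by positivity) ?_
      refine le_trans (le_of_eq ?_) a2
      ring)
    (by
      rw [hcard]
      change k ≤ _
      omega)
    (fun u => by
      rw [hcardR]
      refine (hc1 u).trans ?_
      rw [← hMd]
      exact mul_le_mul_of_nonneg_left hMN hl1)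
    (fun u => by
      rw [hcardR]
      refine (hc2 u).trans ?_
      rw [← hMd]
      exact mul_le_mul_of_nonneg_left hMN hl2)
    hl1 hl2
    (by
      rw [hAM, hcardR]
      exact mul_le_mul b1 hMN hM0.le (le_trans (by positivity) b1))
    (by
      rw [hAM, hcardR]
      exact mul_le_mul b2 hMN hM0.le (le_trans (by positivity) b2))
    (fun Q hQ t1 t2 t3 t4 => hmain _ Q (univ.image Sum.inl) W1 W2
      (by
        rw [hcard]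
        omega) hWd
      (by
        rw [hcardR, hW1c]
        exact hw1)
      (by
        rw [hcardR, hW2c]
        exact hw1) hQ t1 t2 t3 t4)
  exact s2f_pk hcard mm T f hf1 hf2

end MP_80c395_TP
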