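import Pool.Agent.Lib.MP_80c395_co_TQ.S2Core
import Pool.Agent.Lib.MP_80c395_co_TP.S1Main

/-!
# Project TQ: asymptotic packing of all trees

`s2_all`: from `s2_core` as `s1_all` from `s1_core` in Pool/Agent/Lib/MP_80c395_co_TP/S1Main.lean (copy the
private lemmas used there): `merge_deg` with `B = n + 1` (`nb T univ x ≤ m i ≤ n + 1`, `n ≥ 1`), `card_merged`,
an equivalence of the index type with `Fin k`, and `s2_core` for `min ε 1`.
-/

set_option autoImplicit false

namespace MP_80c395_TP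

open Finset Pool.Agent.GT

private theorem s2m_adj {ι : Type} {m : ι → ℕ} (T : ∀ i, SimpleGraph (Fin (m i))) {i j : ι}
    (h : i = j) {a b : Fin (m i)} (hab : (T i).Adj a b) :
    (T j).Adj (Fin.cast (congrArg m h) a) (Fin.cast (congrArg m h) b) := by
  subst h
  exact hab

private theorem s2m_reindex {n : ℕ} {ι ι' : Type} (e : ι' ≃ ι) (m : ι → ℕ)
    (T : ∀ i, SimpleGraph (Fin (m i))) (h : Pk n (fun i => m (e i)) (fun i => T (e i))) :
    Pk n m T := by
  obtain ⟨f, h1, h2⟩ := h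
  have he : ∀ i, i = e (e.symm i) := fun i => (e.apply_symm_apply i).symm
  refine ⟨fun i x => f (e.symm i) (Fin.cast (congrArg m (he i)) x), ?_, ?_⟩
  · intro i x y hxy
    have h3 := h1 (e.symm i) hxy
    exact Fin.cast_injective _ h3
  · intro i j hij a b c d hab hcd
    exact h2 (e.symm i) (e.symm j) (fun h => hij (e.symm.injective h)) _ _ _ _
      (s2m_adj T (he i) hab) (s2m_adj T (he j) hcd)

theorem s2_all (ε : ℝ) (hε : 0 < ε) :
    ∃ n0 : ℕ, ∀ n, n0 ≤ n → ∀ (k : ℕ) (m : Fin k → ℕ)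
      (T : ∀ i, SimpleGraph (Fin (m i))), (∀ i, (T i).IsTree) → (∀ i, m i ≤ n + 1) →
      ((∑ i, (m i - 1) : ℕ) : ℝ) ≤ (1 - ε) * (n * (2 * n + 1)) → Pk n m T := by
  classical
  obtain ⟨n0, hcore⟩ := s2_core (min ε 1) (lt_min hε one_pos) (min_le_right _ _)
  refine ⟨max n0 1, ?_⟩
  intro n hn k m T htree hm hsum
  have hn1 : n0 ≤ n := (le_max_left _ _).trans hn
  have hn2 : 1 ≤ n := (le_max_right _ _).trans hn
  have hn0 : (0 : ℝ) ≤ n := Nat.cast_nonneg n
  have hX : (0 : ℝ) ≤ (n : ℝ) * (2 * n + 1) := by positivity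
  have hsum' : ((∑ i, (m i - 1) : ℕ) : ℝ) ≤ (1 - min ε 1) * (n * (2 * n + 1)) :=
    hsum.trans (mul_le_mul_of_nonneg_right (by linarith [min_le_left ε 1]) hX)
  have hnb : ∀ i x, nb (T i) univ x ≤ n + 1 := by
    intro i x
    unfold nb
    refine (Finset.card_le_univ _).trans ?_
    rw [Fintype.card_fin]
    exact hm i
  have hB : 2 ≤ n + 1 := by omega
  have hF : FamB n (n + 1) m T := ⟨htree, hm, hnb⟩
  obtain ⟨ι', hι', m', T', hF', hs', hpair, hPk⟩ := merge_deg hB (Fintype.card (Fin k)) (Fin k) m T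
    rfl hF
  apply hPk
  have hs2 : ∑ i, (m' i - 1) ≤ n * (2 * n + 1) := by
    rw [hs']
    have h1 : ((∑ i, (m i - 1) : ℕ) : ℝ) ≤ ((n * (2 * n + 1) : ℕ) : ℝ) := by
      refine hsum'.trans ?_
      push_cast
      have h2 : 0 < min ε 1 := lt_min hε one_pos
      nlinarith
    exact_mod_cast h1
  have hcard := card_merged m' hpair hs2
  refine s2m_reindex (Fintype.equivFin ι').symm m' T' ?_
  refine hcore n hn1 (Fintype.card ι') _ _ hcard (fun i => hF'.tree _) (fun i => hF'.ord _) ?_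
  have h1 : ∑ i, (m' ((Fintype.equivFin ι').symm i) - 1) = ∑ i, (m i - 1) := by
    rw [← hs']
    exact Equiv.sum_comp (Fintype.equivFin ι').symm (fun i => m' i - 1)
  rw [h1]
  exact hsum'

end MP_80c395_TP
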