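import Pool.Agent.Lib.MP_80c395_co_TQ.QRc
import Pool.Agent.Lib.MP_80c395_co_TQ.BaseLaw
import Pool.Agent.Lib.MP_80c395_co_TQ.MedLaw

/-!
# Project TQ: the laws of all trees

`Laws`: the laws and kernels of all trees with their properties.
`ex_laws`: for every tree `i` take `π i, κ i` from `base_law` (stub), for `z ∈ J i` take `ρ, κ1` from `slot_law`
(stub) with `u = φ i z`, `j = lb i z` (`u.1 = X i`), for `z ∈ md i` from `med_law` (stub) with `u = φ i z`; for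
`none` and the other `z` put `ρ = π i`, `κ1 = κ i`.  `κ₃ = 5 κ₄`: the number of the `w` with
`w ∈ F i ∨ w.1 = X i ∨ w.1 ∈ bt i ∨ zz v w ∨ w.1 ∈ bu u ∨ w.1 = u.1` is at most
`|Z| + card G + card G |bt i| + #zz + card G |bu u| + card G ≤ 5 κ₄ M` (`card G ≤ κ₄ M / 2` by `hq4`;
`#{w | zz v w} ≤ ∑ i, ∑ z ∈ Z, φ i z = v, nb Z z ≤ κ₄ M`, `zzd`).
`zz` is symmetric.
`dom`: `(1 + η/2) gg a0 / M ≤ (1 + η/2) / (1 - 3 η/10) * π ≤ (1 + η) π` for `w ∉ F i`, `w.1 ≠ X i`,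
`w.1 ∉ bt i`, `η ≤ 1/2`; for the other `w` all products `ρ v κ1 v w` are `0`.
-/

set_option autoImplicit false

namespace MP_80c395_TP

open Finset

/-- laws and kernels of all trees.  `bt i`, `bu u`: excluded clusters -/
structure Laws {q R : ℕ} {G : Type} [Fintype G] [DecidableEq G] (P : Par q R) (A : Plc q R G)
    (ω : Om q R) (bt : Fin A.k → Finset (Fin q)) (bu : Fin q × G → Finset (Fin q))
    (B η : ℝ) where
  π : Fin A.k → Fin q × G → ℝ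
  κ : Fin A.k → Fin q × G → Fin q × G → ℝ
  ρ : ∀ i : Fin A.k, Option (Fin (A.mm i)) → Fin q × G → ℝ
  κ1 : ∀ i : Fin A.k, Option (Fin (A.mm i)) → Fin q × G → Fin q × G → ℝ
  π0 : ∀ i v, 0 ≤ π i v
  π1 : ∀ i, ∑ v, π i v = 1
  πs : ∀ i v, π i v ≠ 0 → v ∉ A.F i ∧ v.1 ≠ A.X i ∧ v.1 ∉ bt i
  πu : ∀ i v, π i v ≤ (1 + η) * (P.gg ω (A.X i) (A.S i) v.1 * P.a0 v.1 / A.M)
  κ0 : ∀ i v w, 0 ≤ κ i v w
  κr : ∀ i v, ∑ w, κ i v w = 1
  κs : ∀ i v w, κ i v w ≠ 0 → w ∉ A.F i ∧ P.fre ω v.1 w.1 ≠ 0 ∧ ¬ A.zz v w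
  κA : ∀ i v w, κ i v w ≤ B ^ 4 / A.M
  st : ∀ i w, ∑ v, π i v * κ i v w = π i w
  πκs : ∀ i v w, π i v * κ i v w ≠ 0 → v.1 ≠ A.X i ∧ w.1 ≠ A.X i
  πκ : ∀ i v w, π i v * κ i v w ≤ (1 + η) * (P.S0 v.1 w.1 *
    (P.gg ω (A.X i) (A.S i) v.1 * P.gg ω (A.X i) (A.S i) w.1) * P.fre ω v.1 w.1 / A.M ^ 2)
  ρn : ∀ i v, ρ i none v = π i v
  κn : ∀ i v w, κ1 i none v w = κ i v w
  ρ0 : ∀ i, ∀ z ∈ (A.d i).Z, ∀ v, 0 ≤ ρ i (some z) v
  ρ1 : ∀ i, ∀ z ∈ (A.d i).Z, ∑ v, ρ i (some z) v = 1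
  k10 : ∀ i, ∀ z ∈ (A.d i).Z, ∀ v w, 0 ≤ κ1 i (some z) v w
  k1r : ∀ i, ∀ z ∈ (A.d i).Z, ∀ v, ∑ w, κ1 i (some z) v w = 1
  k1s : ∀ i, ∀ z ∈ (A.d i).Z, ∀ v w, κ1 i (some z) v w ≠ 0 →
    w ∉ A.F i ∧ P.fre ω v.1 w.1 ≠ 0 ∧ ¬ A.zz v w
  k1A : ∀ i, ∀ z ∈ (A.d i).Z, ∀ v w, κ1 i (some z) v w ≤ B ^ 4 / A.M
  dom : ∀ i, ∀ z ∈ (A.d i).Z, ∀ w, ∑ v, ρ i (some z) v * κ1 i (some z) v w ≤ (1 + η) * π i w
  sρs : ∀ i, ∀ z ∈ A.J i, ∀ v, ρ i (some z) v ≠ 0 →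
    v ∉ A.F i ∧ hit ω (A.X i) (A.lb i z) v.1 = 1 ∧ ¬ A.zz (A.φ i z) v
  sρu : ∀ i, ∀ z ∈ A.J i, ∀ v, ρ i (some z) v ≤
    (1 + η) * (2 / P.s (A.X i) (A.lb i z) * hit ω (A.X i) (A.lb i z) v.1 / A.M)
  sκs : ∀ i, ∀ z ∈ A.J i, ∀ v w, ρ i (some z) v * κ1 i (some z) v w ≠ 0 →
    v.1 ≠ A.X i ∧ w.1 ≠ A.X i
  sκ : ∀ i, ∀ z ∈ A.J i, ∀ v w, ρ i (some z) v * κ1 i (some z) v w ≤
    (1 + η) * (2 / P.s (A.X i) (A.lb i z) * (P.SX (A.X i) v.1 w.1 / P.al (A.X i) v.1) *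
      (hit ω (A.X i) (A.lb i z) v.1 * P.gg ω (A.X i) (A.S i) w.1) * P.fre ω v.1 w.1 / A.M ^ 2)
  mρs : ∀ i, ∀ z ∈ A.md i, ∀ v, ρ i (some z) v ≠ 0 → v ∉ A.F i ∧ v.1 ≠ A.X i ∧ v.1 ∉ bt i ∧
    ¬ A.zz (A.φ i z) v ∧ v.1 ∉ bu (A.φ i z) ∧ P.fre ω (A.φ i z).1 v.1 ≠ 0
  mρu : ∀ i, ∀ z ∈ A.md i, ∀ v, ρ i (some z) v ≤ (1 + η) * (P.am v.1 *
    (P.gg ω (A.X i) (A.S i) v.1 * P.fre ω (A.φ i z).1 v.1) / A.M)
  mκs : ∀ i, ∀ z ∈ A.md i, ∀ v w, ρ i (some z) v * κ1 i (some z) v w ≠ 0 →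
    v.1 ≠ A.X i ∧ w.1 ≠ A.X i ∧ w.1 ≠ (A.φ i z).1
  mκ : ∀ i, ∀ z ∈ A.md i, ∀ v w, ρ i (some z) v * κ1 i (some z) v w ≤
    (1 + η) * (P.Sm v.1 w.1 * (P.gg ω (A.X i) (A.S i) v.1 * P.fre ω (A.φ i z).1 v.1 *
      P.gg ω (A.X i) (A.S i) w.1) * P.fre ω v.1 w.1 / A.M ^ 2)

variable {q R : ℕ} {P : Par q R} {ε B : ℝ} {G : Type} [Fintype G] [DecidableEq G] [Nonempty G]

omit [Fintype G] [DecidableEq G] [Nonempty G] in
private theorem TLaw_sym (A : Plc q R G) (v w : Fin q × G) (h : A.zz v w) : A.zz w v := by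
  obtain ⟨i, x, hx, y, hy, hxy, h1, h2⟩ := h
  exact ⟨i, y, hy, x, hx, hxy.symm, h2, h1⟩

omit [Nonempty G] in
private theorem TLaw_fib (X : Fin q) :
    ((univ.filter (fun w : Fin q × G => w.1 = X)).card : ℝ) = Fintype.card G := by
  have h : univ.filter (fun w : Fin q × G => w.1 = X) = univ.image (fun g : G => (X, g)) := by
    ext ⟨a, g⟩
    simp only [mem_filter, mem_univ, true_and, mem_image, Prod.mk.injEq]
    constructor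
    · rintro rfl
      exact ⟨g, rfl, rfl⟩
    · rintro ⟨g', h1, h2⟩
      exact h1.symm
  rw [h, card_image_of_injective _ (fun a b hab => (Prod.mk.injEq _ _ _ _ ▸ hab).2), card_univ]

omit [DecidableEq G] [Nonempty G] in
private theorem TLaw_fibs (bt : Finset (Fin q)) :
    ((univ.filter (fun w : Fin q × G => w.1 ∈ bt)).card : ℝ) = bt.card * Fintype.card G := by
  have h : univ.filter (fun w : Fin q × G => w.1 ∈ bt) = bt ×ˢ (univ : Finset G) := by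
    ext ⟨a, g⟩
    simp
  rw [h, card_product, card_univ]
  push_cast
  rfl

omit [Nonempty G] in
open Classical in
private theorem TLaw_zz {A : Plc q R G} {κ₄ : ℝ}
    (hz : ∀ u, ∑ i, ∑ z ∈ (A.d i).Z.filter (fun z => A.φ i z = u), (nb (A.T i) (A.d i).Z z : ℝ) ≤
      κ₄ * A.M) (v : Fin q × G) :
    ((univ.filter (fun w : Fin q × G => A.zz v w)).card : ℝ) ≤ κ₄ * A.M := by
  refine le_trans ?_ (hz v)
  have h : univ.filter (fun w : Fin q × G => A.zz v w) ⊆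
      univ.biUnion (fun i : Fin A.k => ((A.d i).Z.filter (fun z => A.φ i z = v)).biUnion
        (fun z => ((A.d i).Z.filter (fun y => (A.T i).Adj z y)).image (A.φ i))) := by
    intro w hw
    obtain ⟨i, x, hx, y, hy, hxy, h1, h2⟩ := (mem_filter.1 hw).2
    rw [mem_biUnion]
    refine ⟨i, mem_univ _, ?_⟩
    rw [mem_biUnion]
    refine ⟨x, mem_filter.2 ⟨hx, h1⟩, ?_⟩
    rw [mem_image]
    exact ⟨y, mem_filter.2 ⟨hy, hxy⟩, h2⟩
  have h2 : (univ.filter (fun w : Fin q × G => A.zz v w)).card ≤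
      ∑ i, ∑ z ∈ (A.d i).Z.filter (fun z => A.φ i z = v), nb (A.T i) (A.d i).Z z := by
    refine (card_le_card h).trans (card_biUnion_le.trans (sum_le_sum fun i _ => ?_))
    refine card_biUnion_le.trans (sum_le_sum fun z _ => ?_)
    refine card_image_le.trans (le_of_eq ?_)
    unfold nb
    congr
  exact_mod_cast h2

omit [Nonempty G] in
open Classical in
private theorem TLaw_exc {A : Plc q R G} {κ₄ : ℝ}
    (hz : ∀ u, ∑ i, ∑ z ∈ (A.d i).Z.filter (fun z => A.φ i z = u), (nb (A.T i) (A.d i).Z z : ℝ) ≤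
      κ₄ * A.M) (hZ : ∀ i, ((A.d i).Z.card : ℝ) ≤ κ₄ * A.M) (hq4 : 2 ≤ κ₄ * q)
    {bt bu : Finset (Fin q)} (hbt : (bt.card : ℝ) ≤ κ₄ * q) (hbu : (bu.card : ℝ) ≤ κ₄ * q)
    (i : Fin A.k) (X Y : Fin q) (v : Fin q × G) :
    ((univ.filter (fun w : Fin q × G => w ∈ A.F i ∨ w.1 = X ∨ w.1 ∈ bt ∨ A.zz v w ∨
      w.1 ∈ bu ∨ w.1 = Y)).card : ℝ) ≤ 5 * κ₄ * (q * Fintype.card G) := by
  have hM : A.M = (q : ℝ) * Fintype.card G := rfl
  have hG : (0 : ℝ) ≤ Fintype.card G := Nat.cast_nonneg _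
  have c1 : ((univ.filter (fun w : Fin q × G => w ∈ A.F i)).card : ℝ) ≤ κ₄ * A.M := by
    refine le_trans ?_ (hZ i)
    have : univ.filter (fun w : Fin q × G => w ∈ A.F i) = A.F i := by
      ext w
      simp
    rw [this]
    exact_mod_cast card_image_le
  have c2 := TLaw_fib (G := G) X
  have c3 := TLaw_fibs (G := G) bt
  have c4 := TLaw_zz hz v
  have c5 := TLaw_fibs (G := G) bu
  have c6 := TLaw_fib (G := G) Y
  have h : univ.filter (fun w : Fin q × G => w ∈ A.F i ∨ w.1 = X ∨ w.1 ∈ bt ∨ A.zz v w ∨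
      w.1 ∈ bu ∨ w.1 = Y) ⊆
      univ.filter (fun w : Fin q × G => w ∈ A.F i) ∪
      (univ.filter (fun w : Fin q × G => w.1 = X) ∪
      (univ.filter (fun w : Fin q × G => w.1 ∈ bt) ∪
      (univ.filter (fun w : Fin q × G => A.zz v w) ∪
      (univ.filter (fun w : Fin q × G => w.1 ∈ bu) ∪
      univ.filter (fun w : Fin q × G => w.1 = Y))))) := by
    intro w hw
    simpa only [mem_union, mem_filter, mem_univ, true_and] using hw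
  have h2 := card_le_card h
  have h3 : ∀ s t : Finset (Fin q × G), ((s ∪ t).card : ℝ) ≤ s.card + t.card := fun s t => by
    exact_mod_cast card_union_le s t
  have h4 := (Nat.cast_le (α := ℝ)).2 h2
  have h5 := h3 (univ.filter (fun w : Fin q × G => w ∈ A.F i))
      (univ.filter (fun w : Fin q × G => w.1 = X) ∪
      (univ.filter (fun w : Fin q × G => w.1 ∈ bt) ∪
      (univ.filter (fun w : Fin q × G => A.zz v w) ∪
      (univ.filter (fun w : Fin q × G => w.1 ∈ bu) ∪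
      univ.filter (fun w : Fin q × G => w.1 = Y)))))
  have h6 := h3 (univ.filter (fun w : Fin q × G => w.1 = X))
      (univ.filter (fun w : Fin q × G => w.1 ∈ bt) ∪
      (univ.filter (fun w : Fin q × G => A.zz v w) ∪
      (univ.filter (fun w : Fin q × G => w.1 ∈ bu) ∪
      univ.filter (fun w : Fin q × G => w.1 = Y))))
  have h7 := h3 (univ.filter (fun w : Fin q × G => w.1 ∈ bt))
      (univ.filter (fun w : Fin q × G => A.zz v w) ∪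
      (univ.filter (fun w : Fin q × G => w.1 ∈ bu) ∪
      univ.filter (fun w : Fin q × G => w.1 = Y)))
  have h8 := h3 (univ.filter (fun w : Fin q × G => A.zz v w))
      (univ.filter (fun w : Fin q × G => w.1 ∈ bu) ∪
      univ.filter (fun w : Fin q × G => w.1 = Y))
  have h9 := h3 (univ.filter (fun w : Fin q × G => w.1 ∈ bu))
      (univ.filter (fun w : Fin q × G => w.1 = Y))
  have d1 : (Fintype.card G : ℝ) * 2 ≤ Fintype.card G * (κ₄ * q) :=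
    mul_le_mul_of_nonneg_left hq4 hG
  have d2 : (bt.card : ℝ) * Fintype.card G ≤ κ₄ * q * Fintype.card G :=
    mul_le_mul_of_nonneg_right hbt hG
  have d3 : (bu.card : ℝ) * Fintype.card G ≤ κ₄ * q * Fintype.card G :=
    mul_le_mul_of_nonneg_right hbu hG
  rw [hM] at c1 c4
  linarith

private theorem TLaw_dom {η g a : ℝ} (h0 : 0 ≤ η) (hη : η ≤ 1 / 2) (ha : 0 ≤ a)
    (h : (1 - 3 * η / 10) * g ≤ a) : (1 + η / 2) * g ≤ (1 + η) * a := by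
  rcases le_total 0 g with hg | hg
  · have h1 : (1 + η) * ((1 - 3 * η / 10) * g) ≤ (1 + η) * a :=
      mul_le_mul_of_nonneg_left h (by linarith)
    have h2 : (1 + η / 2) * g ≤ (1 + η) * ((1 - 3 * η / 10) * g) := by
      have h3 : 0 ≤ η * (2 - 3 * η) * g := mul_nonneg (mul_nonneg h0 (by linarith)) hg
      nlinarith
    linarith
  · have h1 : (1 + η / 2) * g ≤ 0 := mul_nonpos_of_nonneg_of_nonpos (by linarith) hg
    have h2 : 0 ≤ (1 + η) * a := mul_nonneg (by linarith) ha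
    linarith

theorem ex_laws (hP : ParOK P ε B) {A : Plc q R G} {D₁ D K Λ : ℕ} {ε₂ γ κ₄ δ₅ γh : ℝ}
    {bm : Fin q → ℝ} (hA : PlcOK A P D₁ D K Λ B ε₂ γ κ₄ δ₅ γh bm) {ω : Om q R} {θ θc η : ℝ}
    (hω : QRc P A B θ θc γ ω) (bt : Fin A.k → Finset (Fin q))
    (bu : Fin q × G → Finset (Fin q)) (hbt : ∀ i, ((bt i).card : ℝ) ≤ κ₄ * q)
    (hbu : ∀ u, ((bu u).card : ℝ) ≤ κ₄ * q) (hγ : 0 < γ) (hγ1 : γ ≤ 1) (hq : 2 * B ≤ θ * q)
    (hq4 : 2 ≤ κ₄ * q) (hκ : B ^ 3 * (5 * κ₄) ≤ θ) (hθ : 30 * θ ≤ η * ε) (hη : η ≤ 1 / 2)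
    (hθB : 6 * B * θ ≤ 1) : Nonempty (Laws P A ω bt bu B η) := by
  classical
  have hM : A.M = (q : ℝ) * Fintype.card G := rfl
  have hB0 : 0 < B := lt_of_lt_of_le (div_pos (by norm_num) hP.ε0) hP.Bε
  have hq0 : (0 : ℝ) < q := by exact_mod_cast hP.q0
  have hθ0 : 0 < θ := by
    by_contra hc
    have : θ * q ≤ 0 := mul_nonpos_of_nonpos_of_nonneg (not_lt.1 hc) hq0.le
    linarith
  have hη0 : 0 ≤ η := by
    by_contra hc
    have : η * ε ≤ 0 := mul_nonpos_of_nonpos_of_nonneg (not_le.1 hc).le hP.ε0.le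
    linarith
  have hexc : ∀ (i : Fin A.k) (u v : Fin q × G),
      ((univ.filter (fun w : Fin q × G => w ∈ A.F i ∨ w.1 = A.X i ∨ w.1 ∈ bt i ∨ A.zz v w ∨
        w.1 ∈ bu u ∨ w.1 = u.1)).card : ℝ) ≤ 5 * κ₄ * (q * Fintype.card G) := fun i u v => by
    have := TLaw_exc hA.zzd hA.Zc hq4 (hbt i) (hbu u) i (A.X i) u.1 v
    convert this
  have hexc' : ∀ (i : Fin A.k) (v : Fin q × G),
      ((univ.filter (fun w : Fin q × G => w ∈ A.F i ∨ w.1 = A.X i ∨ w.1 ∈ bt i ∨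
        A.zz v w)).card : ℝ) ≤ 5 * κ₄ * (q * Fintype.card G) := fun i v => by
    refine le_trans ?_ (hexc i v v)
    have h1 : (univ.filter (fun w : Fin q × G => w ∈ A.F i ∨ w.1 = A.X i ∨ w.1 ∈ bt i ∨
        A.zz v w)).card ≤ (univ.filter (fun w : Fin q × G => w ∈ A.F i ∨ w.1 = A.X i ∨
        w.1 ∈ bt i ∨ A.zz v w ∨ w.1 ∈ bu v ∨ w.1 = v.1)).card := by
      refine card_le_card (fun w hw => ?_)
      simp only [mem_filter, mem_univ, true_and] at hw ⊢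
      tauto
    exact_mod_cast h1
  have hbase := fun i => base_law hP ω (hA.vd i) (A.F i) (bt i) A.zz (TLaw_sym A)
    (fun V hV => hω.r0 (A.X i) V (A.S i) (Ne.symm hV) (hA.vd i)) (hω.h9 _ _ (hA.vd i)) hω.h8 hq
    (fun v => hexc' i v) hκ hθ hη hθB
  choose π κ b0 b1 b2 b3 b4 b5 b6 b7 b8 b9 b10 b11 using hbase
  have hall : ∀ (i : Fin A.k) (z : Fin (A.mm i)),
      ∃ (ρ : Fin q × G → ℝ) (κ' : Fin q × G → Fin q × G → ℝ),
      (z ∈ (A.d i).Z → (∀ v, 0 ≤ ρ v) ∧ ∑ v, ρ v = 1 ∧ (∀ v w, 0 ≤ κ' v w) ∧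
        (∀ v, ∑ w, κ' v w = 1) ∧
        (∀ v w, κ' v w ≠ 0 → w ∉ A.F i ∧ P.fre ω v.1 w.1 ≠ 0 ∧ ¬ A.zz v w) ∧
        (∀ v w, κ' v w ≤ B ^ 4 / (q * Fintype.card G)) ∧
        (∀ w, ∑ v, ρ v * κ' v w ≤ (1 + η) * π i w)) ∧
      (z ∈ A.J i → (∀ v, ρ v ≠ 0 →
          v ∉ A.F i ∧ hit ω (A.X i) (A.lb i z) v.1 = 1 ∧ ¬ A.zz (A.φ i z) v) ∧
        (∀ v, ρ v ≤
          (1 + η) * (2 / P.s (A.X i) (A.lb i z) * hit ω (A.X i) (A.lb i z) v.1 /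
            (q * Fintype.card G))) ∧
        (∀ v w, ρ v * κ' v w ≠ 0 → v.1 ≠ A.X i ∧ w.1 ≠ A.X i) ∧
        (∀ v w, ρ v * κ' v w ≤
          (1 + η) * (2 / P.s (A.X i) (A.lb i z) * (P.SX (A.X i) v.1 w.1 / P.al (A.X i) v.1) *
          (hit ω (A.X i) (A.lb i z) v.1 * P.gg ω (A.X i) (A.S i) w.1) * P.fre ω v.1 w.1 /
            (q * Fintype.card G) ^ 2))) ∧
      (z ∈ A.md i → (∀ v, ρ v ≠ 0 → v ∉ A.F i ∧ v.1 ≠ A.X i ∧ v.1 ∉ bt i ∧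
          ¬ A.zz (A.φ i z) v ∧ v.1 ∉ bu (A.φ i z) ∧ P.fre ω (A.φ i z).1 v.1 ≠ 0) ∧
        (∀ v, ρ v ≤ (1 + η) * (P.am v.1 *
          (P.gg ω (A.X i) (A.S i) v.1 * P.fre ω (A.φ i z).1 v.1) / (q * Fintype.card G))) ∧
        (∀ v w, ρ v * κ' v w ≠ 0 → v.1 ≠ A.X i ∧ w.1 ≠ A.X i ∧ w.1 ≠ (A.φ i z).1) ∧
        (∀ v w, ρ v * κ' v w ≤
          (1 + η) * (P.Sm v.1 w.1 * (P.gg ω (A.X i) (A.S i) v.1 * P.fre ω (A.φ i z).1 v.1 *
            P.gg ω (A.X i) (A.S i) w.1) * P.fre ω v.1 w.1 / (q * Fintype.card G) ^ 2))) := by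
    intro i z
    have hdom : ∀ (ρ : Fin q × G → ℝ) (κ' : Fin q × G → Fin q × G → ℝ),
        (∀ v w, ρ v * κ' v w ≠ 0 → w ∉ A.F i ∧ w.1 ≠ A.X i ∧ w.1 ∉ bt i) →
        (∀ w, ∑ v, ρ v * κ' v w ≤
          (1 + η / 2) * (P.gg ω (A.X i) (A.S i) w.1 * P.a0 w.1 / (q * Fintype.card G))) →
        ∀ w, ∑ v, ρ v * κ' v w ≤ (1 + η) * π i w := by
      intro ρ κ' h1 h2 w
      by_cases hw : w ∉ A.F i ∧ w.1 ≠ A.X i ∧ w.1 ∉ bt i
      · exact (h2 w).trans (TLaw_dom hη0 hη (b0 i w) (b4 i w hw.1 hw.2.1 hw.2.2))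
      · have h3 : ∑ v, ρ v * κ' v w = 0 :=
          sum_eq_zero (fun v _ => by
            by_contra hc
            exact hw (h1 v w hc))
        rw [h3]
        exact mul_nonneg (by linarith) (b0 i w)
    by_cases hJ : z ∈ A.J i
    · obtain ⟨ρ, κ', a0, a1, a2, a3, a4, a5, a6, a7, a8, a9, a10⟩ :=
        slot_law hP ω (hA.vd i) (A.F i) (bt i) A.zz (A.φ i z) (A.lb i z) hγ hγ1 (hA.sγ i z hJ)
        (fun V hV => hω.rX (A.X i) V (A.S i) (Ne.symm hV) (hA.vd i)) (hω.h2 i z hJ)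
        (fun W hW => hω.h3 (A.X i) (A.lb i z) W hW) hω.h8 hq (fun v => hexc' i v) hκ hθ hη hθB
      refine ⟨ρ, κ', fun _ => ⟨a0, a1, a4, a5, a6, a7, ?_⟩, fun _ => ⟨a2, a3, ?_, a10⟩, ?_⟩
      · exact hdom ρ κ' (fun v w h => ⟨(a8 v w h).1, (a8 v w h).2.2.1, (a8 v w h).2.2.2⟩) a9
      · exact fun v w h => ⟨(a8 v w h).2.1, (a8 v w h).2.2.1⟩
      · exact fun h => absurd hJ (mem_sdiff.1 h).2
    · by_cases hm : z ∈ A.md i
      · have hX := hA.MX i z hm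
        obtain ⟨ρ, κ', a0, a1, a2, a3, a4, a5, a6, a7, a8, a9, a10⟩ :=
          med_law hP ω (hA.vd i) (A.F i) (bt i) (bu (A.φ i z)) A.zz (A.φ i z) hX
          (hω.ra (A.X i) (A.φ i z).1 (A.S i) (Ne.symm hX) (hA.vd i))
          (fun V hV => hω.rm (A.X i) V (A.S i) (Ne.symm hV) (hA.vd i))
          (fun W hW hW' => hω.h4 (A.X i) (A.φ i z).1 W (A.S i) (Ne.symm hX) (Ne.symm hW)
            (Ne.symm hW') (hA.vd i)) hω.h8 hq (fun v => hexc i (A.φ i z) v) hκ hθ hη hθB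
        refine ⟨ρ, κ', fun _ => ⟨a0, a1, a4, a5, a6, a7, ?_⟩, fun h => absurd h hJ,
          fun _ => ⟨a2, a3, ?_, a10⟩⟩
        · exact hdom ρ κ' (fun v w h =>
            ⟨(a8 v w h).1, (a8 v w h).2.2.1, (a8 v w h).2.2.2.1⟩) a9
        · exact fun v w h => ⟨(a8 v w h).2.1, (a8 v w h).2.2.1, (a8 v w h).2.2.2.2⟩
      · refine ⟨0, 0, fun h => absurd (mem_sdiff.2 ⟨h, hJ⟩) hm, fun h => absurd h hJ,
          fun h => absurd h hm⟩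
  choose ρ κ' c1 c2 c3 using hall
  exact ⟨{
    π := π
    κ := κ
    ρ := fun i o v => match o with
      | none => π i v
      | some z => ρ i z v
    κ1 := fun i o v w => match o with
      | none => κ i v w
      | some z => κ' i z v w
    π0 := b0
    π1 := b1
    πs := b2
    πu := b3
    κ0 := b5
    κr := b6
    κs := b7
    κA := b8
    st := b9
    πκs := b10
    πκ := b11
    ρn := fun _ _ => rfl
    κn := fun _ _ _ => rfl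
    ρ0 := fun i z hz => (c1 i z hz).1
    ρ1 := fun i z hz => (c1 i z hz).2.1
    k10 := fun i z hz => (c1 i z hz).2.2.1
    k1r := fun i z hz => (c1 i z hz).2.2.2.1
    k1s := fun i z hz => (c1 i z hz).2.2.2.2.1
    k1A := fun i z hz => (c1 i z hz).2.2.2.2.2.1
    dom := fun i z hz => (c1 i z hz).2.2.2.2.2.2
    sρs := fun i z hz => (c2 i z hz).1
    sρu := fun i z hz => (c2 i z hz).2.1
    sκs := fun i z hz => (c2 i z hz).2.2.1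
    sκ := fun i z hz => (c2 i z hz).2.2.2
    mρs := fun i z hz => (c3 i z hz).1
    mρu := fun i z hz => (c3 i z hz).2.1
    mκs := fun i z hz => (c3 i z hz).2.2.1
    mκ := fun i z hz => (c3 i z hz).2.2.2 }⟩

end MP_80c395_TP
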