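import Pool.Agent.Lib.MP_80c395_co_TQ.ExDecJ
import Pool.Agent.Lib.MP_80c395_co_TQ.Plc

/-!
# Project TQ: decomposition of one tree, counts

`tree_dec`: `H = {x | h ≤ nb T univ x}`, `J` the closure of `H` (`ex_closure`), `|J| ≤ 2 |H|`, `h |H| ≤ 2 m`
(`big_count`), so `h |J| ≤ 4 m`, and `D |J| ≤ m` as `4 D ≤ h` (`4 D |J| ≤ h |J| ≤ 4 m`).  `exists_dec_J`.

`dec_counts`: let `Σ sz ≤ m` (`(t, j) ↦ sg t j` is injective, `inj`).
1. `∑ z ∈ Z, ac z + n0` is the number `np` of pieces (`att_Z`), and `np + nr = ∑ t, sz t` (`pos`).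
2. `∑ z ∈ Z, (ac z + cz z) + dp = ∑ t attached, (1 + chn t + (sz t - 1 - chn t)) + ∑ t unattached, (sz t - 1)
   ≤ ∑ t, sz t` (`chn t ≤ sz t - 1`: the root does not count).
3. the roots of the pieces attached to `z` are different neighbours of `z` (`att_adj`, `inj`).
4., 5. `sum_nb_le` (S1Plc.lean) with `deg1`, `deg2`.
-/

set_option autoImplicit false

namespace MP_80c395_TP

open Finset

theorem tree_dec {m : ℕ} {T : SimpleGraph (Fin m)} (hT : T.IsTree) (D₁ D K h : ℕ)
    (hD : D₁ ≤ D) (hh : 4 * D ≤ h) (hD0 : 1 ≤ D) :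
    ∃ (d : Dec m) (J : Finset (Fin m)), DecOK T d D₁ D K ∧ J ⊆ d.Z ∧ h * J.card ≤ 4 * m ∧
      (∀ x, x ∉ J → nb T J x ≤ 1) ∧ ∀ x, x ∉ J → nb T univ x < h := by
  classical
  obtain ⟨J, hHJ, hJc, hJn⟩ := ex_closure hT (univ.filter (fun x => h ≤ nb T univ x))
  have hbc := big_count hT h
  have h1 : h * J.card ≤ 4 * m := by
    have h2 := Nat.mul_le_mul_left h hJc
    have h3 : h * (2 * (univ.filter (fun x => h ≤ nb T univ x)).card) =
        2 * (h * (univ.filter (fun x => h ≤ nb T univ x)).card) := by ring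
    omega
  have h4 : D * J.card ≤ m := by
    have h5 : 4 * D * J.card ≤ h * J.card := Nat.mul_le_mul_right _ hh
    have h6 : 4 * D * J.card = 4 * (D * J.card) := by ring
    omega
  obtain ⟨d, hd, hJZ⟩ := exists_dec_J hT D₁ D K hD J h4
  refine ⟨d, J, hd, hJZ, h1, hJn, fun x hx => ?_⟩
  by_contra hlt
  exact hx (hHJ (mem_filter.2 ⟨mem_univ _, not_lt.1 hlt⟩))

private theorem TreeD_ac {m : ℕ} {T : SimpleGraph (Fin m)} {d : Dec m} {D₁ D K : ℕ}
    (h : DecOK T d D₁ D K) (z : Fin m) : ac d z ≤ nb T univ z := by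
  classical
  unfold ac nb
  refine Finset.card_le_card_of_injOn (fun t => d.sg t (d.rt t)) ?_ ?_
  · intro t ht
    have h1 : d.att t = some z := by simpa using ht
    simpa using (h.att_adj t z h1).symm
  · intro t _ t' _ hh
    exact (h.inj t (d.rt t) t' (d.rt t') hh).1

private theorem TreeD_sz {m : ℕ} {T : SimpleGraph (Fin m)} {d : Dec m} {D₁ D K : ℕ}
    (h : DecOK T d D₁ D K) : ∑ t, d.sz t ≤ m := by
  classical
  have h1 : Fintype.card (Σ t : Fin d.np, Fin (d.sz t)) ≤ Fintype.card (Fin m) := by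
    refine Fintype.card_le_of_injective (fun x => d.sg x.1 x.2) ?_
    rintro ⟨t, j⟩ ⟨t', j'⟩ hh
    obtain ⟨h2, h3⟩ := h.inj t j t' j' hh
    subst h2
    have h4 : j = j' := Fin.ext h3
    rw [h4]
  rw [Fintype.card_sigma] at h1
  simpa using h1

private theorem TreeD_split {m : ℕ} {T : SimpleGraph (Fin m)} {d : Dec m} {D₁ D K : ℕ}
    (h : DecOK T d D₁ D K) (f : Fin d.np → ℕ) :
    ∑ z ∈ d.Z, ∑ t ∈ univ.filter (fun t => d.att t = some z), f t =
      ∑ t, if d.att t = none then 0 else f t := by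
  classical
  have h1 : ∀ z, ∑ t ∈ univ.filter (fun t => d.att t = some z), f t =
      ∑ t, if d.att t = some z then f t else 0 := fun z => Finset.sum_filter _ _
  rw [Finset.sum_congr rfl fun z _ => h1 z, Finset.sum_comm]
  refine Finset.sum_congr rfl fun t _ => ?_
  rcases ht : d.att t with _ | z
  · simp
  · have hz := h.att_Z t z ht
    rw [if_neg (by simp)]
    rw [Finset.sum_eq_single z]
    · simp
    · intro b _ hb
      rw [if_neg]
      intro h2
      exact hb (Option.some.inj h2).symm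
    · intro h2
      exact absurd hz h2

private theorem TreeD_chn {m : ℕ} (d : Dec m) (t : Fin d.np) : chn d t + 1 ≤ d.sz t := by
  classical
  unfold chn
  have h1 : (univ.filter (fun j : Fin (d.sz t) => 0 < j.val ∧ (d.pr t j).val = 0)).card <
      (univ : Finset (Fin (d.sz t))).card := by
    refine Finset.card_lt_card ?_
    rw [Finset.ssubset_univ_iff]
    intro h2
    have h3 : d.rt t ∈ univ.filter (fun j : Fin (d.sz t) => 0 < j.val ∧ (d.pr t j).val = 0) := by
      rw [h2]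
      exact mem_univ _
    have h4 := (mem_filter.1 h3).2.1
    exact absurd h4 (lt_irrefl 0)
  rw [Finset.card_univ, Fintype.card_fin] at h1
  exact h1

theorem dec_counts {m : ℕ} {T : SimpleGraph (Fin m)} {d : Dec m} {D₁ D K : ℕ}
    (hd : DecOK T d D₁ D K) :
    ∑ z ∈ d.Z, ac d z + n0 d + nr d ≤ m ∧
    ∑ z ∈ d.Z, (ac d z + cz d z) + dp d ≤ m ∧
    (∀ z, ac d z ≤ nb T univ z) ∧
    ∑ z ∈ d.Z, nb T d.C1 z ≤ d.C1.card * D ∧
    ∑ z ∈ d.Z, nb T d.C2 z ≤ d.C2.card * D₁ := by
  classical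
  have hsz := TreeD_sz hd
  have hac : ∀ z, ac d z = ∑ t ∈ univ.filter (fun t => d.att t = some z), 1 := fun z => by
    unfold ac
    rw [Finset.card_eq_sum_ones]
  refine ⟨?_, ?_, TreeD_ac hd, sum_nb_le T d.Z d.C1 D hd.deg1, sum_nb_le T d.Z d.C2 D₁ hd.deg2⟩
  · rw [Finset.sum_congr rfl fun z _ => hac z, TreeD_split hd (fun _ => 1)]
    unfold n0 nr
    rw [Finset.card_filter, ← Finset.sum_add_distrib, ← Finset.sum_add_distrib]
    refine le_trans (Finset.sum_le_sum fun t _ => ?_) hsz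
    have := d.pos t
    split_ifs
    · omega
    · omega
  · have h1 : ∀ z, ac d z + cz d z =
        ∑ t ∈ univ.filter (fun t => d.att t = some z), (1 + chn d t) := fun z => by
      rw [hac z]
      unfold cz
      rw [← Finset.sum_add_distrib]
    rw [Finset.sum_congr rfl fun z _ => h1 z, TreeD_split hd (fun t => 1 + chn d t)]
    unfold dp
    rw [← Finset.sum_add_distrib]
    refine le_trans (Finset.sum_le_sum fun t _ => ?_) hsz
    have h2 := TreeD_chn d t
    split_ifs
    · omega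
    · omega

end MP_80c395_TP
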