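import Pool.Agent.Lib.MP_80c395_co_TQ.Mk2
import Pool.Agent.Lib.MP_80c395_co_TQ.BadS

/-!
# Project TQ: use of the host edges

Let `V = v.1`, `W = w.1`, `M = A.M`.
If `fre ω V W = 0` then `sH = lH = 0` in both directions: `cz * (ρ κ1) ≠ 0` or `π κ ≠ 0` implies `fre ω V W ≠ 0`
(`k1s, κs`, `fre_comm`); `ρ i (some z) w ≠ 0` with `φ z = v`: for `z ∈ md` `fre ω V W ≠ 0` (`mρs`), for `z ∈ J` we get
`own ≠ none` by `sρs`, `ho3`.  So the sum is `0 ≤ 1 - ε₂ / 2`.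
Now let `fre ω V W ≠ 0`, so `V ≠ W`, `fre * pf = 1`, `fre ≥ 1` (`fre_val`, `pf_le`).
* `sH v w ≤ (1 + η) am W fre (bm V + κ₅)`: slots at `v` have `X i = V`, `ρ w ≠ 0` would give `hit ω V _ W = 1`,
  `fre = 0`.  Medium centres at `v`: if `W ∈ bho v` all `ρ w = 0`; otherwise
  `∑ i, ∑ z ∈ md, φ z = v, ac z ρ w ≤ (1 + η) am W fre / M * ∑ i, ∑ z, ac z gg_i W ≤
  (1 + η) am W fre / M * (∑ i, ∑ z, ac z + κ₅ M)` and `star`.
* slots in `lH v w`: nonzero terms have `X i ≠ V, W` (`sκs`), so by `sκ`, `e1` at most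
  `(1 + η) fre ((∑ i, (∑ z ∈ J, cz) SX (X i) V W) / M^2 + θ)`.
* medium centres in `lH v w`: nonzero terms have `X i ≠ V, W`, `(φ z).1 ≠ W` (`mκs`) and `(φ z).1 ≠ V`
  (`fre ω V V = 0`), so by `mκ`, `e2` at most `(1 + η) fre Sm V W ((∑ i, ∑ z ∈ md, cz) / M^2 + θ)`.
* the last terms: `≤ (1 + η)^2 fre S0 V W ((∑ i, dp) / M^2 + θ)` by `πκs`, `πκ`, `e0`.
Together (both directions, `S0` symmetric, `am ≤ 2`, `S0, Sm ≤ B`)
`≤ (1 + η)^2 fre (massE-sum + 4 κ₅ + 2 θ + 2 B θ + 2 B θ) ≤ (1 + 3 η) fre (pf - ε₂ + 4 κ₅ + 5 B θ) ≤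
(1 + 3 η) (1 - ε₂ + 4 κ₅ + 5 B θ) ≤ 1 - ε₂ / 2`.
-/

set_option autoImplicit false

namespace MP_80c395_TP

open Finset

variable {q R : ℕ} {P : Par q R} {ε B : ℝ} {G : Type} [Fintype G] [DecidableEq G] [Nonempty G]
  {A : Plc q R G} {ω : Om q R} {η κ₅ : ℝ}

private theorem UseE_num {f p η κ₅ θ B ε₂ a a' b c S1 S2 mv mw bv bw x1 x2 x3 x4 : ℝ}
    (hη : 0 ≤ η) (hη1 : η ≤ 1 / 2) (hκ₅ : 0 ≤ κ₅) (hθ : 0 ≤ θ) (hε₂ : 0 ≤ ε₂)
    (hε₂1 : ε₂ ≤ 1) (hB : 4 ≤ B) (hnum : 3 * η + 4 * κ₅ + 5 * B * θ ≤ ε₂ / 2)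
    (hf0 : 0 ≤ f) (hfp : f * p = 1) (hp : p ≤ 1)
    (hmv0 : 0 ≤ mv) (hmw0 : 0 ≤ mw) (hmv : mv ≤ 2) (hmw : mw ≤ 2) (hbv : 0 ≤ bv)
    (hbw : 0 ≤ bw)
    (h1 : x1 ≤ (1 + η) * (f * (mw * (bv + κ₅))))
    (h2 : x2 ≤ (1 + η) * (f * (mv * (bw + κ₅))))
    (h3 : x3 ≤ (1 + η) ^ 2 * (f * (a + S1 * b + c + (θ + 2 * B * θ))))
    (h4 : x4 ≤ (1 + η) ^ 2 * (f * (a' + S2 * b + c + (θ + 2 * B * θ))))
    (h5 : bv * mw + bw * mv + 2 * c + (a + a') + b * (S1 + S2) ≤ p - ε₂) :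
    x1 + x2 + x3 + x4 ≤ 1 - ε₂ / 2 := by
  have hBθ : 0 ≤ B * θ := mul_nonneg (by linarith) hθ
  have hs : (1 + η) ≤ (1 + η) ^ 2 := by nlinarith
  have k1 : (1 + η) * (f * (mw * (bv + κ₅))) ≤ (1 + η) ^ 2 * (f * (mw * (bv + κ₅))) :=
    mul_le_mul_of_nonneg_right hs (by positivity)
  have k2 : (1 + η) * (f * (mv * (bw + κ₅))) ≤ (1 + η) ^ 2 * (f * (mv * (bw + κ₅))) :=
    mul_le_mul_of_nonneg_right hs (by positivity)
  have k3 : mw * κ₅ ≤ 2 * κ₅ := mul_le_mul_of_nonneg_right hmw hκ₅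
  have k4 : mv * κ₅ ≤ 2 * κ₅ := mul_le_mul_of_nonneg_right hmv hκ₅
  have k5 : 2 * θ ≤ B * θ := mul_le_mul_of_nonneg_right (by linarith) hθ
  have k6 : mw * (bv + κ₅) + mv * (bw + κ₅) + (a + S1 * b + c + (θ + 2 * B * θ)) +
      (a' + S2 * b + c + (θ + 2 * B * θ)) ≤ p - ε₂ + (4 * κ₅ + 5 * B * θ) := by
    have e1 : mw * (bv + κ₅) + mv * (bw + κ₅) + (a + S1 * b + c + (θ + 2 * B * θ)) +
      (a' + S2 * b + c + (θ + 2 * B * θ)) =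
      (bv * mw + bw * mv + 2 * c + (a + a') + b * (S1 + S2)) + mw * κ₅ + mv * κ₅ +
        2 * θ + 4 * (B * θ) := by ring
    rw [e1]
    linarith
  have hf1 : 1 ≤ f := by
    have k := mul_le_mul_of_nonneg_left hp hf0
    linarith
  have hE : 0 ≤ ε₂ - (4 * κ₅ + 5 * B * θ) := by linarith
  have k7 : f * (p - ε₂ + (4 * κ₅ + 5 * B * θ)) ≤ 1 - ε₂ + (4 * κ₅ + 5 * B * θ) := by
    have k8 := mul_le_mul_of_nonneg_right hf1 hE
    have e1 : f * (p - ε₂ + (4 * κ₅ + 5 * B * θ)) =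
      f * p - f * (ε₂ - (4 * κ₅ + 5 * B * θ)) := by ring
    rw [e1, hfp]
    linarith
  have k9 := mul_le_mul_of_nonneg_left ((mul_le_mul_of_nonneg_left k6 hf0).trans k7)
    (sq_nonneg (1 + η))
  have k10 : (1 + η) ^ 2 * (1 - ε₂ + (4 * κ₅ + 5 * B * θ)) ≤ 1 - ε₂ / 2 := by
    have k11 : (1 + η) ^ 2 ≤ 1 + 3 * η := by nlinarith
    have k12 : 0 ≤ 1 - ε₂ + (4 * κ₅ + 5 * B * θ) := by linarith
    have k13 := mul_le_mul_of_nonneg_right k11 k12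
    have k14 : 1 - ε₂ + (4 * κ₅ + 5 * B * θ) ≤ 1 := by linarith
    have k15 := mul_le_mul_of_nonneg_left k14 (show (0 : ℝ) ≤ 3 * η by linarith)
    have e1 : (1 + 3 * η) * (1 - ε₂ + (4 * κ₅ + 5 * B * θ)) =
      (1 - ε₂ + (4 * κ₅ + 5 * B * θ)) + 3 * η * (1 - ε₂ + (4 * κ₅ + 5 * B * θ)) := by ring
    rw [e1] at k13
    linarith
  have k16 : (1 + η) ^ 2 * (f * (mw * (bv + κ₅) + mv * (bw + κ₅) +
      (a + S1 * b + c + (θ + 2 * B * θ)) + (a' + S2 * b + c + (θ + 2 * B * θ)))) =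
      (1 + η) ^ 2 * (f * (mw * (bv + κ₅))) + (1 + η) ^ 2 * (f * (mv * (bw + κ₅))) +
      (1 + η) ^ 2 * (f * (a + S1 * b + c + (θ + 2 * B * θ))) +
      (1 + η) ^ 2 * (f * (a' + S2 * b + c + (θ + 2 * B * θ))) := by ring
  rw [k16] at k9
  linarith

omit [DecidableEq G] in
private theorem UseE_M (A : Plc q R G) (hP : ParOK P ε B) : 0 < A.M := by
  have hq0 : (0 : ℝ) < q := by exact_mod_cast hP.q0
  have hG0 : (0 : ℝ) < Fintype.card G := by exact_mod_cast Fintype.card_pos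
  exact mul_pos hq0 hG0

/-- use of the host edge by edges from centres at `v` -/
private theorem UseE_sH (hP : ParOK P ε B) {D₁ D K Λ : ℕ} {ε₂ γ κ₄ δ₅ γh : ℝ} {bm : Fin q → ℝ}
    (hA : PlcOK A P D₁ D K Λ B ε₂ γ κ₄ δ₅ γh bm)
    (L : Laws P A ω (btr P A ω κ₅) (bho P A ω κ₅) B η) (hη : 0 ≤ η) (hκ₅ : 0 ≤ κ₅) {r : ℕ}
    (own : Sym2 ((Fin q × G) ⊕ Fin r) → Option (Fin A.k))
    (ho3 : ∀ i, ∀ z ∈ A.J i, ∀ v, hit ω (A.X i) (A.lb i z) v.1 = 1 → ¬ A.zz (A.φ i z) v →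
        own s(Sum.inl (A.φ i z), Sum.inl v) = some i) (v w : Fin q × G)
    (h : own s(Sum.inl v, Sum.inl w) = none) :
    sH L v w ≤ (1 + η) * (P.fre ω v.1 w.1 * (P.am w.1 * (bm v.1 + κ₅))) := by
  have hM : 0 < A.M := UseE_M A hP
  have hf0 : 0 ≤ P.fre ω v.1 w.1 := (fre_bd hP ω v.1 w.1).1
  have ham : 0 ≤ P.am w.1 := hP.ε0.le.trans (hP.am_lo w.1)
  have hbm : 0 ≤ bm v.1 := hA.bm0 v.1
  have h1 : sH L v w = ∑ i, ∑ z ∈ (A.md i).filter (fun z => A.φ i z = v),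
      (ac (A.d i) z : ℝ) * L.ρ i (some z) w := by
    unfold sH
    refine sum_congr rfl fun i _ => ?_
    symm
    refine sum_subset ?_ ?_
    · intro z hz
      rw [mem_filter] at hz ⊢
      exact ⟨(mem_sdiff.1 hz.1).1, hz.2⟩
    · intro z hz hz'
      rw [mem_filter] at hz hz'
      have hJ : z ∈ A.J i := by
        by_contra hJ
        exact hz' ⟨mem_sdiff.2 ⟨hz.1, hJ⟩, hz.2⟩
      have h0 : L.ρ i (some z) w = 0 := by
        by_contra hne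
        obtain ⟨_, h2, h3⟩ := L.sρs i z hJ w hne
        have h4 := ho3 i z hJ w h2 h3
        rw [hz.2, h] at h4
        exact absurd h4 (by simp)
      rw [h0, mul_zero]
  rw [h1]
  by_cases hW : w.1 ∈ bho P A ω κ₅ v
  · have h2 : ∑ i, ∑ z ∈ (A.md i).filter (fun z => A.φ i z = v),
        (ac (A.d i) z : ℝ) * L.ρ i (some z) w = 0 := by
      refine sum_eq_zero fun i _ => sum_eq_zero fun z hz => ?_
      rw [mem_filter] at hz
      have h0 : L.ρ i (some z) w = 0 := by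
        by_contra hne
        have h3 := (L.mρs i z hz.1 w hne).2.2.2.2.1
        rw [hz.2] at h3
        exact h3 hW
      rw [h0, mul_zero]
    rw [h2]
    positivity
  · have h2 : ∑ i, ∑ z ∈ (A.md i).filter (fun z => A.φ i z = v),
        (ac (A.d i) z : ℝ) * P.gg ω (A.X i) (A.S i) w.1 ≤ (bm v.1 + κ₅) * A.M := by
      unfold bho at hW
      rw [mem_filter, not_and] at hW
      have h4 := not_lt.1 (hW (mem_univ _))
      have h5 := hA.star v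
      linarith
    calc ∑ i, ∑ z ∈ (A.md i).filter (fun z => A.φ i z = v),
          (ac (A.d i) z : ℝ) * L.ρ i (some z) w
        ≤ ∑ i, ∑ z ∈ (A.md i).filter (fun z => A.φ i z = v),
          ((1 + η) * (P.fre ω v.1 w.1 * P.am w.1) / A.M) *
            ((ac (A.d i) z : ℝ) * P.gg ω (A.X i) (A.S i) w.1) := by
          refine sum_le_sum fun i _ => sum_le_sum fun z hz => ?_
          rw [mem_filter] at hz
          have h6 := L.mρu i z hz.1 w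
          rw [hz.2] at h6
          have h7 := mul_le_mul_of_nonneg_left h6 (Nat.cast_nonneg (α := ℝ) (ac (A.d i) z))
          refine h7.trans (le_of_eq ?_)
          ring
      _ = ((1 + η) * (P.fre ω v.1 w.1 * P.am w.1) / A.M) *
          ∑ i, ∑ z ∈ (A.md i).filter (fun z => A.φ i z = v),
            ((ac (A.d i) z : ℝ) * P.gg ω (A.X i) (A.S i) w.1) := by
          simp only [mul_sum]
      _ ≤ ((1 + η) * (P.fre ω v.1 w.1 * P.am w.1) / A.M) * ((bm v.1 + κ₅) * A.M) :=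
          mul_le_mul_of_nonneg_left h2 (by positivity)
      _ = (1 + η) * (P.fre ω v.1 w.1 * (P.am w.1 * (bm v.1 + κ₅))) := by
          field_simp

/-- slots -/
private theorem UseE_C1 (hP : ParOK P ε B) {θ θc γ : ℝ} (hω : QRc P A B θ θc γ ω)
    {bt : Fin A.k → Finset (Fin q)} {bu : Fin q × G → Finset (Fin q)}
    (L : Laws P A ω bt bu B η) (hη : 0 ≤ η) (v w : Fin q × G) (hvw : v.1 ≠ w.1) :
    ∑ i, ∑ z ∈ A.J i, (cz (A.d i) z : ℝ) * (L.ρ i (some z) v * L.κ1 i (some z) v w) ≤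
      (1 + η) * (P.fre ω v.1 w.1 * ((∑ i, (∑ z ∈ A.J i, (cz (A.d i) z : ℝ)) *
        P.SX (A.X i) v.1 w.1) / A.M ^ 2 + θ)) := by
  have hM : 0 < A.M := UseE_M A hP
  have hf0 : 0 ≤ P.fre ω v.1 w.1 := (fre_bd hP ω v.1 w.1).1
  have h1 := hω.e1 v.1 w.1 hvw
  rw [← sum_filter_of_ne (s := univ) (p := fun i => A.X i ≠ v.1 ∧ A.X i ≠ w.1)]
  · calc ∑ i ∈ univ.filter (fun i => A.X i ≠ v.1 ∧ A.X i ≠ w.1), ∑ z ∈ A.J i,
          (cz (A.d i) z : ℝ) * (L.ρ i (some z) v * L.κ1 i (some z) v w)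
        ≤ ∑ i ∈ univ.filter (fun i => A.X i ≠ v.1 ∧ A.X i ≠ w.1), ∑ z ∈ A.J i,
          ((1 + η) * P.fre ω v.1 w.1 / A.M ^ 2) * ((cz (A.d i) z : ℝ) *
            (2 / P.s (A.X i) (A.lb i z) * (P.SX (A.X i) v.1 w.1 / P.al (A.X i) v.1)) *
            (hit ω (A.X i) (A.lb i z) v.1 * P.gg ω (A.X i) (A.S i) w.1)) := by
          refine sum_le_sum fun i _ => sum_le_sum fun z hz => ?_
          have h6 := L.sκ i z hz v w
          have h7 := mul_le_mul_of_nonneg_left h6 (Nat.cast_nonneg (α := ℝ) (cz (A.d i) z))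
          refine h7.trans (le_of_eq ?_)
          ring
      _ = ((1 + η) * P.fre ω v.1 w.1 / A.M ^ 2) *
          ∑ i ∈ univ.filter (fun i => A.X i ≠ v.1 ∧ A.X i ≠ w.1), ∑ z ∈ A.J i,
          ((cz (A.d i) z : ℝ) *
            (2 / P.s (A.X i) (A.lb i z) * (P.SX (A.X i) v.1 w.1 / P.al (A.X i) v.1)) *
            (hit ω (A.X i) (A.lb i z) v.1 * P.gg ω (A.X i) (A.S i) w.1)) := by
          simp only [mul_sum]
      _ ≤ ((1 + η) * P.fre ω v.1 w.1 / A.M ^ 2) *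
          ((∑ i, (∑ z ∈ A.J i, (cz (A.d i) z : ℝ)) * P.SX (A.X i) v.1 w.1) +
            θ * A.M ^ 2) := mul_le_mul_of_nonneg_left h1 (by positivity)
      _ = (1 + η) * (P.fre ω v.1 w.1 * ((∑ i, (∑ z ∈ A.J i, (cz (A.d i) z : ℝ)) *
          P.SX (A.X i) v.1 w.1) / A.M ^ 2 + θ)) := by
          field_simp
  · intro i _ hne
    obtain ⟨z, hz, hz2⟩ := exists_ne_zero_of_sum_ne_zero hne
    obtain ⟨h2, h3⟩ := L.sκs i z hz v w (right_ne_zero_of_mul hz2)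
    exact ⟨h2.symm, h3.symm⟩

/-- medium centres -/
private theorem UseE_C2 (hP : ParOK P ε B) {θ θc γ : ℝ} (hω : QRc P A B θ θc γ ω)
    {bt : Fin A.k → Finset (Fin q)} {bu : Fin q × G → Finset (Fin q)}
    (L : Laws P A ω bt bu B η) (hη : 0 ≤ η) (v w : Fin q × G) (hvw : v.1 ≠ w.1) :
    ∑ i, ∑ z ∈ A.md i, (cz (A.d i) z : ℝ) * (L.ρ i (some z) v * L.κ1 i (some z) v w) ≤
      (1 + η) * (P.fre ω v.1 w.1 * (P.Sm v.1 w.1 *
        ((∑ i, ∑ z ∈ A.md i, (cz (A.d i) z : ℝ)) / A.M ^ 2 + θ))) := by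
  have hM : 0 < A.M := UseE_M A hP
  have hf0 : 0 ≤ P.fre ω v.1 w.1 := (fre_bd hP ω v.1 w.1).1
  have hS := hP.Sm0 v.1 w.1
  have h1 := hω.e2 v.1 w.1 hvw
  have h0 : ∀ i, ∑ z ∈ A.md i, (cz (A.d i) z : ℝ) * (L.ρ i (some z) v *
      L.κ1 i (some z) v w) = ∑ z ∈ (A.md i).filter (fun z => (A.φ i z).1 ≠ v.1 ∧
      (A.φ i z).1 ≠ w.1), (cz (A.d i) z : ℝ) * (L.ρ i (some z) v * L.κ1 i (some z) v w) := by
    intro i
    symm
    refine sum_filter_of_ne fun z hz hz2 => ?_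
    have hne := right_ne_zero_of_mul hz2
    refine ⟨fun hc => ?_, ?_⟩
    · have h3 := (L.mρs i z hz v (left_ne_zero_of_mul hne)).2.2.2.2.2
      rw [hc] at h3
      exact h3 (fre_self ω v.1)
    · exact (L.mκs i z hz v w hne).2.2.symm
  rw [sum_congr rfl fun i _ => h0 i,
    ← sum_filter_of_ne (s := univ) (p := fun i => A.X i ≠ v.1 ∧ A.X i ≠ w.1)]
  · calc ∑ i ∈ univ.filter (fun i => A.X i ≠ v.1 ∧ A.X i ≠ w.1),
          ∑ z ∈ (A.md i).filter (fun z => (A.φ i z).1 ≠ v.1 ∧ (A.φ i z).1 ≠ w.1),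
          (cz (A.d i) z : ℝ) * (L.ρ i (some z) v * L.κ1 i (some z) v w)
        ≤ ∑ i ∈ univ.filter (fun i => A.X i ≠ v.1 ∧ A.X i ≠ w.1),
          ∑ z ∈ (A.md i).filter (fun z => (A.φ i z).1 ≠ v.1 ∧ (A.φ i z).1 ≠ w.1),
          ((1 + η) * P.fre ω v.1 w.1 * P.Sm v.1 w.1 / A.M ^ 2) * ((cz (A.d i) z : ℝ) *
            (P.gg ω (A.X i) (A.S i) v.1 * P.fre ω (A.φ i z).1 v.1 *
              P.gg ω (A.X i) (A.S i) w.1)) := by
          refine sum_le_sum fun i _ => sum_le_sum fun z hz => ?_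
          have h6 := L.mκ i z (mem_filter.1 hz).1 v w
          have h7 := mul_le_mul_of_nonneg_left h6 (Nat.cast_nonneg (α := ℝ) (cz (A.d i) z))
          refine h7.trans (le_of_eq ?_)
          ring
      _ = ((1 + η) * P.fre ω v.1 w.1 * P.Sm v.1 w.1 / A.M ^ 2) *
          ∑ i ∈ univ.filter (fun i => A.X i ≠ v.1 ∧ A.X i ≠ w.1),
          ∑ z ∈ (A.md i).filter (fun z => (A.φ i z).1 ≠ v.1 ∧ (A.φ i z).1 ≠ w.1),
          ((cz (A.d i) z : ℝ) *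
            (P.gg ω (A.X i) (A.S i) v.1 * P.fre ω (A.φ i z).1 v.1 *
              P.gg ω (A.X i) (A.S i) w.1)) := by
          simp only [mul_sum]
      _ ≤ ((1 + η) * P.fre ω v.1 w.1 * P.Sm v.1 w.1 / A.M ^ 2) *
          ((∑ i, ∑ z ∈ A.md i, (cz (A.d i) z : ℝ)) + θ * A.M ^ 2) :=
          mul_le_mul_of_nonneg_left h1 (by positivity)
      _ = (1 + η) * (P.fre ω v.1 w.1 * (P.Sm v.1 w.1 *
          ((∑ i, ∑ z ∈ A.md i, (cz (A.d i) z : ℝ)) / A.M ^ 2 + θ))) := by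
          field_simp
  · intro i _ hne
    obtain ⟨z, hz, hz2⟩ := exists_ne_zero_of_sum_ne_zero hne
    obtain ⟨h2, h3, _⟩ := L.mκs i z (mem_filter.1 hz).1 v w (right_ne_zero_of_mul hz2)
    exact ⟨h2.symm, h3.symm⟩

/-- the other edges -/
private theorem UseE_C3 (hP : ParOK P ε B) {θ θc γ : ℝ} (hω : QRc P A B θ θc γ ω)
    {bt : Fin A.k → Finset (Fin q)} {bu : Fin q × G → Finset (Fin q)}
    (L : Laws P A ω bt bu B η) (hη : 0 ≤ η) (v w : Fin q × G) (hvw : v.1 ≠ w.1) :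
    ∑ i, (dp (A.d i) : ℝ) * (L.π i v * L.κ i v w) ≤
      (1 + η) * (P.fre ω v.1 w.1 * (P.S0 v.1 w.1 *
        ((∑ i, (dp (A.d i) : ℝ)) / A.M ^ 2 + θ))) := by
  have hM : 0 < A.M := UseE_M A hP
  have hf0 : 0 ≤ P.fre ω v.1 w.1 := (fre_bd hP ω v.1 w.1).1
  have hS := hP.S00 v.1 w.1
  have h1 := hω.e0 v.1 w.1 hvw
  rw [← sum_filter_of_ne (s := univ) (p := fun i => A.X i ≠ v.1 ∧ A.X i ≠ w.1)]
  · calc ∑ i ∈ univ.filter (fun i => A.X i ≠ v.1 ∧ A.X i ≠ w.1),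
          (dp (A.d i) : ℝ) * (L.π i v * L.κ i v w)
        ≤ ∑ i ∈ univ.filter (fun i => A.X i ≠ v.1 ∧ A.X i ≠ w.1),
          ((1 + η) * P.fre ω v.1 w.1 * P.S0 v.1 w.1 / A.M ^ 2) * ((dp (A.d i) : ℝ) *
            (P.gg ω (A.X i) (A.S i) v.1 * P.gg ω (A.X i) (A.S i) w.1)) := by
          refine sum_le_sum fun i _ => ?_
          have h6 := L.πκ i v w
          have h7 := mul_le_mul_of_nonneg_left h6 (Nat.cast_nonneg (α := ℝ) (dp (A.d i)))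
          refine h7.trans (le_of_eq ?_)
          ring
      _ = ((1 + η) * P.fre ω v.1 w.1 * P.S0 v.1 w.1 / A.M ^ 2) *
          ∑ i ∈ univ.filter (fun i => A.X i ≠ v.1 ∧ A.X i ≠ w.1),
          ((dp (A.d i) : ℝ) *
            (P.gg ω (A.X i) (A.S i) v.1 * P.gg ω (A.X i) (A.S i) w.1)) := by
          rw [mul_sum]
      _ ≤ ((1 + η) * P.fre ω v.1 w.1 * P.S0 v.1 w.1 / A.M ^ 2) *
          ((∑ i, (dp (A.d i) : ℝ)) + θ * A.M ^ 2) :=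
          mul_le_mul_of_nonneg_left h1 (by positivity)
      _ = (1 + η) * (P.fre ω v.1 w.1 * (P.S0 v.1 w.1 *
          ((∑ i, (dp (A.d i) : ℝ)) / A.M ^ 2 + θ))) := by
          field_simp
  · intro i _ hne
    obtain ⟨h2, h3⟩ := L.πκs i v w (right_ne_zero_of_mul hne)
    exact ⟨h2.symm, h3.symm⟩

omit [Nonempty G] in
/-- the sum over the centres is the sum over slots and medium centres -/
private theorem UseE_lH {D₁ D K Λ : ℕ} {ε₂ γ κ₄ δ₅ γh : ℝ} {bm : Fin q → ℝ}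
    (hA : PlcOK A P D₁ D K Λ B ε₂ γ κ₄ δ₅ γh bm)
    {bt : Fin A.k → Finset (Fin q)} {bu : Fin q × G → Finset (Fin q)}
    (L : Laws P A ω bt bu B η) (c : ℝ) (v w : Fin q × G) :
    lH L c v w =
      (∑ i, ∑ z ∈ A.J i, (cz (A.d i) z : ℝ) * (L.ρ i (some z) v * L.κ1 i (some z) v w)) +
      (∑ i, ∑ z ∈ A.md i, (cz (A.d i) z : ℝ) * (L.ρ i (some z) v * L.κ1 i (some z) v w)) +
      c * ∑ i, (dp (A.d i) : ℝ) * (L.π i v * L.κ i v w) := by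
  unfold lH
  rw [mul_sum, ← sum_add_distrib, ← sum_add_distrib]
  refine sum_congr rfl fun i _ => ?_
  have h1 := sum_sdiff (f := fun z => (cz (A.d i) z : ℝ) * (L.ρ i (some z) v *
    L.κ1 i (some z) v w)) (hA.JZ i)
  rw [← h1]
  unfold Plc.md
  ring

/-- the bound for the edges inside of pieces -/
private theorem UseE_lH2 (hP : ParOK P ε B) {D₁ D K Λ : ℕ} {ε₂ γ κ₄ δ₅ γh : ℝ} {bm : Fin q → ℝ}
    (hA : PlcOK A P D₁ D K Λ B ε₂ γ κ₄ δ₅ γh bm) {θ θc : ℝ} (hω : QRc P A B θ θc γ ω)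
    {bt : Fin A.k → Finset (Fin q)} {bu : Fin q × G → Finset (Fin q)}
    (L : Laws P A ω bt bu B η) (hη : 0 ≤ η) (hθ : 0 ≤ θ) (v w : Fin q × G)
    (hvw : v.1 ≠ w.1) :
    lH L (1 + η) v w ≤ (1 + η) ^ 2 * (P.fre ω v.1 w.1 *
      ((∑ i, (∑ z ∈ A.J i, (cz (A.d i) z : ℝ)) * P.SX (A.X i) v.1 w.1) / A.M ^ 2 +
        P.Sm v.1 w.1 * ((∑ i, ∑ z ∈ A.md i, (cz (A.d i) z : ℝ)) / A.M ^ 2) +
        P.S0 v.1 w.1 * ((∑ i, (dp (A.d i) : ℝ)) / A.M ^ 2) + (θ + 2 * B * θ))) := by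
  have hM : 0 < A.M := UseE_M A hP
  have hB := B_ge hP
  have hf0 : 0 ≤ P.fre ω v.1 w.1 := (fre_bd hP ω v.1 w.1).1
  rw [UseE_lH hA]
  have h1 := UseE_C1 hP hω L hη v w hvw
  have h2 := UseE_C2 hP hω L hη v w hvw
  have h3 := UseE_C3 hP hω L hη v w hvw
  have hS0 := hP.S00 v.1 w.1
  have hSm := hP.Sm0 v.1 w.1
  have hS0' : P.S0 v.1 w.1 ≤ B := by
    have h4 := hP.S0B v.1 w.1
    have h5 := hP.ε1
    nlinarith
  have hSm' : P.Sm v.1 w.1 ≤ B := by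
    have h4 := hP.SmB v.1 w.1
    have h5 := hP.ε1
    nlinarith
  have ha0 : 0 ≤ (∑ i, (∑ z ∈ A.J i, (cz (A.d i) z : ℝ)) * P.SX (A.X i) v.1 w.1) /
      A.M ^ 2 := by
    refine div_nonneg (sum_nonneg fun i _ => mul_nonneg (sum_nonneg fun z _ =>
      Nat.cast_nonneg _) (hP.SX0 _ _ _)) (by positivity)
  have hb0 : 0 ≤ (∑ i, ∑ z ∈ A.md i, (cz (A.d i) z : ℝ)) / A.M ^ 2 := by
    refine div_nonneg (sum_nonneg fun i _ => sum_nonneg fun z _ =>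
      Nat.cast_nonneg _) (by positivity)
  generalize (∑ i, (∑ z ∈ A.J i, (cz (A.d i) z : ℝ)) * P.SX (A.X i) v.1 w.1) /
      A.M ^ 2 = a at h1 ha0 ⊢
  generalize (∑ i, ∑ z ∈ A.md i, (cz (A.d i) z : ℝ)) / A.M ^ 2 = b at h2 hb0 ⊢
  generalize (∑ i, (dp (A.d i) : ℝ)) / A.M ^ 2 = c at h3 ⊢
  generalize P.S0 v.1 w.1 = S0 at *
  generalize P.Sm v.1 w.1 = Sm at *
  generalize P.fre ω v.1 w.1 = f at *
  have hx1 : 0 ≤ f * (a + θ) := by positivity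
  have hx2 : 0 ≤ f * (Sm * (b + θ)) := by positivity
  have h4 : (1 + η) * (f * (a + θ)) ≤ (1 + η) ^ 2 * (f * (a + θ)) := by
    have h5 : 1 + η ≤ (1 + η) ^ 2 := by nlinarith
    exact mul_le_mul_of_nonneg_right h5 hx1
  have h5 : (1 + η) * (f * (Sm * (b + θ))) ≤ (1 + η) ^ 2 * (f * (Sm * (b + θ))) := by
    have h5 : 1 + η ≤ (1 + η) ^ 2 := by nlinarith
    exact mul_le_mul_of_nonneg_right h5 hx2
  have h6 := mul_le_mul_of_nonneg_left h3 (show (0 : ℝ) ≤ 1 + η by linarith)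
  have h7 : (1 + η) ^ 2 * (f * (a + θ)) + (1 + η) ^ 2 * (f * (Sm * (b + θ))) +
      (1 + η) * ((1 + η) * (f * (S0 * (c + θ)))) ≤
      (1 + η) ^ 2 * (f * (a + Sm * b + S0 * c + (θ + 2 * B * θ))) := by
    have h8 : (a + θ) + Sm * (b + θ) + S0 * (c + θ) ≤
        a + Sm * b + S0 * c + (θ + 2 * B * θ) := by
      nlinarith [mul_le_mul_of_nonneg_right hS0' hθ, mul_le_mul_of_nonneg_right hSm' hθ]
    have h9 := mul_le_mul_of_nonneg_left (mul_le_mul_of_nonneg_left h8 hf0)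
      (sq_nonneg (1 + η))
    refine le_trans (le_of_eq ?_) h9
    ring
  linarith

omit [Nonempty G] in
/-- no use of blocked pairs of clusters -/
private theorem UseE_lH0 {D₁ D K Λ : ℕ} {ε₂ γ κ₄ δ₅ γh : ℝ} {bm : Fin q → ℝ}
    (hA : PlcOK A P D₁ D K Λ B ε₂ γ κ₄ δ₅ γh bm)
    {bt : Fin A.k → Finset (Fin q)} {bu : Fin q × G → Finset (Fin q)}
    (L : Laws P A ω bt bu B η) (hη : 0 ≤ η) (v w : Fin q × G)
    (hf : P.fre ω v.1 w.1 = 0) : lH L (1 + η) v w ≤ 0 := by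
  rw [UseE_lH hA]
  have h1 : ∑ i, ∑ z ∈ A.J i, (cz (A.d i) z : ℝ) * (L.ρ i (some z) v *
      L.κ1 i (some z) v w) ≤ 0 := by
    refine sum_nonpos fun i _ => sum_nonpos fun z hz => ?_
    have h6 := L.sκ i z hz v w
    rw [hf, mul_zero, zero_div, mul_zero] at h6
    exact mul_nonpos_of_nonneg_of_nonpos (Nat.cast_nonneg _) h6
  have h2 : ∑ i, ∑ z ∈ A.md i, (cz (A.d i) z : ℝ) * (L.ρ i (some z) v *
      L.κ1 i (some z) v w) ≤ 0 := by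
    refine sum_nonpos fun i _ => sum_nonpos fun z hz => ?_
    have h6 := L.mκ i z hz v w
    rw [hf, mul_zero, zero_div, mul_zero] at h6
    exact mul_nonpos_of_nonneg_of_nonpos (Nat.cast_nonneg _) h6
  have h3 : ∑ i, (dp (A.d i) : ℝ) * (L.π i v * L.κ i v w) ≤ 0 := by
    refine sum_nonpos fun i _ => ?_
    have h6 := L.πκ i v w
    rw [hf, mul_zero, zero_div, mul_zero] at h6
    exact mul_nonpos_of_nonneg_of_nonpos (Nat.cast_nonneg _) h6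
  have h4 := mul_nonpos_of_nonneg_of_nonpos (show (0 : ℝ) ≤ 1 + η by linarith) h3
  linarith

theorem use_E (hP : ParOK P ε B) {D₁ D K Λ : ℕ} {ε₂ γ κ₄ δ₅ γh : ℝ} {bm : Fin q → ℝ}
    (hA : PlcOK A P D₁ D K Λ B ε₂ γ κ₄ δ₅ γh bm) {θ θc : ℝ} (hω : QRc P A B θ θc γ ω)
    (L : Laws P A ω (btr P A ω κ₅) (bho P A ω κ₅) B η) (hη : 0 ≤ η) (hη1 : η ≤ 1 / 2)
    (hκ₅ : 0 ≤ κ₅) (hθ : 0 ≤ θ) (hγ : 0 < γ) (hε₂ : 0 ≤ ε₂) (hε₂1 : ε₂ ≤ 1)
    (hnum : 3 * η + 4 * κ₅ + 5 * B * θ ≤ ε₂ / 2) {r : ℕ}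
    (own : Sym2 ((Fin q × G) ⊕ Fin r) → Option (Fin A.k))
    (ho3 : ∀ i, ∀ z ∈ A.J i, ∀ v, hit ω (A.X i) (A.lb i z) v.1 = 1 → ¬ A.zz (A.φ i z) v →
        own s(Sum.inl (A.φ i z), Sum.inl v) = some i) (v w : Fin q × G)
    (h : own s(Sum.inl v, Sum.inl w) = none) :
    sH L v w + sH L w v + lH L (1 + η) v w + lH L (1 + η) w v ≤ 1 - ε₂ / 2 := by
  have hM : 0 < A.M := UseE_M A hP
  have hB := B_ge hP
  have h' : own s(Sum.inl w, Sum.inl v) = none := by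
    rw [Sym2.eq_swap]
    exact h
  have hfc : P.fre ω w.1 v.1 = P.fre ω v.1 w.1 := fre_comm ω w.1 v.1
  have h1 := UseE_sH hP hA L hη hκ₅ own ho3 v w h
  have h2 := UseE_sH hP hA L hη hκ₅ own ho3 w v h'
  rw [hfc] at h2
  by_cases hf : P.fre ω v.1 w.1 = 0
  · have h3 := UseE_lH0 hA L hη v w hf
    have h4 := UseE_lH0 hA L hη w v (hfc.trans hf)
    rw [hf, zero_mul, mul_zero] at h1 h2
    linarith
  · have hvw : v.1 ≠ w.1 := by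
      intro hc
      rw [hc] at hf
      exact hf (fre_self ω w.1)
    have hf0 : 0 ≤ P.fre ω v.1 w.1 := (fre_bd hP ω v.1 w.1).1
    have h3 := UseE_lH2 hP hA hω L hη hθ v w hvw
    have h4 := UseE_lH2 hP hA hω L hη hθ w v hvw.symm
    have h5 := hA.massE v.1 w.1 hvw
    rw [hfc, hP.S0s w.1 v.1] at h4
    have h6 := fre_val hP hf
    have h7 := pf_le hP v.1 w.1
    have h8 := pf_pos hP v.1 w.1
    have hmv := hP.am_lo v.1
    have hmw := hP.am_lo w.1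
    have hmv' := hP.am_hi v.1
    have hmw' := hP.am_hi w.1
    have hε0 := hP.ε0
    have hbv := hA.bm0 v.1
    have hbw := hA.bm0 w.1
    have h9 : (∑ i, (∑ z ∈ A.J i, (cz (A.d i) z : ℝ)) * (P.SX (A.X i) v.1 w.1 +
        P.SX (A.X i) w.1 v.1)) / A.M ^ 2 =
        (∑ i, (∑ z ∈ A.J i, (cz (A.d i) z : ℝ)) * P.SX (A.X i) v.1 w.1) / A.M ^ 2 +
        (∑ i, (∑ z ∈ A.J i, (cz (A.d i) z : ℝ)) * P.SX (A.X i) w.1 v.1) / A.M ^ 2 := by
      rw [← add_div, ← sum_add_distrib]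
      congr 1
      refine sum_congr rfl fun i _ => ?_
      ring
    rw [h9] at h5
    have h10 : 2 * (∑ i, (dp (A.d i) : ℝ)) / A.M ^ 2 * P.S0 v.1 w.1 =
        2 * (P.S0 v.1 w.1 * ((∑ i, (dp (A.d i) : ℝ)) / A.M ^ 2)) := by ring
    rw [h10] at h5
    exact UseE_num hη hη1 hκ₅ hθ hε₂ hε₂1 hB hnum hf0 h6 h7 (hε0.le.trans hmv)
      (hε0.le.trans hmw) (by linarith) (by linarith) hbv hbw h1 h2 h3 h4 h5

end MP_80c395_TP
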