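import Mathlib

/-!
# Project TQ: the water level

`water`: the function `x ↦ ∑ X, max (x - t X) 0` is continuous, `0` at `x = 0` (all `t X ≥ 0`), and at least
`x - t X₀` for `x` large (any fixed `X₀`, `0 < q`), so by the intermediate value theorem it takes the
value `T ≥ 0` at some `x ≥ 0`.
-/

set_option autoImplicit false

namespace MP_80c395_TP

open Finset

theorem water {q : ℕ} (hq : 0 < q) (t : Fin q → ℝ) (ht : ∀ X, 0 ≤ t X) (T : ℝ) (hT : 0 ≤ T) :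
    ∃ x : ℝ, 0 ≤ x ∧ ∑ X, max (x - t X) 0 = T := by
  have hc : Continuous fun x : ℝ => ∑ X, max (x - t X) 0 := by fun_prop
  have h0 : ∑ X, max ((0 : ℝ) - t X) 0 = 0 := by
    refine Finset.sum_eq_zero fun X _ => ?_
    exact max_eq_right (by linarith [ht X])
  obtain ⟨x₁, hx₁⟩ : ∃ x₁ : ℝ, x₁ = T + t ⟨0, hq⟩ := ⟨_, rfl⟩
  have h1 : T ≤ ∑ X, max (x₁ - t X) 0 := by
    have h2 : max (x₁ - t ⟨0, hq⟩) 0 ≤ ∑ X, max (x₁ - t X) 0 :=
      Finset.single_le_sum (f := fun X => max (x₁ - t X) 0) (fun X _ => le_max_right _ _)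
        (Finset.mem_univ _)
    have h3 := le_max_left (x₁ - t ⟨0, hq⟩) 0
    rw [hx₁] at h3 h2 ⊢
    linarith
  have hx0 : (0 : ℝ) ≤ x₁ := by
    have := ht ⟨0, hq⟩
    rw [hx₁]
    linarith
  have hmem : T ∈ Set.Icc (∑ X, max ((0 : ℝ) - t X) 0) (∑ X, max (x₁ - t X) 0) := by
    rw [h0]
    exact ⟨hT, h1⟩
  obtain ⟨x, hx, hxT⟩ := intermediate_value_Icc hx0 hc.continuousOn hmem
  exact ⟨x, hx.1, hxT⟩

end MP_80c395_TP
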